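import Pool.Agent.P.MP_c1f06d_ag.r.Coact

/-! The homogeneous space of a twisted group over a field. -/

open Matrix
open scoped TensorProduct

universe u

namespace Pool.Agent.GR

open Co

namespace Co

theorem exists_lift_inj {k B X Y : Type u} [CommRing k] [CommRing B] [Algebra k B] [CommRing X]
    [Algebra k X] [CommRing Y] [Algebra k Y] (i : X →ₐ[k] Y) (hi : Function.Injective i)
    (F : B →ₐ[k] Y) (h : ∀ b, ∃ x, i x = F b) : ∃ Φ : B →ₐ[k] X, ∀ b, i (Φ b) = F b := by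
  refine ⟨(AlgEquiv.ofInjective i hi).symm.toAlgHom.comp (F.codRestrict i.range h), fun b => ?_⟩
  exact congrArg Subtype.val
    ((AlgEquiv.ofInjective i hi).apply_symm_apply (F.codRestrict i.range h b))

theorem iR_injective {k L O : Type u} [Field k] [CommRing L] [Nontrivial L] [Algebra k L]
    [CommRing O] [Algebra k O] : Function.Injective (iR k L O) :=
  Algebra.TensorProduct.includeRight_injective (algebraMap k L).injective

theorem map_evS {k0 k1 : Type u} [CommRing k0] [CommRing k1] [Algebra k0 k1] {n : ℕ}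
    {T T' : Type u} [CommRing T] [Algebra k0 T] [Algebra k1 T] [IsScalarTower k0 k1 T]
    [CommRing T'] [Algebra k0 T'] [Algebra k1 T'] [IsScalarTower k0 k1 T'] (f : T →ₐ[k1] T')
    (g : GL (Fin n) T) (x : OGL k0 n) : f (ev k0 g x) = ev k0 (gm f g) x :=
  map_ev (f.restrictScalars k0) g x

end Co

/-- The ring of invariants of a family of points. -/
def InvAlg.of {k : Type u} [Field k] {n : ℕ}
    (GG : ∀ {A : Type u} [CommRing A] [Algebra k A], GL (Fin n) A → Prop)
    (nat : ∀ {A A' : Type u} [CommRing A] [Algebra k A] [CommRing A'] [Algebra k A']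
      (f : A →ₐ[k] A') {g : GL (Fin n) A}, GG g → GG (gm f g)) : InvAlg k n where
  B :=
    { carrier := {f | ∀ (A : Type u) [CommRing A] [Algebra k A] (g g' : GL (Fin n) A),
        GG g' → ev k (g * g') f = ev k g f}
      mul_mem' := fun ha hb A _ _ g g' hg => by
        rw [map_mul, map_mul, ha A g g' hg, hb A g g' hg]
      add_mem' := fun ha hb A _ _ g g' hg => by
        rw [map_add, map_add, ha A g g' hg, hb A g g' hg]
      algebraMap_mem' := fun c A _ _ g g' _ => by rw [AlgHom.commutes, AlgHom.commutes] }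
  GG := GG
  nat := nat
  mem := fun _ => Iff.rfl

namespace AffQuot

section ring

variable {k : Type u} [Field k] {n : ℕ} {G H : AffQuot k n} {R : Type u} [CommRing R]
  [Algebra k R] {z : H.B →ₐ[k] R} {T T' : Type u} [CommRing T] [Algebra R T] [CommRing T']
  [Algebra R T']

theorem TwPt.map (f : T →ₐ[R] T') {g : GL (Fin n) T} (hg : G.TwPt H z g) :
    G.TwPt H z (gm f g) := fun T'' _ _ φ γ hγ =>
  hg T'' (φ.comp (f : T →+* T')) γ fun b => by
    rw [hγ b, RingHom.comp_apply, RingHom.coe_coe, AlgHom.commutes]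

theorem compat {T'' : Type u} [CommRing T''] [Algebra k T''] (φ : T →+* T'')
    (γ : GL (Fin n) T'') (hγ : ∀ b : H.B, ev k γ b = φ (algebraMap R T (z b))) (c : k) :
    φ (algebraMap R T (algebraMap k R c)) = algebraMap k T'' c := by
  rw [← z.commutes c, ← hγ]
  exact (ev k γ).commutes c

/-- Over a ring where the twisting torsor has the section `δ`, the twist is `δ G δ⁻¹`. -/
theorem twPt_iff_sec (hN : H.Normalizes G) [Algebra k T] [IsScalarTower k R T] (δ : GL (Fin n) T)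
    (hδ : ∀ b : H.B, ev k δ b = algebraMap R T (z b)) (g : GL (Fin n) T) :
    G.TwPt H z g ↔ G.Pt (δ⁻¹ * g * δ) := by
  refine ⟨fun h => h T (RingHom.id T) δ hδ, fun h T'' _ _ φ γ hγ => ?_⟩
  let φ' : T →ₐ[k] T'' :=
    { φ with
      commutes' := fun c => by
        rw [IsScalarTower.algebraMap_apply k R T]
        exact compat φ γ hγ c }
  have h1 : H.Pt ((gm φ' δ)⁻¹ * γ) := (H.pt_iff _ _).2 fun b hb => by
    rw [← map_ev, hδ ⟨b, hb⟩, hγ ⟨b, hb⟩]
    rfl
  have h2 := hN T'' _ _ h1.inv (h.map φ')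
  have e : ((gm φ' δ)⁻¹ * γ)⁻¹ * gm φ' (δ⁻¹ * g * δ) * ((gm φ' δ)⁻¹ * γ)⁻¹⁻¹ =
      γ⁻¹ * gm φ' g * γ := by
    rw [MonoidHom.map_mul, MonoidHom.map_mul, MonoidHom.map_inv]
    group
  rw [e] at h2
  exact h2

end ring

variable {k0 k1 : Type u} [Field k0] [Field k1] [Algebra k0 k1] {n : ℕ} (G H : AffQuot k0 n)
  (z : H.B →ₐ[k0] k1)

/-- The invariants of the twisted group. -/
def tw : InvAlg k1 n := InvAlg.of (fun g => G.TwPt H z g) fun f _ h => h.map f

theorem tw_GG {A : Type u} [CommRing A] [Algebra k1 A] (g : GL (Fin n) A) :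
    (G.tw H z).GG g ↔ G.TwPt H z g := Iff.rfl

/-- The twisting torsor has a point over an extension field. -/
theorem exists_section : ∃ (l : Type u) (_ : Field l) (_ : Algebra k1 l) (_ : Algebra k0 l)
    (_ : IsScalarTower k0 k1 l) (γ : GL (Fin n) l),
      ∀ b : H.B, ev k0 γ b = algebraMap k1 l (z b) := by
  obtain ⟨A, _, _, _, _, _, -, γ, hγ⟩ := H.exists_cover z
  have : Nontrivial A := (FaithfulSMul.algebraMap_injective k1 A).nontrivial
  obtain ⟨m, hm⟩ := Ideal.exists_maximal A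
  let _ : Field (A ⧸ m) := Ideal.Quotient.field m
  refine ⟨A ⧸ m, inferInstance, inferInstance, inferInstance, inferInstance,
    gm (Ideal.Quotient.mkₐ k0 m) γ, fun b => ?_⟩
  rw [← map_ev, ← H.inv.res_apply γ b, hγ]
  rfl

variable {G H z} {l : Type u} [Field l] [Algebra k1 l] [Algebra k0 l] [IsScalarTower k0 k1 l]
  {γ : GL (Fin n) l}

section

variable {T T' : Type u} [CommRing T] [Algebra k1 T] [Algebra k0 T] [IsScalarTower k0 k1 T]
  [CommRing T'] [Algebra k1 T'] [Algebra k0 T'] [IsScalarTower k0 k1 T']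

theorem sec_map (hγ : ∀ b : H.B, ev k0 γ b = algebraMap k1 l (z b)) (ι : l →ₐ[k1] T) (b : H.B) :
    ev k0 (gm ι γ) b = algebraMap k1 T (z b) := by
  rw [← map_evS, hγ, AlgHom.commutes]

theorem twPt_iff_l (hN : H.Normalizes G) (hγ : ∀ b : H.B, ev k0 γ b = algebraMap k1 l (z b))
    (ι : l →ₐ[k1] T) (g : GL (Fin n) T) :
    G.TwPt H z g ↔ G.Pt ((gm ι γ)⁻¹ * g * gm ι γ) :=
  twPt_iff_sec hN _ (sec_map hγ ι) g

end

theorem twPt_of_iR {A : Type u} [CommRing A] [Algebra k1 A] {g : GL (Fin n) A}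
    (h : G.TwPt H z (gm (iR k1 l A) g)) : G.TwPt H z g := by
  intro T _ _ φ δ hδ
  let _ : Algebra k1 T := (φ.comp (algebraMap k1 A)).toAlgebra
  have : IsScalarTower k0 k1 T := IsScalarTower.of_algebraMap_eq fun c => by
    have := compat (R := k1) φ δ hδ c
    exact this.symm
  let φ' : A →ₐ[k1] T := { φ with commutes' := fun _ => rfl }
  have h1 := h.map (Algebra.TensorProduct.map (AlgHom.id k1 l) φ') (l ⊗[k1] T) (RingHom.id _)
    (gm (iR k1 l T) δ) fun b => by
      rw [← map_evS, hδ]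
      exact (iR k1 l T).commutes (z b)
  refine Pt.of_inj ((iR k1 l T).restrictScalars k0) iR_injective ?_
  rw [gm_gm, map_iR] at h1
  rw [MonoidHom.map_mul, MonoidHom.map_mul, MonoidHom.map_inv]
  exact h1

theorem exists_Phi (hN : H.Normalizes G) (hγ : ∀ b : H.B, ev k0 γ b = algebraMap k1 l (z b)) :
    ∃ Φ : G.B →ₐ[k0] l ⊗[k1] (G.tw H z).B, ∀ b, inc l (G.tw H z).B (Φ b) =
      ev k0 (gm (iR k1 l _) (ug k1 n) * gm (iL k1 l _) γ) b := by
  refine exists_lift_inj ((inc l (G.tw H z).B).restrictScalars k0) (inc_injective _)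
    (G.inv.res (gm (iR k1 l _) (ug k1 n) * gm (iL k1 l _) γ)) fun b => ?_
  refine (G.tw H z).exists_inc _ fun A _ _ g g' hg => ?_
  have e : ∀ g : GL (Fin n) A, Algebra.TensorProduct.map (AlgHom.id k1 l) (ev k1 g)
      (G.inv.res (gm (iR k1 l _) (ug k1 n) * gm (iL k1 l _) γ) b) =
      ev k0 (gm (iR k1 l A) g * gm (iL k1 l A) γ) b := by
    intro g
    rw [InvAlg.res_apply, map_evS, MonoidHom.map_mul, gm_gm, gm_gm, map_iL, map_iR, ← gm_gm,
      gm_ev_ug]
  rw [e, e]
  have h1 := (twPt_iff_l hN hγ (iL k1 l A) _).1 (TwPt.map (iR k1 l A) hg)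
  rw [← h1.ev_mul (gm (iR k1 l A) g * gm (iL k1 l A) γ) b b.2, MonoidHom.map_mul]
  congr 2
  group

section Phi

variable (Φ : G.B →ₐ[k0] l ⊗[k1] (G.tw H z).B)

/-- The `l`-linear extension of `Φ`. -/
noncomputable def phiL : l ⊗[k0] G.B →ₐ[l] l ⊗[k1] (G.tw H z).B :=
  Algebra.TensorProduct.lift (Algebra.ofId l _) Φ fun _ _ => Commute.all _ _

theorem phiL_tmul (a : l) (b : G.B) : phiL Φ (a ⊗ₜ b) = iL k1 l _ a * Φ b := rfl

variable {Φ}

theorem phiL_surjective (hN : H.Normalizes G)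
    (hγ : ∀ b : H.B, ev k0 γ b = algebraMap k1 l (z b))
    (hΦ : ∀ b, inc l (G.tw H z).B (Φ b) =
      ev k0 (gm (iR k1 l _) (ug k1 n) * gm (iL k1 l _) γ) b) :
    Function.Surjective (phiL Φ) := by
  have key : ∀ f : (G.tw H z).B, ∃ w, phiL Φ w = iR k1 l _ f := by
    intro f
    let ι : ∀ (A : Type u) [CommRing A] [Algebra k0 A], l →ₐ[k1] l ⊗[k0] A :=
      fun A _ _ => Algebra.TensorProduct.includeLeft
    have e : ∀ (A : Type u) [CommRing A] [Algebra k0 A] (g : GL (Fin n) A),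
        Algebra.TensorProduct.map (AlgHom.id k0 l) (ev k0 g)
          (ev k1 (gm (iR k0 l _) (ug k0 n) * (gm (ι _) γ)⁻¹) f) =
          ev k1 (gm (iR k0 l A) g * (gm (ι A) γ)⁻¹) f := by
      intro A _ _ g
      refine (map_ev (Algebra.TensorProduct.map (AlgHom.id k1 l) (ev k0 g)) _ _).trans ?_
      rw [MonoidHom.map_mul, MonoidHom.map_inv]
      congr 3
      · ext i j
        show (1 : l) ⊗ₜ[k0] ev k0 g (ug k0 n i j) = 1 ⊗ₜ g i j
        rw [ev_ug_apply]
      · congr 1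
        ext i j
        show γ i j ⊗ₜ[k0] ev k0 g 1 = γ i j ⊗ₜ 1
        rw [map_one]
    obtain ⟨w, hw⟩ := G.inv.exists_inc (L := l)
      (ev k1 (gm (iR k0 l _) (ug k0 n) * (gm (ι _) γ)⁻¹) f) fun A _ _ g g' hg => by
        rw [e, e]
        have h1 : G.TwPt H z (gm (ι A) γ * gm (iR k0 l A) g' * (gm (ι A) γ)⁻¹) := by
          rw [twPt_iff_l hN hγ (ι A)]
          have := Pt.map (iR k0 l A) hg
          refine (congrArg G.Pt ?_).mpr this
          group
        rw [← ((G.tw H z).mem _).1 f.2 _ (gm (iR k0 l A) g * (gm (ι A) γ)⁻¹) _ h1,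
          MonoidHom.map_mul]
        congr 2
        group
    refine ⟨w, inc_injective (L := l) _ ?_⟩
    let Θ : l ⊗[k0] OGL k0 n →ₐ[k1] l ⊗[k1] OGL k1 n :=
      Algebra.TensorProduct.lift (iL k1 l _)
        (ev k0 (gm (iR k1 l _) (ug k1 n) * gm (iL k1 l _) γ)) fun _ _ => Commute.all _ _
    have hΘ : ∀ a x, Θ (a ⊗ₜ x) = iL k1 l _ a *
        ev k0 (gm (iR k1 l _) (ug k1 n) * gm (iL k1 l _) γ) x :=
      fun a x => Algebra.TensorProduct.lift_tmul _ _ _ a x
    have h1 : ∀ w, inc l (G.tw H z).B (phiL Φ w) = Θ (inc l G.B w) := by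
      intro w
      induction w using TensorProduct.induction_on with
      | zero => simp only [map_zero]
      | tmul a b =>
        rw [phiL_tmul, map_mul, hΦ]
        congr 1
      | add x y hx hy => simp only [map_add, hx, hy]
    rw [h1, hw, map_ev, MonoidHom.map_mul, MonoidHom.map_inv]
    have h2 : gm Θ (gm (iR k0 l _) (ug k0 n)) = gm (iR k1 l _) (ug k1 n) * gm (iL k1 l _) γ := by
      ext i j
      refine (hΘ (1 : l) (ug k0 n i j)).trans ?_
      rw [map_one, one_mul, ev_ug_apply]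
    have h3 : gm Θ (gm (ι _) γ) = gm (iL k1 l _) γ := by
      ext i j
      refine (hΘ (γ i j) (1 : OGL k0 n)).trans ?_
      rw [map_one, mul_one]
      rfl
    rw [h2, h3, mul_inv_cancel_right, ev_gm_ug]
    rfl
  intro x
  induction x using TensorProduct.induction_on with
  | zero => exact ⟨0, map_zero _⟩
  | tmul a f =>
    obtain ⟨w, hw⟩ := key f
    refine ⟨a • w, ?_⟩
    rw [map_smul, hw]
    show a • ((1 : l) ⊗ₜ[k1] f) = _
    rw [TensorProduct.smul_tmul', smul_eq_mul, mul_one]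
  | add x y hx hy =>
    obtain ⟨a, rfl⟩ := hx
    obtain ⟨b, rfl⟩ := hy
    exact ⟨a + b, map_add _ _ _⟩

variable {T T' : Type u} [CommRing T] [Algebra k1 T] [Algebra k0 T] [IsScalarTower k0 k1 T]
  [CommRing T'] [Algebra k1 T'] [Algebra k0 T'] [IsScalarTower k0 k1 T']

variable (Φ) in
/-- The point of `GL_n / G` attached to a point of the twisted quotient over an `l`-algebra. -/
noncomputable def hat (ι : l →ₐ[k1] T) (y : (G.tw H z).B →ₐ[k1] T) : G.inv.B →ₐ[k0] T :=
  ((pm ι y).restrictScalars k0).comp Φ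

theorem hat_apply (ι : l →ₐ[k1] T) (y : (G.tw H z).B →ₐ[k1] T) (b : G.B) :
    hat Φ ι y b = pm ι y (Φ b) := rfl

theorem hat_nat (p : T →ₐ[k1] T') (ι : l →ₐ[k1] T) (y : (G.tw H z).B →ₐ[k1] T) :
    (p.restrictScalars k0).comp (hat Φ ι y) = hat Φ (p.comp ι) (p.comp y) :=
  AlgHom.ext fun b => DFunLike.congr_fun (comp_pm p ι y) (Φ b)

theorem hat_res (hΦ : ∀ b, inc l (G.tw H z).B (Φ b) =
      ev k0 (gm (iR k1 l _) (ug k1 n) * gm (iL k1 l _) γ) b) (ι : l →ₐ[k1] T)
    (δ : GL (Fin n) T) : hat Φ ι ((G.tw H z).res δ) = G.inv.res (δ * gm ι γ) := by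
  refine AlgHom.ext fun (b : G.B) => ?_
  rw [hat_apply, InvAlg.res, ← pm_map, AlgHom.comp_apply, hΦ, map_evS, MonoidHom.map_mul, gm_gm,
    gm_gm, pm_iL, pm_iR, gm_ev_ug, InvAlg.res_apply]

theorem hat_act_of (p : T →ₐ[k1] T') (ι : l →ₐ[k1] T) (g : GL (Fin n) T)
    (y : (G.tw H z).B →ₐ[k1] T) :
    (p.restrictScalars k0).comp (hat Φ ι ((G.tw H z).act g y)) =
        hat Φ (p.comp ι) ((G.tw H z).act (gm p g) (p.comp y)) ∧
      (p.restrictScalars k0).comp (G.inv.act g (hat Φ ι y)) =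
        G.inv.act (gm p g) (hat Φ (p.comp ι) (p.comp y)) := by
  constructor
  · rw [hat_nat, (G.tw H z).act_nat]
  · rw [G.inv.act_nat, hat_nat]
    rfl

theorem hat_act_res (hΦ : ∀ b, inc l (G.tw H z).B (Φ b) =
      ev k0 (gm (iR k1 l _) (ug k1 n) * gm (iL k1 l _) γ) b) (ι : l →ₐ[k1] T)
    (g δ : GL (Fin n) T) :
    hat Φ ι ((G.tw H z).act g ((G.tw H z).res δ)) =
      G.inv.act g (hat Φ ι ((G.tw H z).res δ)) := by
  rw [(G.tw H z).act_res, hat_res hΦ ι (g * δ), hat_res hΦ ι δ, G.inv.act_res, mul_assoc]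

theorem hat_act (hΦ : ∀ b, inc l (G.tw H z).B (Φ b) =
      ev k0 (gm (iR k1 l _) (ug k1 n) * gm (iL k1 l _) γ) b) (ι : l →ₐ[k1] T)
    (g : GL (Fin n) T) (y : (G.tw H z).B →ₐ[k1] T) :
    hat Φ ι ((G.tw H z).act g y) = G.inv.act g (hat Φ ι y) := by
  have e : ∀ (ι : l →ₐ[k1] T ⊗[k1] (G.tw H z).B) (g : GL (Fin n) (T ⊗[k1] (G.tw H z).B)),
      hat Φ ι ((G.tw H z).act g (iR k1 T _)) = G.inv.act g (hat Φ ι (iR k1 T _)) := by
    intro ι g
    apply comp_cancel ((inc T (G.tw H z).B).restrictScalars k0) (inc_injective _)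
    obtain ⟨h1, h2⟩ := hat_act_of (Φ := Φ) (inc T (G.tw H z).B) ι g (iR k1 T _)
    rw [h1, h2, InvAlg.inc_iR]
    exact hat_act_res hΦ _ _ _
  obtain ⟨h1, h2⟩ := hat_act_of (Φ := Φ) (pm (AlgHom.id k1 T) y) ((iL k1 T _).comp ι)
    (gm (iL k1 T _) g) (iR k1 T _)
  have h3 : gm (pm (AlgHom.id k1 T) y) (gm (iL k1 T _) g) = g := by rw [gm_gm, pm_iL, gm_id]
  have h4 : (pm (AlgHom.id k1 T) y).comp ((iL k1 T _).comp ι) = ι := by
    rw [← AlgHom.comp_assoc, pm_iL, AlgHom.id_comp]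
  rw [h3, h4, pm_iR] at h1 h2
  rw [← h1, ← h2, e]

theorem hat_inj (hs : Function.Surjective (phiL Φ)) (ι : l →ₐ[k1] T)
    {y y' : (G.tw H z).B →ₐ[k1] T} (h : hat Φ ι y = hat Φ ι y') : y = y' := by
  have e : ∀ w, pm ι y (phiL Φ w) = pm ι y' (phiL Φ w) := by
    intro w
    induction w using TensorProduct.induction_on with
    | zero => simp only [map_zero]
    | tmul a b =>
      rw [phiL_tmul, map_mul, map_mul, ← hat_apply, ← hat_apply, h]
      congr 1
      exact (DFunLike.congr_fun (pm_iL ι y) a).trans (DFunLike.congr_fun (pm_iL ι y') a).symm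
    | add x y hx hy => simp only [map_add, hx, hy]
  ext f
  obtain ⟨w, hw⟩ := hs (iR k1 l _ f)
  have := e w
  rw [hw] at this
  exact (DFunLike.congr_fun (pm_iR ι y) f).symm.trans
    (this.trans (DFunLike.congr_fun (pm_iR ι y') f))

end Phi

variable (z)

theorem tw_ft (hN : H.Normalizes G) : Algebra.FiniteType k1 (G.tw H z).B := by
  obtain ⟨l, _, _, _, _, γ, hγ⟩ := H.exists_section z
  obtain ⟨Φ, hΦ⟩ := exists_Phi hN hγ
  have := G.ft
  have : Algebra.FiniteType l (l ⊗[k1] (G.tw H z).B) :=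
    Algebra.FiniteType.of_surjective (phiL Φ) (phiL_surjective hN hγ hΦ)
  exact Algebra.FiniteType.of_finiteType_tensorProduct_of_faithfullyFlat l

theorem tw_t2 (hN : H.Normalizes G) : (G.tw H z).T2 := by
  obtain ⟨l, _, _, _, _, γ, hγ⟩ := H.exists_section z
  obtain ⟨Φ, hΦ⟩ := exists_Phi hN hγ
  intro A _ _ J hJ y y' h
  let _ : Algebra k0 A := ((algebraMap k1 A).comp (algebraMap k0 k1)).toAlgebra
  have : IsScalarTower k0 k1 A := IsScalarTower.of_algebraMap_eq fun _ => rfl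
  let j := IsScalarTower.toAlgHom k1 A (A ⊗[k1] l)
  obtain ⟨g, hg, e⟩ := G.t2 (A ⊗[k1] l) (J.map (algebraMap A _))
    (by rw [← Ideal.map_mul, hJ, Ideal.map_bot]) (hat Φ (iR k1 A l) (j.comp y))
    (hat Φ (iR k1 A l) (j.comp y')) fun b => by
      rw [hat_apply, hat_apply]
      generalize Φ b = w
      induction w using TensorProduct.induction_on with
      | zero => simp only [map_zero, sub_zero, Ideal.zero_mem]
      | tmul a f =>
        rw [Algebra.TensorProduct.lift_tmul, Algebra.TensorProduct.lift_tmul, ← mul_sub]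
        apply Ideal.mul_mem_left
        have := Ideal.mem_map_of_mem (algebraMap A (A ⊗[k1] l)) (h f)
        rwa [map_sub] at this
      | add a b ha hb =>
        rw [map_add, map_add, add_sub_add_comm]
        exact Ideal.add_mem _ ha hb
  rw [← hat_act hΦ] at e
  exact (G.tw H z).t2_descend (tw_ft z hN) J hJ y y' g hg
    (hat_inj (phiL_surjective hN hγ hΦ) _ e)

/-- The homogeneous space of the twisted group. -/
@[reducible] noncomputable def twHS (hN : H.Normalizes G) : HS k1 n :=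
  (G.tw H z).toHS (tw_ft z hN) (tw_t2 z hN)

theorem mem_twHS_G (hN : H.Normalizes G) (A : Type u) [CommRing A] [Algebra k1 A]
    (g : GL (Fin n) A) : g ∈ (twHS z hN).G A ↔ G.TwPt H z g := by
  rw [InvAlg.mem_toHS_G]
  refine ⟨fun h => ?_, fun h => by rw [← one_mul g, (G.tw H z).res_mul h]⟩
  obtain ⟨l, _, _, _, _, γ, hγ⟩ := H.exists_section z
  obtain ⟨Φ, hΦ⟩ := exists_Phi hN hγ
  apply twPt_of_iR (l := l)
  rw [twPt_iff_l hN hγ (iL k1 l A), mul_assoc, ← res_eq_iff, ← hat_res hΦ, ← InvAlg.comp_res, h,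
    InvAlg.comp_res, hat_res hΦ, MonoidHom.map_one, one_mul]

end AffQuot

end Pool.Agent.GR
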