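import Pool.Agent.P.MP_c1f06d_ag.r.Grad

/-! The graded lifting lemma and its first consequences. -/

open Matrix hiding single
open AddMonoidAlgebra

universe u

namespace Pool.Agent.GR

/-- Three graded families of submodules, closed under the graded products. -/
structure Gr3 {k Λ : Type u} [Field k] [CommRing Λ] [Algebra k Λ] {Γ : Type} [AddCommGroup Γ]
    (A I I' : Γ → Submodule k Λ) : Prop where
  le1 : ∀ δ, I δ ≤ A δ
  le2 : ∀ δ, I' δ ≤ I δ
  one : (1 : Λ) ∈ A 0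
  aa : ∀ δ δ' x y, x ∈ A δ → y ∈ A δ' → x * y ∈ A (δ + δ')
  ai : ∀ δ δ' x y, x ∈ A δ → y ∈ I δ' → x * y ∈ I (δ + δ')
  ai' : ∀ δ δ' x y, x ∈ A δ → y ∈ I' δ' → x * y ∈ I' (δ + δ')
  ii : ∀ δ δ' x y, x ∈ I δ → y ∈ I δ' → x * y ∈ I' (δ + δ')
  inv : ∀ x ∈ I 0, ∃ z ∈ A 0, (1 + x) * z = 1

section aux

variable {k Λ : Type u} [Field k] [CommRing Λ] [Algebra k Λ] {Γ : Type} [AddCommGroup Γ] {n : ℕ}

/-- Everything in degree zero, the ideal `J` in the other degrees. -/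
def jfam (k : Type u) [Field k] [Algebra k Λ] (J : Ideal Λ) (δ : Γ) : Submodule k Λ where
  carrier := {x | δ ≠ 0 → x ∈ J}
  add_mem' := fun ha hb h => add_mem (ha h) (hb h)
  zero_mem' := fun _ => zero_mem _
  smul_mem' := fun r _ hx h => by
    rw [Algebra.smul_def]
    exact J.mul_mem_left _ (hx h)

theorem jfam_top (J : Ideal Λ) (x : Λ) : x ∈ jfam k J (0 : Γ) := fun h => (h rfl).elim

theorem jfam_mul (J : Ideal Λ) : GMul (Γ := Γ) (jfam k J) (jfam k J) (jfam k J) := by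
  intro δ δ' x y hx hy h
  by_cases e : δ = 0
  · exact J.mul_mem_left _ (hy fun e' => h (by rw [e, e', add_zero]))
  · exact J.mul_mem_right _ (hx e)

theorem jfam_zero {J : Ideal Λ} (hJ : J * J = ⊥) (δ : Γ) (h : δ ≠ 0) :
    ∀ x ∈ jfam k J δ, ∀ y ∈ jfam k J (-δ), x * y = 0 := fun _ hx _ hy =>
  Ideal.mem_bot.1 (hJ ▸ Ideal.mul_mem_mul (hx h) (hy (neg_ne_zero.2 h)))

theorem inv_sub_one_mem {J : Ideal Λ} {g : GL (Fin n) Λ}
    (h : ∀ i j, ((g : Mat n Λ) - 1) i j ∈ J) (i j : Fin n) :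
    (((g⁻¹ : GL (Fin n) Λ) : Mat n Λ) - 1) i j ∈ J := by
  rw [inv_sub_one, Matrix.neg_apply, Matrix.mul_apply]
  exact neg_mem (Ideal.sum_mem _ fun l _ => J.mul_mem_left _ (h l j))

theorem det_sub_one_mem {J : Ideal Λ} {M : Mat n Λ} (h : ∀ i j, (M - 1) i j ∈ J) :
    M.det - 1 ∈ J := by
  have e : (Ideal.Quotient.mk J).mapMatrix M = 1 := by
    rw [← map_one (Ideal.Quotient.mk J).mapMatrix]
    exact Matrix.ext fun i j => Ideal.Quotient.eq.2 (h i j)
  rw [← Ideal.Quotient.eq, RingHom.map_det, e, det_one, map_one]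

end aux

namespace HS

variable {k : Type u} [Field k] {n : ℕ} (H : HS k n) {Λ : Type u} [CommRing Λ] [Algebra k Λ]
  {Γ : Type} [AddCommGroup Γ]

/-- The square zero step over a ring `Q` graded by the coaction `Th`. -/
theorem cl0 {Q : Type u} [CommRing Q] [Algebra k Q] (Th : Q →ₐ[k] GA Q Γ) (J : Ideal Q)
    (hJ : J * J = ⊥) (hT : ∀ q ∈ J, ∀ δ, (Th q).coeff δ ∈ J)
    (h0 : ∀ q, Th ((Th q).coeff 0) = single 0 ((Th q).coeff 0)) (c : Fin n → Γ)
    (y : H.B →ₐ[k] Q) (hy : H.orb c y = Th.comp y)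
    (h1 : ∀ b δ, δ ≠ 0 → (Th (y b)).coeff δ ∈ J) (h2 : ∀ b, y b - (Th (y b)).coeff 0 ∈ J) :
    ∃ (ξ : Mat n Q) (l : GL (Fin n) Q), (∀ i j, ξ i j ∈ J) ∧
      (∀ i j, ((l : Mat n Q) - 1) i j = (Th (ξ i j)).coeff (c i - c j)) ∧
      ∀ b, Th (H.act l y b) = single 0 (H.act l y b) := by
  classical
  let yf : H.B →ₐ[k] Q := (ev0 (jfam_top J 1) (jfam_mul J) (jfam_zero hJ)).comp
    ((Th.comp y).codRestrict _ fun b δ h => h1 b δ h)
  obtain ⟨g, hg, e⟩ := H.t2 J hJ y yf h2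
  have e1 : Th.comp yf = (IsScalarTower.toAlgHom k Q (GA Q Γ)).comp yf :=
    AlgHom.ext fun b => h0 (y b)
  have e2 : H.act (rho Q (-c) * gm Th g * (rho Q (-c))⁻¹)
      ((IsScalarTower.toAlgHom k Q (GA Q Γ)).comp y) = H.orb (-c) yf := by
    rw [orb, ← e1, ← e, H.act_nat, ← hy, orb, ← H.act_mul, ← H.act_mul, rho_neg, inv_inv]
  have key : ∀ g : GL (Fin n) Q, ∀ i j δ,
      (((rho Q (-c) * gm Th g * (rho Q (-c))⁻¹ : GL (Fin n) (GA Q Γ)) : Mat n (GA Q Γ)) i j).coeff δ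
        = (Th (((g : Mat n Q) - 1) i j)).coeff (δ + (c i - c j)) +
          if δ = 0 then (1 : Mat n Q) i j else 0 := by
    intro g i j δ
    have : δ - ((-c) i - (-c) j) = δ + (c i - c j) := by
      simp only [Pi.neg_apply]
      abel
    rw [coeff_conj, this, gm_apply, Matrix.sub_apply, map_sub, coeff_sub, Finsupp.sub_apply]
    by_cases e : i = j
    · subst e
      simp [one_def, Finsupp.single_apply, eq_comm]
    · simp [e]
  have key2 : ∀ g : GL (Fin n) Q, (∀ i j, ((g : Mat n Q) - 1) i j ∈ J) → ∀ i j δ,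
      (((rho Q (-c) * gm Th g * (rho Q (-c))⁻¹ : GL (Fin n) (GA Q Γ)) : Mat n (GA Q Γ)) i j).coeff δ
        ∈ jfam k J δ := fun g hg i j δ h => by
    rw [key, if_neg h, add_zero]
    exact hT _ (hg i j) _
  obtain ⟨l, hl, -, hl2⟩ := H.act_ev0 (jfam_top J) (jfam_mul J) (jfam_zero hJ) _ (key2 g hg)
    (by
      have : (rho Q (-c) * gm Th g * (rho Q (-c))⁻¹)⁻¹ =
          rho Q (-c) * gm Th g⁻¹ * (rho Q (-c))⁻¹ := by
        rw [map_inv]
        group
      rw [this]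
      exact key2 _ (inv_sub_one_mem hg)) y
  refine ⟨(g : Mat n Q) - 1, l, hg, fun i j => ?_, fun b => ?_⟩
  · rw [Matrix.sub_apply, hl, key, if_pos rfl, zero_add, add_sub_cancel_right]
  · let Q0 := AlgHom.equalizer Th (IsScalarTower.toAlgHom k Q (GA Q Γ))
    have e3 : yf = Q0.val.comp (yf.codRestrict Q0 fun b => h0 (y b)) := rfl
    rw [hl2, e2, e3]
    show Th (H.cf _ _ _ _) = single 0 (H.cf _ _ _ _)
    rw [cf_nat]
    exact (H.cf (-c) (yf.codRestrict Q0 fun b => h0 (y b)) 0 b).2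

/-- CL: the graded lifting lemma. -/
theorem cl {A I I' : Γ → Submodule k Λ} (h : Gr3 A I I') (c : Fin n → Γ) (y : H.B →ₐ[k] Λ)
    (hA : ∀ δ b, H.cf c y δ b ∈ A δ) (hI : ∀ δ, δ ≠ 0 → ∀ b, H.cf c y δ b ∈ I δ) :
    ∃ p : GL (Fin n) Λ, (∀ i j, ((p : Mat n Λ) - 1) i j ∈ I (c i - c j)) ∧
      (∀ i j, (((p⁻¹ : GL (Fin n) Λ) : Mat n Λ) - 1) i j ∈ I (c i - c j)) ∧
      (∀ δ b, H.cf c (H.act p y) δ b ∈ A δ) ∧
      ∀ δ, δ ≠ 0 → ∀ b, H.cf c (H.act p y) δ b ∈ I' δ := by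
  classical
  let S := gsub A h.one h.aa
  let II : Ideal S := gid h.one h.aa I h.ai
  let II' : Ideal S := gid h.one h.aa I' h.ai'
  let mk : S →ₐ[k] S ⧸ II' := Ideal.Quotient.mkₐ k II'
  have mks : Function.Surjective mk := Ideal.Quotient.mkₐ_surjective k II'
  have mk0 : ∀ φ, mk φ = 0 ↔ φ ∈ II' := fun φ => Ideal.Quotient.eq_zero_iff_mem
  obtain ⟨T0, hT0⟩ := exists_th h.one h.aa
  have cT : ∀ (φ : S) δ, (((T0 φ).coeff δ : S) : GA Λ Γ) = single δ (φ.1.coeff δ) := fun φ δ =>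
    (coeff_mapAlgHom S.val (T0 φ) δ).symm.trans
      ((congrArg (fun z => z.coeff δ) (AlgHom.congr_fun hT0 φ)).trans (coeff_cm φ.1 δ))
  have cI : ∀ {K : Γ → Submodule k Λ} (φ : S) δ, φ.1.coeff δ ∈ K δ →
      ∀ δ', (((T0 φ).coeff δ : S) : GA Λ Γ).coeff δ' ∈ K δ' := fun φ δ hφ δ' => by
    rw [cT]
    exact coeff_single_mem hφ δ'
  let Th : (S ⧸ II') →ₐ[k] GA (S ⧸ II') Γ :=
    Ideal.Quotient.liftₐ II' ((mapAlgHom Γ mk).comp T0) fun φ hφ =>
      coeff_injective (Finsupp.ext fun δ =>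
        (coeff_mapAlgHom mk (T0 φ) δ).trans ((mk0 _).2 (cI φ δ (hφ δ))))
  have cTh : ∀ φ δ, (Th (mk φ)).coeff δ = mk ((T0 φ).coeff δ) := fun φ δ =>
    coeff_mapAlgHom mk (T0 φ) δ
  let J : Ideal (S ⧸ II') := II.map mk
  have hJ : ∀ q, q ∈ J ↔ ∃ φ ∈ II, mk φ = q := fun q => Ideal.mem_map_iff_of_surjective mk mks
  have hJJ : J * J = ⊥ := by
    refine le_bot_iff.1 (Ideal.mul_le.2 fun a ha b hb => ?_)
    obtain ⟨a, ha', rfl⟩ := (hJ a).1 ha
    obtain ⟨b, hb', rfl⟩ := (hJ b).1 hb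
    rw [← map_mul, Ideal.mem_bot, mk0]
    exact GMul.coeff_mul h.ii ha' hb'
  let yS : H.B →ₐ[k] S := (H.orb c y).codRestrict S fun b δ => hA δ b
  have eS : S.val.comp yS = H.orb c y := rfl
  have e1 : H.orb c yS = T0.comp yS := AlgHom.ext fun b =>
    mapAlgHom_inj S.val Subtype.val_injective (by
      have := H.orb_nat S.val c yS
      rw [eS, ← H.cm_orb] at this
      exact (AlgHom.congr_fun this b).trans (AlgHom.congr_fun hT0 (yS b)).symm)
  obtain ⟨ξ, l, hξ, hl, hl2⟩ := H.cl0 Th J hJJ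
    (fun q hq δ => by
      obtain ⟨φ, hφ, rfl⟩ := (hJ q).1 hq
      exact (hJ _).2 ⟨_, cI φ δ (hφ δ), (cTh φ δ).symm⟩)
    (fun q => by
      obtain ⟨φ, rfl⟩ := mks q
      refine coeff_injective (Finsupp.ext fun δ => ?_)
      rw [cTh, cTh, coeff_single, Finsupp.single_apply]
      split_ifs with e
      · subst e
        refine congrArg mk (Subtype.ext ?_)
        rw [cT, cT]
        simp
      · have : (T0 ((T0 φ).coeff 0)).coeff δ = 0 := Subtype.ext (by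
          rw [cT, cT]
          simp [Finsupp.single_eq_of_ne (Ne.symm e)])
        rw [this, map_zero]) c (mk.comp yS)
    (by
      rw [← H.orb_nat, e1]
      rfl)
    (fun b δ hδ => (hJ _).2 ⟨_, cI (yS b) δ (hI δ hδ b), (cTh _ δ).symm⟩)
    (fun b => (hJ _).2 ⟨yS b - (T0 (yS b)).coeff 0, fun δ => by
      show ((yS b).1 - ((T0 (yS b)).coeff 0 : S)).coeff δ ∈ I δ
      rw [cT, coeff_sub, Finsupp.sub_apply, coeff_single, Finsupp.single_apply]
      split_ifs with e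
      · rw [← e, sub_self]
        exact zero_mem _
      · rw [sub_zero]
        exact hI δ (Ne.symm e) b, by rw [map_sub, ← cTh]; rfl⟩)
  choose φ hφ eφ using fun i j => (hJ _).1 (hξ i j)
  let pp : Mat n S := 1 + of fun i j => (T0 (φ i j)).coeff (c i - c j)
  let x : Mat n Λ := of fun i j => (φ i j).1.coeff (c i - c j)
  have hpp : ∀ i j, (pp - 1) i j ∈ II := fun i j => by
    rw [add_sub_cancel_left]
    exact cI _ _ (hφ i j _)
  have vpp : ∀ i j, ((pp i j : S) : GA Λ Γ) = single (c i - c j) ((1 + x) i j) := fun i j => by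
    show (((1 : Mat n S) i j : S) : GA Λ Γ) + ((T0 (φ i j)).coeff (c i - c j) : S) = _
    rw [cT, Matrix.add_apply, AddMonoidAlgebra.single_add]
    by_cases e : i = j
    · subst e
      simp [x, one_def]
    · simp [x, e]
  have dpp : ((pp.det : S) : GA Λ Γ) = single 0 (1 + x).det := by
    have e2 : S.val.toRingHom.mapMatrix pp = (rho Λ c : Mat n (GA Λ Γ)) *
        (algebraMap Λ (GA Λ Γ)).mapMatrix (1 + x) *
          (((rho Λ c)⁻¹ : GL (Fin n) (GA Λ Γ)) : Mat n (GA Λ Γ)) := by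
      refine Matrix.ext fun i j => ?_
      show ((pp i j : S) : GA Λ Γ) = (diagonal (fun i => (single (c i) 1 : GA Λ Γ)) *
        (algebraMap Λ (GA Λ Γ)).mapMatrix (1 + x) *
          diagonal (fun i => (single (-c i) 1 : GA Λ Γ)) : Mat n (GA Λ Γ)) i j
      rw [vpp, mul_diagonal, diagonal_mul, RingHom.mapMatrix_apply, map_apply, ga_alg,
        single_mul_single, single_mul_single, add_zero, one_mul, mul_one, sub_eq_add_neg]
    have e3 := S.val.toRingHom.map_det pp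
    rw [e2, det_units_conj, ← RingHom.map_det] at e3
    exact e3
  obtain ⟨z, hz, ez⟩ := h.inv ((1 + x).det - 1) (by
    have := det_sub_one_mem hpp 0
    change (((pp.det : S) : GA Λ Γ) - 1).coeff 0 ∈ I 0 at this
    simpa [dpp, one_def] using this)
  rw [add_sub_cancel] at ez
  have u1 : IsUnit (1 + x) := (isUnit_iff_isUnit_det _).2 (IsUnit.of_mul_eq_one _ ez)
  have u2 : IsUnit pp := (isUnit_iff_isUnit_det _).2
    (IsUnit.of_mul_eq_one (⟨single 0 z, coeff_single_mem hz⟩ : S) (Subtype.ext (by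
      show ((pp.det : S) : GA Λ Γ) * single 0 z = 1
      rw [dpp, single_mul_single, ez, add_zero, one_def])))
  obtain ⟨p, hp⟩ := u1
  obtain ⟨q, hq⟩ := u2
  have e4 : gm S.val q =
      rho Λ c * gm (IsScalarTower.toAlgHom k Λ (GA Λ Γ)) p * (rho Λ c)⁻¹ := by
    ext i j : 2
    rw [conj_const, gm_apply, hp, hq]
    exact vpp i j
  have e5 : gm mk q = l := by
    ext i j : 2
    have e0 := hl i j
    rw [Matrix.sub_apply, sub_eq_iff_eq_add', ← eφ, cTh] at e0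
    rw [gm_apply, hq, e0]
    show mk ((1 : Mat n S) i j + _) = _
    rw [map_add]
    by_cases e : i = j
    · subst e
      simp
    · simp [e]
  have e6 : H.orb c (H.act p y) = S.val.comp (H.act q yS) := by
    rw [orb_act, H.act_nat, e4, eS]
  have p1 : ∀ i j, ((p : Mat n Λ) - 1) i j ∈ I (c i - c j) := fun i j => by
    rw [hp, add_sub_cancel_left]
    exact hφ i j _
  have p2 : ∀ i j, ((p⁻¹ : GL (Fin n) Λ) : Mat n Λ) i j ∈ A (c i - c j) := fun i j => by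
    have e7 : gm S.val q⁻¹ =
        rho Λ c * gm (IsScalarTower.toAlgHom k Λ (GA Λ Γ)) p⁻¹ * (rho Λ c)⁻¹ := by
      rw [map_inv, map_inv, e4]
      group
    have e8 := conj_const (k := k) c p⁻¹ i j
    rw [← e7, gm_apply] at e8
    have := (((q⁻¹ : GL (Fin n) S) : Mat n S) i j).2 (c i - c j)
    change (S.val _).coeff _ ∈ _ at this
    rwa [e8, coeff_single, Finsupp.single_eq_same] at this
  refine ⟨p, p1, fun i j => ?_, fun δ b => ?_, fun δ hδ b => ?_⟩
  · rw [inv_sub_one, Matrix.neg_apply, Matrix.mul_apply]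
    refine neg_mem (Submodule.sum_mem _ fun m _ => ?_)
    have := h.ai _ _ _ _ (p2 i m) (p1 m j)
    rwa [sub_add_sub_cancel] at this
  · rw [cf, e6]
    exact (H.act q yS b).2 δ
  · have e9 := hl2 b
    rw [← e5, ← H.act_nat] at e9
    have e10 := (cTh (H.act q yS b) δ).symm.trans
      ((congrArg (fun z => z.coeff δ) e9).trans (Finsupp.single_eq_of_ne hδ))
    have := (mk0 _).1 e10 δ
    rw [cT, coeff_single, Finsupp.single_eq_same] at this
    rw [cf, e6]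
    exact this

end HS

end Pool.Agent.GR
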