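import Pool.Agent.P.MP_c1f06d_ag.r.Lin
import Pool.Agent.P.MP_c1f06d_ag.r.CL

open Matrix

universe u

namespace Pool.Agent.GR

namespace Cartan

section tw

variable {k : Type u} [Field k] {Λ : Type u} [CommRing Λ] [Algebra k Λ]
  {Γ : Type} [AddCommGroup Γ]

/-- The substitution `u ^ m ↦ χ m * u ^ m`. -/
noncomputable def tw (k : Type u) [Field k] [Algebra k Λ] (χ : Multiplicative Γ →* Λˣ) :
    GA Λ Γ →ₐ[k] GA Λ Γ :=
  (AddMonoidAlgebra.lift Λ (GA Λ Γ) Γ
    { toFun := fun m => AddMonoidAlgebra.single m.toAdd (χ m : Λ)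
      map_one' := by simp [AddMonoidAlgebra.one_def]
      map_mul' := fun a b => by simp [AddMonoidAlgebra.single_mul_single] }).restrictScalars k

theorem tw_single (χ : Multiplicative Γ →* Λˣ) (m : Γ) (a : Λ) :
    tw k χ (AddMonoidAlgebra.single m a) =
      AddMonoidAlgebra.single m (a * (χ (Multiplicative.ofAdd m) : Λ)) := by
  simp [tw]

theorem coeff_tw (χ : Multiplicative Γ →* Λˣ) (x : GA Λ Γ) (δ : Γ) :
    (tw k χ x).coeff δ = x.coeff δ * (χ (Multiplicative.ofAdd δ) : Λ) := by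
  classical
  induction x using AddMonoidAlgebra.induction_linear with
  | zero => simp
  | add x y hx hy => simp [hx, hy, add_mul]
  | single m a =>
    rw [tw_single]
    by_cases h : m = δ
    · subst h
      simp
    · simp [h]

theorem tw_comp (χ : Multiplicative Γ →* Λˣ) :
    (tw k χ).comp (IsScalarTower.toAlgHom k Λ (GA Λ Γ)) =
      IsScalarTower.toAlgHom k Λ (GA Λ Γ) := by
  ext1 a
  exact (AddMonoidAlgebra.lift Λ (GA Λ Γ) Γ _).commutes a

theorem gm_tw_rho {n : ℕ} (χ : Multiplicative Γ →* Λˣ) (c : Fin n → Γ) :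
    gm (tw k χ) (rho Λ c) = rho Λ c * gm (IsScalarTower.toAlgHom k Λ (GA Λ Γ))
      (dgU fun i => χ (Multiplicative.ofAdd (c i))) := by
  refine Units.ext (Matrix.ext fun i j => ?_)
  by_cases h : i = j
  · subst h
    simp [rho, dgU, uu, tw_single, AddMonoidAlgebra.single_mul_single]
  · simp [rho, dgU, uu, h]

variable {n : ℕ} (H : HS k n)

theorem cf_dg (χ : Multiplicative Γ →* Λˣ) (c : Fin n → Γ) (y : H.B →ₐ[k] Λ) (δ : Γ) (b : H.B) :
    H.cf c (H.act (dgU fun i => χ (Multiplicative.ofAdd (c i))) y) δ b =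
      H.cf c y δ b * (χ (Multiplicative.ofAdd δ) : Λ) := by
  have h : H.orb c (H.act (dgU fun i => χ (Multiplicative.ofAdd (c i))) y) =
      (tw k χ).comp (H.orb c y) := by
    unfold HS.orb
    rw [H.act_nat, H.act_nat, ← AlgHom.comp_assoc, tw_comp, gm_tw_rho, H.act_mul]
  unfold HS.cf
  rw [h, AlgHom.comp_apply, coeff_tw]

theorem cf_comp {Λ' : Type u} [CommRing Λ'] [Algebra k Λ'] (f : Λ →ₐ[k] Λ') (c : Fin n → Γ)
    (y : H.B →ₐ[k] Λ) (δ : Γ) (b : H.B) : H.cf c (f.comp y) δ b = f (H.cf c y δ b) := by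
  rw [H.cf_eq c (f.comp y), H.cf_eq c y, AlgHom.comp_apply]

/-- It is enough to test generators. -/
theorem gen {A I : Γ → Submodule k Λ}
    (ai : ∀ δ δ' x y, x ∈ A δ → y ∈ I δ' → x * y ∈ I (δ + δ')) (c : Fin n → Γ)
    (y : H.B →ₐ[k] Λ) (hA : ∀ δ b, H.cf c y δ b ∈ A δ) (s : Set H.B)
    (hs : Algebra.adjoin k s = ⊤) (hI : ∀ b ∈ s, ∀ δ, δ ≠ 0 → H.cf c y δ b ∈ I δ) :
    ∀ δ, δ ≠ 0 → ∀ b, H.cf c y δ b ∈ I δ := by
  classical
  intro δ hδ b
  have hb : b ∈ Algebra.adjoin k s := hs ▸ Algebra.mem_top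
  induction hb using Algebra.adjoin_induction generalizing δ with
  | mem x hx => exact hI x hx δ hδ
  | algebraMap r =>
    have : H.cf c y δ (algebraMap k H.B r) = 0 := by
      unfold HS.cf
      rw [AlgHom.commutes]
      simp [AddMonoidAlgebra.coe_algebraMap, hδ.symm]
    rw [this]
    exact zero_mem _
  | add x x' _ _ hx hx' =>
    have : H.cf c y δ (x + x') = H.cf c y δ x + H.cf c y δ x' := by
      unfold HS.cf
      simp
    rw [this]
    exact add_mem (hx δ hδ) (hx' δ hδ)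
  | mul x x' _ _ hx hx' =>
    unfold HS.cf
    rw [map_mul, AddMonoidAlgebra.coeff_mul]
    refine Submodule.sum_mem _ fun α _ => Submodule.sum_mem _ fun β _ => ?_
    by_cases h : α + β = δ
    · simp only [h, if_true]
      by_cases hβ : β = 0
      · have hα : α ≠ 0 := fun e => hδ (by rw [← h, e, hβ, add_zero])
        rw [mul_comm, ← h, add_comm]
        exact ai _ _ _ _ (hA β x') (hx α hα)
      · rw [← h]
        exact ai _ _ _ _ (hA α x) (hx' β hβ)
    · simp only [h, if_false]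
      exact zero_mem _

end tw

section val

variable {k F : Type u} [Field k] [Field F] [Algebra k F] {G : Type*}
  [LinearOrderedCommGroupWithZero G] (v : Valuation F G) (hk : ∀ a : k, v (algebraMap k F a) ≤ 1)
  {Γ : Type} [AddCommGroup Γ] (χ : Multiplicative Γ →* Fˣ)

/-- The value of the character at `m`. -/
def wt (m : Γ) : G := v (χ (Multiplicative.ofAdd m) : F)

theorem wt_add (m m' : Γ) : wt v χ (m + m') = wt v χ m * wt v χ m' := by
  simp [wt, ofAdd_add]

theorem wt_zero : wt v χ 0 = 1 := by simp [wt]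

theorem wt_ne (m : Γ) : wt v χ m ≠ 0 := by simp [wt]

/-- The elements that are integral and divisible by the character. -/
def AA (m : Γ) : Submodule k F where
  carrier := {x | v x ≤ 1 ∧ v x ≤ wt v χ m}
  zero_mem' := by simp
  add_mem' := fun ha hb => ⟨v.map_add_le ha.1 hb.1, v.map_add_le ha.2 hb.2⟩
  smul_mem' := fun a x hx => by
    have : v (a • x) ≤ v x := by
      rw [Algebra.smul_def, map_mul]
      exact mul_le_of_le_one_left' (hk a)
    exact ⟨this.trans hx.1, this.trans hx.2⟩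

/-- The filtration. -/
def II (τ : G) (m : Γ) : Submodule k F where
  carrier := {x | x ∈ AA v hk χ m ∧ v x * v x ≤ τ * wt v χ m}
  zero_mem' := ⟨zero_mem _, by simp⟩
  add_mem' := fun {a b} ha hb => ⟨add_mem ha.1 hb.1, by
    rcases le_max_iff.1 (v.map_add a b) with h | h
    · exact (mul_le_mul' h h).trans ha.2
    · exact (mul_le_mul' h h).trans hb.2⟩
  smul_mem' := fun a x hx => ⟨Submodule.smul_mem _ a hx.1, by
    have : v (a • x) ≤ v x := by
      rw [Algebra.smul_def, map_mul]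
      exact mul_le_of_le_one_left' (hk a)
    exact (mul_le_mul' this this).trans hx.2⟩

theorem aa (δ δ' : Γ) (x y : F) (hx : x ∈ AA v hk χ δ) (hy : y ∈ AA v hk χ δ') :
    x * y ∈ AA v hk χ (δ + δ') := by
  refine ⟨?_, ?_⟩
  · rw [map_mul]
    exact mul_le_one' hx.1 hy.1
  · rw [map_mul, wt_add]
    exact mul_le_mul' hx.2 hy.2

theorem ai (τ : G) (δ δ' : Γ) (x y : F) (hx : x ∈ AA v hk χ δ) (hy : y ∈ II v hk χ τ δ') :
    x * y ∈ II v hk χ τ (δ + δ') := by
  refine ⟨aa v hk χ δ δ' x y hx hy.1, ?_⟩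
  have h1 : v x * v x ≤ wt v χ δ := by
    simpa using mul_le_mul' hx.1 hx.2
  rw [map_mul, wt_add, mul_mul_mul_comm, mul_left_comm τ]
  exact mul_le_mul' h1 hy.2

theorem gr3 {τ : G} (hτ : τ < 1) : Gr3 (AA v hk χ) (II v hk χ τ) (II v hk χ (τ * τ)) where
  le1 := fun _ _ hx => hx.1
  le2 := fun δ x hx => ⟨hx.1, hx.2.trans
    (mul_le_mul' (mul_le_of_le_one_left' hτ.le) le_rfl)⟩
  one := ⟨by simp, by simp [wt_zero]⟩
  aa := aa v hk χ
  ai := ai v hk χ τ
  ai' := ai v hk χ (τ * τ)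
  ii := fun δ δ' x y hx hy => ⟨aa v hk χ δ δ' x y hx.1 hy.1, by
    rw [map_mul, wt_add, mul_mul_mul_comm, mul_mul_mul_comm τ τ]
    exact mul_le_mul' hx.2 hy.2⟩
  inv := fun x hx => by
    have h1 : v x < 1 := by
      by_contra h
      have h2 : 1 ≤ v x := not_lt.1 h
      have h3 := hx.2
      rw [wt_zero, mul_one] at h3
      exact absurd ((one_le_mul h2 h2).trans h3) (not_le.2 hτ)
    have h2 : v (1 + x) = 1 := v.map_one_add_of_lt h1
    have h3 : 1 + x ≠ 0 := fun e => by simp [e] at h2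
    refine ⟨(1 + x)⁻¹, ⟨?_, ?_⟩, mul_inv_cancel₀ h3⟩
    · rw [map_inv₀, h2, inv_one]
    · rw [map_inv₀, h2, inv_one, wt_zero]

variable {n : ℕ}

/-- All entries lie in the graded ring. -/
def InA (c : Fin n → Γ) (M : Mat n F) : Prop := ∀ i j, M i j ∈ AA v hk χ (c i - c j)

theorem InA.one (c : Fin n → Γ) : InA v hk χ c 1 := fun i j => by
  by_cases h : i = j
  · subst h
    rw [one_apply_eq, sub_self]
    exact ⟨by simp, by simp [wt_zero]⟩
  · rw [one_apply_ne h]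
    exact zero_mem _

theorem InA.mul {c : Fin n → Γ} {M N : Mat n F} (hM : InA v hk χ c M) (hN : InA v hk χ c N) :
    InA v hk χ c (M * N) := fun i j => by
  rw [mul_apply]
  refine Submodule.sum_mem _ fun l _ => ?_
  have := aa v hk χ _ _ _ _ (hM i l) (hN l j)
  rwa [sub_add_sub_cancel] at this

theorem InA.of_sub {c : Fin n → Γ} {M : Mat n F} {τ : G}
    (h : ∀ i j, (M - 1) i j ∈ II v hk χ τ (c i - c j)) : InA v hk χ c M := fun i j => by
  have := add_mem (h i j).1 (InA.one v hk χ c i j)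
  simpa using this

variable (H : HS k n)

theorem iter {τ : G} (hτ : τ < 1) (c : Fin n → Γ) (y : H.B →ₐ[k] F)
    (hA : ∀ δ b, H.cf c y δ b ∈ AA v hk χ δ)
    (hI : ∀ δ, δ ≠ 0 → ∀ b, H.cf c y δ b ∈ II v hk χ τ δ) (j : ℕ) :
    ∃ p : GL (Fin n) F, InA v hk χ c (p : Mat n F) ∧
      InA v hk χ c ((p⁻¹ : GL (Fin n) F) : Mat n F) ∧
      (∀ δ b, H.cf c (H.act p y) δ b ∈ AA v hk χ δ) ∧
      ∀ δ, δ ≠ 0 → ∀ b, H.cf c (H.act p y) δ b ∈ II v hk χ (τ ^ 2 ^ j) δ := by
  induction j with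
  | zero =>
    refine ⟨1, InA.one v hk χ c, by simpa using InA.one v hk χ c, ?_, ?_⟩
    · rw [H.act_one]
      exact hA
    · rw [H.act_one]
      simpa using hI
  | succ j ih =>
    obtain ⟨p, h1, h2, h3, h4⟩ := ih
    have hτ' : τ ^ 2 ^ j < 1 := pow_lt_one₀ zero_le hτ (by positivity)
    obtain ⟨q, g1, g2, g3, g4⟩ := H.cl (gr3 v hk χ hτ') c _ h3 h4
    refine ⟨q * p, ?_, ?_, ?_, ?_⟩
    · rw [Units.val_mul]
      exact (InA.of_sub v hk χ g1).mul v hk χ h1
    · rw [_root_.mul_inv_rev, Units.val_mul]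
      exact h2.mul v hk χ (InA.of_sub v hk χ g2)
    · rw [H.act_mul]
      exact g3
    · rw [H.act_mul, pow_succ, pow_mul, pow_two]
      exact g4

theorem core (hw : ∀ m, m ≠ 0 → wt v χ m ≠ 1)
    (arch : ∀ x y : F, v x < 1 → y ≠ 0 → ∃ N : ℕ, v x ^ N ≤ v y) (c : Fin n → Γ)
    (y : H.B →ₐ[k] F) (hA : ∀ δ b, H.cf c y δ b ∈ AA v hk χ δ) (s : Finset H.B)
    (hs : Algebra.adjoin k (s : Set H.B) = ⊤) (w : F) (hw0 : w ≠ 0) :
    ∃ p : GL (Fin n) F, InA v hk χ c (p : Mat n F) ∧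
      InA v hk χ c ((p⁻¹ : GL (Fin n) F) : Mat n F) ∧
      ∀ b ∈ s, ∀ δ, δ ≠ 0 → v (H.cf c (H.act p y) δ b) ≤ v w := by
  classical
  set S : Finset Γ := (s.biUnion fun b => (H.orb c (AlgHom.id k H.B) b).coeff.support).erase 0
    with hS
  have hoff : ∀ (z : H.B →ₐ[k] F), ∀ b ∈ s, ∀ δ, δ ≠ 0 → δ ∉ S → H.cf c z δ b = 0 := by
    intro z b hb δ hδ hn
    rw [H.cf_eq]
    have : H.cf c (AlgHom.id k H.B) δ b = 0 := by
      by_contra h
      exact hn (Finset.mem_erase.2 ⟨hδ, Finset.mem_biUnion.2 ⟨b, hb, Finsupp.mem_support_iff.2 h⟩⟩)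
    rw [this, map_zero]
  rcases S.eq_empty_or_nonempty with h0 | h0
  · refine ⟨1, InA.one v hk χ c, by simpa using InA.one v hk χ c, fun b hb δ hδ => ?_⟩
    rw [hoff _ b hb δ hδ (by simp [h0]), map_zero]
    exact zero_le
  obtain ⟨m0, hm0, hmax⟩ := S.exists_max_image (fun m => min (wt v χ m) (wt v χ (-m))) h0
  have hneg : ∀ m, wt v χ (-m) * wt v χ m = 1 := fun m => by
    rw [← wt_add, neg_add_cancel, wt_zero]
  have hlt : ∀ m, m ≠ 0 → min (wt v χ m) (wt v χ (-m)) < 1 := fun m hm => by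
    by_contra h
    have h1 := le_min_iff.1 (not_lt.1 h)
    refine hw m hm (le_antisymm ?_ h1.1)
    calc wt v χ m ≤ wt v χ (-m) * wt v χ m := le_mul_of_one_le_left' h1.2
      _ = 1 := hneg m
  obtain ⟨t, ht⟩ : ∃ t : F, v t = min (wt v χ m0) (wt v χ (-m0)) := by
    rcases min_choice (wt v χ m0) (wt v χ (-m0)) with h | h
    · exact ⟨_, h.symm⟩
    · exact ⟨_, h.symm⟩
  have hτ : v t < 1 := ht ▸ hlt m0 (Finset.mem_erase.1 hm0).1
  have hI : ∀ δ, δ ≠ 0 → ∀ b, H.cf c y δ b ∈ II v hk χ (v t) δ := by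
    refine gen H (ai v hk χ (v t)) c y hA s hs fun b hb δ hδ => ?_
    by_cases hd : δ ∈ S
    · refine ⟨hA δ b, ?_⟩
      have h1 := hmax δ hd
      rw [← ht] at h1
      rcases min_le_iff.1 h1 with h | h
      · exact mul_le_mul' ((hA δ b).2.trans h) (hA δ b).2
      · calc _ ≤ 1 := mul_le_one' (hA δ b).1 (hA δ b).1
          _ = wt v χ (-δ) * wt v χ δ := (hneg δ).symm
          _ ≤ _ := mul_le_mul' h le_rfl
    · rw [hoff _ b hb δ hδ hd]
      exact zero_mem _
  have hN : ∀ δ : Γ, ∃ N : ℕ, v t ^ N * wt v χ δ ≤ v w * v w := fun δ => by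
    obtain ⟨N, hN⟩ := arch t (w * w * (χ (Multiplicative.ofAdd (-δ)) : F)) hτ (by simp [hw0])
    refine ⟨N, (mul_le_mul' hN le_rfl).trans (le_of_eq ?_)⟩
    rw [map_mul, map_mul, mul_assoc]
    exact (congrArg _ (hneg δ)).trans (mul_one _)
  choose N hN using hN
  obtain ⟨p, h1, h2, -, h4⟩ := iter v hk χ H hτ c y hA hI (S.sup N)
  refine ⟨p, h1, h2, fun b hb δ hδ => ?_⟩
  by_cases hd : δ ∈ S
  · have h5 : N δ ≤ 2 ^ S.sup N := (Finset.le_sup hd).trans Nat.lt_two_pow_self.le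
    have h6 := (h4 δ hδ b).2.trans
      ((mul_le_mul' (pow_le_pow_right_of_le_one' hτ.le h5) le_rfl).trans (hN δ))
    by_contra h
    have h7 := not_le.1 h
    exact absurd h6 (not_le.2 (mul_lt_mul'' h7 h7 zero_le zero_le))
  · rw [hoff _ b hb δ hδ hd, map_zero]
    exact zero_le

end val

section lift

variable {n : ℕ} {k W F : Type u} [Field k] [CommRing W] [Field F] [Algebra W F]
  [Algebra k W] [Algebra k F] [IsScalarTower k W F]

theorem exists_gm (hinj : Function.Injective (algebraMap W F)) (p : GL (Fin n) F)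
    (h1 : ∀ i j, ∃ a, algebraMap W F a = (p : Mat n F) i j)
    (h2 : ∀ i j, ∃ a, algebraMap W F a = ((p⁻¹ : GL (Fin n) F) : Mat n F) i j) :
    ∃ q : GL (Fin n) W, gm (IsScalarTower.toAlgHom k W F) q = p := by
  choose P hP using h1
  choose Q hQ using h2
  have eP : (algebraMap W F).mapMatrix (of P) = (p : Mat n F) := Matrix.ext fun i j => hP i j
  have eQ : (algebraMap W F).mapMatrix (of Q) = ((p⁻¹ : GL (Fin n) F) : Mat n F) :=
    Matrix.ext fun i j => hQ i j
  have hi : Function.Injective ((algebraMap W F).mapMatrix (m := Fin n)) := fun M N h =>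
    Matrix.ext fun i j => hinj (congrFun (congrFun h i) j)
  refine ⟨⟨of P, of Q, hi ?_, hi ?_⟩, Units.ext eP⟩
  · rw [map_mul, eP, eQ, map_one, Units.mul_inv]
  · rw [map_mul, eP, eQ, map_one, Units.inv_mul]

/-- The character `m ↦ ∏ π j ^ m j`. -/
def chi {r : ℕ} (π : Fin r → Fˣ) : Multiplicative (Fin r → ℤ) →* Fˣ where
  toFun := fun m => ∏ j, π j ^ m.toAdd j
  map_one' := by simp
  map_mul' := fun a b => by simp [_root_.zpow_add, Finset.prod_mul_distrib]

theorem conj_entry {Γ : Type} [AddCommGroup Γ] (χ : Multiplicative Γ →* Fˣ) (c : Fin n → Γ)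
    (p : GL (Fin n) F) (i j : Fin n) :
    (((dgU fun i => χ (Multiplicative.ofAdd (c i)))⁻¹ * p *
      (dgU fun i => χ (Multiplicative.ofAdd (c i))) : GL (Fin n) F) : Mat n F) i j =
      (p : Mat n F) i j / (χ (Multiplicative.ofAdd (c i - c j)) : F) := by
  have e : (((dgU fun i => χ (Multiplicative.ofAdd (c i)))⁻¹ : GL (Fin n) F) : Mat n F) =
      diagonal fun i => (((χ (Multiplicative.ofAdd (c i)))⁻¹ : Fˣ) : F) := rfl
  have e' : (((dgU fun i => χ (Multiplicative.ofAdd (c i))) : GL (Fin n) F) : Mat n F) =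
      diagonal fun i => (((χ (Multiplicative.ofAdd (c i))) : Fˣ) : F) := rfl
  rw [Units.val_mul, Units.val_mul, e, e', mul_diagonal, diagonal_mul, ofAdd_sub, map_div]
  simp only [Units.val_inv_eq_inv_val, Units.val_div_eq_div_val]
  have h1 := (χ (Multiplicative.ofAdd (c i))).ne_zero
  have h2 := (χ (Multiplicative.ofAdd (c j))).ne_zero
  field_simp

end lift

end Cartan

open Cartan in
/-- CARTAN. -/
theorem HS.cartan {k : Type u} [Field k] {n : ℕ} (H : HS k n)
    {W F : Type u} [CommRing W] [IsDomain W] [ValuationRing W] [Field F] [Algebra W F]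
    [IsFractionRing W F] [Algebra k W] [Algebra k F] [IsScalarTower k W F]
    (arch : ∀ a ∈ IsLocalRing.maximalIdeal W, ∀ b : W, b ≠ 0 → ∃ N : ℕ, b ∣ a ^ N)
    (y1 : H.B →ₐ[k] W) (σ : GL (Fin n) F)
    (hσ : H.act σ ((IsScalarTower.toAlgHom k W F).comp y1) = H.pt F) :
    ∃ (r : ℕ) (π : Fin r → Fˣ) (c : Fin n → Fin r → ℤ),
      (∀ j, ∃ p ∈ IsLocalRing.maximalIdeal W, algebraMap W F p = π j) ∧
      (∀ m : Fin r → ℤ, (∃ v : Wˣ, algebraMap W F v = (∏ j, π j ^ m j : Fˣ)) → m = 0) ∧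
      ∀ vp : W, vp ≠ 0 → ∃ κ k' : GL (Fin n) W,
        σ⁻¹ * gm (IsScalarTower.toAlgHom k W F) κ * dgU (fun i => ∏ j, π j ^ c i j) =
          gm (IsScalarTower.toAlgHom k W F) k' ∧
        H.Fixed c ((Ideal.Quotient.mkₐ k (Ideal.span {vp})).comp (H.act κ⁻¹ (H.pt W))) := by
  obtain ⟨k₁, k₂, r, π, c, h1, h2, h3⟩ := smith (W := W) σ
  refine ⟨r, π, c, h1, h2, fun vp hvp => ?_⟩
  set ι := IsScalarTower.toAlgHom k W F with hι
  set v := ValuationRing.valuation W F with hv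
  have hinj : Function.Injective (algebraMap W F) := IsFractionRing.injective W F
  have hint : ∀ x : F, v x ≤ 1 ↔ ∃ a, algebraMap W F a = x := fun x =>
    ValuationRing.mem_integer_iff W F x
  have hW : ∀ a : W, v (algebraMap W F a) ≤ 1 := fun a => (hint _).2 ⟨a, rfl⟩
  have hk : ∀ a : k, v (algebraMap k F a) ≤ 1 := fun a => by
    rw [IsScalarTower.algebraMap_apply k W F]
    exact hW _
  have hdiv : ∀ x y : F, y ≠ 0 → v x ≤ v y → ∃ a, algebraMap W F a = x / y := fun x y hy h =>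
    (hint _).1 (by
      rw [map_div₀]
      exact div_le_one_of_le₀ h zero_le)
  have hw : ∀ m, m ≠ 0 → wt v (chi π) m ≠ 1 := fun m hm e => by
    obtain ⟨a, ha⟩ := (hint _).1 e.le
    obtain ⟨b, hb⟩ := hdiv 1 _ (chi π (Multiplicative.ofAdd m)).ne_zero
      ((map_one v).le.trans e.ge)
    have hab : a * b = 1 := hinj (by
      rw [map_mul, ha, hb, map_one, mul_one_div_cancel (Units.ne_zero _)])
    exact hm (h2 m ⟨⟨a, b, hab, (mul_comm _ _).trans hab⟩, ha⟩)
  have harch : ∀ x y : F, v x < 1 → y ≠ 0 → ∃ N : ℕ, v x ^ N ≤ v y := fun x y hx hy => by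
    rcases le_total 1 (v y) with h | h
    · exact ⟨0, by simpa using h⟩
    obtain ⟨a, rfl⟩ := (hint x).1 hx.le
    obtain ⟨b, rfl⟩ := (hint y).1 h
    have ha : a ∈ IsLocalRing.maximalIdeal W := fun hu => by
      obtain ⟨a', ha'⟩ := hu.exists_right_inv
      have e : v (algebraMap W F a) * v (algebraMap W F a') = 1 := by
        rw [← map_mul, ← map_mul, ha', map_one, map_one]
      exact absurd e (mul_lt_one_of_lt_of_le hx (hW a')).ne
    obtain ⟨N, e, he⟩ := arch a ha b fun e => hy (by rw [e, map_zero])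
    refine ⟨N, ?_⟩
    rw [← map_pow, ← map_pow, he, map_mul, map_mul]
    exact mul_le_of_le_one_right' (hW e)
  have hpt : ι.comp (H.pt W) = H.pt F := by
    ext b
    simp [HS.pt]
  set d : GL (Fin n) F := dgU fun i => chi π (Multiplicative.ofAdd (c i)) with hd
  have h3' : σ = gm ι k₁ * d * gm ι k₂ := h3
  have hy : ι.comp (H.act k₁⁻¹ (H.pt W)) = H.act d (ι.comp (H.act k₂ y1)) := by
    rw [H.act_nat, H.act_nat, hpt, ← hσ, h3', ← H.act_mul, ← H.act_mul, map_inv]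
    congr 1
    group
  have hA : ∀ δ b, H.cf c (ι.comp (H.act k₁⁻¹ (H.pt W))) δ b ∈ AA v hk (chi π) δ := fun δ b => by
    refine ⟨?_, ?_⟩
    · rw [cf_comp]
      exact hW _
    · rw [hy, hd, cf_dg, cf_comp, map_mul]
      exact mul_le_of_le_one_left' (hW _)
  obtain ⟨s, hs⟩ := H.ft.out
  obtain ⟨p, g1, g2, g3⟩ := core v hk (chi π) H hw harch c _ hA s hs (algebraMap W F vp)
    fun e => hvp (hinj (e.trans (map_zero _).symm))
  obtain ⟨pW, hp⟩ := exists_gm (k := k) hinj p (fun i j => (hint _).1 (g1 i j).1)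
    fun i j => (hint _).1 (g2 i j).1
  obtain ⟨qW, hq⟩ := exists_gm (k := k) hinj (d⁻¹ * p⁻¹ * d)
    (fun i j => by
      rw [hd, conj_entry]
      exact hdiv _ _ (Units.ne_zero _) (g2 i j).2)
    fun i j => by
      have e : (d⁻¹ * p⁻¹ * d)⁻¹ = d⁻¹ * p * d := by group
      rw [e, hd, conj_entry]
      exact hdiv _ _ (Units.ne_zero _) (g1 i j).2
  refine ⟨k₁ * pW⁻¹, k₂⁻¹ * qW, ?_, ?_⟩
  · change σ⁻¹ * gm ι (k₁ * pW⁻¹) * d = gm ι (k₂⁻¹ * qW)
    rw [h3', map_mul, map_mul, map_inv, map_inv, hp, hq]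
    group
  · rw [H.fixed_iff]
    have key := Cartan.gen H (A := fun _ => ⊤) (I := fun _ => ⊥)
      (fun _ _ x y _ hy => by
        rw [(Submodule.mem_bot k).1 hy, mul_zero]
        exact zero_mem _) c
      ((Ideal.Quotient.mkₐ k (Ideal.span {vp})).comp (H.act (k₁ * pW⁻¹)⁻¹ (H.pt W)))
      (fun _ _ => Submodule.mem_top) s hs fun b hb δ hδ => by
        rw [Submodule.mem_bot, cf_comp, Ideal.Quotient.mkₐ_eq_mk, Ideal.Quotient.eq_zero_iff_mem,
          Ideal.mem_span_singleton]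
        have e : ι (H.cf c (H.act (k₁ * pW⁻¹)⁻¹ (H.pt W)) δ b) =
            H.cf c (H.act p (ι.comp (H.act k₁⁻¹ (H.pt W)))) δ b := by
          rw [← cf_comp, _root_.mul_inv_rev, inv_inv, H.act_mul, H.act_nat ι pW, hp]
        have h5 := g3 b hb δ hδ
        rw [← e] at h5
        have h0 : algebraMap W F vp ≠ 0 := fun e => hvp (hinj (e.trans (map_zero _).symm))
        obtain ⟨a, ha⟩ := hdiv _ _ h0 h5
        refine ⟨a, hinj ?_⟩
        rw [map_mul, ha, mul_div_cancel₀ _ h0]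
        rfl
    exact fun δ hδ b => (Submodule.mem_bot k).1 (key δ hδ b)

end Pool.Agent.GR
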