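import Mathlib

/-! Points of algebras of finite type over an algebraically closed field. -/

open TensorProduct

universe u

namespace Pool.Agent.GR

variable {Ω : Type u} [Field Ω] [IsAlgClosed Ω]

/-- A maximal ideal of an algebra of finite type is the kernel of a point. -/
theorem point_of_max {T : Type u} [CommRing T] [Algebra Ω T] [Algebra.FiniteType Ω T]
    (m : Ideal T) (hm : m.IsMaximal) : ∃ t : T →ₐ[Ω] Ω, ∀ a, t a = 0 ↔ a ∈ m := by
  let := Ideal.Quotient.field m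
  have : Module.Finite Ω (T ⧸ m) := finite_of_finite_type_of_isJacobsonRing Ω (T ⧸ m)
  let e : Ω ≃ₐ[Ω] T ⧸ m := AlgEquiv.ofBijective (Algebra.ofId Ω (T ⧸ m))
    IsAlgClosed.algebraMap_bijective_of_isIntegral
  refine ⟨(e.symm : T ⧸ m →ₐ[Ω] Ω).comp (Ideal.Quotient.mkₐ Ω m), fun a => ?_⟩
  show e.symm (Ideal.Quotient.mk m a) = 0 ↔ _
  rw [map_eq_zero_iff _ e.symm.injective, Ideal.Quotient.eq_zero_iff_mem]

/-- NS. -/
theorem ns_point (T : Type u) [CommRing T] [Algebra Ω T] [Algebra.FiniteType Ω T]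
    [Nontrivial T] : Nonempty (T →ₐ[Ω] Ω) := by
  obtain ⟨m, hm⟩ := Ideal.exists_maximal T
  obtain ⟨t, -⟩ := point_of_max (Ω := Ω) m hm
  exact ⟨t⟩

/-- AMAL and NS: two domains of finite type over a common subring have points that agree on it. -/
theorem amal_point {D T₁ T₂ : Type u} [CommRing D] [Algebra Ω D] [CommRing T₁] [Algebra Ω T₁]
    [CommRing T₂] [Algebra Ω T₂] [IsDomain T₁] [IsDomain T₂] [Algebra.FiniteType Ω T₁]
    [Algebra.FiniteType Ω T₂] (α₁ : D →ₐ[Ω] T₁) (α₂ : D →ₐ[Ω] T₂) (h₁ : Function.Injective α₁)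
    (h₂ : Function.Injective α₂) :
    ∃ (t₁ : T₁ →ₐ[Ω] Ω) (t₂ : T₂ →ₐ[Ω] Ω), t₁.comp α₁ = t₂.comp α₂ := by
  let : Algebra D T₁ := α₁.toRingHom.toAlgebra
  let : Algebra D T₂ := α₂.toRingHom.toAlgebra
  have : IsScalarTower Ω D T₁ := IsScalarTower.of_algebraMap_eq fun x => (α₁.commutes x).symm
  have : IsScalarTower Ω D T₂ := IsScalarTower.of_algebraMap_eq fun x => (α₂.commutes x).symm
  have : Nontrivial (T₁ ⊗[D] T₂) :=
    Algebra.TensorProduct.nontrivial_of_algebraMap_injective_of_isDomain D T₁ T₂ h₁ h₂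
  have : Algebra.FiniteType D T₂ := Algebra.FiniteType.of_restrictScalars_finiteType Ω D T₂
  have : Algebra.FiniteType Ω (T₁ ⊗[D] T₂) :=
    Algebra.FiniteType.trans (S := T₁) inferInstance inferInstance
  obtain ⟨t⟩ := ns_point (Ω := Ω) (T₁ ⊗[D] T₂)
  refine ⟨t.comp Algebra.TensorProduct.includeLeft,
    t.comp (Algebra.TensorProduct.includeRight.restrictScalars Ω), AlgHom.ext fun d => ?_⟩
  show t (algebraMap D T₁ d ⊗ₜ 1) = t (1 ⊗ₜ algebraMap D T₂ d)
  rw [Algebra.algebraMap_eq_smul_one, Algebra.algebraMap_eq_smul_one, smul_tmul]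

end Pool.Agent.GR
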