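import Pool.Agent.P.MP_c1f06d_ag.r.TInf

open Matrix

universe u

namespace Pool.Agent.GR

variable {k : Type u} [Field k] {n r : ℕ} {H : HS k n} {A : Type u} [CommRing A] [Algebra k A]
  {A' : Type u} [CommRing A'] [Algebra k A'] {χ : Fin n → Fin r → ℤ}
  {e : (Fin r → ℤ) → Mat n A} {X : Mat n A}

/-! The universal point of `G`. -/

namespace UO

variable (W : Type u) [Field W] {A A' : Type u} [CommRing A] [Algebra W A]
  [CommRing A'] [Algebra W A']

/-- The coordinate function `x i j`. -/
noncomputable def xx (i j : Fin n) : OGL W n :=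
  algebraMap (MvPolynomial (Fin n × Fin n) W) (OGL W n) (MvPolynomial.X (i, j))

theorem ev_xx (g : GL (Fin n) A) (i j : Fin n) : ev W g (xx W i j) = g i j := by
  simp [ev, xx]

theorem ogl_ext {φ ψ : OGL W n →ₐ[W] A} (h : ∀ i j, φ (xx W i j) = ψ (xx W i j)) : φ = ψ := by
  apply IsLocalization.algHom_ext (Submonoid.powers (mvPolynomialX (Fin n) (Fin n) W).det)
  apply MvPolynomial.algHom_ext
  rintro ⟨i, j⟩
  exact h i j

/-- The universal point of `GL_n`. -/
noncomputable def uGL (n : ℕ) : GL (Fin n) (OGL W n) :=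
  GeneralLinearGroup.mk'' (of fun i j => xx W i j) (by
    have : (of fun i j => xx W i j : Mat n (OGL W n)) =
        (algebraMap (MvPolynomial (Fin n × Fin n) W) (OGL W n)).mapMatrix
          (mvPolynomialX (Fin n) (Fin n) W) := by
      ext i j; rfl
    rw [this, ← RingHom.map_det]
    exact IsLocalization.Away.algebraMap_isUnit _)

theorem gm_ev_uGL (g : GL (Fin n) A) : gm (ev W g) (uGL W n) = g := by
  ext i j
  exact ev_xx W g i j

end UO

namespace HS

variable (W : Type u) [Field W] [Algebra k W]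

theorem gU_eq : H.gU W = gm (Ideal.Quotient.mkₐ W (H.van W)) (UO.uGL W n) := by
  ext i j
  rfl

theorem gU_mem : H.gU W ∈ H.G (H.OG W) := by
  show H.act (H.gU W) (H.pt _) = H.pt _
  have nat : ∀ {A : Type u} [CommRing A] [Algebra k A] [Algebra W A] [IsScalarTower k W A]
      (φ : OGL W n →ₐ[W] A) (b : H.B),
      φ (H.act (UO.uGL W n) (H.pt _) b - H.pt _ b) =
        H.act (gm φ (UO.uGL W n)) (H.pt A) b - H.pt A b := by
    intro A _ _ _ _ φ b
    have h1 : (φ.restrictScalars k).comp (H.pt _) = H.pt A := by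
      ext b; simp [HS.pt]
    have h2 := H.act_nat (φ.restrictScalars k) (UO.uGL W n) (H.pt _)
    rw [h1] at h2
    rw [map_sub]
    exact congrArg₂ (· - ·) (DFunLike.congr_fun h2 b) (DFunLike.congr_fun h1 b)
  ext b
  rw [← sub_eq_zero, gU_eq, ← nat]
  refine Ideal.Quotient.eq_zero_iff_mem.2 ?_
  intro A _ _ _ _ g hg
  have h2 : H.act g (H.pt A) = H.pt A := hg
  rw [nat, UO.gm_ev_uGL, h2, sub_self]

theorem OG_ft : Algebra.FiniteType W (H.OG W) := by
  have : Algebra.FinitePresentation (MvPolynomial (Fin n × Fin n) W) (OGL W n) :=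
    IsLocalization.Away.finitePresentation (mvPolynomialX (Fin n) (Fin n) W).det
  have : Algebra.FiniteType W (OGL W n) :=
    Algebra.FiniteType.trans (S := MvPolynomial (Fin n × Fin n) W) inferInstance inferInstance
  exact Algebra.FiniteType.of_surjective (Ideal.Quotient.mkₐ W (H.van W))
    (Ideal.Quotient.mkₐ_surjective W _)

variable {W} [Algebra W A] [IsScalarTower k W A]

theorem exists_pt {g : GL (Fin n) A} (hg : g ∈ H.G A) :
    ∃ θ : H.OG W →ₐ[W] A, gm θ (H.gU W) = g := by
  refine ⟨Ideal.Quotient.liftₐ (H.van W) (ev W g) fun f hf => hf A g hg, ?_⟩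
  ext i j
  exact UO.ev_xx W g i j

omit [Algebra k A] [IsScalarTower k W A] in
theorem OG_ext {θ θ' : H.OG W →ₐ[W] A} (h : gm θ (H.gU W) = gm θ' (H.gU W)) : θ = θ' := by
  apply Ideal.Quotient.algHom_ext
  apply UO.ogl_ext
  intro i j
  exact congrArg (fun g : GL (Fin n) A => g i j) h

end HS

end Pool.Agent.GR
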