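import Pool.Agent.P.MP_c1f06d_ag.r.Inf

/-! Graded subalgebras of group algebras and the action of the diagonal torus. -/

open Matrix AddMonoidAlgebra

universe u

namespace Pool.Agent.GR

section graded

variable {k Λ : Type u} [Field k] [CommRing Λ] [Algebra k Λ] {Γ : Type} [AddCommGroup Γ]

/-- The graded product of `A` and `B` lies in `C`. -/
def GMul (A B C : Γ → Submodule k Λ) : Prop :=
  ∀ δ δ' x y, x ∈ A δ → y ∈ B δ' → x * y ∈ C (δ + δ')

theorem GMul.coeff_mul {A B C : Γ → Submodule k Λ} (h : GMul A B C) {φ ψ : GA Λ Γ}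
    (hφ : ∀ δ, φ.coeff δ ∈ A δ) (hψ : ∀ δ, ψ.coeff δ ∈ B δ) (δ : Γ) :
    (φ * ψ).coeff δ ∈ C δ := by
  rw [coeff_mul_apply_left]
  refine Submodule.sum_mem _ fun a _ => ?_
  have := h a (-a + δ) _ _ (hφ a) (hψ _)
  rwa [add_neg_cancel_left] at this

omit [AddCommGroup Γ] in
theorem coeff_single_mem {A : Γ → Submodule k Λ} {δ : Γ} {x : Λ} (hx : x ∈ A δ) (δ' : Γ) :
    (single δ x : AddMonoidAlgebra Λ Γ).coeff δ' ∈ A δ' := by
  classical
  rw [coeff_single, Finsupp.single_apply]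
  split_ifs with e
  · exact e ▸ hx
  · exact zero_mem _

theorem ga_alg (x : Λ) : algebraMap Λ (GA Λ Γ) x = single 0 x := rfl

theorem ga_inc (x : Λ) : IsScalarTower.toAlgHom k Λ (GA Λ Γ) x = single 0 x := rfl

/-- The elements of the group algebra whose coefficient of degree `δ` is in `A δ`. -/
def gsub (A : Γ → Submodule k Λ) (one : (1 : Λ) ∈ A 0) (aa : GMul A A A) :
    Subalgebra k (GA Λ Γ) where
  carrier := {φ | ∀ δ, φ.coeff δ ∈ A δ}
  mul_mem' := fun ha hb => aa.coeff_mul ha hb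
  add_mem' := fun ha hb δ => add_mem (ha δ) (hb δ)
  algebraMap_mem' := fun r => by
    have h : algebraMap k Λ r ∈ A 0 := by
      rw [Algebra.algebraMap_eq_smul_one]
      exact Submodule.smul_mem _ _ one
    exact coeff_single_mem h

/-- The corresponding ideal. -/
def gid {A : Γ → Submodule k Λ} (one : (1 : Λ) ∈ A 0) (aa : GMul A A A) (I : Γ → Submodule k Λ)
    (ai : GMul A I I) : Ideal (gsub A one aa) where
  carrier := {φ | ∀ δ, φ.1.coeff δ ∈ I δ}
  add_mem' := fun ha hb δ => add_mem (ha δ) (hb δ)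
  zero_mem' := fun _ => zero_mem _
  smul_mem' := fun a _ hb => ai.coeff_mul a.2 hb

/-- The coefficient of degree zero, when opposite degrees multiply to zero. -/
noncomputable def ev0 {A : Γ → Submodule k Λ} (one : (1 : Λ) ∈ A 0) (aa : GMul A A A)
    (hz : ∀ δ, δ ≠ 0 → ∀ x ∈ A δ, ∀ y ∈ A (-δ), x * y = 0) : gsub A one aa →ₐ[k] Λ where
  toFun φ := φ.1.coeff 0
  map_one' := by
    show (single 0 1 : GA Λ Γ).coeff 0 = _
    simp
  map_mul' φ ψ := by
    show (φ.1 * ψ.1).coeff 0 = _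
    rw [coeff_mul_apply_left, Finsupp.sum_eq_single 0]
    · simp
    · intro a _ ha
      rw [add_zero]
      exact hz a ha _ (φ.2 a) _ (ψ.2 _)
    · simp
  map_zero' := rfl
  map_add' _ _ := rfl
  commutes' r := by
    show (single 0 (algebraMap k Λ r) : GA Λ Γ).coeff 0 = _
    simp

/-- The comultiplication `u ^ δ ↦ u ^ δ * v ^ δ`. -/
noncomputable def cm (k Λ : Type u) [Field k] [CommRing Λ] [Algebra k Λ] (Γ : Type)
    [AddCommGroup Γ] : GA Λ Γ →ₐ[k] GA (GA Λ Γ) Γ :=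
  (curryAlgEquiv (R := k) (A := Λ) (M := Γ) (N := Γ)).toAlgHom.comp
    (mapDomainAlgHom k Λ ((AddMonoidHom.id Γ).prod (AddMonoidHom.id Γ)))

theorem cm_single (δ : Γ) (x : Λ) : cm k Λ Γ (single δ x) = single δ (single δ x) := by
  simp [cm]

theorem coeff_cm (φ : GA Λ Γ) (δ : Γ) : (cm k Λ Γ φ).coeff δ = single δ (φ.coeff δ) := by
  classical
  induction φ using induction_linear with
  | zero => simp
  | add a b ha hb => simp [ha, hb]
  | single a x =>
    rw [cm_single, coeff_single, coeff_single, Finsupp.single_apply, Finsupp.single_apply]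
    split_ifs with e
    · rw [e]
    · simp

theorem mapAlgHom_inj {S : Type u} [CommRing S] [Algebra k S] (f : S →ₐ[k] Λ)
    (hf : Function.Injective f) : Function.Injective (mapAlgHom Γ f) := fun a b h => by
  ext δ
  apply hf
  rw [← coeff_mapAlgHom, h, coeff_mapAlgHom]

/-- The grading of `gsub` as a coaction. -/
theorem exists_th {A : Γ → Submodule k Λ} (one : (1 : Λ) ∈ A 0) (aa : GMul A A A) :
    ∃ Th : gsub A one aa →ₐ[k] GA (gsub A one aa) Γ,
      (mapAlgHom Γ (gsub A one aa).val).comp Th = (cm k Λ Γ).comp (gsub A one aa).val := by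
  have hf := mapAlgHom_inj (Γ := Γ) (gsub A one aa).val Subtype.val_injective
  have hr : ∀ φ, ((cm k Λ Γ).comp (gsub A one aa).val) φ ∈
      (mapAlgHom Γ (gsub A one aa).val).range := fun φ => by
    refine ⟨ofCoeff (Finsupp.onFinset φ.1.coeff.support
      (fun δ => ⟨single δ (φ.1.coeff δ), coeff_single_mem (φ.2 δ)⟩) fun δ h => ?_), ?_⟩
    · rw [Finsupp.mem_support_iff]
      exact fun e => h (Subtype.ext (by simp [e]))
    · refine coeff_injective (Finsupp.ext fun δ => ?_)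
      exact (coeff_mapAlgHom _ _ _).trans (coeff_cm φ.1 δ).symm
  refine ⟨(AlgEquiv.ofInjective _ hf).symm.toAlgHom.comp (AlgHom.codRestrict _ _ hr), ?_⟩
  refine AlgHom.ext fun φ => ?_
  exact congrArg Subtype.val ((AlgEquiv.ofInjective _ hf).apply_symm_apply ⟨_, hr φ⟩)

variable {n : ℕ}

theorem exists_gl_sub (S : Subalgebra k Λ) (g : GL (Fin n) Λ) (h1 : ∀ i j, (g : Mat n Λ) i j ∈ S)
    (h2 : ∀ i j, ((g⁻¹ : GL (Fin n) Λ) : Mat n Λ) i j ∈ S) :
    ∃ g' : GL (Fin n) S, gm S.val g' = g := by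
  have inj : Function.Injective (S.val.toRingHom.mapMatrix : Mat n S → Mat n Λ) :=
    fun a b h => Matrix.ext fun i j => Subtype.ext (congrFun (congrFun h i) j)
  refine ⟨⟨of fun i j => ⟨_, h1 i j⟩, of fun i j => ⟨_, h2 i j⟩, inj ?_, inj ?_⟩, Units.ext rfl⟩
  · rw [map_mul, map_one]
    exact g.mul_inv
  · rw [map_mul, map_one]
    exact g.inv_mul

theorem gm_rho {S : Type u} [CommRing S] [Algebra k S] (f : S →ₐ[k] Λ) (c : Fin n → Γ) :
    gm (mapAlgHom Γ f) (rho S c) = rho Λ c := by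
  ext i j
  by_cases e : i = j
  · subst e
    simp [rho, dgU, uu]
  · simp [rho, dgU, e]

theorem rho_neg (c : Fin n → Γ) : rho Λ (-c) = (rho Λ c)⁻¹ := Units.ext rfl

theorem coeff_conj (c : Fin n → Γ) (G : GL (Fin n) (GA Λ Γ)) (i j : Fin n) (δ : Γ) :
    (((rho Λ c * G * (rho Λ c)⁻¹ : GL (Fin n) (GA Λ Γ)) : Mat n (GA Λ Γ)) i j).coeff δ =
      ((G : Mat n (GA Λ Γ)) i j).coeff (δ - (c i - c j)) := by
  show ((diagonal (fun i => (single (c i) 1 : GA Λ Γ)) * (G : Mat n (GA Λ Γ)) *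
    diagonal (fun i => (single (-c i) 1 : GA Λ Γ))) i j).coeff δ = _
  rw [mul_diagonal, diagonal_mul, coeff_mul_single_apply, coeff_single_mul_apply, one_mul, mul_one]
  congr 1
  abel

theorem conj_const (c : Fin n → Γ) (g : GL (Fin n) Λ) (i j : Fin n) :
    ((rho Λ c * gm (IsScalarTower.toAlgHom k Λ (GA Λ Γ)) g * (rho Λ c)⁻¹ :
      GL (Fin n) (GA Λ Γ)) : Mat n (GA Λ Γ)) i j = single (c i - c j) ((g : Mat n Λ) i j) := by
  classical
  refine coeff_injective (Finsupp.ext fun δ => ?_)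
  rw [coeff_conj, gm_apply, ga_inc, coeff_single, coeff_single, Finsupp.single_apply,
    Finsupp.single_apply]
  simp only [eq_comm (a := (0 : Γ)), sub_eq_zero, eq_comm (a := δ)]

theorem inv_sub_one (g : GL (Fin n) Λ) : ((g⁻¹ : GL (Fin n) Λ) : Mat n Λ) - 1 =
    -(((g⁻¹ : GL (Fin n) Λ) : Mat n Λ) * ((g : Mat n Λ) - 1)) := by
  rw [mul_sub, Units.inv_mul, mul_one, neg_sub]

end graded

namespace HS

variable {k : Type u} [Field k] {n : ℕ} (H : HS k n) {Λ : Type u} [CommRing Λ] [Algebra k Λ]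
  {Γ : Type} [AddCommGroup Γ]

theorem orb_nat {S : Type u} [CommRing S] [Algebra k S] (f : S →ₐ[k] Λ) (c : Fin n → Γ)
    (y : H.B →ₐ[k] S) : (mapAlgHom Γ f).comp (H.orb c y) = H.orb c (f.comp y) := by
  rw [orb, H.act_nat, gm_rho, orb]
  congr 1
  exact AlgHom.ext fun b => mapAlgHom_single _ _ _

theorem cf_nat {S : Type u} [CommRing S] [Algebra k S] (f : S →ₐ[k] Λ) (c : Fin n → Γ)
    (y : H.B →ₐ[k] S) (δ : Γ) (b : H.B) : H.cf c (f.comp y) δ b = f (H.cf c y δ b) := by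
  rw [cf, ← orb_nat]
  exact coeff_mapAlgHom _ _ _

/-- The components of `y` are the values of `y` at the universal components. -/
theorem cf_eq (c : Fin n → Γ) (y : H.B →ₐ[k] Λ) (δ : Γ) (b : H.B) :
    H.cf c y δ b = y (H.cf c (AlgHom.id k H.B) δ b) :=
  H.cf_nat y c (AlgHom.id k H.B) δ b

theorem cm_orb (c : Fin n → Γ) (y : H.B →ₐ[k] Λ) :
    (cm k Λ Γ).comp (H.orb c y) = H.orb c (H.orb c y) := by
  have e1 : gm (cm k Λ Γ) (rho Λ c) = rho (GA Λ Γ) c *
      gm (IsScalarTower.toAlgHom k (GA Λ Γ) (GA (GA Λ Γ) Γ)) (rho Λ c) := by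
    ext i j : 2
    rw [Units.val_mul]
    have e0 : ((rho (GA Λ Γ) c : GL (Fin n) (GA (GA Λ Γ) Γ)) : Mat n (GA (GA Λ Γ) Γ)) =
      diagonal fun i => single (c i) 1 := rfl
    rw [e0, diagonal_mul, gm_apply, gm_apply, ga_inc, single_mul_single, add_zero, one_mul]
    by_cases e : i = j
    · subst e
      simp [rho, dgU, uu, cm_single]
    · simp [rho, dgU, e]
  rw [orb, H.act_nat, e1, H.act_mul, orb, H.act_nat]
  congr 2
  exact AlgHom.ext fun b => cm_single _ _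

/-- Passing to the coefficient of degree zero. -/
theorem act_ev0 {A : Γ → Submodule k Λ} (top : ∀ x, x ∈ A 0) (aa : GMul A A A)
    (hz : ∀ δ, δ ≠ 0 → ∀ x ∈ A δ, ∀ y ∈ A (-δ), x * y = 0) (G : GL (Fin n) (GA Λ Γ))
    (h1 : ∀ i j δ, ((G : Mat n (GA Λ Γ)) i j).coeff δ ∈ A δ)
    (h2 : ∀ i j δ, (((G⁻¹ : GL (Fin n) (GA Λ Γ)) : Mat n (GA Λ Γ)) i j).coeff δ ∈ A δ)
    (y : H.B →ₐ[k] Λ) :
    ∃ l : GL (Fin n) Λ, (∀ i j, (l : Mat n Λ) i j = ((G : Mat n (GA Λ Γ)) i j).coeff 0) ∧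
      (∀ i j, ((l⁻¹ : GL (Fin n) Λ) : Mat n Λ) i j =
        (((G⁻¹ : GL (Fin n) (GA Λ Γ)) : Mat n (GA Λ Γ)) i j).coeff 0) ∧
      ∀ b, H.act l y b =
        (H.act G ((IsScalarTower.toAlgHom k Λ (GA Λ Γ)).comp y) b).coeff 0 := by
  obtain ⟨G', rfl⟩ := exists_gl_sub (gsub A (top 1) aa) G h1 h2
  let y' : H.B →ₐ[k] gsub A (top 1) aa :=
    ((IsScalarTower.toAlgHom k Λ (GA Λ Γ)).comp y).codRestrict _ fun b =>
      coeff_single_mem (top (y b))
  have e1 : (ev0 (top 1) aa hz).comp y' = y := AlgHom.ext fun b => by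
    show (single 0 (y b) : GA Λ Γ).coeff 0 = _
    simp
  have e2 : (IsScalarTower.toAlgHom k Λ (GA Λ Γ)).comp y = (gsub A (top 1) aa).val.comp y' := rfl
  refine ⟨gm (ev0 (top 1) aa hz) G', fun _ _ => rfl, fun _ _ => rfl, fun b => ?_⟩
  rw [e2, ← H.act_nat]
  conv_lhs => rw [← e1, ← H.act_nat]
  rfl

theorem orb_act (c : Fin n → Γ) (g : GL (Fin n) Λ) (y : H.B →ₐ[k] Λ) :
    H.orb c (H.act g y) = H.act (rho Λ c * gm (IsScalarTower.toAlgHom k Λ (GA Λ Γ)) g *
      (rho Λ c)⁻¹) (H.orb c y) := by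
  rw [orb, orb, H.act_nat, ← H.act_mul, ← H.act_mul, inv_mul_cancel_right]

theorem sum_cf (c : Fin n → Γ) (y : H.B →ₐ[k] Λ) (b : H.B) :
    (H.orb c y b).coeff.sum (fun _ x => x) = y b := by
  let ε : GA Λ Γ →ₐ[k] Λ := (lift Λ Λ Γ 1).restrictScalars k
  have e1 : gm ε (rho Λ c) = 1 := by
    ext i j
    by_cases e : i = j
    · subst e
      simp [ε, rho, dgU, uu]
    · simp [rho, dgU, e]
  have e2 : ε.comp ((IsScalarTower.toAlgHom k Λ (GA Λ Γ)).comp y) = y :=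
    AlgHom.ext fun b => by simp [ε]
  have e3 : ε.comp (H.orb c y) = y := by rw [orb, H.act_nat, e1, e2, H.act_one]
  conv_rhs => rw [← e3]
  simp [ε, lift_apply]

theorem fixed_iff (c : Fin n → Γ) (y : H.B →ₐ[k] Λ) :
    H.Fixed c y ↔ ∀ δ, δ ≠ 0 → ∀ b, H.cf c y δ b = 0 := by
  constructor
  · intro h δ hδ b
    rw [cf, h]
    exact Finsupp.single_eq_of_ne hδ
  · intro h
    refine AlgHom.ext fun b => coeff_injective (Finsupp.ext fun δ => ?_)
    by_cases e : δ = 0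
    · subst e
      have := H.sum_cf c y b
      rw [Finsupp.sum_eq_single 0 (fun a _ ha => h a ha b) (fun _ => rfl)] at this
      exact this.trans (Finsupp.single_eq_same (a := (0 : Γ)) (b := y b)).symm
    · exact (h δ e b).trans (Finsupp.single_eq_of_ne e).symm

/-- GEN: graded conditions can be tested on generators. -/
theorem gen {A I : Γ → Submodule k Λ} (one : (1 : Λ) ∈ A 0) (aa : GMul A A A) (ai : GMul A I I)
    (c : Fin n → Γ) (y : H.B →ₐ[k] Λ) {s : Set H.B} (hs : Algebra.adjoin k s = ⊤)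
    (hA : ∀ b ∈ s, ∀ δ, H.cf c y δ b ∈ A δ) (hI : ∀ b ∈ s, ∀ δ, δ ≠ 0 → H.cf c y δ b ∈ I δ) :
    (∀ δ b, H.cf c y δ b ∈ A δ) ∧ ∀ δ, δ ≠ 0 → ∀ b, H.cf c y δ b ∈ I δ := by
  have key : ∀ b ∈ Algebra.adjoin k s,
      (∀ δ, H.cf c y δ b ∈ A δ) ∧ ∀ δ, δ ≠ 0 → H.cf c y δ b ∈ I δ := by
    intro b hb
    induction hb using Algebra.adjoin_induction with
    | mem b hb => exact ⟨hA b hb, hI b hb⟩
    | algebraMap r =>
      simp only [cf, AlgHom.commutes]
      refine ⟨(gsub A one aa).algebraMap_mem r, fun δ hδ => ?_⟩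
      have : (algebraMap k (GA Λ Γ) r).coeff δ = 0 := Finsupp.single_eq_of_ne hδ
      rw [this]
      exact zero_mem _
    | add a b _ _ ha hb =>
      simp only [cf, map_add] at ha hb ⊢
      exact ⟨fun δ => add_mem (ha.1 δ) (hb.1 δ), fun δ h => add_mem (ha.2 δ h) (hb.2 δ h)⟩
    | mul a b _ _ ha hb =>
      simp only [cf, map_mul] at ha hb ⊢
      refine ⟨aa.coeff_mul ha.1 hb.1, fun δ h => ?_⟩
      rw [coeff_mul_apply_left]
      refine Submodule.sum_mem _ fun e _ => ?_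
      by_cases he : e = δ
      · have := ai (-e + δ) e _ _ (hb.1 _) (ha.2 e (he ▸ h))
        rwa [mul_comm, add_comm, add_neg_cancel_left] at this
      · have := ai e (-e + δ) _ _ (ha.1 e) (hb.2 _ fun e' => he (neg_add_eq_zero.1 e'))
        rwa [add_neg_cancel_left] at this
  exact ⟨fun δ b => (key b (hs ▸ Algebra.mem_top)).1 δ,
    fun δ h b => (key b (hs ▸ Algebra.mem_top)).2 δ h⟩

end HS

end Pool.Agent.GR
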