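import Pool.Agent.P.MP_c1f06d_ag.r.Defs

/-! Gaussian elimination: Bruhat decomposition, elementary divisors, diagonal idempotents. -/

open Matrix

universe u

namespace Pool.Agent.GR

section ring

variable {n : ℕ} {A : Type u} [CommRing A]

theorem InL.one {ι : Type} (c : Fin n → ι) : InL c (1 : Mat n A) := fun _ _ h =>
  one_apply_ne fun e => h (congrArg c e)

theorem InL.mul {ι : Type} {c : Fin n → ι} {M N : Mat n A} (hM : InL c M) (hN : InL c N) :
    InL c (M * N) := fun i j h => by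
  rw [mul_apply]
  refine Finset.sum_eq_zero fun l _ => ?_
  by_cases e : c i = c l
  · rw [hN l j (e ▸ h), mul_zero]
  · rw [hM i l e, zero_mul]

theorem InL.inv {ι : Type} {c : Fin n → ι} {g : GL (Fin n) A} (hg : InL c (g : Mat n A)) :
    InL c ((g⁻¹ : GL (Fin n) A) : Mat n A) := fun i j h => by
  classical
  have e : eps A c (c i) * (g : Mat n A) = (g : Mat n A) * eps A c (c i) := by
    ext a b
    rw [eps, diagonal_mul, mul_diagonal]
    by_cases hab : c a = c b
    · rw [hab, mul_comm]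
    · rw [hg a b hab, mul_zero, zero_mul]
  have e2 : ((g⁻¹ : GL (Fin n) A) : Mat n A) * eps A c (c i) =
      eps A c (c i) * ((g⁻¹ : GL (Fin n) A) : Mat n A) := by
    rw [Units.inv_mul_eq_iff_eq_mul, ← Matrix.mul_assoc, ← e, Matrix.mul_assoc, Units.mul_inv,
      Matrix.mul_one]
  have e3 := congrFun (congrFun e2 i) j
  rw [eps, diagonal_mul, mul_diagonal, if_pos rfl, if_neg (Ne.symm h), mul_zero, one_mul] at e3
  exact e3.symm

theorem InP.one (a : Fin n → ℤ) : InP a (1 : Mat n A) := fun _ _ h =>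
  one_apply_ne fun e => h.ne (congrArg a e)

theorem InP.mul {a : Fin n → ℤ} {M N : Mat n A} (hM : InP a M) (hN : InP a N) :
    InP a (M * N) := fun i j h => by
  rw [mul_apply]
  refine Finset.sum_eq_zero fun l _ => ?_
  by_cases e : a i < a l
  · rw [hM i l e, zero_mul]
  · rw [hN l j ((not_lt.1 e).trans_lt h), mul_zero]

theorem InP.inv {a : Fin n → ℤ} {g : GL (Fin n) A} (hg : InP a (g : Mat n A)) :
    InP a ((g⁻¹ : GL (Fin n) A) : Mat n A) := by
  have h : (g : Mat n A).BlockTriangular fun i => -a i := fun i j e => hg i j (neg_lt_neg_iff.1 e)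
  let _ := g.invertible
  have h2 := blockTriangular_inv_of_blockTriangular h
  intro i j e
  rw [coe_units_inv]
  exact h2 (neg_lt_neg_iff.2 e)

/-- The subgroup of the matrices in `P a` and in `L c`. -/
def PL {ι : Type} (a : Fin n → ℤ) (c : Fin n → ι) (A : Type u) [CommRing A] :
    Subgroup (GL (Fin n) A) where
  carrier := {g | InP a (g : Mat n A) ∧ InL c (g : Mat n A)}
  one_mem' := ⟨InP.one a, InL.one c⟩
  mul_mem' := fun h h' => ⟨h.1.mul h'.1, h.2.mul h'.2⟩
  inv_mem' := fun h => ⟨h.1.inv, h.2.inv⟩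

/-- Complete orthogonal idempotents over a local ring are diagonal in a suitable frame. -/
theorem diag_idem [IsLocalRing A] {ι ι' : Type} [DecidableEq ι] {S : Finset ι} {E : ι → Mat n A}
    (hE : Idem S E) {c : Fin n → ι'} (hc : ∀ m ∈ S, InL c (E m)) :
    ∃ (β : GL (Fin n) A) (a : Fin n → ι), InL c (β : Mat n A) ∧
      InL c ((β⁻¹ : GL (Fin n) A) : Mat n A) ∧ (∀ i, a i ∈ S) ∧
      ∀ m ∈ S, ((β⁻¹ : GL (Fin n) A) : Mat n A) * E m * (β : Mat n A) = eps A a m := by
  classical
  have h1 : (detRowAlternating : (Fin n → A) [⋀^Fin n]→ₗ[A] A).toMultilinearMap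
      (fun i => ∑ m ∈ S, (E m)ᵀ i) = 1 := by
    have : (fun i => ∑ m ∈ S, (E m)ᵀ i) = (1 : Mat n A) := by
      ext i j
      rw [Finset.sum_apply, ← transpose_one, ← hE.2.2, transpose_apply, Matrix.sum_apply]
      rfl
    rw [this]
    exact det_one
  rw [MultilinearMap.map_sum_finset] at h1
  obtain ⟨a, ha, hu⟩ := IsLocalRing.exists_of_isUnit_sum (h1 ▸ isUnit_one)
  have ha' : ∀ i, a i ∈ S := Fintype.mem_piFinset.1 ha
  have hu' : IsUnit (of fun i j => E (a j) i j : Mat n A) := by
    rw [isUnit_iff_isUnit_det, ← det_transpose]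
    exact hu
  obtain ⟨β, hβ⟩ := hu'
  have hL : InL c (β : Mat n A) := fun i j h => by rw [hβ]; exact hc _ (ha' j) i j h
  refine ⟨β, a, hL, hL.inv, ha', fun m hm => ?_⟩
  rw [Matrix.mul_assoc, Units.inv_mul_eq_iff_eq_mul, hβ]
  ext i j
  rw [eps, mul_diagonal]
  show (E m * E (a j)) i j = E (a j) i j * _
  by_cases e : a j = m
  · rw [if_pos e, mul_one, ← e, hE.1 _ (ha' j)]
  · rw [if_neg e, mul_zero, hE.2.1 m hm _ (ha' j) (Ne.symm e), Matrix.zero_apply]

/-- The unipotent matrix `1 - v wᵀ` for orthogonal vectors. -/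
def trv (v w : Fin n → A) (h : w ⬝ᵥ v = 0) : GL (Fin n) A :=
  ⟨1 - vecMulVec v w, 1 + vecMulVec v w,
    by rw [sub_mul, mul_add, mul_add, vecMulVec_mul_vecMulVec, h]; simp,
    by rw [mul_sub, add_mul, add_mul, vecMulVec_mul_vecMulVec, h]; simp⟩

end ring

section field

variable {n : ℕ} {K : Type u} [Field K]

/-- The column `j` has one nonzero entry, which is alone in its row. -/
def Done (M : Mat n K) (j : Fin n) : Prop :=
  ∃ i, M i j ≠ 0 ∧ (∀ k, k ≠ i → M k j = 0) ∧ ∀ l, l ≠ j → M i l = 0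

/-- Row operation clearing the column of the pivot. -/
def rowOp (M : Mat n K) (i j : Fin n) : GL (Fin n) K :=
  trv (fun k => if k = i then 0 else M k j / M i j) (Pi.single i 1) (by simp)

/-- Column operation clearing the row of the pivot. -/
def colOp (M : Mat n K) (i j : Fin n) : GL (Fin n) K :=
  trv (Pi.single j 1) (fun l => if l = j then 0 else M i l / M i j) (by simp)

theorem rowOp_mul (M N : Mat n K) (i j k l : Fin n) : ((rowOp M i j : Mat n K) * N) k l =
    N k l - (if k = i then 0 else M k j / M i j) * N i l := by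
  simp [rowOp, trv, sub_mul, vecMulVec_mul, vecMulVec_apply]

theorem mul_colOp (M N : Mat n K) (i j k l : Fin n) : (N * (colOp M i j : Mat n K)) k l =
    N k l - N k j * (if l = j then 0 else M i l / M i j) := by
  simp [colOp, trv, mul_sub, mul_vecMulVec, vecMulVec_apply]

theorem Done.step {M : Mat n K} {i j : Fin n} (h : M i j ≠ 0) :
    Done ((rowOp M i j : Mat n K) * M * (colOp M i j : Mat n K)) j ∧ ∀ l, Done M l → l ≠ j →
      Done ((rowOp M i j : Mat n K) * M * (colOp M i j : Mat n K)) l := by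
  refine ⟨⟨i, ?_, fun k hk => ?_, fun l hl => ?_⟩, fun l ⟨p, h1, h2, h3⟩ hl => ?_⟩
  · simpa [mul_colOp, rowOp_mul] using h
  · simp [mul_colOp, rowOp_mul, hk, h]
  · simp only [mul_colOp, rowOp_mul, if_pos, if_neg hl, zero_mul, sub_zero]
    rw [mul_div_cancel₀ _ h, sub_self]
  · have hp : i ≠ p := fun e => h (e ▸ h3 j hl.symm)
    have e1 := h2 i hp
    have e2 := h3 j hl.symm
    refine ⟨p, ?_, fun k hk => ?_, fun m hm => ?_⟩
    · simpa [mul_colOp, rowOp_mul, e1, e2] using h1
    · simp [mul_colOp, rowOp_mul, e1, h2 k hk]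
    · simp [mul_colOp, rowOp_mul, e2, h3 m hm]

theorem elim (U B : Subgroup (GL (Fin n) K)) (I : GL (Fin n) K → Prop)
    (hI : ∀ u ∈ U, ∀ b ∈ B, ∀ M, I M → I (u * M * b))
    (hp : ∀ M : GL (Fin n) K, I M → ∀ j0, ¬ Done (M : Mat n K) j0 → ∃ i j, ¬ Done (M : Mat n K) j ∧
      (M : Mat n K) i j ≠ 0 ∧ rowOp (M : Mat n K) i j ∈ U ∧ colOp (M : Mat n K) i j ∈ B)
    (M : GL (Fin n) K) (hM : I M) : ∃ u ∈ U, ∃ b ∈ B, ∃ (w : Equiv.Perm (Fin n)) (d : Fin n → Kˣ),
      I (u * M * b) ∧ ∀ i j, ((u * M * b : GL (Fin n) K) : Mat n K) i j =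
        if i = w j then (d j : K) else 0 := by
  classical
  have key : ∀ t : ℕ, ∀ M : GL (Fin n) K, I M →
      (Finset.univ.filter fun j => ¬ Done (M : Mat n K) j).card ≤ t →
      ∃ u ∈ U, ∃ b ∈ B, ∀ j, Done ((u * M * b : GL (Fin n) K) : Mat n K) j := by
    intro t
    induction t with
    | zero =>
      intro M _ h
      refine ⟨1, U.one_mem, 1, B.one_mem, fun j => by_contra fun hj => ?_⟩
      rw [one_mul, mul_one] at hj
      exact Finset.card_ne_zero.2 ⟨j, by simpa using hj⟩ (Nat.le_zero.1 h)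
    | succ t ih =>
      intro M hM h
      by_cases h0 : ∀ j, Done (M : Mat n K) j
      · exact ⟨1, U.one_mem, 1, B.one_mem, by rwa [one_mul, mul_one]⟩
      obtain ⟨j0, hj0⟩ := not_forall.1 h0
      obtain ⟨i, j, h1, h2, h3, h4⟩ := hp M hM j0 hj0
      obtain ⟨h5, h6⟩ := Done.step h2
      obtain ⟨u, hu, b, hb, h7⟩ := ih _ (hI _ h3 _ h4 M hM) (Nat.le_of_lt_succ
        (lt_of_lt_of_le (Finset.card_lt_card ⟨fun l hl => by
          rw [Finset.mem_filter] at hl ⊢
          exact ⟨Finset.mem_univ l, fun hd => hl.2 (h6 l hd fun e => h1 (e ▸ hd))⟩, fun hs =>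
            (Finset.mem_filter.1 (hs (Finset.mem_filter.2 ⟨Finset.mem_univ j, h1⟩))).2 h5⟩) h))
      exact ⟨u * _, U.mul_mem hu h3, _ * b, B.mul_mem h4 hb, by simpa only [mul_assoc] using h7⟩
  obtain ⟨u, hu, b, hb, h⟩ := key _ M hM le_rfl
  choose p h1 h2 h3 using h
  have hinj : Function.Injective p := fun j l e => by_contra fun hne =>
    h1 j (e ▸ h3 l j hne)
  refine ⟨u, hu, b, hb, Equiv.ofBijective p (Finite.injective_iff_bijective.1 hinj),
    fun j => Units.mk0 _ (h1 j), hI u hu b hb M hM, fun i j => ?_⟩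
  by_cases e : i = p j
  · rw [Equiv.ofBijective_apply, if_pos e, e, Units.val_mk0]
  · rw [Equiv.ofBijective_apply, if_neg e, h2 j i e]

theorem exists_col_ne (M : GL (Fin n) K) (j : Fin n) : ∃ i, (M : Mat n K) i j ≠ 0 := by
  by_contra h
  push Not at h
  have e := congrFun (congrFun M.inv_mul j) j
  simp [mul_apply, h] at e

end field

section perm

variable {n : ℕ}

/-- The permutation matrix that sends `e j` to `e (w j)`. -/
def pmat (A : Type u) [CommRing A] (w : Equiv.Perm (Fin n)) : GL (Fin n) A :=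
  ⟨of fun i j => if i = w j then 1 else 0, of fun i j => if w i = j then 1 else 0,
    by
      ext i j
      rw [mul_apply, Finset.sum_eq_single (w.symm i)] <;>
        simp +contextual [one_apply, eq_comm, Equiv.eq_symm_apply],
    by
      ext i j
      rw [mul_apply, Finset.sum_eq_single (w i)] <;> simp +contextual [one_apply, eq_comm]⟩

theorem pmat_mul_dgU {A : Type u} [CommRing A] (w : Equiv.Perm (Fin n)) (d : Fin n → Aˣ)
    (i j : Fin n) : ((pmat A w * dgU d : GL (Fin n) A) : Mat n A) i j =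
      if i = w j then (d j : A) else 0 := by
  simp [pmat, dgU, mul_diagonal]

theorem pmat_conj {A : Type u} [CommRing A] (w : Equiv.Perm (Fin n)) (d : Fin n → Aˣ) :
    pmat A w * dgU d = dgU (fun i => d (w.symm i)) * pmat A w := by
  ext i j
  rw [pmat_mul_dgU]
  by_cases e : i = w j <;> simp [pmat, dgU, diagonal_mul, e]

variable {K : Type u} [Field K]

/-- Bruhat decomposition inside a Levi subgroup. -/
theorem bruhat {ι : Type} (μ a : Fin n → ℤ) (c : Fin n → ι) (M : GL (Fin n) K)
    (hM : InL c (M : Mat n K)) : ∃ (u b : GL (Fin n) K) (w : Equiv.Perm (Fin n)),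
      M = u * pmat K w * b ∧ u ∈ PL μ c K ∧ b ∈ PL a c K ∧ ∀ j, c (w j) = c j := by
  classical
  obtain ⟨u, hu, b, hb, w, d, h1, h2⟩ := elim (PL μ c K) (PL a c K)
    (fun M => InL c (M : Mat n K)) (fun u hu b hb M hM => (hu.2.mul hM).mul hb.2)
    (fun M hM j0 hj0 => by
      obtain ⟨j, hj, hmax⟩ := Finset.exists_max_image
        (Finset.univ.filter fun j => ¬ Done (M : Mat n K) j) a
        ⟨j0, Finset.mem_filter.2 ⟨Finset.mem_univ _, hj0⟩⟩
      obtain ⟨i0, hi0⟩ := exists_col_ne M j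
      obtain ⟨i, hi, hmin⟩ := Finset.exists_min_image
        (Finset.univ.filter fun i => (M : Mat n K) i j ≠ 0) μ
        ⟨i0, Finset.mem_filter.2 ⟨Finset.mem_univ _, hi0⟩⟩
      have hi' := (Finset.mem_filter.1 hi).2
      have hc : c i = c j := by_contra fun e => hi' (hM i j e)
      have r1 : ∀ k l, k ≠ l → (l = i → (M : Mat n K) k j = 0) →
          (rowOp (M : Mat n K) i j : Mat n K) k l = 0 := fun k l e h => by
        rw [← Matrix.mul_one (rowOp (M : Mat n K) i j : Mat n K), rowOp_mul, one_apply_ne e]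
        by_cases e' : l = i
        · simp [h e']
        · simp [one_apply_ne' e']
      have r2 : ∀ k l, k ≠ l → (k = j → (M : Mat n K) i l = 0) →
          (colOp (M : Mat n K) i j : Mat n K) k l = 0 := fun k l e h => by
        rw [← Matrix.one_mul (colOp (M : Mat n K) i j : Mat n K), mul_colOp, one_apply_ne e]
        by_cases e' : k = j
        · simp [h e']
        · simp [one_apply_ne e']
      refine ⟨i, j, (Finset.mem_filter.1 hj).2, hi', ⟨fun k l h => r1 k l (fun e => h.ne
        (congrArg μ e)) fun e => by_contra fun hk => ?_, fun k l h => r1 k l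
          (fun e => h (congrArg c e)) fun e => hM k j (hc ▸ e ▸ h)⟩,
        ⟨fun k l h => r2 k l (fun e => h.ne (congrArg a e)) fun e => ?_, fun k l h => r2 k l
          (fun e => h (congrArg c e)) fun e => hM i l (hc ▸ e ▸ h)⟩⟩
      · exact (hmin k (Finset.mem_filter.2 ⟨Finset.mem_univ _, hk⟩)).not_gt (e ▸ h)
      · have hd : Done (M : Mat n K) l := by_contra fun hd =>
          (hmax l (Finset.mem_filter.2 ⟨Finset.mem_univ _, hd⟩)).not_gt (e ▸ h)
        obtain ⟨p, _, h2, h3⟩ := hd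
        exact h2 i fun e' => hi' (e' ▸ h3 j fun e2 => h.ne (congrArg a (e.trans e2)))) M hM
  have hd : dgU d ∈ PL a c K :=
    ⟨fun i j h => diagonal_apply_ne _ fun e => h.ne (congrArg a e),
      fun i j h => diagonal_apply_ne _ fun e => h (congrArg c e)⟩
  have e : u * M * b = pmat K w * dgU d := by
    ext i j
    rw [h2, pmat_mul_dgU]
  refine ⟨u⁻¹, dgU d * b⁻¹, w, ?_, inv_mem hu, mul_mem hd (inv_mem hb), fun j => by_contra
    fun h => (d j).ne_zero ?_⟩
  · rw [mul_assoc, ← mul_assoc (pmat K w), ← e]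
    group
  · have := h1 _ _ h
    rwa [h2, if_pos rfl] at this

end perm

section smith

variable {n : ℕ} {W F : Type u} [CommRing W] [IsDomain W] [ValuationRing W] [Field F]
  [Algebra W F] [IsFractionRing W F]

omit [IsDomain W] [ValuationRing W] in
theorem trv_mem {v w : Fin n → F} (h : w ⬝ᵥ v = 0) (hv : ∀ i, v i ∈ (algebraMap W F).range)
    (hw : ∀ i, w i ∈ (algebraMap W F).range) :
    trv v w h ∈ (GeneralLinearGroup.map (n := Fin n) (algebraMap W F)).range := by
  choose v0 hv0 using hv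
  choose w0 hw0 using hw
  refine ⟨trv v0 w0 (IsFractionRing.injective W F ?_), ?_⟩
  · simpa [dotProduct, hv0, hw0] using h
  · ext i j
    simp [trv, vecMulVec_apply, hv0, hw0, one_apply, apply_ite (algebraMap W F)]

/-- Elementary divisors over a valuation ring. -/
theorem smith0 (σ : GL (Fin n) F) : ∃ (k₁ k₂ : GL (Fin n) W) (d : Fin n → Fˣ),
    σ = GeneralLinearGroup.map (algebraMap W F) k₁ * dgU d *
      GeneralLinearGroup.map (algebraMap W F) k₂ := by
  classical
  obtain ⟨_, ⟨u, rfl⟩, _, ⟨b, rfl⟩, w, d, -, h2⟩ := elim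
    (GeneralLinearGroup.map (n := Fin n) (algebraMap W F)).range
    (GeneralLinearGroup.map (n := Fin n) (algebraMap W F)).range (fun _ => True)
    (fun _ _ _ _ _ _ => trivial) (fun M _ j0 hj0 => by
      obtain ⟨i0, hi0⟩ := exists_col_ne M j0
      obtain ⟨⟨i, j⟩, hij, hmax⟩ := Finset.exists_max_image
        (Finset.univ.filter fun p : Fin n × Fin n => ¬ Done (M : Mat n F) p.2)
        (fun p => ValuationRing.valuation W F ((M : Mat n F) p.1 p.2))
        ⟨(i0, j0), Finset.mem_filter.2 ⟨Finset.mem_univ _, hj0⟩⟩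
      have hj : ¬ Done (M : Mat n F) j := (Finset.mem_filter.1 hij).2
      have h0 : (M : Mat n F) i j ≠ 0 := fun e => hi0 (by
        have := hmax (i0, j0) (Finset.mem_filter.2 ⟨Finset.mem_univ _, hj0⟩)
        simpa [e] using this)
      have hd : ∀ k l, ¬ Done (M : Mat n F) l →
          (M : Mat n F) k l / (M : Mat n F) i j ∈ (algebraMap W F).range := fun k l hl => by
        refine (ValuationRing.mem_integer_iff W F _).1 ?_
        rw [Valuation.mem_integer_iff, map_div₀]
        exact div_le_one_of_le₀ (hmax (k, l) (Finset.mem_filter.2 ⟨Finset.mem_univ _, hl⟩))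
          zero_le
      have hs : ∀ k l : Fin n, (Pi.single k 1 : Fin n → F) l ∈ (algebraMap W F).range :=
        fun k l => by
          rw [Pi.single_apply]
          split_ifs
          exacts [one_mem _, zero_mem _]
      refine ⟨i, j, hj, h0, trv_mem _ (fun k => ?_) (hs i), trv_mem _ (hs j) fun l => ?_⟩
      · split_ifs
        exacts [zero_mem _, hd k j hj]
      · split_ifs with e
        · exact zero_mem _
        by_cases hl : Done (M : Mat n F) l
        · obtain ⟨p, _, h2, h3⟩ := hl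
          rw [h2 i fun e' => h0 (e' ▸ h3 j (Ne.symm e)), zero_div]
          exact zero_mem _
        · exact hd i l hl) σ trivial
  have e : GeneralLinearGroup.map (algebraMap W F) u * σ *
      GeneralLinearGroup.map (algebraMap W F) b = pmat F w * dgU d := by
    ext i j
    rw [h2, pmat_mul_dgU]
  have e2 : GeneralLinearGroup.map (algebraMap W F) (pmat W w) = pmat F w := by
    ext i j
    simp [pmat, apply_ite (algebraMap W F)]
  refine ⟨u⁻¹ * pmat W w, b⁻¹, d, ?_⟩
  rw [map_mul, map_inv, map_inv, e2, mul_assoc _ (pmat F w), ← e]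
  group

/-- Finitely many elements of `Fˣ` are, up to units of `W`, monomials in independent elements of
the maximal ideal. -/
theorem exists_indep (d : Fin n → Fˣ) : ∃ (r : ℕ) (π : Fin r → Fˣ) (c : Fin n → Fin r → ℤ)
    (e : Fin n → Wˣ), (∀ j, ∃ p ∈ IsLocalRing.maximalIdeal W, algebraMap W F p = π j) ∧
    (∀ m : Fin r → ℤ, (∃ v : Wˣ, algebraMap W F v = (∏ j, π j ^ m j : Fˣ)) → m = 0) ∧
    ∀ i, d i = Units.map (algebraMap W F : W →* F) (e i) * ∏ j, π j ^ c i j := by
  classical
  let q : Fˣ → Additive (ValuationRing.ValueGroup W F)ˣ := fun x =>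
    Additive.ofMul (Units.map (ValuationRing.valuation W F : F →* _) x)
  have hv : ∀ x : Fˣ, q x = 0 ↔ ValuationRing.valuation W F x = 1 := fun x => Units.ext_iff
  have hq0 : ∀ x, q x = 0 ↔ ∃ v : Wˣ, algebraMap W F v = x := fun x => by
    rw [hv]
    constructor
    · intro h
      obtain ⟨a, ha⟩ := (ValuationRing.mem_integer_iff W F x).1 h.le
      obtain ⟨b, hb⟩ := (ValuationRing.mem_integer_iff W F (x : F)⁻¹).1 (by
        rw [Valuation.mem_integer_iff, map_inv₀, h, inv_one])
      exact ⟨Units.mkOfMulEqOne a b (IsFractionRing.injective W F (by simp [ha, hb])), ha⟩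
    · rintro ⟨v, h⟩
      have h1 : ∀ a : W, ValuationRing.valuation W F (algebraMap W F a) ≤ 1 := fun a =>
        (ValuationRing.mem_integer_iff W F _).2 ⟨a, rfl⟩
      rw [← h]
      refine le_antisymm (h1 _) (le_trans (le_of_eq ?_) (mul_le_of_le_one_right' (h1 ↑v⁻¹)))
      rw [← map_mul, ← map_mul, Units.mul_inv, map_one, map_one]
  have hqs : Function.Surjective q := fun y => by
    obtain ⟨x, hx⟩ : ∃ x, ValuationRing.valuation W F x =
        (y.toMul : (ValuationRing.ValueGroup W F)ˣ) := Quotient.exists_rep _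
    exact ⟨Units.mk0 x fun e => y.toMul.ne_zero (by rw [← hx, e, map_zero]), Units.ext hx⟩
  have hqp : ∀ {r : ℕ} (π : Fin r → Fˣ) (m : Fin r → ℤ),
      q (∏ j, π j ^ m j) = ∑ j, m j • q (π j) := fun π m => by
    simp only [q, map_prod, ofMul_prod, map_zpow, ofMul_zpow]
  have : Module.IsTorsionFree ℤ (Additive (ValuationRing.ValueGroup W F)ˣ) := by
    refine Module.IsTorsionFree.of_smul_eq_zero fun m y h => ?_
    obtain ⟨x, rfl⟩ := hqs y
    have h2 := hqp (fun _ : Fin 1 => x) fun _ => m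
    rw [Fin.prod_univ_one, Fin.sum_univ_one, h, hv, Units.val_zpow_eq_zpow_val, map_zpow₀] at h2
    by_cases hm : m = 0
    · exact Or.inl hm
    · exact Or.inr ((hv x).2 ((pow_eq_one_iff_of_nonneg zero_le (Int.natAbs_ne_zero.2 hm)).1 (by
        rcases Int.natAbs_eq m with e | e
        · rwa [e, zpow_natCast] at h2
        · rwa [e, _root_.zpow_neg, zpow_natCast, inv_eq_one] at h2)))
  let L := Submodule.span ℤ (Set.range fun i => q (d i))
  have : Module.Finite ℤ L := Module.Finite.span_of_finite ℤ (Set.finite_range _)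
  let b := Module.finBasis ℤ L
  choose x hx using fun j => hqs (b j)
  have hs : ∀ j, ∃ s : ℤˣ, ∃ p : W, algebraMap W F p = (x j ^ (s : ℤ) : Fˣ) := fun j => by
    rcases ValuationRing.isInteger_or_isInteger W (x j : F) with ⟨p, hp⟩ | ⟨p, hp⟩
    · exact ⟨1, p, by simpa using hp⟩
    · exact ⟨-1, p, by simpa using hp⟩
  choose s p hp using hs
  let b' := b.unitsSMul s
  have hb : ∀ j, q (x j ^ (s j : ℤ)) = b' j := fun j => by
    have h2 := hqp (fun _ : Fin 1 => x j) fun _ => (s j : ℤ)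
    rw [Fin.prod_univ_one, Fin.sum_univ_one, hx] at h2
    rw [h2, Module.Basis.unitsSMul_apply]
    rfl
  have hind : ∀ m : Fin (Module.finrank ℤ L) → ℤ,
      (∃ v : Wˣ, algebraMap W F v = (∏ j, (x j ^ (s j : ℤ)) ^ m j : Fˣ)) → m = 0 := fun m hm => by
    have h2 := (hq0 _).2 hm
    rw [hqp] at h2
    funext j
    refine Fintype.linearIndependent_iff.1 b'.linearIndependent m (Subtype.ext ?_) j
    simpa [hb] using h2
  have he : ∀ i, ∃ v : Wˣ, algebraMap W F v = (d i * (∏ j, (x j ^ (s j : ℤ)) ^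
      b'.repr ⟨q (d i), Submodule.subset_span ⟨i, rfl⟩⟩ j)⁻¹ : Fˣ) := fun i => by
    rw [← hq0]
    have h2 := congrArg Subtype.val (b'.sum_repr ⟨q (d i), Submodule.subset_span ⟨i, rfl⟩⟩)
    have h3 : ∀ y z : Fˣ, q (y * z⁻¹) = q y - q z := fun y z => by
      simp only [q, map_mul, map_inv, ofMul_mul, ofMul_inv, sub_eq_add_neg]
    rw [h3, hqp, sub_eq_zero]
    refine h2.symm.trans ?_
    simp only [hb, Submodule.coe_sum, Submodule.coe_smul]
  choose e he using he
  refine ⟨_, fun j => x j ^ (s j : ℤ), _, e, fun j => ⟨p j, fun hu => ?_, hp j⟩, hind,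
    fun i => eq_mul_of_mul_inv_eq (Units.ext (he i)).symm⟩
  obtain ⟨v, hv⟩ := hu
  have h2 := hind (Pi.single j 1) ⟨v, by
    rw [hv, hp, Finset.prod_eq_single j] <;> simp +contextual⟩
  simpa using congrFun h2 j

/-- Cartan decomposition of `GL_n` over a valuation ring. -/
theorem smith (σ : GL (Fin n) F) : ∃ (k₁ k₂ : GL (Fin n) W) (r : ℕ) (π : Fin r → Fˣ)
    (c : Fin n → Fin r → ℤ), (∀ j, ∃ p ∈ IsLocalRing.maximalIdeal W, algebraMap W F p = π j) ∧
    (∀ m : Fin r → ℤ, (∃ v : Wˣ, algebraMap W F v = (∏ j, π j ^ m j : Fˣ)) → m = 0) ∧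
    σ = GeneralLinearGroup.map (algebraMap W F) k₁ * dgU (fun i => ∏ j, π j ^ c i j) *
      GeneralLinearGroup.map (algebraMap W F) k₂ := by
  obtain ⟨k₁, k₂, d, h⟩ := smith0 (W := W) σ
  obtain ⟨r, π, c, e, h1, h2, h3⟩ := exists_indep (W := W) d
  refine ⟨k₁ * dgU e, k₂, r, π, c, h1, h2, ?_⟩
  rw [h, map_mul, mul_assoc _ (GeneralLinearGroup.map _ (dgU e))]
  congr 2
  ext i j
  by_cases hij : i = j
  · subst hij
    simp [dgU, h3]
  · simp [dgU, hij]

end smith

end Pool.Agent.GR
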