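import Pool.Agent.P.MP_c1f06d_ag.r.Grad
import Pool.Agent.P.MP_c1f06d_ag.r.Lin

/-! Block minors and the big cell. -/

set_option autoImplicit false

open Matrix

universe u

namespace Pool.Agent.GR

section mat

variable {n : ℕ} {A : Type u} [CommRing A]

/-- The projection on the weights at least `m`. -/
def Ege (A : Type u) [CommRing A] (a : Fin n → ℤ) (m : ℤ) : Mat n A :=
  diagonal fun i => if m ≤ a i then 1 else 0

/-- The corner of `M` on the weights at least `m`, completed by the identity. -/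
def crn (a : Fin n → ℤ) (m : ℤ) (M : Mat n A) : Mat n A :=
  Ege A a m * M * Ege A a m + (1 - Ege A a m)

/-- The block minor. -/
def De (a : Fin n → ℤ) (m : ℤ) (M : Mat n A) : A := (crn a m M).det

/-- Unipotent upper triangular for the weights `a`. -/
def InU (a : Fin n → ℤ) (M : Mat n A) : Prop := InP a M ∧ lv a M = 1

theorem Ege_mul_self (a : Fin n → ℤ) (m : ℤ) : Ege A a m * Ege A a m = Ege A a m := by
  rw [Ege, diagonal_mul_diagonal]
  congr 1
  funext i
  split_ifs <;> simp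

theorem crn_apply (a : Fin n → ℤ) (m : ℤ) (M : Mat n A) (i j : Fin n) :
    crn a m M i j = if m ≤ a i ∧ m ≤ a j then M i j else (1 : Mat n A) i j := by
  simp only [crn, Ege, Matrix.add_apply, mul_diagonal, diagonal_mul, Matrix.sub_apply,
    diagonal_apply, one_apply]
  by_cases e : i = j
  · subst e
    by_cases h : m ≤ a i <;> simp [h]
  · by_cases h : m ≤ a i <;> by_cases h' : m ≤ a j <;> simp [h, h', e]

theorem InP.mul_Ege {a : Fin n → ℤ} {p : Mat n A} (hp : InP a p) (m : ℤ) :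
    Ege A a m * p * Ege A a m = p * Ege A a m := by
  ext i j
  simp only [Ege, mul_diagonal, diagonal_mul]
  by_cases h : m ≤ a i <;> by_cases h' : m ≤ a j <;> simp [h, h']
  exact (hp i j (by omega)).symm

theorem InP.Ege_mul {a : Fin n → ℤ} {p : Mat n A} (hp : InP (-a) p) (m : ℤ) :
    Ege A a m * p * Ege A a m = Ege A a m * p := by
  ext i j
  simp only [Ege, mul_diagonal, diagonal_mul]
  by_cases h : m ≤ a i <;> by_cases h' : m ≤ a j <;> simp [h, h']
  exact (hp i j (by simp only [Pi.neg_apply]; omega)).symm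

theorem crn_mul_aux (a : Fin n → ℤ) (m : ℤ) (M N : Mat n A) :
    crn a m M * crn a m N =
      Ege A a m * M * Ege A a m * N * Ege A a m + (1 - Ege A a m) := by
  have h := Ege_mul_self (A := A) a m
  unfold crn
  generalize Ege A a m = E at h ⊢
  have h' : ∀ X : Mat n A, E * (E * X) = E * X := fun X => by rw [← mul_assoc, h]
  simp only [mul_add, add_mul, mul_sub, sub_mul, mul_one, one_mul, mul_assoc, h, h']
  abel

theorem De_mul_right {a : Fin n → ℤ} {p : Mat n A} (hp : InP a p) (m : ℤ) (M : Mat n A) :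
    De a m (M * p) = De a m M * De a m p := by
  rw [De, De, De, ← det_mul, crn_mul_aux, crn]
  congr 2
  rw [mul_assoc (Ege A a m * M), mul_assoc (Ege A a m * M), hp.mul_Ege]
  simp only [mul_assoc]

theorem De_mul_left {a : Fin n → ℤ} {p : Mat n A} (hp : InP (-a) p) (m : ℤ) (M : Mat n A) :
    De a m (p * M) = De a m p * De a m M := by
  rw [De, De, De, ← det_mul, crn_mul_aux, crn, hp.Ege_mul]
  simp only [mul_assoc]

theorem De_one (a : Fin n → ℤ) (m : ℤ) : De a m (1 : Mat n A) = 1 := by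
  rw [De, crn, mul_one, Ege_mul_self, add_sub_cancel, det_one]

theorem crn_map {A' : Type u} [CommRing A'] (f : A →+* A') (a : Fin n → ℤ) (m : ℤ)
    (M : Mat n A) : crn a m (M.map f) = (crn a m M).map f := by
  ext i j
  simp only [crn_apply, map_apply, one_apply]
  split_ifs <;> simp

theorem De_map {A' : Type u} [CommRing A'] (f : A →+* A') (a : Fin n → ℤ) (m : ℤ)
    (M : Mat n A) : De a m (M.map f) = f (De a m M) := by
  rw [De, De, crn_map, RingHom.map_det]
  rfl

theorem InP.isUnit_De {a : Fin n → ℤ} {p : GL (Fin n) A} (hp : InP a (p : Mat n A)) (m : ℤ) :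
    IsUnit (De a m (p : Mat n A)) := by
  refine IsUnit.of_mul_eq_one (De a m ((p⁻¹ : GL (Fin n) A) : Mat n A)) ?_
  rw [← De_mul_right hp.inv, Units.mul_inv, De_one]

theorem InP.isUnit_De' {a : Fin n → ℤ} {p : GL (Fin n) A} (hp : InP (-a) (p : Mat n A)) (m : ℤ) :
    IsUnit (De a m (p : Mat n A)) := by
  refine IsUnit.of_mul_eq_one (De a m ((p⁻¹ : GL (Fin n) A) : Mat n A)) ?_
  rw [← De_mul_left hp, Units.mul_inv, De_one]

theorem InL.inP {a : Fin n → ℤ} {M : Mat n A} (h : InL a M) : InP a M :=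
  fun i j e => h i j e.ne

theorem InL.inP' {a : Fin n → ℤ} {M : Mat n A} (h : InL a M) : InP (-a) M :=
  fun i j e => h i j fun e' => by simp [e'] at e

theorem InP.inL {a : Fin n → ℤ} {M : Mat n A} (h : InP a M) (h' : InP (-a) M) : InL a M := by
  intro i j e
  rcases lt_or_gt_of_ne e with e | e
  · exact h i j e
  · exact h' i j (by simpa using e)

/-- Conjugation by an element of the Levi factor keeps the block minors. -/
theorem De_conj {a : Fin n → ℤ} {l : GL (Fin n) A} (hl : InL a (l : Mat n A)) (m : ℤ)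
    (M : Mat n A) :
    De a m ((l : Mat n A) * M * ((l⁻¹ : GL (Fin n) A) : Mat n A)) = De a m M := by
  rw [De_mul_right hl.inv.inP, De_mul_left hl.inP', mul_right_comm,
    ← De_mul_right hl.inv.inP, Units.mul_inv, De_one, one_mul]

theorem lv_neg (a : Fin n → ℤ) (M : Mat n A) : lv (-a) M = lv a M := by
  ext i j
  simp [lv]

theorem inL_lv {ι : Type} [DecidableEq ι] (c : Fin n → ι) (M : Mat n A) : InL c (lv c M) :=
  fun i j e => by simp [lv, e]

theorem InL.lv_eq {ι : Type} [DecidableEq ι] {c : Fin n → ι} {M : Mat n A} (h : InL c M) :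
    lv c M = M := by
  ext i j
  by_cases e : c i = c j
  · simp [lv, e]
  · simp [lv, e, h i j e]

theorem InP.lv_mul {a : Fin n → ℤ} {M N : Mat n A} (hM : InP a M) (hN : InP a N) :
    lv a (M * N) = lv a M * lv a N := by
  ext i j
  simp only [lv, of_apply, mul_apply]
  split_ifs with e
  · refine Finset.sum_congr rfl fun l _ => ?_
    rcases lt_trichotomy (a i) (a l) with h | h | h
    · simp [hM i l h]
    · simp [h, ← e]
    · simp [hN l j (e ▸ h)]
  · refine (Finset.sum_eq_zero fun l _ => ?_).symm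
    by_cases h : a i = a l
    · simp [← h, e]
    · simp [h]

theorem InU.one (a : Fin n → ℤ) : InU a (1 : Mat n A) := ⟨InP.one a, (InL.one a).lv_eq⟩

theorem InU.mul {a : Fin n → ℤ} {M N : Mat n A} (hM : InU a M) (hN : InU a N) :
    InU a (M * N) := ⟨hM.1.mul hN.1, by rw [hM.1.lv_mul hN.1, hM.2, hN.2, mul_one]⟩

theorem InU.inv {a : Fin n → ℤ} {g : GL (Fin n) A} (hg : InU a (g : Mat n A)) :
    InU a ((g⁻¹ : GL (Fin n) A) : Mat n A) := by
  refine ⟨hg.1.inv, ?_⟩
  have := hg.1.lv_mul hg.1.inv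
  rw [Units.mul_inv, hg.2, one_mul, (InL.one a).lv_eq] at this
  exact this.symm

theorem inU_iff {a : Fin n → ℤ} {M : Mat n A} :
    InU a M ↔ ∀ i j, a i ≤ a j → (M - 1) i j = 0 := by
  constructor
  · intro h i j e
    rcases e.lt_or_eq with e | e
    · rw [Matrix.sub_apply, h.1 i j e, InP.one a i j e, sub_self]
    · have := congrFun (congrFun h.2 i) j
      simp only [lv, of_apply, e, if_true] at this
      rw [Matrix.sub_apply, this, sub_self]
  · intro h
    refine ⟨fun i j e => ?_, ?_⟩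
    · have := h i j e.le
      rwa [Matrix.sub_apply, InP.one a i j e, sub_zero] at this
    · ext i j
      simp only [lv, of_apply]
      split_ifs with e
      · exact sub_eq_zero.1 (h i j e.le)
      · exact (InL.one a i j e).symm

theorem InU.isUnit {a : Fin n → ℤ} {M : Mat n A} (h : InU a M) : IsUnit M := by
  have hx := inU_iff.1 h
  have key : ∀ N : ℕ, ∀ i j, a i < a j + N → ((M - 1) ^ N) i j = 0 := by
    intro N
    induction N with
    | zero => intro i j e; exact InP.one a i j (by simpa using e)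
    | succ N ih =>
      intro i j e
      rw [pow_succ, mul_apply]
      refine Finset.sum_eq_zero fun l _ => ?_
      by_cases e' : a l ≤ a j
      · rw [hx l j e', mul_zero]
      · rw [ih i l (by push_cast at e; omega), zero_mul]
  obtain ⟨N, hN⟩ : ∃ N : ℕ, ∀ p : Fin n × Fin n, a p.1 - a p.2 < N := by
    obtain ⟨B, hB⟩ := (Set.finite_range fun p : Fin n × Fin n => a p.1 - a p.2).bddAbove
    refine ⟨B.toNat + 1, fun p => ?_⟩
    have := hB ⟨p, rfl⟩
    simp only at this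
    push_cast
    omega
  have hn : IsNilpotent (M - 1) :=
    ⟨N, Matrix.ext fun i j => key N i j (by have := hN (i, j); simp only at this; omega)⟩
  simpa using hn.isUnit_one_add

theorem InU.De_eq {a : Fin n → ℤ} {M : Mat n A} (h : InU a M ∨ InU (-a) M) (m : ℤ) :
    IsUnit (De a m M) := by
  rcases h with h | h
  · obtain ⟨g, rfl⟩ := h.isUnit
    exact h.1.isUnit_De m
  · obtain ⟨g, rfl⟩ := h.isUnit
    exact h.1.isUnit_De' m

/-- Existence of the block decomposition. -/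
theorem lu_mat (a : Fin n → ℤ) (M : Mat n A) (hd : ∀ m, IsUnit (De a m M)) :
    ∃ u : GL (Fin n) A, InU (-a) (u : Mat n A) ∧ InP a ((u : Mat n A) * M) := by
  have hc : ∀ m, crn a m M * Ege A a m = Ege A a m * M * Ege A a m ∧
      Ege A a m * crn a m M = crn a m M * Ege A a m := by
    intro m
    have h := Ege_mul_self (A := A) a m
    unfold crn
    generalize Ege A a m = E at h ⊢
    have h' : ∀ X : Mat n A, E * (E * X) = E * X := fun X => by rw [← mul_assoc, h]
    simp only [mul_add, add_mul, mul_sub, sub_mul, mul_one, one_mul, mul_assoc, h, h']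
    simp
  let Z : ℤ → Mat n A := fun m => M * (crn a m M)⁻¹ * Ege A a m
  have hZ : ∀ m, Z m * M * Ege A a m = M * Ege A a m := by
    intro m
    have h1 : (crn a m M)⁻¹ * crn a m M = 1 := nonsing_inv_mul _ (hd m)
    calc Z m * M * Ege A a m = M * (crn a m M)⁻¹ * (Ege A a m * M * Ege A a m) := by
          simp only [Z, mul_assoc]
      _ = M * Ege A a m := by
          rw [← (hc m).1, mul_assoc, ← mul_assoc _ (crn a m M), h1, one_mul]
  let U : Mat n A := 1 - of fun i j => Z (a i + 1) i j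
  have hU : InU (-a) U := by
    refine inU_iff.2 fun i j e => ?_
    have e' : ¬ a i < a j := by simp only [Pi.neg_apply] at e; omega
    simp [U, Z, Ege, mul_diagonal, e']
  obtain ⟨u, hu⟩ := hU.isUnit
  refine ⟨u, hu ▸ hU, fun i j e => ?_⟩
  have h1 := congrFun (congrFun (hZ (a i + 1)) i) j
  have e' : a i + 1 ≤ a j := e
  simp only [Ege, mul_diagonal, e', if_true, mul_one] at h1
  rw [hu, sub_mul, one_mul, Matrix.sub_apply, ← h1, mul_apply, mul_apply, sub_eq_zero]
  rfl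

/-- Uniqueness of the block decomposition. -/
theorem lu_uniq {a : Fin n → ℤ} {g u u' : GL (Fin n) A} (hu : InU (-a) (u : Mat n A))
    (hu' : InU (-a) (u' : Mat n A)) (hp : InP a ((u * g : GL (Fin n) A) : Mat n A))
    (hp' : InP a ((u' * g : GL (Fin n) A) : Mat n A)) : u = u' := by
  have h1 : InU (-a) ((u * u'⁻¹ : GL (Fin n) A) : Mat n A) := hu.mul hu'.inv
  have h2 : InP a ((u * u'⁻¹ : GL (Fin n) A) : Mat n A) := by
    have e : u * u'⁻¹ = u * g * (u' * g)⁻¹ := by group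
    rw [e]
    exact hp.mul hp'.inv
  have h3 := (h2.inL h1.1).lv_eq
  rw [← lv_neg, h1.2] at h3
  exact mul_inv_eq_one.1 (Units.ext h3.symm)

end mat

namespace HS

variable {k : Type u} [Field k] {n : ℕ} (H : HS k n) {Λ : Type u} [CommRing Λ] [Algebra k Λ]
  {Γ : Type} [AddCommGroup Γ]

theorem Fixed.cf_zero {H : HS k n} {c : Fin n → Γ} {y : H.B →ₐ[k] Λ} (hy : H.Fixed c y)
    (b : H.B) : H.cf c y 0 b = y b := by
  rw [cf, hy]
  exact Finsupp.single_eq_same

/-- A triangular matrix moves a fixed point into the attracting set. -/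
theorem half [DecidableEq Γ] (c : Fin n → Γ) (M : AddSubmonoid Γ)
    (hM : ∀ δ ∈ M, -δ ∈ M → δ = 0) {y : H.B →ₐ[k] Λ} (hy : H.Fixed c y) (q : GL (Fin n) Λ)
    (h1 : ∀ i j, c i - c j ∉ M → (q : Mat n Λ) i j = 0)
    (h2 : ∀ i j, c i - c j ∉ M → ((q⁻¹ : GL (Fin n) Λ) : Mat n Λ) i j = 0) :
    (∀ δ, δ ∉ M → ∀ b, H.cf c (H.act q y) δ b = 0) ∧
      ∃ l : GL (Fin n) Λ, (l : Mat n Λ) = lv c (q : Mat n Λ) ∧
        ((l⁻¹ : GL (Fin n) Λ) : Mat n Λ) = lv c ((q⁻¹ : GL (Fin n) Λ) : Mat n Λ) ∧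
        ∀ b, H.act l y b = H.cf c (H.act q y) 0 b := by
  classical
  let A : Γ → Submodule k Λ := fun δ => if δ ∈ M then ⊤ else ⊥
  have mA : ∀ δ x, x ∈ A δ ↔ (δ ∉ M → x = 0) := by
    intro δ x
    by_cases h : δ ∈ M <;> simp [A, h]
  have top : ∀ x, x ∈ A 0 := fun x => (mA 0 x).2 fun h => (h M.zero_mem).elim
  have aa : GMul A A A := by
    intro δ δ' x y hx hy
    rw [mA] at hx hy ⊢
    intro h
    by_cases e : δ ∈ M
    · rw [hy fun e' => h (M.add_mem e e'), mul_zero]
    · rw [hx e, zero_mul]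
  have hz : ∀ δ, δ ≠ 0 → ∀ x ∈ A δ, ∀ y ∈ A (-δ), x * y = 0 := by
    intro δ hδ x hx y hy
    rw [mA] at hx hy
    by_cases e : δ ∈ M
    · rw [hy fun e' => hδ (hM δ e e'), mul_zero]
    · rw [hx e, zero_mul]
  let cj : GL (Fin n) Λ → GL (Fin n) (GA Λ Γ) := fun q =>
    rho Λ c * gm (IsScalarTower.toAlgHom k Λ (GA Λ Γ)) q * (rho Λ c)⁻¹
  have hinv : (cj q)⁻¹ = cj q⁻¹ := by
    simp only [cj, map_inv]; group
  have hG : ∀ q : GL (Fin n) Λ, (∀ i j, c i - c j ∉ M → (q : Mat n Λ) i j = 0) →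
      ∀ i j δ, ((cj q : Mat n (GA Λ Γ)) i j).coeff δ ∈ A δ := by
    intro q hq i j δ
    rw [conj_const]
    exact coeff_single_mem ((mA _ _).2 (hq i j)) δ
  have hl : ∀ (q : GL (Fin n) Λ) i j, ((cj q : Mat n (GA Λ Γ)) i j).coeff 0 =
      lv c (q : Mat n Λ) i j := by
    intro q i j
    rw [conj_const, AddMonoidAlgebra.coeff_single, Finsupp.single_apply]
    simp [lv, sub_eq_zero]
  have horb : H.orb c (H.act q y) =
      H.act (cj q) ((IsScalarTower.toAlgHom k Λ (GA Λ Γ)).comp y) := by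
    rw [orb_act, hy]
  constructor
  · intro δ hδ b
    obtain ⟨G', hG'⟩ := exists_gl_sub (gsub A (top 1) aa) (cj q) (hG q h1)
      (by rw [hinv]; exact hG q⁻¹ h2)
    let y' : H.B →ₐ[k] gsub A (top 1) aa :=
      ((IsScalarTower.toAlgHom k Λ (GA Λ Γ)).comp y).codRestrict _ fun b =>
        coeff_single_mem (top (y b))
    have e2 : (IsScalarTower.toAlgHom k Λ (GA Λ Γ)).comp y =
      (gsub A (top 1) aa).val.comp y' := rfl
    rw [cf, horb, e2, ← hG', ← H.act_nat]
    exact (mA _ _).1 ((H.act G' y' b).2 δ) hδ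
  · obtain ⟨l, l1, l2, l3⟩ := H.act_ev0 top aa hz (cj q) (hG q h1)
      (by rw [hinv]; exact hG q⁻¹ h2) y
    refine ⟨l, Matrix.ext fun i j => (l1 i j).trans (hl q i j),
      Matrix.ext fun i j => (l2 i j).trans ?_, fun b => ?_⟩
    · rw [hinv]; exact hl q⁻¹ i j
    · rw [l3, cf, horb]

theorem half_pos (a : Fin n → ℤ) {y : H.B →ₐ[k] Λ} (hy : H.Fixed a y) (q : GL (Fin n) Λ)
    (hq : InP a (q : Mat n Λ)) :
    (∀ δ, δ < 0 → ∀ b, H.cf a (H.act q y) δ b = 0) ∧
      ∃ l : GL (Fin n) Λ, (l : Mat n Λ) = lv a (q : Mat n Λ) ∧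
        ∀ b, H.act l y b = H.cf a (H.act q y) 0 b := by
  obtain ⟨h1, l, h2, -, h3⟩ := H.half a (AddSubmonoid.nonneg ℤ)
    (fun δ h h' => by simp only [AddSubmonoid.mem_nonneg] at h h'; omega) hy q
    (fun i j h => hq i j (by simp only [AddSubmonoid.mem_nonneg] at h; omega))
    (fun i j h => hq.inv i j (by simp only [AddSubmonoid.mem_nonneg] at h; omega))
  exact ⟨fun δ h => h1 δ (by simp only [AddSubmonoid.mem_nonneg]; omega), l, h2, h3⟩

theorem half_neg (a : Fin n → ℤ) {y : H.B →ₐ[k] Λ} (hy : H.Fixed a y) (q : GL (Fin n) Λ)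
    (hq : InP (-a) (q : Mat n Λ)) :
    (∀ δ, 0 < δ → ∀ b, H.cf a (H.act q y) δ b = 0) ∧
      ∃ l : GL (Fin n) Λ, (l : Mat n Λ) = lv a (q : Mat n Λ) ∧
        ∀ b, H.act l y b = H.cf a (H.act q y) 0 b := by
  let M : AddSubmonoid ℤ :=
    { carrier := {δ | δ ≤ 0}
      zero_mem' := le_refl (0 : ℤ)
      add_mem' := fun {x y} (ha : x ≤ 0) (hb : y ≤ 0) => (add_nonpos ha hb : x + y ≤ 0) }
  have mM : ∀ δ, δ ∈ M ↔ δ ≤ 0 := fun _ => Iff.rfl
  obtain ⟨h1, l, h2, -, h3⟩ := H.half a M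
    (fun δ h h' => by rw [mM] at h h'; omega) hy q
    (fun i j h => hq i j (by rw [mM] at h; simp only [Pi.neg_apply]; omega))
    (fun i j h => hq.inv i j (by rw [mM] at h; simp only [Pi.neg_apply]; omega))
  exact ⟨fun δ h => h1 δ (by rw [mM]; omega), l, h2, h3⟩

/-- The Levi decomposition of a triangular element of the stabiliser. -/
theorem levi (a : Fin n → ℤ) {y : H.B →ₐ[k] Λ} (hy : H.Fixed a y) {p : GL (Fin n) Λ}
    (hp : p ∈ H.St y) (hP : InP a (p : Mat n Λ)) :
    ∃ l ∈ H.St y, ∃ u ∈ H.St y, p = l * u ∧ (l : Mat n Λ) = lv a (p : Mat n Λ) ∧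
      InU a (u : Mat n Λ) := by
  obtain ⟨-, l, h1, h2⟩ := H.half_pos a hy p hP
  have hp' : H.act p y = y := hp
  have hl : l ∈ H.St y := AlgHom.ext fun b => by rw [h2, hp', hy.cf_zero]
  have hL : InL a (l : Mat n Λ) := h1 ▸ inL_lv a _
  refine ⟨l, hl, l⁻¹ * p, (H.St y).mul_mem ((H.St y).inv_mem hl) hp, by group, h1,
    hL.inv.inP.mul hP, ?_⟩
  rw [Units.val_mul, hL.inv.inP.lv_mul hP, hL.inv.lv_eq, ← h1, Units.inv_mul]

/-- If `u g` is upper triangular with `u` lower unipotent, then `u` is in the stabiliser. -/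
theorem lu_mem (a : Fin n → ℤ) {y : H.B →ₐ[k] Λ} (hy : H.Fixed a y) {g u : GL (Fin n) Λ}
    (hg : g ∈ H.St y) (hu : InU (-a) (u : Mat n Λ))
    (hp : InP a ((u * g : GL (Fin n) Λ) : Mat n Λ)) : u ∈ H.St y := by
  have hg' : H.act g y = y := hg
  obtain ⟨h1, -⟩ := H.half_pos a hy (u * g) hp
  rw [H.act_mul, hg'] at h1
  obtain ⟨h2, l, h3, h4⟩ := H.half_neg a hy u hu.1
  have hf : H.Fixed a (H.act u y) := (H.fixed_iff a _).2 fun δ hδ b => by
    rcases lt_or_gt_of_ne hδ with e | e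
    · exact h1 δ e b
    · exact h2 δ e b
  rw [← lv_neg, hu.2] at h3
  have hl : l = 1 := Units.ext h3
  refine AlgHom.ext fun b => ?_
  rw [← hf.cf_zero, ← h4, hl, H.act_one]

/-- LU: the decomposition on the big cell, over any ring. -/
theorem lu (a : Fin n → ℤ) {y : H.B →ₐ[k] Λ} (hy : H.Fixed a y) {g : GL (Fin n) Λ}
    (hg : g ∈ H.St y) (hd : ∀ m, IsUnit (De a m (g : Mat n Λ))) :
    ∃ um ∈ H.St y, ∃ l ∈ H.St y, ∃ up ∈ H.St y, g = um * l * up ∧
      InU (-a) (um : Mat n Λ) ∧ InL a (l : Mat n Λ) ∧ InU a (up : Mat n Λ) := by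
  obtain ⟨u, hu, hp⟩ := lu_mat a (g : Mat n Λ) hd
  have hm := H.lu_mem a hy hg hu hp
  obtain ⟨l, hl, v, hv, e, h1, h2⟩ := H.levi a hy ((H.St y).mul_mem hm hg) hp
  refine ⟨u⁻¹, (H.St y).inv_mem hm, l, hl, v, hv, ?_, hu.inv, h1 ▸ inL_lv a _, h2⟩
  rw [mul_assoc, ← e, inv_mul_cancel_left]

end HS

end Pool.Agent.GR
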