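import Pool.Agent.P.MP_c1f06d_ag.r.Defs

/-! The universal point of `G`, and the theorem of Lang. -/

set_option autoImplicit false

open Matrix

universe u

namespace Pool.Agent.GR.LG

section alg

theorem integral_of_pow_mem {S R : Type*} [CommRing S] [CommRing R] [IsDomain R] [Algebra S R]
    {ι : Type*} [Fintype ι] (x : ι → R) (q : ℕ) (hq : 2 ≤ q)
    (h : ∀ a, x a ^ q ∈ Submodule.span S (Set.range x)) (a : ι) : IsIntegral S (x a) := by
  classical
  let M : Submodule S R :=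
    Submodule.span S (Set.range fun e : ι → Fin q => ∏ a, x a ^ (e a : ℕ))
  have key : ∀ (d : ℕ) (e : ι → ℕ), ∑ a, e a = d → ∏ a, x a ^ e a ∈ M := by
    intro d
    induction d using Nat.strong_induction_on with
    | _ d ih =>
      intro e he
      by_cases hlt : ∀ a, e a < q
      · exact Submodule.subset_span ⟨fun a => ⟨e a, hlt a⟩, rfl⟩
      · push Not at hlt
        obtain ⟨a0, ha0⟩ := hlt
        let e' : ι → ℕ := e - Pi.single a0 q
        have hee : e = e' + Pi.single a0 q := by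
          funext b
          by_cases hb : b = a0
          · subst hb; simp [e', ha0]
          · simp [e', hb]
        have hpr : ∀ (f : ι → ℕ) (b : ι) (m : ℕ),
            ∏ a, x a ^ ((f + Pi.single b m : ι → ℕ) a) = (∏ a, x a ^ f a) * x b ^ m := by
          intro f b m
          simp only [Pi.add_apply, pow_add, Finset.prod_mul_distrib]
          congr 1
          rw [Finset.prod_eq_single b]
          · simp
          · intro c _ hc; simp [hc]
          · simp
        have hsum : ∀ (f : ι → ℕ) (b : ι) (m : ℕ),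
            ∑ a, (f + Pi.single b m : ι → ℕ) a = ∑ a, f a + m := by
          intro f b m
          simp [Finset.sum_add_distrib, Finset.sum_pi_single']
        rw [hee, hpr]
        have hd : ∑ a, e' a + q = d := by rw [← he, hee, hsum]
        refine Submodule.span_induction (p := fun y _ => (∏ a, x a ^ e' a) * y ∈ M)
          ?_ ?_ ?_ ?_ (h a0)
        · rintro _ ⟨b, rfl⟩
          have := ih (∑ a, e' a + 1) (by omega) (e' + Pi.single b 1) (hsum _ _ _)
          rwa [hpr, pow_one] at this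
        · simp
        · intro y z _ _ hy hz
          rw [mul_add]; exact M.add_mem hy hz
        · intro s y _ hy
          rw [mul_smul_comm]; exact M.smul_mem s hy
  have h1 : (1 : R) ∈ M := by simpa using key 0 0 (by simp)
  refine isIntegral_of_smul_mem_submodule M ?_ ?_ (x a) ?_
  · intro hM
    rw [hM, Submodule.mem_bot] at h1
    exact one_ne_zero h1
  · exact Submodule.fg_span (Set.finite_range _)
  · intro y hy
    refine Submodule.span_induction (p := fun y _ => x a • y ∈ M) ?_ ?_ ?_ ?_ hy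
    · rintro _ ⟨e, rfl⟩
      have := key _ ((fun b => (e b : ℕ)) + Pi.single a 1) rfl
      simp only [Pi.add_apply, pow_add, Finset.prod_mul_distrib] at this
      rw [Finset.prod_eq_single a (f := fun b => x b ^ (Pi.single a 1 : ι → ℕ) b)] at this
      · simpa [mul_comm] using this
      · intro c _ hc; simp [hc]
      · simp
    · simp
    · intro y z _ _ hy hz
      rw [smul_add]; exact M.add_mem hy hz
    · intro s y _ hy
      rw [smul_comm]; exact M.smul_mem s hy

theorem ext_point {Ω R : Type*} [Field Ω] [IsAlgClosed Ω] [CommRing R] [Algebra Ω R]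
    (S : Subalgebra Ω R) [Algebra.IsIntegral S R] (g : S →ₐ[Ω] Ω) :
    ∃ x : R →ₐ[Ω] Ω, ∀ s : S, x s = g s := by
  have hg : Function.Surjective g := fun c => ⟨algebraMap Ω S c, by simp⟩
  haveI : (RingHom.ker g).IsMaximal := RingHom.ker_isMaximal_of_surjective g hg
  obtain ⟨Q, hQ, hQP⟩ := Ideal.exists_ideal_over_maximal_of_isIntegral (S := R) (RingHom.ker g)
    (by
      intro s hs
      have : s = 0 := Subtype.ext hs
      simp [this])
  have hs : ∀ s : S, Ideal.Quotient.mk Q (s : R) = algebraMap Ω (R ⧸ Q) (g s) := by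
    intro s
    have h1 : s - algebraMap Ω S (g s) ∈ RingHom.ker g := by simp [RingHom.mem_ker]
    rw [← hQP, Ideal.mem_comap] at h1
    have h2 := Ideal.Quotient.eq.2 (show (s : R) - algebraMap Ω R (g s) ∈ Q by simpa using h1)
    rw [h2]; rfl
  haveI : Algebra.IsIntegral Ω (R ⧸ Q) := by
    constructor
    intro y
    obtain ⟨r, rfl⟩ := Ideal.Quotient.mk_surjective y
    obtain ⟨p, hp, hr⟩ := (Algebra.IsIntegral.isIntegral (R := S) r)
    refine ⟨p.map (g : S →+* Ω), hp.map _, ?_⟩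
    rw [Polynomial.eval₂_map]
    have h3 : (algebraMap Ω (R ⧸ Q)).comp (g : S →+* Ω) =
        (Ideal.Quotient.mk Q).comp (algebraMap S R) := RingHom.ext fun s => (hs s).symm
    rw [h3, ← Polynomial.hom_eval₂, hr, map_zero]
  let e : Ω ≃ₐ[Ω] R ⧸ Q := AlgEquiv.ofBijective (Algebra.ofId Ω (R ⧸ Q))
    IsAlgClosed.algebraMap_bijective_of_isIntegral
  refine ⟨(e.symm : R ⧸ Q →ₐ[Ω] Ω).comp (Ideal.Quotient.mkₐ Ω Q), fun s => ?_⟩
  show e.symm (Ideal.Quotient.mk Q (s : R)) = g s
  rw [hs, AlgEquiv.symm_apply_eq]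
  rfl

theorem lang_nil {Γ : Type*} [Group Γ] (F : Γ →* Γ) (K : Subgroup Γ) (hK : ∀ g ∈ K, F g ∈ K)
    (g : Γ) (hg : g ∈ K) (N : ℕ) (hN : F^[N] g = 1) : ∃ h ∈ K, h⁻¹ * F h = g := by
  have key : ∀ N : ℕ, ∃ h ∈ K, F h * g⁻¹ = (F^[N] g)⁻¹ * h := by
    intro N
    induction N with
    | zero => exact ⟨1, K.one_mem, by simp⟩
    | succ N ih =>
      obtain ⟨h, hh, e⟩ := ih
      refine ⟨F h * g⁻¹, K.mul_mem (hK h hh) (K.inv_mem hg), ?_⟩
      rw [Function.iterate_succ_apply']
      conv_lhs => rw [e]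
      rw [map_mul, map_inv, mul_assoc]
  obtain ⟨h, hh, e⟩ := key N
  refine ⟨h, hh, ?_⟩
  rw [hN, inv_one, one_mul, mul_inv_eq_iff_eq_mul] at e
  rw [e, inv_mul_cancel_left]

end alg

section univ

variable {n : ℕ} (W : Type u) [Field W] {A A' : Type u} [CommRing A] [Algebra W A]
  [CommRing A'] [Algebra W A']

/-- The coordinate function `x i j`. -/
noncomputable def xx (i j : Fin n) : OGL W n :=
  algebraMap (MvPolynomial (Fin n × Fin n) W) (OGL W n) (MvPolynomial.X (i, j))

theorem ev_alg (g : GL (Fin n) A) (p : MvPolynomial (Fin n × Fin n) W) :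
    ev W g (algebraMap _ (OGL W n) p) =
      MvPolynomial.aeval (fun p : Fin n × Fin n => g p.1 p.2) p := by
  simp [ev]

theorem ev_xx (g : GL (Fin n) A) (i j : Fin n) : ev W g (xx W i j) = g i j := by
  rw [xx, ev_alg, MvPolynomial.aeval_X]

theorem ogl_ext {φ ψ : OGL W n →ₐ[W] A} (h : ∀ i j, φ (xx W i j) = ψ (xx W i j)) : φ = ψ := by
  apply IsLocalization.algHom_ext (Submonoid.powers (mvPolynomialX (Fin n) (Fin n) W).det)
  apply MvPolynomial.algHom_ext
  rintro ⟨i, j⟩
  exact h i j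

/-- The universal point of `GL_n`. -/
noncomputable def uGL (n : ℕ) : GL (Fin n) (OGL W n) :=
  GeneralLinearGroup.mk'' (of fun i j => xx W i j) (by
    have : (of fun i j => xx W i j : Mat n (OGL W n)) =
        (algebraMap (MvPolynomial (Fin n × Fin n) W) (OGL W n)).mapMatrix
          (mvPolynomialX (Fin n) (Fin n) W) := by
      ext i j; rfl
    rw [this, ← RingHom.map_det]
    exact IsLocalization.Away.algebraMap_isUnit _)

theorem uGL_apply (i j : Fin n) : uGL W n i j = xx W i j := rfl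

theorem gm_ev_uGL (g : GL (Fin n) A) : gm (ev W g) (uGL W n) = g := by
  ext i j
  exact ev_xx W g i j

theorem ev_nat (φ : A →ₐ[W] A') (g : GL (Fin n) A) : φ.comp (ev W g) = ev W (gm φ g) := by
  apply ogl_ext
  intro i j
  rw [AlgHom.comp_apply, ev_xx, ev_xx]
  rfl

theorem ev_uGL : ev W (uGL W n) = AlgHom.id W (OGL W n) := by
  apply ogl_ext
  intro i j
  rw [ev_xx]; rfl

end univ

section grp

variable {k : Type u} [Field k] {n : ℕ} (H : HS k n)

theorem gm_mem {A A' : Type u} [CommRing A] [Algebra k A] [CommRing A'] [Algebra k A']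
    (φ : A →ₐ[k] A') {g : GL (Fin n) A} (hg : g ∈ H.G A) : gm φ g ∈ H.G A' := by
  have h1 : φ.comp (H.pt A) = H.pt A' := by
    ext b; simp [HS.pt]
  have h2 : H.act g (H.pt A) = H.pt A := hg
  show H.act (gm φ g) (H.pt A') = H.pt A'
  rw [← h1, ← H.act_nat, h2]

variable (W : Type u) [Field W] [Algebra k W]

/-- The universal point of `G`. -/
noncomputable def uG : GL (Fin n) (H.OG W) := gm (Ideal.Quotient.mkₐ W (H.van W)) (uGL W n)

theorem uG_mem : uG H W ∈ H.G (H.OG W) := by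
  show H.act (uG H W) (H.pt _) = H.pt _
  have nat : ∀ {A : Type u} [CommRing A] [Algebra k A] [Algebra W A] [IsScalarTower k W A]
      (φ : OGL W n →ₐ[W] A) (b : H.B),
      φ (H.act (uGL W n) (H.pt _) b - H.pt _ b) =
        H.act (gm φ (uGL W n)) (H.pt A) b - H.pt A b := by
    intro A _ _ _ _ φ b
    have h1 : (φ.restrictScalars k).comp (H.pt _) = H.pt A := by
      ext b; simp [HS.pt]
    have h2 := H.act_nat (φ.restrictScalars k) (uGL W n) (H.pt _)
    rw [h1] at h2
    rw [map_sub]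
    exact congrArg₂ (· - ·) (DFunLike.congr_fun h2 b) (DFunLike.congr_fun h1 b)
  ext b
  rw [← sub_eq_zero, uG, ← nat]
  refine Ideal.Quotient.eq_zero_iff_mem.2 ?_
  intro A _ _ _ _ g hg
  have h2 : H.act g (H.pt A) = H.pt A := hg
  rw [nat, gm_ev_uGL, h2, sub_self]

variable {A A' : Type u} [CommRing A] [Algebra k A] [Algebra W A] [IsScalarTower k W A]
  [CommRing A'] [Algebra k A'] [Algebra W A'] [IsScalarTower k W A']

/-- Evaluation at a point of `G`. -/
noncomputable def evG {g : GL (Fin n) A} (hg : g ∈ H.G A) : H.OG W →ₐ[W] A :=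
  Ideal.Quotient.liftₐ (H.van W) (ev W g) fun f hf => hf A g hg

theorem evG_mk {g : GL (Fin n) A} (hg : g ∈ H.G A) (f : OGL W n) :
    evG H W hg (Ideal.Quotient.mk _ f) = ev W g f := rfl

theorem evG_uG {g : GL (Fin n) A} (hg : g ∈ H.G A) (i j : Fin n) :
    evG H W hg (uG H W i j) = g i j := ev_xx W g i j

theorem gm_evG_uG {g : GL (Fin n) A} (hg : g ∈ H.G A) : gm (evG H W hg) (uG H W) = g := by
  ext i j
  exact evG_uG H W hg i j

omit [Algebra k A] [IsScalarTower k W A] in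
theorem og_ext {φ ψ : H.OG W →ₐ[W] A} (h : ∀ i j, φ (uG H W i j) = ψ (uG H W i j)) : φ = ψ := by
  apply Ideal.Quotient.algHom_ext
  apply ogl_ext
  exact h

theorem gm_uG_mem (φ : H.OG W →ₐ[W] A) : gm φ (uG H W) ∈ H.G A :=
  gm_mem H (φ.restrictScalars k) (uG_mem H W)

theorem evG_gm_uG (φ : H.OG W →ₐ[W] A) : evG H W (gm_uG_mem H W φ) = φ :=
  og_ext H W fun i j => evG_uG H W _ i j

instance : IsNoetherianRing (H.OG W) := by
  haveI : IsNoetherianRing (OGL W n) :=
    IsLocalization.isNoetherianRing (Submonoid.powers (mvPolynomialX (Fin n) (Fin n) W).det) _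
      inferInstance
  infer_instance

/-- A function on `G` that vanishes at all infinitesimal neighbours of a point is zero. -/
theorem krull (hp : (H.van W).IsPrime) {g0 : GL (Fin n) W} (hg0 : g0 ∈ H.G W) (f : H.OG W)
    (hf : ∀ (A : Type u) [CommRing A] [Algebra k A] [Algebra W A] [IsScalarTower k W A]
      (J : Ideal A) (N : ℕ), J ^ N = ⊥ → ∀ (g : GL (Fin n) A) (hg : g ∈ H.G A),
        (∀ i j, g i j - algebraMap W A (g0 i j) ∈ J) → evG H W hg f = 0) : f = 0 := by
  let m : Ideal (H.OG W) := RingHom.ker (evG H W hg0)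
  have hm : m ≠ ⊤ := RingHom.ker_ne_top _
  have h0 := Ideal.iInf_pow_eq_bot_of_isDomain m hm
  rw [← Ideal.mem_bot, ← h0, Ideal.mem_iInf]
  intro N
  have h1 := hf (H.OG W ⧸ m ^ N) (m.map (Ideal.Quotient.mk _)) N
    (by rw [← Ideal.map_pow, Ideal.map_quotient_self]) _
    (gm_uG_mem H W (Ideal.Quotient.mkₐ W (m ^ N))) (by
      intro i j
      have : uG H W i j - algebraMap W _ (g0 i j) ∈ m := by
        rw [RingHom.mem_ker, map_sub, evG_uG, AlgHom.commutes]; simp
      exact Ideal.mem_map_of_mem (Ideal.Quotient.mk (m ^ N)) this)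
  rw [evG_gm_uG] at h1
  exact Ideal.Quotient.eq_zero_iff_mem.1 h1

end grp

section lang

variable {k : Type u} [Field k] [Fintype k] {n : ℕ}

variable (k) in
/-- The Frobenius on `GL_n`. -/
noncomputable abbrev Fr (A : Type u) [CommRing A] [Algebra k A] : GL (Fin n) A →* GL (Fin n) A :=
  gm (FiniteField.frobeniusAlgHom k A)

theorem Fr_apply {A : Type u} [CommRing A] [Algebra k A] (g : GL (Fin n) A) (i j : Fin n) :
    Fr k A g i j = g i j ^ Fintype.card k := rfl

theorem Fr_nat {W A A' : Type u} [Field W] [CommRing A] [Algebra k A] [Algebra W A] [CommRing A']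
    [Algebra k A'] [Algebra W A'] (φ : A →ₐ[W] A') (g : GL (Fin n) A) :
    gm φ (Fr k A g) = Fr k A' (gm φ g) := by
  ext i j
  exact map_pow φ _ _

theorem Fr_iter {A : Type u} [CommRing A] [Algebra k A] (g : GL (Fin n) A) (N : ℕ) (i j : Fin n) :
    ((Fr k A)^[N] g) i j = (FiniteField.frobeniusAlgHom k A ^ N) (g i j) := by
  induction N with
  | zero => rfl
  | succ N ih =>
    rw [Function.iterate_succ_apply', Fr_apply, ih, pow_succ']
    rfl

theorem frob_pow {A : Type u} [CommRing A] [Algebra k A] (N : ℕ) (a : A) :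
    (FiniteField.frobeniusAlgHom k A ^ N) a = a ^ Fintype.card k ^ N := by
  rw [AlgHom.coe_pow, FiniteField.coe_frobeniusAlgHom, pow_iterate]

variable (H : HS k n) (Ω : Type u) [Field Ω] [Algebra k Ω]

theorem Fr_mem {A : Type u} [CommRing A] [Algebra k A] {g : GL (Fin n) A} (hg : g ∈ H.G A) :
    Fr k A g ∈ H.G A := gm_mem H _ hg

theorem lm_mem : (uG H Ω)⁻¹ * Fr k _ (uG H Ω) ∈ H.G (H.OG Ω) :=
  (H.G _).mul_mem ((H.G _).inv_mem (uG_mem H Ω)) (Fr_mem H (uG_mem H Ω))

/-- The comorphism of `x ↦ x⁻¹ F x`. -/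
noncomputable def lm : H.OG Ω →ₐ[Ω] H.OG Ω := evG H Ω (lm_mem H Ω)

theorem gm_comp_lm {A : Type u} [CommRing A] [Algebra k A] [Algebra Ω A] [IsScalarTower k Ω A]
    (φ : H.OG Ω →ₐ[Ω] A) :
    gm (φ.comp (lm H Ω)) (uG H Ω) = (gm φ (uG H Ω))⁻¹ * Fr k A (gm φ (uG H Ω)) := by
  rw [← Fr_nat, ← map_inv, ← map_mul, ← gm_evG_uG H Ω (lm_mem H Ω)]
  rfl

theorem lm_inj (hp : (H.van Ω).IsPrime) : Function.Injective (lm H Ω) := by
  rw [injective_iff_map_eq_zero]
  intro f hf
  refine krull H Ω hp (H.G Ω).one_mem f ?_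
  intro A _ _ _ _ J N hJ g hg h1
  have hN : (Fr k A)^[N] g = 1 := by
    ext i j
    have h2 : (FiniteField.frobeniusAlgHom k A ^ N)
        (g i j - algebraMap Ω A ((1 : GL (Fin n) Ω) i j)) = 0 := by
      rw [frob_pow]
      have h3 := Ideal.pow_mem_pow (h1 i j) N
      rw [hJ, Ideal.mem_bot] at h3
      exact pow_eq_zero_of_le (Nat.lt_pow_self Fintype.one_lt_card).le h3
    rw [map_sub, sub_eq_zero] at h2
    rw [Fr_iter, h2]
    by_cases hij : i = j <;> simp [hij, Matrix.one_apply]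
  obtain ⟨h, hh, e⟩ := lang_nil (Fr k A) (H.G A) (fun _ => Fr_mem H) g hg N hN
  have h4 : evG H Ω hg = (evG H Ω hh).comp (lm H Ω) := by
    apply og_ext
    intro i j
    have h5 := gm_comp_lm H Ω (evG H Ω hh)
    rw [gm_evG_uG, e] at h5
    rw [evG_uG, ← h5]
    rfl
  rw [h4, AlgHom.comp_apply, hf, map_zero]

theorem lm_integral (hp : (H.van Ω).IsPrime) :
    Algebra.IsIntegral (lm H Ω).range (H.OG Ω) := by
  have hq : 2 ≤ Fintype.card k := Fintype.one_lt_card
  have hu : gm (lm H Ω) (uG H Ω) = (uG H Ω)⁻¹ * Fr k _ (uG H Ω) := gm_evG_uG H Ω (lm_mem H Ω)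
  have hx : ∀ p : Fin n × Fin n, IsIntegral (lm H Ω).range (uG H Ω p.1 p.2) := by
    refine integral_of_pow_mem (fun p : Fin n × Fin n => uG H Ω p.1 p.2) _ hq ?_
    rintro ⟨i, j⟩
    have h1 : Fr k _ (uG H Ω) = uG H Ω * gm (lm H Ω) (uG H Ω) := by
      rw [hu, mul_inv_cancel_left]
    have h2 : uG H Ω i j ^ Fintype.card k = ∑ l, uG H Ω i l * lm H Ω (uG H Ω l j) := by
      rw [← Fr_apply, h1, Units.val_mul, Matrix.mul_apply]
      rfl
    rw [h2]
    refine Submodule.sum_mem _ fun l _ => ?_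
    have := Submodule.smul_mem (Submodule.span (lm H Ω).range
      (Set.range fun p : Fin n × Fin n => uG H Ω p.1 p.2)) ⟨_, ⟨uG H Ω l j, rfl⟩⟩
      (Submodule.subset_span ⟨(i, l), rfl⟩)
    rw [mul_comm]
    exact this
  let d : (H.OG Ω)ˣ := GeneralLinearGroup.det (uG H Ω)
  have hd : IsIntegral (lm H Ω).range ((d⁻¹ : (H.OG Ω)ˣ) : H.OG Ω) := by
    have h1 : Units.map (lm H Ω : H.OG Ω →* H.OG Ω) d = d ^ (Fintype.card k - 1) := by
      have h2 : Units.map (lm H Ω : H.OG Ω →* H.OG Ω) d =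
          GeneralLinearGroup.det (gm (lm H Ω) (uG H Ω)) := by
        ext
        exact RingHom.map_det (lm H Ω : H.OG Ω →+* H.OG Ω) _
      have h3 : GeneralLinearGroup.det (Fr k _ (uG H Ω)) = d ^ Fintype.card k := by
        ext
        exact (RingHom.map_det (FiniteField.frobeniusAlgHom k (H.OG Ω) :
          H.OG Ω →+* H.OG Ω) _).symm
      rw [h2, hu, map_mul, map_inv, h3]
      obtain ⟨q, hq'⟩ : ∃ q, Fintype.card k = q + 1 := ⟨Fintype.card k - 1, by omega⟩
      rw [hq', pow_succ', Nat.add_sub_cancel]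
      exact inv_mul_cancel_left d _
    refine IsIntegral.of_pow (n := Fintype.card k - 1) (by omega) ?_
    have h4 : ((d⁻¹ : (H.OG Ω)ˣ) : H.OG Ω) ^ (Fintype.card k - 1) =
        lm H Ω ((d⁻¹ : (H.OG Ω)ˣ) : H.OG Ω) := by
      rw [← Units.val_pow_eq_pow_val, inv_pow, ← h1, ← map_inv]
      rfl
    rw [h4]
    exact isIntegral_algebraMap (x := (⟨_, ⟨_, rfl⟩⟩ : (lm H Ω).range))
  constructor
  intro y
  obtain ⟨f, rfl⟩ := Ideal.Quotient.mk_surjective y
  obtain ⟨⟨p, _, m, rfl⟩, hf⟩ :=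
    IsLocalization.surj (Submonoid.powers (mvPolynomialX (Fin n) (Fin n) Ω).det) f
  have hdd : Ideal.Quotient.mk (H.van Ω) (algebraMap _ (OGL Ω n)
      (mvPolynomialX (Fin n) (Fin n) Ω).det) = (d : H.OG Ω) :=
    RingHom.map_det ((Ideal.Quotient.mk (H.van Ω)).comp (algebraMap _ (OGL Ω n))) _
  have h1 := congrArg (Ideal.Quotient.mk (H.van Ω)) hf
  simp only [map_mul, map_pow, hdd] at h1
  have h2 : Ideal.Quotient.mk (H.van Ω) f =
      Ideal.Quotient.mk (H.van Ω) (algebraMap _ (OGL Ω n) p) *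
        ((d⁻¹ : (H.OG Ω)ˣ) : H.OG Ω) ^ m := by
    rw [← h1, mul_assoc, ← mul_pow, Units.mul_inv, one_pow, mul_one]
  rw [h2]
  refine IsIntegral.mul ?_ (hd.pow m)
  clear h1 h2 hf
  induction p using MvPolynomial.induction_on with
  | C c =>
    exact isIntegral_algebraMap (x := algebraMap Ω (lm H Ω).range c)
  | add p p' hp1 hp2 =>
    rw [map_add, map_add]; exact hp1.add hp2
  | mul_X p x hp1 =>
    rw [map_mul, map_mul]; exact hp1.mul (hx x)

/-- The theorem of Lang. -/
theorem lang [IsAlgClosed Ω] (hp : (H.van Ω).IsPrime) {g : GL (Fin n) Ω} (hg : g ∈ H.G Ω) :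
    ∃ x ∈ H.G Ω, x⁻¹ * Fr k Ω x = g := by
  haveI := lm_integral H Ω hp
  let e := AlgEquiv.ofInjective (lm H Ω) (lm_inj H Ω hp)
  obtain ⟨φ, hφ⟩ := ext_point (lm H Ω).range ((evG H Ω hg).comp (e.symm : _ →ₐ[Ω] H.OG Ω))
  refine ⟨gm φ (uG H Ω), gm_uG_mem H Ω φ, ?_⟩
  rw [← gm_comp_lm, ← gm_evG_uG H Ω hg]
  congr 2
  ext y
  exact (hφ (e y)).trans (by simp)

theorem mem_range_of_pow_card {a : Ω} (ha : a ^ Fintype.card k = a) :
    ∃ b : k, algebraMap k Ω b = a := by
  have hs : (Polynomial.X ^ Fintype.card k - Polynomial.X : Polynomial k).Splits := by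
    rw [Polynomial.splits_iff_card_roots, FiniteField.roots_X_pow_card_sub_X,
      FiniteField.X_pow_card_sub_X_natDegree_eq k Fintype.one_lt_card]
    rfl
  refine hs.mem_range_of_isRoot (i := algebraMap k Ω)
    (FiniteField.X_pow_card_sub_X_ne_zero k Fintype.one_lt_card) ?_
  simp [ha]

/-- A matrix fixed by the Frobenius has entries in the finite field. -/
theorem exists_of_Fr_eq {g : GL (Fin n) Ω} (hg : Fr k Ω g = g) :
    ∃ e : GL (Fin n) k, gm (Algebra.ofId k Ω) e = g := by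
  have h1 : ∀ i j, ∃ b : k, algebraMap k Ω b = g i j := fun i j =>
    mem_range_of_pow_card Ω (by rw [← Fr_apply, hg])
  choose M hM using h1
  have h2 : (algebraMap k Ω).mapMatrix (of M) = (g : Mat n Ω) := by
    ext i j; exact hM i j
  have h3 : (of M).det ≠ 0 := by
    intro h
    have h4 := RingHom.map_det (algebraMap k Ω) (of M)
    rw [h, map_zero, h2] at h4
    exact (GeneralLinearGroup.det g).ne_zero h4.symm
  refine ⟨GeneralLinearGroup.mkOfDetNeZero (of M) h3, ?_⟩
  ext i j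
  exact hM i j

/-- Torsors over a finite field are trivial. -/
theorem triv_of_triv [IsAlgClosed Ω] (hp : (H.van Ω).IsPrime) (y : H.B →ₐ[k] k)
    (hy : H.Triv ((Algebra.ofId k Ω).comp y)) : H.Triv y := by
  obtain ⟨g, hg⟩ := hy
  have hF : ∀ z : H.B →ₐ[k] k, (FiniteField.frobeniusAlgHom k Ω).comp
      ((Algebra.ofId k Ω).comp z) = (Algebra.ofId k Ω).comp z := by
    intro z
    ext b
    exact (FiniteField.frobeniusAlgHom k Ω).commutes (z b)
  have h1 : H.act (Fr k Ω g) ((Algebra.ofId k Ω).comp y) = H.pt Ω := by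
    rw [← hF y, ← H.act_nat, hg]
    exact hF H.y0
  have h2 : g * (Fr k Ω g)⁻¹ ∈ H.G Ω := by
    show H.act _ (H.pt Ω) = H.pt Ω
    conv_lhs => rw [← h1, ← H.act_mul, inv_mul_cancel_right, hg]
  obtain ⟨x, hx, e⟩ := lang H Ω hp h2
  have h3 : Fr k Ω (x * g) = x * g := by
    rw [map_mul, ← inv_mul_eq_iff_eq_mul, ← mul_assoc, e, inv_mul_cancel_right]
  obtain ⟨e0, he0⟩ := exists_of_Fr_eq Ω h3
  refine ⟨e0, ?_⟩
  have h4 : (Algebra.ofId k Ω).comp (H.act e0 y) = (Algebra.ofId k Ω).comp (H.pt k) := by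
    have hx' : H.act x (H.pt Ω) = H.pt Ω := hx
    rw [H.act_nat, he0, H.act_mul, hg, hx']
    ext b
    simp [HS.pt]
  ext b
  exact (algebraMap k Ω).injective (DFunLike.congr_fun h4 b)

end lang

end Pool.Agent.GR.LG
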