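import Pool.Agent.P.MP_c1f06d_ag.r.Defs

/-! The action of `GL_n` on the points of a ring of invariants. -/

open Matrix
open scoped TensorProduct

universe u

namespace Pool.Agent.GR

namespace Co

section ev

variable {k : Type u} [CommRing k] {n : ℕ} {A A' A'' : Type u} [CommRing A] [Algebra k A]
  [CommRing A'] [Algebra k A'] [CommRing A''] [Algebra k A'']

/-- The universal point of `GL_n`. -/
noncomputable def ug (k : Type u) [CommRing k] (n : ℕ) : GL (Fin n) (OGL k n) :=
  GeneralLinearGroup.mk''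
    ((algebraMap (MvPolynomial (Fin n × Fin n) k) (OGL k n)).mapMatrix
      (mvPolynomialX (Fin n) (Fin n) k)) (by
    rw [← RingHom.map_det]; exact IsLocalization.Away.algebraMap_isUnit _)

theorem ug_apply (i j : Fin n) :
    ug k n i j = algebraMap (MvPolynomial (Fin n × Fin n) k) (OGL k n) (MvPolynomial.X (i, j)) :=
  rfl

theorem gm_apply (f : A →ₐ[k] A') (g : GL (Fin n) A) (i j : Fin n) : gm f g i j = f (g i j) := rfl

theorem gm_gm (f : A →ₐ[k] A') (f' : A' →ₐ[k] A'') (g : GL (Fin n) A) :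
    gm f' (gm f g) = gm (f'.comp f) g := rfl

theorem gm_id (g : GL (Fin n) A) : gm (AlgHom.id k A) g = g := rfl

theorem ev_ug_apply (g : GL (Fin n) A) (i j : Fin n) : ev k g (ug k n i j) = g i j := by
  rw [ug_apply, ev, IsLocalization.Away.liftAlgHom_apply, IsLocalization.Away.lift_eq]
  simp

theorem gm_ev_ug (g : GL (Fin n) A) : gm (ev k g) (ug k n) = g := by
  ext i j
  rw [gm_apply, ev_ug_apply]

theorem ogl_ext {f f' : OGL k n →ₐ[k] A} (h : gm f (ug k n) = gm f' (ug k n)) : f = f' := by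
  apply IsLocalization.algHom_ext (Submonoid.powers (mvPolynomialX (Fin n) (Fin n) k).det)
  apply MvPolynomial.algHom_ext
  rintro ⟨i, j⟩
  have := congrArg (fun g : GL (Fin n) A => g i j) h
  exact this

theorem ev_gm_ug (f : OGL k n →ₐ[k] A) : ev k (gm f (ug k n)) = f := ogl_ext (gm_ev_ug _)

theorem ev_ug : ev k (ug k n) = AlgHom.id k _ := ev_gm_ug (AlgHom.id k _)

theorem comp_ev (f : A →ₐ[k] A') (g : GL (Fin n) A) : f.comp (ev k g) = ev k (gm f g) :=
  ogl_ext (by rw [← gm_gm, gm_ev_ug, gm_ev_ug])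

theorem map_ev (f : A →ₐ[k] A') (g : GL (Fin n) A) (x : OGL k n) :
    f (ev k g x) = ev k (gm f g) x := DFunLike.congr_fun (comp_ev f g) x

end ev

section tens

variable {k : Type u} [Field k] {L M M' : Type u} [AddCommGroup L] [Module k L] [AddCommGroup M]
  [Module k M] [AddCommGroup M'] [Module k M']

/-- The contraction of `L ⊗ M` with a linear form on `L`. -/
noncomputable def ctr (φ : L →ₗ[k] k) (M : Type u) [AddCommGroup M] [Module k M] :
    L ⊗[k] M →ₗ[k] M :=
  (TensorProduct.lid k M).toLinearMap ∘ₗ φ.rTensor M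

theorem ctr_tmul (φ : L →ₗ[k] k) (a : L) (m : M) : ctr φ M (a ⊗ₜ m) = φ a • m := by
  simp [ctr]

theorem ctr_lTensor (φ : L →ₗ[k] k) (f : M →ₗ[k] M') (x : L ⊗[k] M) :
    ctr φ M' (f.lTensor L x) = f (ctr φ M x) := by
  induction x using TensorProduct.induction_on with
  | zero => simp
  | tmul a m => simp [ctr_tmul]
  | add x y hx hy => simp only [map_add, hx, hy]

theorem eq_zero_of_ctr (x : L ⊗[k] M) (h : ∀ φ : L →ₗ[k] k, ctr φ M x = 0) : x = 0 := by
  classical
  let b := Module.Basis.ofVectorSpace k L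
  apply (TensorProduct.equivFinsuppOfBasisLeft b).injective
  ext i
  have e : ∀ y : L ⊗[k] M, TensorProduct.equivFinsuppOfBasisLeft b y i = ctr (b.coord i) M y := by
    intro y
    induction y using TensorProduct.induction_on with
    | zero => simp
    | tmul a m => simp [ctr_tmul]
    | add x y hx hy => simp only [map_add, Finsupp.add_apply, hx, hy]
  rw [e, h, map_zero, Finsupp.zero_apply]

theorem mem_range_of_ctr (P : Submodule k M) (x : L ⊗[k] M)
    (h : ∀ φ : L →ₗ[k] k, ctr φ M x ∈ P) : ∃ y : L ⊗[k] P, P.subtype.lTensor L y = x := by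
  have e := lTensor_exact L (LinearMap.exact_subtype_mkQ P) P.mkQ_surjective
  refine (e x).1 (eq_zero_of_ctr _ fun φ => ?_)
  rw [ctr_lTensor]
  exact (Submodule.Quotient.mk_eq_zero P).2 (h φ)

end tens

section alg

variable {k : Type u} [Field k] {L O : Type u} [CommRing L] [Algebra k L] [CommRing O]
  [Algebra k O]

/-- The left inclusion. -/
noncomputable abbrev iL (k L O : Type u) [CommRing k] [CommRing L] [Algebra k L] [CommRing O]
    [Algebra k O] : L →ₐ[k] L ⊗[k] O := Algebra.TensorProduct.includeLeft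

/-- The right inclusion. -/
noncomputable abbrev iR (k L O : Type u) [CommRing k] [CommRing L] [Algebra k L] [CommRing O]
    [Algebra k O] : O →ₐ[k] L ⊗[k] O := Algebra.TensorProduct.includeRight

/-- The product of two maps. -/
noncomputable abbrev pm {k L O A : Type u} [CommRing k] [CommRing L] [Algebra k L] [CommRing O]
    [Algebra k O] [CommRing A] [Algebra k A] (f : L →ₐ[k] A) (g : O →ₐ[k] A) :
    L ⊗[k] O →ₐ[k] A :=
  Algebra.TensorProduct.lift f g fun _ _ => Commute.all _ _

theorem pm_iL {k L O A : Type u} [CommRing k] [CommRing L] [Algebra k L] [CommRing O]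
    [Algebra k O] [CommRing A] [Algebra k A] (f : L →ₐ[k] A) (g : O →ₐ[k] A) :
    (pm f g).comp (iL k L O) = f := by
  ext x; simp

theorem pm_iR {k L O A : Type u} [CommRing k] [CommRing L] [Algebra k L] [CommRing O]
    [Algebra k O] [CommRing A] [Algebra k A] (f : L →ₐ[k] A) (g : O →ₐ[k] A) :
    (pm f g).comp (iR k L O) = g := by
  ext x; simp

theorem comp_pm {k L O A A' : Type u} [CommRing k] [CommRing L] [Algebra k L] [CommRing O]
    [Algebra k O] [CommRing A] [Algebra k A] [CommRing A'] [Algebra k A'] (p : A →ₐ[k] A')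
    (f : L →ₐ[k] A) (g : O →ₐ[k] A) : p.comp (pm f g) = pm (p.comp f) (p.comp g) := by
  apply Algebra.TensorProduct.ext'
  intro a b
  simp

theorem map_iL {k L O A : Type u} [CommRing k] [CommRing L] [Algebra k L] [CommRing O]
    [Algebra k O] [CommRing A] [Algebra k A] (g : O →ₐ[k] A) :
    (Algebra.TensorProduct.map (AlgHom.id k L) g).comp (iL k L O) = iL k L A := by
  ext x; simp

theorem map_iR {k L O A : Type u} [CommRing k] [CommRing L] [Algebra k L] [CommRing O]
    [Algebra k O] [CommRing A] [Algebra k A] (g : O →ₐ[k] A) :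
    (Algebra.TensorProduct.map (AlgHom.id k L) g).comp (iR k L O) = (iR k L A).comp g := by
  ext x; simp

theorem pm_map {k L O O' A : Type u} [CommRing k] [CommRing L] [Algebra k L] [CommRing O]
    [Algebra k O] [CommRing O'] [Algebra k O'] [CommRing A] [Algebra k A] (f : L →ₐ[k] A)
    (g : O' →ₐ[k] A) (j : O →ₐ[k] O') :
    (pm f g).comp (Algebra.TensorProduct.map (AlgHom.id k L) j) = pm f (g.comp j) := by
  apply Algebra.TensorProduct.ext'
  intro a b
  simp

theorem comp_cancel {k B A A' : Type u} [CommRing k] [CommRing B] [Algebra k B] [CommRing A]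
    [Algebra k A] [CommRing A'] [Algebra k A'] (f : A →ₐ[k] A')
    (hf : Function.Injective f) {y y' : B →ₐ[k] A} (h : f.comp y = f.comp y') : y = y' :=
  AlgHom.ext fun b => hf (DFunLike.congr_fun h b)

/-- The inclusion `L ⊗ B → L ⊗ O`. -/
noncomputable abbrev inc (L : Type u) [CommRing L] [Algebra k L] (B : Subalgebra k O) :
    L ⊗[k] B →ₐ[k] L ⊗[k] O :=
  Algebra.TensorProduct.map (AlgHom.id k L) B.val

theorem map_id_eq {A : Type u} [CommRing A] [Algebra k A] (f : O →ₐ[k] A) (x : L ⊗[k] O) :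
    Algebra.TensorProduct.map (AlgHom.id k L) f x = f.toLinearMap.lTensor L x := by
  induction x using TensorProduct.induction_on with
  | zero => simp
  | tmul a m => simp
  | add x y hx hy => simp only [map_add, hx, hy]

theorem map_id_injective {A : Type u} [CommRing A] [Algebra k A] (f : O →ₐ[k] A)
    (hf : Function.Injective f) :
    Function.Injective (Algebra.TensorProduct.map (AlgHom.id k L) f) := by
  intro x y h
  rw [map_id_eq, map_id_eq] at h
  exact Module.Flat.lTensor_preserves_injective_linearMap f.toLinearMap hf h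

theorem inc_injective (B : Subalgebra k O) : Function.Injective (inc L B) :=
  map_id_injective _ Subtype.val_injective

theorem mem_range_inc (B : Subalgebra k O) (x : L ⊗[k] O)
    (h : ∀ φ : L →ₗ[k] k, ctr φ O x ∈ B) : ∃ y, inc L B y = x := by
  obtain ⟨y, hy⟩ := mem_range_of_ctr (Subalgebra.toSubmodule B) x h
  exact ⟨y, (map_id_eq B.val y).trans hy⟩

theorem ctr_map_id {A : Type u} [CommRing A] [Algebra k A] (φ : L →ₗ[k] k) (f : O →ₐ[k] A)
    (x : L ⊗[k] O) :
    f (ctr φ O x) = ctr φ A (Algebra.TensorProduct.map (AlgHom.id k L) f x) := by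
  rw [map_id_eq, ctr_lTensor]; rfl

end alg

end Co

open Co

/-- A subalgebra `B` of the coordinate ring of `GL_n` that is the ring of functions invariant
under right translation by a family `GG` of points, stable under base change. -/
structure InvAlg (k : Type u) [Field k] (n : ℕ) where
  B : Subalgebra k (OGL k n)
  GG : ∀ {A : Type u} [CommRing A] [Algebra k A], GL (Fin n) A → Prop
  nat : ∀ {A A' : Type u} [CommRing A] [Algebra k A] [CommRing A'] [Algebra k A']
    (f : A →ₐ[k] A') {g : GL (Fin n) A}, GG g → GG (gm f g)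
  mem : ∀ f, f ∈ B ↔ ∀ (A : Type u) [CommRing A] [Algebra k A] (g g' : GL (Fin n) A),
    GG g' → ev k (g * g') f = ev k g f

namespace InvAlg

variable {k : Type u} [Field k] {n : ℕ} (I : InvAlg k n) {A A' : Type u} [CommRing A]
  [Algebra k A] [CommRing A'] [Algebra k A']

/-- A function on `GL_n` over `L` that is invariant lies in `L ⊗ B`. -/
theorem exists_inc {L : Type u} [CommRing L] [Algebra k L] (x : L ⊗[k] OGL k n)
    (h : ∀ (A : Type u) [CommRing A] [Algebra k A] (g g' : GL (Fin n) A), I.GG g' →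
      Algebra.TensorProduct.map (AlgHom.id k L) (ev k (g * g')) x =
        Algebra.TensorProduct.map (AlgHom.id k L) (ev k g) x) :
    ∃ y, inc L I.B y = x :=
  mem_range_inc I.B x fun φ => (I.mem _).2 fun A _ _ g g' hg => by
    rw [ctr_map_id, ctr_map_id, h A g g' hg]

/-- The comultiplication. -/
noncomputable def com (k : Type u) [Field k] (n : ℕ) : OGL k n →ₐ[k] OGL k n ⊗[k] OGL k n :=
  ev k (gm (iL k _ _) (ug k n) * gm (iR k _ _) (ug k n))

theorem map_com (g : GL (Fin n) A) (x : OGL k n) :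
    Algebra.TensorProduct.map (AlgHom.id k (OGL k n)) (ev k g) (com k n x) =
      ev k (gm (iL k _ _) (ug k n) * gm (iR k _ _) g) x := by
  rw [com, map_ev, map_mul, gm_gm, gm_gm, map_iL, map_iR, ← gm_gm, gm_ev_ug]

theorem exists_com (b : I.B) : ∃ y, inc (OGL k n) I.B y = com k n b :=
  I.exists_inc _ fun A _ _ g g' hg => by
    rw [map_com, map_com, map_mul, ← mul_assoc]
    exact (I.mem _).1 b.2 _ _ _ (I.nat _ hg)

/-- The coaction. -/
noncomputable def coa : I.B →ₐ[k] OGL k n ⊗[k] I.B :=
  (AlgEquiv.ofInjective _ (inc_injective (L := OGL k n) I.B)).symm.toAlgHom.comp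
    (((com k n).comp I.B.val).codRestrict _ fun b => I.exists_com b)

theorem inc_coa (b : I.B) : inc (OGL k n) I.B (I.coa b) = com k n b := by
  have := (AlgEquiv.ofInjective _ (inc_injective (L := OGL k n) I.B)).apply_symm_apply
    (((com k n).comp I.B.val).codRestrict _ (fun b => I.exists_com b) b)
  exact congrArg Subtype.val this

/-- The action of `GL_n(A)` on the `A`-points of `B`. -/
noncomputable def act (g : GL (Fin n) A) (y : I.B →ₐ[k] A) : I.B →ₐ[k] A :=
  (pm (ev k g) y).comp I.coa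

/-- The point of `B` under the point `γ` of `GL_n`. -/
noncomputable def res (γ : GL (Fin n) A) : I.B →ₐ[k] A := (ev k γ).comp I.B.val

theorem res_apply (γ : GL (Fin n) A) (b : I.B) : I.res γ b = ev k γ b := rfl

theorem res_eq (g g' : GL (Fin n) A) :
    I.res g = I.res g' ↔ ∀ b ∈ I.B, ev k g b = ev k g' b := by
  constructor
  · intro h b hb
    rw [← I.res_apply g ⟨b, hb⟩, h, res_apply]
  · intro h
    ext b
    rw [res_apply, res_apply, h b b.2]

theorem comp_res (f : A →ₐ[k] A') (γ : GL (Fin n) A) : f.comp (I.res γ) = I.res (gm f γ) := by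
  rw [res, res, ← comp_ev]; rfl

theorem act_nat (f : A →ₐ[k] A') (g : GL (Fin n) A) (y : I.B →ₐ[k] A) :
    f.comp (I.act g y) = I.act (gm f g) (f.comp y) := by
  rw [act, act, ← AlgHom.comp_assoc, comp_pm, comp_ev]

theorem act_res (g γ : GL (Fin n) A) : I.act g (I.res γ) = I.res (g * γ) := by
  ext b
  rw [act, res, ← pm_map, AlgHom.comp_apply, AlgHom.comp_apply, inc_coa, com, map_ev, map_mul,
    gm_gm, gm_gm, pm_iL, pm_iR, gm_ev_ug, gm_ev_ug, res_apply]

theorem inc_iR (A : Type u) [CommRing A] [Algebra k A] :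
    (inc A I.B).comp (iR k A I.B) = I.res (gm (iR k A _) (ug k n)) := by
  rw [map_iR, res, ev_gm_ug]

theorem act_one (y : I.B →ₐ[k] A) : I.act 1 y = y := by
  have e : I.act 1 (iR k A I.B) = iR k A I.B := by
    apply comp_cancel _ (inc_injective (L := A) I.B)
    rw [act_nat, inc_iR, MonoidHom.map_one, act_res, one_mul]
  have := congrArg (AlgHom.comp (pm (AlgHom.id k A) y)) e
  rwa [act_nat, pm_iR, MonoidHom.map_one] at this

theorem act_mul (g g' : GL (Fin n) A) (y : I.B →ₐ[k] A) :
    I.act (g * g') y = I.act g (I.act g' y) := by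
  have e : ∀ g g' : GL (Fin n) (A ⊗[k] I.B),
      I.act (g * g') (iR k A I.B) = I.act g (I.act g' (iR k A I.B)) := by
    intro g g'
    apply comp_cancel _ (inc_injective (L := A) I.B)
    simp only [act_nat, inc_iR, MonoidHom.map_mul, act_res, mul_assoc]
  have := congrArg (AlgHom.comp (pm (AlgHom.id k A) y)) (e (gm (iL k _ _) g) (gm (iL k _ _) g'))
  simpa only [act_nat, pm_iR, MonoidHom.map_mul, gm_gm, pm_iL, gm_id] using this

theorem res_mul {g' : GL (Fin n) A} (hg : I.GG g') (g : GL (Fin n) A) :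
    I.res (g * g') = I.res g :=
  AlgHom.ext fun b => (I.mem _).1 b.2 A g g' hg

/-- The invertible matrix `1 + ξ` for `ξ` with vanishing products of entries. -/
def oneAdd (ξ : Mat n A) (h : ∀ i j i' j', ξ i j * ξ i' j' = 0) : GL (Fin n) A :=
  have e : ξ * ξ = 0 := by
    ext i j
    rw [mul_apply]
    exact Finset.sum_eq_zero fun l _ => h _ _ _ _
  ⟨1 + ξ, 1 - ξ, by rw [add_mul, mul_sub, mul_sub, e]; simp,
    by rw [sub_mul, mul_add, mul_add, e]; simp⟩

theorem oneAdd_val (ξ : Mat n A) (h : ∀ i j i' j', ξ i j * ξ i' j' = 0) :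
    (oneAdd ξ h : Mat n A) = 1 + ξ := rfl

/-- The action of `1 + η` is affine in `η`. -/
theorem dlin (y : I.B →ₐ[k] A) : ∃ d : I.B → Fin n → Fin n → A,
    ∀ (A' : Type u) [CommRing A'] [Algebra k A'] (f : A →ₐ[k] A') (g : GL (Fin n) A'),
      (∀ i j i' j', ((g : Mat n A') - 1) i j * ((g : Mat n A') - 1) i' j' = 0) →
      ∀ b, I.act g (f.comp y) b = f (y b) + ∑ i, ∑ j, f (d b i j) * ((g : Mat n A') - 1) i j := by
  classical
  let ξ : Mat n (TrivSqZeroExt A (Fin n × Fin n → A)) :=
    of fun i j => TrivSqZeroExt.inr (Pi.single (i, j) 1)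
  have hξ : ∀ i j i' j', ξ i j * ξ i' j' = 0 := fun _ _ _ _ => TrivSqZeroExt.inr_mul_inr _ _ _
  let g0 := oneAdd ξ hξ
  let y0 := (TrivSqZeroExt.inlAlgHom k A (Fin n × Fin n → A)).comp y
  refine ⟨fun b i j => (I.act g0 y0 b).snd (i, j), ?_⟩
  intro A' _ _ f g hg b
  have h0 : (I.act g0 y0 b).fst = y b := by
    have e := I.act_nat (TrivSqZeroExt.fstHom k A (Fin n × Fin n → A)) g0 y0
    have e1 : gm (TrivSqZeroExt.fstHom k A (Fin n × Fin n → A)) g0 = 1 := by
      ext i j
      rw [gm_apply]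
      show (TrivSqZeroExt.fstHom k A (Fin n × Fin n → A)) ((1 + ξ) i j) = (1 : Mat n A) i j
      rw [Matrix.add_apply, map_add, one_apply, one_apply]
      split_ifs <;> simp [ξ]
    rw [e1, act_one] at e
    exact DFunLike.congr_fun e b
  let L : (Fin n × Fin n → A) →ₗ[k] A' :=
    { toFun := fun m => ∑ i, ∑ j, f (m (i, j)) * ((g : Mat n A') - 1) i j
      map_add' := fun m m' => by
        simp only [Pi.add_apply, map_add, add_mul, Finset.sum_add_distrib]
      map_smul' := fun c m => by
        simp only [Pi.smul_apply, map_smul, smul_mul_assoc, RingHom.id_apply, Finset.smul_sum] }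
  have hL : ∀ m, L m = ∑ i, ∑ j, f (m (i, j)) * ((g : Mat n A') - 1) i j := fun _ => rfl
  have h1 : ∀ x y, L x * L y = 0 := by
    intro x y
    rw [hL, hL, Finset.sum_mul]
    refine Finset.sum_eq_zero fun i _ => ?_
    rw [Finset.sum_mul]
    refine Finset.sum_eq_zero fun j _ => ?_
    rw [Finset.mul_sum]
    refine Finset.sum_eq_zero fun i' _ => ?_
    rw [Finset.mul_sum]
    refine Finset.sum_eq_zero fun j' _ => ?_
    rw [mul_mul_mul_comm, hg, mul_zero]
  have h2 : ∀ (r : A) x, L (r • x) = f r * L x := by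
    intro r x
    simp only [hL, Pi.smul_apply, smul_eq_mul, map_mul, Finset.mul_sum, mul_assoc]
  have h3 : ∀ (r : A) x, L (MulOpposite.op r • x) = L x * f r := by
    intro r x
    rw [op_smul_eq_smul, h2, mul_comm]
  let θ := TrivSqZeroExt.lift f L h1 h2 h3
  have e := I.act_nat θ g0 y0
  have e1 : gm θ g0 = g := by
    ext i j
    rw [gm_apply]
    show θ ((1 + ξ) i j) = _
    have : θ (ξ i j) = ((g : Mat n A') - 1) i j := by
      show θ (TrivSqZeroExt.inr _) = _
      rw [TrivSqZeroExt.lift_apply_inr, hL, ← Finset.sum_product', Finset.sum_eq_single (i, j)]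
      · simp
      · intro p _ hp
        rw [Pi.single_eq_of_ne hp, map_zero, zero_mul]
      · simp
    rw [Matrix.add_apply, map_add, this, Matrix.sub_apply, one_apply, one_apply]
    split_ifs <;> simp
  have e2 : θ.comp y0 = f.comp y := by
    ext c
    exact TrivSqZeroExt.lift_apply_inl f L h1 h2 h3 (y c)
  rw [e1, e2] at e
  rw [← e, AlgHom.comp_apply, TrivSqZeroExt.lift_def, h0, hL]

end InvAlg

namespace Co

/-- Descent of membership in a submodule along a faithfully flat map. -/
theorem mem_of_ff {A A' : Type u} [CommRing A] [CommRing A'] [Algebra A A']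
    [Module.FaithfullyFlat A A'] {σ : Type u} [Fintype σ] (N : Submodule A (σ → A)) (w : σ → A)
    (h : (fun s => algebraMap A A' (w s)) ∈
      Submodule.span A' ((fun v : σ → A => fun s => algebraMap A A' (v s)) '' N)) : w ∈ N := by
  classical
  let φ : (σ → A') →ₗ[A'] A' ⊗[A] ((σ → A) ⧸ N) :=
    Fintype.linearCombination A' fun s => (1 : A') ⊗ₜ N.mkQ (Pi.single s 1)
  have hφ : ∀ v : σ → A, φ (fun s => algebraMap A A' (v s)) = (1 : A') ⊗ₜ N.mkQ v := by
    intro v
    rw [Fintype.linearCombination_apply]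
    conv_rhs => rw [pi_eq_sum_univ' v, map_sum, TensorProduct.tmul_sum]
    refine Finset.sum_congr rfl fun s _ => ?_
    rw [algebraMap_smul, map_smul, TensorProduct.tmul_smul]
  have hk : Submodule.span A' ((fun v : σ → A => fun s => algebraMap A A' (v s)) '' N) ≤
      LinearMap.ker φ := by
    rw [Submodule.span_le]
    rintro _ ⟨v, hv, rfl⟩
    show φ _ = 0
    rw [hφ, Submodule.mkQ_apply, (Submodule.Quotient.mk_eq_zero N).2 hv, TensorProduct.tmul_zero]
  have := hk h
  rw [LinearMap.mem_ker, hφ, Module.FaithfullyFlat.one_tmul_eq_zero_iff] at this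
  exact (Submodule.Quotient.mk_eq_zero N).1 this

end Co

namespace InvAlg

variable {k : Type u} [Field k] {n : ℕ} (I : InvAlg k n) {A A' : Type u} [CommRing A]
  [Algebra k A] [CommRing A'] [Algebra k A']

/-- Infinitesimal transitivity descends along faithfully flat maps. -/
theorem t2_descend (ft : Algebra.FiniteType k I.B) [Algebra A A'] [IsScalarTower k A A']
    [Module.FaithfullyFlat A A'] (J : Ideal A) (hJ : J * J = ⊥) (y y' : I.B →ₐ[k] A)
    (g : GL (Fin n) A') (hg : ∀ i j, ((g : Mat n A') - 1) i j ∈ J.map (algebraMap A A'))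
    (h : I.act g ((IsScalarTower.toAlgHom k A A').comp y) =
      (IsScalarTower.toAlgHom k A A').comp y') :
    ∃ g : GL (Fin n) A, (∀ i j, ((g : Mat n A) - 1) i j ∈ J) ∧ I.act g y = y' := by
  classical
  obtain ⟨s, hs⟩ := ft.out
  obtain ⟨d, hd⟩ := I.dlin y
  have hJ' : J.map (algebraMap A A') * J.map (algebraMap A A') = ⊥ := by
    rw [← Ideal.map_mul, hJ, Ideal.map_bot]
  have h1 := hd A' (IsScalarTower.toAlgHom k A A') g fun i j i' j' => by
    rw [← Ideal.mem_bot, ← hJ']
    exact Ideal.mul_mem_mul (hg _ _) (hg _ _)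
  let N : Submodule A (s → A) :=
    { carrier := {v | ∃ ξ : Mat n A, (∀ i j, ξ i j ∈ J) ∧
        v = fun b : s => ∑ i, ∑ j, d b i j * ξ i j}
      zero_mem' := ⟨0, fun _ _ => J.zero_mem, by ext b; simp⟩
      add_mem' := by
        rintro _ _ ⟨ξ, hξ, rfl⟩ ⟨ξ', hξ', rfl⟩
        refine ⟨ξ + ξ', fun i j => J.add_mem (hξ i j) (hξ' i j), ?_⟩
        ext b
        simp only [Pi.add_apply, Matrix.add_apply, mul_add, Finset.sum_add_distrib]
      smul_mem' := by
        rintro c _ ⟨ξ, hξ, rfl⟩
        refine ⟨c • ξ, fun i j => J.mul_mem_left c (hξ i j), ?_⟩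
        ext b
        simp only [Pi.smul_apply, Matrix.smul_apply, smul_eq_mul, Finset.mul_sum, mul_left_comm c] }
  have hw : (fun b : s => y' b - y b) ∈ N := by
    apply mem_of_ff (A' := A')
    have e : (fun b : s => algebraMap A A' (y' b - y b)) =
        ∑ i, ∑ j, ((g : Mat n A') - 1) i j • fun b : s => algebraMap A A' (d b i j) := by
      ext b
      have := h1 b
      rw [h] at this
      simp only [AlgHom.comp_apply, IsScalarTower.toAlgHom_apply] at this
      rw [map_sub, this, add_sub_cancel_left]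
      simp only [Finset.sum_apply, Pi.smul_apply, smul_eq_mul, mul_comm]
    rw [e]
    refine Submodule.sum_mem _ fun i _ => Submodule.sum_mem _ fun j _ => ?_
    have := hg i j
    generalize ((g : Mat n A') - 1) i j = x at this
    induction this using Submodule.span_induction with
    | mem x hx =>
      obtain ⟨a, ha, rfl⟩ := hx
      apply Submodule.subset_span
      refine ⟨fun b : s => d b i j * a, ⟨single i j a, fun i' j' => ?_, ?_⟩, ?_⟩
      · rw [single_apply]
        split_ifs
        · exact ha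
        · exact J.zero_mem
      · ext b
        rw [Finset.sum_eq_single i, Finset.sum_eq_single j, single_apply_same]
        · intro j' _ hj
          rw [single_apply_of_col_ne _ _ (Ne.symm hj), mul_zero]
        · simp
        · intro i' _ hi
          exact Finset.sum_eq_zero fun j' _ => by
            rw [single_apply_of_row_ne (Ne.symm hi), mul_zero]
        · simp
      · ext b
        simp [mul_comm]
    | zero => rw [zero_smul]; exact Submodule.zero_mem _
    | add x y _ _ hx hy => rw [add_smul]; exact Submodule.add_mem _ hx hy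
    | smul c x _ hx => rw [smul_eq_mul, mul_smul]; exact Submodule.smul_mem _ _ hx
  obtain ⟨ξ, hξ, e⟩ := hw
  have hξ2 : ∀ i j i' j', ξ i j * ξ i' j' = 0 := fun i j i' j' => by
    rw [← Ideal.mem_bot, ← hJ]
    exact Ideal.mul_mem_mul (hξ _ _) (hξ _ _)
  have e1 : ((oneAdd ξ hξ2 : GL (Fin n) A) : Mat n A) - 1 = ξ := by
    rw [oneAdd_val, add_sub_cancel_left]
  refine ⟨oneAdd ξ hξ2, by rw [e1]; exact hξ, ?_⟩
  apply AlgHom.ext_of_adjoin_eq_top hs
  intro b hb
  have h2 := hd A (AlgHom.id k A) (oneAdd ξ hξ2) (by rw [e1]; exact hξ2) b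
  rw [AlgHom.id_comp, e1] at h2
  have h3 := congrFun e ⟨b, hb⟩
  simp only [AlgHom.id_apply] at h2 h3
  rw [h2, ← h3, add_sub_cancel]

/-- Infinitesimal transitivity. -/
def T2 : Prop :=
  ∀ (A : Type u) [CommRing A] [Algebra k A] (J : Ideal A), J * J = ⊥ →
    ∀ y y' : I.B →ₐ[k] A, (∀ b, y b - y' b ∈ J) →
      ∃ g : GL (Fin n) A, (∀ i j, ((g : Mat n A) - 1) i j ∈ J) ∧ I.act g y = y'

theorem ofId_res (A : Type u) [CommRing A] [Algebra k A] :
    (Algebra.ofId k A).comp (I.res 1) = I.res 1 := by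
  rw [comp_res, MonoidHom.map_one]

/-- The homogeneous space attached to a ring of invariants. -/
@[reducible] noncomputable def toHS (ft : Algebra.FiniteType k I.B) (t2 : I.T2) : HS k n where
  B := I.B
  ft := ft
  act := I.act
  act_one := I.act_one
  act_mul := I.act_mul
  act_nat := I.act_nat
  y0 := I.res 1
  t2 := fun {A} _ _ => t2 A
  t4 := fun f hf => ⟨⟨f, (I.mem f).2 fun A _ _ g g' hg => hf A g g' (by
      rw [ofId_res, act_res, mul_one, ← one_mul g', I.res_mul hg])⟩, fun A _ _ g => by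
    rw [ofId_res, act_res, mul_one]; rfl⟩

theorem toHS_pt (ft : Algebra.FiniteType k I.B) (t2 : I.T2) (A : Type u) [CommRing A]
    [Algebra k A] : (I.toHS ft t2).pt A = I.res 1 := I.ofId_res A

theorem mem_toHS_G (ft : Algebra.FiniteType k I.B) (t2 : I.T2) (g : GL (Fin n) A) :
    g ∈ (I.toHS ft t2).G A ↔ I.res g = I.res 1 := by
  show I.act g ((I.toHS ft t2).pt A) = (I.toHS ft t2).pt A ↔ _
  rw [toHS_pt, act_res, mul_one]

end InvAlg

namespace AffQuot

variable {k : Type u} [Field k] {n : ℕ} (G : AffQuot k n) {A A' : Type u} [CommRing A]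
  [Algebra k A] [CommRing A'] [Algebra k A']

theorem Pt.map {G : AffQuot k n} (f : A →ₐ[k] A') {g : GL (Fin n) A} (hg : G.Pt g) :
    G.Pt (gm f g) := fun b hb => by
  rw [← map_ev, hg b hb, map_ev, MonoidHom.map_one]

theorem Pt.of_inj {G : AffQuot k n} (f : A →ₐ[k] A') (hf : Function.Injective f)
    {g : GL (Fin n) A} (hg : G.Pt (gm f g)) : G.Pt g := fun b hb => hf (by
  rw [map_ev, hg b hb, map_ev, MonoidHom.map_one])

theorem pt_one : G.Pt (1 : GL (Fin n) A) := fun _ _ => rfl

theorem pt_iff (g g' : GL (Fin n) A) :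
    G.Pt (g⁻¹ * g') ↔ ∀ b ∈ G.B, ev k g b = ev k g' b := (G.coset A g g').symm

theorem Pt.inv {G : AffQuot k n} {g : GL (Fin n) A} (hg : G.Pt g) : G.Pt g⁻¹ := by
  have := (G.pt_iff g 1).2 hg
  rwa [mul_one] at this

theorem Pt.ev_mul {G : AffQuot k n} {g' : GL (Fin n) A} (hg : G.Pt g') (g : GL (Fin n) A) :
    ∀ b ∈ G.B, ev k (g * g') b = ev k g b := fun b hb =>
  ((G.pt_iff g (g * g')).1 (by rwa [inv_mul_cancel_left]) b hb).symm

theorem Pt.mul {G : AffQuot k n} {g g' : GL (Fin n) A} (hg : G.Pt g) (hg' : G.Pt g') :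
    G.Pt (g * g') := fun b hb => (hg'.ev_mul g b hb).trans (hg b hb)

/-- The ring `B` is the ring of invariants of its group. -/
theorem mem_iff (f : OGL k n) : f ∈ G.B ↔
    ∀ (A : Type u) [CommRing A] [Algebra k A] (g g' : GL (Fin n) A),
      G.Pt g' → ev k (g * g') f = ev k g f := by
  refine ⟨fun hf A _ _ g g' hg => hg.ev_mul g f hf, fun h => ?_⟩
  have := G.ff
  let l : OGL k n →ₐ[k] OGL k n ⊗[G.B] OGL k n := Algebra.TensorProduct.includeLeft
  let r : OGL k n →ₐ[k] OGL k n ⊗[G.B] OGL k n :=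
    (Algebra.TensorProduct.includeRight (R := G.B)).restrictScalars k
  have h1 : G.Pt ((gm l (ug k n))⁻¹ * gm r (ug k n)) := by
    rw [pt_iff]
    intro b hb
    rw [ev_gm_ug, ev_gm_ug]
    show b ⊗ₜ 1 = 1 ⊗ₜ b
    have e : b = (⟨b, hb⟩ : G.B) • (1 : OGL k n) := by
      rw [Algebra.smul_def, mul_one]; rfl
    conv_lhs => rw [e, TensorProduct.smul_tmul, ← e]
  have h2 := h _ (gm l (ug k n)) _ h1
  rw [mul_inv_cancel_left, ev_gm_ug, ev_gm_ug] at h2
  obtain ⟨b, hb⟩ := (Algebra.IsEffective.of_faithfullyFlat G.B (OGL k n) f).1 (by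
    rw [Algebra.TensorProduct.includeLeftSubRight_apply]
    exact sub_eq_zero.2 h2.symm)
  rw [← hb]
  exact b.2

/-- An affine quotient as a ring of invariants. -/
@[reducible] def inv : InvAlg k n where
  B := G.B
  GG := G.Pt
  nat := fun f _ h => h.map f
  mem := G.mem_iff

/-- Every point of the quotient lifts to `GL_n` over a faithfully flat smooth algebra. -/
theorem exists_cover (y : G.B →ₐ[k] A) :
    ∃ (A' : Type u) (_ : CommRing A') (_ : Algebra k A') (_ : Algebra A A')
      (_ : IsScalarTower k A A') (_ : Module.FaithfullyFlat A A') (_ : Algebra.Smooth A A')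
      (γ : GL (Fin n) A'), G.inv.res γ = (IsScalarTower.toAlgHom k A A').comp y := by
  have := G.ff
  have := G.smooth
  let _ : Algebra G.B A := y.toRingHom.toAlgebra
  have : IsScalarTower k G.B A := IsScalarTower.of_algebraMap_eq fun c => (y.commutes c).symm
  let r : OGL k n →ₐ[k] A ⊗[G.B] OGL k n :=
    (Algebra.TensorProduct.includeRight (R := G.B)).restrictScalars k
  refine ⟨A ⊗[G.B] OGL k n, inferInstance, inferInstance, inferInstance, inferInstance,
    inferInstance, inferInstance, gm r (ug k n), ?_⟩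
  refine AlgHom.ext fun (b : G.B) => ?_
  rw [InvAlg.res_apply, ev_gm_ug]
  exact (Algebra.TensorProduct.includeRight (R := G.B) (A := A) (B := OGL k n)).commutes b

/-- Points of `GL_n` lift together with their images in the quotient. -/
theorem lift_res (J : Ideal A) (hJ : IsNilpotent J) (y : G.B →ₐ[k] A) (γ : GL (Fin n) (A ⧸ J))
    (h : G.inv.res γ = (Ideal.Quotient.mkₐ k J).comp y) :
    ∃ γ' : GL (Fin n) A, gm (Ideal.Quotient.mkₐ k J) γ' = γ ∧ G.inv.res γ' = y := by
  have := G.smooth
  let _ : Algebra G.B A := y.toRingHom.toAlgebra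
  have : IsScalarTower k G.B A := IsScalarTower.of_algebraMap_eq fun c => (y.commutes c).symm
  let p : OGL k n →ₐ[G.B] A ⧸ J :=
    { (ev k γ).toRingHom with commutes' := fun b => DFunLike.congr_fun h b }
  obtain ⟨q, hq⟩ := Algebra.FormallySmooth.exists_lift J hJ p
  refine ⟨gm (q.restrictScalars k) (ug k n), ?_, ?_⟩
  · rw [gm_gm]
    have e : (Ideal.Quotient.mkₐ k J).comp (q.restrictScalars k) = ev k γ :=
      AlgHom.ext fun x => DFunLike.congr_fun hq x
    rw [e, gm_ev_ug]
  · ext b
    rw [InvAlg.res_apply, ev_gm_ug]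
    exact q.commutes b

theorem t2 : G.inv.T2 := by
  intro A _ _ J hJ y y' h
  obtain ⟨A', _, _, _, _, _, -, γ, hγ⟩ := G.exists_cover y
  let J' := J.map (algebraMap A A')
  have hJ' : IsNilpotent J' := ⟨2, by
    rw [pow_two, ← Ideal.map_mul, hJ, Ideal.map_bot]; rfl⟩
  obtain ⟨γ', h1, h2⟩ := G.lift_res J' hJ' ((IsScalarTower.toAlgHom k A A').comp y')
    (gm (Ideal.Quotient.mkₐ k J') γ) (by
      rw [← InvAlg.comp_res, hγ]
      ext b
      refine Ideal.Quotient.eq.2 ?_
      have := Ideal.mem_map_of_mem (algebraMap A A') (h b)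
      rwa [map_sub] at this)
  refine G.inv.t2_descend G.ft J hJ y y' (γ' * γ⁻¹) (fun i j => ?_) ?_
  · have e : gm (Ideal.Quotient.mkₐ k J') (γ' * γ⁻¹) = 1 := by
      rw [MonoidHom.map_mul, h1, MonoidHom.map_inv, mul_inv_cancel]
    have e2 := congrArg (fun g : GL (Fin n) (A' ⧸ J') => g i j) e
    refine Ideal.Quotient.eq_zero_iff_mem.1 ?_
    rw [Matrix.sub_apply, map_sub]
    refine sub_eq_zero.2 (e2.trans ?_)
    show (1 : Mat n (A' ⧸ J')) i j = _
    rw [one_apply, one_apply]
    split_ifs <;> simp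
  · rw [← hγ, ← h2, InvAlg.act_res, inv_mul_cancel_right]

/-- The homogeneous space `GL_n / G`. -/
@[reducible] noncomputable def toHS : HS k n := G.inv.toHS G.ft G.t2

theorem toHS_pt (A : Type u) [CommRing A] [Algebra k A] : G.toHS.pt A = G.inv.res 1 :=
  G.inv.toHS_pt _ _ A

theorem toHS_act_res (g γ : GL (Fin n) A) : G.toHS.act g (G.inv.res γ) = G.inv.res (g * γ) :=
  G.inv.act_res g γ

theorem res_eq_iff (g g' : GL (Fin n) A) : G.inv.res g = G.inv.res g' ↔ G.Pt (g⁻¹ * g') := by
  rw [pt_iff]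
  exact G.inv.res_eq g g'

theorem mem_toHS_G (g : GL (Fin n) A) : g ∈ G.toHS.G A ↔ G.Pt g := by
  rw [InvAlg.mem_toHS_G]
  exact G.inv.res_eq g 1

end AffQuot

end Pool.Agent.GR
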