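import Pool.Agent.P.MP_c1f06d_ag.r.Defs

/-! Section 1: naturality, infinitesimal tools. -/

open Matrix

universe u

namespace Pool.Agent.GR

section gmap

variable {k : Type u} [CommRing k] {n : ℕ} {A A' A'' : Type u} [CommRing A] [Algebra k A]
  [CommRing A'] [Algebra k A'] [CommRing A''] [Algebra k A'']

theorem gm_val (f : A →ₐ[k] A') (g : GL (Fin n) A) :
    ((gm f g : GL (Fin n) A') : Mat n A') = (g : Mat n A).map f := rfl

theorem gm_inv_val (f : A →ₐ[k] A') (g : GL (Fin n) A) :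
    (((gm f g)⁻¹ : GL (Fin n) A') : Mat n A') = ((g⁻¹ : GL (Fin n) A) : Mat n A).map f := rfl

theorem gm_apply (f : A →ₐ[k] A') (g : GL (Fin n) A) (i j : Fin n) :
    ((gm f g : GL (Fin n) A') : Mat n A') i j = f ((g : Mat n A) i j) := rfl

theorem gm_comp (f : A →ₐ[k] A') (f' : A' →ₐ[k] A'') (g : GL (Fin n) A) :
    gm f' (gm f g) = gm (f'.comp f) g := Units.ext rfl

theorem gm_id (g : GL (Fin n) A) : gm (AlgHom.id k A) g = g := Units.ext rfl

theorem gm_inj (f : A →ₐ[k] A') (hf : Function.Injective f) :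
    Function.Injective (gm f : GL (Fin n) A → GL (Fin n) A') := fun g g' h =>
  Units.ext (Matrix.ext fun i j => hf (by rw [← gm_apply, ← gm_apply, h]))

/-- A matrix that is invertible together with entries of it and of its inverse in the range. -/
theorem exists_gm_of_range (f : A →ₐ[k] A') (hf : Function.Injective f) (g : GL (Fin n) A')
    (h1 : ∀ i j, (g : Mat n A') i j ∈ f.range)
    (h2 : ∀ i j, ((g⁻¹ : GL (Fin n) A') : Mat n A') i j ∈ f.range) :
    ∃ g0 : GL (Fin n) A, gm f g0 = g := by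
  choose a ha using h1
  choose b hb using h2
  have ea : (of a : Mat n A).map f = (g : Mat n A') := Matrix.ext ha
  have eb : (of b : Mat n A).map f = ((g⁻¹ : GL (Fin n) A') : Mat n A') := Matrix.ext hb
  have inj : Function.Injective fun M : Mat n A => M.map f := Matrix.map_injective hf
  refine ⟨⟨of a, of b, inj ?_, inj ?_⟩, Units.ext ea⟩
  · show (of a * of b : Mat n A).map (f : A →+* A') = (1 : Mat n A).map f
    rw [Matrix.map_mul, Matrix.map_one _ (map_zero f) (map_one f)]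
    show (of a : Mat n A).map f * (of b : Mat n A).map f = 1
    rw [ea, eb, Units.mul_inv]
  · show (of b * of a : Mat n A).map (f : A →+* A') = (1 : Mat n A).map f
    rw [Matrix.map_mul, Matrix.map_one _ (map_zero f) (map_one f)]
    show (of b : Mat n A).map f * (of a : Mat n A).map f = 1
    rw [ea, eb, Units.inv_mul]

/-- Lifting of invertible matrices along a surjection that reflects units. -/
theorem gm_surj (f : A →ₐ[k] A') (hf : Function.Surjective f)
    (hu : ∀ a, IsUnit (f a) → IsUnit a) (g : GL (Fin n) A') : ∃ g0 : GL (Fin n) A, gm f g0 = g := by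
  choose s hs using hf
  have e : ((g : Mat n A').map s).map f = (g : Mat n A') := Matrix.ext fun i j => hs _
  have hd : IsUnit ((g : Mat n A').map s).det := by
    apply hu
    rw [AlgHom.map_det]
    show IsUnit (((g : Mat n A').map s).map f).det
    rw [e]
    exact (isUnit_iff_isUnit_det _).1 g.isUnit
  exact ⟨GeneralLinearGroup.mk'' _ hd, Units.ext e⟩

theorem isUnit_of_nil_ker (f : A →ₐ[k] A') (hf : Function.Surjective f)
    (hn : ∀ a, f a = 0 → IsNilpotent a) (a : A) (ha : IsUnit (f a)) : IsUnit a := by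
  obtain ⟨b', hb'⟩ := ha.exists_right_inv
  obtain ⟨b, rfl⟩ := hf b'
  have h : IsNilpotent (a * b - 1) := hn _ (by rw [map_sub, map_mul, hb', map_one, sub_self])
  have h2 := h.isUnit_add_one
  rw [sub_add_cancel] at h2
  exact isUnit_of_mul_isUnit_left h2

/-- `1 + η` for a matrix whose entries multiply to zero. -/
def sq0 (η : Mat n A) (h : ∀ i j p q, η i j * η p q = 0) : GL (Fin n) A :=
  have h0 : η * η = 0 := Matrix.ext fun i j => by
    rw [mul_apply]; exact Finset.sum_eq_zero fun l _ => h _ _ _ _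
  ⟨1 + η, 1 - η, by rw [mul_sub, mul_one, add_mul, one_mul, h0, add_zero, add_sub_cancel_right],
    by rw [sub_mul, one_mul, mul_add, mul_one, h0, add_zero, add_sub_cancel_right]⟩

theorem sq0_val (η : Mat n A) (h : ∀ i j p q, η i j * η p q = 0) :
    ((sq0 η h : GL (Fin n) A) : Mat n A) = 1 + η := rfl

theorem sq0_inv_val (η : Mat n A) (h : ∀ i j p q, η i j * η p q = 0) :
    (((sq0 η h)⁻¹ : GL (Fin n) A) : Mat n A) = 1 - η := rfl

theorem mul_eq_zero_of_sq {J : Ideal A} (hJ : J * J = ⊥) {a b : A} (ha : a ∈ J) (hb : b ∈ J) :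
    a * b = 0 := by
  have := Ideal.mul_mem_mul ha hb
  rwa [hJ, Ideal.mem_bot] at this

/-- The universal square zero extension. -/
abbrev UZ (n : ℕ) (A : Type u) : Type u := TrivSqZeroExt A (Fin n × Fin n → A)

/-- The universal square zero matrix. -/
def etaU (n : ℕ) (A : Type u) [CommRing A] : Mat n (UZ n A) :=
  of fun i j => TrivSqZeroExt.inr (Pi.single (i, j) 1)

theorem etaU_sq (i j p q : Fin n) : etaU n A i j * etaU n A p q = 0 :=
  TrivSqZeroExt.inr_mul_inr _ _ _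

/-- The map out of the universal square zero extension. -/
def uzLift (f : A →ₐ[k] A') (η : Mat n A') (h : ∀ i j p q, η i j * η p q = 0) :
    UZ n A →ₐ[k] A' :=
  TrivSqZeroExt.lift f
    { toFun := fun m => ∑ i, ∑ j, f (m (i, j)) * η i j
      map_add' := fun a b => by
        simp only [Pi.add_apply, map_add, add_mul, Finset.sum_add_distrib]
      map_smul' := fun c a => by
        simp only [Pi.smul_apply, map_smul, RingHom.id_apply, Finset.smul_sum, smul_mul_assoc] }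
    (fun x y => by
      show (∑ i, ∑ j, f (x (i, j)) * η i j) * (∑ i, ∑ j, f (y (i, j)) * η i j) = 0
      simp only [Finset.sum_mul, Finset.mul_sum]
      refine Finset.sum_eq_zero fun _ _ => Finset.sum_eq_zero fun _ _ =>
        Finset.sum_eq_zero fun _ _ => Finset.sum_eq_zero fun _ _ => ?_
      rw [mul_mul_mul_comm, h, mul_zero])
    (fun r x => by
      show (∑ i, ∑ j, f ((r • x) (i, j)) * η i j) = f r * ∑ i, ∑ j, f (x (i, j)) * η i j
      simp only [Pi.smul_apply, smul_eq_mul, map_mul, Finset.mul_sum, mul_assoc])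
    (fun r x => by
      show (∑ i, ∑ j, f ((MulOpposite.op r • x) (i, j)) * η i j) =
        (∑ i, ∑ j, f (x (i, j)) * η i j) * f r
      simp only [Pi.smul_apply, op_smul_eq_mul, map_mul, Finset.sum_mul, mul_right_comm])

theorem uzLift_apply (f : A →ₐ[k] A') (η : Mat n A') (h : ∀ i j p q, η i j * η p q = 0)
    (x : UZ n A) : uzLift f η h x = f x.fst + ∑ i, ∑ j, f (x.snd (i, j)) * η i j := rfl

theorem uzLift_eta (f : A →ₐ[k] A') (η : Mat n A') (h : ∀ i j p q, η i j * η p q = 0) :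
    (etaU n A).map (uzLift f η h) = η := by
  ext i j
  rw [map_apply, uzLift_apply]
  show f 0 + ∑ p, ∑ q, f ((Pi.single (i, j) 1 : Fin n × Fin n → A) (p, q)) * η p q = _
  rw [map_zero, zero_add, Finset.sum_eq_single i, Finset.sum_eq_single j]
  · rw [Pi.single_eq_same, map_one, one_mul]
  · intro q _ hq
    rw [Pi.single_eq_of_ne (by simp [hq]), map_zero, zero_mul]
  · simp
  · intro p _ hp
    refine Finset.sum_eq_zero fun q _ => ?_
    rw [Pi.single_eq_of_ne (by simp [hp]), map_zero, zero_mul]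
  · simp

theorem uzLift_inl (f : A →ₐ[k] A') (η : Mat n A') (h : ∀ i j p q, η i j * η p q = 0) :
    (uzLift f η h).comp (TrivSqZeroExt.inlAlgHom k A _) = f :=
  TrivSqZeroExt.lift_comp_inlHom _ _ _ _ _

theorem gm_uzLift (f : A →ₐ[k] A') (η : Mat n A') (h : ∀ i j p q, η i j * η p q = 0) :
    gm (uzLift f η h) (sq0 (etaU n A) etaU_sq) = sq0 η h := by
  refine Units.ext ?_
  rw [gm_val, sq0_val, sq0_val, Matrix.map_add _ (map_add _), uzLift_eta,
    Matrix.map_one _ (map_zero _) (map_one _)]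

theorem dual_eq (M ξ : Mat n A) : dual M ξ =
    M.map (TrivSqZeroExt.inlAlgHom k A A) + ξ.map TrivSqZeroExt.inr := rfl

theorem dual_fst (M ξ : Mat n A) (i j : Fin n) : (dual M ξ i j).fst = M i j := by
  simp [dual]

theorem dual_snd (M ξ : Mat n A) (i j : Fin n) : (dual M ξ i j).snd = ξ i j := by
  simp [dual]

theorem dual_ext {X Y : Mat n (DualNumber A)} (h1 : ∀ i j, (X i j).fst = (Y i j).fst)
    (h2 : ∀ i j, (X i j).snd = (Y i j).snd) : X = Y :=
  Matrix.ext fun i j => TrivSqZeroExt.ext (h1 i j) (h2 i j)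

theorem dual_mul (M ξ N η : Mat n A) : dual M ξ * dual N η = dual (M * N) (M * η + ξ * N) := by
  refine dual_ext (fun i j => ?_) fun i j => ?_
  · rw [dual_fst, mul_apply, mul_apply, TrivSqZeroExt.fst_sum]
    refine Finset.sum_congr rfl fun l _ => ?_
    rw [TrivSqZeroExt.fst_mul, dual_fst, dual_fst]
  · rw [dual_snd, Matrix.add_apply, mul_apply, mul_apply, mul_apply, TrivSqZeroExt.snd_sum,
      ← Finset.sum_add_distrib]
    refine Finset.sum_congr rfl fun l _ => ?_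
    rw [TrivSqZeroExt.snd_mul, dual_fst, dual_fst, dual_snd, dual_snd, smul_eq_mul, op_smul_eq_mul]

theorem dual_zero (M : Mat n A) : dual M 0 = M.map (TrivSqZeroExt.inlAlgHom k A A) :=
  dual_ext (fun i j => by rw [dual_fst]; rfl) fun i j => by rw [dual_snd]; rfl

theorem dual_one_zero : dual (1 : Mat n A) 0 = 1 := by
  rw [dual_zero (k := A), Matrix.map_one _ (map_zero _) (map_one _)]

theorem dual_one_eq (ξ : Mat n A) : dual 1 ξ = 1 + ξ.map TrivSqZeroExt.inr := by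
  rw [dual_eq (k := A), Matrix.map_one _ (map_zero _) (map_one _)]

theorem inr_sq (ξ : Mat n A) (i j p q : Fin n) :
    (ξ.map TrivSqZeroExt.inr : Mat n (DualNumber A)) i j * (ξ.map TrivSqZeroExt.inr) p q = 0 :=
  TrivSqZeroExt.inr_mul_inr _ _ _

/-- The point `1 + ε ξ`. -/
def dualU (ξ : Mat n A) : GL (Fin n) (DualNumber A) := sq0 (ξ.map TrivSqZeroExt.inr) (inr_sq ξ)

theorem dualU_val (ξ : Mat n A) : ((dualU ξ : GL (Fin n) _) : Mat n _) = dual 1 ξ :=
  (dual_one_eq ξ).symm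

theorem dualU_inv_val (ξ : Mat n A) : (((dualU ξ)⁻¹ : GL (Fin n) _) : Mat n _) = dual 1 (-ξ) := by
  refine Units.inv_eq_of_mul_eq_one_right ?_
  rw [dualU_val, dual_mul, mul_one, one_mul, mul_one, neg_add_cancel, dual_one_zero]

end gmap

namespace HS

variable {k : Type u} [Field k] {n : ℕ} (H : HS k n) {A A' : Type u} [CommRing A] [Algebra k A]
  [CommRing A'] [Algebra k A']

theorem pt_map (f : A →ₐ[k] A') : f.comp (H.pt A) = H.pt A' :=
  AlgHom.ext fun b => f.commutes (H.y0 b)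

theorem pt_apply (b : H.B) : H.pt A b = algebraMap k A (H.y0 b) := rfl

theorem mem_St {y : H.B →ₐ[k] A} {g : GL (Fin n) A} : g ∈ H.St y ↔ H.act g y = y := Iff.rfl

theorem mem_G {g : GL (Fin n) A} : g ∈ H.G A ↔ H.act g (H.pt A) = H.pt A := Iff.rfl

theorem act_inv_act (g : GL (Fin n) A) (y : H.B →ₐ[k] A) : H.act g⁻¹ (H.act g y) = y := by
  rw [← H.act_mul, inv_mul_cancel, H.act_one]

theorem act_act_inv (g : GL (Fin n) A) (y : H.B →ₐ[k] A) : H.act g (H.act g⁻¹ y) = y := by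
  rw [← H.act_mul, mul_inv_cancel, H.act_one]

theorem act_eq_iff (g : GL (Fin n) A) (y y' : H.B →ₐ[k] A) :
    H.act g y = y' ↔ H.act g⁻¹ y' = y :=
  ⟨fun h => by rw [← h, act_inv_act], fun h => by rw [← h, act_act_inv]⟩

theorem act_map (f : A →ₐ[k] A') {g : GL (Fin n) A} {y y' : H.B →ₐ[k] A} (h : H.act g y = y') :
    H.act (gm f g) (f.comp y) = f.comp y' := by rw [← H.act_nat, h]

/-- INJ. -/
theorem act_inj (f : A →ₐ[k] A') (hf : Function.Injective f) {g : GL (Fin n) A}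
    {y y' : H.B →ₐ[k] A} (h : H.act (gm f g) (f.comp y) = f.comp y') : H.act g y = y' := by
  rw [← H.act_nat] at h
  exact AlgHom.ext fun b => hf (AlgHom.congr_fun h b)

theorem St_map (f : A →ₐ[k] A') {y : H.B →ₐ[k] A} {g : GL (Fin n) A} (h : g ∈ H.St y) :
    gm f g ∈ H.St (f.comp y) := H.act_map f h

theorem G_map (f : A →ₐ[k] A') {g : GL (Fin n) A} (h : g ∈ H.G A) : gm f g ∈ H.G A' := by
  have := H.act_map f (H.mem_G.1 h)
  rwa [pt_map] at this

theorem G_of_inj (f : A →ₐ[k] A') (hf : Function.Injective f) {g : GL (Fin n) A}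
    (h : gm f g ∈ H.G A') : g ∈ H.G A :=
  H.act_inj f hf (by rw [pt_map]; exact h)

/-- SUB, for the range of an injective map. -/
theorem act_range (f : A →ₐ[k] A') (hf : Function.Injective f) (g : GL (Fin n) A')
    (h1 : ∀ i j, (g : Mat n A') i j ∈ f.range)
    (h2 : ∀ i j, ((g⁻¹ : GL (Fin n) A') : Mat n A') i j ∈ f.range) (y : H.B →ₐ[k] A) (b : H.B) :
    H.act g (f.comp y) b ∈ f.range := by
  obtain ⟨g0, rfl⟩ := exists_gm_of_range f hf g h1 h2
  rw [← H.act_nat]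
  exact ⟨_, rfl⟩

/-- SUB. -/
theorem act_sub (S : Subalgebra k A) (g : GL (Fin n) A) (h1 : ∀ i j, (g : Mat n A) i j ∈ S)
    (h2 : ∀ i j, ((g⁻¹ : GL (Fin n) A) : Mat n A) i j ∈ S) (y : H.B →ₐ[k] A)
    (hy : ∀ b, y b ∈ S) (b : H.B) : H.act g y b ∈ S := by
  have e : S.val.comp (y.codRestrict S hy) = y := rfl
  have := H.act_range S.val Subtype.val_injective g (by simpa using h1) (by simpa using h2)
    (y.codRestrict S hy) b
  rw [e] at this
  simpa using this

/-- A point of `G` with entries, and entries of the inverse, in the range of an injection. -/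
theorem G_of_range (f : A →ₐ[k] A') (hf : Function.Injective f) {g : GL (Fin n) A'}
    (hg : g ∈ H.G A') (h1 : ∀ i j, (g : Mat n A') i j ∈ f.range)
    (h2 : ∀ i j, ((g⁻¹ : GL (Fin n) A') : Mat n A') i j ∈ f.range) :
    ∃ g0 ∈ H.G A, gm f g0 = g := by
  obtain ⟨g0, rfl⟩ := exists_gm_of_range f hf g h1 h2
  exact ⟨g0, H.G_of_inj f hf hg, rfl⟩

theorem memM_val {g : GL (Fin n) A} : H.MemM (g : Mat n A) ↔ g ∈ H.G A :=
  ⟨fun ⟨_, h, e⟩ => Units.ext e ▸ h, fun h => ⟨g, h, rfl⟩⟩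

theorem MemM.map {H : HS k n} (f : A →ₐ[k] A') {M : Mat n A} (h : H.MemM M) :
    H.MemM (M.map f) := by
  obtain ⟨g, hg, rfl⟩ := h
  exact ⟨gm f g, H.G_map f hg, rfl⟩

theorem MemM.mul {H : HS k n} {M N : Mat n A} (h : H.MemM M) (h' : H.MemM N) :
    H.MemM (M * N) := by
  obtain ⟨g, hg, rfl⟩ := h
  obtain ⟨g', hg', rfl⟩ := h'
  exact ⟨g * g', (H.G A).mul_mem hg hg', rfl⟩

theorem memM_one : H.MemM (1 : Mat n A) := ⟨1, (H.G A).one_mem, rfl⟩

theorem memM_of_inj (f : A →ₐ[k] A') (hf : Function.Injective f) {M : Mat n A} (hM : IsUnit M)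
    (h : H.MemM (M.map f)) : H.MemM M := by
  obtain ⟨g, rfl⟩ := hM
  exact H.memM_val.2 (H.G_of_inj f hf (H.memM_val.1 h))

/-- The differential of the orbit map at `y`. -/
noncomputable def dd (y : H.B →ₐ[k] A) (b : H.B) : Mat n A :=
  of fun i j => (H.act (sq0 (etaU n A) etaU_sq)
    ((TrivSqZeroExt.inlAlgHom k A (Fin n × Fin n → A)).comp y) b).snd (i, j)

/-- DLIN. -/
theorem dlin (y : H.B →ₐ[k] A) (f : A →ₐ[k] A') (η : Mat n A')
    (h : ∀ i j p q, η i j * η p q = 0) (b : H.B) :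
    H.act (sq0 η h) (f.comp y) b = f (y b) + ∑ i, ∑ j, f (H.dd y b i j) * η i j := by
  have key : ∀ {A' : Type u} [CommRing A'] [Algebra k A'] (f : A →ₐ[k] A') (η : Mat n A')
      (h : ∀ i j p q, η i j * η p q = 0), H.act (sq0 η h) (f.comp y) b =
      f (H.act (sq0 (etaU n A) etaU_sq)
        ((TrivSqZeroExt.inlAlgHom k A (Fin n × Fin n → A)).comp y) b).fst +
        ∑ i, ∑ j, f (H.dd y b i j) * η i j := by
    intro A' _ _ f η h
    have e := H.act_nat (uzLift f η h) (sq0 (etaU n A) etaU_sq)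
      ((TrivSqZeroExt.inlAlgHom k A (Fin n × Fin n → A)).comp y)
    rw [gm_uzLift, ← AlgHom.comp_assoc, uzLift_inl] at e
    rw [← e]
    rfl
  have e0 := key (AlgHom.id k A) 0 (by simp)
  have e1 : sq0 (0 : Mat n A) (by simp) = 1 := Units.ext (add_zero _)
  rw [e1, H.act_one] at e0
  simp only [AlgHom.id_comp, AlgHom.id_apply, Matrix.zero_apply, mul_zero, Finset.sum_const_zero,
    add_zero] at e0
  rw [key, ← e0]

/-- DLIN for an invertible matrix `g` with `g - 1` of square zero. -/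
theorem dlin' (y : H.B →ₐ[k] A) (f : A →ₐ[k] A') (g : GL (Fin n) A')
    (h : ∀ i j p q, ((g : Mat n A') - 1) i j * ((g : Mat n A') - 1) p q = 0) (b : H.B) :
    H.act g (f.comp y) b = f (y b) + ∑ i, ∑ j, f (H.dd y b i j) * ((g : Mat n A') - 1) i j := by
  have e : g = sq0 _ h := Units.ext (by rw [sq0_val, add_sub_cancel])
  conv_lhs => rw [e]
  exact H.dlin y f _ h b

theorem dd_map (y : H.B →ₐ[k] A) (f : A →ₐ[k] A') (b : H.B) :
    H.dd (f.comp y) b = (H.dd y b).map f := by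
  ext i j
  have e := H.dlin y ((TrivSqZeroExt.inlAlgHom k A' (Fin n × Fin n → A')).comp f) (etaU n A')
    etaU_sq b
  show (H.act (sq0 (etaU n A') etaU_sq)
    (((TrivSqZeroExt.inlAlgHom k A' (Fin n × Fin n → A')).comp f).comp y) b).snd (i, j) = _
  rw [e, TrivSqZeroExt.snd_add, TrivSqZeroExt.snd_sum]
  simp only [TrivSqZeroExt.snd_sum, AlgHom.comp_apply, TrivSqZeroExt.inlAlgHom_apply, etaU,
    of_apply, TrivSqZeroExt.inl_mul_inr, TrivSqZeroExt.snd_inr, TrivSqZeroExt.snd_inl, zero_add,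
    Finset.sum_apply, Pi.smul_apply, Pi.single_apply, Prod.mk.injEq, smul_eq_mul, mul_ite, mul_one,
    mul_zero, map_apply, ite_and]
  simp

end HS

section coords

variable {k : Type u} [Field k] {n N : ℕ} {A A' : Type u} [CommRing A] [Algebra k A]
  [CommRing A'] [Algebra k A'] (v0 : (Fin N → k) →ₗ[k] Mat n k) (c0 : Mat n k →ₗ[k] (Fin N → k))

/-- Extension of scalars of a map from coordinates to matrices. -/
noncomputable def gvec (A : Type u) [CommRing A] [Algebra k A] : (Fin N → A) →ₗ[A] Mat n A where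
  toFun x := ∑ l, x l • (v0 (Pi.single l 1)).map (algebraMap k A)
  map_add' x y := by simp only [Pi.add_apply, add_smul, Finset.sum_add_distrib]
  map_smul' c x := by
    simp only [Pi.smul_apply, smul_eq_mul, mul_smul, RingHom.id_apply, Finset.smul_sum]

/-- Extension of scalars of a map from matrices to coordinates. -/
noncomputable def gcrd (A : Type u) [CommRing A] [Algebra k A] : Mat n A →ₗ[A] (Fin N → A) where
  toFun ξ l := ∑ i, ∑ j, algebraMap k A (c0 (Matrix.single i j 1) l) * ξ i j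
  map_add' x y := by
    funext l
    simp only [Matrix.add_apply, Pi.add_apply, mul_add, Finset.sum_add_distrib]
  map_smul' c x := by
    funext l
    simp only [Matrix.smul_apply, Pi.smul_apply, smul_eq_mul, RingHom.id_apply, Finset.mul_sum,
      mul_left_comm]

theorem gvec_apply (x : Fin N → A) (i j : Fin n) :
    gvec v0 A x i j = ∑ l, v0 (Pi.single l 1) i j • x l := by
  show (∑ l, x l • (v0 (Pi.single l 1)).map (algebraMap k A)) i j = _
  rw [Matrix.sum_apply]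
  refine Finset.sum_congr rfl fun l _ => ?_
  rw [Matrix.smul_apply, map_apply, smul_eq_mul, Algebra.smul_def, mul_comm]

theorem gcrd_apply (ξ : Mat n A) (l : Fin N) :
    gcrd c0 A ξ l = ∑ i, ∑ j, c0 (Matrix.single i j 1) l • ξ i j := by
  simp only [Algebra.smul_def]
  rfl

theorem gvec_map (φ : A →ₗ[k] A') (x : Fin N → A) :
    (gvec v0 A x).map φ = gvec v0 A' fun l => φ (x l) := by
  ext i j
  simp only [map_apply, gvec_apply, map_sum, map_smul]

theorem gcrd_map (φ : A →ₗ[k] A') (ξ : Mat n A) (l : Fin N) :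
    gcrd c0 A' (ξ.map φ) l = φ (gcrd c0 A ξ l) := by
  simp only [map_apply, gcrd_apply, map_sum, map_smul]

theorem gvec_base (x : Fin N → k) : gvec v0 k x = v0 x := by
  ext i j
  conv_rhs => rw [← Finset.univ_sum_single x]
  rw [gvec_apply, map_sum, Matrix.sum_apply]
  refine Finset.sum_congr rfl fun l _ => ?_
  rw [show (Pi.single l (x l) : Fin N → k) = x l • (Pi.single l 1 : Fin N → k) by
    rw [← Pi.single_smul, smul_eq_mul, mul_one], map_smul, Matrix.smul_apply, smul_eq_mul,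
    smul_eq_mul, mul_comm]

theorem gcrd_base (ξ : Mat n k) : gcrd c0 k ξ = c0 ξ := by
  funext l
  conv_rhs => rw [Matrix.matrix_eq_sum_single ξ]
  rw [gcrd_apply, map_sum, Finset.sum_apply]
  refine Finset.sum_congr rfl fun i _ => ?_
  rw [map_sum, Finset.sum_apply]
  refine Finset.sum_congr rfl fun j _ => ?_
  rw [show Matrix.single i j (ξ i j) = ξ i j • Matrix.single i j (1 : k) by
    rw [Matrix.smul_single, smul_eq_mul, mul_one], map_smul, Pi.smul_apply, smul_eq_mul,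
    smul_eq_mul, mul_comm]

theorem eq_of_dual {a b : A} (h : ∀ φ : A →ₗ[k] k, φ a = φ b) : a = b :=
  sub_eq_zero.1 ((Module.forall_dual_apply_eq_zero_iff k (a - b)).1 fun φ => by
    rw [map_sub, h, sub_self])

theorem gcrd_gvec (h : c0 ∘ₗ v0 = LinearMap.id) (x : Fin N → A) :
    gcrd c0 A (gvec v0 A x) = x := by
  funext l
  refine eq_of_dual (k := k) fun φ => ?_
  rw [← gcrd_map, gvec_map, gvec_base, gcrd_base]
  exact congrFun (LinearMap.congr_fun h _) l

theorem gvec_gcrd (h : c0 ∘ₗ v0 = LinearMap.id) (ξ : Mat n A)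
    (hξ : ∀ φ : A →ₗ[k] k, ξ.map φ ∈ LinearMap.range v0) : gvec v0 A (gcrd c0 A ξ) = ξ := by
  ext i j
  refine eq_of_dual (k := k) fun φ => ?_
  obtain ⟨x, hx⟩ := hξ φ
  have e : (fun l => φ (gcrd c0 A ξ l)) = x := by
    funext l
    rw [← gcrd_map, ← hx, gcrd_base]
    exact congrFun (LinearMap.congr_fun h _) l
  show ((gvec v0 A (gcrd c0 A ξ)).map φ) i j = (ξ.map φ) i j
  rw [gvec_map, e, gvec_base, hx]

theorem gvec_mem (J : Submodule k A) (x : Fin N → A) (hx : ∀ l, x l ∈ J) (i j : Fin n) :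
    gvec v0 A x i j ∈ J := by
  rw [gvec_apply]
  exact J.sum_mem fun l _ => J.smul_mem _ (hx l)

theorem gcrd_mem (J : Submodule k A) (ξ : Mat n A) (h : ∀ i j, ξ i j ∈ J) (l : Fin N) :
    gcrd c0 A ξ l ∈ J := by
  rw [gcrd_apply]
  exact J.sum_mem fun i _ => J.sum_mem fun j _ => J.smul_mem _ (h i j)

end coords

namespace HS

variable {k : Type u} [Field k] {n : ℕ} (H : HS k n) {A A' : Type u} [CommRing A] [Algebra k A]
  [CommRing A'] [Algebra k A']

theorem mem_St_act (g p : GL (Fin n) A) (y : H.B →ₐ[k] A) :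
    p ∈ H.St (H.act g y) ↔ g⁻¹ * p * g ∈ H.St y := by
  rw [mem_St, mem_St, H.act_mul, H.act_mul, ← H.act_eq_iff, eq_comm]

theorem memM_one_add_dd (η : Mat n A) (h : ∀ i j p q, η i j * η p q = 0) :
    H.MemM (1 + η) ↔ ∀ b, ∑ i, ∑ j, H.dd H.y0 b i j • η i j = 0 := by
  rw [← sq0_val η h, memM_val, mem_G, AlgHom.ext_iff]
  refine forall_congr' fun b => ?_
  have e := H.dlin H.y0 (Algebra.ofId k A) η h b
  simp only [Algebra.smul_def]
  exact e ▸ add_eq_left

/-- The Lie algebra is cut out by linear equations over `k`. -/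
theorem inLie_iff_dd (ξ : Mat n A) :
    H.InLie ξ ↔ ∀ b, ∑ i, ∑ j, H.dd H.y0 b i j • ξ i j = 0 := by
  rw [InLie, dual_one_eq, H.memM_one_add_dd _ (inr_sq ξ)]
  refine forall_congr' fun b => ?_
  have e : ∑ i, ∑ j, H.dd H.y0 b i j • (ξ.map TrivSqZeroExt.inr : Mat n (DualNumber A)) i j =
      TrivSqZeroExt.inr (∑ i, ∑ j, H.dd H.y0 b i j • ξ i j) := by
    simp only [map_apply, TrivSqZeroExt.inr_sum, TrivSqZeroExt.inr_smul]
  rw [e]
  exact ⟨fun h => TrivSqZeroExt.inr_injective (h.trans (TrivSqZeroExt.inr_zero _).symm),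
    fun h => by rw [h, TrivSqZeroExt.inr_zero]⟩

/-- BASE: `1 + η` is a point of `G` iff `η` is in the Lie algebra. -/
theorem memM_one_add_sq (η : Mat n A) (h : ∀ i j p q, η i j * η p q = 0) :
    H.MemM (1 + η) ↔ H.InLie η := by rw [H.memM_one_add_dd η h, inLie_iff_dd]

theorem sq0_mem_G (η : Mat n A) (h : ∀ i j p q, η i j * η p q = 0) :
    sq0 η h ∈ H.G A ↔ H.InLie η := by rw [← H.memM_one_add_sq η h, ← memM_val, sq0_val]

theorem dualU_mem_G (ξ : Mat n A) : dualU ξ ∈ H.G (DualNumber A) ↔ H.InLie ξ := by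
  rw [← memM_val, dualU_val, InLie]

theorem mem_G_iff_inLie {J : Ideal A} (hJ : J * J = ⊥) (g : GL (Fin n) A)
    (h : ∀ i j, ((g : Mat n A) - 1) i j ∈ J) : g ∈ H.G A ↔ H.InLie ((g : Mat n A) - 1) := by
  rw [← H.memM_one_add_sq _ fun i j p q => mul_eq_zero_of_sq hJ (h i j) (h p q), add_sub_cancel,
    memM_val]

theorem InLie.exists_G {H : HS k n} {J : Ideal A} (hJ : J * J = ⊥) {ξ : Mat n A} (hξ : H.InLie ξ)
    (h : ∀ i j, ξ i j ∈ J) : ∃ g ∈ H.G A, (g : Mat n A) = 1 + ξ ∧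
      ((g⁻¹ : GL (Fin n) A) : Mat n A) = 1 - ξ :=
  ⟨sq0 ξ fun i j p q => mul_eq_zero_of_sq hJ (h i j) (h p q), (H.sq0_mem_G _ _).2 hξ, rfl, rfl⟩

/-- The Lie algebra over `A`. -/
def gA (A : Type u) [CommRing A] [Algebra k A] : Submodule A (Mat n A) where
  carrier := {ξ | H.InLie ξ}
  zero_mem' := (H.inLie_iff_dd _).2 fun b => by simp
  add_mem' := fun {x y} hx hy => (H.inLie_iff_dd _).2 fun b => by
    simp only [Matrix.add_apply, smul_add, Finset.sum_add_distrib]
    rw [(H.inLie_iff_dd _).1 hx b, (H.inLie_iff_dd _).1 hy b, add_zero]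
  smul_mem' := fun c {x} hx => (H.inLie_iff_dd _).2 fun b => by
    simp only [Matrix.smul_apply, smul_comm _ c, ← Finset.smul_sum]
    rw [(H.inLie_iff_dd _).1 hx b, smul_zero]

theorem mem_gA {ξ : Mat n A} : ξ ∈ H.gA A ↔ H.InLie ξ := Iff.rfl

theorem inLie_zero : H.InLie (0 : Mat n A) := (H.gA A).zero_mem

section
variable {H}

theorem InLie.add {x y : Mat n A} (hx : H.InLie x) (hy : H.InLie y) : H.InLie (x + y) :=
  (H.gA A).add_mem hx hy

theorem InLie.sub {x y : Mat n A} (hx : H.InLie x) (hy : H.InLie y) : H.InLie (x - y) :=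
  (H.gA A).sub_mem hx hy

theorem InLie.neg {x : Mat n A} (hx : H.InLie x) : H.InLie (-x) := (H.gA A).neg_mem hx

theorem InLie.smul (c : A) {x : Mat n A} (hx : H.InLie x) : H.InLie (c • x) :=
  (H.gA A).smul_mem c hx

theorem InLie.sum {ι : Type*} {s : Finset ι} {x : ι → Mat n A} (hx : ∀ i ∈ s, H.InLie (x i)) :
    H.InLie (∑ i ∈ s, x i) := (H.gA A).sum_mem hx

/-- The Lie algebra is stable under entrywise `k`-linear maps. -/
theorem InLie.map_lin (φ : A →ₗ[k] A') {ξ : Mat n A} (h : H.InLie ξ) : H.InLie (ξ.map φ) :=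
  (H.inLie_iff_dd _).2 fun b => by
    simp only [map_apply, ← map_smul, ← map_sum]
    rw [(H.inLie_iff_dd _).1 h b, map_zero]

theorem InLie.map (f : A →ₐ[k] A') {ξ : Mat n A} (h : H.InLie ξ) : H.InLie (ξ.map f) :=
  h.map_lin f.toLinearMap

end

theorem inLie_of_inj_lin (φ : A →ₗ[k] A') (hφ : Function.Injective φ) {ξ : Mat n A}
    (h : H.InLie (ξ.map φ)) : H.InLie ξ :=
  (H.inLie_iff_dd _).2 fun b => hφ (by
    have := (H.inLie_iff_dd _).1 h b
    simp only [map_apply, ← map_smul, ← map_sum] at this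
    rw [this, map_zero])

theorem inLie_of_inj (f : A →ₐ[k] A') (hf : Function.Injective f) {ξ : Mat n A}
    (h : H.InLie (ξ.map f)) : H.InLie ξ := H.inLie_of_inj_lin f.toLinearMap hf h

theorem inLie_iff_dual (ξ : Mat n A) : H.InLie ξ ↔ ∀ φ : A →ₗ[k] k, H.InLie (ξ.map φ) :=
  ⟨fun h φ => h.map_lin φ, fun h => (H.inLie_iff_dd _).2 fun b => eq_of_dual (k := k) fun φ => by
    have := (H.inLie_iff_dd _).1 (h φ) b
    simp only [map_apply, ← map_smul, ← map_sum] at this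
    rw [this, map_zero]⟩

theorem lie_eq : H.lie = H.gA k := Submodule.span_eq (H.gA k)

theorem mem_lie {ξ : Mat n k} : ξ ∈ H.lie ↔ H.InLie ξ := by rw [lie_eq, mem_gA]

theorem range_vec0 : LinearMap.range H.vec0 = H.lie := by
  rw [vec0, LinearMap.range_comp, LinearEquiv.range, Submodule.map_top, Submodule.range_subtype]

theorem vec_eqg (x : Fin H.N → A) : H.vec x = gvec H.vec0 A x := rfl

theorem crd_eqg (ξ : Mat n A) : H.crd ξ = gcrd H.crd0 A ξ := rfl

theorem crd_vec (x : Fin H.N → A) : H.crd (H.vec x) = x := gcrd_gvec _ _ H.crd0_vec0 x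

theorem vec_map_lin (φ : A →ₗ[k] A') (x : Fin H.N → A) :
    (H.vec x).map φ = H.vec fun l => φ (x l) := gvec_map _ φ x

theorem vec_map (f : A →ₐ[k] A') (x : Fin H.N → A) :
    (H.vec x).map f = H.vec fun l => f (x l) := gvec_map _ f.toLinearMap x

theorem crd_map_lin (φ : A →ₗ[k] A') (ξ : Mat n A) (l : Fin H.N) :
    H.crd (ξ.map φ) l = φ (H.crd ξ l) := gcrd_map _ φ ξ l

theorem crd_map (f : A →ₐ[k] A') (ξ : Mat n A) (l : Fin H.N) :
    H.crd (ξ.map f) l = f (H.crd ξ l) := gcrd_map _ f.toLinearMap ξ l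

theorem inLie_vec (x : Fin H.N → A) : H.InLie (H.vec x) :=
  (H.inLie_iff_dual _).2 fun φ => by
    rw [vec_map_lin, vec_eqg, gvec_base, ← mem_lie, ← range_vec0]
    exact ⟨_, rfl⟩

theorem InLie.vec_crd {H : HS k n} {ξ : Mat n A} (h : H.InLie ξ) : H.vec (H.crd ξ) = ξ :=
  gvec_gcrd _ _ H.crd0_vec0 ξ fun φ => by
    rw [range_vec0, mem_lie]
    exact h.map_lin φ

/-- BASE: the Lie algebra over `A` is spanned by the basis over `k`. -/
theorem inLie_iff (ξ : Mat n A) : H.InLie ξ ↔ ∃ x, H.vec x = ξ :=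
  ⟨fun h => ⟨_, h.vec_crd⟩, fun ⟨x, hx⟩ => hx ▸ H.inLie_vec x⟩

theorem InLie.eq_of_crd {H : HS k n} {ξ η : Mat n A} (h : H.InLie ξ) (h' : H.InLie η)
    (e : H.crd ξ = H.crd η) : ξ = η := by rw [← h.vec_crd, e, h'.vec_crd]

theorem vec_single (l : Fin H.N) : H.vec (Pi.single l (1 : A)) = H.bas A l := by
  rw [vec, Finset.sum_eq_single l]
  · rw [Pi.single_eq_same, one_smul]
  · intro m _ hm
    rw [Pi.single_eq_of_ne hm, zero_smul]
  · simp

theorem inLie_bas (l : Fin H.N) : H.InLie (H.bas A l) := by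
  rw [← vec_single]
  exact H.inLie_vec _

theorem crd_bas (l : Fin H.N) : H.crd (H.bas A l) = Pi.single l 1 := by
  rw [← vec_single, crd_vec]

theorem bas_map (f : A →ₐ[k] A') (l : Fin H.N) : (H.bas A l).map f = H.bas A' l :=
  Matrix.ext fun _ _ => f.commutes _

theorem vec_add (x y : Fin H.N → A) : H.vec (x + y) = H.vec x + H.vec y :=
  map_add (gvec H.vec0 A) x y

theorem vec_sub (x y : Fin H.N → A) : H.vec (x - y) = H.vec x - H.vec y :=
  map_sub (gvec H.vec0 A) x y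

theorem vec_smul (c : A) (x : Fin H.N → A) : H.vec (c • x) = c • H.vec x :=
  map_smul (gvec H.vec0 A) c x

theorem vec_zero : H.vec (0 : Fin H.N → A) = 0 := map_zero (gvec H.vec0 A)

theorem crd_add (x y : Mat n A) : H.crd (x + y) = H.crd x + H.crd y :=
  map_add (gcrd H.crd0 A) x y

theorem crd_sub (x y : Mat n A) : H.crd (x - y) = H.crd x - H.crd y :=
  map_sub (gcrd H.crd0 A) x y

theorem crd_smul (c : A) (x : Mat n A) : H.crd (c • x) = c • H.crd x :=
  map_smul (gcrd H.crd0 A) c x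

theorem crd_zero : H.crd (0 : Mat n A) = 0 := map_zero (gcrd H.crd0 A)

theorem crd_sum {ι : Type*} (s : Finset ι) (x : ι → Mat n A) :
    H.crd (∑ i ∈ s, x i) = ∑ i ∈ s, H.crd (x i) := map_sum (gcrd H.crd0 A) x s

theorem crd_mem (J : Ideal A) {ξ : Mat n A} (h : ∀ i j, ξ i j ∈ J) (l : Fin H.N) :
    H.crd ξ l ∈ J := gcrd_mem _ (J.restrictScalars k) ξ h l

theorem vec_mem (J : Ideal A) {x : Fin H.N → A} (h : ∀ l, x l ∈ J) (i j : Fin n) :
    H.vec x i j ∈ J := gvec_mem _ (J.restrictScalars k) x h i j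

/-- An element of the Lie algebra lifts along a surjection. -/
theorem InLie.lift {H : HS k n} (f : A →ₐ[k] A') (hf : Function.Surjective f) {ξ : Mat n A'}
    (h : H.InLie ξ) : ∃ η : Mat n A, H.InLie η ∧ η.map f = ξ := by
  choose s hs using hf
  refine ⟨H.vec fun l => s (H.crd ξ l), H.inLie_vec _, ?_⟩
  rw [vec_map]
  simp only [hs]
  exact h.vec_crd

/-- AD. -/
theorem InLie.conj {H : HS k n} {g : GL (Fin n) A} (hg : g ∈ H.G A) {ξ : Mat n A}
    (h : H.InLie ξ) : H.InLie ((g : Mat n A) * ξ * ((g⁻¹ : GL (Fin n) A) : Mat n A)) := by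
  have h1 := (H.memM_val.2 hg).map (TrivSqZeroExt.inlAlgHom k A A)
  have h2 := (H.memM_val.2 ((H.G A).inv_mem hg)).map (TrivSqZeroExt.inlAlgHom k A A)
  have h3 := (h1.mul h).mul h2
  rw [← dual_zero, ← dual_zero, dual_mul, dual_mul, mul_one, Units.mul_inv, mul_zero, zero_add,
    zero_mul, add_zero] at h3
  exact h3

theorem InLie.conj' {H : HS k n} {g : GL (Fin n) A} (hg : g ∈ H.G A) {ξ : Mat n A}
    (h : H.InLie ξ) : H.InLie (((g⁻¹ : GL (Fin n) A) : Mat n A) * ξ * (g : Mat n A)) :=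
  h.conj ((H.G A).inv_mem hg)

/-- The bracket. -/
theorem InLie.bracket {H : HS k n} {ξ η : Mat n A} (h : H.InLie ξ) (h' : H.InLie η) :
    H.InLie (ξ * η - η * ξ) := by
  have h1 := ((h'.map (TrivSqZeroExt.inlAlgHom k A A)).conj ((H.dualU_mem_G ξ).2 h)).map_lin
    ((TrivSqZeroExt.sndHom A A).restrictScalars k)
  rw [← dual_zero, dualU_val, dualU_inv_val, dual_mul, dual_mul] at h1
  have e : (dual (1 * η * 1) (1 * η * -ξ + (1 * 0 + ξ * η) * 1)).map
      ((TrivSqZeroExt.sndHom A A).restrictScalars k) = ξ * η - η * ξ := by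
    rw [one_mul, mul_one, mul_one, mul_zero, zero_add, mul_neg, neg_add_eq_sub]
    exact Matrix.ext fun i j => dual_snd _ _ i j
  rwa [e] at h1

/-- T2 for nilpotent ideals. -/
theorem t2_nil (J : Ideal A) (hJ : IsNilpotent J) (y y' : H.B →ₐ[k] A)
    (h : ∀ b, y b - y' b ∈ J) :
    ∃ g : GL (Fin n) A, (∀ i j, ((g : Mat n A) - 1) i j ∈ J) ∧ H.act g y = y' := by
  have key : ∀ m : ℕ, ∃ g : GL (Fin n) A, (∀ i j, ((g : Mat n A) - 1) i j ∈ J) ∧
      ∀ b, H.act g y b - y' b ∈ J ^ (m + 1) := by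
    intro m
    induction m with
    | zero => exact ⟨1, fun i j => by simp, fun b => by rw [H.act_one, zero_add, pow_one]; exact h b⟩
    | succ m ih =>
      obtain ⟨g, hg, hb⟩ := ih
      let q := Ideal.Quotient.mkₐ k (J ^ (m + 2))
      have hq : Function.Surjective q := Ideal.Quotient.mkₐ_surjective k _
      have hker : ∀ a, q a = 0 ↔ a ∈ J ^ (m + 2) := fun a => Ideal.Quotient.eq_zero_iff_mem
      have hsq : (J ^ (m + 1)).map q * (J ^ (m + 1)).map q = ⊥ := by
        rw [← Ideal.map_mul, ← pow_add, Ideal.map_eq_bot_iff_le_ker]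
        exact fun a ha => (hker a).2 (Ideal.pow_le_pow_right (by omega) ha)
      obtain ⟨p, hp, e⟩ := H.t2 _ hsq (q.comp (H.act g y)) (q.comp y') fun b => by
        rw [AlgHom.comp_apply, AlgHom.comp_apply, ← map_sub]
        exact Ideal.mem_map_of_mem _ (hb b)
      obtain ⟨M, hM⟩ := hJ
      obtain ⟨p0, rfl⟩ := gm_surj q hq (isUnit_of_nil_ker q hq fun a ha => ⟨M, by
        have := Ideal.pow_mem_pow (Ideal.pow_le_self (by omega) ((hker a).1 ha)) M
        rwa [hM, Ideal.zero_eq_bot, Ideal.mem_bot] at this⟩) p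
      have hp0 : ∀ i j, ((p0 : Mat n A) - 1) i j ∈ J := fun i j => by
        obtain ⟨a, ha, ea⟩ := (Ideal.mem_map_iff_of_surjective q hq).1 (hp i j)
        have e2 : q (((p0 : Mat n A) - 1) i j - a) = 0 := by
          rw [map_sub, ea, Matrix.sub_apply, Matrix.sub_apply, map_sub, gm_apply, one_apply,
            one_apply, apply_ite q, map_one, map_zero, sub_self]
        have := J.add_mem (Ideal.pow_le_self (by omega) ((hker _).1 e2))
          (Ideal.pow_le_self (by omega) ha)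
        rwa [sub_add_cancel] at this
      refine ⟨p0 * g, fun i j => ?_, fun b => ?_⟩
      · rw [show ((p0 * g : GL (Fin n) A) : Mat n A) - 1 =
          ((p0 : Mat n A) - 1) * g + ((g : Mat n A) - 1) by
            rw [Units.val_mul, sub_mul, one_mul, sub_add_sub_cancel], Matrix.add_apply, mul_apply]
        exact J.add_mem (J.sum_mem fun l _ => J.mul_mem_right _ (hp0 i l)) (hg i j)
      · rw [← H.act_nat] at e
        rw [← hker, map_sub, H.act_mul, sub_eq_zero]
        exact AlgHom.congr_fun e b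
  obtain ⟨M, hM⟩ := hJ
  obtain ⟨g, hg, hb⟩ := key M
  refine ⟨g, hg, AlgHom.ext fun b => sub_eq_zero.1 ?_⟩
  have := Ideal.pow_le_pow_right (Nat.le_succ M) (hb b)
  rwa [hM, Ideal.zero_eq_bot, Ideal.mem_bot] at this

theorem gm_eq_one_of_ker (f : A →ₐ[k] A') {p : GL (Fin n) A}
    (hp : ∀ i j, ((p : Mat n A) - 1) i j ∈ RingHom.ker f) : gm f p = 1 := by
  refine Units.ext (Matrix.ext fun i j => ?_)
  have := hp i j
  rw [RingHom.mem_ker, Matrix.sub_apply, map_sub, sub_eq_zero, one_apply, apply_ite f, map_one,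
    map_zero] at this
  rw [gm_apply, this, Units.val_one, one_apply]

/-- Lifting of transporters along a surjection with nilpotent kernel. -/
theorem act_lift (f : A →ₐ[k] A') (hf : Function.Surjective f) (hn : IsNilpotent (RingHom.ker f))
    (y y' : H.B →ₐ[k] A) (g : GL (Fin n) A') (hg : H.act g (f.comp y) = f.comp y') :
    ∃ g0 : GL (Fin n) A, H.act g0 y = y' ∧ gm f g0 = g := by
  obtain ⟨g1, rfl⟩ := gm_surj f hf (isUnit_of_nil_ker f hf fun a ha => by
    obtain ⟨M, hM⟩ := hn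
    have := Ideal.pow_mem_pow (show a ∈ RingHom.ker f from ha) M
    rw [hM, Ideal.zero_eq_bot, Ideal.mem_bot] at this
    exact ⟨M, this⟩) g
  rw [← H.act_nat] at hg
  obtain ⟨p, hp, e⟩ := H.t2_nil _ hn (H.act g1 y) y' fun b => by
    rw [RingHom.mem_ker, map_sub, sub_eq_zero]
    exact AlgHom.congr_fun hg b
  exact ⟨p * g1, by rw [H.act_mul, e], by rw [map_mul, gm_eq_one_of_ker f hp, one_mul]⟩

/-- GSM. -/
theorem gsm (f : A →ₐ[k] A') (hf : Function.Surjective f) (hn : IsNilpotent (RingHom.ker f))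
    {g : GL (Fin n) A'} (hg : g ∈ H.G A') : ∃ g0 ∈ H.G A, gm f g0 = g :=
  H.act_lift f hf hn (H.pt A) (H.pt A) g (by rw [pt_map]; exact hg)

/-- GSM for a quotient. -/
theorem gsm_quot (J : Ideal A) (hJ : IsNilpotent J) {g : GL (Fin n) (A ⧸ J)}
    (hg : g ∈ H.G (A ⧸ J)) : ∃ g0 ∈ H.G A, gm (Ideal.Quotient.mkₐ k J) g0 = g :=
  H.gsm _ (Ideal.Quotient.mkₐ_surjective k J) (by
    rwa [show RingHom.ker (Ideal.Quotient.mkₐ k J) = J from Ideal.mk_ker]) hg

end HS

section lin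

variable {n : ℕ} {A : Type u} [CommRing A]

theorem isLin_ad (X : Mat n A) : IsLinearMap A fun ξ : Mat n A => X * ξ - ξ * X :=
  ⟨fun a b => by rw [mul_add, add_mul]; abel,
    fun c a => by rw [Matrix.mul_smul, Matrix.smul_mul, smul_sub]⟩

theorem isLin_sandwich (P Q : Mat n A) : IsLinearMap A fun ξ : Mat n A => P * ξ * Q :=
  ⟨fun a b => by rw [mul_add, add_mul], fun c a => by rw [Matrix.mul_smul, Matrix.smul_mul]⟩

theorem isLin_pi0 {ι : Type} (S : Finset ι) (E : ι → Mat n A) : IsLinearMap A (pi0 S E) :=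
  ⟨fun a b => by simp only [pi0, mul_add, add_mul, Finset.sum_add_distrib],
    fun c a => by simp only [pi0, Matrix.mul_smul, Matrix.smul_mul, Finset.smul_sum]⟩

theorem isLin_add {φ ψ : Mat n A → Mat n A} (h : IsLinearMap A φ) (h' : IsLinearMap A ψ) :
    IsLinearMap A fun ξ => φ ξ + ψ ξ :=
  ⟨fun a b => by rw [h.map_add, h'.map_add]; abel,
    fun c a => by rw [h.map_smul, h'.map_smul, smul_add]⟩

theorem isLin_sub {φ ψ : Mat n A → Mat n A} (h : IsLinearMap A φ) (h' : IsLinearMap A ψ) :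
    IsLinearMap A fun ξ => φ ξ - ψ ξ :=
  ⟨fun a b => by rw [h.map_add, h'.map_add]; abel,
    fun c a => by rw [h.map_smul, h'.map_smul, smul_sub]⟩

theorem isLin_comp {φ ψ : Mat n A → Mat n A} (h : IsLinearMap A φ) (h' : IsLinearMap A ψ) :
    IsLinearMap A fun ξ => φ (ψ ξ) :=
  ⟨fun a b => by rw [h'.map_add, h.map_add], fun c a => by rw [h'.map_smul, h.map_smul]⟩

end lin

namespace HS

variable {k : Type u} [Field k] {n : ℕ} (H : HS k n) {A A' : Type u} [CommRing A] [Algebra k A]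
  [CommRing A'] [Algebra k A'] {φ ψ : Mat n A → Mat n A}

theorem crd_lin (hφ : IsLinearMap A φ) (x : Fin H.N → A) :
    H.crd (φ (H.vec x)) = H.opM φ *ᵥ x := by
  have e : φ (H.vec x) = ∑ j, x j • φ (H.bas A j) := by
    have := map_sum (hφ.mk' φ) (fun j => x j • H.bas A j) Finset.univ
    simp only [IsLinearMap.mk'_apply, map_smul] at this
    exact this
  funext l
  rw [e, crd_sum, Finset.sum_apply]
  refine Finset.sum_congr rfl fun j _ => ?_
  rw [crd_smul, Pi.smul_apply, smul_eq_mul, mul_comm]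
  rfl

theorem InLie.crd_lin {H : HS k n} (hφ : IsLinearMap A φ) {ξ : Mat n A} (h : H.InLie ξ) :
    H.crd (φ ξ) = H.opM φ *ᵥ H.crd ξ := by rw [← H.crd_lin hφ, h.vec_crd]

theorem inLie_of_bas (hφ : IsLinearMap A φ) (hb : ∀ l, H.InLie (φ (H.bas A l))) {ξ : Mat n A}
    (h : H.InLie ξ) : H.InLie (φ ξ) := by
  have e : φ (H.vec (H.crd ξ)) = ∑ j, H.crd ξ j • φ (H.bas A j) := by
    have := map_sum (hφ.mk' φ) (fun j => H.crd ξ j • H.bas A j) Finset.univ
    simp only [IsLinearMap.mk'_apply, map_smul] at this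
    exact this
  rw [← h.vec_crd, e]
  exact InLie.sum fun j _ => (hb j).smul _

theorem eq_of_bas (hφ : IsLinearMap A φ) (hψ : IsLinearMap A ψ)
    (hb : ∀ l, φ (H.bas A l) = ψ (H.bas A l)) {ξ : Mat n A} (h : H.InLie ξ) : φ ξ = ψ ξ := by
  have e := map_sum (hφ.mk' φ) (fun j => H.crd ξ j • H.bas A j) Finset.univ
  have e' := map_sum (hψ.mk' ψ) (fun j => H.crd ξ j • H.bas A j) Finset.univ
  simp only [IsLinearMap.mk'_apply, hφ.map_smul, hψ.map_smul, hb] at e e'
  rw [← h.vec_crd]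
  exact e.trans e'.symm

theorem opM_congr (h : ∀ ξ, H.InLie ξ → φ ξ = ψ ξ) : H.opM φ = H.opM ψ :=
  Matrix.ext fun l j => by
    show H.crd (φ _) l = H.crd (ψ _) l
    rw [h _ (H.inLie_bas j)]

theorem opM_id : H.opM (fun ξ : Mat n A => ξ) = 1 :=
  Matrix.ext fun l j => by
    show H.crd (H.bas A j) l = _
    rw [crd_bas, Pi.single_apply, one_apply]

theorem opM_add : H.opM (fun ξ => φ ξ + ψ ξ) = H.opM φ + H.opM ψ :=
  Matrix.ext fun l _ => congrFun (H.crd_add _ _) l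

theorem opM_sub : H.opM (fun ξ => φ ξ - ψ ξ) = H.opM φ - H.opM ψ :=
  Matrix.ext fun l _ => congrFun (H.crd_sub _ _) l

theorem opM_smul (c : A) : H.opM (fun ξ => c • φ ξ) = c • H.opM φ :=
  Matrix.ext fun l _ => congrFun (H.crd_smul _ _) l

theorem opM_comp (hφ : IsLinearMap A φ) (hψ : ∀ ξ, H.InLie ξ → H.InLie (ψ ξ)) :
    H.opM (fun ξ => φ (ψ ξ)) = H.opM φ * H.opM ψ :=
  Matrix.ext fun l j => congrFun ((hψ _ (H.inLie_bas j)).crd_lin hφ) l

theorem opM_map (f : A →ₐ[k] A') {φ' : Mat n A' → Mat n A'}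
    (h : ∀ ξ, H.InLie ξ → (φ ξ).map f = φ' (ξ.map f)) : (H.opM φ).map f = H.opM φ' :=
  Matrix.ext fun l j => by
    show f (H.crd (φ _) l) = H.crd (φ' _) l
    rw [← crd_map, h _ (H.inLie_bas j), bas_map]

theorem det_opM_map (f : A →ₐ[k] A') {φ' : Mat n A' → Mat n A'}
    (h : ∀ ξ, H.InLie ξ → (φ ξ).map f = φ' (ξ.map f)) : f (H.opM φ).det = (H.opM φ').det := by
  rw [AlgHom.map_det, ← H.opM_map f h]
  rfl

theorem charpoly_opM_map (f : A →ₐ[k] A') {φ' : Mat n A' → Mat n A'}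
    (h : ∀ ξ, H.InLie ξ → (φ ξ).map f = φ' (ξ.map f)) :
    (H.opM φ).charpoly.map (f : A →+* A') = (H.opM φ').charpoly := by
  rw [← Matrix.charpoly_map, ← H.opM_map f h]
  rfl

/-- The adjoint representation. -/
noncomputable def Ad (g : GL (Fin n) A) : Matrix (Fin H.N) (Fin H.N) A :=
  H.opM fun ξ => (g : Mat n A) * ξ * ((g⁻¹ : GL (Fin n) A) : Mat n A)

theorem Ad_one : H.Ad (1 : GL (Fin n) A) = 1 := by
  rw [← opM_id]
  exact H.opM_congr fun ξ _ => by simp

theorem Ad_mul (g : GL (Fin n) A) {g' : GL (Fin n) A} (hg' : g' ∈ H.G A) :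
    H.Ad (g * g') = H.Ad g * H.Ad g' := by
  rw [Ad, Ad, Ad, ← H.opM_comp (isLin_sandwich _ _) fun ξ h => h.conj hg']
  exact H.opM_congr fun ξ _ => by simp only [Units.val_mul, _root_.mul_inv_rev, mul_assoc]

theorem Ad_mul_inv {g : GL (Fin n) A} (hg : g ∈ H.G A) : H.Ad g * H.Ad g⁻¹ = 1 := by
  rw [← H.Ad_mul g ((H.G A).inv_mem hg), mul_inv_cancel, Ad_one]

theorem Ad_inv_mul {g : GL (Fin n) A} (hg : g ∈ H.G A) : H.Ad g⁻¹ * H.Ad g = 1 := by
  rw [← H.Ad_mul g⁻¹ hg, inv_mul_cancel, Ad_one]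

/-- Operators intertwined by conjugation have conjugate matrices. -/
theorem opM_conj {g : GL (Fin n) A} (hg : g ∈ H.G A) (hψ : IsLinearMap A ψ)
    (hφ : ∀ ξ, H.InLie ξ → H.InLie (φ ξ))
    (h : ∀ ξ, H.InLie ξ → ψ ((g : Mat n A) * ξ * ((g⁻¹ : GL (Fin n) A) : Mat n A)) =
      (g : Mat n A) * φ ξ * ((g⁻¹ : GL (Fin n) A) : Mat n A)) :
    H.opM ψ = H.Ad g * H.opM φ * H.Ad g⁻¹ := by
  have e : H.opM ψ * H.Ad g = H.Ad g * H.opM φ := by
    rw [Ad, ← H.opM_comp hψ fun ξ h => h.conj hg, ← H.opM_comp (isLin_sandwich _ _) hφ]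
    exact H.opM_congr h
  rw [← e, mul_assoc, H.Ad_mul_inv hg, mul_one]

theorem det_opM_conj {g : GL (Fin n) A} (hg : g ∈ H.G A) (hψ : IsLinearMap A ψ)
    (hφ : ∀ ξ, H.InLie ξ → H.InLie (φ ξ))
    (h : ∀ ξ, H.InLie ξ → ψ ((g : Mat n A) * ξ * ((g⁻¹ : GL (Fin n) A) : Mat n A)) =
      (g : Mat n A) * φ ξ * ((g⁻¹ : GL (Fin n) A) : Mat n A)) :
    (H.opM ψ).det = (H.opM φ).det := by
  rw [H.opM_conj hg hψ hφ h, det_mul, det_mul, mul_right_comm, ← det_mul, H.Ad_mul_inv hg, det_one,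
    one_mul]

theorem charpoly_opM_conj {g : GL (Fin n) A} (hg : g ∈ H.G A) (hψ : IsLinearMap A ψ)
    (hφ : ∀ ξ, H.InLie ξ → H.InLie (φ ξ))
    (h : ∀ ξ, H.InLie ξ → ψ ((g : Mat n A) * ξ * ((g⁻¹ : GL (Fin n) A) : Mat n A)) =
      (g : Mat n A) * φ ξ * ((g⁻¹ : GL (Fin n) A) : Mat n A)) :
    (H.opM ψ).charpoly = (H.opM φ).charpoly := by
  rw [H.opM_conj hg hψ hφ h, Matrix.charpoly_mul_comm, ← mul_assoc, H.Ad_inv_mul hg, one_mul]

/-- An operator with unit determinant is injective on the Lie algebra. -/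
theorem inj_of_det (hφ : IsLinearMap A φ) (hd : IsUnit (H.opM φ).det) {ξ : Mat n A}
    (h : H.InLie ξ) (h0 : φ ξ = 0) : ξ = 0 := by
  have e := h.crd_lin hφ
  rw [h0, crd_zero] at e
  have e2 : H.crd ξ = 0 := by
    rw [← one_mulVec (H.crd ξ), ← nonsing_inv_mul _ hd, ← mulVec_mulVec, ← e, mulVec_zero]
  rw [← h.vec_crd, e2, vec_zero]

/-- An operator with unit determinant is onto, with control of ideals. -/
theorem surj_of_det (hφ : IsLinearMap A φ) (hφ' : ∀ ξ, H.InLie ξ → H.InLie (φ ξ))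
    (hd : IsUnit (H.opM φ).det) {η : Mat n A} (h : H.InLie η) :
    ∃ ξ, H.InLie ξ ∧ φ ξ = η ∧ ∀ J : Ideal A, (∀ i j, η i j ∈ J) → ∀ i j, ξ i j ∈ J := by
  refine ⟨H.vec ((H.opM φ)⁻¹ *ᵥ H.crd η), H.inLie_vec _, ?_, fun J hJ => H.vec_mem J fun l => ?_⟩
  · refine (hφ' _ (H.inLie_vec _)).eq_of_crd h ?_
    rw [H.crd_lin hφ, mulVec_mulVec, mul_nonsing_inv _ hd, one_mulVec]
  · show ∑ j, (H.opM φ)⁻¹ l j * H.crd η j ∈ J
    exact J.sum_mem fun j _ => J.mul_mem_left _ (H.crd_mem J hJ j)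

theorem isUnit_det_of_surj (hφ : IsLinearMap A φ)
    (hs : ∀ η, H.InLie η → ∃ ξ, H.InLie ξ ∧ φ ξ = η) : IsUnit (H.opM φ).det := by
  rw [← isUnit_iff_isUnit_det, ← mulVec_surjective_iff_isUnit]
  intro x
  obtain ⟨ξ, h, e⟩ := hs _ (H.inLie_vec x)
  exact ⟨H.crd ξ, by rw [← h.crd_lin hφ, e, crd_vec]⟩

theorem det_ne_zero_of_inj [IsDomain A] (hφ : IsLinearMap A φ)
    (hφ' : ∀ ξ, H.InLie ξ → H.InLie (φ ξ)) (hi : ∀ ξ, H.InLie ξ → φ ξ = 0 → ξ = 0) :
    (H.opM φ).det ≠ 0 := by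
  intro h0
  obtain ⟨x, hx, e⟩ := Matrix.exists_mulVec_eq_zero_iff.2 h0
  apply hx
  rw [← H.crd_lin hφ] at e
  have e2 : φ (H.vec x) = 0 := by rw [← (hφ' _ (H.inLie_vec x)).vec_crd, e, vec_zero]
  rw [← H.crd_vec x, hi _ (H.inLie_vec x) e2, crd_zero]

end HS

end Pool.Agent.GR
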