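import Pool.Agent.P.MP_c1f06d_ag.r.Coact
import Pool.Agent.P.MP_c1f06d_ag.r.Inf
import Pool.Agent.P.MP_c1f06d_ag.H90

open Matrix Pool.Agent.P.MP_c1f06d_ag
open scoped TensorProduct

universe u

namespace Pool.Agent.GR

namespace AffQuot

variable {k : Type u} [Field k] {n : ℕ} {G H : AffQuot k n} {R : Type u} [CommRing R] [Algebra k R]
  {z : H.B →ₐ[k] R} {T T' : Type u} [CommRing T] [Algebra R T] [CommRing T'] [Algebra R T']

theorem twPt_map (f : T →ₐ[R] T') {g : GL (Fin n) T} (hg : G.TwPt H z g) :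
    G.TwPt H z (gm f g) := fun U _ _ φ γ hγ =>
  hg U (φ.comp (f : T →+* T')) γ fun b => by
    rw [hγ b, RingHom.comp_apply, RingHom.coe_coe, AlgHom.commutes]

theorem twPt_mul {g g' : GL (Fin n) T} (hg : G.TwPt H z g) (hg' : G.TwPt H z g') :
    G.TwPt H z (g * g') := fun U _ _ φ γ hγ => by
  have := (hg U φ γ hγ).mul (hg' U φ γ hγ)
  rwa [mul_assoc, mul_assoc, mul_assoc, mul_inv_cancel_left, ← mul_assoc, ← mul_assoc,
    mul_assoc γ⁻¹, ← map_mul] at this

theorem twPt_inv {g : GL (Fin n) T} (hg : G.TwPt H z g) : G.TwPt H z g⁻¹ := fun U _ _ φ γ hγ => by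
  have := (hg U φ γ hγ).inv
  rwa [_root_.mul_inv_rev, _root_.mul_inv_rev, inv_inv, ← mul_assoc, ← map_inv] at this

theorem twPt_iff_pt (hN : H.Normalizes G) [Algebra k T] (γ : GL (Fin n) T)
    (hγ : ∀ b : H.B, ev k γ b = algebraMap R T (z b)) (g : GL (Fin n) T) :
    G.TwPt H z g ↔ G.Pt (γ⁻¹ * g * γ) := by
  refine ⟨fun h => h T (RingHom.id T) γ hγ, fun h U _ _ φ γ' hγ' => ?_⟩
  let φA : T →ₐ[k] U := { φ with
    commutes' := fun c => by
      have e1 := hγ (algebraMap k H.B c)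
      have e2 := hγ' (algebraMap k H.B c)
      rw [← e1] at e2
      exact ((congrArg φ ((ev k γ).commutes c)).symm.trans e2.symm).trans ((ev k γ').commutes c) }
  have hh : H.Pt (γ'⁻¹ * gm φA γ) := (H.pt_iff _ _).2 fun b hb => by
    rw [← Co.map_ev, hγ ⟨b, hb⟩, hγ' ⟨b, hb⟩]
    rfl
  have := hN U _ _ hh (h.map φA)
  rw [map_mul, map_mul, map_inv] at this
  have e : γ'⁻¹ * gm φA γ * ((gm φA γ)⁻¹ * gm φA g * gm φA γ) * (γ'⁻¹ * gm φA γ)⁻¹ =
      γ'⁻¹ * gm φA g * γ' := by group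
  rw [e] at this
  exact this

theorem twPt_of_ff [Algebra T T'] [IsScalarTower R T T'] [Module.FaithfullyFlat T T']
    {g : GL (Fin n) T} (hg : G.TwPt H z (gm (IsScalarTower.toAlgHom R T T') g)) :
    G.TwPt H z g := by
  intro U _ _ φ γ hγ
  let : Algebra T U := φ.toAlgebra
  let iL : U →ₐ[k] U ⊗[T] T' := Algebra.TensorProduct.includeLeft
  have hi : Function.Injective iL := FaithfulSMul.algebraMap_injective U (U ⊗[T] T')
  have e : ∀ t : T, (1 : U) ⊗ₜ[T] algebraMap T T' t = iL (φ t) := fun t => by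
    rw [Algebra.algebraMap_eq_smul_one, TensorProduct.tmul_smul, TensorProduct.smul_tmul',
      ← Algebra.algebraMap_eq_smul_one]
    rfl
  have := hg (U ⊗[T] T') (Algebra.TensorProduct.includeRight (R := T) (A := U) (B := T') : T' →+* _)
    (gm iL γ) fun b => by
      rw [← Co.map_ev, hγ b, IsScalarTower.algebraMap_apply R T T']
      exact (e _).symm
  refine Pt.of_inj iL hi ?_
  rw [map_mul, map_mul, map_inv]
  have e2 : gm iL (GeneralLinearGroup.map φ g) = GeneralLinearGroup.map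
      (Algebra.TensorProduct.includeRight (R := T) (A := U) (B := T') : T' →+* _)
      (gm (IsScalarTower.toAlgHom R T T') g) :=
    Units.ext (Matrix.ext fun i j => (e _).symm)
  rw [e2]
  exact this

/-- A torsor over a local ring is given by an invertible matrix over a local cover. -/
theorem torsor_mat [IsLocalRing R] {E : Type u} [CommRing E] [Algebra R E]
    (hE : G.IsTorsor H z E) :
    ∃ (S : Type u) (_ : CommRing S) (_ : Algebra R S) (_ : Module.FaithfullyFlat R S)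
      (hh : GL (Fin n) S), ∀ (T U : Type u) [CommRing T] [Algebra R T] [CommRing U] [Algebra R U]
        [Algebra T U] [IsScalarTower R T U] [Module.FaithfullyFlat T U] (i : S →ₐ[R] U),
        Nonempty (E →ₐ[R] T) ↔ ∃ g : GL (Fin n) T,
          G.TwPt H z (gm (IsScalarTower.toAlgHom R T U) g * (gm i hh)⁻¹) := by
  obtain ⟨hff, act, hact, hnat⟩ := hE
  obtain ⟨q, hq, hqm⟩ : ∃ q : Ideal E, q.IsPrime ∧
      q.comap (algebraMap R E) = IsLocalRing.maximalIdeal R := by
    obtain ⟨q, hq⟩ := PrimeSpectrum.comap_surjective_of_faithfullyFlat (A := R) (B := E)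
      (IsLocalRing.closedPoint R)
    exact ⟨q.asIdeal, q.2, congrArg PrimeSpectrum.asIdeal hq⟩
  let S := Localization.AtPrime q
  have : Module.Flat R S := Module.Flat.trans R E S
  have : IsLocalHom (algebraMap R S) := ⟨fun a ha => by
    by_contra hu
    have h1 : a ∈ q.comap (algebraMap R E) := hqm ▸ hu
    rw [IsScalarTower.algebraMap_apply R E S, IsLocalization.AtPrime.isUnit_to_map_iff S q] at ha
    exact ha h1⟩
  have hS : Module.FaithfullyFlat R S := Module.FaithfullyFlat.of_flat_of_isLocalHom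
  let e0 : E →ₐ[R] S := IsScalarTower.toAlgHom R E S
  have ex : ∀ (T : Type u) [CommRing T] [Algebra R T] (a b : S →ₐ[R] T),
      ∃ g, act T g (a.comp e0) = b.comp e0 := fun T _ _ a b => ((hact T _).2.2 _).exists
  choose c hc using ex
  have uq : ∀ (T : Type u) [CommRing T] [Algebra R T] (e : E →ₐ[R] T) (g g'),
      act T g e = act T g' e → g = g' := fun T _ _ e g g' h =>
    ((hact T e).2.2 (act T g' e)).unique h rfl
  obtain ⟨h0, hu, hh0⟩ := h90 (R := R) (S := S) (fun T _ _ a b => ((c T a b).1 : Mat n T))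
    (fun T T' _ _ _ _ f a b => by
      have := uq T' ((f.comp a).comp e0) ⟨gm f (c T a b).1, twPt_map f (c T a b).2⟩
        (c T' (f.comp a) (f.comp b)) (by
          rw [hc, AlgHom.comp_assoc, ← hnat T T' f (c T a b) _ _ rfl, hc, AlgHom.comp_assoc])
      exact congrArg (fun g => (g.1 : Mat n T')) this)
    (fun T _ _ a => by
      have h1 : G.TwPt H z (1 : GL (Fin n) T) := by
        have := twPt_mul (c T a a).2 (twPt_inv (c T a a).2)
        rwa [mul_inv_cancel] at this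
      have := uq T (a.comp e0) (c T a a) ⟨1, h1⟩ (by rw [hc, (hact T _).1 _ rfl])
      exact congrArg (fun g => (g.1 : Mat n T)) this)
    (fun T _ _ a b d => by
      have := uq T (a.comp e0) ⟨_, twPt_mul (c T b d).2 (c T a b).2⟩ (c T a d) (by
        rw [(hact T _).2.1 (c T b d) (c T a b) _ rfl, hc, hc, hc])
      exact congrArg (fun g => (g.1 : Mat n T)) this)
  let hh : GL (Fin n) S := GeneralLinearGroup.mk'' h0 hu
  have hcoc : ∀ (T : Type u) [CommRing T] [Algebra R T] (a b : S →ₐ[R] T),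
      (c T a b).1 * gm a hh = gm b hh := fun T _ _ a b => Units.ext (hh0 T a b)
  refine ⟨S, inferInstance, inferInstance, hS, hh, fun T U _ _ _ _ _ _ _ i => ?_⟩
  set j := IsScalarTower.toAlgHom R T U with hj
  have hji : Function.Injective j := FaithfulSMul.algebraMap_injective T U
  let p1 : U →ₐ[R] U ⊗[T] U := Algebra.TensorProduct.includeLeft
  let p2 : U →ₐ[R] U ⊗[T] U :=
    (Algebra.TensorProduct.includeRight (R := T) (A := U) (B := U)).restrictScalars R
  have hp : p1.comp j = p2.comp j := AlgHom.ext fun t => by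
    show algebraMap T U t ⊗ₜ[T] (1 : U) = (1 : U) ⊗ₜ[T] algebraMap T U t
    rw [Algebra.algebraMap_eq_smul_one, TensorProduct.smul_tmul]
  have desc : ∀ x : U, p1 x = p2 x → x ∈ j.range := fun x hx =>
    mem_range_of_includeLeft_eq (R := T) x hx
  have key : ∀ a : {g : GL (Fin n) U // G.TwPt H z g},
      p1.comp (act U a (i.comp e0)) = p2.comp (act U a (i.comp e0)) ↔
        gm p1 (a.1 * gm i hh) = gm p2 (a.1 * gm i hh) := by
    intro a
    rw [hnat U _ p1 a ⟨gm p1 a.1, twPt_map p1 a.2⟩ _ rfl,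
      hnat U _ p2 a ⟨gm p2 a.1, twPt_map p2 a.2⟩ _ rfl, ← AlgHom.comp_assoc, ← AlgHom.comp_assoc,
      ← hc _ (p1.comp i) (p2.comp i),
      ← (hact _ _).2.1 ⟨gm p2 a.1, twPt_map p2 a.2⟩ (c _ (p1.comp i) (p2.comp i))
        ⟨_, twPt_mul (twPt_map p2 a.2) (c _ (p1.comp i) (p2.comp i)).2⟩ rfl,
      map_mul, map_mul, gm_comp, gm_comp, ← hcoc _ (p1.comp i) (p2.comp i), ← mul_assoc,
      mul_left_inj]
    exact ⟨fun h => congrArg Subtype.val (uq _ _ _ _ h),
      fun h => congrArg (fun g => act _ g _) (Subtype.ext h)⟩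
  constructor
  · rintro ⟨e⟩
    obtain ⟨a, ha⟩ := ((hact U (i.comp e0)).2.2 (j.comp e)).exists
    have h1 := (key a).1 (by rw [ha, ← AlgHom.comp_assoc, ← AlgHom.comp_assoc, hp])
    have h2 : gm p1 (a.1 * gm i hh)⁻¹ = gm p2 (a.1 * gm i hh)⁻¹ := by rw [map_inv, map_inv, h1]
    obtain ⟨g, hg⟩ := exists_gm_of_range j hji (a.1 * gm i hh)
      (fun s t => desc _ (congrArg (fun g : GL (Fin n) (U ⊗[T] U) => g.1 s t) h1))
      fun s t => desc _ (congrArg (fun g : GL (Fin n) (U ⊗[T] U) => g.1 s t) h2)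
    refine ⟨g, ?_⟩
    rw [hg, mul_inv_cancel_right]
    exact a.2
  · rintro ⟨g, hg⟩
    have h1 := (key ⟨_, hg⟩).2 (by rw [inv_mul_cancel_right, gm_comp, gm_comp, hp])
    exact ⟨(AlgEquiv.ofInjective j hji).symm.toAlgHom.comp
      ((act U ⟨_, hg⟩ (i.comp e0)).codRestrict j.range fun x =>
        desc _ (DFunLike.congr_fun h1 x))⟩

/-- The frame: a torsor and its group are cut out by two points of `GL_n / G` over a cover. -/
theorem frame (hN : H.Normalizes G) [IsLocalRing R] {E : Type u} [CommRing E] [Algebra R E]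
    (hE : G.IsTorsor H z E) :
    ∃ (S : Type u) (_ : CommRing S) (_ : Algebra R S) (_ : Algebra k S) (_ : IsScalarTower k R S)
      (_ : Module.FaithfullyFlat R S) (x1 x2 : G.toHS.B →ₐ[k] S),
      ∀ (T : Type u) [CommRing T] [Algebra R T],
        (Nonempty (E →ₐ[R] T) ↔ ∃ g : GL (Fin n) T,
          G.toHS.act (gm (Algebra.TensorProduct.includeRight : T →ₐ[R] S ⊗[R] T) g)
            ((Algebra.TensorProduct.includeLeft : S →ₐ[k] S ⊗[R] T).comp x1) =
            (Algebra.TensorProduct.includeLeft : S →ₐ[k] S ⊗[R] T).comp x2) ∧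
        ∀ g : GL (Fin n) T, G.TwPt H z g ↔
          G.toHS.act (gm (Algebra.TensorProduct.includeRight : T →ₐ[R] S ⊗[R] T) g)
            ((Algebra.TensorProduct.includeLeft : S →ₐ[k] S ⊗[R] T).comp x2) =
            (Algebra.TensorProduct.includeLeft : S →ₐ[k] S ⊗[R] T).comp x2 := by
  obtain ⟨S0, _, _, _, hh, hS0⟩ := torsor_mat hE
  obtain ⟨A, _, _, _, _, _, -, γ, hγ⟩ := H.exists_cover z
  have hff : Module.FaithfullyFlat R (A ⊗[R] S0) := Module.FaithfullyFlat.trans R A _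
  let a1 : A →ₐ[k] A ⊗[R] S0 := Algebra.TensorProduct.includeLeft
  let a2 : S0 →ₐ[R] A ⊗[R] S0 := Algebra.TensorProduct.includeRight
  refine ⟨A ⊗[R] S0, inferInstance, inferInstance, inferInstance, inferInstance, hff,
    G.inv.res ((gm a2 hh)⁻¹ * gm a1 γ), G.inv.res (gm a1 γ), fun T _ _ => ?_⟩
  let : Algebra T ((A ⊗[R] S0) ⊗[R] T) := Algebra.TensorProduct.rightAlgebra
  have : Module.FaithfullyFlat T ((A ⊗[R] S0) ⊗[R] T) := Module.FaithfullyFlat.of_linearEquiv _ _
    (Algebra.TensorProduct.commRight R T (A ⊗[R] S0)).symm.toLinearEquiv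
  set iL : A ⊗[R] S0 →ₐ[k] (A ⊗[R] S0) ⊗[R] T := Algebra.TensorProduct.includeLeft with hiL
  let iL' : A ⊗[R] S0 →ₐ[R] (A ⊗[R] S0) ⊗[R] T := Algebra.TensorProduct.includeLeft
  have eR : (Algebra.TensorProduct.includeRight : T →ₐ[R] (A ⊗[R] S0) ⊗[R] T) =
      IsScalarTower.toAlgHom R T _ := rfl
  have hγ' : ∀ b : H.B, ev k (gm iL (gm a1 γ)) b = algebraMap R _ (z b) := fun b => by
    rw [← Co.map_ev, ← Co.map_ev]
    exact congrArg (fun x => iL (a1 x)) (DFunLike.congr_fun hγ b)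
  have key : ∀ g : GL (Fin n) ((A ⊗[R] S0) ⊗[R] T), G.TwPt H z g ↔
      G.inv.res (g * gm iL (gm a1 γ)) = G.inv.res (gm iL (gm a1 γ)) := fun g => by
    rw [twPt_iff_pt hN _ hγ', eq_comm, res_eq_iff, mul_assoc]
  constructor
  · rw [hS0 T ((A ⊗[R] S0) ⊗[R] T) (iL'.comp a2)]
    refine exists_congr fun g => ?_
    rw [key, G.inv.comp_res, G.inv.comp_res, toHS_act_res, map_mul, map_inv, mul_assoc]
    rfl
  · intro g
    rw [G.inv.comp_res, toHS_act_res, ← key]
    exact ⟨twPt_map _, twPt_of_ff⟩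

end AffQuot

end Pool.Agent.GR
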