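import Pool.Agent.P.MP_c1f06d_ag.r.TInf

open Matrix

universe u

namespace Pool.Agent.GR

variable {k : Type u} [Field k] {n r : ℕ} {H : HS k n} {A : Type u} [CommRing A] [Algebra k A]
  {A' : Type u} [CommRing A'] [Algebra k A'] {χ : Fin n → Fin r → ℤ}
  {e : (Fin r → ℤ) → Mat n A} {X : Mat n A}

/-! Basic facts on tori and cocharacters given by idempotents. -/

theorem mapM_sum {ι : Type*} (f : A →ₐ[k] A') (s : Finset ι) (Y : ι → Mat n A) :
    (∑ i ∈ s, Y i).map f = ∑ i ∈ s, (Y i).map f := map_sum f.mapMatrix Y s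

theorem mapM_smul (f : A →ₐ[k] A') (c : A) (Y : Mat n A) : (c • Y).map f = f c • Y.map f :=
  Matrix.ext fun _ _ => map_mul f _ _

theorem mapM_one (f : A →ₐ[k] A') : (1 : Mat n A).map f = 1 :=
  Matrix.map_one _ (map_zero f) (map_one f)

theorem mapM_zero (f : A →ₐ[k] A') : (0 : Mat n A).map f = 0 := Matrix.map_zero _ (map_zero f)

theorem eps_map {ι : Type} [DecidableEq ι] (f : A →ₐ[k] A') (c : Fin n → ι) (δ : ι) :
    (eps A c δ).map f = eps A' c δ := by
  rw [eps, eps, diagonal_map (map_zero f)]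
  simp only [apply_ite f, map_one, map_zero]

theorem Idem.mul_sum {ι : Type} {S : Finset ι} {E : ι → Mat n A} (h : Idem S E) (c : ι → A)
    {a : ι} (ha : a ∈ S) : E a * ∑ b ∈ S, c b • E b = c a • E a := by
  rw [Finset.mul_sum, Finset.sum_eq_single_of_mem a ha, Matrix.mul_smul, h.1 a ha]
  intro b hb hne
  rw [Matrix.mul_smul, h.2.1 a ha b hb hne.symm, smul_zero]

theorem Idem.sum_mul {ι : Type} {S : Finset ι} {E : ι → Mat n A} (h : Idem S E) (c : ι → A)
    {a : ι} (ha : a ∈ S) : (∑ b ∈ S, c b • E b) * E a = c a • E a := by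
  rw [Finset.sum_mul, Finset.sum_eq_single_of_mem a ha, Matrix.smul_mul, h.1 a ha]
  intro b hb hne
  rw [Matrix.smul_mul, h.2.1 b hb a ha hne, smul_zero]

theorem Idem.sum_mul_sum {ι : Type} {S : Finset ι} {E : ι → Mat n A} (h : Idem S E)
    (c d : ι → A) :
    (∑ a ∈ S, c a • E a) * ∑ b ∈ S, d b • E b = ∑ a ∈ S, (c a * d a) • E a := by
  rw [Finset.sum_mul]
  refine Finset.sum_congr rfl fun a ha => ?_
  rw [Matrix.smul_mul, h.mul_sum d ha, smul_smul]

theorem Idem.cj {ι : Type} {S : Finset ι} {E : ι → Mat n A} (h : Idem S E) (g : GL (Fin n) A) :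
    Idem S fun a => cj g (E a) :=
  ⟨fun a ha => by rw [← cj_mul, h.1 a ha], fun a ha b hb hne => by
    rw [← cj_mul, h.2.1 a ha b hb hne, cj_zero], by rw [← cj_sum, h.2.2, cj_one]⟩

theorem mem_XX (χ : Fin n → Fin r → ℤ) (i : Fin n) : χ i ∈ XX χ :=
  Finset.mem_image_of_mem _ (Finset.mem_univ i)

theorem exists_of_mem_XX {x : Fin r → ℤ} (hx : x ∈ XX χ) : ∃ i, χ i = x := by
  obtain ⟨i, -, hi⟩ := Finset.mem_image.1 hx
  exact ⟨i, hi⟩

theorem add_ext_XX' {M : Type*} [AddCommGroup M] (hs : Submodule.span ℤ (Set.range χ) = ⊤)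
    {a a' : (Fin r → ℤ) →+ M} (h : ∀ x ∈ XX χ, a x = a' x) : a = a' :=
  AddMonoidHom.toIntLinearMap_injective (LinearMap.ext_on_range hs fun i => h _ (mem_XX χ i))

/-- The pairing as an additive map. -/
def pairA (c : Fin r → A) : (Fin r → ℤ) →+ A where
  toFun x := pair x c
  map_zero' := by simp [pair]
  map_add' x y := by simp only [pair, Pi.add_apply, Int.cast_add, add_mul, Finset.sum_add_distrib]

theorem pair_single (j : Fin r) (c : Fin r → A) : pair (Pi.single j 1) c = c j := by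
  rw [pair, Finset.sum_eq_single j]
  · simp
  · intro i _ hi
    rw [Pi.single_eq_of_ne hi, Int.cast_zero, zero_mul]
  · simp

theorem pair_map (f : A →ₐ[k] A') (x : Fin r → ℤ) (c : Fin r → A) :
    f (pair x c) = pair x fun j => f (c j) := by
  simp only [pair, map_sum, map_mul, map_intCast]

theorem tt_add (c c' : Fin r → A) : tt χ e (c + c') = tt χ e c + tt χ e c' := by
  simp only [tt, pair, Pi.add_apply, mul_add, Finset.sum_add_distrib, add_smul]

theorem tt_smul (a : A) (c : Fin r → A) : tt χ e (a • c) = a • tt χ e c := by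
  simp only [tt, pair, Pi.smul_apply, smul_eq_mul, Finset.smul_sum, smul_smul, Finset.mul_sum,
    mul_left_comm]

theorem tt_zero : tt χ e 0 = 0 := by simp [tt, pair]

theorem tt_sum {ι : Type*} (s : Finset ι) (c : ι → Fin r → A) :
    tt χ e (∑ i ∈ s, c i) = ∑ i ∈ s, tt χ e (c i) := by
  classical
  induction s using Finset.induction_on with
  | empty => rw [Finset.sum_empty, Finset.sum_empty, tt_zero]
  | insert a s ha ih => rw [Finset.sum_insert ha, Finset.sum_insert ha, tt_add, ih]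

theorem tt_cj (g : GL (Fin n) A) (c : Fin r → A) :
    cj g (tt χ e c) = tt χ (fun x => cj g (e x)) c := by
  simp only [tt, cj_sum, cj_smul]

theorem pi0_cj {ι : Type} (S : Finset ι) (E : ι → Mat n A) (g : GL (Fin n) A) (ξ : Mat n A) :
    cj g (pi0 S E ξ) = pi0 S (fun a => cj g (E a)) (cj g ξ) := by
  simp only [pi0, cj_sum, cj_mul]

theorem charpoly_cj (g : GL (Fin n) A) (Y : Mat n A) : (cj g Y).charpoly = Y.charpoly := by
  rw [cj, Matrix.charpoly_mul_comm, ← mul_assoc, Units.inv_mul, one_mul]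

section ga

variable {Γ : Type} [AddCommGroup Γ]

theorem uu_val (δ : Γ) : ((uu A δ : (GA A Γ)ˣ) : GA A Γ) = AddMonoidAlgebra.single δ 1 := rfl

theorem uu_zero : uu A (0 : Γ) = 1 := Units.ext rfl

theorem uu_add (δ δ' : Γ) : uu A (δ + δ') = uu A δ * uu A δ' :=
  Units.ext (by rw [Units.val_mul, uu_val, uu_val, uu_val, AddMonoidAlgebra.single_mul_single,
    mul_one])

theorem uu_neg (δ : Γ) : uu A (-δ) = (uu A δ)⁻¹ := Units.ext rfl

theorem tmat_map (f : A →ₐ[k] A') (S : Finset Γ) (E : Γ → Mat n A) :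
    (tmat S E).map (AddMonoidAlgebra.mapAlgHom Γ f) = tmat S fun a => (E a).map f := by
  rw [tmat, tmat, mapM_sum]
  refine Finset.sum_congr rfl fun a _ => ?_
  rw [mapM_smul, uu_val, uu_val, AddMonoidAlgebra.mapAlgHom_single, map_one]
  refine congrArg _ (Matrix.ext fun i j => ?_)
  exact AddMonoidAlgebra.mapAlgHom_single f 0 _

theorem tmat_cj (g : GL (Fin n) A) (S : Finset Γ) (E : Γ → Mat n A) :
    cj (gm (IsScalarTower.toAlgHom k A (GA A Γ)) g) (tmat S E) = tmat S fun a => cj g (E a) := by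
  rw [tmat, tmat, cj_sum]
  refine Finset.sum_congr rfl fun a _ => ?_
  rw [cj_smul]
  exact congrArg _ (cj_map (IsScalarTower.toAlgHom k A (GA A Γ)) g (E a)).symm

/-- The coefficient of degree `δ`. -/
noncomputable def coefL (k : Type u) [Field k] (A : Type u) [CommRing A] [Algebra k A] (δ : Γ) :
    GA A Γ →ₗ[k] A where
  toFun p := p.coeff δ
  map_add' p q := by simp
  map_smul' c p := by simp

theorem coefL_uu (δ δ' : Γ) [Decidable (δ' = δ)] (a : A) :
    coefL k A δ (((uu A δ' : (GA A Γ)ˣ) : GA A Γ) * algebraMap A (GA A Γ) a) =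
      if δ' = δ then a else 0 := by
  show (AddMonoidAlgebra.single δ' 1 * AddMonoidAlgebra.single 0 a : GA A Γ).coeff δ = _
  rw [AddMonoidAlgebra.single_mul_single, add_zero, one_mul, AddMonoidAlgebra.coeff_single,
    Finsupp.single_apply]

theorem tmat_inv {S : Finset Γ} {E : Γ → Mat n A} (h : Idem S E) {g : GL (Fin n) (GA A Γ)}
    (hg : (g : Mat n (GA A Γ)) = tmat S E) :
    ((g⁻¹ : GL (Fin n) (GA A Γ)) : Mat n (GA A Γ)) =
      ∑ δ ∈ S, ((uu A (-δ) : (GA A Γ)ˣ) : GA A Γ) • (E δ).map (algebraMap A (GA A Γ)) := by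
  have h' : Idem S fun a => (E a).map (algebraMap A (GA A Γ)) :=
    ⟨fun a ha => by rw [← Matrix.map_mul, h.1 a ha], fun a ha b hb hne => by
      rw [← Matrix.map_mul, h.2.1 a ha b hb hne, Matrix.map_zero _ (map_zero _)], by
      rw [← Matrix.map_one (algebraMap A (GA A Γ)) (map_zero _) (map_one _), ← h.2.2]
      exact (map_sum (algebraMap A (GA A Γ)).mapMatrix E S).symm⟩
  refine Units.inv_eq_of_mul_eq_one_right ?_
  rw [hg, tmat, h'.sum_mul_sum, ← h'.2.2]
  refine Finset.sum_congr rfl fun a _ => ?_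
  rw [uu_neg, Units.mul_inv, one_smul]

/-- The degree zero part of the adjoint action of the universal point. -/
theorem cj_tmat_coef {S : Finset Γ} {E : Γ → Mat n A} (h : Idem S E) {g : GL (Fin n) (GA A Γ)}
    (hg : (g : Mat n (GA A Γ)) = tmat S E) (Y : Mat n A) :
    (cj g (Y.map (algebraMap A (GA A Γ)))).map (coefL k A 0) = pi0 S E Y := by
  classical
  have e : cj g (Y.map (algebraMap A (GA A Γ))) = ∑ a ∈ S, ∑ b ∈ S,
      ((uu A (a - b) : (GA A Γ)ˣ) : GA A Γ) • (E a * Y * E b).map (algebraMap A (GA A Γ)) := by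
    rw [cj, tmat_inv h hg, hg, tmat, Finset.sum_mul, Finset.sum_mul]
    refine Finset.sum_congr rfl fun a _ => ?_
    rw [Finset.mul_sum]
    refine Finset.sum_congr rfl fun b _ => ?_
    rw [Matrix.smul_mul, Matrix.smul_mul, Matrix.mul_smul, smul_smul, ← Units.val_mul, ← uu_add,
      ← sub_eq_add_neg, Matrix.map_mul, Matrix.map_mul]
  rw [e, pi0]
  ext i j
  simp only [map_apply, Matrix.sum_apply, map_sum, Matrix.smul_apply, smul_eq_mul, coefL_uu,
    sub_eq_zero]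
  exact Finset.sum_congr rfl fun a ha => by rw [Finset.sum_ite_eq, if_pos ha]

theorem map_algebraMap_coef (Y : Mat n A) :
    (Y.map (algebraMap A (GA A Γ))).map (coefL k A (0 : Γ)) = Y := by
  classical
  ext i j
  have := coefL_uu (k := k) (0 : Γ) 0 (Y i j)
  rwa [uu_zero, Units.val_one, one_mul, if_pos rfl] at this

end ga

theorem Idem.mapM {ι : Type} {S : Finset ι} {E : ι → Mat n A} (h : Idem S E) (f : A →ₐ[k] A') :
    Idem S fun a => (E a).map f :=
  ⟨fun a ha => by rw [← mapM_mul, h.1 a ha], fun a ha b hb hne => by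
    rw [← mapM_mul, h.2.1 a ha b hb hne, mapM_zero], by rw [← mapM_sum, h.2.2, mapM_one]⟩

theorem mem_OR (hs : Submodule.span ℤ (Set.range χ) = ⊤) (S : Finset ℤ)
    (a : (Fin r → ℤ) →+ ℤ) : a ∈ OR χ S ↔ ∀ x ∈ XX χ, a x ∈ S := by
  have hf : {a : (Fin r → ℤ) →+ ℤ | ∀ x ∈ XX χ, a x ∈ S}.Finite := by
    refine Set.Finite.of_finite_image (f := fun a (x : XX χ) => a x)
      ((Set.Finite.pi' fun _ : XX χ => S.finite_toSet).subset ?_) fun a _ a' _ h => ?_
    · rintro _ ⟨a, ha, rfl⟩ x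
      exact ha x x.2
    · exact add_ext_XX' hs fun x hx => congrFun h ⟨x, hx⟩
  rw [OR, dif_pos hf, Set.Finite.mem_toFinset]
  rfl

theorem add_ext_XX (hs : Submodule.span ℤ (Set.range χ) = ⊤) {a a' : (Fin r → ℤ) →+ ℤ}
    (h : ∀ x ∈ XX χ, a x = a' x) : a = a' :=
  add_ext_XX' hs h

/-- an additive map that is injective on a finite set -/
theorem exists_add_injOn (S : Finset (Fin r → ℤ)) :
    ∃ μ : (Fin r → ℤ) →+ ℤ, Set.InjOn μ S := by
  classical
  let L : (Fin r → ℤ) → MvPolynomial (Fin r) ℤ := fun d => ∑ j, MvPolynomial.C (d j) * .X j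
  have hL : ∀ d v, MvPolynomial.eval v (L d) = pair d v := fun d v => by simp [L, pair]
  have hne : ∏ p ∈ S.offDiag, L (p.1 - p.2) ≠ 0 := by
    refine Finset.prod_ne_zero_iff.2 fun p hp h0 => (Finset.mem_offDiag.1 hp).2.2 ?_
    funext j
    have := hL (p.1 - p.2) (Pi.single j 1)
    rw [h0, map_zero, pair, Finset.sum_eq_single j] at this
    · rw [Pi.single_eq_same, mul_one] at this
      exact sub_eq_zero.1 this.symm
    · intro i _ hi
      rw [Pi.single_eq_of_ne hi, mul_zero]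
    · simp
  obtain ⟨v, hv⟩ : ∃ v, MvPolynomial.eval v (∏ p ∈ S.offDiag, L (p.1 - p.2)) ≠ 0 := by
    by_contra hc
    exact hne (MvPolynomial.funext fun v => by
      rw [map_zero]
      exact not_not.1 fun h => hc ⟨v, h⟩)
  refine ⟨pairA v, fun x hx y hy h => by_contra fun hxy => ?_⟩
  rw [map_prod, Finset.prod_ne_zero_iff] at hv
  refine hv (x, y) (Finset.mem_offDiag.2 ⟨hx, hy, hxy⟩) ?_
  rw [hL]
  exact (map_sub (pairA v) x y).trans (sub_eq_zero.2 h)

theorem tt_map (f : A →ₐ[k] A') (h : Fin r → A) :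
    (tt χ e h).map f = tt χ (fun x => (e x).map f) fun j => f (h j) := by
  simp only [tt, mapM_sum, mapM_smul, pair_map]

theorem lamE_map (f : A →ₐ[k] A') (a : (Fin r → ℤ) → ℤ) (m : ℤ) :
    (lamE χ e a m).map f = lamE χ (fun x => (e x).map f) a m :=
  mapM_sum f _ _

theorem pi0_map {ι : Type} (S : Finset ι) (E : ι → Mat n A) (f : A →ₐ[k] A') (ξ : Mat n A) :
    (pi0 S E ξ).map f = pi0 S (fun a => (E a).map f) (ξ.map f) := by
  simp only [pi0, mapM_sum, mapM_mul]

theorem Idem.pi0_comm {ι : Type} {S : Finset ι} {E : ι → Mat n A} (h : Idem S E) (ξ : Mat n A) :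
    ∀ a ∈ S, pi0 S E ξ * E a = E a * pi0 S E ξ := by
  intro a ha
  rw [pi0, Finset.sum_mul, Finset.mul_sum, Finset.sum_eq_single_of_mem a ha,
    Finset.sum_eq_single_of_mem a ha]
  · rw [mul_assoc, h.1 a ha, ← mul_assoc, ← mul_assoc, h.1 a ha]
  · intro b hb hne
    rw [← mul_assoc, ← mul_assoc, h.2.1 a ha b hb hne.symm, zero_mul, zero_mul]
  · intro b hb hne
    rw [mul_assoc, h.2.1 b hb a ha hne, mul_zero]

theorem Idem.pi0_eq {ι : Type} {S : Finset ι} {E : ι → Mat n A} (h : Idem S E) {ξ : Mat n A}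
    (hξ : ∀ a ∈ S, ξ * E a = E a * ξ) : pi0 S E ξ = ξ := by
  conv_rhs => rw [← mul_one ξ, ← h.2.2, Finset.mul_sum]
  exact Finset.sum_congr rfl fun a ha => by rw [← hξ a ha, mul_assoc, h.1 a ha]

theorem pi0_brk {ι : Type} {S : Finset ι} {E : ι → Mat n A}
    (hX : ∀ a ∈ S, X * E a = E a * X) (ξ : Mat n A) :
    pi0 S E (brk X ξ) = brk X (pi0 S E ξ) := by
  rw [brk, brk, pi0, pi0, Finset.mul_sum, Finset.sum_mul, ← Finset.sum_sub_distrib]
  refine Finset.sum_congr rfl fun a ha => ?_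
  have e1 : E a * (X * ξ) * E a = X * (E a * ξ * E a) := by
    rw [← mul_assoc (E a) X, ← hX a ha]
    simp only [mul_assoc]
  have e2 : E a * (ξ * X) * E a = E a * ξ * E a * X := by
    rw [mul_assoc (E a * ξ), ← hX a ha]
    simp only [mul_assoc]
  rw [mul_sub, sub_mul, e1, e2]

theorem Idem.tt_comm (h : Idem (XX χ) e) (c : Fin r → A) :
    ∀ x ∈ XX χ, tt χ e c * e x = e x * tt χ e c :=
  fun _ hx => (h.sum_mul (fun x => pair x c) hx).trans (h.mul_sum (fun x => pair x c) hx).symm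

theorem brk_tt (hX : ∀ x ∈ XX χ, X * e x = e x * X) (c : Fin r → A) :
    brk X (tt χ e c) = 0 := by
  rw [brk, tt, Finset.mul_sum, Finset.sum_mul, sub_eq_zero]
  exact Finset.sum_congr rfl fun x hx => by rw [Matrix.mul_smul, Matrix.smul_mul, hX x hx]

theorem Idem.lamE_mul (h : Idem (XX χ) e) (a : (Fin r → ℤ) → ℤ) (m : ℤ) {x : Fin r → ℤ}
    (hx : x ∈ XX χ) : lamE χ e a m * e x = (if a x = m then e x else 0) ∧
      e x * lamE χ e a m = if a x = m then e x else 0 := by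
  have e1 : lamE χ e a m = ∑ y ∈ XX χ, (if a y = m then (1 : A) else 0) • e y := by
    simp only [lamE, Finset.sum_filter, ite_smul, one_smul, zero_smul]
  rw [e1, h.sum_mul _ hx, h.mul_sum _ hx]
  simp only [ite_smul, one_smul, zero_smul, and_self]

namespace HS

variable {Γ : Type} [AddCommGroup Γ] {S : Finset Γ} {E : Γ → Mat n A}

theorem Tm.mapM (h : H.Tm S E) (f : A →ₐ[k] A') : H.Tm S fun a => (E a).map f :=
  ⟨h.1.mapM f, tmat_map f S E ▸ h.2.map _⟩

theorem Tm.cj (h : H.Tm S E) {g : GL (Fin n) A} (hg : g ∈ H.G A) :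
    H.Tm S fun a => cj g (E a) := by
  refine ⟨h.1.cj g, ?_⟩
  have h1 := H.G_map (IsScalarTower.toAlgHom k A (GA A Γ)) hg
  rw [← tmat_cj (k := k)]
  exact ((H.memM_val.2 h1).mul h.2).mul (H.memM_val.2 ((H.G _).inv_mem h1))

/-- value at a point of the diagonalisable group -/
theorem Tm.value (h : H.Tm S E) (θ : Multiplicative Γ →* Aˣ) :
    ∃ g ∈ H.G A, (g : Mat n A) = ∑ a ∈ S, (θ (Multiplicative.ofAdd a) : A) • E a ∧
      ((g⁻¹ : GL (Fin n) A) : Mat n A) =
        ∑ a ∈ S, (((θ (Multiplicative.ofAdd a))⁻¹ : Aˣ) : A) • E a := by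
  let f : GA A Γ →ₐ[k] A :=
    (AddMonoidAlgebra.lift A A Γ ((Units.coeHom A).comp θ)).restrictScalars k
  have e1 : (tmat S E).map f = ∑ a ∈ S, (θ (Multiplicative.ofAdd a) : A) • E a := by
    rw [tmat, mapM_sum]
    refine Finset.sum_congr rfl fun a _ => ?_
    rw [mapM_smul]
    have e2 : f (uu A a : (GA A Γ)ˣ) = θ (Multiplicative.ofAdd a) := by simp [f, uu_val]
    have e3 : ((E a).map (algebraMap A (GA A Γ))).map f = E a :=
      Matrix.ext fun i j => (AddMonoidAlgebra.lift A A Γ ((Units.coeHom A).comp θ)).commutes _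
    rw [e2, e3]
  obtain ⟨g, hg, eg⟩ := h.2.map f
  rw [e1] at eg
  refine ⟨g, hg, eg, Units.inv_eq_of_mul_eq_one_right ?_⟩
  rw [eg, h.1.sum_mul_sum, ← h.1.2.2]
  exact Finset.sum_congr rfl fun a _ => by rw [Units.mul_inv, one_smul]

/-- PI -/
theorem Tm.pi0_big (h : H.Tm S E) (M : H.Big) {Y : Mat n A} (hY : InS M.m Y) :
    H.InLie (Y - pi0 S E Y) ∧ InS M.m (pi0 S E Y) := by
  obtain ⟨g, hg, eg⟩ := h.2
  have h1 := (M.cj_sub hg (hY.map (IsScalarTower.toAlgHom k A (GA A Γ)))).map_lin (coefL k A 0)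
  rw [Matrix.map_sub _ (map_sub _)] at h1
  have h2 : H.InLie (pi0 S E Y - Y) := by
    rw [← cj_tmat_coef (k := k) h.1 eg Y]
    conv => enter [2, 2]; rw [← map_algebraMap_coef (k := k) (Γ := Γ) Y]
    exact h1
  refine ⟨neg_sub (pi0 S E Y) Y ▸ h2.neg, mem_sp.1 ?_⟩
  have := (sp M.m A).add_mem (mem_sp.2 (M.inS_of_inLie h2)) (mem_sp.2 hY)
  rwa [sub_add_cancel] at this

theorem Tm.pi0_inLie (h : H.Tm S E) {ξ : Mat n A} (hξ : H.InLie ξ) : H.InLie (pi0 S E ξ) := by
  obtain ⟨g, hg, eg⟩ := h.2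
  rw [← cj_tmat_coef (k := k) h.1 eg ξ]
  exact ((hξ.map (IsScalarTower.toAlgHom k A (GA A Γ))).conj hg).map_lin (coefL k A 0)

/-- The differential of the homomorphism. -/
theorem Tm.inLie_add (h : H.Tm S E) (f : Γ →+ A) : H.InLie (∑ a ∈ S, f a • E a) := by
  let θ : Multiplicative Γ →* DualNumber A :=
    { toFun := fun x => TrivSqZeroExt.inl 1 + TrivSqZeroExt.inr (f x.toAdd)
      map_one' := by simp
      map_mul' := fun x y => by ext <;> simp [add_comm] }
  obtain ⟨g, hg, eg, -⟩ := (h.mapM (TrivSqZeroExt.inlAlgHom k A A)).value θ.toHomUnits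
  refine ⟨g, hg, eg.trans (dual_ext (fun i j => ?_) fun i j => ?_)⟩
  · rw [dual_fst, ← h.1.2.2]
    simp [θ, Matrix.sum_apply, TrivSqZeroExt.fst_sum]
  · rw [dual_snd]
    simp [θ, Matrix.sum_apply, TrivSqZeroExt.snd_sum, mul_comm]

/-- Push-forward along an additive map. -/
theorem Tm.push {Γ' : Type} [AddCommGroup Γ'] [DecidableEq Γ'] (h : H.Tm S E) (a : Γ →+ Γ')
    (S' : Finset Γ') (hS : ∀ x ∈ S, a x ∈ S') :
    H.Tm S' fun m => ∑ x ∈ S.filter fun x => a x = m, E x := by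
  have e1 : ∀ m, ∑ x ∈ S.filter fun x => a x = m, E x =
      ∑ y ∈ S, (if a y = m then (1 : A) else 0) • E y := fun m => by
    simp only [Finset.sum_filter, ite_smul, one_smul, zero_smul]
  refine ⟨⟨fun m _ => ?_, fun m _ m' _ hne => ?_, ?_⟩, ?_⟩
  · simp only [e1]
    rw [h.1.sum_mul_sum]
    exact Finset.sum_congr rfl fun x _ => by split_ifs <;> simp
  · simp only [e1]
    rw [h.1.sum_mul_sum]
    refine Finset.sum_eq_zero fun x _ => ?_
    by_cases h1 : a x = m
    · rw [if_neg (fun h2 : a x = m' => hne (h1.symm.trans h2)), mul_zero, zero_smul]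
    · rw [if_neg h1, zero_mul, zero_smul]
  · rw [Finset.sum_fiberwise_of_maps_to hS, h.1.2.2]
  · let θ : Multiplicative Γ →* (GA A Γ')ˣ :=
      { toFun := fun x => uu A (a x.toAdd)
        map_one' := by rw [toAdd_one, map_zero, uu_zero]
        map_mul' := fun x y => by rw [toAdd_mul, map_add, uu_add] }
    obtain ⟨g, hg, eg, -⟩ := (h.mapM (IsScalarTower.toAlgHom k A (GA A Γ'))).value θ
    refine ⟨g, hg, eg.trans ?_⟩
    rw [tmat, ← Finset.sum_fiberwise_of_maps_to hS]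
    refine Finset.sum_congr rfl fun m _ => ?_
    have e2 := mapM_sum (IsScalarTower.toAlgHom k A (GA A Γ')) (S.filter fun x => a x = m) E
    refine Eq.trans ?_ (congrArg _ e2.symm)
    rw [Finset.smul_sum]
    refine Finset.sum_congr rfl fun x hx => ?_
    rw [← (Finset.mem_filter.1 hx).2]
    rfl

theorem Tor.map (h : H.Tor χ e) (f : A →ₐ[k] A') : H.Tor χ fun x => (e x).map f := by
  refine ⟨h.tm.mapM f, fun x hx => ?_, fun l => ?_⟩
  · rw [← eps_map f]
    exact (Matrix.charpoly_map (e x) (f : A →+* A')).trans ((congrArg _ (h.cp x hx)).trans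
      (Matrix.charpoly_map (eps A χ x) (f : A →+* A')).symm)
  · obtain ⟨c, hc⟩ := h.cart l
    exact ⟨_, by rw [← H.bas_map f, ← pi0_map, hc, tt_map]⟩

theorem Tor.pi0_lie (h : H.Tor χ e) {ξ : Mat n A} (hξ : H.InLie ξ) :
    ∃ c, pi0 (XX χ) e ξ = tt χ e c := by
  choose c hc using h.cart
  refine ⟨∑ l, H.crd ξ l • c l, ?_⟩
  have e1 := map_sum ((isLin_pi0 (XX χ) e).mk' _) (fun j => H.crd ξ j • H.bas A j) Finset.univ
  simp only [IsLinearMap.mk'_apply, map_smul, hc] at e1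
  conv_lhs => rw [← hξ.vec_crd]
  simp only [tt_sum, tt_smul]
  exact e1

theorem Tor.cj (h : H.Tor χ e) {g : GL (Fin n) A} (hg : g ∈ H.G A) :
    H.Tor χ fun x => cj g (e x) := by
  refine ⟨h.tm.cj hg, fun x hx => (charpoly_cj g _).trans (h.cp x hx), fun l => ?_⟩
  obtain ⟨c, hc⟩ := h.pi0_lie (inLie_cj ((H.G A).inv_mem hg) (H.inLie_bas l))
  exact ⟨c, by rw [← tt_cj, ← hc, pi0_cj, cj_cj_inv]⟩

theorem Tor.smul_eq_zero (h : H.Tor χ e) {x : Fin r → ℤ} (hx : x ∈ XX χ) {a : A}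
    (ha : a • e x = 0) : a = 0 := by
  have hd : (1 - e x).det = 0 := by
    have e1 := congrArg (Polynomial.eval 1) (h.cp x hx)
    rw [Matrix.eval_charpoly, Matrix.eval_charpoly, map_one] at e1
    obtain ⟨i, hi⟩ := exists_of_mem_XX hx
    rw [e1, eps, ← diagonal_one, diagonal_sub, det_diagonal]
    exact Finset.prod_eq_zero (Finset.mem_univ i) (by rw [if_pos hi, sub_self])
  let J : Ideal A := LinearMap.ker (LinearMap.toSpanSingleton A A a)
  have e2 : (Ideal.Quotient.mk J).mapMatrix (e x) = 0 := Matrix.ext fun i j =>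
    Ideal.Quotient.eq_zero_iff_mem.2 ((mul_comm _ _).trans (congrFun (congrFun ha i) j))
  have e3 := congrArg (Ideal.Quotient.mk J) hd
  rw [RingHom.map_det, map_sub, map_one, e2, sub_zero, det_one, map_zero,
    ← map_one (Ideal.Quotient.mk J), Ideal.Quotient.eq_zero_iff_mem] at e3
  exact (one_mul a).symm.trans e3

theorem Tor.ne_zero [Nontrivial A] (h : H.Tor χ e) {x : Fin r → ℤ} (hx : x ∈ XX χ) :
    e x ≠ 0 :=
  fun h0 => one_ne_zero (h.smul_eq_zero hx (a := 1) (by rw [h0, smul_zero]))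

theorem Tor.tt_inj (h : H.Tor χ e) (hs : Submodule.span ℤ (Set.range χ) = ⊤) {c c' : Fin r → A}
    (hc : tt χ e c = tt χ e c') : c = c' := by
  have e1 : pairA c = pairA c' := add_ext_XX' hs fun x hx => sub_eq_zero.1 (h.smul_eq_zero hx (by
    have e2 := congrArg (· * e x) hc
    simp only [tt, h.tm.1.sum_mul _ hx] at e2
    rw [sub_smul, sub_eq_zero]
    exact e2))
  funext j
  rw [← pair_single j c, ← pair_single j c']
  exact DFunLike.congr_fun e1 _

theorem Tor.tt_inLie (h : H.Tor χ e) (c : Fin r → A) : H.InLie (tt χ e c) :=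
  h.tm.inLie_add (pairA c)

theorem Tor.lam (h : H.Tor χ e) (a : (Fin r → ℤ) →+ ℤ) (S : Finset ℤ)
    (hS : ∀ x ∈ XX χ, a x ∈ S) : H.Tm S (lamE χ e a) :=
  h.tm.push a S hS

theorem Datum.es_eq (D : H.Datum) (ι : D.l →ₐ[k] A) (x : Fin D.r → ℤ) :
    ((D.γ : Mat n D.l) * eps D.l D.χ x * ((D.γ⁻¹ : GL (Fin n) D.l) : Mat n D.l)).map ι =
      D.es ι x := by
  rw [mapM_mul, mapM_mul, eps_map]
  rfl

theorem Datum.tor_es (D : H.Datum) (ι : D.l →ₐ[k] A) : H.Tor D.χ (D.es ι) := by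
  have := D.tor.map ι
  simp only [D.es_eq] at this
  exact this

theorem Datum.reg_es (D : H.Datum) (ι : D.l →ₐ[k] A) :
    ∃ Y : Mat n A, D.big.Cc D.χ (D.es ι) Y ∧ IsUnit (H.Dlt D.r Y) := by
  obtain ⟨X, hX, hd⟩ := D.reg
  refine ⟨X.map ι, ⟨hX.1.map ι, fun x hx => ?_⟩, ?_⟩
  · rw [← D.es_eq, ← mapM_mul, ← mapM_mul, hX.2 x hx]
  · rw [Dlt_mapM]
    exact hd.isUnit.map ι

end HS

end Pool.Agent.GR
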