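import Pool.Agent.P.MP_c1f06d_ag.r.Twist
import Pool.Agent.P.MP_c1f06d_ag.r.TorB

/-! The torus datum of a twisted group. -/

open Matrix
open scoped TensorProduct

universe u

namespace Pool.Agent.GR

open AffQuot

namespace TwD

section diag

variable {n r : ℕ} {A A' : Type u} [CommRing A] [CommRing A'] (χ : Fin n → Fin r → ℤ)

theorem dL_eq (h : Fin r → A) : dL χ h = diagonal fun i => pair (χ i) h := rfl

/-- The linear map from coordinates to the Lie algebra of the diagonal torus. -/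
def dLl (A : Type u) [CommRing A] : (Fin r → A) →ₗ[A] Mat n A where
  toFun := dL χ
  map_add' x y := by
    simp only [dL, Pi.add_apply, mul_add, Finset.sum_add_distrib, diagonal_add]
  map_smul' c x := by
    simp only [dL, Pi.smul_apply, smul_eq_mul, RingHom.id_apply, ← diagonal_smul]
    congr 1
    funext i
    simp only [Pi.smul_apply, smul_eq_mul, Finset.mul_sum, mul_left_comm]

theorem dL_zero : dL χ (0 : Fin r → A) = 0 := map_zero (dLl χ A)

theorem dL_add (x y : Fin r → A) : dL χ (x + y) = dL χ x + dL χ y := map_add (dLl χ A) x y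

theorem dL_smul (c : A) (x : Fin r → A) : dL χ (c • x) = c • dL χ x := map_smul (dLl χ A) c x

theorem dL_map {F : Type*} [FunLike F A A'] [AddMonoidHomClass F A A'] (φ : F) (h : Fin r → A) :
    (dL χ h).map φ = dL χ fun j => φ (h j) := by
  rw [dL, dL, diagonal_map (map_zero φ)]
  simp only [map_sum, ← zsmul_eq_mul, map_zsmul]

theorem idem_eps : Idem (XX χ) (eps A χ) := by
  refine ⟨fun a _ => ?_, fun a _ b _ hab => ?_, ?_⟩
  · rw [eps, diagonal_mul_diagonal]
    congr 1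
    funext i
    split_ifs <;> simp
  · rw [eps, eps, diagonal_mul_diagonal, ← diagonal_zero]
    congr 1
    funext i
    split_ifs with h1 h2
    · exact absurd (h1.symm.trans h2) hab
    all_goals simp
  · ext i j
    rw [Matrix.sum_apply]
    simp only [eps, diagonal_apply, one_apply]
    split_ifs with h
    · rw [Finset.sum_ite_eq, if_pos (mem_XX χ i)]
    · simp

theorem sum_smul_eps (c : (Fin r → ℤ) → A) :
    ∑ x ∈ XX χ, c x • eps A χ x = diagonal fun i => c (χ i) := by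
  ext i j
  rw [Matrix.sum_apply]
  simp only [eps, Matrix.smul_apply, diagonal_apply, smul_eq_mul]
  split_ifs with h
  · simp only [mul_ite, mul_one, mul_zero]
    rw [Finset.sum_ite_eq, if_pos (mem_XX χ i)]
  · simp

theorem tt_eps (h : Fin r → A) : tt χ (eps A χ) h = dL χ h := sum_smul_eps χ _

theorem inL_of_comm {ξ : Mat n A} (h : ∀ x ∈ XX χ, ξ * eps A χ x = eps A χ x * ξ) :
    InL χ ξ := by
  intro i j hij
  have e := congrFun (congrFun (h _ (mem_XX χ i)) i) j
  rw [eps, diagonal_mul, mul_diagonal, if_pos rfl, if_neg (Ne.symm hij), mul_zero, one_mul] at e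
  exact e.symm

theorem comm_of_inL {ξ : Mat n A} (h : InL χ ξ) (x : Fin r → ℤ) :
    ξ * eps A χ x = eps A χ x * ξ := by
  ext a b
  rw [eps, diagonal_mul, mul_diagonal]
  by_cases hab : χ a = χ b
  · rw [hab, mul_comm]
  · rw [h a b hab, mul_zero, zero_mul]

theorem prod_hom {M N : Type*} [AddCommGroup M] [CommGroup N] (E : Multiplicative M →* N)
    (x : Fin r → ℤ) (h : Fin r → M) :
    ∏ j, E (Multiplicative.ofAdd (h j)) ^ x j = E (Multiplicative.ofAdd (∑ j, x j • h j)) := by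
  rw [ofAdd_sum, map_prod]
  simp only [ofAdd_zsmul, map_zpow]

theorem tmat_eps : tmat (XX χ) (eps A χ) = dT χ fun j => uu A (Pi.single j 1 : Fin r → ℤ) := by
  let E : Multiplicative (Fin r → ℤ) →* (GA A (Fin r → ℤ))ˣ :=
    { toFun := fun x => uu A x.toAdd
      map_one' := uu_zero
      map_mul' := fun x y => uu_add _ _ }
  have e : ∀ x, (eps A χ x).map (algebraMap A (GA A (Fin r → ℤ))) = eps _ χ x :=
    fun x => by
      rw [eps, eps, diagonal_map (map_zero _)]
      simp only [apply_ite (algebraMap A (GA A (Fin r → ℤ))), map_one, map_zero]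
  rw [tmat]
  simp only [e]
  rw [sum_smul_eps, dT]
  congr 1
  funext i
  have h1 := prod_hom E (χ i) fun j => Pi.single j 1
  have h2 : ∑ j, χ i j • (Pi.single j 1 : Fin r → ℤ) = χ i := by
    funext m
    simp [Finset.sum_apply, Pi.single_apply]
  rw [h2] at h1
  exact congrArg Units.val h1.symm

theorem dualU_dL (h : Fin r → A) : ∃ t : Fin r → (DualNumber A)ˣ,
    ((dualU (dL χ h) : GL (Fin n) _) : Mat n (DualNumber A)) = dT χ t := by
  let θ : Multiplicative A →* DualNumber A :=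
    { toFun := fun x => TrivSqZeroExt.inl 1 + TrivSqZeroExt.inr x.toAdd
      map_one' := by simp
      map_mul' := fun x y => by ext <;> simp [add_comm] }
  refine ⟨fun j => θ.toHomUnits (Multiplicative.ofAdd (h j)), ?_⟩
  have e : ∀ x : Fin r → ℤ, ∏ j, θ.toHomUnits (Multiplicative.ofAdd (h j)) ^ x j =
      θ.toHomUnits (Multiplicative.ofAdd (∑ j, x j • h j)) :=
    fun x => prod_hom (N := (DualNumber A)ˣ) θ.toHomUnits x h
  have e' : ∀ a : A, ((θ.toHomUnits (Multiplicative.ofAdd a) : (DualNumber A)ˣ) : DualNumber A) =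
      TrivSqZeroExt.inl 1 + TrivSqZeroExt.inr a := fun _ => rfl
  rw [dualU_val, dT]
  simp only [e, e', zsmul_eq_mul]
  refine dual_ext (fun i j => ?_) fun i j => ?_
  · rw [dual_fst, one_apply, diagonal_apply]
    split_ifs <;> simp
  · rw [dual_snd, dL, diagonal_apply, diagonal_apply]
    split_ifs <;> simp

theorem brk_iter (d : Fin n → A) (ξ : Mat n A) (m : ℕ) (a b : Fin n) :
    (brk (diagonal d))^[m] ξ a b = (d a - d b) ^ m * ξ a b := by
  induction m with
  | zero => simp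
  | succ m ih =>
    rw [Function.iterate_succ_apply', brk, Matrix.sub_apply, diagonal_mul, mul_diagonal, ih]
    ring

theorem cj_brk_iter (g : GL (Fin n) A) (X ξ : Mat n A) (m : ℕ) :
    cj g ((brk X)^[m] ξ) = (brk (cj g X))^[m] (cj g ξ) := by
  induction m with
  | zero => rfl
  | succ m ih => rw [Function.iterate_succ_apply', Function.iterate_succ_apply', cj_brk, ih]

end diag

section reg

variable {k : Type u} [Field k] {n r : ℕ} {H : HS k n} {F : Type u} [Field F] [Algebra k F]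
  {χ : Fin n → Fin r → ℤ} {e : (Fin r → ℤ) → Mat n F} {X : Mat n F}

/-- The discriminant does not vanish if the generalised kernel of `ad X` is the torus part. -/
theorem Dlt_ne_zero (hT : H.Tor χ e) (hs : Submodule.span ℤ (Set.range χ) = ⊤) (hn : H.Nrm X)
    (hc : ∀ x ∈ XX χ, X * e x = e x * X)
    (hk : ∀ ξ, H.InLie ξ → ∀ m, (brk X)^[m] ξ = 0 → ∀ x ∈ XX χ, ξ * e x = e x * ξ) :
    H.Dlt r X ≠ 0 := by
  let M := H.opM fun ξ => X * ξ - ξ * X
  let φ : Module.End F (Fin H.N → F) := toLin' M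
  have h1 : ∀ x, H.vec (φ x) = brk X (H.vec x) := fun x => by
    have e1 : φ x = H.crd (brk X (H.vec x)) := (H.crd_lin (isLin_ad X) x).symm
    rw [e1, (hn.inLie (H.inLie_vec x)).vec_crd]
  have h2 : ∀ m x, H.vec ((φ ^ m) x) = (brk X)^[m] (H.vec x) := by
    intro m x
    induction m with
    | zero => rfl
    | succ m ih => rw [pow_succ', Module.End.mul_apply, h1, ih, Function.iterate_succ_apply']
  let L : (Fin r → F) →ₗ[F] (Fin H.N → F) :=
    { toFun := fun c => H.crd (tt χ e c)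
      map_add' := fun x y => by rw [tt_add, H.crd_add]
      map_smul' := fun c x => by rw [tt_smul, H.crd_smul]; rfl }
  have hL : ∀ c, H.vec (L c) = tt χ e c := fun c => (hT.tt_inLie c).vec_crd
  have hi : Function.Injective L := fun c c' h => hT.tt_inj hs (by rw [← hL, h, hL])
  have h3 : φ.maxGenEigenspace 0 = LinearMap.range L := by
    ext x
    rw [Module.End.mem_maxGenEigenspace, zero_smul, sub_zero]
    constructor
    · rintro ⟨m, hm⟩
      have h4 := hk _ (H.inLie_vec x) m (by rw [← h2, hm, H.vec_zero])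
      obtain ⟨c, hc⟩ := hT.pi0_lie (H.inLie_vec x)
      rw [hT.tm.1.pi0_eq h4] at hc
      refine ⟨c, ?_⟩
      show H.crd (tt χ e c) = x
      rw [← hc, H.crd_vec]
    · rintro ⟨c, rfl⟩
      refine ⟨1, ?_⟩
      rw [pow_one, ← H.crd_vec (φ (L c)), h1, hL, brk_tt hc, H.crd_zero]
  have h4 := LinearMap.finrank_maxGenEigenspace_zero_eq φ
  rw [h3, LinearMap.finrank_range_of_inj hi, Module.finrank_fin_fun, charpoly_toLin'] at h4
  have h5 : M.charpoly.trailingCoeff ≠ 0 :=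
    Polynomial.trailingCoeff_nonzero_iff_nonzero.2 M.charpoly_monic.ne_zero
  rw [Polynomial.trailingCoeff, ← h4] at h5
  exact h5

end reg

section base

variable {k : Type u} [Field k] {n r r' : ℕ} {G H : AffQuot k n} {χ : Fin n → Fin r → ℤ}
  {χ' : Fin n → Fin r' → ℤ} {A : Type u} [CommRing A] [Algebra k A]

theorem inLie_iff (ξ : Mat n A) : G.InLie ξ ↔ G.toHS.InLie ξ := by
  constructor
  · rintro ⟨g, hg, e⟩
    exact ⟨g, (G.mem_toHS_G g).2 hg, Matrix.ext e⟩
  · rintro ⟨g, hg, e⟩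
    exact ⟨g, (G.mem_toHS_G g).1 hg, fun i j => congrFun (congrFun e i) j⟩

theorem tm_eps (hT : G.SplitTorus χ) (A : Type u) [CommRing A] [Algebra k A] :
    G.toHS.Tm (XX χ) (eps A χ) := by
  refine ⟨idem_eps χ, dgU fun i => ∏ j, uu A (Pi.single j 1 : Fin r → ℤ) ^ χ i j, ?_, ?_⟩
  · exact (G.mem_toHS_G _).2 (hT.torus _ _ _ rfl)
  · rw [tmat_eps]; rfl

theorem cartan (hT : G.SplitTorus χ) {ξ : Mat n A} (hξ : G.toHS.InLie ξ) (hL : InL χ ξ) :
    ∃ h : Fin r → A, ξ = dL χ h := by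
  have h1 : InS (LinearMap.range (dLl χ k)) ξ := (inS_iff_dual _ _).2 fun φ => by
    obtain ⟨h, e⟩ := hT.cartan (ξ.map φ) ((inLie_iff _).2 (hξ.map_lin φ)) fun i j hij => by
      rw [map_apply, hL i j hij, map_zero]
    exact ⟨h, e.symm⟩
  have h2 : sp (LinearMap.range (dLl χ k)) A ≤ LinearMap.range (dLl χ A) := by
    rw [sp, Submodule.span_le]
    rintro _ ⟨l, rfl⟩
    obtain ⟨_, ⟨h, rfl⟩, e⟩ := sbas_mem (A := A) (LinearMap.range (dLl χ k)) l
    exact ⟨_, (e.trans (dL_map χ (algebraMap k A) h)).symm⟩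
  obtain ⟨h, e⟩ := h2 (mem_sp.2 h1)
  exact ⟨h, e.symm⟩

theorem tor_eps (hT : G.SplitTorus χ) (A : Type u) [CommRing A] [Algebra k A] :
    G.toHS.Tor χ (eps A χ) := by
  refine ⟨tm_eps hT A, fun _ _ => rfl, fun l => ?_⟩
  obtain ⟨h, e⟩ := cartan hT ((tm_eps hT A).pi0_inLie (G.toHS.inLie_bas l))
    (inL_of_comm χ ((idem_eps χ).pi0_comm _))
  exact ⟨h, by rw [e, tt_eps]⟩

theorem roots (hW : G.WideTorus H χ χ') {ξ : Mat n A} (hξ : G.toHS.InLie ξ) {i j : Fin n}
    (h : ξ i j ≠ 0) (hij : χ i ≠ χ j) : ∃ m, ((χ' i m - χ' j m : ℤ) : k) ≠ 0 := by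
  by_contra hc
  refine h (eq_of_dual (k := k) fun φ => ?_)
  by_contra hφ
  exact hc (hW.roots (ξ.map φ) ((inLie_iff _).2 (hξ.map_lin φ)) i j
    (by rwa [map_zero] at hφ) hij)

theorem wide_ad (hW : G.WideTorus H χ χ') {g : GL (Fin n) A} (hg : g ∈ G.toHS.G A)
    (h : Fin r' → A) : G.toHS.InLie (cj g (dL χ' h) - dL χ' h) := by
  obtain ⟨t, ht⟩ := dualU_dL χ' h
  have h1 := (G.mem_toHS_G _).1 (G.toHS.G_map (TrivSqZeroExt.inlAlgHom k A A) hg)
  have h2 := G.toHS.memM_val.2 ((G.mem_toHS_G _).2 ((hW.norm _ t _ _ ht h1).mul h1.inv))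
  rw [Units.val_mul, Units.val_mul, Units.val_mul, dualU_val, dualU_inv_val, gm_val, gm_inv_val,
    ← dual_zero, ← dual_zero, dual_mul, dual_mul, dual_mul] at h2
  have h3 : G.toHS.InLie (dL χ' h - cj g (dL χ' h)) := by
    refine (congrArg G.toHS.MemM ?_).mp h2
    congr 1
    · rw [one_mul, mul_one, Units.mul_inv]
    · rw [cj, mul_zero, zero_add, one_mul, mul_zero, zero_add, mul_one, add_mul, mul_neg, neg_mul,
        mul_assoc (dL χ' h), Units.mul_inv, mul_one, neg_add_eq_sub]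
  exact neg_sub (dL χ' h) _ ▸ h3.neg

theorem wide_br (hW : G.WideTorus H χ χ') {ξ : Mat n A} (hξ : G.toHS.InLie ξ) (h : Fin r' → A) :
    G.toHS.InLie (brk ξ (dL χ' h)) := by
  have h1 := (wide_ad hW ((G.toHS.dualU_mem_G ξ).2 hξ)
    fun j => TrivSqZeroExt.inlAlgHom k A A (h j)).map_lin
    ((TrivSqZeroExt.sndHom A A).restrictScalars k)
  rw [← dL_map, ← dual_zero, cj, dualU_val, dualU_inv_val, dual_mul, dual_mul] at h1
  refine (congrArg G.toHS.InLie ?_).mp h1
  ext i j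
  show TrivSqZeroExt.snd (dual (A := A) _ _ i j - dual (A := A) _ _ i j) = _
  rw [TrivSqZeroExt.snd_sub, dual_snd, dual_snd, one_mul, mul_one, mul_zero, zero_add, mul_neg,
    neg_add_eq_sub, Matrix.zero_apply, sub_zero, brk]

end base

section tw

variable {k0 k1 : Type u} [Field k0] [Field k1] [Algebra k0 k1] {n r r' : ℕ}
  {G H : AffQuot k0 n} {z : H.B →ₐ[k0] k1} {χ : Fin n → Fin r → ℤ} {χ' : Fin n → Fin r' → ℤ}
  {l : Type u} [Field l] [Algebra k1 l] [Algebra k0 l] [IsScalarTower k0 k1 l]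
  {γ : GL (Fin n) l} (hN : H.Normalizes G) (hγ : ∀ b : H.B, ev k0 γ b = algebraMap k1 l (z b))

section

variable {T : Type u} [CommRing T] [Algebra k1 T] [Algebra k0 T] [IsScalarTower k0 k1 T]

include hγ

theorem rel (ι : l →ₐ[k1] T) (g : GL (Fin n) T) :
    g ∈ (twHS z hN).G T ↔ (gm ι γ)⁻¹ * g * gm ι γ ∈ G.toHS.G T := by
  rw [mem_twHS_G, mem_toHS_G, twPt_iff_l hN hγ ι]

theorem lie_rel (ι : l →ₐ[k1] T) (ξ : Mat n T) :
    (twHS z hN).InLie ξ ↔ G.toHS.InLie (cj (gm ι γ)⁻¹ ξ) := by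
  rw [← HS.dualU_mem_G, ← HS.dualU_mem_G,
    rel hN hγ ((TrivSqZeroExt.inlAlgHom k1 T T).comp ι)]
  have e : (gm ((TrivSqZeroExt.inlAlgHom k1 T T).comp ι) γ)⁻¹ * dualU ξ *
      gm ((TrivSqZeroExt.inlAlgHom k1 T T).comp ι) γ = dualU (cj (gm ι γ)⁻¹ ξ) := by
    apply Units.ext
    rw [← gm_comp, Units.val_mul, Units.val_mul, gm_inv_val, gm_val, dualU_val, dualU_val,
      ← dual_zero, ← dual_zero, dual_mul, dual_mul, mul_one, Units.inv_mul, mul_zero, zero_add,
      zero_mul, add_zero, cj, inv_inv]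
  rw [e]

theorem lie_rel_id (ξ : Mat n l) : (twHS z hN).InLie ξ ↔ G.toHS.InLie (cj γ⁻¹ ξ) :=
  lie_rel hN hγ (AlgHom.id k1 l) ξ

end

include hγ in
theorem tor_tw (hT : G.SplitTorus χ) : (twHS z hN).Tor χ fun x => cj γ (eps l χ x) := by
  refine ⟨⟨(idem_eps χ).cj γ, ?_⟩, fun x _ => charpoly_cj _ _, fun j => ?_⟩
  · obtain ⟨g, hg, e⟩ := (tm_eps hT l).2
    let ι := IsScalarTower.toAlgHom k1 l (GA l (Fin r → ℤ))
    refine ⟨gm ι γ * g * (gm ι γ)⁻¹, (rel hN hγ ι _).2 ?_, ?_⟩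
    · refine (congrArg (· ∈ G.toHS.G _) (?_ : _ = g)).mpr hg
      group
    · rw [← tmat_cj (k := k1), ← e]
      rfl
  · obtain ⟨c, hc⟩ := (tor_eps hT l).pi0_lie
      ((lie_rel_id hN hγ _).1 ((twHS z hN).inLie_bas j))
    refine ⟨c, ?_⟩
    have := congrArg (cj γ) hc
    rwa [pi0_cj, cj_cj_inv, tt_cj] at this

variable (G χ' γ k1) in
/-- The descent of `Lie G + Lie T'` to the twist. -/
def bigM : Submodule k1 (Mat n k1) where
  carrier := {X | ∃ h : Fin r' → l,
    G.toHS.InLie (cj γ⁻¹ (X.map (Algebra.ofId k1 l)) - dL χ' h)}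
  zero_mem' := ⟨0, by
    rw [mapM_zero, cj_zero, dL_zero, sub_zero]; exact G.toHS.inLie_zero⟩
  add_mem' := by
    rintro X Y ⟨h, e⟩ ⟨h', e'⟩
    refine ⟨h + h', ?_⟩
    rw [Matrix.map_add _ (map_add _), cj_add, dL_add, add_sub_add_comm]
    exact e.add e'
  smul_mem' := by
    rintro c X ⟨h, e⟩
    refine ⟨Algebra.ofId k1 l c • h, ?_⟩
    rw [mapM_smul, cj_smul, dL_smul, ← smul_sub]
    exact e.smul _

include hγ in
theorem big_le : (twHS z hN).lie ≤ bigM k1 G χ' γ := fun X hX =>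
  ⟨0, by
    rw [dL_zero, sub_zero]
    exact (lie_rel_id hN hγ _).1 (((twHS z hN).mem_lie.1 hX).map _)⟩

include hγ in
theorem big_ad (hW : G.WideTorus H χ χ') (A : Type u) [CommRing A] [Algebra k1 A]
    (g : GL (Fin n) A) (hg : g ∈ (twHS z hN).G A) (X : Mat n k1) (hX : X ∈ bigM k1 G χ' γ) :
    (twHS z hN).InLie (cj g (X.map (algebraMap k1 A)) - X.map (algebraMap k1 A)) := by
  obtain ⟨h, e⟩ := hX
  apply (twHS z hN).inLie_of_inj (Co.iR k1 l A) Co.iR_injective
  have h1 := (rel hN hγ (Co.iL k1 l A) _).1 ((twHS z hN).G_map (Co.iR k1 l A) hg)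
  have h2 := e.map ((Co.iL k1 l A).restrictScalars k0)
  have e1 : (X.map (algebraMap k1 A)).map (Co.iR k1 l A) = X.map (algebraMap k1 (l ⊗[k1] A)) :=
    Matrix.ext fun i j => (Co.iR k1 l A).commutes _
  have e2 : (cj γ⁻¹ (X.map (Algebra.ofId k1 l)) - dL χ' h).map
      ((Co.iL k1 l A).restrictScalars k0) =
      cj (gm (Co.iL k1 l A) γ)⁻¹ (X.map (algebraMap k1 (l ⊗[k1] A))) -
        dL χ' fun j => Co.iL k1 l A (h j) := by
    rw [← dL_map]
    refine (Matrix.map_sub _ (map_sub _) _ _).trans ?_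
    congr 1
    exact cj_map (Co.iL k1 l A) _ _
  rw [e2] at h2
  rw [lie_rel hN hγ (Co.iL k1 l A), Matrix.map_sub _ (map_sub _), cj_map, e1, cj_sub']
  have h3 := ((HS.inLie_cj h1 h2).sub h2).add (wide_ad hW h1 fun j => Co.iL k1 l A (h j))
  rw [cj_sub', cj_cj, mul_inv_cancel_right] at h3
  rw [cj_cj]
  refine (congrArg G.toHS.InLie ?_).mpr h3
  abel

include hγ in
theorem big_br (hW : G.WideTorus H χ χ') (X : Mat n k1) (hX : X ∈ bigM k1 G χ' γ) (Y : Mat n k1)
    (hY : Y ∈ bigM k1 G χ' γ) : brk X Y ∈ (twHS z hN).lie := by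
  obtain ⟨h, e⟩ := hX
  obtain ⟨h', e'⟩ := hY
  rw [HS.mem_lie]
  apply (twHS z hN).inLie_of_inj (Algebra.ofId k1 l) (algebraMap k1 l).injective
  rw [lie_rel_id hN hγ, brk_map, cj_brk]
  have h1 := ((e.bracket e').add (wide_br hW e h')).sub (wide_br hW e' h)
  have h2 : dL χ' h * dL χ' h' = dL χ' h' * dL χ' h := by
    rw [dL, dL, diagonal_mul_diagonal, diagonal_mul_diagonal]
    simp only [mul_comm]
  refine (congrArg G.toHS.InLie ?_).mpr h1
  simp only [brk, mul_sub, sub_mul, h2]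
  abel

theorem ctr_sandwich (φ : l →ₗ[k1] k1) (P Y Q : Mat n l) :
    (P.map (Co.iR k1 l l) * Y.map (Co.iL k1 l l) * Q.map (Co.iR k1 l l)).map (Co.ctr φ l) =
      P * (Y.map φ).map (Algebra.ofId k1 l) * Q := by
  ext i j
  simp only [map_apply, mul_apply, map_sum, Finset.sum_mul]
  refine Finset.sum_congr rfl fun a _ => Finset.sum_congr rfl fun b _ => ?_
  show Co.ctr φ l (((1 : l) ⊗ₜ[k1] P i b) * (Y b a ⊗ₜ[k1] (1 : l)) * (1 ⊗ₜ[k1] Q a j)) = _
  rw [Algebra.TensorProduct.tmul_mul_tmul, Algebra.TensorProduct.tmul_mul_tmul, Co.ctr_tmul,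
    one_mul, mul_one, mul_one, Algebra.smul_def, Algebra.ofId_apply]
  ring

include hγ in
theorem inS_big (hW : G.WideTorus H χ χ') (h : Fin r' → l) :
    InS (bigM k1 G χ' γ) (cj γ (dL χ' h)) := by
  rw [inS_iff_dual]
  intro φ
  have h1 : H.Pt ((gm (Co.iR k1 l l) γ)⁻¹ * gm (Co.iL k1 l l) γ) := (H.pt_iff _ _).2 fun b hb =>
    (sec_map hγ _ ⟨b, hb⟩).trans (sec_map hγ _ ⟨b, hb⟩).symm
  obtain ⟨h', e⟩ := hW.stab _ _ (fun j => Co.iL k1 l l (h j)) h1
  have h2 := ((inLie_iff _).1 e).map_lin ((Co.ctr φ l).restrictScalars k0)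
  refine ⟨fun j => Co.ctr φ l (h' j), ?_⟩
  refine (congrArg G.toHS.InLie ?_).mp h2
  rw [← dL_map χ' (Co.ctr φ l)]
  refine (Matrix.map_sub _ (map_sub _) _ _).trans ?_
  congr 1
  have e1 : cj ((gm (Co.iR k1 l l) γ)⁻¹ * gm (Co.iL k1 l l) γ)
      (dL χ' fun j => Co.iL k1 l l (h j)) =
      cj (gm (Co.iR k1 l l) γ)⁻¹ ((cj γ (dL χ' h)).map (Co.iL k1 l l)) := by
    rw [cj_map, dL_map, cj_cj]
  exact (congrArg (fun Z => Z.map (Co.ctr φ l)) e1).trans (ctr_sandwich φ _ _ _)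

theorem exists_generic [Infinite l] (χ' : Fin n → Fin r' → ℤ) :
    ∃ h : Fin r' → l, ∀ i j, (∃ m, ((χ' i m - χ' j m : ℤ) : k0) ≠ 0) →
      pair (χ' i) h - pair (χ' j) h ≠ 0 := by
  let f : {p : Fin n × Fin n // ∃ m, ((χ' p.1 m - χ' p.2 m : ℤ) : k0) ≠ 0} →
      Module.Dual l (Fin r' → l) := fun p =>
    { toFun := fun h => pair (χ' p.1.1) h - pair (χ' p.1.2) h
      map_add' := fun x y => by
        simp only [pair, Pi.add_apply, mul_add, Finset.sum_add_distrib]
        abel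
      map_smul' := fun c x => by
        simp only [pair, Pi.smul_apply, smul_eq_mul, RingHom.id_apply, mul_sub, Finset.mul_sum,
          mul_left_comm] }
  obtain ⟨h, hh⟩ := Module.Dual.exists_forall_ne_zero_of_forall_exists f fun p => by
    obtain ⟨m, hm⟩ := p.2
    refine ⟨Pi.single m 1, fun e => hm ((algebraMap k0 l).injective ?_)⟩
    have e1 : ∀ x : Fin r' → ℤ, pair x (Pi.single m (1 : l)) = x m := fun x => by
      simp [pair, Pi.single_apply]
    have e2 : pair (χ' p.1.1) (Pi.single m (1 : l)) - pair (χ' p.1.2) (Pi.single m 1) = 0 := e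
    rw [e1, e1] at e2
    rw [map_intCast, map_zero, Int.cast_sub, e2]
  exact ⟨h, fun i j hij => hh ⟨(i, j), hij⟩⟩

include hγ in
theorem van_prime (hI : G.GeomIntegral) (W : Type u) [Field W] [Algebra k1 W]
    (ι : l →ₐ[k1] W) : ((twHS z hN).van W).IsPrime := by
  let _ : Algebra k0 W := ((algebraMap k1 W).comp (algebraMap k0 k1)).toAlgebra
  have : IsScalarTower k0 k1 W := IsScalarTower.of_algebraMap_eq fun _ => rfl
  let c : ∀ (A : Type u) [CommRing A] [Algebra W A], GL (Fin n) A :=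
    fun A _ _ => gm (Algebra.ofId W A) (gm ι γ)
  let σ : OGL W n →ₐ[W] OGL W n := ev W (c _ * Co.ug W n * (c _)⁻¹)
  have hσ : ∀ (A : Type u) [CommRing A] [Algebra W A] (g : GL (Fin n) A) (f : OGL W n),
      ev W g (σ f) = ev W (c A * g * (c A)⁻¹) f := by
    intro A _ _ g f
    have e : gm (ev W g) (c _) = c A := by
      ext i j
      exact (ev W g).commutes _
    rw [Co.map_ev, MonoidHom.map_mul, MonoidHom.map_mul, MonoidHom.map_inv, Co.gm_ev_ug, e]
  have key : ∀ f, f ∈ (twHS z hN).van W ↔ G.Vanishes W (σ f) := by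
    intro f
    constructor
    · intro h A _ _ _ _ g hg
      let _ : Algebra k1 A := ((algebraMap W A).comp (algebraMap k1 W)).toAlgebra
      have : IsScalarTower k1 W A := IsScalarTower.of_algebraMap_eq fun _ => rfl
      have : IsScalarTower k0 k1 A := IsScalarTower.of_algebraMap_eq fun x =>
        IsScalarTower.algebraMap_apply k0 W A x
      rw [hσ]
      refine h A _ ((rel hN hγ ((IsScalarTower.toAlgHom k1 W A).comp ι) _).2 ?_)
      have e : gm ((IsScalarTower.toAlgHom k1 W A).comp ι) γ = c A := rfl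
      rw [e, mem_toHS_G]
      refine (congrArg G.Pt (?_ : _ = g)).mpr hg
      group
    · intro h A _ _ _ _ g hg
      let _ : Algebra k0 A := ((algebraMap k1 A).comp (algebraMap k0 k1)).toAlgebra
      have : IsScalarTower k0 k1 A := IsScalarTower.of_algebraMap_eq fun _ => rfl
      have : IsScalarTower k0 W A := IsScalarTower.of_algebraMap_eq fun x =>
        IsScalarTower.algebraMap_apply k1 W A (algebraMap k0 k1 x)
      have h1 := (rel hN hγ ((IsScalarTower.toAlgHom k1 W A).comp ι) _).1 hg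
      have e : gm ((IsScalarTower.toAlgHom k1 W A).comp ι) γ = c A := rfl
      rw [e, mem_toHS_G] at h1
      have h2 := h A _ h1
      rw [hσ] at h2
      refine (congrArg (fun x => ev W x f) ?_).trans h2
      group
  refine ⟨fun h => ?_, fun {f f'} h => ?_⟩
  · have h1 : (1 : OGL W n) ∈ (twHS z hN).van W := h ▸ Submodule.mem_top
    have h2 := h1 W 1 ((twHS z hN).G W).one_mem
    rw [map_one] at h2
    exact one_ne_zero h2
  · rw [key, map_mul] at h
    rw [key, key]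
    exact hI W _ _ h

end tw

end TwD

open TwD in
/-- The twist of a split group over a field carries a torus datum. -/
theorem AffQuot.twHS_datum {k0 k1 : Type u} [Field k0] [Field k1] [Algebra k0 k1] {n r r' : ℕ}
    {G H : AffQuot k0 n} (z : H.B →ₐ[k0] k1) {χ : Fin n → Fin r → ℤ} {χ' : Fin n → Fin r' → ℤ}
    (hN : H.Normalizes G) (hI : G.GeomIntegral) (hT : G.SplitTorus χ)
    (hW : G.WideTorus H χ χ') : Nonempty (twHS z hN).Datum := by
  obtain ⟨l0, _, _, _, _, γ0, hγ0⟩ := H.exists_section z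
  let l := AlgebraicClosure l0
  let γ : GL (Fin n) l := gm (IsScalarTower.toAlgHom k1 l0 l) γ0
  have hγ : ∀ b : H.B, ev k0 γ b = algebraMap k1 l (z b) := sec_map hγ0 _
  let M : (twHS z hN).Big :=
    ⟨bigM k1 G χ' γ, big_le hN hγ, big_ad hN hγ hW, big_br hN hγ hW⟩
  obtain ⟨h, hh⟩ := exists_generic (k0 := k0) (l := l) χ'
  have hc : M.Cc χ (fun x => cj γ (eps l χ x)) (cj γ (dL χ' h)) := by
    refine ⟨inS_big hγ hW h, fun x _ => ?_⟩
    rw [← cj_mul, ← cj_mul, dL, eps, diagonal_mul_diagonal, diagonal_mul_diagonal]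
    simp only [mul_comm]
  refine ⟨⟨r, χ, l, γ, M, hT.span, tor_tw hN hγ hT, ⟨_, hc, ?_⟩, van_prime hN hγ hI⟩⟩
  refine Dlt_ne_zero (tor_tw hN hγ hT) hT.span (M.nrm hc.1) hc.2 fun ξ hξ m hm x _ => ?_
  have h1 := (lie_rel_id hN hγ _).1 hξ
  have h2 := congrArg (cj γ⁻¹) hm
  rw [cj_brk_iter, cj_inv_cj, cj_zero, dL_eq] at h2
  have h3 : InL χ (cj γ⁻¹ ξ) := fun i j hij => by
    by_contra hne
    have h4 := congrFun (congrFun h2 i) j
    rw [brk_iter] at h4
    exact mul_ne_zero (pow_ne_zero m (hh i j (roots hW h1 hne hij))) hne h4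
  have h5 := congrArg (cj γ) (comm_of_inL χ h3 x)
  rwa [cj_mul, cj_mul, cj_cj_inv] at h5

theorem AffQuot.toHS_tor {k : Type u} [Field k] {n r : ℕ} {G : AffQuot k n}
    {χ : Fin n → Fin r → ℤ} (hT : G.SplitTorus χ) : G.toHS.Tor χ (eps k χ) :=
  TwD.tor_eps hT k

theorem AffQuot.toHS_prime {k : Type u} [Field k] {n : ℕ} {G : AffQuot k n}
    (hI : G.GeomIntegral) (W : Type u) [Field W] [Algebra k W] : (G.toHS.van W).IsPrime := by
  have key : ∀ f, f ∈ G.toHS.van W ↔ G.Vanishes W f := fun f =>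
    ⟨fun h A _ _ _ _ g hg => h A g ((G.mem_toHS_G g).2 hg),
      fun h A _ _ _ _ g hg => h A g ((G.mem_toHS_G g).1 hg)⟩
  refine ⟨fun h => ?_, fun {f f'} h => ?_⟩
  · have h1 : (1 : OGL W n) ∈ G.toHS.van W := h ▸ Submodule.mem_top
    have h2 := h1 W 1 (G.toHS.G W).one_mem
    rw [map_one] at h2
    exact one_ne_zero h2
  · rw [key] at h
    rw [key, key]
    exact hI W _ _ h

end Pool.Agent.GR
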