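import Mathlib

/-! Mathlib-only lemmas of section 8: HOM, TOP, MONIC, PROJ. -/

universe u v

namespace Pool.Agent.GR

open MvPolynomial

/-- `A` is integral over the image of a polynomial ring in `e` variables over `ka`. -/
def FinOver (ka : Type*) [CommRing ka] (e : ℕ) (A : Type*) [CommRing A] [Algebra ka A] : Prop :=
  ∃ φ : MvPolynomial (Fin e) ka →ₐ[ka] A, φ.toRingHom.IsIntegral

section FinOver

variable {ka : Type*} [Field ka] {A : Type*} [CommRing A] [Algebra ka A]

theorem FinOver.of_integral {B : Type*} [CommRing B] [Algebra ka B] {e : ℕ}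
    (h : FinOver ka e A) (f : A →ₐ[ka] B) (hf : f.toRingHom.IsIntegral) : FinOver ka e B := by
  obtain ⟨φ, hφ⟩ := h
  exact ⟨f.comp φ, RingHom.IsIntegral.trans _ _ hφ hf⟩

theorem FinOver.of_surjective {B : Type*} [CommRing B] [Algebra ka B] {e : ℕ}
    (h : FinOver ka e A) (f : A →ₐ[ka] B) (hf : Function.Surjective f) : FinOver ka e B :=
  h.of_integral f (RingHom.isIntegral_of_surjective _ hf)

theorem FinOver.mono {e e' : ℕ} (h : FinOver ka e A) (he : e ≤ e') : FinOver ka e' A := by
  obtain ⟨φ, hφ⟩ := h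
  let ρ : MvPolynomial (Fin e') ka →ₐ[ka] MvPolynomial (Fin e) ka :=
    aeval fun i => if hi : (i : ℕ) < e then X ⟨i, hi⟩ else 0
  have hρ : Function.Surjective ρ := by
    intro p
    refine ⟨rename (Fin.castLE he) p, ?_⟩
    have : ρ.comp (rename (Fin.castLE he)) = AlgHom.id _ _ := by
      ext i
      simp [ρ]
    exact DFunLike.congr_fun this p
  exact ⟨φ.comp ρ, RingHom.IsIntegral.trans _ _ (RingHom.isIntegral_of_surjective _ hρ) hφ⟩

/-- Any finite index type may be used for the variables. -/
theorem FinOver.of_card {σ : Type*} [Fintype σ] (φ : MvPolynomial σ ka →ₐ[ka] A)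
    (hφ : φ.toRingHom.IsIntegral) : FinOver ka (Fintype.card σ) A :=
  ⟨φ.comp (renameEquiv ka (Fintype.equivFin σ).symm).toAlgHom,
    RingHom.IsIntegral.trans _ _
      (RingHom.isIntegral_of_surjective _ (renameEquiv ka (Fintype.equivFin σ).symm).surjective) hφ⟩

theorem finOver_self (σ : Type*) [Fintype σ] :
    FinOver ka (Fintype.card σ) (MvPolynomial σ ka) :=
  FinOver.of_card (AlgHom.id _ _) (RingHom.isIntegral_of_surjective _ Function.surjective_id)

/-- An algebraically independent family survives in the quotient by some prime. -/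
theorem exists_prime_algInd {σ : Type*} (x : σ → A) (hx : AlgebraicIndependent ka x) :
    ∃ P : Ideal A, P.IsPrime ∧
      AlgebraicIndependent ka (fun i => Ideal.Quotient.mk P (x i)) := by
  let S : Submonoid A := (nonZeroDivisors (MvPolynomial σ ka)).map (aeval x).toRingHom.toMonoidHom
  have hd : Disjoint ((⊥ : Ideal A) : Set A) S := by
    rw [Set.disjoint_left]
    rintro a ha ⟨p, hp, rfl⟩
    have h0 : aeval x p = 0 := by simpa using ha
    have := hx (h0.trans (map_zero _).symm)
    exact nonZeroDivisors.ne_zero hp this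
  obtain ⟨P, hP, -, hPS⟩ := Ideal.exists_le_prime_disjoint ⊥ S hd
  refine ⟨P, hP, algebraicIndependent_iff.2 fun p hp => ?_⟩
  by_contra hne
  have h1 : aeval x p ∈ P := by
    have : Ideal.Quotient.mkₐ ka P (aeval x p) = 0 := by
      rw [← hp, ← AlgHom.comp_apply, comp_aeval]; rfl
    exact Ideal.Quotient.eq_zero_iff_mem.1 this
  exact Set.disjoint_left.1 hPS h1 ⟨p, mem_nonZeroDivisors_of_ne_zero hne, rfl⟩

theorem isAlgebraic_adjoin_of_integral {τ : Type*} [Nontrivial A] (y : τ → A)
    (hy : (aeval (R := ka) y).toRingHom.IsIntegral) :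
    Algebra.IsAlgebraic (Algebra.adjoin ka (Set.range y)) A := by
  have : Algebra.IsIntegral (Algebra.adjoin ka (Set.range y)) A := by
    refine ⟨fun a => ?_⟩
    let ψ : MvPolynomial τ ka →ₐ[ka] Algebra.adjoin ka (Set.range y) :=
      (aeval y).codRestrict _ fun p => by
        rw [Algebra.adjoin_range_eq_range_aeval]; exact ⟨p, rfl⟩
    have : (aeval (R := ka) y).toRingHom =
        (algebraMap (Algebra.adjoin ka (Set.range y)) A).comp ψ.toRingHom := rfl
    rw [this] at hy
    exact hy.tower_top _ _ a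
  exact Algebra.IsIntegral.isAlgebraic

/-- Dimension count: `A` integral over `ka[y]`, `x` algebraically independent. -/
theorem algInd_card_le {σ τ : Type*} [Fintype σ] [Fintype τ] (y : τ → A)
    (hy : (aeval (R := ka) y).toRingHom.IsIntegral) (x : σ → A)
    (hx : AlgebraicIndependent ka x) :
    Fintype.card σ ≤ Fintype.card τ ∧
      (Fintype.card τ ≤ Fintype.card σ → AlgebraicIndependent ka y) := by
  obtain ⟨P, hP, hxP⟩ := exists_prime_algInd x hx
  let yb : τ → A ⧸ P := fun i => Ideal.Quotient.mk P (y i)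
  have hyb : (aeval (R := ka) yb).toRingHom.IsIntegral := by
    have : (aeval (R := ka) yb).toRingHom =
        (Ideal.Quotient.mk P).comp (aeval (R := ka) y).toRingHom := by
      have : aeval (R := ka) yb = (Ideal.Quotient.mkₐ ka P).comp (aeval y) := by
        rw [comp_aeval]; rfl
      rw [this]; rfl
    rw [this]
    exact hy.trans _ _ (RingHom.isIntegral_of_surjective _ Ideal.Quotient.mk_surjective)
  have := isAlgebraic_adjoin_of_integral yb hyb
  have h1 := hxP.lift_cardinalMk_le_trdeg
  have h2 := Algebra.IsAlgebraic.trdeg_le_cardinalMk ka (Set.range yb)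
  have h3 : Cardinal.mk (Set.range yb) ≤ (Fintype.card τ : Cardinal) := by
    have := Cardinal.mk_range_le_lift (f := yb)
    simpa using this
  refine ⟨?_, fun hc => ?_⟩
  · have := h1.trans (Cardinal.lift_le.2 (h2.trans h3))
    simpa using this
  · have hb : IsTranscendenceBasis ka yb := by
      apply Algebra.IsAlgebraic.isTranscendenceBasis_of_lift_le_trdeg_of_finite
      simp only [Cardinal.mk_fintype, Cardinal.lift_natCast, Cardinal.nat_le_lift_iff] at h1 ⊢
      exact le_trans (by exact_mod_cast hc) h1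
    exact AlgebraicIndependent.of_comp (Ideal.Quotient.mkₐ ka P) hb.1

/-- More than `e` elements are algebraically dependent. -/
theorem FinOver.dep {e : ℕ} (h : FinOver ka e A) {σ : Type*} [Fintype σ] (x : σ → A)
    (hc : e + 1 ≤ Fintype.card σ) : ∃ Ψ : MvPolynomial σ ka, Ψ ≠ 0 ∧ aeval x Ψ = 0 := by
  obtain ⟨φ, hφ⟩ := h
  by_contra hne
  have hx : AlgebraicIndependent ka x := algebraicIndependent_iff.2 fun p hp => by
    by_contra h0
    exact hne ⟨p, h0, hp⟩
  rw [aeval_unique φ] at hφ
  have := (algInd_card_le _ hφ x hx).1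
  simp at this
  omega

/-- MONIC, general form: one nonzero relation among the `e + 1` variables lowers `e + 1` to `e`. -/
theorem FinOver.of_relation {σ : Type*} [Fintype σ] {e : ℕ} (hc : Fintype.card σ ≤ e + 1)
    (φ : MvPolynomial σ ka →ₐ[ka] A) (hφ : φ.toRingHom.IsIntegral)
    (a : MvPolynomial σ ka) (ha : a ≠ 0) (h0 : φ a = 0) : FinOver ka e A := by
  rcases subsingleton_or_nontrivial A with hA | hA
  · exact ⟨aeval fun _ => 0, RingHom.isIntegral_of_surjective _ fun b => ⟨0, Subsingleton.elim _ _⟩⟩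
  let Q := MvPolynomial σ ka ⧸ RingHom.ker φ
  have : Nontrivial Q := Ideal.Quotient.nontrivial_iff.mpr (RingHom.ker_ne_top φ)
  obtain ⟨s, g, hg, hgi⟩ := exists_integral_inj_algHom_of_fg ka Q
  let y : σ → Q := fun i => Ideal.Quotient.mk _ (X i)
  have hy : aeval (R := ka) y = Ideal.Quotient.mkₐ ka (RingHom.ker φ) := by
    ext i; rw [aeval_X]; rfl
  have hyi : (aeval (R := ka) y).toRingHom.IsIntegral := by
    rw [hy]
    exact RingHom.isIntegral_of_surjective _ (Ideal.Quotient.mkₐ_surjective ka _)
  have hx : AlgebraicIndependent ka (fun i => g (X i)) := by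
    rw [aeval_unique g] at hg
    exact hg
  obtain ⟨h1, h2⟩ := algInd_card_le y hyi _ hx
  have hs : s ≤ e := by
    by_contra hlt
    have h3 := h2 (by simp only [Fintype.card_fin]; omega)
    apply ha
    apply algebraicIndependent_iff.1 h3
    rw [hy]
    exact Ideal.Quotient.eq_zero_iff_mem.2 h0
  have hQ : FinOver ka e Q := FinOver.mono ⟨g, hgi⟩ hs
  refine hQ.of_integral (Ideal.kerLiftAlg φ) ?_
  have : φ.toRingHom = (Ideal.kerLiftAlg φ).toRingHom.comp (Ideal.Quotient.mk _) :=
    RingHom.ext fun r => (Ideal.kerLiftAlg_mk φ r).symm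
  rw [this] at hφ
  exact hφ.tower_top _ _

/-- MONIC. -/
theorem finOver_quotient {e : ℕ} (I : Ideal (MvPolynomial (Fin (e + 1)) ka))
    (a : MvPolynomial (Fin (e + 1)) ka) (ha : a ≠ 0) (haI : a ∈ I) :
    FinOver ka e (MvPolynomial (Fin (e + 1)) ka ⧸ I) :=
  FinOver.of_relation (by simp) (Ideal.Quotient.mkₐ ka I)
    (RingHom.isIntegral_of_surjective _ (Ideal.Quotient.mkₐ_surjective ka I)) a ha
    (Ideal.Quotient.eq_zero_iff_mem.2 haI)

theorem FinOver.polynomial {e : ℕ} (h : FinOver ka e A) : FinOver ka (e + 1) (Polynomial A) := by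
  obtain ⟨φ, hφ⟩ := h
  refine ⟨(Polynomial.mapAlgHom φ).comp (finSuccEquiv ka e).toAlgHom, ?_⟩
  refine RingHom.IsIntegral.trans (finSuccEquiv ka e).toAlgHom.toRingHom
    (Polynomial.mapAlgHom φ).toRingHom
    (RingHom.isIntegral_of_surjective _ (finSuccEquiv ka e).surjective) ?_
  intro p
  induction p using Polynomial.induction_on' with
  | add p q hp hq => exact RingHom.IsIntegralElem.add _ hp hq
  | monomial n a =>
    rw [← Polynomial.C_mul_X_pow_eq_monomial]
    refine RingHom.IsIntegralElem.mul _ ?_ ?_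
    · obtain ⟨q, hq, hq0⟩ := hφ a
      refine ⟨q.map Polynomial.C, hq.map _, ?_⟩
      rw [Polynomial.eval₂_map]
      have : (Polynomial.mapAlgHom φ).toRingHom.comp Polynomial.C =
          (Polynomial.C : A →+* Polynomial A).comp φ.toRingHom := by
        apply RingHom.ext; intro r; simp
      rw [this, ← Polynomial.hom_eval₂, hq0, map_zero]
    · have : (Polynomial.X ^ n : Polynomial A) =
          (Polynomial.mapAlgHom φ).toRingHom (Polynomial.X ^ n) := by simp
      rw [this]
      exact RingHom.isIntegralElem_map _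

end FinOver

section Top

variable {R : Type*} [CommRing R] {A : Type*} [CommRing A] [Algebra R A] {σ : Type*}

/-- A homogeneous polynomial scales by the power of its degree. -/
theorem aeval_smul_of_homogeneous {Ψ : MvPolynomial σ R} {d : ℕ} (h : Ψ.IsHomogeneous d)
    (t : A) (x : σ → A) : aeval (fun i => t * x i) Ψ = t ^ d * aeval x Ψ := by
  conv_lhs => rw [Ψ.as_sum]
  conv_rhs => rw [Ψ.as_sum]
  rw [map_sum, map_sum, Finset.mul_sum]
  refine Finset.sum_congr rfl fun m hm => ?_
  have hd : d = ∑ i ∈ m.support, m i := h.degree_eq_sum_deg_support hm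
  rw [aeval_monomial, aeval_monomial, hd]
  simp only [Finsupp.prod, mul_pow, Finset.prod_mul_distrib, Finset.prod_pow_eq_pow_sum]
  ring

theorem line_prod (b p : σ → A) (s : Finset σ) (m : σ → ℕ) :
    (∏ i ∈ s, (Polynomial.C (b i) + Polynomial.C (p i) * Polynomial.X) ^ m i).natDegree
        ≤ ∑ i ∈ s, m i ∧
      (∏ i ∈ s, (Polynomial.C (b i) + Polynomial.C (p i) * Polynomial.X) ^ m i).coeff
        (∑ i ∈ s, m i) = ∏ i ∈ s, p i ^ m i := by
  classical
  induction s using Finset.induction_on with
  | empty => simp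
  | insert a s ha ih =>
    rw [Finset.prod_insert ha, Finset.sum_insert ha, Finset.prod_insert ha]
    have h1 : (Polynomial.C (b a) + Polynomial.C (p a) * Polynomial.X).natDegree ≤ 1 := by
      compute_degree
    have h2 : ((Polynomial.C (b a) + Polynomial.C (p a) * Polynomial.X) ^ m a).natDegree
        ≤ m a := by
      simpa using Polynomial.natDegree_pow_le_of_le (m a) h1
    refine ⟨Polynomial.natDegree_mul_le_of_le h2 ih.1, ?_⟩
    rw [Polynomial.coeff_mul_add_eq_of_natDegree_le h2 ih.1, ih.2]
    have := Polynomial.coeff_pow_of_natDegree_le (m := m a) h1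
    rw [mul_one] at this
    rw [this]
    simp

/-- TOP: restriction of a polynomial to a line. -/
theorem top_line (f : MvPolynomial σ R) (b p : σ → A) {d : ℕ} (hd : f.totalDegree ≤ d) :
    (aeval (fun i => Polynomial.C (b i) + Polynomial.C (p i) * Polynomial.X) f).natDegree ≤ d ∧
      (aeval (fun i => Polynomial.C (b i) + Polynomial.C (p i) * Polynomial.X) f).coeff d
        = aeval p (homogeneousComponent d f) := by
  classical
  have key : ∀ m ∈ f.support,
      (aeval (fun i => Polynomial.C (b i) + Polynomial.C (p i) * Polynomial.X)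
        (monomial m (coeff m f))).natDegree ≤ m.degree ∧
      (aeval (fun i => Polynomial.C (b i) + Polynomial.C (p i) * Polynomial.X)
        (monomial m (coeff m f))).coeff m.degree = aeval p (monomial m (coeff m f)) := by
    intro m _
    obtain ⟨h1, h2⟩ := line_prod b p m.support m
    rw [aeval_monomial, aeval_monomial, Polynomial.algebraMap_apply]
    refine ⟨(Polynomial.natDegree_C_mul_le _ _).trans h1, ?_⟩
    rw [Polynomial.coeff_C_mul]
    exact congrArg _ h2
  have hle : ∀ m ∈ f.support, m.degree ≤ d := fun m hm => (le_totalDegree hm).trans hd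
  constructor
  · conv_lhs => rw [f.as_sum, map_sum]
    exact Polynomial.natDegree_sum_le_of_forall_le _ _ fun m hm => (key m hm).1.trans (hle m hm)
  · conv_lhs => rw [f.as_sum, map_sum]
    rw [Polynomial.finsetSum_coeff, homogeneousComponent_apply, map_sum, Finset.sum_filter]
    refine Finset.sum_congr rfl fun m hm => ?_
    split_ifs with h
    · rw [← h]; exact (key m hm).2
    · exact Polynomial.coeff_eq_zero_of_natDegree_lt
        (lt_of_le_of_lt (key m hm).1 (lt_of_le_of_ne (hle m hm) h))

end Top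

section Hom

variable {ka : Type*} [Field ka] {A : Type*} [CommRing A] [Algebra ka A]

/-- HOM: `e + 2` elements satisfy a nonzero homogeneous equation. -/
theorem FinOver.hom {e : ℕ} (h : FinOver ka e A) {σ : Type*} [Fintype σ] (x : σ → A)
    (hc : e + 2 ≤ Fintype.card σ) :
    ∃ (Ψ : MvPolynomial σ ka) (d : ℕ), Ψ ≠ 0 ∧ Ψ.IsHomogeneous d ∧ aeval x Ψ = 0 := by
  obtain ⟨Φ, hΦ, h0⟩ := h.polynomial.dep (fun i => Polynomial.X * Polynomial.C (x i)) hc
  have hex : ∃ d, homogeneousComponent d Φ ≠ 0 := by
    by_contra hne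
    push Not at hne
    apply hΦ
    rw [← sum_homogeneousComponent Φ]
    exact Finset.sum_eq_zero fun i _ => hne i
  obtain ⟨d, hd⟩ := hex
  refine ⟨homogeneousComponent d Φ, d, hd, homogeneousComponent_isHomogeneous d Φ, ?_⟩
  have hdl : d ∈ Finset.range (Φ.totalDegree + 1) := by
    by_contra hlt
    exact hd (homogeneousComponent_eq_zero _ _ (by simpa using hlt))
  rw [← sum_homogeneousComponent Φ, map_sum] at h0
  have h1 : ∀ j, aeval (fun i => Polynomial.X * Polynomial.C (x i)) (homogeneousComponent j Φ)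
      = Polynomial.monomial j (aeval x (homogeneousComponent j Φ)) := by
    intro j
    rw [aeval_smul_of_homogeneous (homogeneousComponent_isHomogeneous j Φ),
      ← Polynomial.C_mul_X_pow_eq_monomial, mul_comm]
    congr 1
    have : aeval (R := ka) (fun i => Polynomial.C (x i)) =
        (Polynomial.CAlgHom (R := ka) (A := A)).comp (aeval x) := by
      ext i; simp
    rw [this]; rfl
  simp_rw [h1] at h0
  have h2 := congrArg (fun q => Polynomial.coeff q d) h0
  simp only [Polynomial.finsetSum_coeff, Polynomial.coeff_monomial, Polynomial.coeff_zero,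
    Finset.sum_ite_eq', if_pos hdl] at h2
  exact h2

/-- A nonzero polynomial over `ka` does not vanish at some point with coordinates in `k`. -/
theorem exists_point_ne_zero (k : Type*) [Field k] [Infinite k] [Algebra k ka] {σ : Type*}
    (F : MvPolynomial σ ka) (hF : F ≠ 0) :
    ∃ q : σ → k, eval (fun i => algebraMap k ka (q i)) F ≠ 0 := by
  by_contra hne
  push Not at hne
  apply hF
  refine funext_set (fun _ => Set.range (algebraMap k ka))
    (fun _ => Set.infinite_range_of_injective (algebraMap k ka).injective) fun x hx => ?_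
  choose q hq using fun i => hx i (Set.mem_univ i)
  have : x = fun i => algebraMap k ka (q i) := funext fun i => (hq i).symm
  rw [this, hne, map_zero]

variable (k : Type*) [Field k] [Infinite k] [Algebra k ka]
  {U : Type*} [AddCommGroup U] [Module ka U]

/-- One elimination step of PROJ. -/
theorem FinOver.elim {e : ℕ} (h : FinOver ka e A) (ep : Fin (e + 1) → A) (z : A)
    (w0 : U) (hw : w0 ≠ 0) (hU : Module.finrank ka U = e + 2) (dep : Fin (e + 1) → U) (dz : U) :
    ∃ p : Fin (e + 1) → k,
      (∀ P : Ideal A, P.IsPrime → (∀ i, ep i + algebraMap k ka (p i) • z ∈ P) → z ∈ P) ∧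
      dz ∈ Submodule.span ka
        (insert w0 (Set.range fun i => dep i + algebraMap k ka (p i) • dz)) := by
  classical
  obtain ⟨Ψ, d, hΨ, hd, h0⟩ := h.hom (σ := Option (Fin (e + 1))) (fun o => o.elim z ep) (by simp)
  have : Module.Finite ka U := Module.finite_of_finrank_pos (by omega)
  -- a nonzero relation modulo `w0`
  obtain ⟨w, a, hw0, hrel⟩ : ∃ (w : Option (Fin (e + 1)) → ka) (a : ka), w ≠ 0 ∧
      a • w0 + ∑ o, w o • (o.elim dz dep : U) = 0 := by
    have hnl : ¬ LinearIndependent ka
        (fun o : Option (Option (Fin (e + 1))) => (o.elim w0 fun o => o.elim dz dep : U)) := by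
      intro hl
      have := hl.fintype_card_le_finrank
      simp at this
      omega
    rw [Fintype.not_linearIndependent_iff] at hnl
    obtain ⟨g, hg, j, hj⟩ := hnl
    rw [Fintype.sum_option] at hg
    refine ⟨fun o => g (some o), g none, fun hz => ?_, hg⟩
    have hz' : ∀ o, g (some o) = 0 := fun o => congrFun hz o
    simp only [hz', zero_smul, Finset.sum_const_zero, add_zero, Option.elim_none] at hg
    rcases j with _ | j
    · exact hj ((smul_eq_zero.1 hg).resolve_right hw)
    · exact hj (hz' j)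
  let L : MvPolynomial (Option (Fin (e + 1))) ka := ∑ o, C (w o) * X o
  have hL : L ≠ 0 := by
    intro hL0
    apply hw0
    funext o
    have := congrArg (eval (Pi.single o 1)) hL0
    simpa [L, Pi.single_apply, -Fintype.sum_option] using this
  obtain ⟨q, hq⟩ := exists_point_ne_zero k (Ψ * L * X none)
    (mul_ne_zero (mul_ne_zero hΨ hL) (X_ne_zero _))
  rw [map_mul, map_mul, eval_X] at hq
  have hq1 := left_ne_zero_of_mul (left_ne_zero_of_mul hq)
  have hq2 := right_ne_zero_of_mul (left_ne_zero_of_mul hq)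
  have hq3 := right_ne_zero_of_mul hq
  refine ⟨fun i => - q (some i) / q none, fun P hP hin => ?_, ?_⟩
  · let π := Ideal.Quotient.mkₐ ka P
    have e1 : (fun o : Option (Fin (e + 1)) => π (o.elim z ep)) = fun o =>
        ((algebraMap k ka (q none))⁻¹ • π z) * algebraMap ka (A ⧸ P) (algebraMap k ka (q o)) := by
      funext o
      rw [mul_comm, ← Algebra.smul_def, smul_smul]
      rcases o with _ | i
      · simp [mul_inv_cancel₀ hq3]
      · have : π (ep i + algebraMap k ka (- q (some i) / q none) • z) = 0 :=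
          Ideal.Quotient.eq_zero_iff_mem.2 (hin i)
        rw [map_add, map_smul, add_eq_zero_iff_eq_neg, ← neg_smul] at this
        simp only [Option.elim_some]
        rw [this]
        congr 1
        simp [div_eq_mul_inv]
    have e2 : π (aeval (fun o : Option (Fin (e + 1)) => o.elim z ep) Ψ) = 0 := by
      rw [h0, map_zero]
    rw [← AlgHom.comp_apply, comp_aeval] at e2
    change aeval (fun o : Option (Fin (e + 1)) => π (o.elim z ep)) Ψ = 0 at e2
    rw [e1, aeval_smul_of_homogeneous hd] at e2
    have e3 : aeval (fun o => algebraMap ka (A ⧸ P) (algebraMap k ka (q o))) Ψ ≠ 0 := by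
      have := aeval_algebraMap_apply (R := ka) (A ⧸ P) (fun o => algebraMap k ka (q o)) Ψ
      rw [Function.comp_def] at this
      rw [this]
      exact (map_ne_zero _).2 hq1
    have e4 := eq_zero_of_pow_eq_zero ((mul_eq_zero.1 e2).resolve_right e3)
    exact Ideal.Quotient.eq_zero_iff_mem.1 ((smul_eq_zero.1 e4).resolve_left (inv_ne_zero hq3))
  · set W := Submodule.span ka (insert w0 (Set.range fun i =>
      dep i + algebraMap k ka (- q (some i) / q none) • dz)) with hW
    have m0 : w0 ∈ W := Submodule.subset_span (Set.mem_insert _ _)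
    have m1 : ∀ i, dep i + algebraMap k ka (- q (some i) / q none) • dz ∈ W := fun i =>
      Submodule.subset_span (Set.mem_insert_of_mem _ ⟨i, rfl⟩)
    have m2 : a • w0 + ∑ i, w (some i) • (dep i + algebraMap k ka (- q (some i) / q none) • dz)
        ∈ W := W.add_mem (W.smul_mem _ m0) (W.sum_mem fun i _ => W.smul_mem _ (m1 i))
    have e1 : a • w0 + ∑ i, w (some i) • (dep i + algebraMap k ka (- q (some i) / q none) • dz)
        = (- (eval (fun i => algebraMap k ka (q i)) L / algebraMap k ka (q none))) • dz := by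
      rw [Fintype.sum_option] at hrel
      simp only [Option.elim_none, Option.elim_some] at hrel
      have e2 : - (eval (fun i => algebraMap k ka (q i)) L / algebraMap k ka (q none))
          = - w none + ∑ i, w (some i) * algebraMap k ka (- q (some i) / q none) := by
        simp only [L, map_sum, map_mul, eval_C, eval_X, Fintype.sum_option, map_add, map_div₀,
          map_neg, add_div, Finset.sum_div, neg_add, ← Finset.sum_neg_distrib]
        congr 1
        · rw [mul_div_assoc, div_self hq3, mul_one]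
        · exact Finset.sum_congr rfl fun i _ => by ring
      rw [e2, add_smul, Finset.sum_smul]
      simp only [smul_add, Finset.sum_add_distrib, smul_smul]
      rw [← add_assoc]
      congr 1
      rw [neg_smul, eq_neg_iff_add_eq_zero, ← hrel]
      abel
    rw [e1] at m2
    exact (W.smul_mem_iff (neg_ne_zero.2 (div_ne_zero hq2 hq3))).1 m2

omit [Infinite k] in
theorem sum_update_smul {ι : Type*} [DecidableEq ι] {s : Finset ι} {a : ι} (ha : a ∉ s)
    (c : ι → k) (p : k) (v : ι → U) :
    ∑ j ∈ insert a s, algebraMap k ka (Function.update c a p j) • v j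
      = algebraMap k ka p • v a + ∑ j ∈ s, algebraMap k ka (c j) • v j := by
  rw [Finset.sum_insert ha, Function.update_self]
  congr 1
  refine Finset.sum_congr rfl fun j hj => ?_
  rw [Function.update_of_ne (ne_of_mem_of_not_mem hj ha)]

/-- PROJ (prime ideal form). -/
theorem FinOver.proj {e : ℕ} (h : FinOver ka e A) {ι : Type*} [Fintype ι]
    (ep : Fin (e + 1) → A) (de : ι → A) (w0 : U) (hw : w0 ≠ 0)
    (hU : Module.finrank ka U = e + 2) (dep : Fin (e + 1) → U) (dde : ι → U)
    (hsp : Submodule.span ka (insert w0 (Set.range dep ∪ Set.range dde)) = ⊤) :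
    ∃ c : Fin (e + 1) → ι → k,
      (∀ P : Ideal A, P.IsPrime → (∀ i, ep i + ∑ j, algebraMap k ka (c i j) • de j ∈ P) →
        ∀ j, de j ∈ P) ∧
      Submodule.span ka (insert w0
        (Set.range fun i => dep i + ∑ j, algebraMap k ka (c i j) • dde j)) = ⊤ := by
  classical
  suffices H : ∀ (s : Finset ι) (ep : Fin (e + 1) → A) (dep : Fin (e + 1) → U),
      Submodule.span ka (insert w0 (Set.range dep ∪ dde '' s)) = ⊤ →
      ∃ c : Fin (e + 1) → ι → k,
        (∀ P : Ideal A, P.IsPrime → (∀ i, ep i + ∑ j ∈ s, algebraMap k ka (c i j) • de j ∈ P) →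
          ∀ j ∈ s, de j ∈ P) ∧
        Submodule.span ka (insert w0
          (Set.range fun i => dep i + ∑ j ∈ s, algebraMap k ka (c i j) • dde j)) = ⊤ by
    obtain ⟨c, h1, h2⟩ := H Finset.univ ep dep (by simpa using hsp)
    exact ⟨c, fun P hP hi j => h1 P hP hi j (Finset.mem_univ j), h2⟩
  intro s
  induction s using Finset.induction_on with
  | empty =>
    intro ep dep hs
    exact ⟨0, fun _ _ _ j hj => absurd hj (Finset.notMem_empty j), by simpa using hs⟩
  | insert a s ha ih =>
    intro ep dep hs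
    obtain ⟨p, hp1, hp2⟩ := h.elim k ep (de a) w0 hw hU dep (dde a)
    obtain ⟨c, hc1, hc2⟩ := ih (fun i => ep i + algebraMap k ka (p i) • de a)
      (fun i => dep i + algebraMap k ka (p i) • dde a) (by
        rw [eq_top_iff, ← hs, Submodule.span_le]
        set W := Submodule.span ka (insert w0
          (Set.range (fun i => dep i + algebraMap k ka (p i) • dde a) ∪ dde '' s))
        have m1 : dde a ∈ W :=
          Submodule.span_mono (Set.insert_subset_insert Set.subset_union_left) hp2
        rintro v (rfl | ⟨i, rfl⟩ | ⟨j, hj, rfl⟩)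
        · exact Submodule.subset_span (Set.mem_insert _ _)
        · have m2 : dep i + algebraMap k ka (p i) • dde a ∈ W :=
            Submodule.subset_span (Set.mem_insert_of_mem _ (Or.inl ⟨i, rfl⟩))
          simpa using W.sub_mem m2 (W.smul_mem (algebraMap k ka (p i)) m1)
        · rcases Finset.mem_insert.1 (Finset.mem_coe.1 hj) with rfl | hj
          · exact m1
          · exact Submodule.subset_span (Set.mem_insert_of_mem _ (Or.inr ⟨j, hj, rfl⟩)))
    refine ⟨fun i => Function.update (c i) a (p i), fun P hP hi => ?_, ?_⟩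
    · simp only [sum_update_smul k ha, ← add_assoc] at hi
      have h1 := hc1 P hP hi
      have h2 : de a ∈ P := hp1 P hP fun i => by
        have h3 : ∑ j ∈ s, algebraMap k ka (c i j) • de j ∈ P :=
          P.sum_mem fun j hj => P.smul_of_tower_mem _ (h1 j hj)
        simpa using P.sub_mem (hi i) h3
      intro j hj
      rcases Finset.mem_insert.1 hj with rfl | hj
      · exact h2
      · exact h1 j hj
    · simpa only [sum_update_smul k ha, ← add_assoc] using hc2

/-- PROJ (maps to a domain, in particular to a field). -/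
theorem FinOver.proj_map {e : ℕ} (h : FinOver ka e A) {ι : Type*} [Fintype ι]
    (ep : Fin (e + 1) → A) (de : ι → A) (w0 : U) (hw : w0 ≠ 0)
    (hU : Module.finrank ka U = e + 2) (dep : Fin (e + 1) → U) (dde : ι → U)
    (hsp : Submodule.span ka (insert w0 (Set.range dep ∪ Set.range dde)) = ⊤) :
    ∃ c : Fin (e + 1) → ι → k,
      (∀ (L : Type v) [CommRing L] [IsDomain L] (φ : A →+* L),
        (∀ i, φ (ep i + ∑ j, algebraMap k ka (c i j) • de j) = 0) → ∀ j, φ (de j) = 0) ∧
      Submodule.span ka (insert w0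
        (Set.range fun i => dep i + ∑ j, algebraMap k ka (c i j) • dde j)) = ⊤ := by
  obtain ⟨c, h1, h2⟩ := h.proj k ep de w0 hw hU dep dde hsp
  exact ⟨c, fun L _ _ φ hφ j => h1 (RingHom.ker φ) (RingHom.ker_isPrime φ) hφ j, h2⟩

end Hom

section Hyper

variable {ka : Type*} [Field ka]

/-- The quotient `ka[t][X] / I` is integral over `ka[t]` when `I` contains a monic polynomial. -/
theorem isIntegral_quot_of_monic {R : Type*} [CommRing R] (I : Ideal (Polynomial R))
    (G : Polynomial R) (hG : G.Monic) (hGI : G ∈ I) :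
    ((Ideal.Quotient.mk I).comp (Polynomial.C : R →+* Polynomial R)).IsIntegral := by
  intro b
  obtain ⟨p, rfl⟩ := Ideal.Quotient.mk_surjective b
  have hX : ((Ideal.Quotient.mk I).comp (Polynomial.C : R →+* Polynomial R)).IsIntegralElem
      (Ideal.Quotient.mk I Polynomial.X) := by
    refine ⟨G, hG, ?_⟩
    rw [← Polynomial.hom_eval₂, Polynomial.eval₂_C_X]
    exact Ideal.Quotient.eq_zero_iff_mem.2 hGI
  induction p using Polynomial.induction_on with
  | C a => exact RingHom.isIntegralElem_map _
  | add p q hp hq => rw [map_add]; exact RingHom.IsIntegralElem.add _ hp hq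
  | monomial n a h => rw [pow_succ, ← mul_assoc, map_mul]; exact RingHom.IsIntegralElem.mul _ h hX

/-- `ka[t_1..t_(e+1)][X] / I` with `C a, G` in `I`, `a ≠ 0`, `G` monic. -/
theorem finOver_hyper {σ : Type*} [Fintype σ] {e : ℕ} (hc : Fintype.card σ ≤ e + 1)
    (a : MvPolynomial σ ka) (ha : a ≠ 0) (G : Polynomial (MvPolynomial σ ka)) (hG : G.Monic)
    (I : Ideal (Polynomial (MvPolynomial σ ka))) (haI : Polynomial.C a ∈ I) (hGI : G ∈ I) :
    FinOver ka e (Polynomial (MvPolynomial σ ka) ⧸ I) :=
  FinOver.of_relation hc ((Ideal.Quotient.mkₐ ka I).comp Polynomial.CAlgHom)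
    (isIntegral_quot_of_monic I G hG hGI) a ha (Ideal.Quotient.eq_zero_iff_mem.2 haI)

/-- HOM for a hypersurface section, ideal form (`m = 0` included). -/
theorem hom_mem {m : ℕ} (a : MvPolynomial (Fin m) ka) (ha : a ≠ 0)
    (G : Polynomial (MvPolynomial (Fin m) ka)) (hG : G.Monic) {ι : Type*} [Fintype ι]
    (hc : m + 1 ≤ Fintype.card ι) (x : ι → Polynomial (MvPolynomial (Fin m) ka)) :
    ∃ (Ψ : MvPolynomial ι ka) (N : ℕ), Ψ ≠ 0 ∧ Ψ.IsHomogeneous N ∧
      aeval x Ψ ∈ Ideal.span {Polynomial.C a, G} := by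
  rcases m with _ | e
  · refine ⟨1, 0, one_ne_zero, isHomogeneous_one _ _, ?_⟩
    have hu : IsUnit a := by
      rw [eq_C_of_isEmpty a] at ha ⊢
      exact (IsUnit.mk0 _ fun h => ha (by rw [h, map_zero])).map C
    rw [Ideal.eq_top_of_isUnit_mem _ (Ideal.subset_span (Set.mem_insert _ _))
      (hu.map Polynomial.C)]
    exact Submodule.mem_top
  · obtain ⟨Ψ, N, h1, h2, h3⟩ := (finOver_hyper (e := e) (by simp) a ha G hG
      (Ideal.span {Polynomial.C a, G}) (Ideal.subset_span (Set.mem_insert _ _))
      (Ideal.subset_span (Set.mem_insert_of_mem _ rfl))).hom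
      (fun i => Ideal.Quotient.mkₐ ka _ (x i)) hc
    refine ⟨Ψ, N, h1, h2, Ideal.Quotient.eq_zero_iff_mem.1 ?_⟩
    rw [← comp_aeval] at h3
    exact h3

/-- HOM in the form of the section 8 skeleton. -/
theorem hom_gen {m : ℕ} (a : MvPolynomial (Fin m) ka) (ha : a ≠ 0)
    (G : Polynomial (MvPolynomial (Fin m) ka)) (hG : G.Monic) {ι : Type*} [Fintype ι]
    (hc : m + 1 ≤ Fintype.card ι) (x : ι → Polynomial (MvPolynomial (Fin m) ka)) :
    ∃ (Ψ : MvPolynomial ι ka) (N : ℕ), Ψ ≠ 0 ∧ Ψ.IsHomogeneous N ∧
      ∀ (Om : Type v) [CommRing Om] [Algebra ka Om]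
        (φ : Polynomial (MvPolynomial (Fin m) ka) →ₐ[ka] Om),
        φ (Polynomial.C a) = 0 → φ G = 0 → aeval (fun i => φ (x i)) Ψ = 0 := by
  obtain ⟨Ψ, N, h1, h2, h3⟩ := hom_mem a ha G hG hc x
  refine ⟨Ψ, N, h1, h2, fun Om _ _ φ ha hG => ?_⟩
  obtain ⟨u, w, huw⟩ := Ideal.mem_span_pair.1 h3
  rw [← comp_aeval, AlgHom.comp_apply, ← huw, map_add, map_mul, map_mul, ha, hG]
  simp

end Hyper

end Pool.Agent.GR

open Polynomial

namespace Pool.Agent.GR

/-! ### The statements of the section 8 skeleton -/

theorem hom {κ : Type u} [Field κ] {m : ℕ} (a : MvPolynomial (Fin m) κ) (ha : a ≠ 0)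
    (G : (MvPolynomial (Fin m) κ)[X]) (hG : G.Monic) {ι : Type} [Fintype ι]
    (hι : m + 1 ≤ Fintype.card ι) (x : ι → (MvPolynomial (Fin m) κ)[X]) :
    ∃ (Ψ : MvPolynomial ι κ) (N : ℕ), Ψ ≠ 0 ∧ Ψ.IsHomogeneous N ∧
      ∀ (Ω : Type u) [Field Ω] [Algebra κ Ω] (φ : (MvPolynomial (Fin m) κ)[X] →ₐ[κ] Ω),
        φ (C a) = 0 → φ G = 0 → MvPolynomial.aeval (fun i => φ (x i)) Ψ = 0 := by
  obtain ⟨Ψ, N, h1, h2, h3⟩ := hom_gen.{u} a ha G hG hι x
  exact ⟨Ψ, N, h1, h2, fun Ω _ _ φ => h3 Ω φ⟩

theorem top {V B : Type u} [CommRing V] [CommRing B] (φ : V →+* B) {d : ℕ}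
    (h : MvPolynomial (Fin d) V) {N : ℕ} (hN : h.totalDegree ≤ N) (b p : Fin d → B) :
    (MvPolynomial.eval₂ (C.comp φ) (fun i => C (b i) + C (p i) * X) h).natDegree ≤ N ∧
      (MvPolynomial.eval₂ (C.comp φ) (fun i => C (b i) + C (p i) * X) h).coeff N =
        MvPolynomial.eval₂ φ p (MvPolynomial.homogeneousComponent N h) := by
  let _ := φ.toAlgebra
  exact top_line h b p hN

theorem proj (k : Type u) {κ : Type u} [Field k] [Infinite k] [Field κ] [Algebra k κ] {m : ℕ}
    (a : MvPolynomial (Fin m) κ) (ha : a ≠ 0) (G : (MvPolynomial (Fin m) κ)[X]) (hG : G.Monic)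
    {U : Type u} [AddCommGroup U] [Module κ U] (hU : Module.finrank κ U = m + 1) (w0 : U)
    (hw : w0 ≠ 0) {ι : Type} [Fintype ι] (ε : Fin m → (MvPolynomial (Fin m) κ)[X])
    (δ : ι → (MvPolynomial (Fin m) κ)[X]) (dε : Fin m → U) (dδ : ι → U)
    (hs : Submodule.span κ (insert w0 (Set.range dε ∪ Set.range dδ)) = ⊤) :
    ∃ c : Fin m → ι → k,
      (∀ (Ω : Type u) [Field Ω] [Algebra κ Ω] (φ : (MvPolynomial (Fin m) κ)[X] →ₐ[κ] Ω),
        φ (C a) = 0 → φ G = 0 →
        (∀ i, φ (ε i + ∑ j, algebraMap k κ (c i j) • δ j) = 0) → ∀ j, φ (δ j) = 0) ∧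
      Submodule.span κ (insert w0
        (Set.range fun i => dε i + ∑ j, algebraMap k κ (c i j) • dδ j)) = ⊤ := by
  rcases m with _ | e
  · refine ⟨0, fun Ω _ _ φ h0 => ?_, ?_⟩
    · have hu : IsUnit a := by
        rw [MvPolynomial.eq_C_of_isEmpty a] at ha ⊢
        exact (IsUnit.mk0 _ fun h => ha (by rw [h, map_zero])).map MvPolynomial.C
      exact absurd h0 ((hu.map C).map φ).ne_zero
    · have : Module.Finite κ U := Module.finite_of_finrank_pos (by omega)
      rw [eq_top_iff]
      refine le_trans (le_of_eq ?_) (Submodule.span_mono (Set.singleton_subset_iff.2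
        (Set.mem_insert w0 _)))
      exact (Submodule.eq_top_of_finrank_eq (by rw [finrank_span_singleton hw, hU])).symm
  · let I : Ideal (MvPolynomial (Fin (e + 1)) κ)[X] := Ideal.span {C a, G}
    obtain ⟨c, h1, h2⟩ := (finOver_hyper (e := e) (by simp) a ha G hG I
      (Ideal.subset_span (Set.mem_insert _ _))
      (Ideal.subset_span (Set.mem_insert_of_mem _ rfl))).proj_map.{u} k
      (fun i => Ideal.Quotient.mkₐ κ I (ε i)) (fun j => Ideal.Quotient.mkₐ κ I (δ j)) w0 hw hU
      dε dδ hs
    refine ⟨c, fun Ω _ _ φ ha hG hi j => ?_, h2⟩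
    have hI : ∀ f ∈ I, φ.toRingHom f = 0 := by
      intro f hf
      obtain ⟨u, w, rfl⟩ := Ideal.mem_span_pair.1 hf
      change φ _ = 0
      rw [map_add, map_mul, map_mul, ha, hG]
      simp
    refine h1 Ω (Ideal.Quotient.lift I φ.toRingHom hI) (fun i => ?_) j
    simp only [← map_smul, ← map_sum, ← map_add]
    exact hi i

end Pool.Agent.GR
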