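import Pool.Agent.P.MP_c1f06d_ag.r.S8Defs
import Pool.Agent.P.MP_c1f06d_ag.r.Hom

open Matrix Polynomial IsLocalRing Pool.Agent.P.MP_c1f06d_ag

universe u

namespace Pool.Agent.GR

theorem Prim.exists_unit {V : Type u} [CommRing V] [IsLocalRing V] {σ : Type}
    {a : MvPolynomial σ V} (ha : Prim a) : ∃ m, IsUnit (a.coeff m) := by
  by_contra hne
  push Not at hne
  apply ha
  ext m
  rw [MvPolynomial.coeff_map, MvPolynomial.coeff_zero, residue_eq_zero_iff]
  exact hne m

theorem prim_of_unit {V : Type u} [CommRing V] [IsLocalRing V] {σ : Type}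
    {a : MvPolynomial σ V} {m : σ →₀ ℕ} (ha : IsUnit (a.coeff m)) : Prim a := by
  intro h0
  have h1 := congrArg (MvPolynomial.coeff m) h0
  rw [MvPolynomial.coeff_map, MvPolynomial.coeff_zero, residue_eq_zero_iff] at h1
  exact h1 ha

theorem Prim.map_ne_zero {V : Type u} [CommRing V] [IsLocalRing V] {σ : Type}
    {a : MvPolynomial σ V} (ha : Prim a) {W : Type*} [CommRing W] [Nontrivial W] (ψ : V →+* W) :
    MvPolynomial.map ψ a ≠ 0 := by
  obtain ⟨m, hm⟩ := ha.exists_unit
  intro h0
  have h1 := congrArg (MvPolynomial.coeff m) h0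
  rw [MvPolynomial.coeff_map, MvPolynomial.coeff_zero] at h1
  exact (hm.map ψ).ne_zero h1

theorem finSuccEquiv_map' {V W : Type*} [CommRing V] [CommRing W] (ψ : V →+* W) {m : ℕ}
    (a : MvPolynomial (Fin (m + 1)) V) :
    MvPolynomial.finSuccEquiv W m (MvPolynomial.map ψ a) =
      (MvPolynomial.finSuccEquiv V m a).map (MvPolynomial.map ψ) := by
  ext i s
  rw [Polynomial.coeff_map, MvPolynomial.coeff_map, MvPolynomial.finSuccEquiv_coeff_coeff,
    MvPolynomial.finSuccEquiv_coeff_coeff, MvPolynomial.coeff_map]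

theorem prim_top_of_monic {V : Type u} [CommRing V] [IsLocalRing V] {m : ℕ}
    {h : MvPolynomial (Fin (m + 1)) V} {N : ℕ} (hm : (MvPolynomial.finSuccEquiv V m h).Monic)
    (hn : (MvPolynomial.finSuccEquiv V m h).natDegree = N) :
    Prim (MvPolynomial.homogeneousComponent N h) := by
  refine prim_of_unit (m := Finsupp.cons N 0) ?_
  rw [MvPolynomial.coeff_homogeneousComponent, if_pos, ← MvPolynomial.finSuccEquiv_coeff_coeff,
    ← hn, hm.coeff_natDegree]
  · simp
  · rw [Finsupp.degree_eq_sum, Fin.sum_univ_succ]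
    simp

theorem top_ev {V B : Type u} [CommRing V] [CommRing B] (φ : V →+* B) {d : ℕ}
    {h : MvPolynomial (Fin d) V} {N : ℕ} (hN : h.totalDegree ≤ N) (b p : Fin d → B) :
    (MvPolynomial.eval₂ (C.comp φ) (fun i => C (b i) + C (p i) * X) h).natDegree ≤ N ∧
      (MvPolynomial.eval₂ (C.comp φ) (fun i => C (b i) + C (p i) * X) h).coeff N =
        MvPolynomial.eval₂ φ p (MvPolynomial.homogeneousComponent N h) := by
  let _ : Algebra V B := φ.toAlgebra
  exact top_line h b p hN

section poly

variable {V B : Type u} [CommRing V] [IsDomain V] [ValuationRing V] [CommRing B] [IsDomain B]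
  [IsLocalRing B]

theorem line (k : Type u) [Field k] [Infinite k] [Algebra k V] {m : ℕ}
    {π : MvPolynomial (Fin (m + 1)) V →+* B} {h : MvPolynomial (Fin (m + 1)) V} {N : ℕ}
    (hG : Good π h N) (u : MvPolynomial (Fin m) V) (hu : Prim u) :
    ∃ q : Fin (m + 1) → V, (lam π q h).natDegree ≤ N ∧ IsUnit ((lam π q h).coeff N) ∧
      ∀ (Ω : Type u) [Field Ω] (φ : B[X] →+* Ω), (∀ b ∈ maximalIdeal B, φ (C b) = 0) →
        φ (lam π q h) = 0 → φ (lam π q ((MvPolynomial.finSuccEquiv V m).symm (C u))) = 0 →
          φ X = 0 := by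
  let ψ : V →+* ResidueField B := (residue B).comp (π.comp MvPolynomial.C)
  let _ : Algebra k (ResidueField B) := (ψ.comp (algebraMap k V)).toAlgebra
  have hk : ∀ c : k, algebraMap k (ResidueField B) c = ψ (algebraMap k V c) := fun _ => rfl
  obtain ⟨Ψ, N', hΨ, hh, h0⟩ := hom.{u} (MvPolynomial.map ψ u) (hu.map_ne_zero ψ)
    (MvPolynomial.finSuccEquiv _ m (MvPolynomial.map ψ h))
    (by rw [finSuccEquiv_map']; exact hG.monic.map _) (ι := Fin (m + 1)) (by simp)
    (fun i => MvPolynomial.finSuccEquiv _ m (MvPolynomial.X i) -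
      C (MvPolynomial.C (residue B (π (MvPolynomial.X i)))))
  obtain ⟨q0, hq⟩ := exists_point_ne_zero k
    (Ψ * MvPolynomial.map ψ (MvPolynomial.homogeneousComponent N h))
    (mul_ne_zero hΨ ((prim_top_of_monic hG.monic hG.nat).map_ne_zero ψ))
  rw [map_mul] at hq
  have ht := top_ev (π.comp MvPolynomial.C) hG.deg (fun i => π (MvPolynomial.X i))
    (fun i => π (MvPolynomial.C (algebraMap k V (q0 i))))
  refine ⟨fun i => algebraMap k V (q0 i), ht.1, ?_, fun Ω _ φ hφ h1 h2 => ?_⟩
  · have e : (lam π (fun i => algebraMap k V (q0 i)) h).coeff N = _ := ht.2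
    rw [e, ← residue_ne_zero_iff_isUnit, MvPolynomial.eval₂_comp_left]
    have h3 := right_ne_zero_of_mul hq
    rw [MvPolynomial.eval_map] at h3
    exact h3
  · let j : ResidueField B →+* Ω := Ideal.Quotient.lift (maximalIdeal B) (φ.comp C) hφ
    have hj : ∀ b, j (residue B b) = φ (C b) := fun _ => rfl
    let _ : Algebra (ResidueField B) Ω := j.toAlgebra
    have hj' : ∀ b, algebraMap (ResidueField B) Ω b = j b := fun _ => rfl
    let pt : Fin (m + 1) → Ω := fun i =>
      φ (lam π (fun i => algebraMap k V (q0 i)) (MvPolynomial.X i))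
    have key : ∀ a, MvPolynomial.aeval pt (MvPolynomial.map ψ a) =
        φ (lam π (fun i => algebraMap k V (q0 i)) a) := by
      intro a
      have : ((MvPolynomial.aeval pt : MvPolynomial _ (ResidueField B) →ₐ[_] Ω) :
          MvPolynomial _ (ResidueField B) →+* Ω).comp (MvPolynomial.map ψ) =
          φ.comp (lam π fun i => algebraMap k V (q0 i)) := by
        refine MvPolynomial.ringHom_ext (fun v => ?_) fun i => ?_
        · simp [lam, hj', ψ, hj]
        · simp [pt]
      exact RingHom.congr_fun this a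
    have h3 := h0 Ω ((MvPolynomial.aeval pt).comp
      (MvPolynomial.finSuccEquiv (ResidueField B) m).symm.toAlgHom) ?_ ?_
    · have e : (fun i => ((MvPolynomial.aeval pt).comp
          (MvPolynomial.finSuccEquiv (ResidueField B) m).symm.toAlgHom)
          (MvPolynomial.finSuccEquiv _ m (MvPolynomial.X i) -
            C (MvPolynomial.C (residue B (π (MvPolynomial.X i)))))) =
          fun i => φ X * algebraMap (ResidueField B) Ω (algebraMap k (ResidueField B) (q0 i)) := by
        funext i
        have e1 : (C (MvPolynomial.C (residue B (π (MvPolynomial.X i)))) :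
            (MvPolynomial (Fin m) (ResidueField B))[X]) =
            algebraMap (ResidueField B) _ (residue B (π (MvPolynomial.X i))) := rfl
        rw [map_sub, e1, AlgHom.commutes]
        have e2 : ((MvPolynomial.aeval pt).comp
            (MvPolynomial.finSuccEquiv (ResidueField B) m).symm.toAlgHom)
            (MvPolynomial.finSuccEquiv _ m (MvPolynomial.X i)) = pt i := by simp
        have e3 : pt i = φ (C (π (MvPolynomial.X i)) +
            C (π (MvPolynomial.C (algebraMap k V (q0 i)))) * X) := by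
          simp only [pt, lam, MvPolynomial.eval₂Hom_X']
        rw [e2, e3, map_add, map_mul, ← hj, ← hj, hj', hj', hk]
        exact (add_sub_cancel_left _ _).trans (mul_comm _ _)
      rw [e, aeval_smul_of_homogeneous hh] at h3
      have e2 : MvPolynomial.aeval (fun i => algebraMap (ResidueField B) Ω
          (algebraMap k (ResidueField B) (q0 i))) Ψ ≠ 0 := by
        have e4 := MvPolynomial.aeval_algebraMap_apply Ω
          (fun i => algebraMap k (ResidueField B) (q0 i)) Ψ
        rw [Function.comp_def] at e4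
        rw [e4]
        exact (_root_.map_ne_zero _).2 (left_ne_zero_of_mul hq)
      exact eq_zero_of_pow_eq_zero ((mul_eq_zero.1 h3).resolve_right e2)
    · rw [← h2, ← key]
      have : (C (MvPolynomial.map ψ u) : (MvPolynomial (Fin m) (ResidueField B))[X]) =
          MvPolynomial.finSuccEquiv _ m (MvPolynomial.map ψ
            ((MvPolynomial.finSuccEquiv V m).symm (C u))) := by
        rw [finSuccEquiv_map', AlgEquiv.apply_symm_apply, Polynomial.map_C]
      rw [this]
      simp
    · rw [← h1, ← key]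
      simp

theorem lam_eval {V B : Type u} [CommRing V] [CommRing B] {d : ℕ}
    (π : MvPolynomial (Fin d) V →+* B) (q : Fin d → V) (a : MvPolynomial (Fin d) V) :
    (lam π q a).eval 0 = π a := by
  have : (Polynomial.evalRingHom 0).comp (lam π q) = π := by
    refine MvPolynomial.ringHom_ext (fun v => ?_) fun i => ?_
    · simp [lam]
    · simp [lam]
  exact RingHom.congr_fun this a

theorem shear_comp {V : Type u} [CommRing V] {d : ℕ} (q q' : Fin d → V) (hq : q + q' = 0) :
    (eval₂RingHom (lam (RingHom.id (MvPolynomial (Fin d) V)) q) X).comp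
      (eval₂RingHom (lam (RingHom.id (MvPolynomial (Fin d) V)) q') X) = RingHom.id _ := by
  refine Polynomial.ringHom_ext' (MvPolynomial.ringHom_ext (fun v => ?_) fun i => ?_) ?_
  · simp [lam]
  · have : q i + q' i = 0 := congrFun hq i
    simp only [lam, RingHom.comp_apply, coe_eval₂RingHom, eval₂_C, MvPolynomial.eval₂Hom_X',
      RingHom.id_apply, eval₂_add, eval₂_mul, eval₂_X, MvPolynomial.eval₂Hom_C]
    rw [add_assoc, ← add_mul, ← map_add, ← map_add, this]
    simp
  · simp

theorem lam_flat {V B : Type u} [CommRing V] [CommRing B] {d : ℕ}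
    {π : MvPolynomial (Fin d) V →+* B} (hp : PolyP π) (q : Fin d → V) : (lam π q).Flat := by
  have e : lam π q = (mapRingHom π).comp
      ((eval₂RingHom (lam (RingHom.id (MvPolynomial (Fin d) V)) q) X).comp C) := by
    refine MvPolynomial.ringHom_ext (fun v => ?_) fun i => ?_
    · simp [lam]
    · simp [lam]
  rw [e]
  refine RingHom.Flat.comp (RingHom.Flat.comp ?_ (RingHom.Flat.of_bijective ?_)) ?_
  · have : (C : MvPolynomial (Fin d) V →+* _) = algebraMap _ (MvPolynomial (Fin d) V)[X] := rfl
    rw [this, RingHom.flat_algebraMap_iff]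
    infer_instance
  · refine Function.bijective_iff_has_inverse.2
      ⟨eval₂RingHom (lam (RingHom.id (MvPolynomial (Fin d) V)) (-q)) X, fun a => ?_, fun a => ?_⟩
    · exact RingHom.congr_fun (shear_comp (-q) q (neg_add_cancel q)) a
    · exact RingHom.congr_fun (shear_comp q (-q) (add_neg_cancel q)) a
  · let _ : Algebra (MvPolynomial (Fin d) V) B := π.toAlgebra
    have : IsLocalization ((IsUnit.submonoid B).comap π) B :=
      { map_units := fun y => y.2
        surj := fun r => by
          obtain ⟨a, s, hs, e⟩ := hp.surj r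
          exact ⟨⟨a, ⟨s, hs⟩⟩, e⟩
        exists_of_eq := fun {x y} hxy => ⟨1, by rw [hp.inj hxy]⟩ }
    let _ : Algebra (MvPolynomial (Fin d) V)[X] B[X] := Polynomial.algebra _ _
    have := Polynomial.isLocalization ((IsUnit.submonoid B).comap π) B
    have e2 : mapRingHom π = algebraMap (MvPolynomial (Fin d) V)[X] B[X] := rfl
    rw [e2, RingHom.flat_algebraMap_iff]
    exact IsLocalization.flat _ (((IsUnit.submonoid B).comap π).map C)

theorem flat_nzd {A T : Type u} [CommRing A] [IsDomain A] [CommRing T] {μ : A →+* T} (hμ : μ.Flat)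
    {f h : A} (hfh : ∀ g, h ∣ f * g → h ∣ g) (g : T) (hg : μ h ∣ μ f * g) : μ h ∣ g := by
  let _ : Algebra A T := μ.toAlgebra
  have : Module.Flat A T := hμ
  obtain ⟨g', hg'⟩ := hg
  have hs : ∀ (a : A) (t : T), a • t = μ a * t := fun a t => Algebra.smul_def a t
  obtain ⟨r, a, y, h1, h2⟩ := Module.Flat.isTrivialRelation_of_sum_smul_eq_zero (R := A) (M := T)
    (f := ![f, -h]) (x := ![g, g']) (by simp [Fin.sum_univ_two, hs, hg'])
  have h3 : g = ∑ j, a 0 j • y j := h1 0
  rw [h3]
  refine Finset.dvd_sum fun j _ => ?_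
  have h4 := h2 j
  simp only [Fin.sum_univ_two, cons_val_zero, cons_val_one] at h4
  rw [hs]
  exact Dvd.dvd.mul_right (_root_.map_dvd μ (hfh _ ⟨a 1 j, by linear_combination h4⟩)) _

end poly

end Pool.Agent.GR
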