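import Pool.Agent.P.MP_c1f06d_ag.r.Stmt

open Matrix

universe u

namespace Pool.Agent.GR

abbrev Mat (n : ℕ) (A : Type u) : Type u := Matrix (Fin n) (Fin n) A

/-- Base change of invertible matrices along an algebra map. -/
abbrev gm {k : Type u} [CommRing k] {n : ℕ} {A A' : Type u} [CommRing A] [Algebra k A]
    [CommRing A'] [Algebra k A'] (f : A →ₐ[k] A') : GL (Fin n) A →* GL (Fin n) A' :=
  GeneralLinearGroup.map (f : A →+* A')

/-- An affine homogeneous space of `GL_n`, through its functor of points. -/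
structure HS (k : Type u) [Field k] (n : ℕ) where
  B : Type u
  [cr : CommRing B]
  [alg : Algebra k B]
  ft : Algebra.FiniteType k B
  act : ∀ {A : Type u} [CommRing A] [Algebra k A], GL (Fin n) A → (B →ₐ[k] A) → (B →ₐ[k] A)
  act_one : ∀ {A : Type u} [CommRing A] [Algebra k A] (y : B →ₐ[k] A), act 1 y = y
  act_mul : ∀ {A : Type u} [CommRing A] [Algebra k A] (g g' : GL (Fin n) A) (y : B →ₐ[k] A),
    act (g * g') y = act g (act g' y)
  act_nat : ∀ {A A' : Type u} [CommRing A] [Algebra k A] [CommRing A'] [Algebra k A']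
    (f : A →ₐ[k] A') (g : GL (Fin n) A) (y : B →ₐ[k] A),
    f.comp (act g y) = act (gm f g) (f.comp y)
  y0 : B →ₐ[k] k
  t2 : ∀ {A : Type u} [CommRing A] [Algebra k A] (J : Ideal A), J * J = ⊥ →
    ∀ y y' : B →ₐ[k] A, (∀ b, y b - y' b ∈ J) →
      ∃ g : GL (Fin n) A, (∀ i j, ((g : Mat n A) - 1) i j ∈ J) ∧ act g y = y'
  t4 : ∀ f : OGL k n,
    (∀ (A : Type u) [CommRing A] [Algebra k A] (g g' : GL (Fin n) A),
      act g' ((Algebra.ofId k A).comp y0) = (Algebra.ofId k A).comp y0 →
        ev k (g * g') f = ev k g f) →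
    ∃ b : B, ∀ (A : Type u) [CommRing A] [Algebra k A] (g : GL (Fin n) A),
      act g ((Algebra.ofId k A).comp y0) b = ev k g f

attribute [instance] HS.cr HS.alg HS.ft

section general

variable {n : ℕ} {A : Type u} [CommRing A] {Γ : Type} [AddCommGroup Γ]

/-- The group algebra `A[Γ]`. -/
abbrev GA (A : Type u) [CommRing A] (Γ : Type) [AddCommGroup Γ] : Type u := AddMonoidAlgebra A Γ

/-- The unit `u ^ δ` of `A[Γ]`. -/
noncomputable def uu (A : Type u) [CommRing A] (δ : Γ) : (GA A Γ)ˣ :=
  ⟨AddMonoidAlgebra.single δ 1, AddMonoidAlgebra.single (-δ) 1,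
    by simp [AddMonoidAlgebra.single_mul_single, AddMonoidAlgebra.one_def],
    by simp [AddMonoidAlgebra.single_mul_single, AddMonoidAlgebra.one_def]⟩

/-- The diagonal matrix with the given units on the diagonal. -/
def dgU (t : Fin n → Aˣ) : GL (Fin n) A :=
  ⟨diagonal fun i => (t i : A), diagonal fun i => (((t i)⁻¹ : Aˣ) : A),
    by simp [diagonal_mul_diagonal], by simp [diagonal_mul_diagonal]⟩

/-- The universal point `diag (u ^ c i)` of the diagonal torus with weights `c`. -/
noncomputable def rho (A : Type u) [CommRing A] (c : Fin n → Γ) : GL (Fin n) (GA A Γ) :=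
  dgU fun i => uu A (c i)

/-- `M i j = 0` unless `a i ≥ a j`. -/
def InP (a : Fin n → ℤ) (M : Mat n A) : Prop := ∀ i j, a i < a j → M i j = 0

/-- `M i j = 0` unless `c i = c j`. -/
def InL {ι : Type} (c : Fin n → ι) (M : Mat n A) : Prop := ∀ i j, c i ≠ c j → M i j = 0

/-- The block diagonal part. -/
def lv {ι : Type} [DecidableEq ι] (c : Fin n → ι) (M : Mat n A) : Mat n A :=
  of fun i j => if c i = c j then M i j else 0

/-- The diagonal idempotent of the weight `δ`. -/
def eps (A : Type u) [CommRing A] {ι : Type} [DecidableEq ι] (c : Fin n → ι) (δ : ι) : Mat n A :=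
  diagonal fun i => if c i = δ then 1 else 0

/-- A complete family of orthogonal idempotents indexed by `S`. -/
def Idem {ι : Type} (S : Finset ι) (E : ι → Mat n A) : Prop :=
  (∀ a ∈ S, E a * E a = E a) ∧ (∀ a ∈ S, ∀ b ∈ S, a ≠ b → E a * E b = 0) ∧ ∑ a ∈ S, E a = 1

/-- `∑ u ^ δ E δ`. -/
noncomputable def tmat (S : Finset Γ) (E : Γ → Mat n A) : Mat n (GA A Γ) :=
  ∑ δ ∈ S, ((uu A δ : (GA A Γ)ˣ) : GA A Γ) • (E δ).map (algebraMap A (GA A Γ))

/-- `∑ E a * ξ * E a`. -/
def pi0 {ι : Type} (S : Finset ι) (E : ι → Mat n A) (ξ : Mat n A) : Mat n A :=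
  ∑ a ∈ S, E a * ξ * E a

/-- The matrix `M + ε ξ` over the dual numbers. -/
def dual (M ξ : Mat n A) : Mat n (DualNumber A) :=
  of fun i j => TrivSqZeroExt.inl (M i j) + TrivSqZeroExt.inr (ξ i j)

variable {r : ℕ}

/-- The set of weights. -/
def XX (χ : Fin n → Fin r → ℤ) : Finset (Fin r → ℤ) := Finset.univ.image χ

/-- The pairing of a weight with an element of `A ^ r`. -/
def pair (x : Fin r → ℤ) (h : Fin r → A) : A := ∑ j, (x j : A) * h j

/-- The element `∑ ⟨x, h⟩ e x` of the Lie algebra of the torus. -/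
def tt (χ : Fin n → Fin r → ℤ) (e : (Fin r → ℤ) → Mat n A) (h : Fin r → A) : Mat n A :=
  ∑ x ∈ XX χ, pair x h • e x

/-- The eigen-idempotents of the cocharacter `a`. -/
def lamE (χ : Fin n → Fin r → ℤ) (e : (Fin r → ℤ) → Mat n A) (a : (Fin r → ℤ) → ℤ) (m : ℤ) :
    Mat n A :=
  ∑ x ∈ (XX χ).filter fun x => a x = m, e x

/-- The polynomials coprime to `h`. -/
def copr (h : Polynomial A) : Submonoid (Polynomial A) where
  carrier := {f | IsCoprime f h}
  one_mem' := isCoprime_one_left
  mul_mem' := fun ha hb => IsCoprime.mul_left ha hb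

/-- The semilocal ring of the affine line along the zero set of `h`. -/
abbrev OO (h : Polynomial A) : Type u := Localization (copr h)

end general

section sub

variable {k : Type u} [Field k] {n : ℕ} (V : Submodule k (Mat n k)) {A : Type u} [CommRing A]
  [Algebra k A]

/-- The dimension of a space of matrices. -/
noncomputable def sN : ℕ := Module.finrank k V

/-- The map from coordinates to the space. -/
noncomputable def svec0 : (Fin (sN V) → k) →ₗ[k] Mat n k :=
  V.subtype ∘ₗ (Module.finBasis k V).equivFun.symm.toLinearMap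

theorem svec0_ker : LinearMap.ker (svec0 V) = ⊥ :=
  LinearMap.ker_eq_bot.2 (V.injective_subtype.comp (LinearEquiv.injective _))

/-- A left inverse of `svec0`. -/
noncomputable def scrd0 : Mat n k →ₗ[k] (Fin (sN V) → k) :=
  ((svec0 V).exists_leftInverse_of_injective (svec0_ker V)).choose

theorem scrd0_svec0 : scrd0 V ∘ₗ svec0 V = LinearMap.id :=
  ((svec0 V).exists_leftInverse_of_injective (svec0_ker V)).choose_spec

/-- The basis of the space, over `A`. -/
noncomputable def sbas (A : Type u) [CommRing A] [Algebra k A] (l : Fin (sN V)) : Mat n A :=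
  (svec0 V (Pi.single l 1)).map (algebraMap k A)

/-- The element with given coordinates. -/
noncomputable def svec (x : Fin (sN V) → A) : Mat n A := ∑ l, x l • sbas V A l

/-- Coordinates. -/
noncomputable def scrd (ξ : Mat n A) : Fin (sN V) → A :=
  fun l => ∑ i, ∑ j, algebraMap k A (scrd0 V (Matrix.single i j 1) l) * ξ i j

/-- `X` is in the `A`-span of the space. -/
def InS (X : Mat n A) : Prop := ∃ x, svec V x = X

end sub

namespace HS

variable {k : Type u} [Field k] {n : ℕ} (H : HS k n) {A : Type u} [CommRing A] [Algebra k A]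
  {Γ : Type} [AddCommGroup Γ]

/-- The base point over `A`. -/
def pt (A : Type u) [CommRing A] [Algebra k A] : H.B →ₐ[k] A := (Algebra.ofId k A).comp H.y0

/-- The stabiliser of a point. -/
def St (y : H.B →ₐ[k] A) : Subgroup (GL (Fin n) A) where
  carrier := {g | H.act g y = y}
  one_mem' := H.act_one y
  mul_mem' := fun {a b} ha hb => by
    have ha' : H.act a y = y := ha
    have hb' : H.act b y = y := hb
    show H.act (a * b) y = y
    rw [H.act_mul, hb', ha']
  inv_mem' := fun {a} ha => by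
    have ha' : H.act a y = y := ha
    show H.act a⁻¹ y = y
    conv_lhs => rw [← ha', ← H.act_mul, inv_mul_cancel, H.act_one]

/-- The group `G(A)`. -/
def G (A : Type u) [CommRing A] [Algebra k A] : Subgroup (GL (Fin n) A) := H.St (H.pt A)

/-- The matrix `M` is a point of `G`. -/
def MemM (M : Mat n A) : Prop := ∃ g ∈ H.G A, (g : Mat n A) = M

/-- The torsor attached to `y` is trivial. -/
def Triv (y : H.B →ₐ[k] A) : Prop := ∃ g : GL (Fin n) A, H.act g y = H.pt A

/-- The point `rho c · y` over the group algebra. -/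
noncomputable def orb (c : Fin n → Γ) (y : H.B →ₐ[k] A) : H.B →ₐ[k] GA A Γ :=
  H.act (rho A c) ((IsScalarTower.toAlgHom k A (GA A Γ)).comp y)

/-- The component of degree `δ`. -/
noncomputable def cf (c : Fin n → Γ) (y : H.B →ₐ[k] A) (δ : Γ) (b : H.B) : A :=
  (H.orb c y b).coeff δ

/-- `y` is fixed by the diagonal torus with weights `c`. -/
def Fixed (c : Fin n → Γ) (y : H.B →ₐ[k] A) : Prop :=
  H.orb c y = (IsScalarTower.toAlgHom k A (GA A Γ)).comp y

/-- The idempotents `E δ` define a homomorphism from the diagonalisable group of `Γ` to `G`. -/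
def Tm (S : Finset Γ) (E : Γ → Mat n A) : Prop := Idem S E ∧ H.MemM (tmat S E)

/-- `1 + ε ξ` is a point of `G`. -/
def InLie (ξ : Mat n A) : Prop := H.MemM (dual 1 ξ)

/-- The Lie algebra over `k`. -/
def lie : Submodule k (Mat n k) := Submodule.span k {ξ | H.InLie ξ}

/-- Its dimension. -/
noncomputable def N : ℕ := Module.finrank k H.lie

/-- The map from coordinates to the Lie algebra over `k`. -/
noncomputable def vec0 : (Fin H.N → k) →ₗ[k] Mat n k :=
  H.lie.subtype ∘ₗ (Module.finBasis k H.lie).equivFun.symm.toLinearMap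

theorem vec0_ker : LinearMap.ker H.vec0 = ⊥ :=
  LinearMap.ker_eq_bot.2 (H.lie.injective_subtype.comp (LinearEquiv.injective _))

/-- A left inverse of `vec0`. -/
noncomputable def crd0 : Mat n k →ₗ[k] (Fin H.N → k) :=
  (H.vec0.exists_leftInverse_of_injective H.vec0_ker).choose

theorem crd0_vec0 : H.crd0 ∘ₗ H.vec0 = LinearMap.id :=
  (H.vec0.exists_leftInverse_of_injective H.vec0_ker).choose_spec

/-- The basis of the Lie algebra, over `A`. -/
noncomputable def bas (A : Type u) [CommRing A] [Algebra k A] (l : Fin H.N) : Mat n A :=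
  (H.vec0 (Pi.single l 1)).map (algebraMap k A)

/-- The element of the Lie algebra with given coordinates. -/
noncomputable def vec (x : Fin H.N → A) : Mat n A := ∑ l, x l • H.bas A l

/-- Coordinates. -/
noncomputable def crd (ξ : Mat n A) : Fin H.N → A :=
  fun l => ∑ i, ∑ j, algebraMap k A (H.crd0 (Matrix.single i j 1) l) * ξ i j

/-- The matrix of an operator on the Lie algebra. -/
noncomputable def opM (φ : Mat n A → Mat n A) : Matrix (Fin H.N) (Fin H.N) A :=
  of fun l j => H.crd (φ (H.bas A j)) l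

/-- The coefficient of `T ^ j` in the characteristic polynomial of `ad X`. -/
noncomputable def Dlt (j : ℕ) (X : Mat n A) : A :=
  (H.opM fun ξ => X * ξ - ξ * X).charpoly.coeff j

variable {r : ℕ}

/-- The idempotents `e x` are the weight projectors of a maximal torus of type `χ` of `G`. -/
structure Tor (χ : Fin n → Fin r → ℤ) (e : (Fin r → ℤ) → Mat n A) : Prop where
  tm : H.Tm (XX χ) e
  cp : ∀ x ∈ XX χ, (e x).charpoly = (eps A χ x).charpoly
  cart : ∀ l, ∃ h, pi0 (XX χ) e (H.bas A l) = tt χ e h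

/-- The ideal of functions on `GL_n` over `W` that vanish on `G`. -/
def van (W : Type u) [Field W] [Algebra k W] : Ideal (OGL W n) where
  carrier := {f | ∀ (A : Type u) [CommRing A] [Algebra k A] [Algebra W A] [IsScalarTower k W A],
    ∀ g ∈ H.G A, ev W g f = 0}
  zero_mem' := fun _ _ _ _ _ _ _ => map_zero _
  add_mem' := fun ha hb A _ _ _ _ g hg => by rw [map_add, ha A g hg, hb A g hg, add_zero]
  smul_mem' := fun c _ ha A _ _ _ _ g hg => by rw [smul_eq_mul, map_mul, ha A g hg, mul_zero]

/-- The coordinate ring of `G` over `W`. -/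
abbrev OG (W : Type u) [Field W] [Algebra k W] : Type u := OGL W n ⧸ H.van W

/-- A space of matrices `m` that contains the Lie algebra, on which `G` acts trivially modulo the
Lie algebra, and which is commutative modulo the Lie algebra. -/
structure Big where
  m : Submodule k (Mat n k)
  le : H.lie ≤ m
  ad : ∀ (A : Type u) [CommRing A] [Algebra k A], ∀ g ∈ H.G A, ∀ X ∈ m,
    H.InLie ((g : Mat n A) * X.map (algebraMap k A) * ((g⁻¹ : GL (Fin n) A) : Mat n A) -
      X.map (algebraMap k A))
  br : ∀ X ∈ m, ∀ X' ∈ m, X * X' - X' * X ∈ H.lie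

/-- `X` is in `m(A)` and commutes with the idempotents `e x`. -/
def Big.Cc {H : HS k n} (M : H.Big) (χ : Fin n → Fin r → ℤ) (e : (Fin r → ℤ) → Mat n A)
    (X : Mat n A) : Prop :=
  InS M.m X ∧ ∀ x ∈ XX χ, X * e x = e x * X

/-- Over the field `l` the group `G` is conjugate to a group containing the diagonal torus. -/
structure Datum where
  r : ℕ
  χ : Fin n → Fin r → ℤ
  l : Type u
  [fl : Field l]
  [al : Algebra k l]
  γ : GL (Fin n) l
  big : H.Big
  span : Submodule.span ℤ (Set.range χ) = ⊤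
  tor : H.Tor χ fun x => (γ : Mat n l) * eps l χ x * ((γ⁻¹ : GL (Fin n) l) : Mat n l)
  reg : ∃ X : Mat n l,
    big.Cc χ (fun x => (γ : Mat n l) * eps l χ x * ((γ⁻¹ : GL (Fin n) l) : Mat n l)) X ∧
      H.Dlt r X ≠ 0
  prime : ∀ (W : Type u) [Field W] [Algebra k W], (l →ₐ[k] W) → (H.van W).IsPrime

attribute [instance] Datum.fl Datum.al

/-- The standard torus over an `l`-algebra. -/
noncomputable def Datum.es {H : HS k n} (D : H.Datum) (ι : D.l →ₐ[k] A) (x : Fin D.r → ℤ) :
    Mat n A :=
  ((gm ι D.γ : GL (Fin n) A) : Mat n A) * eps A D.χ x *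
    (((gm ι D.γ)⁻¹ : GL (Fin n) A) : Mat n A)

/-- The base point in the frame of the standard torus. -/
noncomputable def Datum.ys {H : HS k n} (D : H.Datum) (ι : D.l →ₐ[k] A) : H.B →ₐ[k] A :=
  H.act (gm ι D.γ)⁻¹ (H.pt A)

/-- A rational map from an affine space to `G`. -/
structure Param (σ : Type) where
  f : MvPolynomial σ k
  τ : GL (Fin n) (Localization.Away f)
  mem : τ ∈ H.G (Localization.Away f)

/-- Its value at a point. -/
noncomputable def Param.at {H : HS k n} {σ : Type} (p : H.Param σ) (v : σ → A)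
    (hv : IsUnit (MvPolynomial.aeval v p.f)) : GL (Fin n) A :=
  gm (IsLocalization.Away.liftAlgHom (S := Localization.Away p.f) p.f
    (f := MvPolynomial.aeval v) hv) p.τ

/-- The discriminant as a polynomial on `m`. -/
noncomputable def Big.DP {H : HS k n} (M : H.Big) (j : ℕ) : MvPolynomial (Fin (sN M.m)) k :=
  H.Dlt j (svec M.m MvPolynomial.X)

/-- The ring of functions on the regular locus. -/
abbrev Big.PP {H : HS k n} (M : H.Big) (r : ℕ) : Type u := Localization.Away (M.DP r)

/-- The universal regular element. -/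
noncomputable def Big.Xu {H : HS k n} (M : H.Big) (r : ℕ) : Mat n (M.PP r) :=
  svec M.m fun l => algebraMap (MvPolynomial (Fin (sN M.m)) k) (M.PP r) (MvPolynomial.X l)

/-- The universal torus over a Galois cover of the regular locus. -/
structure UT {H : HS k n} (D : H.Datum) where
  P' : Type u
  [cr : CommRing P']
  [dom : IsDomain P']
  [a1 : Algebra k P']
  [a2 : Algebra (D.big.PP D.r) P']
  [tw : IsScalarTower k (D.big.PP D.r) P']
  int : Algebra.IsIntegral (D.big.PP D.r) P'
  inj : Function.Injective (algebraMap (D.big.PP D.r) P')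
  e : (Fin D.r → ℤ) → Mat n P'
  tor : H.Tor D.χ e
  comm : ∀ x ∈ XX D.χ, (D.big.Xu D.r).map (algebraMap (D.big.PP D.r) P') * e x =
    e x * (D.big.Xu D.r).map (algebraMap (D.big.PP D.r) P')
  GG : Subgroup (P' ≃ₐ[D.big.PP D.r] P')
  fin : Finite GG
  perm : ∀ s ∈ GG, ∃ π : Equiv.Perm (Fin D.r → ℤ), (∀ x, π x ∈ XX D.χ ↔ x ∈ XX D.χ) ∧
    ∀ x ∈ XX D.χ, (e x).map s = e (π x)
  fix : ∀ p : P', (∀ s ∈ GG, s p = p) → p ∈ Set.range (algebraMap (D.big.PP D.r) P')
  univ : ∀ (A : Type u) [CommRing A] [Algebra k A] (ι : D.l →ₐ[k] A), ∀ g ∈ H.G A,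
    ∀ Y : Mat n A, D.big.Cc D.χ (D.es ι) Y → IsUnit (H.Dlt D.r Y) → ∃ θ : P' →ₐ[k] A,
      ((D.big.Xu D.r).map (algebraMap (D.big.PP D.r) P')).map θ =
        (g : Mat n A) * Y * ((g⁻¹ : GL (Fin n) A) : Mat n A) ∧
      ∀ x ∈ XX D.χ, (e x).map θ =
        (g : Mat n A) * D.es ι x * ((g⁻¹ : GL (Fin n) A) : Mat n A)

attribute [instance] UT.cr UT.dom UT.a1 UT.a2 UT.tw

end HS

end Pool.Agent.GR
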