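import Pool.Agent.P.MP_c1f06d_ag.r.S8Defs
import Pool.Agent.P.MP_c1f06d_ag.r.Defs

open Matrix Polynomial

universe u

namespace Pool.Agent.GR

theorem mem_NN {T : Type u} [CommRing T] {n : ℕ} {H : T} {Th : Matrix (Fin n) (Fin n) T}
    {w : Fin n → T} : w ∈ NN H Th ↔ ∀ i, H ∣ (Th *ᵥ w) i := Iff.rfl

section flat

variable {A T : Type u} [CommRing A] [CommRing T] [Algebra A T]

theorem map_mulVec_comp {ι κ : Type} [Fintype κ] (M : Matrix ι κ A) (x : κ → A) :
    M.map (algebraMap A T) *ᵥ (fun j => algebraMap A T (x j)) =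
      fun i => algebraMap A T ((M *ᵥ x) i) := by
  funext i
  simp [mulVec, dotProduct, map_sum]

/-- Over a flat algebra the solutions of a linear system are spanned by those of the base. -/
theorem flat_ker [Module.Flat A T] {ι κ : Type} [Fintype ι] [Fintype κ] (M : Matrix ι κ A)
    (v : κ → T) (hv : M.map (algebraMap A T) *ᵥ v = 0) :
    v ∈ Submodule.span T
      {w : κ → T | ∃ x : κ → A, M *ᵥ x = 0 ∧ w = fun j => algebraMap A T (x j)} := by
  classical
  have h0 : Fintype.linearCombination A v ∘ₗ M.vecMulLinear = 0 := by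
    refine (Pi.basisFun A ι).ext fun i => ?_
    have := congrFun hv i
    simpa [Fintype.linearCombination_apply, mulVec, dotProduct, Algebra.smul_def] using this
  obtain ⟨k, a, y, hx, ha⟩ := Module.Flat.exists_factorization_of_comp_eq_zero_of_free h0
  have hv' : v = ∑ l : Fin k, y (Finsupp.single l 1) •
      fun j => algebraMap A T (a (Pi.single j 1) l) := by
    funext j
    have h1 : v j = y (a (Pi.single j 1)) := by
      have := LinearMap.congr_fun hx (Pi.single j 1)
      simpa using this
    rw [h1, Finset.sum_apply]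
    conv_lhs => rw [← Finsupp.univ_sum_single (a (Pi.single j 1))]
    rw [map_sum]
    refine Finset.sum_congr rfl fun l _ => ?_
    rw [← Finsupp.smul_single_one, map_smul, Algebra.smul_def, Pi.smul_apply, smul_eq_mul,
      mul_comm]
  rw [hv']
  refine Submodule.sum_mem _ fun l _ => Submodule.smul_mem _ _ (Submodule.subset_span ?_)
  refine ⟨fun j => a (Pi.single j 1) l, ?_, rfl⟩
  funext i
  have h2 := LinearMap.congr_fun ha (Pi.single i 1)
  have h3 : M.vecMulLinear (Pi.single i 1) = ∑ j, M i j • (Pi.single j 1 : κ → A) := by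
    funext j
    simp [Finset.sum_apply, Pi.single_apply]
  rw [LinearMap.comp_apply, h3, map_sum] at h2
  have h4 := congrArg (fun z => z l) h2
  simpa [mulVec, dotProduct, Finsupp.finsetSum_apply] using h4

/-- The same for a system of congruences. -/
theorem flat_dvd [Module.Flat A T] {ι κ : Type} [Fintype ι] [Fintype κ] (H : A)
    (M : Matrix ι κ A) (v : κ → T)
    (hv : ∀ i, algebraMap A T H ∣ (M.map (algebraMap A T) *ᵥ v) i) :
    v ∈ Submodule.span T
      {w : κ → T | ∃ x : κ → A, (∀ i, H ∣ (M *ᵥ x) i) ∧ w = fun j => algebraMap A T (x j)} := by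
  classical
  choose z hz using hv
  have h1 := flat_ker (T := T) (fromCols M (diagonal fun _ : ι => -H)) (Sum.elim v z) (by
    funext i
    rw [fromCols_map, fromCols_mulVec_sumElim, Pi.add_apply, hz i,
      diagonal_map (map_zero _), mulVec_diagonal]
    simp)
  have h2 := Submodule.mem_map_of_mem (f := LinearMap.funLeft T T (Sum.inl : κ → κ ⊕ ι)) h1
  rw [Submodule.map_span] at h2
  refine Submodule.span_mono ?_ h2
  rintro _ ⟨_, ⟨x, hx, rfl⟩, rfl⟩
  refine ⟨fun j => x (Sum.inl j), fun i => ⟨x (Sum.inr i), ?_⟩, rfl⟩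
  have h3 := congrFun hx i
  rw [← Sum.elim_comp_inl_inr x, fromCols_mulVec_sumElim, Pi.add_apply, mulVec_diagonal] at h3
  have h4 : (M *ᵥ (x ∘ Sum.inl)) i = H * x (Sum.inr i) := by
    simp only [Function.comp_apply, Pi.zero_apply] at h3
    linear_combination h3
  exact h4

end flat

theorem exists_dvd_all {W : Type u} [CommRing W] [PreValuationRing W] {ι : Type} (x : ι → W)
    (s : Finset ι) (hs : s.Nonempty) : ∃ j ∈ s, ∀ i ∈ s, x j ∣ x i := by
  induction hs using Finset.Nonempty.cons_induction with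
  | singleton a => exact ⟨a, by simp, by simp⟩
  | cons a s ha _ ih =>
    obtain ⟨j, hj, h⟩ := ih
    rcases ValuationRing.dvd_total (x a) (x j) with h1 | h1
    · refine ⟨a, by simp, fun i hi => ?_⟩
      rcases Finset.mem_cons.1 hi with rfl | hi
      · exact dvd_rfl
      · exact h1.trans (h i hi)
    · refine ⟨j, by simp [hj], fun i hi => ?_⟩
      rcases Finset.mem_cons.1 hi with rfl | hi
      · exact h1
      · exact h i hi

/-- A finite torsion-free module is free near a prime whose local ring is a valuation ring. -/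
theorem val_basis {O : Type u} [CommRing O] [IsDomain O] (P : Ideal O) [P.IsPrime]
    [PreValuationRing (Localization.AtPrime P)] {M : Type u} [AddCommGroup M] [Module O M]
    [Module.Finite O M] (htf : ∀ (c : O) (m : M), c ≠ 0 → c • m = 0 → m = 0) :
    ∃ (r : ℕ) (b : Fin r → M) (u : O), u ∉ P ∧ LinearIndependent O b ∧
      ∀ m, u • m ∈ Submodule.span O (Set.range b) := by
  classical
  have hP : P.IsPrime := inferInstance
  have hex : ∃ r : ℕ, ∃ (b : Fin r → M) (u : O), u ∉ P ∧
      ∀ m, u • m ∈ Submodule.span O (Set.range b) := by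
    obtain ⟨r, b, hb⟩ := Module.Finite.exists_fin (R := O) (M := M)
    exact ⟨r, b, 1, (Ideal.ne_top_iff_one P).1 hP.ne_top, fun m => by rw [hb]; trivial⟩
  obtain ⟨b, u, hu, hb⟩ := Nat.find_spec hex
  refine ⟨_, b, u, hu, ?_, hb⟩
  have hmin := fun r' => Nat.find_min hex (m := r')
  generalize Nat.find hex = r at b hb hmin
  rw [Fintype.linearIndependent_iff]
  intro c hc
  by_contra hne
  push Not at hne
  obtain ⟨i0, hi0⟩ := hne
  obtain ⟨j, -, hj⟩ := exists_dvd_all (fun i => algebraMap O (Localization.AtPrime P) (c i))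
    Finset.univ ⟨i0, Finset.mem_univ _⟩
  have hinj : Function.Injective (algebraMap O (Localization.AtPrime P)) :=
    IsLocalization.injective _ P.primeCompl_le_nonZeroDivisors
  choose q hq using fun i => hj i (Finset.mem_univ i)
  obtain ⟨s, hs⟩ := IsLocalization.exist_integer_multiples_of_finite P.primeCompl q
  choose a ha using hs
  have hrel : ∀ i, (s : O) * c i = c j * a i := fun i => hinj (by
    rw [map_mul, map_mul, ha i, hq i, Algebra.smul_def]
    ring)
  have hs0 : (s : O) ≠ 0 := fun h => s.2 (h ▸ P.zero_mem)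
  have hcj : c j ≠ 0 := fun h => by
    have := hrel i0
    rw [h, zero_mul] at this
    exact mul_ne_zero hs0 hi0 this
  have haj : a j = s := mul_left_cancel₀ hcj (by rw [← hrel j, mul_comm])
  have hsum : ∑ i, a i • b i = 0 := htf (c j) _ hcj (by
    rw [Finset.smul_sum]
    simp only [smul_smul, ← hrel]
    simp only [← smul_smul]
    rw [← Finset.smul_sum, hc, smul_zero])
  obtain ⟨r', rfl⟩ : ∃ r', r = r' + 1 := ⟨r - 1, by have := j.pos; omega⟩
  refine hmin r' (Nat.lt_succ_self _) ⟨fun i => b (j.succAbove i), s * u,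
    fun h => (hP.mem_or_mem h).elim s.2 hu, fun m => ?_⟩
  have hle : Submodule.span O (Set.range b) ≤
      (Submodule.span O (Set.range fun i => b (j.succAbove i))).comap
        ((s : O) • LinearMap.id) := by
    rw [Submodule.span_le]
    rintro _ ⟨i, rfl⟩
    show (s : O) • b i ∈ Submodule.span O (Set.range fun i => b (j.succAbove i))
    refine Fin.succAboveCases j ?_ (fun i => ?_) i
    · rw [Fin.sum_univ_succAbove _ j, haj] at hsum
      rw [eq_neg_of_add_eq_zero_left hsum]
      exact neg_mem (Submodule.sum_mem _ fun i _ =>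
        Submodule.smul_mem _ _ (Submodule.subset_span ⟨i, rfl⟩))
    · exact Submodule.smul_mem _ _ (Submodule.subset_span ⟨i, rfl⟩)
  rw [mul_smul]
  exact hle (hb m)

section pure

variable {O : Type u} [CommRing O] {n : ℕ}

theorem smul_mem_NN {T : Type u} [CommRing T] (H : T) (Th : Matrix (Fin n) (Fin n) T)
    (w : Fin n → T) : H • w ∈ NN H Th := fun i => by
  rw [mulVec_smul]
  exact Dvd.intro _ rfl

theorem quot_finite {H : O[X]} (hH : H.Monic) (Th : Matrix (Fin n) (Fin n) O[X]) :
    Module.Finite O ((Fin n → O[X]) ⧸ NN H Th) := by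
  rcases subsingleton_or_nontrivial O with hO | hO
  · have : Subsingleton ((Fin n → O[X]) ⧸ NN H Th) := Module.subsingleton O _
    infer_instance
  have : Module.Finite O (degreeLT O H.natDegree) :=
    Module.Finite.equiv (degreeLTEquiv O H.natDegree).symm
  refine Module.Finite.of_surjective
    (((NN H Th).mkQ.restrictScalars O) ∘ₗ (degreeLT O H.natDegree).subtype.compLeft (Fin n))
    fun m => ?_
  obtain ⟨w, rfl⟩ := (NN H Th).mkQ_surjective m
  refine ⟨fun i => ⟨w i %ₘ H, ?_⟩, ?_⟩
  · rw [mem_degreeLT, ← degree_eq_natDegree hH.ne_zero]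
    exact degree_modByMonic_lt _ hH
  · show (NN H Th).mkQ (fun i => w i %ₘ H) = (NN H Th).mkQ w
    rw [Submodule.mkQ_apply, Submodule.mkQ_apply, eq_comm, Submodule.Quotient.eq]
    have : (w - fun i => w i %ₘ H) = H • fun i => w i /ₘ H := by
      funext i
      have := modByMonic_add_div (w i) H
      simp only [Pi.sub_apply, Pi.smul_apply, smul_eq_mul]
      linear_combination -this
    rw [this]
    exact smul_mem_NN _ _ _

theorem quot_tf [IsDomain O] {H : O[X]} (hH : H.Monic) (Th : Matrix (Fin n) (Fin n) O[X])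
    (c : O) (m : (Fin n → O[X]) ⧸ NN H Th) (hc : c ≠ 0) (h : c • m = 0) : m = 0 := by
  obtain ⟨w, rfl⟩ := (NN H Th).mkQ_surjective m
  rw [Submodule.mkQ_apply, ← Submodule.Quotient.mk_smul, Submodule.Quotient.mk_eq_zero] at h
  rw [Submodule.mkQ_apply, Submodule.Quotient.mk_eq_zero]
  intro i
  have h1 := h i
  rw [mulVec_smul, Pi.smul_apply, ← modByMonic_eq_zero_iff_dvd hH, smul_modByMonic] at h1
  rw [← modByMonic_eq_zero_iff_dvd hH]
  exact (smul_eq_zero.1 h1).resolve_left hc

/-- The matrix `u X - S`. -/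
noncomputable def lin {r : ℕ} (a : O) (S : Matrix (Fin r) (Fin r) O) :
    Matrix (Fin r) (Fin r) O[X] :=
  (C a * X : O[X]) • (1 : Matrix (Fin r) (Fin r) O[X]) - S.map C

theorem lin_mulVec {r : ℕ} (a : O) (S : Matrix (Fin r) (Fin r) O) (x : Fin r → O[X]) :
    lin a S *ᵥ x = (C a * X : O[X]) • x - S.map C *ᵥ x := by
  rw [lin, sub_mulVec, smul_mulVec, one_mulVec]

theorem lin_inj [IsDomain O] {r : ℕ} {a : O} (ha : a ≠ 0) (S : Matrix (Fin r) (Fin r) O)
    (x : Fin r → O[X]) (hx : lin a S *ᵥ x = 0) : x = 0 := by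
  rw [lin_mulVec, sub_eq_zero] at hx
  have hrec : ∀ m l, a * (x l).coeff m = ∑ j, S l j * (x j).coeff (m + 1) := fun m l => by
    have := congrArg (fun p => p.coeff (m + 1)) (congrFun hx l)
    simpa [mulVec, dotProduct, mul_assoc, finsetSum_coeff] using this
  obtain ⟨N, hN⟩ : ∃ N, ∀ l, (x l).natDegree < N :=
    ⟨(∑ l, (x l).natDegree) + 1, fun l => Nat.lt_succ_of_le
      (Finset.single_le_sum (f := fun l => (x l).natDegree) (fun _ _ => Nat.zero_le _)
        (Finset.mem_univ l))⟩
  have key : ∀ j m, N ≤ m + j → ∀ l, (x l).coeff m = 0 := by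
    intro j
    induction j with
    | zero => exact fun m hm l => coeff_eq_zero_of_natDegree_lt (lt_of_lt_of_le (hN l) hm)
    | succ j ih =>
      intro m hm l
      have h1 := hrec m l
      rw [Finset.sum_eq_zero fun j' _ => by rw [ih (m + 1) (by omega) j', mul_zero]] at h1
      exact (mul_eq_zero.1 h1).resolve_left ha
  funext l
  ext m
  simpa using key N m (by omega) l

theorem lin_div {r : ℕ} (a : O) (S : Matrix (Fin r) (Fin r) O) (v : Fin r → O[X]) :
    ∃ (k : ℕ) (x : Fin r → O[X]) (c : Fin r → O),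
      (C a : O[X]) ^ k • v = lin a S *ᵥ x + fun l => C (c l) := by
  classical
  let Z : (Fin r → O[X]) → Prop := fun v => ∃ (k : ℕ) (x : Fin r → O[X]) (c : Fin r → O),
      (C a : O[X]) ^ k • v = lin a S *ᵥ x + fun l => C (c l)
  have hadd : ∀ v w, Z v → Z w → Z (v + w) := by
    rintro v w ⟨k, x, c, h⟩ ⟨k', x', c', h'⟩
    refine ⟨k + k', (C a : O[X]) ^ k' • x + (C a : O[X]) ^ k • x',
      fun l => a ^ k' * c l + a ^ k * c' l, ?_⟩
    have e1 : (C a : O[X]) ^ (k + k') • (v + w) =
        (C a : O[X]) ^ k' • ((C a : O[X]) ^ k • v) + (C a : O[X]) ^ k • ((C a : O[X]) ^ k' • w) := by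
      rw [smul_add, smul_smul, smul_smul, ← pow_add, ← pow_add, add_comm k' k]
    rw [e1, h, h', mulVec_add, mulVec_smul, mulVec_smul]
    funext l
    simp only [Pi.add_apply, Pi.smul_apply, smul_eq_mul, map_add, map_mul, map_pow]
    ring
  have hX : ∀ v, Z v → Z ((X : O[X]) • v) := by
    rintro v ⟨k, x, c, h⟩
    refine ⟨k + 1, (C a * X : O[X]) • x + fun l => C (c l), S *ᵥ c, ?_⟩
    have e1 : (C a : O[X]) ^ (k + 1) • (X : O[X]) • v =
        (C a * X : O[X]) • ((C a : O[X]) ^ k • v) := by
      rw [smul_smul, smul_smul]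
      congr 1
      ring
    have e2 : S.map C *ᵥ (fun l => (C (c l) : O[X])) = fun l => C ((S *ᵥ c) l) :=
      map_mulVec_comp (A := O) (T := O[X]) S c
    rw [e1, h, mulVec_add, mulVec_smul, lin_mulVec a S (fun l => C (c l)), e2, smul_add]
    abel
  have hmon : ∀ (m : ℕ) (c : Fin r → O), Z ((X : O[X]) ^ m • fun l => C (c l)) := by
    intro m c
    induction m with
    | zero => exact ⟨0, 0, c, by simp⟩
    | succ m ih =>
      rw [pow_succ', mul_smul]
      exact hX _ ih
  have hsingle : ∀ (l : Fin r) (p : O[X]), Z (Pi.single l p) := by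
    intro l p
    induction p using Polynomial.induction_on' with
    | add p q hp hq =>
      rw [Pi.single_add]
      exact hadd _ _ hp hq
    | monomial m b =>
      have : (Pi.single l (monomial m b) : Fin r → O[X]) =
          (X : O[X]) ^ m • fun j => C ((Pi.single l b : Fin r → O) j) := by
        funext j
        by_cases hj : j = l
        · subst hj
          simp only [Pi.single_eq_same, Pi.smul_apply, smul_eq_mul]
          rw [mul_comm, C_mul_X_pow_eq_monomial]
        · simp [hj]
      rw [this]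
      exact hmon m _
  show Z v
  rw [← Finset.univ_sum_single v]
  exact Finset.sum_induction _ Z hadd ⟨0, 0, 0, by funext l; simp⟩ fun l _ => hsingle l _

/-- A presentation of the quotient near the prime. -/
theorem exists_pres [IsDomain O] (P : Ideal O) [P.IsPrime]
    [PreValuationRing (Localization.AtPrime P)] {H : O[X]} (hH : H.Monic)
    (Th : Matrix (Fin n) (Fin n) O[X]) :
    ∃ (r : ℕ) (a : O) (B : Matrix (Fin n) (Fin r) O[X]) (al : Matrix (Fin r) (Fin n) O[X])
      (S : Matrix (Fin r) (Fin r) O), a ∉ P ∧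
      (∀ i j, H ∣ (Th * ((C a : O[X]) • (1 : Matrix (Fin n) (Fin n) O[X]) - B * al)) i j) ∧
      (∀ i j, H ∣ (Th * (B * lin a S)) i j) ∧
      ∀ c : Fin r → O, B *ᵥ (fun l => C (c l)) ∈ NN H Th → c = 0 := by
  classical
  have := quot_finite hH Th
  obtain ⟨r, b, a, ha, hli, hgen⟩ := val_basis P (quot_tf hH Th)
  choose β hβ using fun l => (NN H Th).mkQ_surjective (b l)
  let B : Matrix (Fin n) (Fin r) O[X] := Matrix.of fun i l => β l i
  have hB : ∀ c : Fin r → O, (NN H Th).mkQ (B *ᵥ fun l => C (c l)) = ∑ l, c l • b l := by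
    intro c
    have : (B *ᵥ fun l => C (c l)) = ∑ l, c l • β l := by
      funext i
      simp [B, mulVec, dotProduct, Finset.sum_apply, smul_eq_C_mul, mul_comm]
    rw [this, map_sum]
    refine Finset.sum_congr rfl fun l _ => ?_
    rw [← hβ l]
    rfl
  have hw : ∀ w : Fin n → O[X], ∃ c : Fin r → O,
      (C a : O[X]) • w - B *ᵥ (fun l => C (c l)) ∈ NN H Th := by
    intro w
    obtain ⟨c, hc⟩ := (Submodule.mem_span_range_iff_exists_fun O).1 (hgen ((NN H Th).mkQ w))
    refine ⟨c, ?_⟩
    rw [← Submodule.Quotient.eq, ← Submodule.mkQ_apply, ← Submodule.mkQ_apply, hB, hc]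
    have : (C a : O[X]) • w = a • w := by
      funext i
      simp [smul_eq_C_mul]
    rw [this]
    rfl
  choose c hc using hw
  refine ⟨r, a, B, Matrix.of fun l j => C (c (Pi.single j 1) l),
    Matrix.of fun l j => c ((X : O[X]) • β j) l, ha, fun i j => ?_, fun i j => ?_,
    fun c' hc' => ?_⟩
  · have h1 := hc (Pi.single j 1) i
    refine (congrArg (H ∣ ·) ?_).mp h1
    simp only [mul_apply, mulVec, dotProduct]
    refine Finset.sum_congr rfl fun i' _ => ?_
    congr 1
    simp [mul_apply, mulVec, dotProduct, one_apply, Pi.single_apply]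
  · have h1 := hc ((X : O[X]) • β j) i
    refine (congrArg (H ∣ ·) ?_).mp h1
    rw [mul_apply]
    simp only [mulVec, dotProduct]
    refine Finset.sum_congr rfl fun i' _ => ?_
    congr 1
    rw [lin, Matrix.mul_sub, Matrix.mul_smul, Matrix.mul_one]
    simp [mul_apply, mulVec, dotProduct, B, mul_assoc]
  · have h1 := hB c'
    rw [Submodule.mkQ_apply, (Submodule.Quotient.mk_eq_zero _).2 hc'] at h1
    funext l
    exact Fintype.linearIndependent_iff.1 hli c' h1.symm l

theorem dvd_map_mulVec {A T : Type u} [CommRing A] [CommRing T] (f : A →+* T) {κ : Type}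
    [Fintype κ] {H : A} (Th : Matrix (Fin n) (Fin n) A) (M : Matrix (Fin n) κ A)
    (h : ∀ i j, H ∣ (Th * M) i j) (v : κ → T) : M.map f *ᵥ v ∈ NN (f H) (Th.map f) := by
  intro i
  rw [mulVec_mulVec, ← Matrix.map_mul]
  exact Finset.dvd_sum fun j _ => Dvd.dvd.mul_right (map_dvd f (h i j)) _

theorem pure_alg [IsDomain O] (P : Ideal O) [P.IsPrime]
    [PreValuationRing (Localization.AtPrime P)] {H : O[X]} (hH : H.Monic)
    (Th : Matrix (Fin n) (Fin n) O[X]) :
    ∃ a : O, a ∉ P ∧ ∀ (T : Type u) [CommRing T] [Algebra O[X] T] [Module.Flat O[X] T],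
      IsUnit (algebraMap O[X] T (C a)) →
        Module.Finite T (NN (algebraMap O[X] T H) (Th.map (algebraMap O[X] T))) ∧
        Module.Projective T (NN (algebraMap O[X] T H) (Th.map (algebraMap O[X] T))) := by
  classical
  obtain ⟨r, a, B, al, S, ha, hE, hF, hind⟩ := exists_pres P hH Th
  refine ⟨a, ha, fun T _ _ _ hu => ?_⟩
  have ha0 : a ≠ 0 := fun h => ha (h ▸ P.zero_mem)
  obtain ⟨un, hun⟩ := hu
  set f := algebraMap O[X] T with hf
  set N := NN (f H) (Th.map f) with hN
  let L : (Fin r → T) →ₗ[T] (Fin r → T) := ((lin a S).map f).mulVecLin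
  have hL : Function.Injective L := by
    rw [← LinearMap.ker_eq_bot, eq_bot_iff]
    intro v hv
    have h1 := flat_ker (lin a S) v hv
    refine Submodule.span_le.2 ?_ h1
    rintro _ ⟨x, hx, rfl⟩
    rw [lin_inj ha0 S x hx]
    funext l
    simp
  have hrange : ∀ v : Fin r → T, B.map f *ᵥ v ∈ N → v ∈ LinearMap.range L := by
    intro v hv
    have h1 := flat_dvd H (Th * B) v (fun i => by
      rw [Matrix.map_mul, ← mulVec_mulVec]
      exact hv i)
    refine Submodule.span_le.2 ?_ h1
    rintro _ ⟨x, hx, rfl⟩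
    obtain ⟨k, x', c, hk⟩ := lin_div a S x
    have hc : c = 0 := by
      refine hind c ?_
      have e1 : (B *ᵥ fun l => C (c l)) =
          (C a : O[X]) ^ k • (B *ᵥ x) - (B * lin a S) *ᵥ x' := by
        rw [← mulVec_smul, hk, mulVec_add, mulVec_mulVec]
        abel
      rw [e1]
      refine sub_mem (Submodule.smul_mem _ _ fun i => ?_) ?_
      · rw [mulVec_mulVec]
        exact hx i
      · exact dvd_map_mulVec (RingHom.id _) Th _ hF x'
    refine ⟨((un⁻¹ ^ k : Tˣ) : T) • fun l => f (x' l), ?_⟩
    rw [map_smul]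
    have e2 : L (fun l => f (x' l)) = (un : T) ^ k • fun l => f (x l) := by
      show (lin a S).map f *ᵥ _ = _
      rw [map_mulVec_comp]
      funext l
      have := congrFun hk l
      simp only [hc, Pi.smul_apply, Pi.add_apply, Pi.zero_apply, map_zero, add_zero,
        smul_eq_mul] at this
      rw [← this, map_mul, map_pow, ← hun]
      rfl
    rw [e2, smul_smul, ← Units.val_pow_eq_pow_val, ← Units.val_mul, ← mul_pow, inv_mul_cancel,
      one_pow, Units.val_one, one_smul]
  let E := (C a : O[X]) • (1 : Matrix (Fin n) (Fin n) O[X]) - B * al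
  have hEv : ∀ w : Fin n → T, E.map f *ᵥ w = (un : T) • w - B.map f *ᵥ (al.map f *ᵥ w) := by
    intro w
    have : E.map f = (un : T) • (1 : Matrix (Fin n) (Fin n) T) - B.map f * al.map f := by
      ext i j
      by_cases hij : i = j
      · simp [E, hij, hun, mul_apply, map_sum]
      · simp [E, hij, mul_apply, map_sum]
    rw [this, sub_mulVec, smul_mulVec, one_mulVec, mulVec_mulVec]
  let ρ : ((Fin n → T) × (Fin r → T)) →ₗ[T] N :=
    LinearMap.codRestrict N ((E.map f).mulVecLin.coprod ((B * lin a S).map f).mulVecLin)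
      fun z => add_mem (dvd_map_mulVec f Th E hE _) (dvd_map_mulVec f Th _ hF _)
  have hmem : ∀ w : N, ((al.map f).mulVecLin ∘ₗ N.subtype) w ∈ LinearMap.range L := by
    intro w
    refine hrange _ ?_
    have e1 : B.map f *ᵥ (al.map f *ᵥ (w : Fin n → T)) = (un : T) • (w : Fin n → T) -
        E.map f *ᵥ (w : Fin n → T) := by
      rw [hEv]
      abel
    show B.map f *ᵥ (al.map f *ᵥ (w : Fin n → T)) ∈ N
    rw [e1]
    exact sub_mem (Submodule.smul_mem _ _ w.2) (dvd_map_mulVec f Th E hE _)
  let ξ : N →ₗ[T] (Fin r → T) := (LinearEquiv.ofInjective L hL).symm.toLinearMap ∘ₗ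
    LinearMap.codRestrict _ ((al.map f).mulVecLin ∘ₗ N.subtype) hmem
  have hξ : ∀ w : N, L (ξ w) = al.map f *ᵥ (w : Fin n → T) := by
    intro w
    have := (LinearEquiv.ofInjective L hL).apply_symm_apply
      (LinearMap.codRestrict _ ((al.map f).mulVecLin ∘ₗ N.subtype) hmem w)
    exact congrArg Subtype.val this
  let σ : N →ₗ[T] ((Fin n → T) × (Fin r → T)) := ((un⁻¹ : Tˣ) : T) • N.subtype.prod ξ
  have hρσ : ρ ∘ₗ σ = LinearMap.id := by
    refine LinearMap.ext fun w => ?_
    have e1 : ρ (N.subtype.prod ξ w) = (un : T) • w := by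
      apply Subtype.ext
      show E.map f *ᵥ (w : Fin n → T) + (B * lin a S).map f *ᵥ ξ w = (un : T) • (w : Fin n → T)
      have e2 : (lin a S).map f *ᵥ ξ w = al.map f *ᵥ (w : Fin n → T) := hξ w
      rw [hEv, Matrix.map_mul, ← mulVec_mulVec, e2]
      abel
    show ρ (((un⁻¹ : Tˣ) : T) • N.subtype.prod ξ w) = w
    rw [map_smul, e1, smul_smul, Units.inv_mul, one_smul]
  exact ⟨Module.Finite.of_surjective ρ fun w => ⟨σ w, LinearMap.congr_fun hρσ w⟩,
    Module.Projective.of_split σ ρ hρσ⟩

end pure

section free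

variable {T : Type u} [CommRing T] {n : ℕ}

theorem clear_NN (S : Submonoid T) (L : Type u) [CommRing L] [Algebra T L] [IsLocalization S L]
    (H : T) (Th : Matrix (Fin n) (Fin n) T) (x : Fin n → L)
    (hx : x ∈ NN (algebraMap T L H) (Th.map (algebraMap T L))) :
    ∃ s ∈ S, ∃ w ∈ NN H Th, (fun i => algebraMap T L (w i)) = algebraMap T L s • x := by
  classical
  choose z hz using hx
  obtain ⟨s, hs⟩ := IsLocalization.exist_integer_multiples_of_finite S (Sum.elim x z)
  choose y hy using hs
  have h1 : ∀ i, algebraMap T L ((Th *ᵥ fun j => y (Sum.inl j)) i) =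
      algebraMap T L (H * y (Sum.inr i)) := by
    intro i
    have e1 : (fun j => algebraMap T L (y (Sum.inl j))) = algebraMap T L s • x := by
      funext j
      rw [hy, Algebra.smul_def]
      rfl
    have e2 := congrFun (map_mulVec_comp (T := L) Th fun j => y (Sum.inl j)) i
    rw [← e2, e1, mulVec_smul, Pi.smul_apply, hz, map_mul, hy, smul_eq_mul, Algebra.smul_def]
    simp only [Sum.elim_inr]
    ring
  choose c hc using fun i => IsLocalization.exists_of_eq (M := S) (h1 i)
  refine ⟨(∏ i, (c i : T)) * s, S.mul_mem (prod_mem fun i _ => (c i).2) s.2,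
    (∏ i, (c i : T)) • fun j => y (Sum.inl j), fun i => ?_, ?_⟩
  · rw [mulVec_smul, Pi.smul_apply, smul_eq_mul,
      ← Finset.mul_prod_erase _ _ (Finset.mem_univ i), mul_right_comm, hc i]
    exact Dvd.dvd.mul_right (Dvd.dvd.mul_left (Dvd.intro _ rfl) _) _
  · funext j
    simp only [Pi.smul_apply, smul_eq_mul, map_mul, hy, Algebra.smul_def, Sum.elim_inl]
    ring

theorem clear_range (S : Submonoid T) (L : Type u) [CommRing L] [Algebra T L] [IsLocalization S L]
    (W : Matrix (Fin n) (Fin n) T) (w : Fin n → T) (v : Fin n → L)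
    (h : (fun i => algebraMap T L (w i)) = W.map (algebraMap T L) *ᵥ v) :
    ∃ s ∈ S, ∃ v' : Fin n → T, s • w = W *ᵥ v' := by
  classical
  obtain ⟨s, hs⟩ := IsLocalization.exist_integer_multiples_of_finite S v
  choose y hy using hs
  have h1 : ∀ i, algebraMap T L (s * w i) = algebraMap T L ((W *ᵥ y) i) := by
    intro i
    have e1 : (fun j => algebraMap T L (y j)) = algebraMap T L s • v := by
      funext j
      rw [hy, Algebra.smul_def]
      rfl
    have e2 := congrFun (map_mulVec_comp (T := L) W y) i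
    rw [← e2, e1, mulVec_smul, ← h, map_mul]
    rfl
  choose c hc using fun i => IsLocalization.exists_of_eq (M := S) (h1 i)
  refine ⟨(∏ i, (c i : T)) * s, S.mul_mem (prod_mem fun i _ => (c i).2) s.2,
    (∏ i, (c i : T)) • y, ?_⟩
  funext i
  rw [mulVec_smul, Pi.smul_apply, Pi.smul_apply, smul_eq_mul, smul_eq_mul,
    ← Finset.mul_prod_erase _ _ (Finset.mem_univ i)]
  linear_combination (∏ j ∈ Finset.univ.erase i, (c j : T)) * hc i

theorem exists_gen_local {L : Type u} [CommRing L] [IsLocalRing L] (N : Submodule L (Fin n → L))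
    [Module.Finite L N] [Module.Projective L N] :
    ∃ g : Fin n → Fin n → L, Submodule.span L (Set.range g) = N := by
  classical
  have : Module.Free L N := Module.free_of_flat_of_isLocalRing
  have hr : Module.finrank L N ≤ n := by simpa using N.finrank_le
  let b := Module.finBasis L N
  refine ⟨fun i => if h : (i : ℕ) < Module.finrank L N then (b ⟨i, h⟩ : Fin n → L) else 0, ?_⟩
  apply le_antisymm
  · rw [Submodule.span_le]
    rintro _ ⟨i, rfl⟩
    dsimp only
    split_ifs
    · exact (b _).2
    · exact N.zero_mem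
  · intro w hw
    have h1 : w = ∑ l, b.repr ⟨w, hw⟩ l • (b l : Fin n → L) := by
      have := congrArg N.subtype (b.sum_repr ⟨w, hw⟩)
      rw [map_sum] at this
      exact this.symm
    rw [h1]
    refine Submodule.sum_mem _ fun l _ => Submodule.smul_mem _ _ (Submodule.subset_span ?_)
    exact ⟨⟨l, lt_of_lt_of_le l.2 hr⟩, by simp⟩

theorem exists_crt [Finite (MaximalSpectrum T)] (m : MaximalSpectrum T) :
    ∃ e : T, e ∉ m.asIdeal ∧ ∀ m' : MaximalSpectrum T, m' ≠ m → e ∈ m'.asIdeal := by
  classical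
  have := Fintype.ofFinite (MaximalSpectrum T)
  have h : ∀ m' : MaximalSpectrum T, ∃ x : T, x ∉ m.asIdeal ∧ (m' ≠ m → x ∈ m'.asIdeal) := by
    intro m'
    by_cases hm : m' = m
    · exact ⟨1, (Ideal.ne_top_iff_one _).1 m.isMaximal.ne_top, fun h => absurd hm h⟩
    · by_contra hc
      push Not at hc
      refine hm (MaximalSpectrum.ext (m'.isMaximal.eq_of_le m.isMaximal.ne_top fun x hx => ?_))
      by_contra hx'
      exact (hc x hx').2 hx
  choose x hx using h
  have := m.isMaximal.isPrime
  refine ⟨∏ m', x m', ?_, fun m' hm' => ?_⟩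
  · exact prod_mem (S := m.asIdeal.primeCompl) fun m' _ => (hx m').1
  · rw [← Finset.mul_prod_erase _ _ (Finset.mem_univ m')]
    exact Ideal.mul_mem_right _ _ ((hx m').2 hm')

theorem free_aux [Finite (MaximalSpectrum T)] (H : T) (Th : Matrix (Fin n) (Fin n) T)
    (hloc : ∀ (m : Ideal T) [m.IsMaximal],
      Module.Finite (Localization.AtPrime m) (NN (algebraMap T (Localization.AtPrime m) H)
        (Th.map (algebraMap T (Localization.AtPrime m)))) ∧
      Module.Projective (Localization.AtPrime m) (NN (algebraMap T (Localization.AtPrime m) H)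
        (Th.map (algebraMap T (Localization.AtPrime m))))) :
    ∃ W : Matrix (Fin n) (Fin n) T, ∀ w, w ∈ NN H Th ↔ ∃ v, w = W *ᵥ v := by
  classical
  have := Fintype.ofFinite (MaximalSpectrum T)
  have hmapN : ∀ (L : Type u) [CommRing L] [Algebra T L], ∀ w ∈ NN H Th,
      (fun i => algebraMap T L (w i)) ∈ NN (algebraMap T L H) (Th.map (algebraMap T L)) := by
    intro L _ _ w hw i
    rw [map_mulVec_comp]
    exact map_dvd _ (hw i)
  have hg : ∀ m : MaximalSpectrum T, ∃ g : Fin n → Fin n → T, (∀ j, g j ∈ NN H Th) ∧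
      NN (algebraMap T (Localization.AtPrime m.asIdeal) H)
        (Th.map (algebraMap T (Localization.AtPrime m.asIdeal))) ≤
      Submodule.span (Localization.AtPrime m.asIdeal) (Set.range fun j i =>
        algebraMap T (Localization.AtPrime m.asIdeal) (g j i)) := by
    intro m
    obtain ⟨h1, h2⟩ := hloc m.asIdeal
    obtain ⟨g, hg⟩ := exists_gen_local (NN (algebraMap T (Localization.AtPrime m.asIdeal) H)
      (Th.map (algebraMap T (Localization.AtPrime m.asIdeal))))
    choose s hs w hw hsw using fun j => clear_NN m.asIdeal.primeCompl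
      (Localization.AtPrime m.asIdeal) H Th (g j) (hg ▸ Submodule.subset_span ⟨j, rfl⟩)
    refine ⟨w, hw, ?_⟩
    rw [← hg, Submodule.span_le]
    rintro _ ⟨j, rfl⟩
    obtain ⟨un, hun⟩ := IsLocalization.map_units (Localization.AtPrime m.asIdeal) ⟨s j, hs j⟩
    have e1 : g j = ((un⁻¹ : _ˣ) : Localization.AtPrime m.asIdeal) •
        fun i => algebraMap T (Localization.AtPrime m.asIdeal) (w j i) := by
      rw [hsw j, smul_smul, ← hun, Units.inv_mul, one_smul]
    rw [e1]
    exact Submodule.smul_mem _ _ (Submodule.subset_span ⟨j, rfl⟩)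
  choose g hgN hgs using hg
  choose e he he' using exists_crt (T := T)
  let c : Fin n → Fin n → T := fun j => ∑ m, e m • g m j
  have hcN : ∀ j, c j ∈ NN H Th := fun j =>
    Submodule.sum_mem _ fun m _ => Submodule.smul_mem _ _ (hgN m j)
  let W : Matrix (Fin n) (Fin n) T := Matrix.of fun i j => c j i
  have hW : ∀ v : Fin n → T, W *ᵥ v = ∑ j, v j • c j := by
    intro v
    funext i
    simp [W, mulVec, dotProduct, Finset.sum_apply, mul_comm]
  refine ⟨W, fun w => ⟨fun hw => ?_, ?_⟩⟩
  · let I : Ideal T := (LinearMap.range W.mulVecLin).comap (LinearMap.toSpanSingleton T _ w)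
    have hI : I = ⊤ := by
      by_contra hI
      obtain ⟨m0, hm0, hle⟩ := Ideal.exists_le_maximal I hI
      let m : MaximalSpectrum T := ⟨m0, hm0⟩
      let L := Localization.AtPrime m.asIdeal
      obtain ⟨h1, -⟩ := hloc m.asIdeal
      have hnak : NN (algebraMap T L H) (Th.map (algebraMap T L)) ≤
          Submodule.span L (Set.range fun j i => algebraMap T L (c j i)) := by
        refine Submodule.le_of_le_smul_of_le_jacobson_bot (I := IsLocalRing.maximalIdeal L)
          (Module.Finite.iff_fg.1 h1) (IsLocalRing.maximalIdeal_le_jacobson _) ?_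
        refine (hgs m).trans (Submodule.span_le.2 ?_)
        rintro _ ⟨j, rfl⟩
        obtain ⟨un, hun⟩ := IsLocalization.map_units L (⟨e m, he m⟩ : m.asIdeal.primeCompl)
        have e1 : (fun i => algebraMap T L (g m j i)) = ((un⁻¹ : Lˣ) : L) •
            ((fun i => algebraMap T L (c j i)) - ∑ m' ∈ Finset.univ.erase m,
              algebraMap T L (e m') • fun i => algebraMap T L (g m' j i)) := by
          have e2 : (fun i => algebraMap T L (c j i)) =
              ∑ m', algebraMap T L (e m') • fun i => algebraMap T L (g m' j i) := by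
            funext i
            simp only [c, Finset.sum_apply, map_sum, Pi.smul_apply, smul_eq_mul, map_mul]
          rw [e2, ← Finset.add_sum_erase _ _ (Finset.mem_univ m), add_sub_cancel_right, smul_smul,
            ← hun, Units.inv_mul, one_smul]
        show (fun i => algebraMap T L (g m j i)) ∈ _
        rw [e1]
        refine Submodule.smul_mem _ _ (sub_mem (Submodule.mem_sup_left
          (Submodule.subset_span ⟨j, rfl⟩)) (Submodule.mem_sup_right
            (Submodule.sum_mem _ fun m' hm' => Submodule.smul_mem_smul ?_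
              (hmapN L _ (hgN m' j)))))
        exact (IsLocalization.AtPrime.to_map_mem_maximal_iff L m.asIdeal _).2
          (he' m' m (Finset.ne_of_mem_erase hm').symm)
      obtain ⟨v, hv⟩ := (Submodule.mem_span_range_iff_exists_fun L).1 (hnak (hmapN L w hw))
      obtain ⟨s, hs, v', hv'⟩ := clear_range m.asIdeal.primeCompl L W w v (by
        rw [← hv]
        funext i
        simp [W, mulVec, dotProduct, Finset.sum_apply, mul_comm])
      exact hs (hle ⟨v', hv'.symm⟩)
    obtain ⟨v, hv⟩ : (1 : T) ∈ I := hI ▸ Submodule.mem_top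
    exact ⟨v, by simpa using hv.symm⟩
  · rintro ⟨v, rfl⟩
    rw [hW]
    exact Submodule.sum_mem _ fun j _ => Submodule.smul_mem _ _ (hcN j)

end free

theorem pure_nn {O : Type u} [CommRing O] [IsDomain O] (P : Ideal O) [P.IsPrime]
    [ValuationRing (Localization.AtPrime P)] (H : O[X]) (hH : H.Monic) {n : ℕ}
    (Θ : Mat n O[X]) :
    ∃ u, u ∉ P ∧ ∀ (T : Type u) [CommRing T] (μ : O[X] →+* T), μ.Flat → IsUnit (μ (C u)) →
      Module.Finite T (NN (μ H) (Θ.map μ)) ∧ Module.Projective T (NN (μ H) (Θ.map μ)) := by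
  obtain ⟨a, ha, h⟩ := pure_alg P hH Θ
  refine ⟨a, ha, fun T _ μ hμ hu => ?_⟩
  let _ := μ.toAlgebra
  have : Module.Flat O[X] T := hμ
  exact h T hu

theorem mul_smul_one_comm {T : Type u} [CommRing T] [IsDomain T] {n : ℕ} {c : T} (hc : c ≠ 0)
    {P P' : Mat n T} (hP : P * P' = c • (1 : Mat n T)) : P' * P = c • (1 : Mat n T) := by
  have hd : P.det ≠ 0 := fun h => by
    have := congrArg det hP
    rw [det_mul, h, zero_mul, det_smul, det_one, mul_one] at this
    exact pow_ne_zero _ hc this.symm
  have h1 : P.det • (P' * P) = P.det • (c • (1 : Mat n T)) := by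
    calc P.det • (P' * P) = P.adjugate * P * (P' * P) := by
          rw [adjugate_mul, Matrix.smul_mul, Matrix.one_mul]
      _ = P.adjugate * (P * P') * P := by simp only [Matrix.mul_assoc]
      _ = P.det • (c • (1 : Mat n T)) := by
          rw [hP, Matrix.mul_smul, Matrix.mul_one, Matrix.smul_mul, adjugate_mul, smul_comm]
  exact smul_right_injective _ hd h1

theorem unit_nn {T : Type u} [CommRing T] [IsDomain T] {n : ℕ} {f H : T} (hf : IsUnit f)
    (hH : H ≠ 0) {P P' : Mat n T} (hP : P * P' = (f * H) • (1 : Mat n T)) :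
    Module.Finite T (NN H P') ∧ Module.Projective T (NN H P') := by
  obtain ⟨f, rfl⟩ := hf
  have hc : (f : T) * H ≠ 0 := mul_ne_zero f.ne_zero hH
  have hP' := mul_smul_one_comm hc hP
  have hinj : Function.Injective P.mulVecLin := by
    rw [← LinearMap.ker_eq_bot, eq_bot_iff]
    intro v hv
    have h1 : P *ᵥ v = 0 := hv
    have h2 : ((f : T) * H) • v = 0 := by
      rw [← one_mulVec v, ← smul_mulVec, ← hP', ← mulVec_mulVec, h1, mulVec_zero]
    exact (smul_eq_zero.1 h2).resolve_left hc
  have hr : LinearMap.range P.mulVecLin = NN H P' := by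
    apply le_antisymm
    · rintro _ ⟨v, rfl⟩ i
      rw [mulVecLin_apply, mulVec_mulVec, hP', smul_mulVec, one_mulVec]
      exact Dvd.dvd.mul_right (Dvd.intro_left _ rfl) _
    · intro w hw
      choose z hz using hw
      refine ⟨((f⁻¹ : Tˣ) : T) • z, ?_⟩
      have h1 : P' *ᵥ w = H • z := funext hz
      have h2 : H • ((f : T) • w) = H • (P *ᵥ z) := by
        rw [← mulVec_smul, ← h1, mulVec_mulVec, hP, smul_mulVec, one_mulVec, smul_smul, mul_comm]
      have h3 := smul_right_injective _ hH h2
      rw [map_smul, mulVecLin_apply, ← h3, smul_smul, Units.inv_mul, one_smul]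
  rw [← hr]
  exact ⟨Module.Finite.equiv (LinearEquiv.ofInjective _ hinj),
    Module.Projective.of_equiv (LinearEquiv.ofInjective _ hinj)⟩

theorem free_nn {T : Type u} [CommRing T] [IsDomain T] [Finite (MaximalSpectrum T)] {n : ℕ}
    {H : T} (hH : H ≠ 0) (Θ : Mat n T)
    (hl : ∀ (p : Ideal T) [p.IsMaximal],
      Module.Finite (Localization.AtPrime p)
        (NN (algebraMap T (Localization.AtPrime p) H)
          (Θ.map (algebraMap T (Localization.AtPrime p)))) ∧
      Module.Projective (Localization.AtPrime p)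
        (NN (algebraMap T (Localization.AtPrime p) H)
          (Θ.map (algebraMap T (Localization.AtPrime p))))) :
    ∃ W : Mat n T, ∀ w, w ∈ NN H Θ ↔ ∃ v, w = W *ᵥ v :=
  have _ := hH
  free_aux H Θ hl

end Pool.Agent.GR
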