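import Pool.Agent.P.MP_c1f06d_ag.r.OOf
import Pool.Agent.P.MP_c1f06d_ag.r.Pure
import Pool.Agent.P.MP_c1f06d_ag.r.Line

open Matrix Polynomial IsLocalRing Pool.Agent.P.MP_c1f06d_ag

universe u

namespace Pool.Agent.GR

theorem ld_comm {T : Type u} [CommRing T] [IsDomain T] {n : ℕ} {c : T} (hc : c ≠ 0)
    {P P' : Mat n T} (hP : P * P' = c • (1 : Mat n T)) : P' * P = c • (1 : Mat n T) := by
  have hd : P.det ≠ 0 := by
    intro h0
    have h1 := congrArg Matrix.det hP
    rw [det_mul, h0, zero_mul, det_smul, det_one, mul_one] at h1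
    exact pow_ne_zero _ hc h1.symm
  have h2 : P * (P' * P - c • (1 : Mat n T)) = 0 := by
    rw [Matrix.mul_sub, ← Matrix.mul_assoc, hP, Matrix.smul_mul, Matrix.one_mul, Matrix.mul_smul,
      Matrix.mul_one, sub_self]
  have h3 : P.det • (P' * P - c • (1 : Mat n T)) = 0 := by
    have := congrArg (fun X => adjugate P * X) h2
    simpa only [← Matrix.mul_assoc, adjugate_mul, Matrix.smul_mul, Matrix.one_mul,
      Matrix.mul_zero] using this
  exact sub_eq_zero.1 ((smul_eq_zero.1 h3).resolve_left hd)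

theorem ld_cols {T : Type u} [CommRing T] {n : ℕ} {H : T} {Θ W : Mat n T}
    (hW : ∀ w, w ∈ NN H Θ ↔ ∃ v, w = W *ᵥ v) (Y : Mat n T) (hY : ∀ i j, H ∣ (Θ * Y) i j) :
    ∃ Z, Y = W * Z := by
  have h : ∀ j, ∃ v, (fun i => Y i j) = W *ᵥ v := fun j => (hW _).1 fun i => hY i j
  choose v hv using h
  refine ⟨of fun i j => v j i, ?_⟩
  ext i j
  exact congrFun (hv j) i

theorem ld_fact {T : Type u} [CommRing T] [IsDomain T] {n : ℕ} {f H : T} (hf : f ≠ 0)
    (hH : H ≠ 0) {P P' W : Mat n T} (hP : P * P' = (f * H) • (1 : Mat n T))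
    (hW : ∀ w, w ∈ NN H P' ↔ ∃ v, w = W *ᵥ v) :
    ∃ W' Z Z' : Mat n T, W * W' = H • (1 : Mat n T) ∧ Z * Z' = f • (1 : Mat n T) ∧ P = W * Z := by
  have hP' := ld_comm (mul_ne_zero hf hH) hP
  obtain ⟨W', hW'⟩ := ld_cols hW (H • (1 : Mat n T)) fun i j => by
    rw [Matrix.mul_smul, Matrix.smul_apply, smul_eq_mul]
    exact Dvd.intro _ rfl
  obtain ⟨Z, hZ⟩ := ld_cols hW P fun i j => by
    rw [hP', Matrix.smul_apply, smul_eq_mul]
    exact Dvd.dvd.mul_right (Dvd.intro_left _ rfl) _
  have hd : ∀ i j, ∃ z, (P' * W) i j = H * z := fun i j => by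
    have h1 : W *ᵥ Pi.single j 1 ∈ NN H P' := (hW _).2 ⟨_, rfl⟩
    have h2 := h1 i
    rw [mulVec_mulVec, mulVec_single_one] at h2
    exact h2
  choose z hz using hd
  have hz' : P' * W = H • (of z : Mat n T) := by
    ext i j
    exact hz i j
  have hc := ld_comm hH hW'.symm
  refine ⟨W', Z, of z, hW'.symm, ?_, hZ⟩
  have h1 : H • (W * (Z * of z)) = H • (f • W) := by
    rw [← Matrix.mul_assoc, ← hZ, ← Matrix.mul_smul, ← hz', ← Matrix.mul_assoc, hP,
      Matrix.smul_mul, Matrix.one_mul, smul_smul, mul_comm]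
  have h2 : W * (Z * of z) = f • W := smul_right_injective _ hH h1
  have h3 : H • (Z * of z) = H • (f • (1 : Mat n T)) := by
    have h4 := congrArg (fun X => W' * X) h2
    simp only [← Matrix.mul_assoc, hc, Matrix.smul_mul, Matrix.one_mul, Matrix.mul_smul] at h4
    rw [h4, smul_comm]
  exact smul_right_injective _ hH h3

/-- The point of the line over the closed point. -/
noncomputable def ldP (B : Type u) [CommRing B] [IsLocalRing B] : Ideal B[X] :=
  (maximalIdeal B).comap (evalRingHom (0 : B))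

instance (B : Type u) [CommRing B] [IsLocalRing B] : (ldP B).IsPrime :=
  Ideal.comap_isPrime _ _

theorem ldP_mem {B : Type u} [CommRing B] [IsLocalRing B] {p : B[X]} :
    p ∈ (ldP B).primeCompl ↔ IsUnit (p.eval 0) := by
  change ¬ (p.eval 0 ∈ maximalIdeal B) ↔ _
  rw [mem_maximalIdeal, mem_nonunits_iff, not_not]

theorem ld_copr {B : Type u} [CommRing B] [IsLocalRing B] {ht : B[X]}
    (h0 : ¬ IsUnit (ht.eval 0)) {p : B[X]} (hp : p ∈ copr ht) : IsUnit (p.eval 0) := by
  obtain ⟨a, b, hab⟩ : IsCoprime p ht := hp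
  have h1 := congrArg (eval 0) hab
  rw [eval_add, eval_mul, eval_mul, eval_one] at h1
  rcases isUnit_or_isUnit_of_add_one h1 with h | h
  · exact isUnit_of_mul_isUnit_right h
  · exact absurd (isUnit_of_mul_isUnit_right h) h0

theorem ld_ring {A B : Type u} [CommRing A] [CommRing B] [IsDomain B] [IsLocalRing B]
    (π : A →+* B) (hi : Function.Injective π) (hs : ∀ r, ∃ a s, IsUnit (π s) ∧ r * π s = π a)
    (l : A →+* B[X]) (hl : ∀ a, (l a).eval 0 = π a) {ht : B[X]} (h0 : ¬ IsUnit (ht.eval 0))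
    (hle : copr ht ≤ nonZeroDivisors B[X]) :
    ∃ (T : Type u) (_ : CommRing T) (_ : IsDomain T) (l0 : B →+* T) (e0 : T →+* B)
      (io : OO ht →+* T), Function.Injective io ∧ (∀ b, e0 (l0 b) = b) ∧
      (∀ b, e0 (io (algebraMap B (OO ht) b)) = b) ∧
      ∀ a, l0 (π a) = io (algebraMap B[X] (OO ht) (l a)) := by
  let T := Localization.AtPrime (ldP B)
  have hT : Function.Injective (algebraMap B[X] T) :=
    IsLocalization.injective T (ldP B).primeCompl_le_nonZeroDivisors
  have hO : Function.Injective (algebraMap B[X] (OO ht)) := IsLocalization.injective _ hle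
  have u1 : ∀ y : copr ht, IsUnit (algebraMap B[X] T y) := fun y =>
    IsLocalization.map_units T (⟨y.1, ldP_mem.2 (ld_copr h0 y.2)⟩ : (ldP B).primeCompl)
  have u2 : ∀ y : (ldP B).primeCompl, IsUnit (evalRingHom (0 : B) y) := fun y => ldP_mem.1 y.2
  let S : Submonoid A := (IsUnit.submonoid B).comap π
  let : Algebra A B := π.toAlgebra
  have : IsLocalization S B :=
    { map_units := fun y => y.2
      surj := fun r => by
        obtain ⟨a, s, h1, h2⟩ := hs r
        exact ⟨⟨a, ⟨s, h1⟩⟩, h2⟩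
      exists_of_eq := fun {x y} h => ⟨1, by rw [hi h]⟩ }
  have u3 : ∀ y : S, IsUnit (((algebraMap B[X] T).comp l) y) := fun y =>
    IsLocalization.map_units T (⟨l y.1, ldP_mem.2 (by rw [hl]; exact y.2)⟩ : (ldP B).primeCompl)
  have e1 : ∀ a, IsLocalization.lift (S := B) u3 (π a) = algebraMap B[X] T (l a) := fun a =>
    IsLocalization.lift_eq u3 a
  refine ⟨T, inferInstance, inferInstance, IsLocalization.lift (S := B) u3,
    IsLocalization.lift (S := T) u2, IsLocalization.lift (S := OO ht) u1, ?_, ?_, ?_, ?_⟩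
  · rw [IsLocalization.lift_injective_iff]
    intro x y
    rw [hO.eq_iff, hT.eq_iff]
  · intro b
    have : (IsLocalization.lift (S := T) u2).comp (IsLocalization.lift (S := B) u3) =
        RingHom.id B := by
      refine IsLocalization.ringHom_ext S (RingHom.ext fun a => ?_)
      change IsLocalization.lift (S := T) u2 (IsLocalization.lift (S := B) u3 (π a)) = π a
      rw [e1, IsLocalization.lift_eq]
      exact hl a
    exact RingHom.congr_fun this b
  · intro b
    rw [IsScalarTower.algebraMap_apply B B[X] (OO ht), IsLocalization.lift_eq,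
      IsLocalization.lift_eq]
    simp
  · intro a
    rw [e1, IsLocalization.lift_eq]

theorem line_data (k : Type u) [Field k] [Infinite k] {V B : Type u} [CommRing V] [IsDomain V]
    [ValuationRing V] [Algebra k V] [CommRing B] [IsDomain B] [IsLocalRing B] {m : ℕ}
    {π : MvPolynomial (Fin (m + 1)) V →+* B} {h : MvPolynomial (Fin (m + 1)) V} {N : ℕ}
    (hG : Good π h N) (f : MvPolynomial (Fin (m + 1)) V) (hf : IsUnit (π f)) {n : ℕ} (M : ℕ)
    (P P' : Mat n (MvPolynomial (Fin (m + 1)) V))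
    (hP : P * P' = (f * h ^ M) • (1 : Mat n (MvPolynomial (Fin (m + 1)) V))) :
    ∃ (ht : B[X]) (T : Type u) (_ : CommRing T) (_ : IsDomain T) (l0 : B →+* T) (e0 : T →+* B)
      (io : OO ht →+* T) (μ : MvPolynomial (Fin (m + 1)) V →+* OO ht) (W W' Z Z' : Mat n (OO ht)),
      ht.Monic ∧ Function.Injective io ∧ (∀ b, e0 (l0 b) = b) ∧
      (∀ b, e0 (io (algebraMap B (OO ht) b)) = b) ∧ (∀ a, l0 (π a) = io (μ a)) ∧
      (∀ v, μ (MvPolynomial.C v) = algebraMap B (OO ht) (π (MvPolynomial.C v))) ∧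
      Associated (algebraMap B[X] (OO ht) ht) (μ h) ∧ (∀ g, μ h ∣ μ f * g → μ h ∣ g) ∧
      W * W' = μ h ^ M • (1 : Mat n (OO ht)) ∧ Z * Z' = μ f • (1 : Mat n (OO ht)) ∧
      P.map μ = W * Z := by
  let e := MvPolynomial.finSuccEquiv V m
  let P0 : Ideal (MvPolynomial (Fin m) V) := RingHom.ker (MvPolynomial.map (residue V))
  have : P0.IsPrime := RingHom.ker_isPrime _
  have : ValuationRing (Localization.AtPrime P0) := valo_gauss P0 fun a ha => ha
  obtain ⟨u, hu, hpure⟩ := pure_nn P0 (e h ^ M) (hG.monic.pow M) (P'.map e)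
  obtain ⟨q, hq1, hq2, hq3⟩ := line k hG u hu
  obtain ⟨c, hc⟩ := hq2
  let ht : B[X] := C ((c⁻¹ : Bˣ) : B) * lam π q h
  have hlh : lam π q h = ht * C (c : B) := by
    rw [mul_comm, ← mul_assoc, ← C_mul, Units.mul_inv, C_1, one_mul]
  have hm : ht.Monic := by
    refine monic_of_natDegree_le_of_coeff_eq_one N ((natDegree_C_mul_le _ _).trans hq1) ?_
    rw [coeff_C_mul, ← hc, Units.inv_mul]
  have h0 : ¬ IsUnit (ht.eval 0) := fun hh => hG.nu (by
    rw [← lam_eval π q h, hlh, eval_mul, eval_C]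
    exact hh.mul c.isUnit)
  have hnu : ¬ IsUnit ht := fun hh => h0 (hh.map (evalRingHom (0 : B)))
  have hle := oo_le hnu
  have : IsDomain (OO ht) := IsLocalization.isDomain_localization hle
  have := oo_finite hm
  have hO : Function.Injective (algebraMap B[X] (OO ht)) := IsLocalization.injective _ hle
  obtain ⟨T, i1, i2, l0, e0, io, t1, t2, t3, t4⟩ :=
    ld_ring π hG.pp.inj hG.pp.surj (lam π q) (lam_eval π q) h0 hle
  let μ : MvPolynomial (Fin (m + 1)) V →+* OO ht := (algebraMap B[X] (OO ht)).comp (lam π q)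
  have hμ : ∀ a, μ a = algebraMap B[X] (OO ht) (lam π q a) := fun a => rfl
  have hfl : μ.Flat := (lam_flat hG.pp q).comp
    (RingHom.flat_algebraMap_iff.2 (IsLocalization.flat (OO ht) (copr ht)))
  have hμi : Function.Injective μ := fun a b hab => hG.pp.inj (by
    have h1 : lam π q a = lam π q b := hO hab
    rw [← lam_eval π q a, ← lam_eval π q b, h1])
  have hh0 : h ≠ 0 := fun hh => hG.monic.ne_zero (by rw [hh, map_zero])
  have hf0 : f ≠ 0 := fun hh => hf.ne_zero (by rw [hh, map_zero])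
  have hμh : μ h ^ M ≠ 0 := pow_ne_zero _ fun hh => hh0 (hμi (by rw [hh, map_zero]))
  have hμf : μ f ≠ 0 := fun hh => hf0 (hμi (by rw [hh, map_zero]))
  have hmap : ∀ {S : Type u} [CommRing S] (ν : MvPolynomial (Fin (m + 1)) V →+* S),
      P.map ν * P'.map ν = (ν f * ν h ^ M) • (1 : Mat n S) := fun ν => by
    rw [← Matrix.map_mul, hP, ← map_pow, ← map_mul]
    ext i j
    by_cases hij : i = j <;> simp [hij]
  have key : ∀ (p : Ideal (OO ht)) [p.IsMaximal] (L : Type u) [CommRing L] [IsDomain L]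
      [Algebra (OO ht) L] [IsLocalization.AtPrime L p],
      Module.Finite L (NN (algebraMap (OO ht) L (μ h ^ M)) ((P'.map μ).map (algebraMap (OO ht) L))) ∧
      Module.Projective L
        (NN (algebraMap (OO ht) L (μ h ^ M)) ((P'.map μ).map (algebraMap (OO ht) L))) := by
    intro p _ L _ _ _ _
    have hL : Function.Injective (algebraMap (OO ht) L) :=
      IsLocalization.injective L p.primeCompl_le_nonZeroDivisors
    let ν : MvPolynomial (Fin (m + 1)) V →+* L := (algebraMap (OO ht) L).comp μ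
    have e1 : algebraMap (OO ht) L (μ h ^ M) = ν h ^ M := map_pow _ _ _
    have e2 : (P'.map μ).map (algebraMap (OO ht) L) = P'.map ν := rfl
    rw [e1, e2]
    by_cases hfp : μ f ∈ p
    · have hup : μ (e.symm (C u)) ∉ p := by
        intro hup
        let := Ideal.Quotient.field p
        let φ : B[X] →+* OO ht ⧸ p := (Ideal.Quotient.mk p).comp (algebraMap B[X] (OO ht))
        obtain ⟨o1, o2⟩ := oo_max hm p
        have hφ : ∀ x, φ x = 0 ↔ algebraMap B[X] (OO ht) x ∈ p := fun x =>
          Ideal.Quotient.eq_zero_iff_mem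
        have hX : φ X = 0 := hq3 (OO ht ⧸ p) φ (fun b hb => (hφ _).2 (o2 b hb))
          ((hφ _).2 (by rw [hlh, map_mul]; exact p.mul_mem_right _ o1)) ((hφ _).2 hup)
        have h1 : φ (lam π q f) = 0 := (hφ _).2 hfp
        rw [← X_mul_divX_add (lam π q f), map_add, map_mul, hX, zero_mul, zero_add,
          coeff_zero_eq_eval_zero, lam_eval] at h1
        exact ((hf.map C).map φ).ne_zero h1
      let ν' : (MvPolynomial (Fin m) V)[X] →+* L := ν.comp e.symm.toRingEquiv.toRingHom
      have hν' : ∀ a, ν' (e a) = ν a := fun a => congrArg ν (e.symm_apply_apply a)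
      have f1 : (algebraMap (OO ht) L).Flat :=
        RingHom.flat_algebraMap_iff.2 (IsLocalization.flat L p.primeCompl)
      have f2 : ν.Flat := hfl.comp f1
      have f3 : (e.symm.toRingEquiv.toRingHom).Flat := RingHom.Flat.of_bijective e.symm.bijective
      have hfl' : ν'.Flat := f3.comp f2
      have h2 := hpure L ν' hfl' (IsLocalization.map_units L (⟨_, hup⟩ : p.primeCompl))
      have e3 : ν' (e h ^ M) = ν h ^ M := by rw [map_pow, hν']
      have e4 : (P'.map e).map ν' = P'.map ν := by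
        ext i j
        exact hν' _
      rwa [e3, e4] at h2
    · have g1 : IsUnit (ν f) := IsLocalization.map_units L (⟨_, hfp⟩ : p.primeCompl)
      have g2 : ν h ^ M ≠ 0 := by
        rw [← e1]
        exact fun hh => hμh (hL (by rw [hh, map_zero]))
      have g3 := hmap ν
      exact unit_nn g1 g2 g3
  obtain ⟨W, hW⟩ := free_nn hμh (P'.map μ) fun p _ => key p (Localization.AtPrime p)
  obtain ⟨W', Z, Z', w1, w2, w3⟩ := ld_fact hμf hμh (hmap μ) hW
  refine ⟨ht, T, i1, i2, l0, e0, io, μ, W, W', Z, Z', hm, t1, t2, t3, t4, fun v => ?_, ?_,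
    flat_nzd hfl fun g => hG.nzd f g hf, w1, w2, w3⟩
  · rw [hμ, IsScalarTower.algebraMap_apply B B[X] (OO ht)]
    simp [lam]
  · have h1 : μ h = algebraMap B[X] (OO ht) ht * algebraMap B[X] (OO ht) (C (c : B)) := by
      rw [← map_mul, ← hlh, hμ]
    rw [h1]
    exact associated_mul_unit_right _ _ ((c.isUnit.map C).map _)

end Pool.Agent.GR
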