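import Pool.Agent.P.MP_c1f06d_ag.r.S8Defs
import Pool.Agent.P.MP_c1f06d_ag.r.Hom

/-! Lindel's lemma for local rings of standard etale algebras over `V[t]`. -/

open Polynomial IsLocalRing Pool.Agent.P.MP_c1f06d_ag

universe u

namespace Pool.Agent.GR

namespace Lindel

section lev

variable {V T T' : Type*} [CommRing V] [CommRing T] [CommRing T'] {d : ℕ}

/-- The ring map out of `V[t][X]` with given values. -/
noncomputable def lev (c : V →+* T) (x : Fin d → T) (y : T) :
    (MvPolynomial (Fin d) V)[X] →+* T :=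
  eval₂RingHom (MvPolynomial.eval₂Hom c x) y

@[simp] theorem lev_C (c : V →+* T) (x : Fin d → T) (y : T) (a : MvPolynomial (Fin d) V) :
    lev c x y (C a) = MvPolynomial.eval₂Hom c x a := by simp [lev]

@[simp] theorem lev_X (c : V →+* T) (x : Fin d → T) (y : T) : lev c x y X = y := by simp [lev]

theorem lev_ext {f g : (MvPolynomial (Fin d) V)[X] →+* T}
    (h1 : ∀ v, f (C (MvPolynomial.C v)) = g (C (MvPolynomial.C v)))
    (h2 : ∀ i, f (C (MvPolynomial.X i)) = g (C (MvPolynomial.X i))) (h3 : f X = g X) : f = g := by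
  refine Polynomial.ringHom_ext' ?_ h3
  exact MvPolynomial.ringHom_ext h1 h2

/-- The curve through the point `(tb, xb)` with direction `(p0, p)`. -/
noncomputable def crv (i0 : Fin d) (N : ℕ) (c : V →+* T) (tb : Fin d → T) (xb : T) (p0 : T)
    (p : Fin d → T) : (MvPolynomial (Fin d) V)[X] →+* T[X] :=
  lev (C.comp c) (fun i => C (tb i) + C (p i) * X)
    (C xb + C p0 * X - (C (tb i0) + C (p i0) * X) ^ N)

theorem crv_map (i0 : Fin d) (N : ℕ) (c : V →+* T) (tb : Fin d → T) (xb : T) (p0 : T)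
    (p : Fin d → T) (f : T →+* T') (F : (MvPolynomial (Fin d) V)[X]) :
    (crv i0 N c tb xb p0 p F).map f =
      crv i0 N (f.comp c) (fun i => f (tb i)) (f xb) (f p0) (fun i => f (p i)) F := by
  have : (mapRingHom f).comp (crv i0 N c tb xb p0 p) =
      crv i0 N (f.comp c) (fun i => f (tb i)) (f xb) (f p0) (fun i => f (p i)) := by
    refine lev_ext (fun v => ?_) (fun i => ?_) ?_ <;> simp [crv]
  exact RingHom.congr_fun this F

theorem crv_taylor (i0 : Fin d) (N : ℕ) (c : V →+* T) (tb : Fin d → T) (xb : T) (p0 : T)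
    (p : Fin d → T) (y : T) (F : (MvPolynomial (Fin d) V)[X]) :
    taylor y (crv i0 N c tb xb p0 p F) =
      crv i0 N c (fun i => tb i + p i * y) (xb + p0 * y) p0 p F := by
  have : (taylorAlgHom y : T[X] →+* T[X]).comp (crv i0 N c tb xb p0 p) =
      crv i0 N c (fun i => tb i + p i * y) (xb + p0 * y) p0 p := by
    refine lev_ext (fun v => ?_) (fun i => ?_) ?_
    · simp [crv]
    · simp only [crv, RingHom.comp_apply, lev_C, MvPolynomial.eval₂Hom_X', RingHom.coe_coe,
        map_add, map_mul, taylorAlgHom_apply, taylor_C, taylor_X]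
      ring
    · simp only [crv, RingHom.comp_apply, lev_X, RingHom.coe_coe, map_sub, map_add, map_mul,
        map_pow, taylorAlgHom_apply, taylor_C, taylor_X]
      ring
  exact RingHom.congr_fun this F

theorem crv_base (i0 : Fin d) (N : ℕ) (c : V →+* T) (tb : Fin d → T) (xb : T) (p0 : T)
    (p : Fin d → T) (F : (MvPolynomial (Fin d) V)[X]) :
    crv i0 N c tb xb p0 p F =
      crv i0 N (RingHom.id T) tb xb p0 p (F.map (MvPolynomial.map c)) := by
  have : crv i0 N c tb xb p0 p =
      (crv i0 N (RingHom.id T) tb xb p0 p).comp (mapRingHom (MvPolynomial.map c)) := by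
    refine lev_ext (fun v => ?_) (fun i => ?_) ?_ <;> simp [crv]
  exact RingHom.congr_fun this F

/-- In the direction of `X` the curve is a line. -/
theorem crv_dir (i0 : Fin d) (N : ℕ) (c : V →+* T) (tb : Fin d → T) (xb : T)
    (F : (MvPolynomial (Fin d) V)[X]) :
    crv i0 N c tb (xb + tb i0 ^ N) 1 (fun _ => 0) F =
      taylor xb (F.map (MvPolynomial.eval₂Hom c tb)) := by
  have : crv i0 N c tb (xb + tb i0 ^ N) 1 (fun _ => 0) =
      (taylorAlgHom xb : T[X] →+* T[X]).comp (mapRingHom (MvPolynomial.eval₂Hom c tb)) := by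
    refine lev_ext (fun v => ?_) (fun i => ?_) ?_
    · simp [crv]
    · simp [crv]
    · simp [crv]
      ring
  exact RingHom.congr_fun this F

theorem natDegree_line (c : V →+* T) (x : Fin d → T[X]) (hx : ∀ i, (x i).natDegree ≤ 1)
    (a : MvPolynomial (Fin d) V) :
    (MvPolynomial.eval₂Hom (C.comp c) x a).natDegree ≤ a.totalDegree := by
  rw [MvPolynomial.coe_eval₂Hom, MvPolynomial.eval₂_eq]
  refine natDegree_sum_le_of_forall_le _ _ fun m hm => ?_
  refine (natDegree_C_mul_le _ _).trans ((natDegree_prod_le _ _).trans ?_)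
  refine le_trans ?_ (MvPolynomial.le_totalDegree hm)
  refine Finset.sum_le_sum fun i _ => natDegree_pow_le.trans ?_
  simpa using Nat.mul_le_mul_left (m i) (hx i)

theorem monic_eval₂ [Nontrivial T'] (G : T[X]) (hG : G.Monic) (φ : T →+* T'[X]) (y : T'[X])
    (N : ℕ) (hN : ∀ j, (φ (G.coeff j)).natDegree < N) (w : T') (hy : (C w * y).Monic)
    (hyd : (C w * y).natDegree = N) (hyN : y.natDegree ≤ N) :
    (C (w ^ G.natDegree) * eval₂ φ y G).Monic := by
  rw [eval₂_eq_sum_range, Finset.sum_range_succ, hG.coeff_natDegree, map_one, one_mul, mul_add,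
    C_pow, ← mul_pow]
  refine (hy.pow _).add_of_right ?_
  rw [degree_eq_natDegree (hy.pow _).ne_zero, hy.natDegree_pow, hyd, Finset.mul_sum]
  refine (degree_sum_le _ _).trans_lt ?_
  rw [Finset.sup_lt_iff (WithBot.bot_lt_coe _)]
  intro j hj
  refine degree_le_natDegree.trans_lt ?_
  rw [Nat.cast_lt, ← C_pow]
  refine (natDegree_C_mul_le _ _).trans_lt (natDegree_mul_le.trans_lt ?_)
  have h1 := hN j
  have h2 : (y ^ j).natDegree ≤ j * N := natDegree_pow_le.trans (Nat.mul_le_mul_left _ hyN)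
  have h3 : (j + 1) * N ≤ G.natDegree * N :=
    Nat.mul_le_mul_right _ (Finset.mem_range.1 hj)
  rw [add_mul, one_mul] at h3
  omega

/-- The change of coordinates. -/
noncomputable def chg (i0 : Fin d) (N : ℕ) (p0 : V) (p : Fin d → V) :
    (MvPolynomial (Fin d) V)[X] →+* (MvPolynomial (Fin d) V)[X] :=
  crv i0 N MvPolynomial.C MvPolynomial.X 0 (MvPolynomial.C p0) fun i => MvPolynomial.C (p i)

/-- Its inverse. -/
noncomputable def chg' (i0 : Fin d) (N : ℕ) (q0 : V) (p : Fin d → V) :
    (MvPolynomial (Fin d) V)[X] →+* (MvPolynomial (Fin d) V)[X] :=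
  lev (C.comp MvPolynomial.C)
    (fun i => C (MvPolynomial.X i) - C (MvPolynomial.C (p i)) *
      (C (MvPolynomial.C q0) * (X + C (MvPolynomial.X i0) ^ N)))
    (C (MvPolynomial.C q0) * (X + C (MvPolynomial.X i0) ^ N))

theorem chg_chg' (i0 : Fin d) (N : ℕ) {p0 q0 : V} (h : p0 * q0 = 1) (p : Fin d → V)
    (F : (MvPolynomial (Fin d) V)[X]) : chg i0 N p0 p (chg' i0 N q0 p F) = F := by
  have h1 : (C (MvPolynomial.C p0) : (MvPolynomial (Fin d) V)[X]) * C (MvPolynomial.C q0) = 1 := by
    rw [← map_mul, ← map_mul, h, map_one, map_one]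
  have : (chg i0 N p0 p).comp (chg' i0 N q0 p) = RingHom.id _ := by
    refine lev_ext (fun v => ?_) (fun i => ?_) ?_
    · simp [chg, chg', crv]
    · simp only [chg, chg', crv, RingHom.comp_apply, lev_C, lev_X, map_sub, map_add, map_mul,
        map_pow, MvPolynomial.eval₂Hom_X', MvPolynomial.eval₂Hom_C, RingHom.id_apply, map_zero]
      linear_combination (-(C (MvPolynomial.C (p i)) * X)) * h1
    · simp only [chg, chg', crv, RingHom.comp_apply, lev_C, lev_X, map_add, map_mul,
        map_pow, MvPolynomial.eval₂Hom_X', MvPolynomial.eval₂Hom_C, RingHom.id_apply, map_zero]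
      linear_combination X * h1
  exact RingHom.congr_fun this F

theorem chg'_chg (i0 : Fin d) (N : ℕ) {p0 q0 : V} (h : p0 * q0 = 1) (p : Fin d → V)
    (F : (MvPolynomial (Fin d) V)[X]) : chg' i0 N q0 p (chg i0 N p0 p F) = F := by
  have h1 : (C (MvPolynomial.C p0) : (MvPolynomial (Fin d) V)[X]) * C (MvPolynomial.C q0) = 1 := by
    rw [← map_mul, ← map_mul, h, map_one, map_one]
  have : (chg' i0 N q0 p).comp (chg i0 N p0 p) = RingHom.id _ := by
    refine lev_ext (fun v => ?_) (fun i => ?_) ?_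
    · simp [chg, chg', crv]
    · simp [chg, chg', crv]
    · simp only [chg, chg', crv, RingHom.comp_apply, lev_C, lev_X, map_sub, map_add, map_mul,
        map_pow, MvPolynomial.eval₂Hom_X', MvPolynomial.eval₂Hom_C, RingHom.id_apply, map_zero,
        sub_add_cancel]
      linear_combination (X + C (MvPolynomial.X i0) ^ N) * h1
  exact RingHom.congr_fun this F

theorem chg_monic [Nontrivial V] (G : (MvPolynomial (Fin d) V)[X]) (hG : G.Monic) (i0 : Fin d)
    {N : ℕ} (hN2 : 2 ≤ N) (hN : ∀ j, (G.coeff j).totalDegree < N) (p0 : V) (p : Fin d → V)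
    {q : V} (hq : p i0 * q = 1) :
    (C (MvPolynomial.C (-q ^ N) ^ G.natDegree) * chg i0 N p0 p G).Monic := by
  have hl : ∀ a b : MvPolynomial (Fin d) V, (C a + C b * X).natDegree ≤ 1 := fun a b => by
    compute_degree
  have h1 : (C (MvPolynomial.C (p i0)) : (MvPolynomial (Fin d) V)[X]) *
      C (MvPolynomial.C q) = 1 := by
    rw [← map_mul, ← map_mul, hq, map_one, map_one]
  have e : (C (MvPolynomial.C (-q ^ N)) : (MvPolynomial (Fin d) V)[X]) *
      (C 0 + C (MvPolynomial.C p0) * X -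
        (C (MvPolynomial.X i0) + C (MvPolynomial.C (p i0)) * X) ^ N) =
      (X + C (MvPolynomial.C q * MvPolynomial.X i0)) ^ N +
        (C 0 + C (MvPolynomial.C (-q ^ N * p0)) * X) := by
    have e1 : (X + C (MvPolynomial.C q * MvPolynomial.X i0) : (MvPolynomial (Fin d) V)[X]) =
        C (MvPolynomial.C q) * (C (MvPolynomial.X i0) + C (MvPolynomial.C (p i0)) * X) := by
      rw [map_mul]
      linear_combination (-X) * h1
    rw [e1, mul_pow]
    simp only [map_neg, map_pow, map_mul, map_zero]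
    ring
  have hm : ((X + C (MvPolynomial.C q * MvPolynomial.X i0) : (MvPolynomial (Fin d) V)[X]) ^
      N).Monic := (monic_X_add_C _).pow N
  have hd : ((X + C (MvPolynomial.C q * MvPolynomial.X i0) : (MvPolynomial (Fin d) V)[X]) ^
      N).natDegree = N := by
    rw [(monic_X_add_C _).natDegree_pow, natDegree_X_add_C, mul_one]
  have hlt : (C 0 + C (MvPolynomial.C (-q ^ N * p0)) * X :
      (MvPolynomial (Fin d) V)[X]).natDegree < ((X + C (MvPolynomial.C q * MvPolynomial.X i0) :
        (MvPolynomial (Fin d) V)[X]) ^ N).natDegree := by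
    rw [hd]
    exact (hl _ _).trans_lt hN2
  refine monic_eval₂ G hG _ _ N (fun j => ?_) _ ?_ ?_ ?_
  · exact (natDegree_line _ _ (fun i => hl _ _) _).trans_lt (hN j)
  · rw [e]
    exact hm.add_of_left (degree_lt_degree hlt)
  · rw [e, natDegree_add_eq_left_of_natDegree_lt hlt, hd]
  · refine (natDegree_sub_le _ _).trans (max_le ((hl _ _).trans (by omega)) ?_)
    exact natDegree_pow_le.trans ((Nat.mul_le_mul_left N (hl _ _)).trans (by simp))

end lev

theorem locPres_chg {B O : Type*} [CommRing B] [CommRing O] {π : B →+* O} {G : B}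
    (h : LocPres π G) (θ θ' : B →+* B) (h1 : ∀ b, θ (θ' b) = b) (h2 : ∀ b, θ' (θ b) = b)
    (c : B) (hc : IsUnit c) : LocPres (π.comp θ') (c * θ G) := by
  refine ⟨by simp [h2, h.map_G], fun r => ?_, fun a ha => ?_⟩
  · obtain ⟨a, s, hs, e⟩ := h.surj r
    exact ⟨θ a, θ s, by simpa [h2] using hs, by simpa [h2] using e⟩
  · obtain ⟨s, hs, hd⟩ := h.ker _ ha
    refine ⟨θ s, by simpa [h2] using hs, hc.mul_left_dvd.2 ?_⟩
    simpa [h1] using _root_.map_dvd θ hd

/-- A good direction exists. -/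
theorem exists_dir (k : Type u) {κ : Type u} [Field k] [Infinite k] [Field κ] [Algebra k κ] {d : ℕ}
    (i0 : Fin d) (N : ℕ) (a : MvPolynomial (Fin d) κ) (ha : a ≠ 0)
    (G : (MvPolynomial (Fin d) κ)[X]) (hG : G.Monic) (tb : Fin d → κ) (xb : κ)
    (h0 : (G.map (MvPolynomial.eval₂Hom (RingHom.id κ) tb)).eval xb = 0)
    (h1 : (G.map (MvPolynomial.eval₂Hom (RingHom.id κ) tb)).derivative.eval xb ≠ 0) :
    ∃ (p0 : k) (p : Fin d → k), p0 ≠ 0 ∧ p i0 ≠ 0 ∧
      (crv i0 N (RingHom.id κ) tb (xb + tb i0 ^ N) (algebraMap k κ p0)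
        (fun i => algebraMap k κ (p i)) G).coeff 1 ≠ 0 ∧
      ∃ u v, u * crv i0 N (RingHom.id κ) tb (xb + tb i0 ^ N) (algebraMap k κ p0)
          (fun i => algebraMap k κ (p i)) G +
        v * crv i0 N (RingHom.id κ) tb (xb + tb i0 ^ N) (algebraMap k κ p0)
          (fun i => algebraMap k κ (p i)) (C a) ^ 2 = X := by
  obtain ⟨Ψ, m, hΨ, hm, hz⟩ := hom.{u} a ha G hG (ι := Option (Fin d)) (by simp)
    (fun o => o.elim (X + C (MvPolynomial.X i0) ^ N - C (MvPolynomial.C (xb + tb i0 ^ N)))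
      fun i => C (MvPolynomial.X i) - C (MvPolynomial.C (tb i)))
  let L : MvPolynomial (Option (Fin d)) κ :=
    (crv i0 N MvPolynomial.C (fun i => MvPolynomial.C (tb i)) (MvPolynomial.C (xb + tb i0 ^ N))
      (MvPolynomial.X none) (fun i => MvPolynomial.X (some i)) G).coeff 1
  have hL : ∀ q : Option (Fin d) → κ, MvPolynomial.eval q L =
      (crv i0 N (RingHom.id κ) tb (xb + tb i0 ^ N) (q none) (fun i => q (some i)) G).coeff 1 := by
    intro q
    rw [← coeff_map, crv_map]
    simp only [MvPolynomial.eval_C, MvPolynomial.eval_X]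
    congr 3
    ext v
    simp
  have hL0 : L ≠ 0 := by
    intro hL0
    have := hL fun o => o.elim 1 fun _ => 0
    rw [hL0, map_zero] at this
    simp only [Option.elim] at this
    rw [crv_dir, taylor_coeff_one] at this
    exact h1 this.symm
  obtain ⟨q, hq⟩ := exists_point_ne_zero k
    (L * Ψ * MvPolynomial.X none * MvPolynomial.X (some i0))
    (mul_ne_zero (mul_ne_zero (mul_ne_zero hL0 hΨ) (MvPolynomial.X_ne_zero _))
      (MvPolynomial.X_ne_zero _))
  simp only [map_mul, MvPolynomial.eval_X, mul_ne_zero_iff, hL, _root_.map_ne_zero] at hq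
  obtain ⟨⟨⟨hq1, hq2⟩, hq3⟩, hq4⟩ := hq
  refine ⟨q none, fun i => q (some i), hq3, hq4, hq1, ?_⟩
  set ℓ := crv i0 N (RingHom.id κ) tb (xb + tb i0 ^ N) (algebraMap k κ (q none))
    (fun i => algebraMap k κ (q (some i))) with hℓ
  have hc0 : (ℓ G).coeff 0 = 0 := by
    have : (evalRingHom 0).comp ℓ =
        (evalRingHom xb).comp (mapRingHom (MvPolynomial.eval₂Hom (RingHom.id κ) tb)) := by
      refine lev_ext (fun v => ?_) (fun i => ?_) ?_ <;> simp [hℓ, crv]
    rw [coeff_zero_eq_eval_zero]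
    exact (RingHom.congr_fun this G).trans h0
  obtain ⟨g1, hg1⟩ := X_dvd_iff.2 hc0
  have hcop : IsCoprime g1 (ℓ (C a)) := by
    rw [Polynomial.isCoprime_iff_aeval_ne_zero_of_isAlgClosed κ (AlgebraicClosure κ)]
    intro z
    by_contra hne
    push Not at hne
    obtain ⟨hz1, hz2⟩ := hne
    let φ : (MvPolynomial (Fin d) κ)[X] →ₐ[κ] AlgebraicClosure κ :=
      { ((aeval z : κ[X] →ₐ[κ] AlgebraicClosure κ) : κ[X] →+* AlgebraicClosure κ).comp ℓ with
        commutes' := fun c => by
          simp [hℓ, crv, Polynomial.algebraMap_apply] }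
    have hφ : ∀ F, φ F = aeval z (ℓ F) := fun F => rfl
    have h3 := hz (AlgebraicClosure κ) φ hz2 (by rw [hφ, hg1, map_mul, hz1, mul_zero])
    have h4 : (fun o : Option (Fin d) => φ (o.elim
        (X + C (MvPolynomial.X i0) ^ N - C (MvPolynomial.C (xb + tb i0 ^ N)))
        fun i => C (MvPolynomial.X i) - C (MvPolynomial.C (tb i)))) =
        fun o => z * algebraMap κ (AlgebraicClosure κ) (algebraMap k κ (q o)) := by
      funext o
      rcases o with _ | i
      · simp [hφ, hℓ, crv]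
        ring
      · simp [hφ, hℓ, crv]
        ring
    have h5 := MvPolynomial.aeval_algebraMap_apply (AlgebraicClosure κ)
      (fun o => algebraMap k κ (q o)) Ψ
    rw [h4, aeval_smul_of_homogeneous hm, mul_eq_zero] at h3
    rcases h3 with h3 | h3
    · rw [(pow_eq_zero_iff'.1 h3).1, ← coeff_zero_eq_aeval_zero', map_eq_zero] at hz1
      exact hq1 (by rw [hg1, coeff_X_mul, hz1])
    · exact hq2 ((map_eq_zero _).1 (h5.symm.trans h3))
  obtain ⟨u, v, huv⟩ := hcop.pow_right (n := 2)
  exact ⟨u, X * v, by rw [hg1]; linear_combination X * huv⟩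

/-- Nakayama step. -/
theorem nak {B κ : Type*} [CommRing B] [IsLocalRing B] [Field κ] (ρ : B →+* κ) [IsLocalHom ρ]
    (G a : B[X]) (hG : G.Monic) (y : κ) (u v : κ[X])
    (h : u * G.map ρ + v * a.map ρ = X - C y) (f : B[X]) :
    ∃ (b : B) (u' v' : B[X]), f - C b = u' * G + v' * a := by
  classical
  have hm : ∀ p : B[X], (p.map (residue B)).map (ResidueField.lift ρ) = p.map ρ := fun p => by
    rw [Polynomial.map_map, ResidueField.lift_comp_residue]
  set g0 := EuclideanDomain.gcd (G.map (residue B)) (a.map (residue B)) with hg0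
  have hd : g0.map (ResidueField.lift ρ) ∣ X - C y := by
    rw [hg0, ← Polynomial.gcd_map, hm, hm, ← h]
    exact dvd_add ((EuclideanDomain.gcd_dvd_left _ _).mul_left _)
      ((EuclideanDomain.gcd_dvd_right _ _).mul_left _)
  have hne : g0 ≠ 0 := by
    intro h0
    rw [h0, Polynomial.map_zero, zero_dvd_iff] at hd
    exact X_sub_C_ne_zero y hd
  have hdeg : g0.natDegree ≤ 1 := by
    have := natDegree_le_of_dvd hd (X_sub_C_ne_zero y)
    rwa [natDegree_map, natDegree_X_sub_C] at this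
  obtain ⟨y0, w0, hw0⟩ : ∃ y0, g0 ∣ X - C y0 := by
    have e := eq_X_add_C_of_natDegree_le_one hdeg
    by_cases h1 : g0.coeff 1 = 0
    · rw [h1, map_zero, zero_mul, zero_add] at e
      refine ⟨0, IsUnit.dvd ?_⟩
      rw [e]
      exact isUnit_C.2 (IsUnit.mk0 _ fun h0 => hne (by rw [e, h0, map_zero]))
    · refine ⟨-((g0.coeff 1)⁻¹ * g0.coeff 0), C (g0.coeff 1)⁻¹, ?_⟩
      have e1 : C (g0.coeff 1) * C (g0.coeff 1)⁻¹ = 1 := by
        rw [← map_mul, mul_inv_cancel₀ h1, map_one]
      rw [map_neg, map_mul]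
      linear_combination (-C (g0.coeff 1)⁻¹) * e - X * e1
  obtain ⟨y1, rfl⟩ := residue_surjective y0
  have hs := Polynomial.map_surjective (residue B) residue_surjective
  obtain ⟨u1, hu1⟩ := hs (w0 * EuclideanDomain.gcdA (G.map (residue B)) (a.map (residue B)))
  obtain ⟨v1, hv1⟩ := hs (w0 * EuclideanDomain.gcdB (G.map (residue B)) (a.map (residue B)))
  have hw : (X - C y1 - u1 * G - v1 * a).map (residue B) = 0 := by
    simp only [Polynomial.map_sub, Polynomial.map_mul, map_X, map_C, hu1, hv1, hw0]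
    rw [hg0, EuclideanDomain.gcd_eq_gcd_ab]
    ring
  have key : ∀ p : B[X], p.map (residue B) = 0 →
      AdjoinRoot.mk G p ∈ maximalIdeal B • (⊤ : Submodule B (AdjoinRoot G)) := by
    intro p hp
    rw [p.as_sum_support_C_mul_X_pow, map_sum]
    refine Submodule.sum_mem _ fun i _ => ?_
    rw [← smul_eq_C_mul, ← AdjoinRoot.smul_mk]
    refine Submodule.smul_mem_smul ?_ Submodule.mem_top
    rw [← residue_eq_zero_iff, ← coeff_map, hp, coeff_zero]
  let N : Submodule B (AdjoinRoot G) :=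
    { carrier := {x | ∃ (b : B) (v' : B[X]), x = AdjoinRoot.mk G (C b + v' * a)}
      zero_mem' := ⟨0, 0, by simp⟩
      add_mem' := by
        rintro _ _ ⟨b, v', rfl⟩ ⟨b2, v2, rfl⟩
        exact ⟨b + b2, v' + v2, by rw [← map_add, map_add C]; congr 1; ring⟩
      smul_mem' := by
        rintro c _ ⟨b, v', rfl⟩
        exact ⟨c * b, C c * v', by
          rw [AdjoinRoot.smul_mk, smul_eq_C_mul, map_mul C]; congr 1; ring⟩ }
  have hfin : Module.Finite B (AdjoinRoot G) := (AdjoinRoot.powerBasis' hG).finite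
  have hN : (⊤ : Submodule B (AdjoinRoot G)) ≤ N := by
    refine Submodule.le_of_le_smul_of_le_jacobson_bot (I := maximalIdeal B) Module.Finite.fg_top
      (maximalIdeal_le_jacobson _) fun x _ => ?_
    obtain ⟨p, rfl⟩ := AdjoinRoot.mk_surjective x
    obtain ⟨q, hq⟩ := X_sub_C_dvd_sub_C_eval (p := p) (a := y1)
    have e : AdjoinRoot.mk G p = AdjoinRoot.mk G (C (p.eval y1) + (v1 * q) * a) +
        AdjoinRoot.mk G ((X - C y1 - u1 * G - v1 * a) * q) := by
      rw [← map_add, AdjoinRoot.mk_eq_mk]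
      exact ⟨u1 * q, by linear_combination hq⟩
    rw [e]
    refine Submodule.add_mem_sup ⟨_, _, rfl⟩ (key _ ?_)
    rw [Polynomial.map_mul, hw, zero_mul]
  obtain ⟨b, v', hb⟩ := hN (Submodule.mem_top (x := AdjoinRoot.mk G f))
  obtain ⟨u', hu'⟩ := AdjoinRoot.mk_eq_mk.1 hb
  exact ⟨b, u', v', by linear_combination hu'⟩

theorem nak_eval {B R : Type*} [CommRing B] [IsLocalRing B] [CommRing R] [IsLocalRing R]
    (ψ : B →+* R) [IsLocalHom ψ] (G a : B[X]) (hG : G.Monic) (y : R) (y' : ResidueField R)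
    (u v : (ResidueField R)[X])
    (h : u * G.map ((residue R).comp ψ) + v * a.map ((residue R).comp ψ) = X - C y')
    (h0 : eval₂ ψ y G = 0) (f : B[X]) : ∃ b : B, eval₂ ψ y a ∣ eval₂ ψ y f - ψ b := by
  obtain ⟨b, u', v', e⟩ := nak ((residue R).comp ψ) G a hG _ u v h f
  have e2 := congrArg (eval₂ ψ y) e
  rw [eval₂_sub, eval₂_add, eval₂_mul, eval₂_mul, h0, mul_zero, zero_add, eval₂_C] at e2
  exact ⟨b, e2 ▸ dvd_mul_left _ _⟩

/-- Divisibility descends along a presentation. -/
theorem pure {A R : Type*} [CommRing A] [CommRing R] [IsLocalRing R] {π : A[X] →+* R} {G : A[X]}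
    (h : LocPres π G) (hG : G.Monic) {b x : A} (hd : π (C b) ∣ π (C x)) :
    ∃ s f : A, IsUnit (π (C s)) ∧ x * s = b * f := by
  obtain ⟨r, hr⟩ := hd
  obtain ⟨f, s, hs, e⟩ := h.surj r
  obtain ⟨s', hs', hk⟩ := h.ker (C x * s - C b * f) (by
    rw [map_sub, map_mul, map_mul, hr, ← e]; ring)
  have h1 : (x • (s' * s) - b • (s' * f)) %ₘ G = 0 := by
    rw [modByMonic_eq_zero_iff_dvd hG, smul_eq_C_mul, smul_eq_C_mul]
    exact hk.trans (dvd_of_eq (by ring))
  rw [sub_modByMonic, smul_modByMonic, smul_modByMonic, sub_eq_zero] at h1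
  have h2 : IsUnit (π ((s' * s) %ₘ G)) := by
    have := congrArg π (modByMonic_add_div (s' * s) G)
    rw [map_add, map_mul, h.map_G, zero_mul, add_zero] at this
    rw [this, map_mul]
    exact hs'.mul hs
  obtain ⟨j, hj⟩ : ∃ j, IsUnit (π (C (((s' * s) %ₘ G).coeff j))) := by
    by_contra hne
    push Not at hne
    refine (mem_maximalIdeal _).1 ?_ h2
    rw [((s' * s) %ₘ G).as_sum_support_C_mul_X_pow, map_sum]
    refine Ideal.sum_mem _ fun i _ => ?_
    rw [map_mul]
    exact Ideal.mul_mem_right _ _ ((mem_maximalIdeal _).2 (hne i))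
  refine ⟨_, ((s' * f) %ₘ G).coeff j, hj, ?_⟩
  simpa using congrArg (fun p => p.coeff j) h1

theorem res_eval {A R : Type*} [CommRing A] [CommRing R] [IsLocalRing R] (π : A[X] →+* R)
    (F : A[X]) :
    residue R (π F) = (F.map ((residue R).comp (π.comp C))).eval (residue R (π X)) := by
  have : (residue R).comp π = (evalRingHom (residue R (π X))).comp
      (mapRingHom ((residue R).comp (π.comp C))) := by
    refine Polynomial.ringHom_ext (fun a => ?_) ?_ <;> simp
  exact RingHom.congr_fun this F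

/-- A new presentation in which the point is alone in its fibre on the hypersurface. -/
theorem exists_pres (k : Type u) [Field k] [Infinite k] {V R : Type u} [CommRing V]
    [IsLocalRing V] [Algebra k V] [CommRing R] [IsLocalRing R] {d : ℕ}
    {π : (MvPolynomial (Fin d) V)[X] →+* R} {G : (MvPolynomial (Fin d) V)[X]} (h : Pres π G)
    (a : MvPolynomial (Fin d) V) (ha : Prim a) (hu : ¬ IsUnit (π (C a))) :
    ∃ (π' : (MvPolynomial (Fin d) V)[X] →+* R) (G' a' : (MvPolynomial (Fin d) V)[X]),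
      Pres π' G' ∧ (∀ v, π' (C (MvPolynomial.C v)) = π (C (MvPolynomial.C v))) ∧
      π' a' = π (C a) ∧ ∃ u v, u * G'.map ((residue R).comp (π'.comp C)) +
        v * (a' ^ 2).map ((residue R).comp (π'.comp C)) = X - C (residue R (π' X)) := by
  classical
  let c : V →+* ResidueField R := (residue R).comp ((π.comp C).comp MvPolynomial.C)
  have hc : ∀ v, c v = residue R (π (C (MvPolynomial.C v))) := fun v => rfl
  have ha' : MvPolynomial.map c a ≠ 0 := by
    intro h0
    refine ha (MvPolynomial.ext _ _ fun m => ?_)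
    have h1 := congrArg (MvPolynomial.coeff m) h0
    rw [MvPolynomial.coeff_map, MvPolynomial.coeff_zero, hc, residue_eq_zero_iff] at h1
    rw [MvPolynomial.coeff_map, MvPolynomial.coeff_zero, residue_eq_zero_iff]
    exact fun hv => h1 (((hv.map MvPolynomial.C).map C).map π)
  obtain ⟨i0⟩ : Nonempty (Fin d) := by
    by_contra hne
    have : IsEmpty (Fin d) := not_nonempty_iff.1 hne
    rw [a.eq_C_of_isEmpty, MvPolynomial.map_C] at ha'
    rw [a.eq_C_of_isEmpty] at hu
    exact ha' (by rw [hc, (residue_eq_zero_iff _).2 ((mem_maximalIdeal _).2 hu), map_zero])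
  let _ : Algebra k (ResidueField R) := (c.comp (algebraMap k V)).toAlgebra
  have hk : ∀ x : k, algebraMap k (ResidueField R) x = c (algebraMap k V x) := fun x => rfl
  let tb : Fin d → ResidueField R := fun i => residue R (π (C (MvPolynomial.X i)))
  let xb : ResidueField R := residue R (π X)
  have hev : ∀ F : (MvPolynomial (Fin d) V)[X], (F.map (MvPolynomial.map c)).map
      (MvPolynomial.eval₂Hom (RingHom.id _) tb) = F.map ((residue R).comp (π.comp C)) := by
    intro F
    rw [Polynomial.map_map]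
    congr 1
    refine MvPolynomial.ringHom_ext (fun v => ?_) fun i => ?_ <;> simp [hc, tb]
  obtain ⟨N, hN2, hN⟩ : ∃ N, 2 ≤ N ∧ ∀ j, (G.coeff j).totalDegree < N := by
    refine ⟨G.support.sup (fun j => (G.coeff j).totalDegree) + 2, by omega, fun j => ?_⟩
    by_cases hj : j ∈ G.support
    · have := Finset.le_sup (f := fun j => (G.coeff j).totalDegree) hj
      omega
    · rw [notMem_support_iff.1 hj]
      simp
  obtain ⟨p0, p, hp0, hp, h1, u, v, huv⟩ := exists_dir k i0 N _ ha' (G.map (MvPolynomial.map c))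
    (h.monic.map _) tb xb
    (by rw [hev, ← res_eval, h.lp.map_G, map_zero])
    (by rw [hev, derivative_map, ← res_eval, residue_ne_zero_iff_isUnit]; exact h.deriv)
  have e0 : algebraMap k V p0 * algebraMap k V p0⁻¹ = 1 := by
    rw [← map_mul, mul_inv_cancel₀ hp0, map_one]
  have e1 : algebraMap k V (p i0) * algebraMap k V (p i0)⁻¹ = 1 := by
    rw [← map_mul, mul_inv_cancel₀ hp, map_one]
  set θ := chg i0 N (algebraMap k V p0) fun i => algebraMap k V (p i) with hθ
  set π' := π.comp (chg' i0 N (algebraMap k V p0⁻¹) fun i => algebraMap k V (p i)) with hπ'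
  set w : MvPolynomial (Fin d) V :=
    MvPolynomial.C (-(algebraMap k V (p i0)⁻¹) ^ N) ^ G.natDegree with hw
  have hwu : IsUnit w :=
    ((((IsUnit.of_mul_eq_one_right _ e1).pow N).neg).map MvPolynomial.C).pow _
  have hC : ∀ v, π' (C (MvPolynomial.C v)) = π (C (MvPolynomial.C v)) := fun v => by
    simp [hπ', chg']
  have htay : ∀ F, taylor (residue R (π' X)) ((θ F).map ((residue R).comp (π'.comp C))) =
      crv i0 N (RingHom.id _) tb (xb + tb i0 ^ N) (algebraMap k _ p0)
        (fun i => algebraMap k _ (p i)) (F.map (MvPolynomial.map c)) := by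
    intro F
    rw [hθ, chg, crv_map, crv_taylor, ← crv_base]
    have e2 : c (algebraMap k V p0) * c (algebraMap k V p0⁻¹) = 1 := by
      rw [← map_mul, e0, map_one]
    congr 2
    · ext v
      simp [hC, hc]
    · funext i
      simp [hπ', chg', tb]
    · simp only [RingHom.comp_apply, map_zero, hC, ← hc, zero_add]
      simp only [hπ', chg', RingHom.comp_apply, lev_X, map_mul, map_add, map_pow, ← hc]
      rw [← mul_assoc, e2, one_mul]
    · simp only [RingHom.comp_apply, hC, ← hc, hk]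
    · funext i
      simp only [RingHom.comp_apply, hC, ← hc, hk]
  refine ⟨π', C w * θ G, θ (C a), ⟨?_, ?_, ?_, fun v hv => h.loc v (hC v ▸ hv)⟩, hC, ?_, ?_⟩
  · exact locPres_chg h.lp θ _ (chg_chg' i0 N e0 _) (chg'_chg i0 N e0 _) _ (hwu.map C)
  · exact chg_monic G h.monic i0 hN2 hN _ _ e1
  · rw [derivative_C_mul, map_mul]
    refine ((hwu.map C).map π').mul ?_
    rw [← residue_ne_zero_iff_isUnit, res_eval, ← derivative_map, ← taylor_coeff_one, htay]
    exact h1
  · rw [hπ', RingHom.comp_apply, hθ, chg'_chg i0 N e0]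
  · obtain ⟨w', hw'⟩ := (hwu.map ((residue R).comp (π'.comp C))).exists_left_inv
    rw [← htay, ← map_C (MvPolynomial.map c), ← htay] at huv
    have h2 := congrArg (taylorAlgHom (-residue R (π' X))) huv
    simp only [map_add, map_mul, map_pow, taylorAlgHom_apply, taylor_taylor, neg_add_cancel,
      taylor_zero, taylor_X] at h2
    refine ⟨taylor (-residue R (π' X)) u * C w', taylor (-residue R (π' X)) v, ?_⟩
    have h3 : C w' * C (((residue R).comp (π'.comp C)) w) = 1 := by
      rw [← map_mul, hw', map_one]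
    rw [Polynomial.map_mul, map_C, Polynomial.map_pow, sub_eq_add_neg, ← map_neg C, ← h2]
    linear_combination
      (taylor (-residue R (π' X)) u * (θ G).map ((residue R).comp (π'.comp C))) * h3

end Lindel

open Lindel

variable {V R : Type u} [CommRing V] [IsDomain V] [ValuationRing V] [CommRing R] [IsLocalRing R]
  {d : ℕ} {π : (MvPolynomial (Fin d) V)[X] →+* R} {G : (MvPolynomial (Fin d) V)[X]}

theorem lindel (k : Type u) [Field k] [Infinite k] [Algebra k V] (h : Pres π G)
    (a : MvPolynomial (Fin d) V) (ha : Prim a) (hu : ¬ IsUnit (π (C a))) :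
    ∃ (B : Type u) (_ : CommRing B) (_ : IsDomain B) (_ : IsLocalRing B)
      (π' : MvPolynomial (Fin d) V →+* B) (ψ : B →+* R) (h0 : MvPolynomial (Fin d) V),
      PolyP π' ∧ (∀ v, ψ (π' (MvPolynomial.C v)) = π (C (MvPolynomial.C v))) ∧ Prim h0 ∧
      Associated (ψ (π' h0)) (π (C a)) ∧ (∀ b c, ψ b ∣ ψ c → b ∣ c) ∧
      ∀ r, ∃ b, ψ (π' h0) ∣ r - ψ b := by
  obtain ⟨π', G', a', hP, hC, ha', u, v, huv⟩ := exists_pres k h a ha hu
  set ρ := (residue R).comp (π'.comp C) with hρ
  let x : Ideal (MvPolynomial (Fin d) V) := RingHom.ker ρ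
  have hx : x.IsPrime := RingHom.ker_isPrime _
  have hxu : ∀ s, s ∈ x.primeCompl ↔ IsUnit (π' (C s)) := fun s =>
    residue_ne_zero_iff_isUnit (π' (C s))
  let B := Localization.AtPrime x
  have hun : ∀ s : x.primeCompl, IsUnit ((π'.comp C) s) := fun s => (hxu s).1 s.2
  let ψ : B →+* R := IsLocalization.lift hun
  have hψ : ∀ s, ψ (algebraMap _ B s) = π' (C s) := fun s => IsLocalization.lift_eq hun s
  have hBu : ∀ s, IsUnit (π' (C s)) → IsUnit (algebraMap _ B s) := fun s hs =>
    IsLocalization.map_units B (⟨s, (hxu s).2 hs⟩ : x.primeCompl)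
  have hsurj : ∀ b : B, ∃ f s : MvPolynomial (Fin d) V, IsUnit (π' (C s)) ∧
      b * algebraMap _ B s = algebraMap _ B f := by
    intro b
    obtain ⟨⟨f, s⟩, e⟩ := IsLocalization.surj x.primeCompl b
    exact ⟨f, s, hun s, e⟩
  have hassoc : ∀ b : B, ∃ f : MvPolynomial (Fin d) V, Associated b (algebraMap _ B f) := by
    intro b
    obtain ⟨f, s, hs, e⟩ := hsurj b
    exact ⟨f, e ▸ associated_mul_unit_right _ _ (hBu s hs)⟩
  have hloc : IsLocalHom ψ := ⟨fun b hb => by
    obtain ⟨f, hf⟩ := hassoc b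
    refine hf.isUnit_iff.2 (hBu f ?_)
    rw [← hψ]
    exact (hf.map ψ).isUnit_iff.1 hb⟩
  have hpure : ∀ b c : B, ψ b ∣ ψ c → b ∣ c := by
    intro b c hbc
    obtain ⟨f, hf⟩ := hassoc b
    obtain ⟨g, hg⟩ := hassoc c
    obtain ⟨s, t, hs, e⟩ := pure hP.lp hP.monic (b := f) (x := g) (by
      rw [← hψ, ← hψ]
      exact (hf.map ψ).symm.dvd.trans (hbc.trans (hg.map ψ).dvd))
    refine hf.dvd.trans (Dvd.dvd.trans ?_ hg.symm.dvd)
    rw [← (hBu s hs).dvd_mul_right, ← map_mul, e, map_mul]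
    exact dvd_mul_right _ _
  have hev : ∀ F : (MvPolynomial (Fin d) V)[X],
      eval₂ ψ (π' X) (F.map (algebraMap _ B)) = π' F := by
    intro F
    have : (eval₂RingHom ψ (π' X)).comp (mapRingHom (algebraMap _ B)) = π' := by
      refine Polynomial.ringHom_ext (fun a => ?_) ?_ <;> simp [hψ]
    exact RingHom.congr_fun this F
  have hρ' : ((residue R).comp ψ).comp (algebraMap _ B) = ρ := by
    exact RingHom.ext fun s => by simp [hρ, hψ]
  have hpol : ∀ F, ∃ b : B, π (C a) ^ 2 ∣ π' F - ψ b := by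
    intro F
    obtain ⟨b, e⟩ := nak_eval ψ (G'.map (algebraMap _ B))
      ((a' ^ 2).map (algebraMap _ B)) (hP.monic.map _) (π' X) _ u v
      (by rw [Polynomial.map_map, Polynomial.map_map, hρ', huv]) (by rw [hev, hP.lp.map_G])
      (F.map (algebraMap _ B))
    rw [hev, hev, map_pow, ha'] at e
    exact ⟨b, e⟩
  have hm : π (C a) ∈ maximalIdeal R := (mem_maximalIdeal _).2 hu
  have hall : ∀ r, ∃ b : B, π (C a) ^ 2 ∣ r - ψ b := by
    intro r
    obtain ⟨f, s, hs, e⟩ := hP.lp.surj r
    obtain ⟨b1, c1, h1⟩ := hpol f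
    obtain ⟨b2, c2, h2⟩ := hpol s
    have hb2 : IsUnit b2 := by
      refine isUnit_of_map_unit ψ _ ?_
      by_contra hn
      refine (mem_maximalIdeal _).1 ?_ hs
      rw [sub_eq_iff_eq_add.1 h2, pow_two, mul_assoc]
      exact add_mem (Ideal.mul_mem_right _ _ hm) ((mem_maximalIdeal _).2 hn)
    obtain ⟨b3, hb3⟩ := hb2.exists_right_inv
    have h3 : ψ b2 * ψ b3 = 1 := by rw [← map_mul, hb3, map_one]
    refine ⟨b1 * b3, (c1 - r * c2) * ψ b3, ?_⟩
    rw [map_mul]
    linear_combination (-r) * h3 + ψ b3 * h1 - r * ψ b3 * h2 + ψ b3 * e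
  obtain ⟨b0, c0, hb0⟩ := hall (π (C a))
  obtain ⟨h0, hh0⟩ := hassoc b0
  have has : Associated (ψ (algebraMap _ B h0)) (π (C a)) := by
    refine (hh0.map ψ).symm.trans ?_
    have e : ψ b0 = π (C a) * (1 - π (C a) * c0) := by linear_combination -hb0
    rw [e]
    exact (associated_mul_unit_right _ _
      (isUnit_one_sub_self_of_mem_nonunits _ (Ideal.mul_mem_right _ _ hm))).symm
  refine ⟨B, inferInstance, inferInstance, inferInstance, algebraMap _ B, ψ, h0,
    ⟨IsLocalization.injective _ x.primeCompl_le_nonZeroDivisors, fun r => ?_, fun v hv => ?_⟩,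
    fun v => by rw [hψ, hC], fun hz => ?_, has, hpure, fun r => ?_⟩
  · obtain ⟨f, s, hs, e⟩ := hsurj r
    exact ⟨f, s, hBu s hs, e⟩
  · refine hP.loc v ?_
    rw [← hψ]
    exact hv.map ψ
  · obtain ⟨w, hw, hd⟩ : ∃ w : V, residue V w = 0 ∧ MvPolynomial.C w ∣ h0 := by
      by_cases h00 : h0 = 0
      · exact ⟨0, map_zero _, by rw [h00]; exact dvd_zero _⟩
      · obtain ⟨w, a0, e, h1⟩ := valo_prim h0 h00
        refine ⟨w, ?_, e ▸ dvd_mul_right _ _⟩
        rw [e, map_mul, MvPolynomial.map_C] at hz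
        simpa using (mul_eq_zero.1 hz).resolve_right h1
    obtain ⟨s, t, hs, e⟩ := pure h.lp h.monic (b := MvPolynomial.C w) (x := a) (by
      rw [← hC, ← hψ]
      exact (_root_.map_dvd ψ (_root_.map_dvd _ hd)).trans has.dvd)
    have e2 := congrArg (MvPolynomial.map (residue V)) e
    rw [map_mul, map_mul, MvPolynomial.map_C, hw, map_zero, zero_mul] at e2
    have e3 := (mul_eq_zero.1 e2).resolve_left ha
    refine (mem_maximalIdeal _).1 ?_ hs
    rw [s.as_sum, map_sum, map_sum]
    refine Ideal.sum_mem _ fun m _ => ?_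
    rw [← mul_one (s.coeff m), ← MvPolynomial.C_mul_monomial, map_mul, map_mul]
    refine Ideal.mul_mem_right _ _ ((mem_maximalIdeal _).2 fun hv => ?_)
    have e4 := congrArg (MvPolynomial.coeff m) e3
    rw [MvPolynomial.coeff_map, MvPolynomial.coeff_zero, residue_eq_zero_iff] at e4
    exact e4 (h.loc _ hv)
  · obtain ⟨b, hb⟩ := hall r
    exact ⟨b, has.dvd.trans ((dvd_pow_self _ two_ne_zero).trans hb)⟩

end Pool.Agent.GR
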