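import Pool.Agent.P.MP_c1f06d_ag.r.S8Defs
import Pool.Agent.P.MP_c1f06d_ag.r.Defs

open Matrix Polynomial IsLocalRing

universe u

namespace Pool.Agent.GR

theorem approx_pow {B R : Type u} [CommRing B] [CommRing R] (ψ : B →+* R) (h : B)
    (hs : ∀ r, ∃ b, ψ h ∣ r - ψ b) (j : ℕ) (r : R) : ∃ b, ψ h ^ j ∣ r - ψ b := by
  induction j with
  | zero => exact ⟨0, by simp⟩
  | succ j ih =>
    obtain ⟨b, c, hc⟩ := ih
    obtain ⟨b', c', hc'⟩ := hs c
    refine ⟨b + h ^ j * b', c', ?_⟩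
    rw [map_add, map_mul, map_pow]
    linear_combination hc + ψ h ^ j * hc'

theorem isUnit_one_add_smul {R : Type u} [CommRing R] [IsLocalRing R] {n : ℕ} {t : R}
    (ht : ¬ IsUnit t) (E : Mat n R) : IsUnit (1 + t • E) := by
  rw [Matrix.isUnit_iff_isUnit_det, ← residue_ne_zero_iff_isUnit, RingHom.map_det]
  have h0 : residue R t = 0 := (residue_eq_zero_iff t).2 ht
  have : (residue R).mapMatrix (1 + t • E) = 1 := by
    rw [map_add, map_one]
    ext i j
    simp [h0]
  rw [this, det_one]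
  exact one_ne_zero

theorem patch {B R : Type u} [CommRing B] [CommRing R] [IsDomain R] [IsLocalRing R] (ψ : B →+* R)
    (h : B) (hu : ¬ IsUnit (ψ h)) (h0 : ψ h ≠ 0) (hp : ∀ b c, ψ b ∣ ψ c → b ∣ c)
    (hs : ∀ r, ∃ b, ψ h ∣ r - ψ b) {n : ℕ} (M : ℕ) (S S' : Mat n R)
    (hS : S * S' = ψ h ^ M • (1 : Mat n R)) :
    ∃ (P P' : Mat n B) (κ : GL (Fin n) R), P * P' = h ^ M • (1 : Mat n B) ∧
      P.map ψ = S * (κ : Mat n R) := by
  have hinj : Function.Injective ψ := by
    rw [injective_iff_map_eq_zero]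
    intro c hc
    exact zero_dvd_iff.1 (hp 0 c (by rw [hc, map_zero]))
  choose b e he using fun i j => approx_pow ψ h hs (M + 1) (S i j)
  let P : Mat n B := Matrix.of b
  let E : Mat n R := Matrix.of fun i j => -e i j
  obtain ⟨κ, hκ⟩ := isUnit_one_add_smul hu (S' * E)
  have hP : P.map ψ = S * (κ : Mat n R) := by
    rw [hκ, Matrix.mul_add, Matrix.mul_one, Matrix.mul_smul, ← Matrix.mul_assoc, hS,
      Matrix.smul_mul, Matrix.one_mul]
    ext i j
    simp only [P, E, map_apply, of_apply, Matrix.add_apply, Matrix.smul_apply, smul_eq_mul]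
    linear_combination -he i j
  let Q : Mat n R := ((κ⁻¹ : (Mat n R)ˣ) : Mat n R) * S'
  have hQ : P.map ψ * Q = ψ h ^ M • (1 : Mat n R) := by
    rw [hP, Matrix.mul_assoc, ← Matrix.mul_assoc (κ : Mat n R), Units.mul_inv, Matrix.one_mul, hS]
  have hdet : (P.map ψ).det = ψ P.det := (RingHom.map_det ψ P).symm
  have hd : ψ P.det ≠ 0 := fun h1 => by
    have := congrArg det hQ
    rw [det_mul, hdet, h1, zero_mul, det_smul, det_one, mul_one] at this
    exact pow_ne_zero _ (pow_ne_zero _ h0) this.symm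
  have hadj : ψ P.det • Q = ψ h ^ M • P.adjugate.map ψ := by
    have e1 : P.adjugate.map ψ = (P.map ψ).adjugate := RingHom.map_adjugate ψ P
    calc ψ P.det • Q = (P.map ψ).adjugate * P.map ψ * Q := by
          rw [adjugate_mul, hdet, Matrix.smul_mul, Matrix.one_mul]
      _ = ψ h ^ M • P.adjugate.map ψ := by
          rw [Matrix.mul_assoc, hQ, Matrix.mul_smul, Matrix.mul_one, e1]
  have hdv : ∀ i j, P.det ∣ h ^ M * P.adjugate i j := fun i j => hp _ _ ⟨Q i j, by
    have : (ψ P.det • Q) i j = (ψ h ^ M • P.adjugate.map ψ) i j := by rw [hadj]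
    simp only [Matrix.smul_apply, smul_eq_mul, map_apply] at this
    rw [map_mul, map_pow, ← this]⟩
  choose p' hp' using hdv
  have hP' : (Matrix.of p').map ψ = Q := by
    ext i j
    have : (ψ P.det • Q) i j = (ψ h ^ M • P.adjugate.map ψ) i j := by rw [hadj]
    simp only [Matrix.smul_apply, smul_eq_mul, map_apply] at this
    refine mul_left_cancel₀ hd ?_
    rw [this, map_apply, of_apply, ← map_mul, ← hp', map_mul, map_pow]
  refine ⟨P, Matrix.of p', κ, ?_, hP⟩
  ext i j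
  apply hinj
  have := congrFun (congrFun hQ i) j
  rw [← hP', ← Matrix.map_mul, map_apply] at this
  rw [this]
  by_cases hij : i = j <;> simp [hij]

theorem exists_monic_prime {D : Type u} [CommRing D] [IsDomain D] [IsIntegrallyClosed D]
    {H : D[X]} (hH : H.Monic) (h1 : H ≠ 1) : ∃ p : D[X], p.Monic ∧ p.natDegree ≠ 0 ∧ p ∣ H ∧
      ∀ f g, p ∣ f * g → p ∣ f ∨ p ∣ g := by
  let K := FractionRing D
  have hinj : Function.Injective (algebraMap D K) := IsFractionRing.injective D K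
  have hnu : ¬ IsUnit (H.map (algebraMap D K)) := fun hu =>
    h1 (map_injective _ hinj (by rw [(hH.map _).isUnit_iff.1 hu, Polynomial.map_one]))
  obtain ⟨q, hqm, hqi, hqd⟩ := exists_monic_irreducible_factor _ hnu
  obtain ⟨p, hp⟩ := IsIntegrallyClosed.eq_map_mul_C_of_dvd K hH hqd
  rw [hqm.leadingCoeff, C_1, mul_one] at hp
  subst hp
  have hpm : p.Monic := monic_of_injective hinj hqm
  refine ⟨p, hpm, ?_, (map_dvd_map _ hinj hpm).1 hqd, fun f g hfg => ?_⟩
  · rw [← natDegree_map_eq_of_injective hinj]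
    exact hqi.natDegree_pos.ne'
  · have h2 := (map_dvd_map _ hinj hpm).2 hfg
    rw [Polynomial.map_mul] at h2
    exact (hqi.prime.dvd_or_dvd h2).imp (map_dvd_map _ hinj hpm).1 (map_dvd_map _ hinj hpm).1

theorem fact_monic {D B : Type u} [CommRing D] [IsDomain D] [IsIntegrallyClosed D] [CommRing B]
    [IsLocalRing B] (ρ : D[X] →+* B) (H : D[X]) (hH : H.Monic) :
    ∃ H2 H3 : D[X], H2.Monic ∧ H3.Monic ∧ H = H2 * H3 ∧ IsUnit (ρ H3) ∧
      ∀ f g, IsUnit (ρ f) → H2 ∣ f * g → H2 ∣ g := by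
  induction hN : H.natDegree using Nat.strong_induction_on generalizing H with
  | _ N ih =>
    by_cases h1 : H = 1
    · exact ⟨1, 1, monic_one, monic_one, by simp [h1], by simp, fun _ _ _ _ => one_dvd _⟩
    obtain ⟨p, hpm, hp0, ⟨H', rfl⟩, hpr⟩ := exists_monic_prime hH h1
    have hH' : H'.Monic := hpm.of_mul_monic_left hH
    obtain ⟨H2, H3, h2, h3, rfl, hu, hd⟩ := ih H'.natDegree
      (by rw [← hN, hpm.natDegree_mul hH']; omega) H' hH' rfl
    by_cases hup : IsUnit (ρ p)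
    · exact ⟨H2, p * H3, h2, hpm.mul h3, by ring, by rw [map_mul]; exact hup.mul hu, hd⟩
    · refine ⟨p * H2, H3, hpm.mul h2, h3, by ring, hu, fun f g hf hfg => ?_⟩
      rcases hpr f g ((dvd_mul_right p H2).trans hfg) with h4 | ⟨g', rfl⟩
      · exact absurd (isUnit_of_dvd_unit (map_dvd ρ h4) hf) hup
      · rw [mul_left_comm, mul_dvd_mul_iff_left hpm.ne_zero] at hfg
        exact mul_dvd_mul_left p (hd f g' hf hfg)

end Pool.Agent.GR
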