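import Pool.Agent.P.MP_c1f06d_ag.r.Line
import Pool.Agent.P.MP_c1f06d_ag.r.Patch

open Matrix Polynomial IsLocalRing Pool.Agent.P.MP_c1f06d_ag

universe u

namespace Pool.Agent.GR

namespace Pos

open MvPolynomial (homogeneousComponent)

section gen

variable {V B : Type u} [CommRing V] [CommRing B] {σ : Type}

theorem sum_hc {p : MvPolynomial σ V} {N : ℕ} (hN : p.totalDegree ≤ N) :
    ∑ j ∈ Finset.range (N + 1), homogeneousComponent j p = p := by
  conv_rhs => rw [← MvPolynomial.sum_homogeneousComponent p]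
  refine (Finset.sum_subset (Finset.range_mono (by omega)) fun j _ hj => ?_).symm
  exact MvPolynomial.homogeneousComponent_eq_zero _ _ (by simpa using hj)

theorem hc_mul {f g : MvPolynomial σ V} {a b : ℕ} (ha : f.totalDegree ≤ a)
    (hb : g.totalDegree ≤ b) :
    homogeneousComponent (a + b) (f * g) = homogeneousComponent a f * homogeneousComponent b g := by
  have h1 := top_line f (fun _ => (0 : MvPolynomial σ V)) MvPolynomial.X ha
  have h2 := top_line g (fun _ => (0 : MvPolynomial σ V)) MvPolynomial.X hb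
  have h3 := top_line (f * g) (fun _ => (0 : MvPolynomial σ V)) MvPolynomial.X
    ((MvPolynomial.totalDegree_mul f g).trans (add_le_add ha hb))
  rw [MvPolynomial.aeval_X_left_apply] at h1 h2 h3
  rw [← h3.2, map_mul, Polynomial.coeff_mul_add_eq_of_natDegree_le h1.1 h2.1, h1.2, h2.2]

theorem td_pow {g : MvPolynomial σ V} (hg : g.totalDegree ≤ 1) (n : ℕ) :
    (g ^ n).totalDegree ≤ n :=
  (MvPolynomial.totalDegree_pow g n).trans (by simpa using Nat.mul_le_mul_left n hg)

theorem hc_pow {g : MvPolynomial σ V} (hg : g.totalDegree ≤ 1) (n : ℕ) :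
    homogeneousComponent n (g ^ n) = homogeneousComponent 1 g ^ n := by
  induction n with
  | zero =>
    rw [pow_zero, pow_zero]
    exact MvPolynomial.homogeneousComponent_eq_self (MvPolynomial.isHomogeneous_one _ _)
  | succ n ih => rw [pow_succ, hc_mul (td_pow hg n) hg, ih, pow_succ]

/-- Homogenisation followed by the substitution of `L` for the new variable. -/
noncomputable def TT (L : MvPolynomial σ V) (N : ℕ) (p : MvPolynomial σ V) : MvPolynomial σ V :=
  ∑ j ∈ Finset.range (N + 1), homogeneousComponent j p * L ^ (N - j)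

theorem td_TT {L : MvPolynomial σ V} (hL : L.totalDegree ≤ 1) (N : ℕ) (p : MvPolynomial σ V) :
    (TT L N p).totalDegree ≤ N := by
  refine (MvPolynomial.totalDegree_finsetSum _ _).trans (Finset.sup_le fun j hj => ?_)
  have h1 := (MvPolynomial.homogeneousComponent_isHomogeneous j p).totalDegree_le
  have h2 := td_pow hL (N - j)
  have h3 := Finset.mem_range.1 hj
  exact (MvPolynomial.totalDegree_mul _ _).trans (by omega)

theorem hc_TT {L : MvPolynomial σ V} (hL : L.totalDegree ≤ 1) (N : ℕ) (p : MvPolynomial σ V) :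
    homogeneousComponent N (TT L N p) = TT (homogeneousComponent 1 L) N p := by
  rw [TT, map_sum]
  refine Finset.sum_congr rfl fun j hj => ?_
  have h3 := Finset.mem_range.1 hj
  have h4 := hc_mul (MvPolynomial.homogeneousComponent_isHomogeneous j p).totalDegree_le
    (td_pow hL (N - j))
  rw [show j + (N - j) = N by omega] at h4
  rw [h4, hc_pow hL,
    MvPolynomial.homogeneousComponent_eq_self (MvPolynomial.homogeneousComponent_isHomogeneous j p)]

/-- All coordinates are multiplied by `w`. -/
noncomputable def sc (π : MvPolynomial σ V →+* B) (w : B) : MvPolynomial σ V →+* B :=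
  MvPolynomial.eval₂Hom (π.comp MvPolynomial.C) fun i => w * π (MvPolynomial.X i)

theorem sc_C (π : MvPolynomial σ V →+* B) (w : B) (v : V) :
    sc π w (MvPolynomial.C v) = π (MvPolynomial.C v) := by
  simp [sc]

theorem sc_X (π : MvPolynomial σ V →+* B) (w : B) (i : σ) :
    sc π w (MvPolynomial.X i) = w * π (MvPolynomial.X i) := by
  simp [sc]

theorem sc_hom (π : MvPolynomial σ V →+* B) (w : B) {p : MvPolynomial σ V} {j : ℕ}
    (hp : p.IsHomogeneous j) : sc π w p = w ^ j * π p := by
  let _ : Algebra V B := (π.comp MvPolynomial.C).toAlgebra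
  have h1 := aeval_smul_of_homogeneous hp w fun i => π (MvPolynomial.X i)
  have h2 : MvPolynomial.eval₂Hom (π.comp MvPolynomial.C) (fun i => π (MvPolynomial.X i)) = π :=
    MvPolynomial.ringHom_ext (fun v => by simp) fun i => by simp
  have h3 : MvPolynomial.aeval (fun i => π (MvPolynomial.X i)) p = π p := RingHom.congr_fun h2 p
  rw [h3] at h1
  exact h1

theorem sc_TT (π : MvPolynomial σ V →+* B) (w : B) {L : MvPolynomial σ V} (hL : sc π w L = w)
    {p : MvPolynomial σ V} {N : ℕ} (hN : p.totalDegree ≤ N) :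
    sc π w (TT L N p) = w ^ N * π p := by
  conv_rhs => rw [← sum_hc hN]
  rw [TT, map_sum, map_sum, Finset.mul_sum]
  refine Finset.sum_congr rfl fun j hj => ?_
  have h3 := Finset.mem_range.1 hj
  rw [map_mul, map_pow, hL, sc_hom π w (MvPolynomial.homogeneousComponent_isHomogeneous j p),
    mul_right_comm, ← pow_add, show j + (N - j) = N by omega]

theorem TT_sc (π : MvPolynomial σ V →+* B) (w : B) {L : MvPolynomial σ V} (hL : w * π L = 1)
    {p : MvPolynomial σ V} {N : ℕ} (hN : p.totalDegree ≤ N) :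
    w ^ N * π (TT L N p) = sc π w p := by
  conv_rhs => rw [← sum_hc hN]
  rw [TT, map_sum, map_sum, Finset.mul_sum]
  refine Finset.sum_congr rfl fun j hj => ?_
  have h3 := Finset.mem_range.1 hj
  rw [map_mul, map_pow, sc_hom π w (MvPolynomial.homogeneousComponent_isHomogeneous j p)]
  have h4 : w ^ N = w ^ j * w ^ (N - j) := by rw [← pow_add, show j + (N - j) = N by omega]
  rw [h4, mul_mul_mul_comm, ← mul_pow, hL, one_pow, mul_one]

theorem sc_lin (π : MvPolynomial σ V →+* B) (w : B) (a : V) (i : σ)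
    (hw : w * π (1 + MvPolynomial.C a * MvPolynomial.X i) = 1) :
    sc π w (1 + MvPolynomial.C (-a) * MvPolynomial.X i) = w := by
  rw [map_add, map_mul, map_one] at hw
  rw [map_add, map_mul, map_one, sc_C, sc_X, map_neg, map_neg]
  linear_combination -hw

theorem sc_inj [IsDomain V] {π : MvPolynomial σ V →+* B} (hπ : Function.Injective π) (w : B)
    (a : V) (i : σ) (hw : w * π (1 + MvPolynomial.C a * MvPolynomial.X i) = 1) :
    Function.Injective (sc π w) := by
  refine (injective_iff_map_eq_zero _).2 fun p hp => ?_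
  have h1 := TT_sc π w hw (le_refl p.totalDegree)
  rw [hp, ((IsUnit.of_mul_eq_one _ hw).pow _).mul_right_eq_zero,
    map_eq_zero_iff π hπ] at h1
  have hinj := IsFractionRing.injective (MvPolynomial σ V) (FractionRing (MvPolynomial σ V))
  have h0 : algebraMap (MvPolynomial σ V) (FractionRing (MvPolynomial σ V))
      (1 + MvPolynomial.C (-a) * MvPolynomial.X i) ≠ 0 := by
    rw [map_ne_zero_iff _ hinj]
    intro h
    simpa using congrArg MvPolynomial.constantCoeff h
  have h2 := sc_lin _ _ (-a) i (inv_mul_cancel₀ h0)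
  rw [neg_neg] at h2
  have h3 := sc_TT _ _ h2 (le_refl p.totalDegree)
  rw [h1, map_zero] at h3
  exact (map_eq_zero_iff _ hinj).1
    ((mul_eq_zero.1 h3.symm).resolve_left (pow_ne_zero _ (inv_ne_zero h0)))

theorem finite_roots {k D : Type*} [Field k] [CommRing D] [IsDomain D] (f : k →+* D) {F : D[X]}
    (hF : F ≠ 0) : {a : k | F.eval (f a) = 0}.Finite := by
  have h1 : {x | F.IsRoot x}.Finite :=
    Set.not_infinite.1 fun h => hF (Polynomial.eq_zero_of_infinite_isRoot F h)
  exact h1.preimage f.injective.injOn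

theorem td_lin (a : V) (i : σ) :
    (MvPolynomial.C a * MvPolynomial.X i : MvPolynomial σ V).totalDegree ≤ 1 :=
  (MvPolynomial.isHomogeneous_C_mul_X a i).totalDegree_le

theorem td_aeval {τ : Type} (g : σ → MvPolynomial τ V) (hg : ∀ i, (g i).totalDegree ≤ 1)
    (p : MvPolynomial σ V) : (MvPolynomial.aeval g p).totalDegree ≤ p.totalDegree := by
  conv_lhs => rw [p.as_sum, map_sum]
  refine (MvPolynomial.totalDegree_finsetSum _ _).trans (Finset.sup_le fun s hs => ?_)
  rw [MvPolynomial.aeval_monomial]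
  refine (MvPolynomial.totalDegree_mul _ _).trans ?_
  rw [MvPolynomial.algebraMap_eq, MvPolynomial.totalDegree_C, zero_add]
  refine (MvPolynomial.totalDegree_finsetProd _ _).trans ?_
  exact (Finset.sum_le_sum fun i _ => td_pow (hg i) (s i)).trans (MvPolynomial.le_totalDegree hs)

/-- The shear along the first coordinate. -/
noncomputable def sh {m : ℕ} (e : Fin (m + 1) → V) :
    MvPolynomial (Fin (m + 1)) V →ₐ[V] MvPolynomial (Fin (m + 1)) V :=
  MvPolynomial.aeval fun i => MvPolynomial.X i + MvPolynomial.C (e i) * MvPolynomial.X 0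

theorem sh_sh {m : ℕ} (e e' : Fin (m + 1) → V) (h0 : e 0 = 0) (he : e + e' = 0)
    (p : MvPolynomial (Fin (m + 1)) V) : sh e (sh e' p) = p := by
  have : (sh e).comp (sh e') = AlgHom.id _ _ := by
    refine MvPolynomial.algHom_ext fun i => ?_
    have h1 : e i + e' i = 0 := congrFun he i
    have h2 : (MvPolynomial.C (e i) + MvPolynomial.C (e' i) : MvPolynomial (Fin (m + 1)) V) = 0 := by
      rw [← map_add, h1, map_zero]
    simp only [sh, AlgHom.comp_apply, MvPolynomial.aeval_X, map_add, map_mul, MvPolynomial.aeval_C,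
      MvPolynomial.algebraMap_eq, h0, map_zero, zero_mul, add_zero, AlgHom.id_apply]
    linear_combination MvPolynomial.X 0 * h2
  exact AlgHom.congr_fun this p

theorem sh_C {m : ℕ} (e : Fin (m + 1) → V) (v : V) :
    sh e (MvPolynomial.C v) = MvPolynomial.C v := by
  simp [sh]

theorem td_sh {m : ℕ} (e : Fin (m + 1) → V) (p : MvPolynomial (Fin (m + 1)) V) :
    (sh e p).totalDegree ≤ p.totalDegree :=
  td_aeval _ (fun i => (MvPolynomial.totalDegree_add _ _).trans
    (max_le (MvPolynomial.isHomogeneous_X V i).totalDegree_le (td_lin _ _))) p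

theorem fin_sh {m : ℕ} (q : Fin (m + 1) → V) (hq : q 0 = 1) (p : MvPolynomial (Fin (m + 1)) V) :
    MvPolynomial.finSuccEquiv V m (sh (Function.update q 0 0) p) =
      MvPolynomial.aeval (fun i => C ((Fin.cons 0 MvPolynomial.X :
        Fin (m + 1) → MvPolynomial (Fin m) V) i) + C (algebraMap V _ (q i)) * X) p := by
  have : (MvPolynomial.finSuccEquiv V m).toAlgHom.comp (sh (Function.update q 0 0)) =
      MvPolynomial.aeval (fun i => C ((Fin.cons 0 MvPolynomial.X :
        Fin (m + 1) → MvPolynomial (Fin m) V) i) + C (algebraMap V _ (q i)) * X) := by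
    refine MvPolynomial.algHom_ext fun i => ?_
    have hC : ∀ v, MvPolynomial.finSuccEquiv V m (MvPolynomial.C v) = C (MvPolynomial.C v) :=
      fun v => (MvPolynomial.finSuccEquiv V m).commutes v
    refine Fin.cases ?_ (fun j => ?_) i
    · simp [sh, MvPolynomial.finSuccEquiv_X_zero, hq]
    · simp [sh, MvPolynomial.finSuccEquiv_X_zero, MvPolynomial.finSuccEquiv_X_succ, hC]
  exact AlgHom.congr_fun this p

end gen

end Pos

open Pos

section poly

variable {V B : Type u} [CommRing V] [IsDomain V] [ValuationRing V] [CommRing B] [IsDomain B]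
  [IsLocalRing B]

theorem projch (k : Type u) [Field k] [Infinite k] [Algebra k V] {m : ℕ}
    {π : MvPolynomial (Fin (m + 1)) V →+* B} (hp : PolyP π) {h : MvPolynomial (Fin (m + 1)) V}
    (hh : Prim h) :
    ∃ (π' : MvPolynomial (Fin (m + 1)) V →+* B) (h' : MvPolynomial (Fin (m + 1)) V) (N : ℕ),
      PolyP π' ∧ (∀ v, π' (MvPolynomial.C v) = π (MvPolynomial.C v)) ∧
      Associated (π' h') (π h) ∧ h'.totalDegree ≤ N ∧
      Prim (MvPolynomial.homogeneousComponent N h') := by
  obtain ⟨N, hN⟩ : ∃ N, h.totalDegree ≤ N := ⟨_, le_rfl⟩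
  let F : (MvPolynomial (Fin (m + 1)) (ResidueField V))[X] := ∑ j ∈ Finset.range (N + 1),
    monomial (N - j) (MvPolynomial.map (residue V) (MvPolynomial.homogeneousComponent j h) *
      (-MvPolynomial.X 0) ^ (N - j))
  have hF : F ≠ 0 := by
    intro h0
    apply hh
    rw [← sum_hc hN, map_sum]
    refine Finset.sum_eq_zero fun j hj => ?_
    have h1 := congrArg (fun q => Polynomial.coeff q (N - j)) h0
    have h3 := Finset.mem_range.1 hj
    simp only [F, finsetSum_coeff, coeff_monomial, coeff_zero] at h1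
    rw [Finset.sum_eq_single j, if_pos rfl] at h1
    · exact (mul_eq_zero.1 h1).resolve_right
        (pow_ne_zero _ (neg_ne_zero.2 (MvPolynomial.X_ne_zero _)))
    · intro i hi hij
      have h4 := Finset.mem_range.1 hi
      rw [if_neg (by omega)]
    · exact fun h => absurd hj h
  have hF2 : (1 + C (residue B (π (MvPolynomial.X 0))) * X : (ResidueField B)[X]) ≠ 0 := by
    intro h0
    simpa using congrArg (Polynomial.eval 0) h0
  obtain ⟨a, ha⟩ := ((finite_roots
    (MvPolynomial.C.comp ((residue V).comp (algebraMap k V))) hF).union (finite_roots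
    ((residue B).comp (π.comp (MvPolynomial.C.comp (algebraMap k V)))) hF2)).exists_notMem
  rw [Set.mem_union, not_or, Set.mem_ofPred_eq, Set.mem_ofPred_eq] at ha
  have hu : IsUnit (π (1 + MvPolynomial.C (algebraMap k V a) * MvPolynomial.X 0)) := by
    rw [← residue_ne_zero_iff_isUnit]
    intro h0
    apply ha.2
    rw [← h0]
    simp only [eval_add, eval_one, eval_mul, eval_C, eval_X, RingHom.comp_apply, map_add, map_mul,
      map_one]
    ring
  obtain ⟨w, hw⟩ := hu.exists_left_inv
  have hwu : IsUnit w := IsUnit.of_mul_eq_one _ hw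
  have hL := sc_lin π w _ 0 hw
  have hd : (1 + MvPolynomial.C (-algebraMap k V a) * MvPolynomial.X 0 :
      MvPolynomial (Fin (m + 1)) V).totalDegree ≤ 1 :=
    (MvPolynomial.totalDegree_add _ _).trans (max_le (by simp) (td_lin _ _))
  refine ⟨sc π w, TT _ N h, N, ⟨sc_inj hp.inj w _ 0 hw, fun r => ?_, fun v hv => ?_⟩,
    sc_C π w, ?_, td_TT hd N h, ?_⟩
  · obtain ⟨b, s, hs, e⟩ := hp.surj r
    have e1 := sc_TT π w hL (le_max_left b.totalDegree s.totalDegree)
    have e2 := sc_TT π w hL (le_max_right b.totalDegree s.totalDegree)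
    exact ⟨_, _, e2 ▸ (hwu.pow _).mul hs, by rw [e1, e2, ← e]; ring⟩
  · exact hp.loc v (by rwa [sc_C] at hv)
  · rw [sc_TT π w hL hN]
    exact associated_unit_mul_left _ _ (hwu.pow _)
  · rw [hc_TT hd, map_add, MvPolynomial.homogeneousComponent_eq_zero 1 1 (by simp), zero_add,
      MvPolynomial.homogeneousComponent_eq_self (MvPolynomial.isHomogeneous_C_mul_X _ _)]
    intro h0
    apply ha.1
    rw [← h0, TT, map_sum, eval_finsetSum]
    refine Finset.sum_congr rfl fun j _ => ?_
    simp only [eval_monomial, RingHom.comp_apply, map_mul, map_pow, MvPolynomial.map_C,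
      MvPolynomial.map_X, map_neg]
    rw [mul_assoc, ← mul_pow]
    congr 2
    ring

theorem linch (k : Type u) [Field k] [Infinite k] [Algebra k V] {m : ℕ}
    {π : MvPolynomial (Fin (m + 1)) V →+* B} (hp : PolyP π) {h : MvPolynomial (Fin (m + 1)) V}
    {N : ℕ} (hN : h.totalDegree ≤ N) (hh : Prim (MvPolynomial.homogeneousComponent N h)) :
    ∃ (π' : MvPolynomial (Fin (m + 1)) V →+* B) (h' : MvPolynomial (Fin (m + 1)) V),
      PolyP π' ∧ (∀ v, π' (MvPolynomial.C v) = π (MvPolynomial.C v)) ∧
      Associated (π' h') (π h) ∧ h'.totalDegree ≤ N ∧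
      (MvPolynomial.finSuccEquiv V m h').Monic ∧
      (MvPolynomial.finSuccEquiv V m h').natDegree = N := by
  let _ : Algebra k (ResidueField V) := ((residue V).comp (algebraMap k V)).toAlgebra
  have hk : ∀ c : k, algebraMap k (ResidueField V) c = residue V (algebraMap k V c) := fun _ => rfl
  obtain ⟨q0, hq0⟩ := exists_point_ne_zero k
    (MvPolynomial.map (residue V) (MvPolynomial.homogeneousComponent N h) * MvPolynomial.X 0)
    (mul_ne_zero hh (MvPolynomial.X_ne_zero _))
  rw [map_mul, MvPolynomial.eval_X] at hq0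
  have h00 : q0 0 ≠ 0 := fun h => right_ne_zero_of_mul hq0 (by rw [h, map_zero])
  have hu0 : IsUnit (MvPolynomial.aeval (fun i => algebraMap k V (q0 i))
      (MvPolynomial.homogeneousComponent N h)) := by
    rw [← residue_ne_zero_iff_isUnit, MvPolynomial.aeval_def, MvPolynomial.eval₂_comp_left]
    have h3 := left_ne_zero_of_mul hq0
    rw [MvPolynomial.eval_map] at h3
    exact h3
  let q : Fin (m + 1) → V := fun i => algebraMap k V (q0 0)⁻¹ * algebraMap k V (q0 i)
  have hq : q 0 = 1 := by
    simp only [q]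
    rw [← map_mul, inv_mul_cancel₀ h00, map_one]
  have hu : IsUnit (MvPolynomial.aeval q (MvPolynomial.homogeneousComponent N h)) := by
    rw [aeval_smul_of_homogeneous (MvPolynomial.homogeneousComponent_isHomogeneous N h)]
    exact (((IsUnit.mk0 _ (inv_ne_zero h00)).map _).pow _).mul hu0
  obtain ⟨c, hc⟩ := hu.exists_left_inv
  have hcu : IsUnit c := IsUnit.of_mul_eq_one _ hc
  have e0 : Function.update q 0 0 0 = 0 := Function.update_self _ _ _
  have i1 := sh_sh (Function.update q 0 0) _ e0 (add_neg_cancel _)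
  have i2 := sh_sh (-Function.update q 0 0) _ (by simp) (neg_add_cancel _)
  have ht := top_line h (Fin.cons 0 MvPolynomial.X : Fin (m + 1) → MvPolynomial (Fin m) V)
    (fun i => algebraMap V _ (q i)) hN
  rw [← fin_sh q hq] at ht
  have e4 := MvPolynomial.aeval_algebraMap_apply (MvPolynomial (Fin m) V) q
    (MvPolynomial.homogeneousComponent N h)
  rw [Function.comp_def] at e4
  have hC : MvPolynomial.finSuccEquiv V m (MvPolynomial.C c) = C (algebraMap V _ c) :=
    (MvPolynomial.finSuccEquiv V m).commutes c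
  have h1 : (MvPolynomial.finSuccEquiv V m
      (MvPolynomial.C c * sh (Function.update q 0 0) h)).natDegree ≤ N := by
    rw [map_mul, hC]
    exact (natDegree_C_mul_le _ _).trans ht.1
  have h2 : (MvPolynomial.finSuccEquiv V m
      (MvPolynomial.C c * sh (Function.update q 0 0) h)).coeff N = 1 := by
    rw [map_mul, hC, coeff_C_mul, ht.2, e4, ← map_mul, hc, map_one]
  have hv : ∀ p, π.comp (sh (-Function.update q 0 0) : MvPolynomial (Fin (m + 1)) V →+* _) p =
      π (sh (-Function.update q 0 0) p) := fun _ => rfl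
  refine ⟨π.comp (sh (-Function.update q 0 0) : MvPolynomial (Fin (m + 1)) V →+* _),
    MvPolynomial.C c * sh (Function.update q 0 0) h, ⟨fun a b hab => ?_, fun r => ?_,
    fun v hv' => ?_⟩, fun v => by rw [hv, sh_C], ?_, ?_,
    monic_of_natDegree_le_of_coeff_eq_one N h1 h2,
    natDegree_eq_of_le_of_coeff_ne_zero h1 (by rw [h2]; exact one_ne_zero)⟩
  · rw [hv, hv] at hab
    rw [← i1 a, hp.inj hab, i1]
  · obtain ⟨b, s, hs, e⟩ := hp.surj r
    exact ⟨sh (Function.update q 0 0) b, sh (Function.update q 0 0) s, by rwa [hv, i2],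
      by rwa [hv, hv, i2, i2]⟩
  · exact hp.loc v (by rwa [hv, sh_C] at hv')
  · rw [hv, map_mul, sh_C, i2, map_mul]
    exact associated_unit_mul_left _ _ ((hcu.map _).map π)
  · refine (MvPolynomial.totalDegree_mul _ _).trans ?_
    rw [MvPolynomial.totalDegree_C, zero_add]
    exact (td_sh _ h).trans hN

theorem poly_good (k : Type u) [Field k] [Infinite k] [Algebra k V] {d : ℕ}
    {π : MvPolynomial (Fin d) V →+* B} (hp : PolyP π) {h : MvPolynomial (Fin d) V}
    (hh : Prim h) (hu : ¬ IsUnit (π h)) :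
    ∃ (m : ℕ) (π' : MvPolynomial (Fin (m + 1)) V →+* B) (h' : MvPolynomial (Fin (m + 1)) V)
      (N : ℕ), Good π' h' N ∧ (∀ v, π' (MvPolynomial.C v) = π (MvPolynomial.C v)) ∧
      Associated (π' h') (π h) := by
  rcases d with _ | m
  · obtain ⟨s, hs⟩ := hh.exists_unit
    rw [Subsingleton.elim s 0] at hs
    rw [MvPolynomial.eq_C_of_isEmpty h] at hu
    exact absurd ((hs.map _).map π) hu
  obtain ⟨π1, h1, N, p1, c1, a1, d1, t1⟩ := projch k hp hh
  obtain ⟨π2, h2, p2, c2, a2, d2, m2, n2⟩ := linch k p1 d1 t1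
  have := isIntegrallyClosed_mvPolynomial V m
  have hv : ∀ p, π2.comp ((MvPolynomial.finSuccEquiv V m).symm : (MvPolynomial (Fin m) V)[X] →+* _) p =
      π2 ((MvPolynomial.finSuccEquiv V m).symm p) := fun _ => rfl
  obtain ⟨H2, H3, m3, m4, e, u3, hz⟩ := fact_monic
    (π2.comp ((MvPolynomial.finSuccEquiv V m).symm : (MvPolynomial (Fin m) V)[X] →+* _)) _ m2
  rw [hv] at u3
  have e' : h2 = (MvPolynomial.finSuccEquiv V m).symm H2 *
      (MvPolynomial.finSuccEquiv V m).symm H3 := by
    rw [← map_mul, ← e, AlgEquiv.symm_apply_apply]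
  have a3 : Associated (π2 ((MvPolynomial.finSuccEquiv V m).symm H2)) (π h) := by
    refine Associated.trans ?_ (a2.trans a1)
    rw [e', map_mul]
    exact (associated_mul_unit_left _ _ u3).symm
  refine ⟨m, π2, (MvPolynomial.finSuccEquiv V m).symm H2, H2.natDegree, ⟨p2, ?_, ?_, ?_, ?_, ?_⟩,
    fun v => (c2 v).trans (c1 v), a3⟩
  · have g1 := MvPolynomial.totalDegree_mul_of_isDomain
      ((map_ne_zero_iff _ (MvPolynomial.finSuccEquiv V m).symm.injective).2 m3.ne_zero)
      ((map_ne_zero_iff _ (MvPolynomial.finSuccEquiv V m).symm.injective).2 m4.ne_zero)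
    have g2 := MvPolynomial.degreeOf_le_totalDegree ((MvPolynomial.finSuccEquiv V m).symm H3) 0
    rw [← MvPolynomial.natDegree_finSuccEquiv, AlgEquiv.apply_symm_apply] at g2
    rw [e, m3.natDegree_mul m4] at n2
    rw [← e'] at g1
    omega
  · rwa [AlgEquiv.apply_symm_apply]
  · rw [AlgEquiv.apply_symm_apply]
  · exact fun hx => hu (a3.isUnit hx)
  · intro f g hf hd
    have g1 := _root_.map_dvd (MvPolynomial.finSuccEquiv V m) hd
    rw [AlgEquiv.apply_symm_apply, map_mul] at g1
    have g2 := _root_.map_dvd (MvPolynomial.finSuccEquiv V m).symm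
      (hz _ _ (by rwa [hv, AlgEquiv.symm_apply_apply]) g1)
    rwa [AlgEquiv.symm_apply_apply] at g2

end poly

end Pool.Agent.GR
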