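import Pool.Agent.P.MP_c1f06d_ag.r.S8Defs

open Matrix Polynomial IsLocalRing Pool.Agent.P.MP_c1f06d_ag

universe u

namespace Pool.Agent.GR

theorem valuationRing_of_surjective {V W : Type*} [CommRing V] [IsDomain V] [ValuationRing V]
    [CommRing W] [IsDomain W] (f : V →+* W) (hf : Function.Surjective f) : ValuationRing W where
  cond' a b := by
    obtain ⟨a, rfl⟩ := hf a
    obtain ⟨b, rfl⟩ := hf b
    obtain ⟨c, hc⟩ := ValuationRing.cond a b
    exact ⟨f c, hc.imp (fun e => by rw [← map_mul, e]) fun e => by rw [← map_mul, e]⟩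

/-- The image of `D[X]` is integral over `D` when a monic polynomial is killed. -/
theorem isIntegralElem_of_monic {D S : Type*} [CommRing D] [CommRing S] (ρ : D[X] →+* S)
    {G : D[X]} (hG : G.Monic) (h0 : ρ G = 0) (p : D[X]) : (ρ.comp C).IsIntegralElem (ρ p) := by
  have hX : (ρ.comp C).IsIntegralElem (ρ X) :=
    ⟨G, hG, by rw [← hom_eval₂, eval₂_C_X, h0]⟩
  induction p using Polynomial.induction_on with
  | C a => exact RingHom.isIntegralElem_map _
  | add p q hp hq => rw [map_add]; exact RingHom.IsIntegralElem.add _ hp hq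
  | monomial n a h => rw [pow_succ, ← mul_assoc, map_mul]; exact RingHom.IsIntegralElem.mul _ h hX

theorem locPres_mem_map {B O : Type*} [CommRing B] [CommRing O] {π : B →+* O} {G : B}
    (h : LocPres π G) (I : Ideal B) {r : O} (hr : r ∈ I.map π) :
    ∃ b s, b ∈ I ∧ IsUnit (π s) ∧ r * π s = π b := by
  refine Submodule.span_induction (p := fun r _ => ∃ b s, b ∈ I ∧ IsUnit (π s) ∧ r * π s = π b)
    ?_ ?_ ?_ ?_ hr
  · rintro _ ⟨b, hb, rfl⟩
    exact ⟨b, 1, hb, by simp, by simp⟩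
  · exact ⟨0, 1, by simp, by simp, by simp⟩
  · rintro r r' - - ⟨a, s, ha, hs, e⟩ ⟨a', s', ha', hs', e'⟩
    refine ⟨a * s' + a' * s, s * s', add_mem (I.mul_mem_right _ ha) (I.mul_mem_right _ ha'),
      by rw [map_mul]; exact hs.mul hs', ?_⟩
    rw [map_add, map_mul, map_mul, map_mul, ← e, ← e']; ring
  · rintro c r - ⟨a, s, ha, hs, e⟩
    obtain ⟨a', s', hs', e'⟩ := h.surj c
    refine ⟨a' * a, s' * s, I.mul_mem_left _ ha, by rw [map_mul]; exact hs'.mul hs, ?_⟩
    rw [map_mul, map_mul, ← e, ← e', smul_eq_mul]; ring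

theorem locPres_quot {B O B' : Type*} [CommRing B] [CommRing O] [CommRing B'] {π : B →+* O}
    {G : B} (h : LocPres π G) (red : B →+* B') (hsurj : Function.Surjective red) (J : Ideal O)
    (hJ : J = (RingHom.ker red).map π) :
    ∃ πb : B' →+* O ⧸ J, (∀ b, πb (red b) = Ideal.Quotient.mk J (π b)) ∧ LocPres πb (red G) := by
  have hle : RingHom.ker red ≤ RingHom.ker ((Ideal.Quotient.mk J).comp π) := fun b hb => by
    rw [RingHom.mem_ker, RingHom.comp_apply, Ideal.Quotient.eq_zero_iff_mem, hJ]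
    exact Ideal.mem_map_of_mem _ hb
  obtain ⟨πb, hπb⟩ : ∃ πb : B' →+* O ⧸ J, ∀ b, πb (red b) = Ideal.Quotient.mk J (π b) :=
    ⟨red.liftOfSurjective hsurj ⟨_, hle⟩, red.liftOfSurjective_comp_apply hsurj ⟨_, hle⟩⟩
  refine ⟨πb, hπb, by rw [hπb, h.map_G, map_zero], fun r => ?_, fun a ha => ?_⟩
  · obtain ⟨r, rfl⟩ := Ideal.Quotient.mk_surjective r
    obtain ⟨a, s, hs, e⟩ := h.surj r
    exact ⟨red a, red s, by rw [hπb]; exact hs.map _, by rw [hπb, hπb, ← map_mul, e]⟩
  · obtain ⟨a, rfl⟩ := hsurj a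
    rw [hπb, Ideal.Quotient.eq_zero_iff_mem, hJ] at ha
    obtain ⟨b, s, hb, hs, e⟩ := locPres_mem_map h _ ha
    obtain ⟨s', hs', hG⟩ := h.ker (a * s - b) (by rw [map_sub, map_mul, e, sub_self])
    refine ⟨red (s' * s), by rw [hπb, map_mul]; exact (hs'.mul hs).map _, ?_⟩
    have h1 := map_dvd red hG
    rw [map_mul, map_sub, RingHom.mem_ker.1 hb, sub_zero, map_mul, mul_comm (red a), ← mul_assoc,
      ← map_mul] at h1
    exact h1

theorem isUnit_of_isUnit_mk {R : Type*} [CommRing R] [IsLocalRing R] {J : Ideal R}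
    (hJm : J ≤ maximalIdeal R) {r : R} (hr : IsUnit (Ideal.Quotient.mk J r)) : IsUnit r := by
  obtain ⟨s, hs⟩ := hr.exists_right_inv
  obtain ⟨s, rfl⟩ := Ideal.Quotient.mk_surjective s
  rw [← map_mul, ← map_one (Ideal.Quotient.mk J), Ideal.Quotient.eq] at hs
  by_contra hu
  have h1 : r * s ∈ maximalIdeal R := Ideal.mul_mem_right _ _ hu
  have h2 := sub_mem h1 (hJm hs)
  rw [sub_sub_cancel] at h2
  exact (maximalIdeal.isMaximal R).ne_top ((Ideal.eq_top_iff_one _).2 h2)

section pres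

variable {V R : Type u} [CommRing V] [IsDomain V] [ValuationRing V] [CommRing R] [IsLocalRing R]
  {d : ℕ} {π : (MvPolynomial (Fin d) V)[X] →+* R} {G : (MvPolynomial (Fin d) V)[X]}

/-- QUOT: the extension of a prime of `V` is prime and meets `V[t]` in the extension. -/
theorem pres_quot (h : Pres π G) {W : Type u} [CommRing W] [IsDomain W] (f : V →+* W)
    (hf : Function.Surjective f) (J : Ideal R)
    (hJ : J = (RingHom.ker f).map (π.comp (C.comp MvPolynomial.C))) :
    J.IsPrime ∧ ∀ a, π (C a) ∈ J ↔ MvPolynomial.map f a = 0 := by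
  have hJm : J ≤ maximalIdeal R := by
    rw [hJ, Ideal.map_le_iff_le_comap]
    intro v hv
    rw [Ideal.mem_comap, mem_maximalIdeal, mem_nonunits_iff]
    exact fun hu => ((h.loc v hu).map f).ne_zero hv
  have hJt : J ≠ ⊤ := fun e => (maximalIdeal.isMaximal R).ne_top (top_le_iff.1 (e ▸ hJm))
  have : Nontrivial (R ⧸ J) := Ideal.Quotient.nontrivial_iff.2 hJt
  have : IsLocalRing (R ⧸ J) := IsLocalRing.of_surjective' _ Ideal.Quotient.mk_surjective
  have : ValuationRing W := valuationRing_of_surjective f hf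
  have hsurj : Function.Surjective (mapRingHom (MvPolynomial.map (σ := Fin d) f)) :=
    Polynomial.map_surjective _ (MvPolynomial.map_surjective _ hf)
  have hJe : J = (RingHom.ker (mapRingHom (MvPolynomial.map (σ := Fin d) f))).map π := by
    rw [hJ, ker_mapRingHom, MvPolynomial.ker_map, Ideal.map_map, Ideal.map_map,
      RingHom.comp_assoc]
  obtain ⟨πb, hπb, hl⟩ := locPres_quot h.lp _ hsurj J hJe
  simp only [coe_mapRingHom] at hπb hl
  have hb : Pres πb (G.map (MvPolynomial.map f)) := by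
    refine ⟨hl, h.monic.map _, ?_, fun v hv => ?_⟩
    · rw [derivative_map, hπb]
      exact h.deriv.map _
    · obtain ⟨v, rfl⟩ := hf v
      rw [← MvPolynomial.map_C, ← map_C, hπb] at hv
      exact (h.loc v (isUnit_of_isUnit_mk hJm hv)).map _
  have := hb.isDomain
  refine ⟨(Ideal.Quotient.isDomain_iff_prime J).1 this, fun a => ?_⟩
  rw [← Ideal.Quotient.eq_zero_iff_mem, ← hπb, map_C]
  exact ⟨valo_inj hb _, fun h0 => by rw [h0, map_zero, map_zero]⟩

theorem pres_sat (h : Pres π G) : ∃ q : Ideal R, q.IsPrime ∧ (∀ a, Prim a → π (C a) ∉ q) ∧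
    (∀ v ∈ maximalIdeal V, π (C (MvPolynomial.C v)) ∈ q) ∧
    ∀ F, F ∉ q → ∃ a, Prim a ∧ F ∣ π (C a) := by
  obtain ⟨hq, hq'⟩ := pres_quot h (residue V) residue_surjective
    ((maximalIdeal V).map (π.comp (C.comp MvPolynomial.C))) (by rw [ker_residue])
  refine ⟨_, hq, fun a ha hm => ha ((hq' a).1 hm), fun v hv => Ideal.mem_map_of_mem _ hv,
    fun F hF => ?_⟩
  by_contra hne
  let S : Submonoid R :=
    ((RingHom.ker (MvPolynomial.map (σ := Fin d) (residue V))).primeCompl
      (hp := RingHom.ker_isPrime _)).map (π.comp C).toMonoidHom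
  have hd : Disjoint ((Ideal.span {F} : Ideal R) : Set R) S := by
    rw [Set.disjoint_left]
    rintro r hr ⟨a, ha, rfl⟩
    exact hne ⟨a, ha, Ideal.mem_span_singleton.1 hr⟩
  obtain ⟨r, hr, hFr, hrS⟩ := Ideal.exists_le_prime_disjoint _ S hd
  let p : Ideal V := r.comap (π.comp (C.comp MvPolynomial.C))
  have hp : p.IsPrime := Ideal.comap_isPrime _ _
  obtain ⟨hJ, -⟩ := pres_quot h (Ideal.Quotient.mk p) Ideal.Quotient.mk_surjective
    (p.map (π.comp (C.comp MvPolynomial.C))) (by rw [Ideal.mk_ker])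
  have hJr : p.map (π.comp (C.comp MvPolynomial.C)) ≤ r := Ideal.map_comap_le
  have hcomap : r.comap (π.comp C) ≤ (p.map (π.comp (C.comp MvPolynomial.C))).comap (π.comp C) := by
    intro a ha
    rcases eq_or_ne a 0 with rfl | ha0
    · exact zero_mem _
    obtain ⟨v, a0, rfl, h0⟩ := valo_prim a ha0
    rw [Ideal.mem_comap, map_mul] at ha ⊢
    have hv := (hr.mem_or_mem ha).resolve_right fun hm =>
      Set.disjoint_left.1 hrS hm ⟨a0, h0, rfl⟩
    exact Ideal.mul_mem_right _ _ (Ideal.mem_map_of_mem (π.comp (C.comp MvPolynomial.C)) hv)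
  obtain ⟨b, s, hs, e⟩ := h.lp.surj F
  have hbr : π b ∈ r := e ▸ Ideal.mul_mem_right _ _ (hFr (Ideal.mem_span_singleton_self F))
  have hbJ : π b ∉ p.map (π.comp (C.comp MvPolynomial.C)) := fun hm => by
    rw [← e] at hm
    exact hF (Ideal.map_mono (le_maximalIdeal hp.ne_top)
      ((Ideal.mul_unit_mem_iff_mem _ hs).1 hm))
  let _ := (π.comp C).toAlgebra
  exact (Ideal.comap_lt_comap_of_integral_mem_sdiff (R := MvPolynomial (Fin d) V) hJr ⟨hbr, hbJ⟩
    (isIntegralElem_of_monic π h.monic h.lp.map_G b)).not_ge hcomap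

end pres

end Pool.Agent.GR
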