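import Pool.Agent.P.MP_c1f06d_ag.r.CT0
import Pool.Agent.P.MP_c1f06d_ag.r.LData
import Pool.Agent.P.MP_c1f06d_ag.r.Pos
import Pool.Agent.P.MP_c1f06d_ag.r.Lindel
import Pool.Agent.P.MP_c1f06d_ag.r.Sat

open Matrix Polynomial IsLocalRing Pool.Agent.P.MP_c1f06d_ag

universe u

namespace Pool.Agent.GR

namespace HS

variable {k : Type u} [Field k] {n : ℕ} (H : HS k n)

theorem pt_mem {A : Type u} [CommRing A] [Algebra k A] (S : Subalgebra k A) (b : H.B) :
    H.pt A b ∈ S := S.algebraMap_mem _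

/-- Gluing over the semilocal ring of the line. -/
theorem glue_line {O T : Type u} [CommRing O] [Algebra k O] [CommRing T] [IsDomain T]
    [Algebra k T] (io : O →ₐ[k] T) (hio : Function.Injective io) {f h : O} (h0 : h ≠ 0)
    (hf : IsUnit (io f)) (hz : ∀ g, h ∣ f * g → h ∣ g) {M : ℕ} {W W' Z Z' : Mat n O}
    (hW : W * W' = h ^ (M + M) • (1 : Mat n O)) (hZ : Z * Z' = (f * f) • (1 : Mat n O))
    (y : H.B →ₐ[k] T) (hy : ∀ b, y b ∈ offS io f) (g : GL (Fin n) (FractionRing T))
    (hg : (algebraMap T (FractionRing T) (io h) ^ M * algebraMap T (FractionRing T) (io f)) •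
      (g : Mat n (FractionRing T)) = ((W * Z).map io).map (algebraMap T (FractionRing T)))
    (hgy : H.act g ((IsScalarTower.toAlgHom k T (FractionRing T)).comp y) = H.pt _) :
    ∃ (yO : H.B →ₐ[k] O) (κ : GL (Fin n) T), H.TrivOff yO h ∧ H.act κ y = io.comp yO := by
  have : IsDomain O := hio.isDomain io.toRingHom
  set ιT := IsScalarTower.toAlgHom k T (FractionRing T) with hιT
  have hT : Function.Injective ιT := IsFractionRing.injective T (FractionRing T)
  have hO : Function.Injective (ιT.comp io) := hT.comp hio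
  have hu : IsUnit ((ιT.comp io) h) := IsUnit.mk0 _ fun e => h0 (hO (by rw [e, map_zero]))
  have one_map : ∀ {A B : Type u} [CommRing A] [Algebra k A] [CommRing B] [Algebra k B]
      (φ : A →ₐ[k] B) (a : A), (a • (1 : Mat n A)).map φ = φ a • (1 : Mat n B) := by
    intro A B _ _ _ _ φ a
    ext i j
    rw [map_apply, Matrix.smul_apply, Matrix.smul_apply, smul_eq_mul, smul_eq_mul, map_mul,
      one_apply, one_apply]
    split_ifs <;> simp
  obtain ⟨ψ, hψ, hψ'⟩ := exists_gl_of_mul (S := W.map (ιT.comp io)) (S' := W'.map (ιT.comp io))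
    (hu.pow M) (hu.pow M) (by rw [← Matrix.map_mul, hW, one_map, map_pow, pow_add])
  obtain ⟨κ, hκ, hκ'⟩ := exists_gl_of_mul (S := Z.map io) (S' := Z'.map io) hf hf
    (by rw [← Matrix.map_mul, hZ, one_map, map_mul])
  have hfu : IsUnit (ιT (io f)) := hf.map ιT
  have eκ : ιT (io f) • ((gm ιT κ : GL (Fin n) _) : Mat n _) = Z.map (ιT.comp io) := by
    ext i j
    have := congrArg ιT (congrFun (congrFun hκ i) j)
    rwa [Matrix.smul_apply, smul_eq_mul, map_mul] at this
  have eκ' : ιT (io f) • (((gm ιT κ)⁻¹ : GL (Fin n) _) : Mat n _) = Z'.map (ιT.comp io) := by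
    ext i j
    have := congrArg ιT (congrFun (congrFun hκ' i) j)
    rwa [Matrix.smul_apply, smul_eq_mul, map_mul] at this
  have eg : g = ψ * gm ιT κ := by
    refine Units.ext ?_
    have hc : IsUnit ((ιT.comp io) h ^ M * ιT (io f)) := (hu.pow M).mul hfu
    refine (hc.smul_left_cancel).1 ?_
    refine hg.trans ?_
    rw [Units.val_mul, ← smul_mul_smul_comm, hψ, eκ, ← Matrix.map_mul]
    rfl
  have ey : H.act (gm ιT κ) (ιT.comp y) = H.act ψ⁻¹ (H.pt _) := by
    rw [← hgy, eg, H.act_mul, H.act_inv_act]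
  have m1 : ∀ b, H.act (gm ιT κ) (ιT.comp y) b ∈ offS (ιT.comp io) h := by
    rw [ey]
    exact H.act_sub _ _ (mem_offS_of_smul _ _ M hψ') (mem_offS_of_smul _ _ M hψ) _ (H.pt_mem _)
  have m2 : ∀ b, H.act (gm ιT κ) (ιT.comp y) b ∈ offS (ιT.comp io) f := by
    refine H.act_sub _ _ (mem_offS_of_smul _ _ 1 (by rw [pow_one]; exact eκ))
      (mem_offS_of_smul _ _ 1 (by rw [pow_one]; exact eκ')) _ fun b => ?_
    obtain ⟨j, a, e⟩ := hy b
    refine ⟨j, a, ?_⟩
    have := congrArg ιT e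
    rwa [map_mul, map_pow] at this
  obtain ⟨yO, hyO⟩ := exists_comp_of_range (ιT.comp io) hO _ fun b =>
    mem_range_of_offS (ιT.comp io) hO h0 hu hz (m1 b) (m2 b)
  refine ⟨yO, κ, (H.trivOff_iff (ιT.comp io) hO hu yO).2
    ⟨ψ, mem_offS_of_smul _ _ M hψ, mem_offS_of_smul _ _ M hψ', ?_⟩, H.act_inj ιT hT ?_⟩
  · rw [hyO, ey, H.act_act_inv]
  · rw [← hyO]
    rfl

/-- The case of a local ring of the affine space. -/
theorem poly_case [Infinite k] (h2 : H.K2P) {V B : Type u} [CommRing V] [IsDomain V]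
    [ValuationRing V] [Algebra k V] [CommRing B] [IsDomain B] [IsLocalRing B] [Algebra k B] {m : ℕ}
    {π : MvPolynomial (Fin (m + 1)) V →+* B} {h : MvPolynomial (Fin (m + 1)) V} {N : ℕ}
    (hG : Good π h N) (hk : ∀ c, π (MvPolynomial.C (algebraMap k V c)) = algebraMap k B c)
    (y : H.B →ₐ[k] B) (hy : H.TrivOff y (π h)) : H.Triv y := by
  classical
  have hh : h ≠ 0 := fun e => hG.monic.ne_zero (by rw [e, map_zero])
  have hπ : π h ≠ 0 := fun e => hh (hG.pp.inj (by rw [e, map_zero]))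
  let πa : MvPolynomial (Fin (m + 1)) V →ₐ[k] B := { π with commutes' := hk }
  set ι := IsScalarTower.toAlgHom k B (Localization.Away (π h)) with hι
  obtain ⟨M, S, S', g, hS, hg, -, hgy⟩ := H.trivOff_mat ι
    (IsLocalization.injective _ (powers_le_nonZeroDivisors_of_noZeroDivisors hπ))
    (IsLocalization.Away.algebraMap_isUnit (π h)) hy
  obtain ⟨s, hs⟩ := (H.ft).out
  have lp : LocPres π 0 := ⟨map_zero _, hG.pp.surj, fun a ha =>
    ⟨1, by rw [map_one]; exact isUnit_one, by
      rw [hG.pp.inj (ha.trans (map_zero π).symm), mul_zero]⟩⟩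
  obtain ⟨a, f, hf, ha⟩ := spread_den lp (ι := s ⊕ (Fin n × Fin n) ⊕ (Fin n × Fin n))
    (Sum.elim (fun b => y b) (Sum.elim (fun p => S p.1 p.2) fun p => S' p.1 p.2))
  have hyf : ∀ b, y b ∈ offS πa f := by
    intro b
    have : (⊤ : Subalgebra k H.B) ≤ (offS πa f).comap y := by
      rw [← hs, Algebra.adjoin_le_iff]
      intro b hb
      exact ⟨1, a (Sum.inl ⟨b, hb⟩), by rw [pow_one]; exact ha (Sum.inl ⟨b, hb⟩)⟩
    exact this trivial
  let P : Mat n (MvPolynomial (Fin (m + 1)) V) := of fun i j => a (Sum.inr (Sum.inl (i, j)))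
  let P' : Mat n (MvPolynomial (Fin (m + 1)) V) := of fun i j => a (Sum.inr (Sum.inr (i, j)))
  have eP : P.map π = π f • S := Matrix.ext fun i j =>
    (ha (Sum.inr (Sum.inl (i, j)))).symm.trans (mul_comm _ _)
  have eP' : P'.map π = π f • S' := Matrix.ext fun i j =>
    (ha (Sum.inr (Sum.inr (i, j)))).symm.trans (mul_comm _ _)
  have hP : P * P' = (f * f * h ^ (M + M)) • (1 : Mat n _) := by
    refine Matrix.map_injective hG.pp.inj ?_
    show Matrix.map _ _ = Matrix.map _ _
    rw [Matrix.map_mul, eP, eP', smul_mul_smul_comm, hS, smul_smul]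
    ext i j
    rw [map_apply, Matrix.smul_apply, Matrix.smul_apply, smul_eq_mul, smul_eq_mul, map_mul, map_mul,
      map_mul, map_pow, one_apply, one_apply]
    split_ifs <;> simp
  obtain ⟨ht, T, _, _, l0, e0, io, μ, W, W', Z, Z', hm, hio, hel, hei, hl, hC, has, hz, hW, hZ,
    hWZ⟩ := line_data k hG (f * f) (by rw [map_mul]; exact hf.mul hf) (M + M) P P' hP
  let : Algebra k T := (io.comp (algebraMap k (OO ht))).toAlgebra
  have ek : ∀ c, algebraMap k T c = io (algebraMap B (OO ht) (algebraMap k B c)) := fun c => by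
    rw [← IsScalarTower.algebraMap_apply]
    rfl
  let ioA : OO ht →ₐ[k] T := { io with commutes' := fun _ => rfl }
  let l0A : B →ₐ[k] T := { l0 with
    commutes' := fun c => by
      show l0 _ = _
      rw [ek, ← hk, hl, hC] }
  let e0A : T →ₐ[k] B := { e0 with
    commutes' := fun c => by
      show e0 _ = _
      rw [ek, hei] }
  have hμ0 : io (μ h) ≠ 0 := fun e => hπ (by rw [← hel (π h), hl, e, map_zero])
  have hμ : μ h ≠ 0 := fun e => hμ0 (by rw [e, map_zero])
  have hfu : IsUnit (io (μ f)) := by rw [← hl]; exact hf.map l0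
  set ιT := IsScalarTower.toAlgHom k T (FractionRing T) with hιT
  have hu : IsUnit ((ιT.comp l0A) (π h)) := by
    refine IsUnit.mk0 _ fun e => hμ0 ?_
    rw [← hl]
    exact IsFractionRing.injective T (FractionRing T) (e.trans (map_zero _).symm)
  let φ : Localization.Away (π h) →ₐ[k] FractionRing T := IsLocalization.Away.liftAlgHom (π h) hu
  have hφ : ∀ b, φ (ι b) = ιT (l0 b) := fun b => IsLocalization.lift_eq _ b
  obtain ⟨yO, κ, hO, hκ⟩ := H.glue_line ioA hio (f := μ f) (h := μ h) hμ hfu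
    (fun g hg => hz g (by rw [map_mul, mul_assoc]; exact hg.mul_left _)) hW
    (by rw [hZ, map_mul]) (l0A.comp y)
    (fun b => by
      obtain ⟨j, c, e⟩ := hyf b
      refine ⟨j, μ c, ?_⟩
      show l0 (y b) * io (μ f) ^ j = io (μ c)
      rw [← hl, ← hl, ← map_pow, ← map_mul]
      exact congrArg l0 e)
    (gm φ g)
    (by
      rw [← hWZ]
      ext i j
      have e1 := congrArg φ (congrFun (congrFun hg i) j)
      rw [Matrix.smul_apply, smul_eq_mul, map_mul, map_pow, hφ, map_apply, hφ, hl] at e1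
      have e2 := congrArg (fun b => ιT (l0 b)) (congrFun (congrFun eP i) j)
      simp only [map_apply, Matrix.smul_apply, smul_eq_mul, map_mul, hl] at e2
      show (ιT (io (μ h)) ^ M * ιT (io (μ f))) * φ (g.1 i j) = ιT (io (μ (P i j)))
      rw [e2, ← e1]
      ring)
    (by
      have := H.act_map φ hgy
      rw [H.pt_map] at this
      rw [← this]
      congr 1
      exact AlgHom.ext fun b => (hφ (y b)).symm)
  have t1 : H.Triv yO := h2 B ht hm yO (H.trivOff_of_dvd has.symm.dvd hO)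
  have t2 := H.triv_map t1 ioA
  rw [← hκ] at t2
  have t3 := H.triv_map (H.triv_act κ t2) e0A
  have e : e0A.comp (l0A.comp y) = y := AlgHom.ext fun b => hel (y b)
  rwa [e] at t3

/-- Descent along an elementary etale neighbourhood. -/
theorem patch_hs {B R : Type u} [CommRing B] [Algebra k B] [CommRing R] [IsDomain R]
    [IsLocalRing R] [Algebra k R] (ψ : B →ₐ[k] R) (h : B) (hu : ¬ IsUnit (ψ h)) (h0 : ψ h ≠ 0)
    (hp : ∀ b c, ψ b ∣ ψ c → b ∣ c) (hs : ∀ r, ∃ b, ψ h ∣ r - ψ b) (y : H.B →ₐ[k] R)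
    (hy : H.TrivOff y (ψ h)) :
    ∃ (yB : H.B →ₐ[k] B) (κ : GL (Fin n) R), H.TrivOff yB h ∧ H.act κ y = ψ.comp yB := by
  have hψ : Function.Injective ψ := (injective_iff_map_eq_zero ψ).2 fun c hc =>
    zero_dvd_iff.1 (hp 0 c (by rw [hc, map_zero]))
  set ι := IsScalarTower.toAlgHom k R (Localization.Away (ψ h)) with hι
  have hi : Function.Injective ι :=
    IsLocalization.injective _ (powers_le_nonZeroDivisors_of_noZeroDivisors h0)
  have hU : IsUnit (ι (ψ h)) := IsLocalization.Away.algebraMap_isUnit (ψ h)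
  obtain ⟨M, S, S', g, hS, hg, -, hgy⟩ := H.trivOff_mat ι hi hU hy
  obtain ⟨P, P', κ, hP, hκ⟩ := patch ψ.toRingHom h hu h0 hp hs (M + M) S S' hS
  obtain ⟨g', e1, e2⟩ := exists_gl_of_mul (S := P.map (ι.comp ψ)) (S' := P'.map (ι.comp ψ))
    (hU.pow M) (hU.pow M) (by
      rw [← Matrix.map_mul, hP]
      ext i j
      rw [map_apply, Matrix.smul_apply, Matrix.smul_apply, smul_eq_mul, smul_eq_mul, map_mul,
        map_pow, pow_add, one_apply, one_apply]
      split_ifs <;> simp)
  have eg : g' = g * gm ι κ := by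
    refine Units.ext ((hU.pow M).smul_left_cancel.1 ?_)
    rw [e1, Units.val_mul, ← smul_mul_assoc, hg, gm_val, ← Matrix.map_mul]
    exact congrArg (fun X : Mat n R => X.map ι) hκ
  have ey : H.act g' (ι.comp (H.act κ⁻¹ y)) = H.pt _ := by
    rw [eg, H.act_mul, ← H.act_nat, H.act_act_inv, hgy]
  have m1 : ∀ b, ι (H.act κ⁻¹ y b) ∈ offS (ι.comp ψ) h := by
    have := H.act_sub (offS (ι.comp ψ) h) g'⁻¹ (mem_offS_of_smul _ _ M e2)
      (mem_offS_of_smul _ _ M e1) _ (H.pt_mem _)
    rwa [(H.act_eq_iff _ _ _).1 ey] at this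
  obtain ⟨yB, hyB⟩ := exists_comp_of_range ψ hψ (H.act κ⁻¹ y) fun b => by
    obtain ⟨j, a, e⟩ := m1 b
    have e' : H.act κ⁻¹ y b * ψ h ^ j = ψ a := hi (by rw [map_mul, map_pow]; exact e)
    obtain ⟨c, rfl⟩ := hp (h ^ j) a ⟨_, by rw [← e', map_pow, mul_comm]⟩
    refine ⟨c, mul_right_cancel₀ (pow_ne_zero j h0) ?_⟩
    rw [e', map_mul, map_pow, mul_comm]
  refine ⟨yB, κ⁻¹, (H.trivOff_iff (ι.comp ψ) (hi.comp hψ) hU yB).2
    ⟨g', mem_offS_of_smul _ _ M e1, mem_offS_of_smul _ _ M e2, ?_⟩, hyB.symm⟩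
  rw [← ey, ← hyB]
  rfl

/-- The constant case. -/
theorem ct [Infinite k] (h1 : H.K1P) (h2 : H.K2P) : H.CTP := by
  intro V R K _ _ _ _ _ _ _ _ _ _ _ _ d π G hP hk y hy
  have : IsDomain R := hP.isDomain
  obtain ⟨q, hq, hprim, -, hsat⟩ := pres_sat hP
  have : ValuationRing (Localization.AtPrime q) := hP.valuationRing q hprim
  let : Algebra (Localization.AtPrime q) K :=
    IsLocalization.localizationAlgebraOfSubmonoidLe _ _ q.primeCompl (nonZeroDivisors R)
      q.primeCompl_le_nonZeroDivisors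
  have : IsScalarTower R (Localization.AtPrime q) K :=
    IsLocalization.localization_isScalarTower_of_submonoid_le _ _ q.primeCompl (nonZeroDivisors R)
      q.primeCompl_le_nonZeroDivisors
  have : IsFractionRing (Localization.AtPrime q) K :=
    IsFractionRing.isFractionRing_of_isDomain_of_isLocalization q.primeCompl _ _
  have : IsScalarTower k (Localization.AtPrime q) K := IsScalarTower.of_algebraMap_eq fun c => by
    rw [IsScalarTower.algebraMap_apply k R K, IsScalarTower.algebraMap_apply k R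
      (Localization.AtPrime q), ← IsScalarTower.algebraMap_apply R (Localization.AtPrime q) K]
  have t1 := h1 (Localization.AtPrime q) K
    ((IsScalarTower.toAlgHom k R (Localization.AtPrime q)).comp y) (by
      have e : (IsScalarTower.toAlgHom k (Localization.AtPrime q) K).comp
          ((IsScalarTower.toAlgHom k R (Localization.AtPrime q)).comp y) =
          (IsScalarTower.toAlgHom k R K).comp y :=
        AlgHom.ext fun b => (IsScalarTower.algebraMap_apply R (Localization.AtPrime q) K _).symm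
      rwa [e])
  obtain ⟨F, hF, t2⟩ := H.trivOff_of_loc q.primeCompl q.primeCompl_le_nonZeroDivisors t1
  obtain ⟨a, ha, hd⟩ := hsat F hF
  have t3 := H.trivOff_of_dvd hd t2
  by_cases hu : IsUnit (π (C a))
  · exact H.triv_of_trivOff_unit hu t3
  obtain ⟨B, _, _, _, π', ψ, h0, hpp, hc, hh0, has, hpure, hsurj⟩ := lindel k hP a ha hu
  let : Algebra k B := (π'.comp (MvPolynomial.C.comp (algebraMap k V))).toAlgebra
  let ψA : B →ₐ[k] R := { ψ with commutes' := fun c => (hc _).trans (hk c) }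
  have hnu : ¬ IsUnit (ψ (π' h0)) := fun e => hu (has.isUnit e)
  have hne : ψ (π' h0) ≠ 0 := fun e => hprim a ha (by
    rw [has.eq_zero_iff.1 e]
    exact q.zero_mem)
  obtain ⟨yB, κ, t4, hκ⟩ := H.patch_hs ψA (π' h0) hnu hne hpure hsurj y
    (H.trivOff_of_dvd has.symm.dvd t3)
  obtain ⟨m, π'', h', N, hG, hC, has'⟩ := poly_good k hpp hh0 fun e => hnu (e.map ψ)
  have t5 := H.poly_case h2 hG (fun c => hC _) yB (H.trivOff_of_dvd has'.symm.dvd t4)
  have t6 := H.triv_map t5 ψA
  rw [← hκ] at t6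
  exact H.triv_act κ t6

end HS

end Pool.Agent.GR
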