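import Pool.Agent.P.MP_c1f06d_ag.r.S8Defs
import Pool.Agent.P.MP_c1f06d_ag.r.Defs

open Matrix Polynomial IsLocalRing Pool.Agent.P.MP_c1f06d_ag

universe u

namespace Pool.Agent.GR

namespace HS

variable {k : Type u} [Field k] {n : ℕ} (H : HS k n)

/-- The torsor attached to `y` is trivial where `f` is invertible. -/
def TrivOff {A : Type u} [CommRing A] [Algebra k A] (y : H.B →ₐ[k] A) (f : A) : Prop :=
  H.Triv ((IsScalarTower.toAlgHom k A (Localization.Away f)).comp y)

/-- The statement over valuation rings. -/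
def K1P : Prop :=
  ∀ (W F : Type u) [CommRing W] [IsDomain W] [ValuationRing W] [Algebra k W] [Field F]
    [Algebra k F] [Algebra W F] [IsScalarTower k W F] [IsFractionRing W F] (y : H.B →ₐ[k] W),
    H.Triv ((IsScalarTower.toAlgHom k W F).comp y) → H.Triv y

/-- The statement over the affine line. -/
def K2P : Prop :=
  ∀ (R : Type u) [CommRing R] [IsDomain R] [IsLocalRing R] [Algebra k R] (h : R[X]), h.Monic →
    ∀ y : H.B →ₐ[k] OO h, H.TrivOff y (algebraMap R[X] (OO h) h) → H.Triv y

/-- The constant case. -/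
def CTP : Prop :=
  ∀ (V R K : Type u) [CommRing V] [IsDomain V] [ValuationRing V] [Algebra k V] [CommRing R]
    [IsLocalRing R] [Algebra k R] [Field K] [Algebra k K] [Algebra R K] [IsScalarTower k R K]
    [IsFractionRing R K] (d : ℕ) (π : (MvPolynomial (Fin d) V)[X] →+* R)
    (G : (MvPolynomial (Fin d) V)[X]), Pres π G →
    (∀ c, π (C (MvPolynomial.C (algebraMap k V c))) = algebraMap k R c) →
    ∀ y : H.B →ₐ[k] R, H.Triv ((IsScalarTower.toAlgHom k R K).comp y) → H.Triv y

end HS

end Pool.Agent.GR
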