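import Pool.Agent.P.MP_c1f06d_ag.r.K2Alg

open Matrix Polynomial

universe u

namespace Pool.Agent.GR

namespace BA

variable {n : ℕ} {A A' : Type u} [CommRing A] [CommRing A']

/-- The lattice spanned by the columns of `P` and by `Hh`. -/
def lat (Hh : A[X]) (P : Mat n A[X]) : Submodule A[X] (Fin n → A[X]) where
  carrier := {v | ∃ η θ : Fin n → A[X], v = P *ᵥ η + Hh • θ}
  zero_mem' := ⟨0, 0, by simp⟩
  add_mem' := by
    rintro _ _ ⟨η, θ, rfl⟩ ⟨η', θ', rfl⟩
    exact ⟨η + η', θ + θ', by rw [mulVec_add, smul_add]; abel⟩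
  smul_mem' := by
    rintro c _ ⟨η, θ, rfl⟩
    exact ⟨c • η, c • θ, by rw [mulVec_smul, smul_add, smul_comm c Hh]⟩

variable {Hh : A[X]} {P : Mat n A[X]} {ι ι' : Type} [Fintype ι] [Fintype ι']
  {q : ι → Fin n → A[X]} {q' : ι' → Fin n → A[X]} {ζ : Mat n A} {Z : Matrix ι ι A}

theorem mem_lat {v : Fin n → A[X]} : v ∈ lat Hh P ↔ ∃ η θ, v = P *ᵥ η + Hh • θ := Iff.rfl

theorem lat_smul (a : A) {v : Fin n → A[X]} (h : v ∈ lat Hh P) : a • v ∈ lat Hh P :=
  Submodule.smul_of_tower_mem _ a h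

theorem sub_mem_iff {v w : Fin n → A[X]} :
    v - w ∈ lat Hh P ↔ ∃ η θ, v = w + P *ᵥ η + Hh • θ := by
  simp only [mem_lat, sub_eq_iff_eq_add', add_assoc]

theorem isBas_iff : IsBas Hh P q ↔ (∀ v, ∃ t : ι → A, v - ∑ j, t j • q j ∈ lat Hh P) ∧
    ∀ t : ι → A, ∑ j, t j • q j ∈ lat Hh P → t = 0 := by
  refine and_congr (by simp only [sub_mem_iff]) (forall_congr' fun t => ⟨?_, ?_⟩)
  · rintro h ⟨η, θ, e⟩
    exact h (-η) (-θ) (by rw [e, mulVec_neg, smul_neg]; abel)
  · intro h η θ e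
    refine h ⟨-η, -θ, ?_⟩
    rw [mulVec_neg, smul_neg, ← neg_add, eq_neg_iff_add_eq_zero, ← add_assoc, e]

theorem sum_mulVec' (U : Matrix ι' ι A) (t : ι → A) :
    ∑ i, (U *ᵥ t) i • q' i = ∑ j, t j • ∑ i, U i j • q' i := by
  simp only [mulVec, dotProduct, Finset.sum_smul, Finset.smul_sum, smul_smul]
  rw [Finset.sum_comm]
  simp only [mul_comm]

theorem trans_mem {U : Matrix ι' ι A} {z : ι → Fin n → A[X]}
    (h : ∀ j, z j - ∑ i, U i j • q' i ∈ lat Hh P) (t : ι → A) :
    ∑ j, t j • z j - ∑ i, (U *ᵥ t) i • q' i ∈ lat Hh P := by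
  rw [sum_mulVec', ← Finset.sum_sub_distrib]
  refine Submodule.sum_mem _ fun j _ => ?_
  rw [← smul_sub]
  exact lat_smul _ (h j)

theorem mulVec_comb (M : Mat n A[X]) (t : ι → A) :
    M *ᵥ ∑ j, t j • q j = ∑ j, t j • M *ᵥ q j := by
  rw [mulVec_sum]
  simp only [mulVec_smul]

theorem rep_mem (h : Rep Hh P q ζ Z) (t : ι → A) :
    ζ.map C *ᵥ ∑ j, t j • q j - ∑ i, (Z *ᵥ t) i • q i ∈ lat Hh P := by
  rw [mulVec_comb]
  exact trans_mem (fun j => sub_mem_iff.2 (h j)) t

theorem keeps_mem (hk : Keeps Hh P ζ) {v : Fin n → A[X]} (h : v ∈ lat Hh P) :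
    ζ.map C *ᵥ v ∈ lat Hh P := by
  obtain ⟨ζ', θ', e⟩ := hk
  obtain ⟨η, θ, rfl⟩ := h
  refine ⟨ζ' *ᵥ η, θ' *ᵥ η + ζ.map C *ᵥ θ, ?_⟩
  rw [mulVec_add, mulVec_mulVec, e, add_mulVec, smul_mulVec, mulVec_mulVec, mulVec_smul, smul_add,
    add_assoc]

theorem eq_of_mem (hb : IsBas Hh P q) {t t' : ι → A}
    (h : ∑ j, t j • q j - ∑ j, t' j • q j ∈ lat Hh P) : t = t' := by
  rw [← sub_eq_zero]
  refine (isBas_iff.1 hb).2 _ ?_
  simpa only [Pi.sub_apply, sub_smul, Finset.sum_sub_distrib] using h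

omit [Fintype ι'] in
theorem mat_ext [DecidableEq ι] {M N : Matrix ι' ι A} (h : ∀ t, M *ᵥ t = N *ᵥ t) : M = N :=
  toLin'.injective (LinearMap.ext h)

theorem map_mulVec (φ : A →+* A') (M : Mat n A[X]) (v : Fin n → A[X]) (i : Fin n) :
    ((M *ᵥ v) i).map φ = (M.map (Polynomial.map φ) *ᵥ fun l => (v l).map φ) i := by
  simp [mulVec, dotProduct, Polynomial.map_sum]

theorem map_C_map (φ : A →+* A') (ζ : Mat n A) :
    (ζ.map C).map (Polynomial.map φ) = (ζ.map φ).map C := by
  ext i j : 1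
  simp

end BA

open BA

section ring

variable {n : ℕ} {A A' : Type u} [CommRing A] [CommRing A'] {Hh : A[X]} {P : Mat n A[X]}
  {ι ι' : Type} [Fintype ι] [Fintype ι'] [DecidableEq ι] [DecidableEq ι'] {q : ι → Fin n → A[X]}
  {q' : ι' → Fin n → A[X]} {ζ : Mat n A} {Z : Matrix ι ι A} {Z' : Matrix ι' ι' A}

omit [DecidableEq ι] in
theorem IsBas.exists_rep (h : IsBas Hh P q) (ζ : Mat n A) : ∃ Z, Rep Hh P q ζ Z := by
  choose t ht using fun j => h.1 (ζ.map C *ᵥ q j)
  exact ⟨of fun i j => t j i, ht⟩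

omit [DecidableEq ι] in
theorem Rep.map (h : Rep Hh P q ζ Z) (φ : A →+* A') :
    Rep (Hh.map φ) (P.map (Polynomial.map φ)) (fun j i => (q j i).map φ) (ζ.map φ) (Z.map φ) := by
  intro j
  obtain ⟨η, θ, e⟩ := h j
  refine ⟨fun i => (η i).map φ, fun i => (θ i).map φ, funext fun l => ?_⟩
  have := congrArg (Polynomial.map φ) (congrFun e l)
  rw [map_mulVec, map_C_map] at this
  rw [this]
  simp only [Pi.add_apply, Polynomial.map_add, map_mulVec, Finset.sum_apply, Pi.smul_apply,
    Polynomial.map_sum, Polynomial.map_smul, smul_eq_mul, Polynomial.map_mul, Matrix.map_apply]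

theorem Keeps.map (h : Keeps Hh P ζ) (φ : A →+* A') :
    Keeps (Hh.map φ) (P.map (Polynomial.map φ)) (ζ.map φ) := by
  obtain ⟨ζ', θ, e⟩ := h
  refine ⟨ζ'.map (Polynomial.map φ), θ.map (Polynomial.map φ), ?_⟩
  rw [← map_C_map]
  ext i j : 1
  have := congrArg (Polynomial.map φ) (congrFun (congrFun e i) j)
  simpa [Matrix.mul_apply, Polynomial.map_sum] using this

theorem Rep.aeval_eq_zero (hb : IsBas Hh P q) (hk : Keeps Hh P ζ) (h : Rep Hh P q ζ Z) {p : A[X]}
    (hp : aeval ζ p = 0) : aeval Z p = 0 := by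
  have key : ∀ (p : A[X]) (t : ι → A),
      (aeval ζ p).map C *ᵥ ∑ j, t j • q j - ∑ i, (aeval Z p *ᵥ t) i • q i ∈ lat Hh P := by
    intro p
    induction p using Polynomial.recOnHorner with
    | M0 => intro t; simp
    | MC p a _ _ ih =>
      intro t
      have e1 : (algebraMap A (Mat n A) a).map C *ᵥ ∑ j, t j • q j =
          ∑ i, (algebraMap A (Matrix ι ι A) a *ᵥ t) i • q i := by
        rw [Algebra.algebraMap_eq_smul_one, Algebra.algebraMap_eq_smul_one, smul_mulVec, one_mulVec,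
          Matrix.map_smul' _ _ _ (map_mul C), Matrix.map_one _ (map_zero C) (map_one C),
          smul_mulVec, one_mulVec, Finset.smul_sum]
        refine Finset.sum_congr rfl fun j _ => funext fun l => ?_
        simp [smul_eq_C_mul, mul_assoc]
      rw [map_add, map_add, aeval_C, aeval_C, Matrix.map_add _ (map_add C), add_mulVec, add_mulVec,
        e1]
      simpa only [Pi.add_apply, add_smul, Finset.sum_add_distrib, add_sub_add_right_eq_sub]
        using ih t
    | MX p _ ih =>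
      intro t
      rw [mul_comm p X, map_mul, map_mul, aeval_X, aeval_X, Matrix.map_mul, ← mulVec_mulVec,
        ← mulVec_mulVec]
      have h1 := Submodule.add_mem _ (keeps_mem hk (ih t)) (rep_mem h (aeval Z p *ᵥ t))
      rwa [mulVec_sub, sub_add_sub_cancel] at h1
  refine mat_ext fun t => ?_
  have h1 := Submodule.neg_mem _ (key p t)
  rw [hp, Matrix.map_zero _ (map_zero C), zero_mulVec, zero_sub, neg_neg] at h1
  rw [zero_mulVec]
  exact (isBas_iff.1 hb).2 _ h1

/-- Two bases give the same characteristic polynomial. -/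
theorem Rep.charpoly_eq [Nontrivial A] (hb : IsBas Hh P q) (hb' : IsBas Hh P q')
    (hk : Keeps Hh P ζ) (h : Rep Hh P q ζ Z) (h' : Rep Hh P q' ζ Z') :
    Z.charpoly = Z'.charpoly := by
  choose U hU using fun j => (isBas_iff.1 hb').1 (q j)
  choose V hV using fun j => (isBas_iff.1 hb).1 (q' j)
  have hU' := trans_mem (U := of fun i j => U j i) hU
  have hV' := trans_mem (U := of fun i j => V j i) hV
  set U' : Matrix ι' ι A := of fun i j => U j i
  set V' : Matrix ι ι' A := of fun i j => V j i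
  have e1 : V' * U' = 1 := mat_ext fun t => by
    rw [one_mulVec, ← mulVec_mulVec]
    refine (eq_of_mem hb ?_).symm
    simpa only [sub_add_sub_cancel] using Submodule.add_mem _ (hU' t) (hV' (U' *ᵥ t))
  have e2 : U' * V' = 1 := mat_ext fun t => by
    rw [one_mulVec, ← mulVec_mulVec]
    refine (eq_of_mem hb' ?_).symm
    simpa only [sub_add_sub_cancel] using Submodule.add_mem _ (hV' t) (hU' (V' *ᵥ t))
  have e3 : U' * Z = Z' * U' := mat_ext fun t => by
    rw [← mulVec_mulVec, ← mulVec_mulVec]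
    refine eq_of_mem hb' ?_
    have h1 := Submodule.sub_mem _ (Submodule.add_mem _ (keeps_mem hk (hU' t))
      (rep_mem h' (U' *ᵥ t))) (Submodule.add_mem _ (rep_mem h t) (hU' (Z *ᵥ t)))
    rw [mulVec_sub, sub_add_sub_cancel, sub_add_sub_cancel, sub_sub_sub_cancel_left] at h1
    exact h1
  rw [← charpoly_toLin' Z, ← charpoly_toLin' Z',
    ← LinearEquiv.charpoly_conj (toLin'OfInv e1 e2) (toLin' Z)]
  congr 1
  refine LinearMap.ext fun t => ?_
  show U' *ᵥ (Z *ᵥ (V' *ᵥ t)) = Z' *ᵥ t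
  rw [mulVec_mulVec, mulVec_mulVec, e3, Matrix.mul_assoc, e2, Matrix.mul_one]

end ring

namespace BA

variable {n : ℕ} {A A' : Type u} [CommRing A] [CommRing A']

/-- The monomial vectors. -/
noncomputable def mon (A : Type u) [CommRing A] {D : ℕ} (a : Fin n × Fin D) : Fin n → A[X] :=
  Pi.single a.1 (X ^ (a.2 : ℕ))

theorem mon_map (φ : A →+* A') {D : ℕ} (a : Fin n × Fin D) (i : Fin n) :
    (mon A a i).map φ = mon A' a i := by
  simp only [mon, Pi.single_apply]
  split_ifs <;> simp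

theorem exists_mon [Nontrivial A] {Hh : A[X]} (hm : Hh.Monic) {D : ℕ} (hD : Hh.natDegree = D)
    (v : Fin n → A[X]) : ∃ (t : Fin n × Fin D → A) (θ : Fin n → A[X]),
      v = ∑ a, t a • mon A a + Hh • θ := by
  refine ⟨fun a => (v a.1 %ₘ Hh).coeff a.2, fun i => v i /ₘ Hh, funext fun i => ?_⟩
  have h0 : (v i %ₘ Hh).degree < (D : WithBot ℕ) := by
    rw [← hD, ← degree_eq_natDegree hm.ne_zero]
    exact degree_modByMonic_lt _ hm
  have h1 := sum_fin (fun j a => C a * X ^ j) (by simp) h0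
  rw [sum_C_mul_X_pow_eq] at h1
  rw [Pi.add_apply, Finset.sum_apply, Fintype.sum_prod_type, Finset.sum_eq_single i]
  · simp only [mon, Pi.smul_apply, Pi.single_eq_same, smul_eq_C_mul, smul_eq_mul, h1]
    exact (modByMonic_add_div _ _).symm
  · intro l _ hl
    simp [mon, Pi.single_eq_of_ne hl.symm]
  · simp

end BA

/-- BAS. -/
theorem exists_bas {n : ℕ} {R Om : Type u} [CommRing R] [IsLocalRing R] [Field Om]
    (φ : R →+* Om) (hφ : ∀ r, φ r ≠ 0 → IsUnit r) {Hh f : R[X]} (hm : Hh.Monic)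
    (hf : IsCoprime f Hh) {P₁ P₂ : Mat n R[X]} (h12 : P₁ * P₂ = (f * Hh) • (1 : Mat n R[X]))
    (h21 : P₂ * P₁ = (f * Hh) • (1 : Mat n R[X])) :
    ∃ (ρ : ℕ) (q : Fin ρ → Fin n → R[X]), IsBas Hh P₁ q ∧
      IsBas (Hh.map φ) (P₁.map (Polynomial.map φ)) fun j i => (q j i).map φ := by
  classical
  have hm' := hm.map φ
  have hd' := hm.natDegree_map φ
  let L : Submodule Om (Fin n → Om[X]) :=
    (lat (Hh.map φ) (P₁.map (Polynomial.map φ))).restrictScalars Om
  obtain ⟨κ, a, ha, hsp, hli⟩ := exists_linearIndependent' Om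
    (fun b : Fin n × Fin Hh.natDegree => L.mkQ (mon Om b))
  have : Finite κ := Finite.of_injective a ha
  obtain ⟨ρ, ⟨ε⟩⟩ := Finite.exists_equiv_fin κ
  let q : Fin ρ → Fin n → R[X] := fun j => mon R (a (ε.symm j))
  have hq : (fun j i => (q j i).map φ) = fun j => mon Om (a (ε.symm j)) :=
    funext fun j => funext fun i => mon_map φ _ i
  have hO : IsBas (Hh.map φ) (P₁.map (Polynomial.map φ)) fun j i => (q j i).map φ := by
    rw [hq, isBas_iff]
    refine ⟨fun v => ?_, fun t ht => ?_⟩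
    · obtain ⟨t, θ, e⟩ := exists_mon hm' hd' v
      have h1 : L.mkQ v ∈ Submodule.span Om
          (Set.range fun j => L.mkQ (mon Om (a (ε.symm j)))) := by
        have h2 : (Set.range fun j => L.mkQ (mon Om (a (ε.symm j)))) =
            Set.range ((fun b : Fin n × Fin Hh.natDegree => L.mkQ (mon Om b)) ∘ a) :=
          ε.symm.surjective.range_comp
            ((fun b : Fin n × Fin Hh.natDegree => L.mkQ (mon Om b)) ∘ a)
        have h3 : L.mkQ (Hh.map φ • θ) = 0 :=
          (Submodule.Quotient.mk_eq_zero L).2 ⟨0, θ, by simp⟩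
        rw [h2, hsp, e, map_add, h3, add_zero, map_sum]
        refine Submodule.sum_mem _ fun b _ => ?_
        rw [map_smul]
        exact Submodule.smul_mem _ _ (Submodule.subset_span ⟨b, rfl⟩)
      obtain ⟨c, hc⟩ := (Submodule.mem_span_range_iff_exists_fun Om).1 h1
      refine ⟨c, (Submodule.Quotient.eq L).1 ?_⟩
      show L.mkQ v = L.mkQ _
      rw [← hc, map_sum]
      simp only [map_smul]
    · have h1 := Fintype.linearIndependent_iff.1 (hli.comp ε.symm ε.symm.injective) t (by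
        have h2 : L.mkQ (∑ j, t j • mon Om (a (ε.symm j))) = 0 :=
          (Submodule.Quotient.mk_eq_zero L).2 ht
        rw [map_sum] at h2
        simpa only [map_smul, Function.comp_apply] using h2)
      exact funext h1
  refine ⟨ρ, q, ⟨fun v => ?_, fun t η θ e => ?_⟩, hO⟩
  · obtain ⟨t, ht⟩ := span_of_res φ hφ hm
      (Sum.elim q fun b : Fin n × Fin Hh.natDegree => P₁ *ᵥ mon R b) (fun y => by
        obtain ⟨t, η, θ, e⟩ := hO.1 y
        obtain ⟨s, θ', e'⟩ := exists_mon hm' hd' η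
        refine ⟨Sum.elim t s, fun i =>
          ⟨(P₁.map (Polynomial.map φ) *ᵥ θ') i + θ i, ?_⟩⟩
        rw [e', mulVec_add, mulVec_comb, mulVec_smul] at e
        have h1 := congrFun e i
        simp only [Pi.add_apply, Finset.sum_apply, Pi.smul_apply, smul_eq_mul] at h1
        simp only [Fintype.sum_sum_type, Sum.elim_inl, Sum.elim_inr, map_mulVec, mon_map]
        rw [h1]
        ring) v
    choose θ hθ using ht
    refine ⟨fun j => t (.inl j), ∑ b, t (.inr b) • mon R b, θ, funext fun i => ?_⟩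
    have h1 := hθ i
    rw [mulVec_comb]
    simp only [Fintype.sum_sum_type, Sum.elim_inl, Sum.elim_inr] at h1
    simp only [Pi.add_apply, Finset.sum_apply, Pi.smul_apply, smul_eq_mul]
    rw [← h1]
    ring
  · refine indep_of_res φ hφ hm (fun j => P₂ *ᵥ q j) (fun s hs => ?_) t fun i => ?_
    · choose z hz using hs
      have h1 : P₂.map (Polynomial.map φ) *ᵥ ∑ j, s j • (fun i => (q j i).map φ) =
          Hh.map φ • z := by
        rw [mulVec_comb]
        funext i
        simpa only [map_mulVec, Finset.sum_apply, Pi.smul_apply, smul_eq_mul] using hz i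
      have h2 : P₁.map (Polynomial.map φ) * P₂.map (Polynomial.map φ) =
          (f.map φ * Hh.map φ) • (1 : Mat n Om[X]) := by
        ext i j : 1
        have := congrArg (Polynomial.map φ) (congrFun (congrFun h12 i) j)
        simpa [Matrix.mul_apply, Polynomial.map_sum, Matrix.one_apply,
          apply_ite (Polynomial.map φ)] using this
      have h3 := congrArg (P₁.map (Polynomial.map φ) *ᵥ ·) h1
      simp only [mulVec_mulVec, h2, smul_mulVec, one_mulVec, mulVec_smul] at h3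
      set w := ∑ j, s j • fun i => (q j i).map φ
      have h4 : f.map φ • w = P₁.map (Polynomial.map φ) *ᵥ z := funext fun i => by
        have h5 := congrFun h3 i
        simp only [Pi.smul_apply, smul_eq_mul] at h5 ⊢
        refine mul_left_cancel₀ hm'.ne_zero ?_
        rw [← h5]
        ring
      obtain ⟨c, d, hcd⟩ := hf.map (mapRingHom φ)
      refine (isBas_iff.1 hO).2 s ⟨c • z, d • w, ?_⟩
      rw [mulVec_smul, ← h4, smul_smul, smul_smul, ← add_smul, mul_comm _ d]
      exact ((congrArg (· • w) hcd).trans (one_smul _ w)).symm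
    · have h1 := congrFun (congrArg (P₂ *ᵥ ·) e) i
      simp only [mulVec_add, mulVec_comb, mulVec_mulVec, h21, smul_mulVec, one_mulVec, mulVec_smul,
        mulVec_zero, Pi.add_apply, Finset.sum_apply, Pi.smul_apply, smul_eq_mul,
        Pi.zero_apply] at h1
      refine ⟨-(f * η i) - (P₂ *ᵥ θ) i, ?_⟩
      linear_combination h1

end Pool.Agent.GR
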