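import Pool.Agent.P.MP_c1f06d_ag.r.K2Defs
import Pool.Agent.P.MP_c1f06d_ag.r.Inf

open Matrix Polynomial

universe u

namespace Pool.Agent.GR

section maps

variable {k : Type u} [Field k] {A A' : Type u} [CommRing A] [Algebra k A] [CommRing A']
  [Algebra k A']

theorem red_surj (h : A[X]) (N : ℕ) : Function.Surjective (red k h N) := by
  intro z
  obtain ⟨p, rfl⟩ := AdjoinRoot.mk_surjective z
  exact ⟨_, red_alg k h N p⟩

theorem red_eq_zero (h : A[X]) (N : ℕ) (x : OO h) (hx : red k h N x = 0) :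
    algebraMap A[X] (OO h) h ^ N ∣ x := by
  obtain ⟨⟨p, s⟩, e⟩ := IsLocalization.surj (copr h) x
  have e1 := congrArg (red k h N) e
  rw [map_mul, hx, zero_mul, red_alg, eq_comm, AdjoinRoot.mk_eq_zero] at e1
  rw [← (IsLocalization.map_units (OO h) s).dvd_mul_right, e, ← map_pow]
  exact map_dvd _ e1

/-- `h` is in the radical of `OO h`. -/
theorem isUnit_of_red (h : A[X]) (N : ℕ) (hN : 0 < N) (x : OO h) (hx : IsUnit (red k h N x)) :
    IsUnit x := by
  obtain ⟨⟨p, s⟩, e⟩ := IsLocalization.surj (copr h) x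
  have e1 := congrArg (red k h N) e
  rw [map_mul, red_alg k h N p] at e1
  have hu : IsUnit (AdjoinRoot.mk (h ^ N) p) :=
    e1 ▸ hx.mul ((IsLocalization.map_units (OO h) s).map _)
  obtain ⟨z, hz⟩ := hu.exists_left_inv
  obtain ⟨q, rfl⟩ := AdjoinRoot.mk_surjective z
  rw [← map_mul, ← map_one (AdjoinRoot.mk (h ^ N)), AdjoinRoot.mk_eq_mk] at hz
  obtain ⟨c, hc⟩ := hz
  have hp : IsCoprime p h := (IsCoprime.pow_right_iff hN).1 ⟨q, -c, by linear_combination hc⟩
  have := IsLocalization.map_units (OO h) (⟨p, hp⟩ : copr h)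
  exact isUnit_of_mul_isUnit_left (e ▸ this)

theorem toH_alg (h p : A[X]) : toH k h (algebraMap A[X] (OO h) p) = algebraMap A[X] (OOh h) p :=
  rfl

theorem toH_inj {h : A[X]} (hm : h.Monic) : Function.Injective (toH k h) := by
  refine IsLocalization.injective (M := Submonoid.powers (algebraMap A[X] (OO h) h)) (OOh h) ?_
  rw [Submonoid.powers_le]
  exact IsLocalization.nonZeroDivisors_le_comap (copr h) (OO h) hm.mem_nonZeroDivisors

theorem oo_inj [IsDomain A] {h : A[X]} (hu : ¬ IsUnit h) :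
    Function.Injective (algebraMap A[X] (OO h)) := by
  refine IsLocalization.injective (M := copr h) (OO h) fun s hs => mem_nonZeroDivisors_of_ne_zero ?_
  rintro rfl
  exact hu (isCoprime_zero_left.1 hs)

/-- A `k`-algebra map `θ` on polynomials with `h' ∣ θ h` extends to the semilocal rings. -/
theorem exists_ooMap (θ : A[X] →ₐ[k] A'[X]) (h : A[X]) (h' : A'[X]) (hd : h' ∣ θ h) :
    ∃ Θ : OO h →ₐ[k] OO h', ∀ p, Θ (algebraMap A[X] (OO h) p) = algebraMap A'[X] (OO h') (θ p) := by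
  have hu : ∀ s : copr h,
      IsUnit (((IsScalarTower.toAlgHom k A'[X] (OO h')).comp θ) (s : A[X])) := fun s =>
    IsLocalization.map_units (OO h')
      (⟨θ s, (IsCoprime.map s.2 (θ : A[X] →+* A'[X])).of_isCoprime_of_dvd_right hd⟩ : copr h')
  exact ⟨IsLocalization.liftAlgHom (M := copr h) hu, fun p => IsLocalization.lift_eq _ p⟩

/-- A map on `OO h` that makes `h` a unit extends to the punctured ring. -/
theorem exists_ohMap {h : A[X]} (Θ : OO h →ₐ[k] A') (hu : IsUnit (Θ (algebraMap A[X] (OO h) h))) :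
    ∃ Θ' : OOh h →ₐ[k] A', Θ'.comp (toH k h) = Θ :=
  ⟨IsLocalization.Away.liftAlgHom (S := OOh h) (algebraMap A[X] (OO h) h) (f := Θ) hu,
    AlgHom.ext fun x => IsLocalization.Away.lift_eq _ hu x⟩

theorem isUnit_oh (h : A[X]) : IsUnit (algebraMap A[X] (OOh h) h) :=
  IsLocalization.Away.algebraMap_isUnit (S := OOh h) (algebraMap A[X] (OO h) h)

namespace K2M

variable (k) in
/-- The universal point of `GL_n`. -/
noncomputable def ug (n : ℕ) : GL (Fin n) (OGL k n) :=
  GeneralLinearGroup.mk'' ((mvPolynomialX (Fin n) (Fin n) k).map (algebraMap _ (OGL k n))) (by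
    have h := IsLocalization.Away.algebraMap_isUnit (S := OGL k n)
      (mvPolynomialX (Fin n) (Fin n) k).det
    rwa [RingHom.map_det] at h)

theorem gm_ev_ug {n : ℕ} (g : GL (Fin n) A) : gm (ev k g) (ug k n) = g := by
  refine Units.ext (Matrix.ext fun i j => ?_)
  refine (IsLocalization.Away.lift_eq _ (isUnit_aeval_det k g) (MvPolynomial.X (i, j))).trans ?_
  exact MvPolynomial.aeval_X _ _

theorem map_mul' {n : ℕ} (f : A →ₐ[k] A') (Y Z : Mat n A) : (Y * Z).map f = Y.map f * Z.map f :=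
  Matrix.map_mul (f := (f : A →+* A'))

theorem map_alg {n : ℕ} (f : A →ₐ[k] A') (ζ : Mat n k) :
    (ζ.map (algebraMap k A)).map f = ζ.map (algebraMap k A') :=
  Matrix.ext fun _ _ => f.commutes _

end K2M

end maps

namespace HS

variable {k : Type u} [Field k] {n : ℕ} (H : HS k n) {A A' : Type u} [CommRing A] [Algebra k A]
  [CommRing A'] [Algebra k A']

/-- The conjugates of a centralising matrix are functions on the homogeneous space. -/
theorem Cent.exists_fun {H : HS k n} {ζ : Mat n k} (hζ : H.Cent ζ) :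
    ∃ b : Fin n → Fin n → H.B, ∀ (A : Type u) [CommRing A] [Algebra k A] (g : GL (Fin n) A),
      (of fun i j => H.act g (H.pt A) (b i j)) =
        (g : Mat n A) * ζ.map (algebraMap k A) * ((g⁻¹ : GL (Fin n) A) : Mat n A) := by
  let F : Mat n (OGL k n) := (K2M.ug k n : Mat n _) * ζ.map (algebraMap k _) *
    (((K2M.ug k n)⁻¹ : GL (Fin n) _) : Mat n _)
  have hF : ∀ (A : Type u) [CommRing A] [Algebra k A] (g : GL (Fin n) A), F.map (ev k g) =
      (g : Mat n A) * ζ.map (algebraMap k A) * ((g⁻¹ : GL (Fin n) A) : Mat n A) := by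
    intro A _ _ g
    rw [K2M.map_mul', K2M.map_mul', K2M.map_alg, ← gm_val, ← gm_inv_val, K2M.gm_ev_ug]
  have : ∀ i j, ∃ b : H.B, ∀ (A : Type u) [CommRing A] [Algebra k A] (g : GL (Fin n) A),
      H.act g (H.pt A) b = ev k g (F i j) := fun i j => H.t4 (F i j) fun A _ _ g g' hg' => by
    show F.map (ev k (g * g')) i j = F.map (ev k g) i j
    rw [hF, hF, Units.val_mul, _root_.mul_inv_rev, Units.val_mul, mul_assoc (g : Mat n A),
      (hζ A g' hg').eq]
    simp only [mul_assoc, Units.mul_inv_cancel_left]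
  choose b hb using this
  exact ⟨b, fun A _ _ g => (Matrix.ext fun i j => hb i j A g).trans (hF A g)⟩

/-- Clear denominators: multiply `ψ` by a scalar `f₀` coprime to `h`, and replace `y` by
`f₀⁻¹ • y`. If `h` is a unit `OO h` is the zero ring. -/
theorem exists_mod [IsDomain A] {h : A[X]} (hm : h.Monic) (y : H.B →ₐ[k] OO h)
    (ψ : GL (Fin n) (OOh h)) (hψ : H.act ψ ((toH k h).comp y) = H.pt (OOh h)) :
    H.Triv y ∨ ∃ (M : ℕ) (P₁ P₂ : Mat n A[X]) (f : A[X]) (y' : H.B →ₐ[k] OO h),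
      H.Mod h M P₁ P₂ f y' ∧ (H.Triv y' → H.Triv y) := by
  by_cases hu : IsUnit h
  · have : Subsingleton (OO h) :=
      IsLocalization.subsingleton (M := copr h) (isCoprime_zero_left.2 hu)
    exact Or.inl ⟨1, AlgHom.ext fun _ => Subsingleton.elim _ _⟩
  right
  have inj : Function.Injective (algebraMap A[X] (OOh h)) := (toH_inj (k := k) hm).comp (oo_inj hu)
  let F : Bool × Fin n × Fin n → OOh h := fun p =>
    if p.1 then (ψ : Mat n (OOh h)) p.2.1 p.2.2 else ((ψ⁻¹ : GL (Fin n) _) : Mat n (OOh h)) p.2.1 p.2.2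
  obtain ⟨⟨_, M, rfl⟩, hQ⟩ := IsLocalization.exist_integer_multiples_of_finite
    (Submonoid.powers (algebraMap A[X] (OO h) h)) F
  choose Q hQ using hQ
  obtain ⟨s, hP⟩ := IsLocalization.exist_integer_multiples_of_finite (copr h) Q
  choose P hP using hP
  have key : ∀ p, algebraMap A[X] (OOh h) (h * P p) =
      algebraMap A[X] (OOh h) h ^ (M + 1) * (algebraMap A[X] (OOh h) s * F p) := fun p => by
    have e1 := congrArg (algebraMap (OO h) (OOh h)) (hP p)
    rw [Algebra.smul_def, map_mul, hQ p, Algebra.smul_def, map_pow,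
      ← IsScalarTower.algebraMap_apply, ← IsScalarTower.algebraMap_apply,
      ← IsScalarTower.algebraMap_apply] at e1
    rw [map_mul, e1]
    ring
  obtain ⟨v, hv⟩ := IsLocalization.map_units (OO h) s
  have e1 : (of fun i j => h * P (true, i, j) : Mat n A[X]).map (algebraMap A[X] (OOh h)) =
      (algebraMap A[X] (OOh h) h ^ (M + 1) * algebraMap A[X] (OOh h) s) • (ψ : Mat n (OOh h)) :=
    Matrix.ext fun i j => (key (true, i, j)).trans (mul_assoc _ _ _).symm
  have e2 : (of fun i j => h * P (false, i, j) : Mat n A[X]).map (algebraMap A[X] (OOh h)) =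
      (algebraMap A[X] (OOh h) h ^ (M + 1) * algebraMap A[X] (OOh h) s) •
        ((ψ⁻¹ : GL (Fin n) _) : Mat n (OOh h)) :=
    Matrix.ext fun i j => (key (false, i, j)).trans (mul_assoc _ _ _).symm
  have e3 : (((s : A[X]) ^ 2 * h ^ (2 * (M + 1))) • (1 : Mat n A[X])).map
      (algebraMap A[X] (OOh h)) =
      ((algebraMap A[X] (OOh h) h ^ (M + 1) * algebraMap A[X] (OOh h) s) *
        (algebraMap A[X] (OOh h) h ^ (M + 1) * algebraMap A[X] (OOh h) s)) • 1 := by
    ext i j
    rw [map_apply, Matrix.smul_apply, Matrix.smul_apply, smul_eq_mul, smul_eq_mul, one_apply,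
      one_apply]
    split_ifs
    · simp only [map_mul, map_pow, map_one]
      ring
    · simp only [mul_zero, map_zero]
  refine ⟨M + 1, of fun i j => h * P (true, i, j), of fun i j => h * P (false, i, j),
    (s : A[X]) ^ 2, H.act (GeneralLinearGroup.scalar (Fin n) v)⁻¹ y,
    ⟨M.succ_pos, IsCoprime.pow_left s.2, Matrix.map_injective inj ?_, Matrix.map_injective inj ?_,
      ψ * gm (toH k h) (GeneralLinearGroup.scalar (Fin n) v), ?_, ?_⟩, fun ⟨g, hg⟩ => ?_⟩
  · show Matrix.map _ _ = Matrix.map _ _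
    rw [Matrix.map_mul, e1, e2, e3, Matrix.smul_mul, Matrix.mul_smul, Units.mul_inv, smul_smul]
  · show Matrix.map _ _ = Matrix.map _ _
    rw [Matrix.map_mul, e1, e2, e3, Matrix.smul_mul, Matrix.mul_smul, Units.inv_mul, smul_smul]
  · rw [e1, mul_smul, Units.val_mul, gm_val, GeneralLinearGroup.coe_scalar, scalar_apply,
      diagonal_map (map_zero _), hv]
    refine congrArg _ (Matrix.ext fun i j => ?_)
    rw [mul_diagonal, Matrix.smul_apply, smul_eq_mul, mul_comm, toH_alg]
  · rw [H.act_nat, ← H.act_mul, map_inv, mul_inv_cancel_right, hψ]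
  · exact ⟨g * (GeneralLinearGroup.scalar (Fin n) v)⁻¹, by rw [H.act_mul, hg]⟩

variable {H}

theorem Mod.map {h : A[X]} {M : ℕ} {P₁ P₂ : Mat n A[X]} {f : A[X]} {y : H.B →ₐ[k] OO h}
    (hM : H.Mod h M P₁ P₂ f y) (φ : A →ₐ[k] A') : ∃ y' : H.B →ₐ[k] OO (h.map (φ : A →+* A')),
      H.Mod (h.map (φ : A →+* A')) M (P₁.map (Polynomial.map (φ : A →+* A')))
        (P₂.map (Polynomial.map (φ : A →+* A'))) (f.map (φ : A →+* A')) y' := by
  obtain ⟨Θ, hΘ⟩ := exists_ooMap (Polynomial.mapAlgHom φ) h (h.map (φ : A →+* A')) dvd_rfl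
  obtain ⟨Θ', hΘ'⟩ := exists_ohMap ((toH k (h.map (φ : A →+* A'))).comp Θ) (by
    rw [AlgHom.comp_apply, hΘ]
    exact isUnit_oh _)
  have e : ∀ p, Θ' (algebraMap A[X] (OOh h) p) =
      algebraMap A'[X] (OOh (h.map (φ : A →+* A'))) (p.map (φ : A →+* A')) := fun p => by
    have := AlgHom.congr_fun hΘ' (algebraMap A[X] (OO h) p)
    rw [AlgHom.comp_apply, AlgHom.comp_apply, hΘ] at this
    exact this
  have m : ∀ {P Q : Mat n A[X]}, P * Q = (f * h ^ (2 * M)) • (1 : Mat n A[X]) →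
      P.map (Polynomial.map (φ : A →+* A')) * Q.map (Polynomial.map (φ : A →+* A')) =
        (f.map (φ : A →+* A') * h.map (φ : A →+* A') ^ (2 * M)) • (1 : Mat n A'[X]) := by
    intro P Q e
    have := congrArg (mapRingHom (φ : A →+* A')).mapMatrix e
    rw [map_mul] at this
    refine this.trans (Matrix.ext fun i j => ?_)
    simp only [RingHom.mapMatrix_apply, map_apply, Matrix.smul_apply, smul_eq_mul, one_apply,
      coe_mapRingHom]
    split_ifs <;> simp
  obtain ⟨ψ, e1, e2⟩ := hM.mov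
  refine ⟨Θ.comp y, hM.pos, hM.cop.map (mapRingHom (φ : A →+* A')), m hM.mul, m hM.mul',
    gm Θ' ψ, Matrix.ext fun i j => ?_, ?_⟩
  · have := congrArg Θ' (congrFun (congrFun e1 i) j)
    rw [map_apply, e, Matrix.smul_apply, smul_eq_mul, map_mul, map_pow, e] at this
    exact this
  · have := H.act_map Θ' e2
    rwa [pt_map, ← AlgHom.comp_assoc, hΘ', AlgHom.comp_assoc] at this

/-- ZP. By `t4` there are `b i j` with `(g • y₀) (b i j) = (g ζ g⁻¹) i j`; so `ψ⁻¹ ζ ψ` has the
entries `y (b i j)` in `OO h`; reduce them modulo `h ^ (2 M)` to polynomials. -/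
theorem Mod.keeps {h : A[X]} (hm : h.Monic) {M : ℕ} {P₁ P₂ : Mat n A[X]} {f : A[X]}
    {y : H.B →ₐ[k] OO h} (hM : H.Mod h M P₁ P₂ f y) {ζ : Mat n k} (hζ : H.Cent ζ) :
    Keeps (h ^ (2 * M)) P₁ (ζ.map (algebraMap k A)) := by
  obtain ⟨b, hb⟩ := hζ.exists_fun
  obtain ⟨ψ, e1, e2⟩ := hM.mov
  have e3 := hb (OOh h) ψ⁻¹
  rw [(H.act_eq_iff _ _ _).1 e2, inv_inv] at e3
  have e4 : ζ.map (algebraMap k (OO h)) * P₁.map (algebraMap A[X] (OO h)) =
      P₁.map (algebraMap A[X] (OO h)) * of fun i j => y (b i j) := by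
    refine Matrix.map_injective (toH_inj (k := k) hm) ?_
    show Matrix.map _ _ = Matrix.map _ _
    rw [K2M.map_mul', K2M.map_mul', K2M.map_alg]
    show _ * P₁.map (algebraMap A[X] (OOh h)) = P₁.map (algebraMap A[X] (OOh h)) *
      of fun i j => ((toH k h).comp y) (b i j)
    rw [e3, e1, Matrix.mul_smul, Matrix.smul_mul, ← mul_assoc, ← mul_assoc, Units.mul_inv, one_mul]
  choose z hz using fun i j => AdjoinRoot.mk_surjective (red k h (2 * M) (y (b i j)))
  have e5 : ∀ i j, h ^ (2 * M) ∣ ((ζ.map (algebraMap k A)).map C * P₁ - P₁ * of z) i j := by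
    intro i j
    have := congrArg (red k h (2 * M)) (congrFun (congrFun e4 i) j)
    rw [← AdjoinRoot.mk_eq_zero, Matrix.sub_apply, map_sub, sub_eq_zero]
    simp only [mul_apply, map_sum, map_mul, map_apply, of_apply, red_alg, ← hz,
      AlgHom.commutes] at this ⊢
    exact this
  choose θ hθ using e5
  refine ⟨of z, of θ, ?_⟩
  rw [← sub_eq_iff_eq_add']
  exact Matrix.ext hθ

end HS

end Pool.Agent.GR
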