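import Pool.Agent.P.MP_c1f06d_ag.r.CenD
import Pool.Agent.P.MP_c1f06d_ag.r.K2BasA
import Pool.Agent.P.MP_c1f06d_ag.r.K2Mod

open Matrix Polynomial

universe u

namespace Pool.Agent.GR

namespace HS

variable {k : Type u} [Field k] {n : ℕ} {H : HS k n} {Om : Type u} [Field Om] [Algebra k Om]
  {D : H.Datum} {ι : D.l →ₐ[k] Om} {M : ℕ} {a : (Fin D.r → ℤ) →+ ℤ} {p : (Fin D.r → ℤ) → Om[X]}
  {d : ℕ} {pe : Fin d → Equiv.Perm (Fin D.r → ℤ)} {nw : Fin d → GL (Fin n) Om}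
  {ν : (Fin D.r → ℤ) →+ ℤ}

theorem Typ.charpoly {h : Om[X]} {P₁ : Mat n Om[X]} (hT : H.Typ D ι h M P₁ a p) {ζ : Mat n k}
    (hζ : H.Cent ζ) {ρ : ℕ}
    {q : Fin ρ → Fin n → Om[X]} {Z : Matrix (Fin ρ) (Fin ρ) Om} (hb : IsBas (h ^ (2 * M)) P₁ q)
    (hr : Rep (h ^ (2 * M)) P₁ q (ζ.map (algebraMap k Om)) Z) :
    Z.charpoly = ∏ x ∈ XX D.χ, chE (ζ.map (algebraMap k Om)) (D.es ι x) ^ (p x).natDegree :=
  KC.typ_charpoly D ι hT hζ hb hr

theorem Cent.comm_es {ζ : Mat n k} (hζ : H.Cent ζ) (x : Fin D.r → ℤ) :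
    ζ.map (algebraMap k Om) * D.es ι x = D.es ι x * ζ.map (algebraMap k Om) :=
  KC.cj_comm (KC.cent_inL hζ (KC.datum_fixed D ι)) x

theorem Cent.chE_lamE {ζ : Mat n k} (hζ : H.Cent ζ) (b : (Fin D.r → ℤ) → ℤ) (m : ℤ) :
    chE (ζ.map (algebraMap k Om)) (lamE D.χ (D.es ι) b m) =
      ∏ x ∈ (XX D.χ).filter fun x => b x = m, chE (ζ.map (algebraMap k Om)) (D.es ι x) :=
  KC.chG_sum _ _ _ (fun x _ y _ hxy => (KC.cj_eps_mul (Units.inv_mul _) D.χ x y).trans
    (if_neg hxy)) fun x _ => hζ.comm_es x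

theorem Typ.pow_eq {h : Om[X]} {P₁ : Mat n Om[X]} (hT : H.Typ D ι h M P₁ a p)
    (hW : H.Wey D ι a d pe nw ν) {ζ : Mat n k} (hζ : H.Cent ζ) :
    (∀ x ∈ XX D.χ, 0 ≤ d * (M * (h.natDegree : ℤ)) + ν x) ∧
    (∏ x ∈ XX D.χ, chE (ζ.map (algebraMap k Om)) (D.es ι x) ^ (p x).natDegree) ^ d =
      ∏ m ∈ (XX D.χ).image ν, chE (ζ.map (algebraMap k Om)) (lamE D.χ (D.es ι) ν m) ^
        (d * (M * (h.natDegree : ℤ)) + m).toNat := by
  have hs : ∀ x ∈ XX D.χ, d * (M * (h.natDegree : ℤ)) + ν x =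
      ((∑ w, (p (pe w x)).natDegree : ℕ) : ℤ) := fun x hx => by
    rw [Nat.cast_sum, Finset.sum_congr rfl fun w _ => hT.deg _ ((hW.perm w x).2 hx),
      Finset.sum_add_distrib, hW.sum x hx, Finset.sum_const, Finset.card_univ, Fintype.card_fin,
      nsmul_eq_mul]
  refine ⟨fun x hx => by rw [hs x hx]; exact Int.natCast_nonneg _, ?_⟩
  set c := fun x => chE (ζ.map (algebraMap k Om)) (D.es ι x) with hc
  have h1 : ∀ w, ∀ x ∈ XX D.χ, c (pe w x) = c x := fun w x hx => by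
    have e1 := KC.chG_conj (g := (nw w : Mat n Om)) (g' := (((nw w)⁻¹ : GL (Fin n) Om) : Mat n Om))
      (Units.inv_mul _) (ζ.map (algebraMap k Om)) (D.es ι (pe w x))
    rw [hW.conj w x hx, (hζ Om _ (hW.mem w)).eq, mul_assoc, Units.mul_inv, mul_one] at e1
    exact e1.symm
  have h2 : ∀ w, ∏ x ∈ XX D.χ, c x ^ (p x).natDegree =
      ∏ x ∈ XX D.χ, c x ^ (p (pe w x)).natDegree := fun w =>
    (Finset.prod_bijective (pe w) (pe w).bijective (fun x => (hW.perm w x).symm)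
      fun x hx => by rw [h1 w x hx]).symm
  calc (∏ x ∈ XX D.χ, c x ^ (p x).natDegree) ^ d
      = ∏ w : Fin d, ∏ x ∈ XX D.χ, c x ^ (p (pe w x)).natDegree := by
        rw [← Finset.prod_congr rfl fun w _ => h2 w, Finset.prod_const, Finset.card_univ,
          Fintype.card_fin]
    _ = ∏ x ∈ XX D.χ, c x ^ (d * (M * (h.natDegree : ℤ)) + ν x).toNat := by
        rw [Finset.prod_comm]
        refine Finset.prod_congr rfl fun x hx => ?_
        rw [Finset.prod_pow_eq_pow_sum, hs x hx, Int.toNat_natCast]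
    _ = _ := by
        rw [← Finset.prod_fiberwise_of_maps_to (g := ν) (t := (XX D.χ).image ν)
          fun x hx => Finset.mem_image_of_mem _ hx]
        refine Finset.prod_congr rfl fun m _ => ?_
        rw [hζ.chE_lamE, ← Finset.prod_pow]
        refine Finset.prod_congr rfl fun x hx => ?_
        rw [(Finset.mem_filter.1 hx).2]

/-- A cocharacter whose idempotents come from the subfield `K` is diagonal in a frame over `K`. -/
theorem descend {K : Type u} [Field K] [Algebra k K] (j : K →ₐ[k] Om) {γ : GL (Fin n) Om}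
    {c : Fin n → ℤ} (hf : H.Fixed c (H.act γ⁻¹ (H.pt Om))) {S : Finset ℤ} (hS : ∀ i, c i ∈ S)
    (hK : ∀ m ∈ S, ∃ E' : Mat n K, E'.map j =
      (γ : Mat n Om) * eps Om c m * ((γ⁻¹ : GL (Fin n) Om) : Mat n Om)) :
    ∃ (β : GL (Fin n) K) (νi : Fin n → ℤ), H.Fixed νi (H.act β⁻¹ (H.pt K)) ∧ ∀ m,
      ((gm j β : GL (Fin n) Om) : Mat n Om) * eps Om νi m *
        (((gm j β)⁻¹ : GL (Fin n) Om) : Mat n Om) =
        (γ : Mat n Om) * eps Om c m * ((γ⁻¹ : GL (Fin n) Om) : Mat n Om) := by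
  classical
  choose! E hE using hK
  have hj : Function.Injective j := (j : K →+* Om).injective
  have hm : Function.Injective fun X : Mat n K => X.map j := Matrix.map_injective hj
  have hI : Idem S E := by
    refine ⟨fun m hm' => hm ?_, fun m h1 m' h2 hne => hm ?_, hm ?_⟩
    · show (E m * E m).map j = (E m).map j
      rw [Matrix.map_mul, hE m hm', KC.cj_eps_mul (Units.inv_mul _), if_pos rfl]
    · show (E m * E m').map j = (0 : Mat n K).map j
      rw [Matrix.map_mul, hE m h1, hE m' h2, KC.cj_eps_mul (Units.inv_mul _), if_neg hne,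
        Matrix.map_zero _ (map_zero _)]
    · show j.mapMatrix (∑ m ∈ S, E m) = j.mapMatrix 1
      rw [map_sum, map_one, Finset.sum_congr rfl fun m hm' => (AlgHom.mapMatrix_apply j _).trans
        (hE m hm'), ← Finset.sum_mul, ← Finset.mul_sum, ← Finset.filter_true S,
        KC.sum_eps c S hS]
      simp
  obtain ⟨β, νi, -, -, hν, hβ⟩ := diag_idem hI (c := fun _ => ()) fun _ _ _ _ h => absurd rfl h
  have h1 : ∀ m, ((gm j β : GL (Fin n) Om) : Mat n Om) * eps Om νi m *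
      (((gm j β)⁻¹ : GL (Fin n) Om) : Mat n Om) =
      (γ : Mat n Om) * eps Om c m * ((γ⁻¹ : GL (Fin n) Om) : Mat n Om) := by
    intro m
    by_cases hm' : m ∈ S
    · have e : eps Om νi m = (eps K νi m).map j := by
        ext i i'
        by_cases e : i = i' <;> simp [eps, e, apply_ite j]
      rw [e, ← hβ m hm', ← hE m hm', gm_val, gm_inv_val, ← Matrix.map_mul, ← Matrix.map_mul]
      simp only [mul_assoc, Units.mul_inv_cancel_left, Units.mul_inv, mul_one]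
    · have e : ∀ b : Fin n → ℤ, (∀ i, b i ∈ S) → eps Om b m = 0 := fun b hb => by
        rw [eps, ← diagonal_zero]
        congr 1
        funext i
        exact if_neg fun e : b i = m => hm' (e ▸ hb i)
      rw [e νi hν, e c hS]
      simp only [mul_zero, zero_mul]
  refine ⟨β, νi, KC.fixed_of_inj j hj ?_, h1⟩
  have h2 : Intw νi c (((gm j β)⁻¹ * γ : GL (Fin n) Om) : Mat n Om) := by
    refine intw_of_eps fun i => ?_
    have := congrArg (fun X => (((gm j β)⁻¹ : GL (Fin n) Om) : Mat n Om) * X * (γ : Mat n Om))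
      (h1 (c i))
    simp only [Units.val_mul, mul_assoc, Units.inv_mul_cancel_left, Units.inv_mul, mul_one]
      at this ⊢
    exact this
  have h3 := hf.intw h2
  rw [← H.act_mul, mul_inv_cancel_right] at h3
  rw [KC.comp_frame]
  exact h3

theorem k2_cent [Infinite k] [IsAlgClosed Om] {R : Type u} [CommRing R] [IsDomain R]
    [IsLocalRing R] [Algebra k R] (φ : R →ₐ[k] Om) (hφ : ∀ r, φ r ≠ 0 → IsUnit r) {h : R[X]}
    (hm : h.Monic) {P₁ P₂ : Mat n R[X]} {f : R[X]} {y : H.B →ₐ[k] OO h}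
    (hM : H.Mod h M P₁ P₂ f y)
    (hT : H.Typ D ι (h.map (φ : R →+* Om)) M (P₁.map (Polynomial.map (φ : R →+* Om))) a p)
    (hW : H.Wey D ι a d pe nw ν) :
    ∃ (β : GL (Fin n) R) (νi : Fin n → ℤ), H.Fixed νi (H.act β⁻¹ (H.pt R)) ∧ ∀ m,
      ((gm φ β : GL (Fin n) Om) : Mat n Om) * eps Om νi m *
        (((gm φ β)⁻¹ : GL (Fin n) Om) : Mat n Om) = lamE D.χ (D.es ι) ν m := by
  classical
  have hE := KC.lamE_es D ι ν
  have hfix : H.Fixed (fun i => ν (D.χ i)) (H.act (gm ι D.γ)⁻¹ (H.pt Om)) :=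
    (KC.datum_fixed D ι).push ν
  have hS : ∀ i, ν (D.χ i) ∈ (XX D.χ).image ν := fun i =>
    Finset.mem_image_of_mem _ (KC.mem_XX D.χ i)
  have hC : ∀ ζ, H.Cent ζ → ∀ m, ζ.map (algebraMap k Om) * lamE D.χ (D.es ι) ν m =
      lamE D.χ (D.es ι) ν m * ζ.map (algebraMap k Om) := fun ζ hζ m => by
    rw [hE]
    exact KC.cj_comm (KC.cent_inL hζ hfix) m
  obtain ⟨ζ, hζ, hcop⟩ := KC.exists_gen H (D.prime Om ι) (Units.inv_mul (gm ι D.γ))
    (fun i => ν (D.χ i)) (fun m x hx => hE m ▸ hW.comm x hx m)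
    (fun ζ hζ m => hE m ▸ hC ζ hζ m) ((XX D.χ).image ν)
  simp only [← hE] at hcop
  obtain ⟨ρ, q, hq, hq'⟩ := exists_bas (φ : R →+* Om) hφ (hm.pow (2 * M)) hM.cop.pow_right
    hM.mul hM.mul'
  obtain ⟨Z, hZ⟩ := hq.exists_rep (ζ.map (algebraMap k R))
  have hZ0 : aeval Z (ζ.charpoly.map (algebraMap k R)) = 0 :=
    hZ.aeval_eq_zero hq (hM.keeps hm hζ) (by rw [← charpoly_map]; exact aeval_self_charpoly _)
  obtain ⟨K, _, _, j, hj⟩ := exists_kR (k := k) R
  have hZ1 := hZ.map (φ : R →+* Om)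
  have e1 : (ζ.map (algebraMap k R)).map (φ : R →+* Om) = ζ.map (algebraMap k Om) :=
    Matrix.ext fun _ _ => φ.commutes _
  rw [e1, Polynomial.map_pow] at hZ1
  rw [Polynomial.map_pow] at hq'
  have h1 := hT.charpoly hζ hq' hZ1
  obtain ⟨h2, h3⟩ := hT.pow_eq hW hζ
  let ψ : K →+* Om := (φ.comp j : K →ₐ[k] Om)
  have e2 : (ζ.map (algebraMap k K)).map ψ = ζ.map (algebraMap k Om) :=
    Matrix.ext fun _ _ => (φ.comp j).commutes _
  have h4 : (Z.map (φ : R →+* Om)).charpoly ∈ lifts ψ := by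
    rw [charpoly_map, lifts_iff_coeff_lifts]
    intro i
    obtain ⟨x, hx⟩ := hj _ (isIntegral_charpoly Z (charpoly_monic ζ) hZ0 i)
    exact ⟨x, by rw [coeff_map, ← hx]; rfl⟩
  have hsum : ∑ m ∈ (XX D.χ).image ν, lamE D.χ (D.es ι) ν m = 1 := by
    rw [Finset.sum_congr rfl fun m _ => hE m, ← Finset.sum_mul, ← Finset.mul_sum,
      ← Finset.filter_true ((XX D.χ).image ν), KC.sum_eps _ _ hS]
    simp only [if_true, diagonal_one, mul_one, Units.mul_inv]
  have hmul : ∀ m m', lamE D.χ (D.es ι) ν m * lamE D.χ (D.es ι) ν m' =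
      if m = m' then lamE D.χ (D.es ι) ν m else 0 := fun m m' => by
    rw [hE, hE]
    exact KC.cj_eps_mul (Units.inv_mul _) _ m m'
  have h5 := KC.lifts_of_prod ψ
    (fun m => KC.chG (ζ.map (algebraMap k Om)) (lamE D.χ (D.es ι) ν m)) ((XX D.χ).image ν)
    (fun m _ => by
      have := hC ζ hζ m
      rw [hE] at this ⊢
      exact KC.chG_monic (Units.inv_mul _) _ _ this)
    hcop (fun m => (d * (M * ((h.map (φ : R →+* Om)).natDegree : ℤ)) + m).toNat)
    (fun m h1 m' h1' e => by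
      obtain ⟨x, hx, rfl⟩ := Finset.mem_image.1 (Finset.mem_coe.1 h1)
      obtain ⟨x', hx', rfl⟩ := Finset.mem_image.1 (Finset.mem_coe.1 h1')
      have := h2 x hx
      have := h2 x' hx'
      simp only at e
      omega)
    (by
      rw [← KC.chG_sum _ _ _ (fun m _ m' _ hne => (hmul m m').trans (if_neg hne))
        fun m _ => hC ζ hζ m, hsum, KC.chG_one, ← e2, charpoly_map]
      exact ⟨_, rfl⟩)
    (by
      have := Subsemiring.pow_mem _ h4 d
      rw [h1, h3] at this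
      exact this)
  have h6 := KC.idem_lifts ψ ((XX D.χ).image ν) (ζ.map (algebraMap k K))
    (fun m => lamE D.χ (D.es ι) ν m) (fun m _ => (hmul m m).trans (if_pos rfl)) hsum
    (fun m _ => e2 ▸ hC ζ hζ m) (e2 ▸ hcop) (e2 ▸ h5)
  obtain ⟨β, νi, hb1, hb2⟩ := descend (φ.comp j) hfix hS fun m hm' => hE m ▸ h6 m hm'
  refine ⟨gm j β, νi, ?_, fun m => ?_⟩
  · rw [← KC.comp_frame]
    exact KC.fixed_comp hb1 j
  · rw [gm_comp, hb2, hE]

end HS

end Pool.Agent.GR
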