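import Pool.Agent.P.MP_c1f06d_ag.r.K2Alg

open Matrix Polynomial

universe u

namespace Pool.Agent.GR

theorem deg_eps_zero {A : Type u} [CommRing A] {n r : ℕ} (χ : Fin n → Fin r → ℤ) {x : Fin r → ℤ}
    (hx : x ∉ XX χ) : eps A χ x = 0 := by
  rw [eps, ← diagonal_zero]
  exact congrArg diagonal (funext fun i =>
    if_neg fun e => hx (Finset.mem_image.2 ⟨i, Finset.mem_univ i, e⟩))

theorem deg_eps_sum {A : Type u} [CommRing A] {n r : ℕ} (χ : Fin n → Fin r → ℤ)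
    (ν : (Fin r → ℤ) → ℤ) (m : ℤ) :
    ∑ x ∈ (XX χ).filter fun x => ν x = m, eps A χ x = eps A (fun i => ν (χ i)) m := by
  ext i j
  rw [Matrix.sum_apply]
  by_cases hij : i = j
  · subst hij
    have hi : χ i ∈ XX χ := Finset.mem_image.2 ⟨i, Finset.mem_univ i, rfl⟩
    simp [eps, hi]
  · simp [eps, hij]

namespace HS

variable {k : Type u} [Field k] {n : ℕ} {H : HS k n} {Om : Type u} [Field Om] [Algebra k Om]
  {D : H.Datum} {ι : D.l →ₐ[k] Om} {M : ℕ} {a : (Fin D.r → ℤ) →+ ℤ} {p : (Fin D.r → ℤ) → Om[X]}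
  {d : ℕ} {pe : Fin d → Equiv.Perm (Fin D.r → ℤ)} {nw : Fin d → GL (Fin n) Om}
  {ν : (Fin D.r → ℤ) →+ ℤ}

/-- DEG. Every `νi i` is a value `ν x`; `sum_eq_of_conj` for `γ⁻¹ β` and for `γ⁻¹ (nw w) γ`. -/
theorem Typ.degs {h : Om[X]} {P₁ : Mat n Om[X]} (hT : H.Typ D ι h M P₁ a p)
    (hW : H.Wey D ι a d pe nw ν) (β : GL (Fin n) Om) (νi : Fin n → ℤ)
    (hβ : ∀ m, (β : Mat n Om) * eps Om νi m * ((β⁻¹ : GL (Fin n) Om) : Mat n Om) =
      lamE D.χ (D.es ι) ν m) :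
    ∃ dg : Fin n → ℕ, (∀ i, (dg i : ℤ) = d * (M * h.natDegree) + νi i) ∧
      ∑ i, dg i = d * (∏ i, p (D.χ i)).natDegree := by
  have hi : ∀ i, D.χ i ∈ XX D.χ := fun i => Finset.mem_image.2 ⟨i, Finset.mem_univ i, rfl⟩
  generalize hγ : gm ι D.γ = γ
  have hes : ∀ x, D.es ι x =
      (γ : Mat n Om) * eps Om D.χ x * ((γ⁻¹ : GL (Fin n) Om) : Mat n Om) := fun x => by
    rw [← hγ]
    rfl
  have cn : ∀ Y : Mat n Om, ((γ⁻¹ : GL (Fin n) Om) : Mat n Om) *
      ((γ : Mat n Om) * Y * ((γ⁻¹ : GL (Fin n) Om) : Mat n Om)) * (γ : Mat n Om) = Y := fun Y => by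
    simp only [← Matrix.mul_assoc, Units.inv_mul, Matrix.one_mul]
    rw [Matrix.mul_assoc, Units.inv_mul, Matrix.mul_one]
  have h1 := sum_eq_of_conj νi (fun i => ν (D.χ i)) (γ⁻¹ * β) fun m => by
    rw [← deg_eps_sum D.χ ν m, ← cn (∑ x ∈ _, _), Finset.mul_sum, Finset.sum_mul]
    simp only [← hes]
    rw [← lamE, ← hβ, _root_.mul_inv_rev, inv_inv, Units.val_mul, Units.val_mul]
    simp only [Matrix.mul_assoc]
  have h2 : ∀ w (F : (Fin D.r → ℤ) → ℤ), ∑ i, F (D.χ i) = ∑ i, F (pe w (D.χ i)) := fun w =>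
    sum_eq_of_conj D.χ (fun i => pe w (D.χ i)) (γ⁻¹ * nw w * γ) fun m => by
      obtain ⟨x, rfl⟩ := (pe w).surjective m
      have e : eps Om (fun i => pe w (D.χ i)) (pe w x) = eps Om D.χ x := by
        simp only [eps, (pe w).apply_eq_iff_eq]
      rw [e]
      by_cases hx : x ∈ XX D.χ
      · rw [← cn (eps Om D.χ x), ← hes, ← hW.conj w x hx, hes, _root_.mul_inv_rev,
          _root_.mul_inv_rev, inv_inv]
        simp only [Units.val_mul, Matrix.mul_assoc]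
      · rw [deg_eps_zero _ hx, deg_eps_zero _ fun e => hx ((hW.perm w x).1 e), Matrix.mul_zero,
          Matrix.zero_mul]
  have h3 : ∀ i, (d : ℤ) * (M * h.natDegree) + ν (D.χ i) =
      ∑ w, ((p (pe w (D.χ i))).natDegree : ℤ) := fun i => by
    rw [hW.sum _ (hi i), Finset.sum_congr rfl fun w _ => hT.deg _ ((hW.perm w _).2 (hi i)),
      Finset.sum_add_distrib, Finset.sum_const, Finset.card_univ, Fintype.card_fin, nsmul_eq_mul]
  have h4 : ∀ i, 0 ≤ (d : ℤ) * (M * h.natDegree) + νi i := fun i => by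
    have e := h1 fun m => if (d : ℤ) * (M * h.natDegree) + m < 0 then 1 else 0
    rw [Finset.sum_eq_zero (s := Finset.univ) (f := fun i =>
      if (d : ℤ) * (M * h.natDegree) + ν (D.χ i) < 0 then (1 : ℤ) else 0) fun i _ =>
        if_neg (by rw [h3]; exact not_lt.2 (by positivity))] at e
    have e2 := (Finset.sum_eq_zero_iff_of_nonneg fun i _ => by positivity).1 e i
      (Finset.mem_univ i)
    by_contra hn
    rw [if_pos (not_le.1 hn)] at e2
    exact one_ne_zero e2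
  refine ⟨fun i => ((d : ℤ) * (M * h.natDegree) + νi i).toNat,
    fun i => Int.toNat_of_nonneg (h4 i), ?_⟩
  rw [natDegree_prod_of_monic _ _ fun i _ => hT.monic _ (hi i)]
  zify
  rw [Finset.sum_congr rfl fun i _ => Int.toNat_of_nonneg (h4 i),
    h1 fun m => (d : ℤ) * (M * h.natDegree) + m, Finset.sum_congr rfl fun i _ => h3 i,
    Finset.sum_comm,
    Finset.sum_congr rfl fun w _ => (h2 w fun x => ((p x).natDegree : ℤ)).symm,
    Finset.sum_const, Finset.card_univ, Fintype.card_fin, nsmul_eq_mul]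

end HS

end Pool.Agent.GR
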