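import Pool.Agent.P.MP_c1f06d_ag.r.K2Alg
import Pool.Agent.P.MP_c1f06d_ag.r.K2Mod

open Matrix Polynomial

universe u

namespace Pool.Agent.GR

namespace K2G

variable {Om U : Type u} [Field Om] [CommRing U] [Algebra Om U]

theorem map_map_alg (e : U →ₐ[Om] Om) (q : Om[X]) :
    (q.map (algebraMap Om U)).map (e : U →+* Om) = q := by
  rw [Polynomial.map_map, AlgHom.comp_algebraMap, Algebra.algebraMap_self, Polynomial.map_id]

theorem dvd_of_coeff {Hh : Om[X]} (hm : Hh.Monic) (q : Om[X])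
    (h : ∀ a : Fin Hh.natDegree, (q %ₘ Hh).coeff a = 0) : Hh ∣ q := by
  rw [← modByMonic_eq_zero_iff_dvd hm]
  ext a
  by_cases ha : a < Hh.natDegree
  · exact h ⟨a, ha⟩
  · refine coeff_eq_zero_of_degree_lt ((degree_modByMonic_lt q hm).trans_le ?_)
    rw [degree_eq_natDegree hm.ne_zero]
    exact_mod_cast not_lt.1 ha

/-- Spanning modulo a monic polynomial is an open condition. -/
theorem span_open {ι : Type} [Fintype ι] [DecidableEq ι] {Hh : Om[X]} (hm : Hh.Monic)
    (e0 : U →ₐ[Om] Om) (w : ι × Fin Hh.natDegree → ι → U[X])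
    (h0 : ∀ l i, Hh ∣ (w l i).map (e0 : U →+* Om) - if i = l.1 then X ^ (l.2 : ℕ) else 0) :
    ∃ Δ : U, e0 Δ ≠ 0 ∧ ∀ e : U →ₐ[Om] Om, e Δ ≠ 0 → ∀ y : ι → Om[X],
      ∃ t : ι × Fin Hh.natDegree → Om, ∀ i, Hh ∣ y i - ∑ l, t l • (w l i).map (e : U →+* Om) := by
  let M : Matrix (ι × Fin Hh.natDegree) (ι × Fin Hh.natDegree) U :=
    of fun r l => (w l r.1 %ₘ Hh.map (algebraMap Om U)).coeff r.2
  have hM : ∀ (e : U →ₐ[Om] Om) r l,
      e (M r l) = ((w l r.1).map (e : U →+* Om) %ₘ Hh).coeff r.2 := fun e r l => by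
    have := map_modByMonic (e : U →+* Om) (p := w l r.1) (hm.map (algebraMap Om U))
    rw [map_map_alg] at this
    rw [← this, coeff_map]
    rfl
  refine ⟨M.det, ?_, fun e he y => ?_⟩
  · have e1 : e0.mapMatrix M = 1 := by
      ext r l
      rw [AlgHom.mapMatrix_apply, map_apply, hM, modByMonic_eq_of_dvd_sub hm (h0 l r.1), one_apply]
      by_cases h1 : r.1 = l.1
      · rw [if_pos h1, (modByMonic_eq_self_iff hm).2 (by
          rw [degree_X_pow, degree_eq_natDegree hm.ne_zero]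
          exact_mod_cast l.2.2), coeff_X_pow]
        simp only [Prod.ext_iff, h1, true_and, Fin.ext_iff]
      · rw [if_neg h1, zero_modByMonic, coeff_zero, if_neg fun h2 => h1 (congrArg Prod.fst h2)]
    rw [AlgHom.map_det, e1, det_one]
    exact one_ne_zero
  · rw [AlgHom.map_det] at he
    obtain ⟨t, ht⟩ := mulVec_surjective_iff_isUnit.2 ((isUnit_iff_isUnit_det _).2 he.isUnit)
      fun r => (y r.1 %ₘ Hh).coeff r.2
    refine ⟨t, fun i => dvd_of_coeff hm _ fun a => ?_⟩
    have e1 := map_sum (modByMonicHom Hh) (fun l => t l • (w l i).map (e : U →+* Om)) Finset.univ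
    simp only [map_smul, modByMonicHom_apply] at e1
    rw [sub_modByMonic, e1, coeff_sub, finsetSum_coeff, sub_eq_zero, ← congrFun ht (i, a)]
    refine Finset.sum_congr rfl fun l _ => ?_
    rw [coeff_smul, smul_eq_mul, mul_comm, ← hM e (i, a) l]
    rfl

/-- Coprimality to a monic polynomial is an open condition. -/
theorem cop_open {Hh : Om[X]} (hm : Hh.Monic) (e0 : U →ₐ[Om] Om) (F : U[X])
    (h0 : IsCoprime (F.map (e0 : U →+* Om)) Hh) :
    ∃ Δ : U, e0 Δ ≠ 0 ∧ ∀ e : U →ₐ[Om] Om, e Δ ≠ 0 → IsCoprime (F.map (e : U →+* Om)) Hh := by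
  obtain ⟨a, b, hab⟩ := h0
  obtain ⟨Δ, h1, h2⟩ := span_open (ι := Unit) hm e0
    (fun l _ => F * (a * X ^ (l.2 : ℕ)).map (algebraMap Om U)) fun l _ => by
      rw [if_pos rfl, Polynomial.map_mul, map_map_alg]
      exact ⟨-b * X ^ (l.2 : ℕ), by linear_combination X ^ (l.2 : ℕ) * hab⟩
  refine ⟨Δ, h1, fun e he => ?_⟩
  obtain ⟨t, ht⟩ := h2 e he fun _ => 1
  obtain ⟨q, hq⟩ := ht ()
  simp only [Polynomial.map_mul _ (p := F), map_map_alg, ← mul_smul_comm, ← Finset.mul_sum] at hq
  exact ⟨a * ∑ i, t i • X ^ (i.2 : ℕ), q, by linear_combination -hq⟩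

/-- `Onto` is an open condition. -/
theorem onto_open {n d : ℕ} {Hh : Om[X]} (hm : Hh.Monic) (e0 : U →ₐ[Om] Om) (dg : Fin n → ℕ)
    (c : Fin d → Om) (β : Mat n Om) (T : Fin d → Mat n U[X])
    (h0 : Onto Hh dg c β fun w => (T w).map (Polynomial.map (e0 : U →+* Om))) :
    ∃ Δ : U, e0 Δ ≠ 0 ∧ ∀ e : U →ₐ[Om] Om, e Δ ≠ 0 →
      Onto Hh dg c β fun w => (T w).map (Polynomial.map (e : U →+* Om)) := by
  choose v hv η θ hη using fun l : (Fin d × Fin n) × Fin Hh.natDegree =>
    h0 fun w i => if (w, i) = l.1 then X ^ (l.2 : ℕ) else 0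
  let w : (Fin d × Fin n) × Fin Hh.natDegree → Fin d × Fin n → U[X] := fun l r =>
    (taylor (c r.1) ((β.map C *ᵥ v l) r.2)).map (algebraMap Om U) +
      ∑ j, T r.1 r.2 j * (η l r.1 j).map (algebraMap Om U)
  have hw : ∀ (e : U →ₐ[Om] Om) l r, (w l r).map (e : U →+* Om) =
      taylor (c r.1) ((β.map C *ᵥ v l) r.2) +
        ((T r.1).map (Polynomial.map (e : U →+* Om)) *ᵥ η l r.1) r.2 := fun e l r => by
    simp only [w, Polynomial.map_add, Polynomial.map_sum, Polynomial.map_mul, map_map_alg]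
    rfl
  obtain ⟨Δ, h1, h2⟩ := span_open hm e0 w fun l r => by
    have := congrFun (hη l r.1) r.2
    simp only [Pi.add_apply, Pi.smul_apply, smul_eq_mul, Prod.mk.eta] at this
    rw [hw, this]
    exact ⟨-θ l r.1 r.2, by ring⟩
  refine ⟨Δ, h1, fun e he y => ?_⟩
  obtain ⟨t, ht⟩ := h2 e he fun r => y r.1 r.2
  choose q hq using ht
  refine ⟨∑ l, t l • v l, fun i => ?_, fun w' => ⟨∑ l, t l • η l w', fun i => q (w', i), ?_⟩⟩
  · rw [← mem_degreeLT, Finset.sum_apply]
    exact Submodule.sum_mem _ fun l _ => Submodule.smul_mem _ _ (mem_degreeLT.2 (hv l i))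
  · funext i
    have := hq (w', i)
    simp only [hw, smul_add, Finset.sum_add_distrib] at this
    simp only [Pi.add_apply, Pi.smul_apply, smul_eq_mul, mulVec_sum, mulVec_smul, Finset.sum_apply,
      map_sum, map_smul]
    linear_combination this

/-- `Onto` depends only on the matrices modulo `Hh`, up to scalars. -/
theorem onto_congr {A : Type u} [CommRing A] {n d : ℕ} {Hh : A[X]} {dg : Fin n → ℕ}
    {c : Fin d → A} {β : Mat n A} {T T' : Fin d → Mat n A[X]} (s : Fin d → A[X])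
    (h : ∀ w i j, Hh ∣ T w i j - s w * T' w i j) (h0 : Onto Hh dg c β T) : Onto Hh dg c β T' := by
  intro y
  obtain ⟨v, hv, h1⟩ := h0 y
  refine ⟨v, hv, fun w => ?_⟩
  obtain ⟨η, θ, e⟩ := h1 w
  choose Q hQ using h w
  have e1 : T w = s w • T' w + Hh • of Q := Matrix.ext fun i j => by
    simp only [Matrix.add_apply, Matrix.smul_apply, smul_eq_mul, of_apply]
    linear_combination hQ i j
  refine ⟨s w • η, of Q *ᵥ η + θ, ?_⟩
  rw [e, e1, add_mulVec, smul_mulVec, smul_mulVec, mulVec_smul, smul_add]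
  simp only [add_assoc]

end K2G

namespace HS

variable {k : Type u} [Field k] {n : ℕ} {H : HS k n}

/-- A parametrisation is a polynomial matrix divided by a power of `f`. -/
theorem Param.exists_poly {σ : Type} (p : H.Param σ) :
    ∃ (m : ℕ) (Tp : Mat n (MvPolynomial σ k)), ∀ (A : Type u) [CommRing A] [Algebra k A]
      (v : σ → A) (hv : IsUnit (MvPolynomial.aeval v p.f)),
        Tp.map (MvPolynomial.aeval v) =
          MvPolynomial.aeval v p.f ^ m • ((p.at v hv : GL (Fin n) A) : Mat n A) := by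
  obtain ⟨⟨_, m, rfl⟩, hQ⟩ := IsLocalization.exist_integer_multiples_of_finite
    (Submonoid.powers p.f) fun r : Fin n × Fin n => (p.τ : Mat n (Localization.Away p.f)) r.1 r.2
  choose Q hQ using hQ
  refine ⟨m, of fun i j => Q (i, j), fun A _ _ v hv => Matrix.ext fun i j => ?_⟩
  have e : ∀ x, IsLocalization.Away.liftAlgHom (S := Localization.Away p.f) p.f
      (f := MvPolynomial.aeval v) hv (algebraMap _ _ x) = MvPolynomial.aeval v x :=
    fun x => IsLocalization.Away.lift_eq _ hv x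
  have := congrArg (IsLocalization.Away.liftAlgHom (S := Localization.Away p.f) p.f
    (f := MvPolynomial.aeval v) hv) (hQ (i, j))
  rw [e, Algebra.smul_def, map_mul, e, map_pow] at this
  exact this

/-- GENERIC. -/
theorem k2_gen [Infinite k] {R Om : Type u} [CommRing R] [IsLocalRing R] [Algebra k R] [Field Om]
    [IsAlgClosed Om] [Algebra k Om] (φ : R →ₐ[k] Om) (hφ : ∀ r, φ r ≠ 0 → IsUnit r) {h : R[X]}
    (hm : h.Monic) {N : ℕ} (hN : 0 < N) {σ : Type} (p : H.Param σ) (hp : H.Jets p Om) {d : ℕ}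
    (c : Fin d → Om) (β : Mat n Om) (dg : Fin n → ℕ) (P : Mat n Om[X])
    (g0 : Fin d → GL (Fin n) (Ab (h.map (φ : R →+* Om)) N)) (hg0 : ∀ w, g0 w ∈ H.G _)
    (T0 : Fin d → Mat n Om[X])
    (hT0 : ∀ w, (T0 w).map (AdjoinRoot.mk (h.map (φ : R →+* Om) ^ N)) = (g0 w : Mat n _))
    (hon : Onto (h.map (φ : R →+* Om) ^ N) dg c β fun w => T0 w * P) :
    ∃ (T : Fin d → Mat n R[X]) (g : Fin d → GL (Fin n) (OO h)) (s : Fin d → (OO h)ˣ),
      (∀ w, g w ∈ H.G (OO h)) ∧
      (∀ w, (T w).map (algebraMap R[X] (OO h)) = (s w : OO h) • (g w : Mat n (OO h))) ∧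
      Onto (h.map (φ : R →+* Om) ^ N) dg c β
        fun w => (T w).map (Polynomial.map (φ : R →+* Om)) * P := by
  classical
  let hb := h.map (φ : R →+* Om)
  have hH : (hb ^ N).Monic := (hm.map _).pow N
  have : Module.Finite Om (Ab hb N) := hH.finite_adjoinRoot
  obtain ⟨m, Tp, hTp⟩ := p.exists_poly
  choose v v' hv hv' hg using fun w => hp (Ab hb N) (g0 w) (hg0 w)
  let D := (hb ^ N).natDegree
  let τ := Fin d × Bool × σ × Fin D
  let pol : ∀ (A : Type u) [CommRing A], (τ → A) → Fin d → Bool → σ → A[X] :=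
    fun A _ t w b s => ∑ a : Fin D, C (t (w, b, s, a)) * X ^ (a : ℕ)
  have pol_map : ∀ (A A' : Type u) [CommRing A] [CommRing A'] [Algebra k A] [Algebra k A']
      (f : A →ₐ[k] A') (t : τ → A) w b (F : MvPolynomial σ k),
      (MvPolynomial.aeval (pol A t w b) F).map (f : A →+* A') =
        MvPolynomial.aeval (pol A' (fun r => f (t r)) w b) F := by
    intro A A' _ _ _ _ f t w b F
    refine (MvPolynomial.comp_aeval_apply (pol A t w b) (Polynomial.mapAlgHom f) F).trans ?_
    refine congrArg (fun z => MvPolynomial.aeval z F) (funext fun s => ?_)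
    simp [pol]
  let TT : ∀ (A : Type u) [CommRing A] [Algebra k A], (τ → A) → Fin d → Mat n A[X] :=
    fun A _ _ t w => Tp.map (MvPolynomial.aeval (pol A t w false)) *
      Tp.map (MvPolynomial.aeval (pol A t w true))
  have TT_map : ∀ (A A' : Type u) [CommRing A] [CommRing A'] [Algebra k A] [Algebra k A']
      (f : A →ₐ[k] A') (t : τ → A) w,
      (TT A t w).map (Polynomial.map (f : A →+* A')) = TT A' (fun r => f (t r)) w := by
    intro A A' _ _ _ _ f t w
    refine (Matrix.map_mul (f := mapRingHom (f : A →+* A'))).trans ?_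
    exact congrArg₂ (· * ·) (Matrix.ext fun i j => pol_map A A' f t w false _)
      (Matrix.ext fun i j => pol_map A A' f t w true _)
  let mk : Om[X] →ₐ[k] Ab hb N := (AdjoinRoot.mkₐ (hb ^ N)).restrictScalars k
  let vv : Fin d → Bool → σ → Ab hb N := fun w b => if b then v' w else v w
  obtain ⟨t0, ht0⟩ : ∃ t0 : τ → Om, ∀ w b s, mk (pol Om t0 w b s) = vv w b s := by
    choose q hq using fun w b s => AdjoinRoot.mk_surjective (vv w b s)
    refine ⟨fun r => (q r.1 r.2.1 r.2.2.1 %ₘ hb ^ N).coeff r.2.2.2, fun w b s => ?_⟩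
    have e1 : pol Om (fun r => (q r.1 r.2.1 r.2.2.1 %ₘ hb ^ N).coeff r.2.2.2) w b s =
        q w b s %ₘ hb ^ N := by
      refine (Fin.sum_univ_eq_sum_range
        (fun a => C ((q w b s %ₘ hb ^ N).coeff a) * X ^ a) D).trans ?_
      ext a
      simp only [finsetSum_coeff, coeff_C_mul_X_pow, Finset.sum_ite_eq, Finset.mem_range]
      split_ifs with ha
      · rfl
      · refine (coeff_eq_zero_of_degree_lt ((degree_modByMonic_lt _ hH).trans_le ?_)).symm
        rw [degree_eq_natDegree hH.ne_zero]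
        exact_mod_cast not_lt.1 ha
    rw [e1, ← hq w b s]
    exact AdjoinRoot.mk_eq_mk.2 (by
      rw [modByMonic_eq_sub_mul_div, sub_sub_cancel_left]
      exact (dvd_mul_right _ _).neg_right)
  have mk_aeval : ∀ w b (F : MvPolynomial σ k),
      mk (MvPolynomial.aeval (pol Om t0 w b) F) = MvPolynomial.aeval (vv w b) F := fun w b F =>
    (MvPolynomial.comp_aeval_apply _ mk F).trans
      (congrArg (fun z => MvPolynomial.aeval z F) (funext (ht0 w b)))
  have hvv : ∀ w b, IsUnit (MvPolynomial.aeval (vv w b) p.f) := fun w b => by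
    cases b
    · exact hv w
    · exact hv' w
  have cop0 : ∀ w b, IsCoprime (MvPolynomial.aeval (pol Om t0 w b) p.f) (hb ^ N) := fun w b => by
    obtain ⟨z, hz⟩ := (hvv w b).exists_left_inv
    obtain ⟨q, rfl⟩ := AdjoinRoot.mk_surjective z
    rw [← mk_aeval] at hz
    obtain ⟨r, hr⟩ := AdjoinRoot.mk_eq_mk.1 (show AdjoinRoot.mk (hb ^ N)
      (q * MvPolynomial.aeval (pol Om t0 w b) p.f) = AdjoinRoot.mk (hb ^ N) 1 by
        rw [map_mul, map_one]
        exact hz)
    exact ⟨q, -r, by linear_combination hr⟩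
  have on0 : Onto (hb ^ N) dg c β fun w => TT Om t0 w * P := by
    choose z hz using fun w => (((hv w).pow m).mul ((hv' w).pow m)).exists_left_inv
    choose s hs using fun w => AdjoinRoot.mk_surjective (z w)
    refine K2G.onto_congr s (fun w i j => AdjoinRoot.mk_eq_mk.1 ?_) hon
    have e1 : (TT Om t0 w).map (AdjoinRoot.mk (hb ^ N)) =
        (MvPolynomial.aeval (v w) p.f ^ m * MvPolynomial.aeval (v' w) p.f ^ m) •
          (g0 w : Mat n (Ab hb N)) := by
      rw [hg w, Units.val_mul, ← smul_mul_smul_comm, ← hTp, ← hTp]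
      refine Matrix.map_mul.trans ?_
      exact congrArg₂ (· * ·) (Matrix.ext fun i j => mk_aeval w false _)
        (Matrix.ext fun i j => mk_aeval w true _)
    have e2 : (T0 w * P).map (AdjoinRoot.mk (hb ^ N)) =
        z w • (TT Om t0 w * P).map (AdjoinRoot.mk (hb ^ N)) := by
      rw [Matrix.map_mul, Matrix.map_mul, e1, hT0, Matrix.smul_mul, smul_smul, hz, one_smul]
    rw [map_mul, hs]
    exact congrFun (congrFun e2 i) j
  let U := MvPolynomial τ Om
  have ev_pol : ∀ (t : τ → Om) w b (F : MvPolynomial σ k),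
      (MvPolynomial.aeval (pol U MvPolynomial.X w b) F).map
        ((MvPolynomial.aeval t : U →ₐ[Om] Om) : U →+* Om) =
        MvPolynomial.aeval (pol Om t w b) F := fun t w b F => by
    refine (pol_map U Om ((MvPolynomial.aeval t : U →ₐ[Om] Om).restrictScalars k) _ w b F).trans ?_
    simp only [AlgHom.restrictScalars_apply, U, MvPolynomial.aeval_X]
  have ev_TT : ∀ (t : τ → Om) w, (TT U MvPolynomial.X w *
      P.map (Polynomial.map (algebraMap Om U))).map (Polynomial.map
        ((MvPolynomial.aeval t : U →ₐ[Om] Om) : U →+* Om)) = TT Om t w * P := fun t w => by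
    refine (Matrix.map_mul (f := mapRingHom
      ((MvPolynomial.aeval t : U →ₐ[Om] Om) : U →+* Om))).trans (congrArg₂ (· * ·) ?_ ?_)
    · refine (TT_map U Om ((MvPolynomial.aeval t : U →ₐ[Om] Om).restrictScalars k) _ w).trans ?_
      simp only [AlgHom.restrictScalars_apply, U, MvPolynomial.aeval_X]
    · exact Matrix.ext fun i j => K2G.map_map_alg _ _
  obtain ⟨Δ₀, hΔ₀, hopen⟩ := K2G.onto_open hH (MvPolynomial.aeval t0 : U →ₐ[Om] Om) dg c β
    (fun w => TT U MvPolynomial.X w * P.map (Polynomial.map (algebraMap Om U))) (by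
      simp only [ev_TT]
      exact on0)
  choose Δ hΔ hcop using fun r : Fin d × Bool => K2G.cop_open hH
    (MvPolynomial.aeval t0 : U →ₐ[Om] Om) (MvPolynomial.aeval (pol U MvPolynomial.X r.1 r.2) p.f)
    (by rw [ev_pol]; exact cop0 _ _)
  obtain ⟨t, ht⟩ := exists_point (k := k) (Δ := Δ₀ * ∏ r, Δ r) fun h0 => by
    have := congrArg (MvPolynomial.aeval t0 : U →ₐ[Om] Om) h0
    rw [map_mul, map_prod, map_zero] at this
    exact mul_ne_zero hΔ₀ (Finset.prod_ne_zero_iff.2 fun r _ => hΔ r) this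
  rw [← MvPolynomial.coe_aeval_eq_eval, RingHom.coe_coe, map_mul, map_prod, mul_ne_zero_iff,
    Finset.prod_ne_zero_iff] at ht
  let tR : τ → R := fun r => algebraMap k R (t r)
  have etR : (fun r => φ (tR r)) = fun r => algebraMap k Om (t r) := funext fun r => φ.commutes _
  let ι : R[X] →ₐ[k] OO h := IsScalarTower.toAlgHom k R[X] (OO h)
  have ι_aeval : ∀ w b (F : MvPolynomial σ k), ι (MvPolynomial.aeval (pol R tR w b) F) =
      MvPolynomial.aeval (fun s => ι (pol R tR w b s)) F := fun w b F =>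
    MvPolynomial.comp_aeval_apply _ ι F
  have hu : ∀ w b, IsUnit (MvPolynomial.aeval (fun s => ι (pol R tR w b s)) p.f) := fun w b => by
    have h1 := hcop (w, b) _ (ht.2 (w, b) (Finset.mem_univ _))
    rw [ev_pol, ← etR, ← pol_map, IsCoprime.pow_right_iff hN] at h1
    rw [← ι_aeval]
    exact IsLocalization.map_units (OO h) (⟨_, cop_of_res (φ : R →+* Om) hφ hm h1⟩ : copr h)
  refine ⟨TT R tR, fun w => p.at _ (hu w false) * p.at _ (hu w true),
    fun w => (hu w false).unit ^ m * (hu w true).unit ^ m,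
    fun w => (H.G _).mul_mem (H.G_map _ p.mem) (H.G_map _ p.mem), fun w => ?_, ?_⟩
  · rw [Units.val_mul, Units.val_mul, Units.val_pow_eq_pow_val, Units.val_pow_eq_pow_val,
      IsUnit.unit_spec, IsUnit.unit_spec, ← smul_mul_smul_comm, ← hTp, ← hTp]
    refine Matrix.map_mul.trans ?_
    exact congrArg₂ (· * ·) (Matrix.ext fun i j => ι_aeval w false _)
      (Matrix.ext fun i j => ι_aeval w true _)
  · have := hopen _ ht.1
    simp only [ev_TT] at this
    simp only [TT_map, etR]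
    exact this

end HS

end Pool.Agent.GR
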