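import Pool.Agent.P.MP_c1f06d_ag.r.TorB

open Matrix

universe u

namespace Pool.Agent.GR

variable {k : Type u} [Field k] {n r : ℕ} {H : HS k n} {A : Type u} [CommRing A] [Algebra k A]
  {A' : Type u} [CommRing A'] [Algebra k A'] {χ : Fin n → Fin r → ℤ}
  {e : (Fin r → ℤ) → Mat n A} {X : Mat n A}

/-! ZT. -/

namespace ZT

theorem prod_mul {ι ι' : Type} {S : Finset ι} {S' : Finset ι'} {E : ι → Mat n A}
    {E' : ι' → Mat n A} (h : Idem S E) (h' : Idem S' E')
    (hc : ∀ x ∈ S, ∀ m ∈ S', E x * E' m = E' m * E x) (t : ι × ι' → A) {x : ι} (hx : x ∈ S)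
    {m : ι'} (hm : m ∈ S') :
    (∑ p ∈ S ×ˢ S', t p • (E p.1 * E' p.2)) * (E x * E' m) = t (x, m) • (E x * E' m) := by
  have key : ∀ y ∈ S, ∀ m' ∈ S', E y * E' m' * (E x * E' m) = E y * E x * (E' m' * E' m) := by
    intro y _ m' hm'
    rw [mul_assoc, ← mul_assoc (E' m'), ← hc x hx m' hm', mul_assoc, mul_assoc]
  rw [Finset.sum_mul, Finset.sum_eq_single_of_mem (x, m) (Finset.mem_product.2 ⟨hx, hm⟩)]
  · rw [smul_mul_assoc, key x hx m hm, h.1 x hx, h'.1 m hm]
  · rintro ⟨y, m'⟩ hp hne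
    obtain ⟨hy, hm'⟩ := Finset.mem_product.1 hp
    rw [smul_mul_assoc, key y hy m' hm']
    by_cases e : y = x
    · have e' : m' ≠ m := fun e' => hne (Prod.ext e e')
      rw [h'.2.1 m' hm' m hm e', mul_zero, smul_zero]
    · rw [h.2.1 y hy x hx e, zero_mul, smul_zero]

theorem map_sum_smul {ι : Type} (S : Finset ι) (f : A →ₐ[k] A') (t : ι → A) (M : ι → Mat n A) :
    (∑ p ∈ S, t p • M p).map f = ∑ p ∈ S, f (t p) • (M p).map f := by
  ext i j
  simp [Matrix.sum_apply]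

theorem map_mul' (f : A →ₐ[k] A') (M N : Mat n A) : (M * N).map f = M.map f * N.map f :=
  Matrix.map_mul (f := (f : A →+* A'))

/-- The characters `δ ↦ u ^ φ δ`. -/
noncomputable def uh (A : Type u) [CommRing A] {Γ Γ' : Type} [AddCommGroup Γ] [AddCommGroup Γ']
    (φ : Γ →+ Γ') : Multiplicative Γ →* (GA A Γ')ˣ where
  toFun := fun δ => uu A (φ δ.toAdd)
  map_one' := Units.ext (by simp [uu, AddMonoidAlgebra.one_def])
  map_mul' := fun a b => Units.ext (by simp [uu, AddMonoidAlgebra.single_mul_single])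

/-- The substitution `u ^ δ ↦ 1 + ε f δ`. -/
noncomputable def tang (k : Type u) [Field k] [Algebra k A] {Γ : Type} [AddCommGroup Γ]
    (f : Γ →+ A) : GA A Γ →ₐ[k] DualNumber A :=
  (AddMonoidAlgebra.lift A (DualNumber A) Γ
    { toFun := fun m => TrivSqZeroExt.inl 1 + TrivSqZeroExt.inr (f m.toAdd)
      map_one' := by simp
      map_mul' := fun a b => TrivSqZeroExt.ext (by simp) (by simp [add_comm]) }).restrictScalars k

theorem tang_single {Γ : Type} [AddCommGroup Γ] (f : Γ →+ A) (m : Γ) (a : A) :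
    tang k f (AddMonoidAlgebra.single m a) =
      TrivSqZeroExt.inl a + TrivSqZeroExt.inr (a * f m) := by
  refine TrivSqZeroExt.ext ?_ ?_ <;> simp [tang]

theorem inLie_sum {Γ Γ' : Type} [AddCommGroup Γ] [AddCommGroup Γ'] {S : Finset Γ}
    {S' : Finset Γ'} {E : Γ → Mat n A} {E' : Γ' → Mat n A} (h : H.Tm S E) (h' : H.Tm S' E')
    (L : AddSubgroup (Γ × Γ')) (pr : Γ × Γ' → L)
    (hpr : ∀ p ∈ S ×ˢ S', E p.1 * E' p.2 ≠ 0 → (pr p : Γ × Γ') = p) (f : L →+ A) :
    H.InLie (∑ p ∈ S ×ˢ S', f (pr p) • (E p.1 * E' p.2)) := by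
  set j := IsScalarTower.toAlgHom k A (GA A (Γ × Γ')) with hj
  set j' := IsScalarTower.toAlgHom k A (GA A L) with hj'
  set ι : GA A L →ₐ[k] GA A (Γ × Γ') := AddMonoidAlgebra.mapDomainAlgHom k A L.subtype with hι
  have hinj : Function.Injective ι := AddMonoidAlgebra.mapDomain_injective Subtype.val_injective
  have hs : ∀ (d : L) (a : A), ι (AddMonoidAlgebra.single d a) =
      AddMonoidAlgebra.single (d : Γ × Γ') a := fun d a => by simp [hι]
  obtain ⟨g, hg, e1, e2⟩ := (h.mapM j).value (uh A (AddMonoidHom.inl Γ Γ'))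
  obtain ⟨g', hg', e1', e2'⟩ := (h'.mapM j).value (uh A (AddMonoidHom.inr Γ Γ'))
  have hjj : ∀ M : Mat n A, (M.map j').map ι = M.map j := fun M => by
    ext1 a b
    exact hs 0 _
  have gen : ∀ s : Γ × Γ' →+ Γ × Γ', ∀ s' : L → L,
      (∀ d, (s' d : Γ × Γ') = s d) →
      (∑ p ∈ S ×ˢ S', (AddMonoidAlgebra.single (s' (pr p)) (1 : A) : GA A L) •
        (E p.1 * E' p.2).map j').map ι =
      (∑ a ∈ S, (AddMonoidAlgebra.single (s (a, 0)) (1 : A) : GA A (Γ × Γ')) • (E a).map j) *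
        ∑ a ∈ S', (AddMonoidAlgebra.single (s (0, a)) (1 : A) : GA A (Γ × Γ')) •
          (E' a).map j := by
    intro s s' hss
    rw [map_sum_smul, Finset.sum_mul_sum, Finset.sum_product]
    refine Finset.sum_congr rfl fun a ha => Finset.sum_congr rfl fun b hb => ?_
    rw [hjj, smul_mul_smul_comm, ← map_mul']
    by_cases h0 : E a * E' b = 0
    · rw [h0, Matrix.map_zero _ (map_zero _), smul_zero, smul_zero]
    · rw [hs, hss, hpr (a, b) (Finset.mem_product.2 ⟨ha, hb⟩) h0,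
        AddMonoidAlgebra.single_mul_single, ← map_add, mul_one, Prod.mk_add_mk, add_zero, zero_add]
  have v1 := gen (AddMonoidHom.id _) id fun _ => rfl
  have hU : (∑ p ∈ S ×ˢ S', (AddMonoidAlgebra.single (pr p) (1 : A) : GA A L) •
      (E p.1 * E' p.2).map j').map ι = ((g * g' : GL (Fin n) _) : Mat n _) := by
    rw [Units.val_mul, e1, e1']
    exact v1
  have v2 := gen (-AddMonoidHom.id _) (fun d => -d) fun _ => rfl
  have hV : (∑ p ∈ S ×ˢ S', (AddMonoidAlgebra.single (-pr p) (1 : A) : GA A L) •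
      (E p.1 * E' p.2).map j').map ι = ((g⁻¹ * g'⁻¹ : GL (Fin n) _) : Mat n _) := by
    rw [Units.val_mul, e2, e2']
    exact v2
  have hdet : IsUnit (∑ p ∈ S ×ˢ S', (AddMonoidAlgebra.single (pr p) (1 : A) : GA A L) •
      (E p.1 * E' p.2).map j') := by
    rw [isUnit_iff_isUnit_det]
    refine IsUnit.of_mul_eq_one (∑ p ∈ S ×ˢ S',
      (AddMonoidAlgebra.single (-pr p) (1 : A) : GA A L) • (E p.1 * E' p.2).map j').det (hinj ?_)
    rw [map_mul, map_one, AlgHom.map_det, AlgHom.map_det, AlgHom.mapMatrix_apply,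
      AlgHom.mapMatrix_apply, hU, hV, Units.val_mul, Units.val_mul, det_mul, det_mul,
      mul_mul_mul_comm, ← det_mul, ← det_mul, Units.mul_inv, Units.mul_inv, det_one, mul_one]
  obtain ⟨g0, hg0⟩ := hdet
  have hmem : g0 ∈ H.G (GA A L) := by
    refine HS.G_of_gm ι hinj ?_
    have : gm ι g0 = g * g' := Units.ext (by
      rw [← hU, ← hg0]
      rfl)
    rw [this]
    exact mul_mem hg hg'
  refine ⟨gm (tang k f) g0, HS.G_gm _ hmem, ?_⟩
  have e3 : ((gm (tang k f) g0 : GL (Fin n) _) : Mat n _) = (g0 : Mat n _).map (tang k f) := rfl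
  have hone : ∑ p ∈ S ×ˢ S', E p.1 * E' p.2 = 1 := by
    rw [Finset.sum_product' (f := fun a b => E a * E' b), ← Finset.sum_mul_sum, h.1.2.2, h'.1.2.2,
      mul_one]
  rw [e3, hg0, map_sum_smul, ← hone]
  have e4 : ∀ a : A, tang k f (j' a) = TrivSqZeroExt.inl a := fun a => by
    have := tang_single (k := k) f 0 a
    rw [map_zero, mul_zero, TrivSqZeroExt.inr_zero, add_zero] at this
    exact this
  ext1 a b
  refine TrivSqZeroExt.ext ?_ ?_
  · simp [dual, Matrix.sum_apply, tang_single, e4, TrivSqZeroExt.fst_sum, -Matrix.map_mul]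
  · simp [dual, Matrix.sum_apply, tang_single, e4, TrivSqZeroExt.snd_sum, mul_comm,
      -Matrix.map_mul]

theorem exists_ne [Nontrivial A] (h : H.Tor χ e) {S : Finset ℤ} {E : ℤ → Mat n A} (hE : Idem S E)
    {x : Fin r → ℤ} (hx : x ∈ XX χ) : ∃ m ∈ S, e x * E m ≠ 0 := by
  by_contra hn
  push Not at hn
  refine h.ne_zero hx ?_
  rw [← mul_one (e x), ← hE.2.2, Finset.mul_sum]
  exact Finset.sum_eq_zero hn

theorem zt_field {F : Type u} [Field F] [Algebra k F] {e : (Fin r → ℤ) → Mat n F}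
    (h : H.Tor χ e) (hs : Submodule.span ℤ (Set.range χ) = ⊤)
    {S : Finset ℤ} {E : ℤ → Mat n F} (hE : H.Tm S E)
    (hc : ∀ x ∈ XX χ, ∀ m ∈ S, e x * E m = E m * e x) :
    ∃ a : (Fin r → ℤ) →+ ℤ, ∀ x ∈ XX χ, ∀ m ∈ S, e x * E m ≠ 0 → m = a x := by
  classical
  set Y : Set ((Fin r → ℤ) × ℤ) := {p | p.1 ∈ XX χ ∧ p.2 ∈ S ∧ e p.1 * E p.2 ≠ 0} with hY
  set L := AddSubgroup.closure Y with hL
  have hlin : ∀ f : L →+ F, ∃ c : Fin r → F, ∀ p : L, f p = pair p.1.1 c := by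
    intro f
    set pr : (Fin r → ℤ) × ℤ → L := fun p => if hp : p ∈ L then ⟨p, hp⟩ else 0 with hpr
    have hpr' : ∀ p (hp : p ∈ L), pr p = ⟨p, hp⟩ := fun p hp => dif_pos hp
    have h1 := inLie_sum h.tm hE L pr (fun p hp h0 => by
      obtain ⟨h2, h3⟩ := Finset.mem_product.1 hp
      rw [hpr' p (AddSubgroup.subset_closure ⟨h2, h3, h0⟩)]) f
    obtain ⟨c, hcc⟩ := h.pi0_lie h1
    rw [h.tm.1.pi0_eq fun y hy => by
      rw [Finset.sum_mul, Finset.mul_sum]
      refine Finset.sum_congr rfl fun p hp => ?_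
      obtain ⟨h2, h3⟩ := Finset.mem_product.1 hp
      have hxy : e p.1 * e y = e y * e p.1 := by
        by_cases e0 : p.1 = y
        · rw [e0]
        · rw [h.tm.1.2.1 _ h2 _ hy e0, h.tm.1.2.1 _ hy _ h2 (Ne.symm e0)]
      rw [smul_mul_assoc, mul_smul_comm, mul_assoc, ← hc y hy _ h3, ← mul_assoc, hxy,
        mul_assoc]] at hcc
    refine ⟨c, fun p => ?_⟩
    obtain ⟨p, hp⟩ := p
    induction hp using AddSubgroup.closure_induction with
    | mem p hp =>
      obtain ⟨h2, h3, h0⟩ := hp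
      have h4 := prod_mul h.tm.1 hE.1 hc (fun p => f (pr p)) h2 h3
      have h5 : tt χ e c * (e p.1 * E p.2) = pair p.1 c • (e p.1 * E p.2) := by
        rw [tt, Finset.sum_mul, Finset.sum_eq_single_of_mem p.1 h2]
        · rw [smul_mul_assoc, ← mul_assoc, h.tm.1.1 _ h2]
        · intro y hy hne
          rw [smul_mul_assoc, ← mul_assoc, h.tm.1.2.1 _ hy _ h2 hne, zero_mul, smul_zero]
      rw [hcc, h5] at h4
      have h6 := smul_left_injective F h0 h4
      exact (congrArg f (hpr' p _)).symm.trans h6.symm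
    | zero =>
      change f 0 = _
      simp [pair]
    | add p q hp hq ihp ihq =>
      change f (⟨p, hp⟩ + ⟨q, hq⟩) = _
      rw [map_add, ihp, ihq]
      simp [pair, add_mul, Finset.sum_add_distrib]
    | neg p hp ih =>
      change f (-⟨p, hp⟩) = _
      rw [map_neg, ih]
      simp [pair]
  have hsurj : ∀ x : Fin r → ℤ, ∃ m : ℤ, (x, m) ∈ L := by
    intro x
    have hx : x ∈ Submodule.span ℤ (Set.range χ) := hs ▸ Submodule.mem_top
    induction hx using Submodule.span_induction with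
    | mem x hx =>
      obtain ⟨i, rfl⟩ := hx
      have hi : χ i ∈ XX χ := Finset.mem_image.2 ⟨i, Finset.mem_univ _, rfl⟩
      obtain ⟨m, hm, h0⟩ := exists_ne h hE.1 hi
      exact ⟨m, AddSubgroup.subset_closure ⟨hi, hm, h0⟩⟩
    | zero => exact ⟨0, zero_mem L⟩
    | add x y _ _ hx hy =>
      obtain ⟨m, hm⟩ := hx
      obtain ⟨m', hm'⟩ := hy
      exact ⟨m + m', add_mem hm hm'⟩
    | smul t x _ hx =>
      obtain ⟨m, hm⟩ := hx
      exact ⟨t • m, zsmul_mem hm t⟩
  choose b hb using fun j : Fin r => hsurj (Pi.single j 1)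
  let a : (Fin r → ℤ) →+ ℤ :=
    { toFun := fun x => ∑ j, x j * b j
      map_zero' := by simp
      map_add' := fun x y => by simp [add_mul, Finset.sum_add_distrib] }
  have ha : ∀ x, (x, a x) ∈ L := fun x => by
    have e0 : (x, a x) = ∑ j, x j • ((Pi.single j 1 : Fin r → ℤ), b j) := by
      refine Prod.ext ?_ ?_
      · ext l
        simp [Prod.fst_sum, Finset.sum_apply, Pi.single_apply]
      · simp [a, Prod.snd_sum]
    rw [e0]
    exact sum_mem fun j _ => zsmul_mem (hb j) _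
  obtain ⟨m0, hm0⟩ := Int.subgroup_cyclic (L.comap (AddMonoidHom.inr (Fin r → ℤ) ℤ))
  have hdvd : ∀ p ∈ L, m0 ∣ p.2 - a p.1 := fun p hp => by
    have h1 : p.2 - a p.1 ∈ L.comap (AddMonoidHom.inr (Fin r → ℤ) ℤ) := by
      have := sub_mem hp (ha p.1)
      rw [AddSubgroup.mem_comap]
      have e0 : AddMonoidHom.inr (Fin r → ℤ) ℤ (p.2 - a p.1) = p - (p.1, a p.1) :=
        Prod.ext (by simp) (by simp)
      rwa [e0]
    rw [hm0, AddSubgroup.mem_closure_singleton] at h1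
    obtain ⟨t, ht⟩ := h1
    exact ⟨t, by rw [← ht, smul_eq_mul, mul_comm]⟩
  have hz : m0 = 0 := by
    by_contra h0
    have hmem : ((0 : Fin r → ℤ), m0) ∈ L := by
      have : m0 ∈ L.comap (AddMonoidHom.inr (Fin r → ℤ) ℤ) :=
        hm0 ▸ AddSubgroup.subset_closure rfl
      exact this
    obtain ⟨c, hcc⟩ := hlin
      { toFun := fun p => (((p.1.2 - a p.1.1) / m0 : ℤ) : F)
        map_zero' := by simp
        map_add' := fun p q => by
          rw [← Int.cast_add, ← Int.add_ediv_of_dvd_left (hdvd _ p.2)]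
          congr 2
          simp only [AddSubgroup.coe_add, Prod.snd_add, Prod.fst_add, map_add]
          ring }
    have h1 := hcc ⟨_, hmem⟩
    simp [pair, Int.ediv_self h0] at h1
  refine ⟨a, fun x hx m hm h0 => ?_⟩
  have h1 := hdvd (x, m) (AddSubgroup.subset_closure ⟨hx, hm, h0⟩)
  rw [hz, zero_dvd_iff] at h1
  exact sub_eq_zero.1 h1

theorem idem_eq_zero {F : Type u} [Field F] [Algebra k F] (f : A →ₐ[k] F)
    (hf : ∀ a, f a ≠ 0 → IsUnit a) {P : Mat n A} (hP : P * P = P) (h0 : P.map f = 0) : P = 0 := by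
  have hu : IsUnit (1 - P) := by
    rw [isUnit_iff_isUnit_det]
    refine hf _ ?_
    rw [AlgHom.map_det, map_sub, map_one, AlgHom.mapMatrix_apply, h0, sub_zero, det_one]
    exact one_ne_zero
  refine hu.mul_right_cancel ?_
  rw [mul_sub, mul_one, hP, sub_self, zero_mul]

end ZT

namespace HS

theorem Tor.zt [IsLocalRing A] (h : H.Tor χ e) (hs : Submodule.span ℤ (Set.range χ) = ⊤)
    {S : Finset ℤ} {E : ℤ → Mat n A} (hE : H.Tm S E)
    (hc : ∀ x ∈ XX χ, ∀ m ∈ S, e x * E m = E m * e x) :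
    ∃ a : (Fin r → ℤ) →+ ℤ, (∀ x ∈ XX χ, a x ∈ S) ∧ ∀ m ∈ S, E m = lamE χ e a m := by
  obtain ⟨a, ha⟩ := ZT.zt_field
    (h.map (IsScalarTower.toAlgHom k A (IsLocalRing.ResidueField A))) hs
    (hE.mapM (IsScalarTower.toAlgHom k A (IsLocalRing.ResidueField A)))
    fun x hx m hm => by rw [← ZT.map_mul', ← ZT.map_mul', hc x hx m hm]
  have hz : ∀ x ∈ XX χ, ∀ m ∈ S, m ≠ a x → e x * E m = 0 := fun x hx m hm hne => by
    refine ZT.idem_eq_zero (IsScalarTower.toAlgHom k A (IsLocalRing.ResidueField A))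
      (fun t ht => (IsLocalRing.residue_ne_zero_iff_isUnit t).1 ht) ?_ ?_
    · rw [mul_assoc, ← mul_assoc (E m), ← hc x hx m hm, mul_assoc, hE.1.1 m hm, ← mul_assoc,
        h.tm.1.1 x hx]
    · by_contra h0
      exact hne (ha x hx m hm (by rwa [← ZT.map_mul']))
  have hS : ∀ x ∈ XX χ, a x ∈ S := fun x hx => by
    obtain ⟨m, hm, h0⟩ := ZT.exists_ne h hE.1 hx
    by_contra hn
    exact h0 (hz x hx m hm fun e0 => hn (e0 ▸ hm))
  refine ⟨a, hS, fun m hm => ?_⟩
  rw [lamE, Finset.sum_filter, ← one_mul (E m), ← h.tm.1.2.2, Finset.sum_mul]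
  refine Finset.sum_congr rfl fun x hx => ?_
  by_cases e0 : a x = m
  · rw [if_pos e0]
    conv_rhs => rw [← mul_one (e x), ← hE.1.2.2, Finset.mul_sum]
    rw [Finset.sum_eq_single_of_mem m hm fun m' hm' hne => hz x hx m' hm' (e0 ▸ hne)]
  · rw [if_neg e0]
    exact hz x hx m hm (Ne.symm e0)

end HS

end Pool.Agent.GR
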