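import Pool.Agent.P.MP_c1f06d_ag.r.Bru
import Pool.Agent.P.MP_c1f06d_ag.r.TZT

open Matrix

universe u

namespace Pool.Agent.GR

section ring

variable {n r : ℕ} {A : Type u} [CommRing A] {Γ : Type} [AddCommGroup Γ]

/-- The weight projectors in the frame `γ`. -/
def fe {ι : Type} [DecidableEq ι] (γ : GL (Fin n) A) (c : Fin n → ι) (x : ι) : Mat n A :=
  (γ : Mat n A) * eps A c x * ((γ⁻¹ : GL (Fin n) A) : Mat n A)

theorem fe_inj {ι ι' : Type} [DecidableEq ι] [DecidableEq ι'] {γ : GL (Fin n) A} {c : Fin n → ι}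
    {c' : Fin n → ι'} {x : ι} {x' : ι'} (h : fe γ c x = fe γ c' x') : eps A c x = eps A c' x' :=
  (Units.mul_right_inj γ).1 ((Units.mul_left_inj γ⁻¹).1 h)

theorem lamE_fe (γ : GL (Fin n) A) (χ : Fin n → Fin r → ℤ) (a : (Fin r → ℤ) → ℤ) (m : ℤ) :
    lamE χ (fe γ χ) a m = fe γ (fun i => a (χ i)) m := by
  unfold lamE fe
  rw [← Finset.sum_mul, ← Finset.mul_sum]
  congr 2
  ext i j
  by_cases e : i = j <;> simp [Matrix.sum_apply, eps, e, chi_XX]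

theorem tmat_fe {k : Type u} [CommRing k] [Algebra k A] [DecidableEq Γ] (γ : GL (Fin n) A)
    {c : Fin n → Γ} {S : Finset Γ} (hS : ∀ i, c i ∈ S) : tmat S (fe γ c) =
      ((gm (IsScalarTower.toAlgHom k A (GA A Γ)) γ * rho A c *
        (gm (IsScalarTower.toAlgHom k A (GA A Γ)) γ)⁻¹ : GL (Fin n) (GA A Γ)) :
          Mat n (GA A Γ)) := by
  have e : ((rho A c : GL (Fin n) (GA A Γ)) : Mat n (GA A Γ)) = ∑ δ ∈ S,
      ((uu A δ : (GA A Γ)ˣ) : GA A Γ) • (eps A c δ).map (algebraMap A (GA A Γ)) := by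
    ext i j : 1
    by_cases e : i = j
    · rw [Matrix.sum_apply, Finset.sum_eq_single (c j) (fun δ _ h => by simp [eps, e, h.symm])
        fun h => absurd (hS j) h]
      simp [eps, e, rho, dgU, ← AddMonoidAlgebra.one_def]
    · simp [Matrix.sum_apply, eps, e, rho, dgU]
  rw [← map_inv, Units.val_mul, Units.val_mul, e, Finset.mul_sum, Finset.sum_mul, tmat]
  refine Finset.sum_congr rfl fun δ _ => ?_
  rw [Matrix.mul_smul, Matrix.smul_mul, fe, Matrix.map_mul, Matrix.map_mul]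
  rfl

end ring

namespace HS

variable {k : Type u} [Field k] {n r : ℕ} {H : HS k n} {A : Type u} [CommRing A] [Algebra k A]
  {Γ : Type} [AddCommGroup Γ]

theorem mem_St_frame (γ g : GL (Fin n) A) :
    g ∈ H.St (H.act γ⁻¹ (H.pt A)) ↔ γ * g * γ⁻¹ ∈ H.G A := by
  rw [mem_St, mem_G, H.act_mul, H.act_mul]
  exact ⟨fun h => by rw [h, act_act_inv], fun h => by
    conv_rhs => rw [← h, act_inv_act]⟩

theorem memM_tmat_fe [DecidableEq Γ] (γ : GL (Fin n) A) {c : Fin n → Γ} {S : Finset Γ}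
    (hS : ∀ i, c i ∈ S) : H.MemM (tmat S (fe γ c)) ↔ H.Fixed c (H.act γ⁻¹ (H.pt A)) := by
  rw [tmat_fe (k := k) γ hS, memM_val, ← mem_St_frame, mem_St]
  unfold Fixed orb
  rw [H.act_nat, pt_map, map_inv]

/-- A diagonalised family of idempotents is a homomorphism to `G` iff the base point is fixed. -/
theorem tm_fe_iff [DecidableEq Γ] (γ : GL (Fin n) A) (c : Fin n → Γ) :
    H.Tm (Finset.univ.image c) (fe γ c) ↔ H.Fixed c (H.act γ⁻¹ (H.pt A)) :=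
  have hS : ∀ i, c i ∈ Finset.univ.image c := fun i =>
    Finset.mem_image_of_mem _ (Finset.mem_univ i)
  ⟨fun h => (memM_tmat_fe γ hS).1 h.2,
    fun h => ⟨(idem_eps c).conj' γ, (memM_tmat_fe γ hS).2 h⟩⟩

variable {Ω : Type u} [Field Ω] [Algebra k Ω] {χ : Fin n → Fin r → ℤ} {γ : GL (Fin n) Ω}

theorem Tor.frame (hT : H.Tor χ (fe γ χ)) (hs : Submodule.span ℤ (Set.range χ) = ⊤) :
    H.Frame χ (H.act γ⁻¹ (H.pt Ω)) where
  fix := (memM_tmat_fe γ (chi_XX χ)).1 hT.tm.2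
  zt := fun q a hq ha => by
    have hq' : Intw χ χ (q : Mat n Ω) := hq
    have h1 : H.Tm (Finset.univ.image a) (fe (γ * q⁻¹) a) := (tm_fe_iff _ a).2 (by
      rwa [_root_.mul_inv_rev, inv_inv, H.act_mul])
    have h2 : ∀ {ι : Type} [DecidableEq ι] (f : (Fin r → ℤ) → ι) (m : ι),
        fe γ (fun i => f (χ i)) m = fe (γ * q⁻¹) (fun i => f (χ i)) m := fun f m => by
      unfold fe
      conv_lhs => rw [← (hq'.inv.comp f).conj m]
      simp only [_root_.mul_inv_rev, Units.val_mul, Matrix.mul_assoc]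
    obtain ⟨a₀, -, h⟩ := hT.zt hs h1 fun x _ m _ => by
      rw [show fe γ χ x = fe (γ * q⁻¹) χ x from h2 id x]
      unfold fe
      simp only [Matrix.mul_assoc, Units.inv_mul_cancel_left]
      rw [← Matrix.mul_assoc (eps Ω a m), ← Matrix.mul_assoc (eps Ω χ x), eps, eps,
        (commute_diagonal _ _).eq]
    refine ⟨a₀, fun i => ?_⟩
    have h3 := h (a i) (Finset.mem_image_of_mem _ (Finset.mem_univ i))
    rw [lamE_fe, h2] at h3
    have h4 := congrFun (congrFun (fe_inj h3) i) i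
    by_contra e
    simp [eps, Ne.symm e] at h4

/-- CONJ. -/
theorem Tor.conj_cochar (hT : H.Tor χ (fe γ χ)) (hs : Submodule.span ℤ (Set.range χ) = ⊤)
    (a : Fin n → ℤ) (κ : GL (Fin n) Ω) (hfix : H.Fixed a (H.act κ⁻¹ (H.pt Ω))) :
    ∃ (a₀ : (Fin r → ℤ) →+ ℤ) (g : GL (Fin n) Ω), g ∈ H.G Ω ∧
      ∀ m : ℤ, fe (g * κ) a m = lamE χ (fe γ χ) a₀ m := by
  obtain ⟨a₀, g, hg, -, hi⟩ := (hT.frame hs).conj (β := γ⁻¹ * κ) (a := a)
    (fixed_zero (Γ := ℤ) _) (by rwa [_root_.mul_inv_rev, inv_inv, H.act_mul, act_act_inv])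
    fun _ _ h => absurd rfl h
  refine ⟨a₀, γ * g * γ⁻¹, (mem_St_frame γ g).1 hg, fun m => ?_⟩
  rw [lamE_fe]
  unfold fe
  rw [← hi.conj m]
  simp only [_root_.mul_inv_rev, Units.val_mul, Matrix.mul_assoc]

variable (H) in
/-- The Weyl group, as a group of permutations of the weights. -/
def WG (χ : Fin n → Fin r → ℤ) (y : H.B →ₐ[k] A) : Subgroup (Equiv.Perm (XX χ)) where
  carrier := {σ | ∃ g ∈ H.St y, ∀ x : XX χ,
    eps A χ x * (g : Mat n A) = (g : Mat n A) * eps A χ (σ x)}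
  one_mem' := ⟨1, one_mem _, fun x => by simp⟩
  mul_mem' := by
    rintro σ τ ⟨g, hg, h⟩ ⟨g', hg', h'⟩
    exact ⟨g' * g, mul_mem hg' hg, fun x => by
      rw [Units.val_mul, ← Matrix.mul_assoc, h', Matrix.mul_assoc, h, Matrix.mul_assoc]
      rfl⟩
  inv_mem' := by
    rintro σ ⟨g, hg, h⟩
    refine ⟨g⁻¹, inv_mem hg, fun x => ?_⟩
    have := h (σ⁻¹ x)
    rw [show σ (σ⁻¹ x) = x from σ.apply_symm_apply x] at this
    rw [Units.eq_inv_mul_iff_mul_eq, ← Matrix.mul_assoc, ← this, Units.mul_inv_cancel_right]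

theorem Frame.wg_add {y : H.B →ₐ[k] Ω} (F : H.Frame χ y) {σ : Equiv.Perm (XX χ)}
    (hσ : σ ∈ H.WG χ y) (a : (Fin r → ℤ) →+ ℤ) :
    ∃ a' : (Fin r → ℤ) →+ ℤ, ∀ x : XX χ, a' x = a (σ x) := by
  obtain ⟨g, hg, h⟩ := hσ
  have hi : Intw (fun i => a (σ ⟨χ i, chi_XX χ i⟩)) (fun j => a (χ j)) (g : Mat n Ω) :=
    fun i j e => by
      have h1 := congrFun (congrFun (h ⟨χ i, chi_XX χ i⟩) i) j
      have h2 : χ j ≠ σ ⟨χ i, chi_XX χ i⟩ := fun e' => e (congrArg a e').symm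
      simpa [eps, diagonal_mul, mul_diagonal, h2] using h1
  obtain ⟨a', ha'⟩ := F.zt 1 _ (InL.one χ) (by
    have := (F.fix.push a).intw hi
    rwa [show H.act g y = y from hg, ← H.act_one y] at this)
  refine ⟨a', fun x => ?_⟩
  obtain ⟨i, hi⟩ := exists_of_XX x.2
  have : x = ⟨χ i, chi_XX χ i⟩ := Subtype.ext hi.symm
  rw [this, ← ha' i]

theorem Frame.wg_central {y : H.B →ₐ[k] Ω} (F : H.Frame χ y) {ν : (Fin r → ℤ) →+ ℤ}
    (hν : ∀ σ ∈ H.WG χ y, ∀ x : XX χ, ν (σ x) = ν x) {g : GL (Fin n) Ω} (hg : g ∈ H.St y) :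
    InL (fun i => ν (χ i)) (g : Mat n Ω) := by
  refine F.central (fun g hg σ hσ => hν σ ⟨g⁻¹, inv_mem hg, fun x => ?_⟩) hg
  rw [← hσ.inv.eps_mul]
  congr 1
  unfold eps
  congr 1
  funext j
  refine if_congr ⟨fun h => ?_, fun h => ?_⟩ rfl rfl
  · exact congrArg (fun z => (σ z : Fin r → ℤ)) (Subtype.ext h)
  · exact congrArg Subtype.val (σ.injective (Subtype.ext h))

/-- WEYL, in the form of an average over the Weyl group. -/
theorem Tor.weyl_avg (hT : H.Tor χ (fe γ χ)) (hs : Submodule.span ℤ (Set.range χ) = ⊤)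
    (a : (Fin r → ℤ) →+ ℤ) : ∃ (d : ℕ) (pe : Fin d → Equiv.Perm (Fin r → ℤ))
      (nw : Fin d → GL (Fin n) Ω) (ν : (Fin r → ℤ) →+ ℤ), 0 < d ∧ (∀ w, nw w ∈ H.G Ω) ∧
      (∀ w x, pe w x ∈ XX χ ↔ x ∈ XX χ) ∧
      (∀ w, ∀ x ∈ XX χ, (nw w : Mat n Ω) * fe γ χ (pe w x) *
        (((nw w)⁻¹ : GL (Fin n) Ω) : Mat n Ω) = fe γ χ x) ∧
      (∀ x ∈ XX χ, ν x = ∑ w, a (pe w x)) ∧
      ∀ g ∈ H.G Ω, ∀ m : ℤ, Commute (g : Mat n Ω) (lamE χ (fe γ χ) ν m) := by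
  classical
  have F := hT.frame hs
  set y := H.act γ⁻¹ (H.pt Ω) with hy
  let ε := (Fintype.equivFin (H.WG χ y)).symm
  choose g hg h using fun σ : H.WG χ y => σ.2
  choose a' ha' using fun σ : H.WG χ y => F.wg_add σ.2 a
  have hν : ∀ x : XX χ, (∑ σ, a' σ) x = ∑ σ : H.WG χ y, a (σ.1 x) := fun x => by
    simp [ha']
  refine ⟨_, fun w => Equiv.Perm.ofSubtype (ε w).1, fun w => γ * g (ε w) * γ⁻¹, ∑ σ, a' σ,
    Fintype.card_pos, fun w => (mem_St_frame γ _).1 (hg _),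
    fun w x => Equiv.Perm.ofSubtype_apply_mem_iff_mem _ x, fun w x hx => ?_, fun x hx => ?_,
    fun p hp m => ?_⟩
  · rw [Equiv.Perm.ofSubtype_apply_of_mem _ hx]
    unfold fe
    simp only [_root_.mul_inv_rev, Units.val_mul, Matrix.mul_assoc, Units.inv_mul_cancel_left,
      inv_inv]
    rw [← Matrix.mul_assoc (g (ε w) : Mat n Ω), ← h (ε w) ⟨x, hx⟩, Matrix.mul_assoc,
      Units.mul_inv_cancel_left]
  · rw [hν ⟨x, hx⟩, ← ε.sum_comp]
    exact Finset.sum_congr rfl fun w _ => by rw [Equiv.Perm.ofSubtype_apply_of_mem _ hx]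
  · have h1 : Intw (fun i => (∑ σ, a' σ) (χ i)) (fun i => (∑ σ, a' σ) (χ i))
        ((γ⁻¹ * p * γ : GL (Fin n) Ω) : Mat n Ω) := F.wg_central (fun τ hτ x => by
      rw [hν, hν]
      exact Equiv.sum_comp (Equiv.mulRight (⟨τ, hτ⟩ : H.WG χ y))
        fun σ : H.WG χ y => a (σ.1 x))
        ((mem_St_frame γ _).2 (by simpa [mul_assoc] using hp))
    have h2 := h1.eps_mul m
    rw [lamE_fe]
    unfold fe
    have h3 := congrArg (fun X => (γ : Mat n Ω) * X * ((γ⁻¹ : GL (Fin n) Ω) : Mat n Ω)) h2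
    simp only [Units.val_mul, Matrix.mul_assoc, Units.mul_inv_cancel_left, Units.mul_inv,
      Matrix.mul_one] at h3
    show _ = _
    simp only [Matrix.mul_assoc]
    exact h3.symm

variable (H) (D : H.Datum) (io : D.l →ₐ[k] Ω)

theorem conj_cochar (a : Fin n → ℤ) (ka : GL (Fin n) Ω)
    (hfix : H.Fixed a (H.act ka⁻¹ (H.pt Ω))) :
    ∃ (a0 : (Fin D.r → ℤ) →+ ℤ) (g : GL (Fin n) Ω), g ∈ H.G Ω ∧ ∀ m : ℤ,
      ((g * ka : GL (Fin n) Ω) : Mat n Ω) * eps Ω a m *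
        (((g * ka)⁻¹ : GL (Fin n) Ω) : Mat n Ω) = lamE D.χ (D.es io) a0 m :=
  Tor.conj_cochar (γ := gm io D.γ) (D.tor_es io) D.span a ka hfix

theorem weyl_avg (a : (Fin D.r → ℤ) →+ ℤ) :
    ∃ (d : ℕ) (pe : Fin d → Equiv.Perm (Fin D.r → ℤ)) (nw : Fin d → GL (Fin n) Ω)
      (nu : (Fin D.r → ℤ) →+ ℤ), 0 < d ∧ (∀ w, nw w ∈ H.G Ω) ∧
      (∀ w x, pe w x ∈ XX D.χ ↔ x ∈ XX D.χ) ∧
      (∀ w, ∀ x ∈ XX D.χ, (nw w : Mat n Ω) * D.es io (pe w x) *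
        (((nw w)⁻¹ : GL (Fin n) Ω) : Mat n Ω) = D.es io x) ∧
      (∀ x ∈ XX D.χ, nu x = ∑ w, a (pe w x)) ∧
      ∀ g ∈ H.G Ω, ∀ m : ℤ, Commute (g : Mat n Ω) (lamE D.χ (D.es io) nu m) :=
  Tor.weyl_avg (γ := gm io D.γ) (D.tor_es io) D.span a

end HS

end Pool.Agent.GR
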