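import Pool.Agent.P.MP_c1f06d_ag.r.K2Defs
import Pool.Agent.P.MP_c1f06d_ag.r.Weyl

open Matrix Polynomial

universe u

namespace Pool.Agent.GR

namespace K2Onto

variable {Om : Type u} [Field Om]

/-- Chinese remainders at translated points, with a degree bound. -/
theorem crt {d : ℕ} (c : Fin d → Om) (q t : Fin d → Om[X]) (hm : ∀ w, (q w).Monic)
    (hc : Pairwise fun w w' => IsCoprime (taylor (-c w) (q w)) (taylor (-c w') (q w'))) :
    ∃ u : Om[X], u.degree < (∑ w, (q w).natDegree : ℕ) ∧ ∀ w, q w ∣ t w - taylor (c w) u := by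
  obtain ⟨u, hu⟩ := Ideal.pi_quotient_surjective (I := fun w => Ideal.span {taylor (-c w) (q w)})
    (fun w w' h => (Ideal.isCoprime_span_singleton_iff _ _).2 (hc h))
    fun w => Ideal.Quotient.mk _ (taylor (-c w) (t w))
  have hm' : ∀ w, (taylor (-c w) (q w)).Monic := fun w => by
    rw [Monic, leadingCoeff_taylor]
    exact hm w
  have hQ : (∏ w, taylor (-c w) (q w)).Monic := monic_prod_of_monic _ _ fun w _ => hm' w
  refine ⟨u %ₘ ∏ w, taylor (-c w) (q w), ?_, fun w => ?_⟩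
  · have h := degree_modByMonic_lt u hQ
    rw [degree_eq_natDegree hQ.ne_zero, natDegree_prod_of_monic _ _ fun w _ => hm' w] at h
    simpa only [natDegree_taylor] using h
  · have h1 : taylor (-c w) (q w) ∣ taylor (-c w) (t w) - u :=
      Ideal.mem_span_singleton.1 (Ideal.Quotient.eq.1 (hu w).symm)
    have h2 : taylor (-c w) (q w) ∣ u - u %ₘ ∏ w, taylor (-c w) (q w) := by
      rw [modByMonic_eq_sub_mul_div, sub_sub_cancel]
      exact (Finset.dvd_prod_of_mem _ (Finset.mem_univ w)).mul_right _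
    have h3 := map_dvd (taylorAlgHom (c w)) (h1.add h2)
    simpa [taylor_taylor] using h3

variable {n r : ℕ}

theorem phm_fe (γ : GL (Fin n) Om) (χ : Fin n → Fin r → ℤ) (p : (Fin r → ℤ) → Om[X]) :
    phm χ (fe γ χ) p = (γ : Mat n Om).map C * diagonal (fun i => p (χ i)) *
      ((γ⁻¹ : GL (Fin n) Om) : Mat n Om).map C := by
  have e : diagonal (fun i => p (χ i)) = ∑ x ∈ XX χ, p x • (eps Om χ x).map C := by
    ext i j : 1
    by_cases e : i = j
    · rw [Matrix.sum_apply, Finset.sum_eq_single (χ j) (fun δ _ h => by simp [eps, e, h.symm])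
        fun h => absurd (chi_XX χ j) h]
      simp [eps, e]
    · simp [Matrix.sum_apply, eps, e]
  rw [e, Finset.mul_sum, Finset.sum_mul, phm]
  refine Finset.sum_congr rfl fun δ _ => ?_
  rw [Matrix.mul_smul, Matrix.smul_mul, fe, Matrix.map_mul, Matrix.map_mul]

theorem phm_conj {χ : Fin n → Fin r → ℤ} {e : (Fin r → ℤ) → Mat n Om} (p : (Fin r → ℤ) → Om[X])
    {π : Equiv.Perm (Fin r → ℤ)} (hπ : ∀ x, π x ∈ XX χ ↔ x ∈ XX χ) {g : GL (Fin n) Om}
    (h : ∀ x ∈ XX χ, (g : Mat n Om) * e (π x) * ((g⁻¹ : GL (Fin n) Om) : Mat n Om) = e x) :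
    (g : Mat n Om).map C * phm χ e p = phm χ e (fun x => p (π x)) * (g : Mat n Om).map C := by
  rw [phm, phm, Finset.mul_sum, Finset.sum_mul]
  refine (Finset.sum_equiv π (fun x => (hπ x).symm) fun x hx => ?_).symm
  rw [Matrix.mul_smul, Matrix.smul_mul, ← Matrix.map_mul, ← Matrix.map_mul, ← h x hx,
    Units.inv_mul_cancel_right]

end K2Onto

namespace HS

open K2Onto

variable {k : Type u} [Field k] {n : ℕ} {H : HS k n} {Om : Type u} [Field Om] [Algebra k Om]

theorem Typ.onto {D : H.Datum} {io : D.l →ₐ[k] Om} {h : Om[X]} {M : ℕ} {P₁ : Mat n Om[X]}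
    {a : (Fin D.r → ℤ) →+ ℤ} {p : (Fin D.r → ℤ) → Om[X]} (hT : H.Typ D io h M P₁ a p) {d : ℕ}
    {pe : Fin d → Equiv.Perm (Fin D.r → ℤ)} {nw : Fin d → GL (Fin n) Om}
    {ν : (Fin D.r → ℤ) →+ ℤ} (hW : H.Wey D io a d pe nw ν) (c : Fin d → Om)
    (hc : Pairwise fun w w' => IsCoprime (taylor (-c w) h) (taylor (-c w') h))
    (β : GL (Fin n) Om) (ν₁ : Fin n → ℤ)
    (hβ : ∀ m, (β : Mat n Om) * eps Om ν₁ m * ((β⁻¹ : GL (Fin n) Om) : Mat n Om) =
      lamE D.χ (D.es io) ν m)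
    (dg : Fin n → ℕ) (hdg : ∀ i, (dg i : ℤ) = d * (M * h.natDegree) + ν₁ i) :
    ∃ g₀ : Fin d → GL (Fin n) (Ab h (2 * M)), (∀ w, g₀ w ∈ H.G (Ab h (2 * M))) ∧
      ∀ T : Fin d → Mat n Om[X],
        (∀ w, (T w).map (AdjoinRoot.mk (h ^ (2 * M))) = (g₀ w : Mat n (Ab h (2 * M)))) →
          Onto (h ^ (2 * M)) dg c (β : Mat n Om) fun w => T w * P₁ := by
  obtain ⟨g, kk, hg, hP⟩ := hT.fac
  set γ := gm io D.γ with hγ
  set ι := IsScalarTower.toAlgHom k Om (Ab h (2 * M)) with hι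
  set mk := AdjoinRoot.mk (h ^ (2 * M)) with hmk
  have hes : D.es io = fe γ D.χ := rfl
  have hmC : ∀ x : GL (Fin n) Om, ((x : Mat n Om).map C).map mk =
      (gm ι x : Mat n (Ab h (2 * M))) := fun x => rfl
  have hCC : ∀ x : GL (Fin n) Om, (x : Mat n Om).map (C : Om →+* Om[X]) *
      ((x⁻¹ : GL (Fin n) Om) : Mat n Om).map C = 1 := fun x => by
    rw [← Matrix.map_mul, Units.mul_inv, Matrix.map_one _ (map_zero _) (map_one _)]
  have hi : Intw ν₁ (fun i => ν (D.χ i)) ((β⁻¹ * γ : GL (Fin n) Om) : Mat n Om) :=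
    intw_of_eps fun j => by
      have e := congrArg (fun Z => ((β⁻¹ : GL (Fin n) Om) : Mat n Om) * Z * (γ : Mat n Om))
        (hβ (ν (D.χ j)))
      rw [hes, lamE_fe] at e
      simpa only [fe, Units.val_mul, Matrix.mul_assoc, Units.inv_mul_cancel_left, Units.inv_mul,
        Matrix.mul_one] using e
  refine ⟨fun w => gm ι (nw w) * g⁻¹, fun w => mul_mem (H.G_map ι (hW.mem w)) (inv_mem hg),
    fun T hTw t => ?_⟩
  have hx : ∀ w i, pe w (D.χ i) ∈ XX D.χ := fun w i => (hW.perm w _).2 (chi_XX D.χ i)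
  have hd : ∀ w i, taylor (-c w) (p (pe w (D.χ i))) ∣ taylor (-c w) h ^ (2 * M) := fun w i => by
    rw [← taylor_pow]
    obtain ⟨s, hs⟩ := hT.dvd _ (hx w i)
    exact ⟨taylor (-c w) s, by rw [hs, taylor_mul]⟩
  choose u hu hu' using fun i => crt c (fun w => p (pe w (D.χ i)))
    (fun w => (((γ⁻¹ : GL (Fin n) Om) : Mat n Om).map C *ᵥ t w) i) (fun w => hT.monic _ (hx w i))
    fun w w' e => IsCoprime.of_isCoprime_of_dvd_right
      (IsCoprime.of_isCoprime_of_dvd_left (IsCoprime.pow (hc e)) (hd w i)) (hd w' i)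
  choose z hz using hu'
  refine ⟨((β⁻¹ * γ : GL (Fin n) Om) : Mat n Om).map C *ᵥ u, fun j => ?_, fun w => ?_⟩
  · rw [mulVec, dotProduct]
    refine (degree_sum_le _ _).trans_lt ((Finset.sup_lt_iff (WithBot.bot_lt_coe _)).2
      fun i _ => ?_)
    by_cases e : ν₁ j = ν (D.χ i)
    · have e2 : ∑ w, (p (pe w (D.χ i))).natDegree = dg j := by
        zify
        rw [hdg, e, hW.sum _ (chi_XX D.χ i), Finset.sum_congr rfl fun w _ => hT.deg _ (hx w i),
          Finset.sum_add_distrib]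
        simp
      refine lt_of_le_of_lt ?_ (e2 ▸ hu i)
      rw [map_apply, ← smul_eq_C_mul]
      exact degree_smul_le _ _
    · rw [map_apply, hi j i e, map_zero, zero_mul, degree_zero]
      exact WithBot.bot_lt_coe _
  · have e1 : (β : Mat n Om).map C *ᵥ (((β⁻¹ * γ : GL (Fin n) Om) : Mat n Om).map C *ᵥ u) =
        (γ : Mat n Om).map C *ᵥ u := by
      rw [mulVec_mulVec, ← Matrix.map_mul, ← Units.val_mul, mul_inv_cancel_left]
    have e2 : (fun i => taylor (c w) (((γ : Mat n Om).map C *ᵥ u) i)) =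
        (γ : Mat n Om).map C *ᵥ fun i => taylor (c w) (u i) := by
      funext i
      simp [mulVec, dotProduct, taylor_mul]
    have e3 : t w - (γ : Mat n Om).map C *ᵥ (fun i => taylor (c w) (u i)) =
        phm D.χ (D.es io) (fun x => p (pe w x)) *ᵥ ((γ : Mat n Om).map C *ᵥ fun i => z i w) := by
      have e4 := hCC γ⁻¹
      rw [inv_inv] at e4
      rw [hes, phm_fe, mulVec_mulVec, Matrix.mul_assoc, e4, Matrix.mul_one, ← mulVec_mulVec]
      conv_lhs => rw [← one_mulVec (t w), ← hCC γ, ← mulVec_mulVec, ← mulVec_sub]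
      congr 1
      funext i
      rw [mulVec_diagonal, Pi.sub_apply, hz]
    have e5 : (T w * P₁).map mk = (phm D.χ (D.es io) fun x => p (pe w x)).map mk *
        ((gm ι (nw w) * kk : GL (Fin n) (Ab h (2 * M))) : Mat n (Ab h (2 * M))) := by
      rw [Matrix.map_mul, hTw, hP, Units.val_mul, Units.val_mul, ← hmC, ← Matrix.mul_assoc,
        ← Matrix.mul_assoc, Units.inv_mul_cancel_right, ← Matrix.mul_assoc, ← Matrix.map_mul,
        ← Matrix.map_mul, phm_conj p (hW.perm w) (hW.conj w)]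
    choose η hη using fun i => AdjoinRoot.mk_surjective (g := h ^ (2 * M))
      (((((gm ι (nw w) * kk)⁻¹ : GL (Fin n) (Ab h (2 * M))) : Mat n (Ab h (2 * M))) *ᵥ
        (mk ∘ ((γ : Mat n Om).map C *ᵥ fun i => z i w))) i)
    have e6 : ∀ i, h ^ (2 * M) ∣ (phm D.χ (D.es io) (fun x => p (pe w x)) *ᵥ
        ((γ : Mat n Om).map C *ᵥ fun i => z i w) - (T w * P₁) *ᵥ η) i := fun i => by
      rw [← AdjoinRoot.mk_eq_zero, Pi.sub_apply, map_sub, RingHom.map_mulVec, RingHom.map_mulVec,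
        e5, show mk ∘ η = _ from funext hη, mulVec_mulVec, Units.mul_inv_cancel_right, sub_self]
    choose θ hθ using e6
    refine ⟨η, θ, ?_⟩
    rw [e1, e2, show h ^ (2 * M) • θ = _ from (funext hθ).symm, ← e3]
    abel

end HS

end Pool.Agent.GR
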