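import Pool.Agent.P.MP_c1f06d_ag.r.K2Loc

open Matrix Polynomial

universe u

namespace Pool.Agent.GR

namespace K2Typ

variable {k : Type u} [Field k] {n : ℕ} {Om : Type u} [Field Om] [Algebra k Om]

/-- Reduction to a divisor. -/
noncomputable def rd (k : Type u) [Field k] [Algebra k Om] {p q : Om[X]} (hd : q ∣ p) :
    AdjoinRoot p →ₐ[k] AdjoinRoot q := (AdjoinRoot.algHomOfDvd Om p q hd).restrictScalars k

theorem rd_mk {p q : Om[X]} (hd : q ∣ p) (x : Om[X]) :
    rd k hd (AdjoinRoot.mk p x) = AdjoinRoot.mk q x := by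
  show AdjoinRoot.algHomOfDvd Om p q hd _ = _
  rw [← AdjoinRoot.aeval_eq, ← AdjoinRoot.aeval_eq, ← aeval_algHom_apply,
    AdjoinRoot.algHomOfDvd_root]

variable {I : Type u} [Fintype I] {Q : Om[X]} {q : I → Om[X]} (hq : ∀ i, q i ∣ Q)
  (hc : Pairwise fun i j => IsCoprime (q i) (q j)) (hQ : Q ∣ ∏ i, q i)

include hc hQ in
theorem rd_inj (a a' : AdjoinRoot Q) (h : ∀ i, rd k (hq i) a = rd k (hq i) a') : a = a' := by
  obtain ⟨x, rfl⟩ := AdjoinRoot.mk_surjective a
  obtain ⟨x', rfl⟩ := AdjoinRoot.mk_surjective a'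
  rw [AdjoinRoot.mk_eq_mk]
  refine hQ.trans (Fintype.prod_dvd_of_coprime hc fun i => ?_)
  rw [← AdjoinRoot.mk_eq_mk, ← rd_mk (k := k) (hq i), ← rd_mk (k := k) (hq i), h]

include hc in
theorem rd_surj (b : ∀ i, AdjoinRoot (q i)) : ∃ a : AdjoinRoot Q, ∀ i, rd k (hq i) a = b i := by
  choose x hx using fun i => AdjoinRoot.mk_surjective (b i)
  obtain ⟨y, hy⟩ := Ideal.exists_forall_sub_mem_ideal (I := fun i => Ideal.span {q i})
    (fun i j hij => (Ideal.isCoprime_span_singleton_iff _ _).2 (hc hij)) x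
  exact ⟨AdjoinRoot.mk Q y, fun i => by
    rw [rd_mk, ← hx, AdjoinRoot.mk_eq_mk, ← Ideal.mem_span_singleton]; exact hy i⟩

include hc hQ in
theorem rd_gl (g : ∀ i, GL (Fin n) (AdjoinRoot (q i))) :
    ∃ g0 : GL (Fin n) (AdjoinRoot Q), ∀ i, gm (rd k (hq i)) g0 = g i := by
  choose a ha using fun s t => rd_surj (k := k) hq hc fun i => (g i : Mat n _) s t
  choose b hb using fun s t => rd_surj (k := k) hq hc fun i =>
    (((g i)⁻¹ : GL (Fin n) _) : Mat n _) s t
  have ea : ∀ i, (of a : Mat n _).map (rd k (hq i)) = (g i : Mat n _) :=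
    fun i => Matrix.ext fun s t => ha s t i
  have eb : ∀ i, (of b : Mat n _).map (rd k (hq i)) = (((g i)⁻¹ : GL (Fin n) _) : Mat n _) :=
    fun i => Matrix.ext fun s t => hb s t i
  have ext : ∀ M M' : Mat n (AdjoinRoot Q), (∀ i, M.map (rd k (hq i)) = M'.map (rd k (hq i))) →
      M = M' := fun M M' h => Matrix.ext fun s t => rd_inj (k := k) hq hc hQ _ _ fun i =>
    congrFun (congrFun (h i) s) t
  exact ⟨⟨of a, of b, ext _ _ fun i => by rw [mapM_mul, ea, eb, Units.mul_inv, mapM_one],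
    ext _ _ fun i => by rw [mapM_mul, ea, eb, Units.inv_mul, mapM_one]⟩,
    fun i => Units.ext (ea i)⟩

end K2Typ

namespace HS

variable {k : Type u} [Field k] {n : ℕ} (H : HS k n) {Om : Type u} [Field Om] [Algebra k Om]

/-- A point is in `G` if it is so after a jointly injective family of maps. -/
theorem G_of_family {A : Type u} [CommRing A] [Algebra k A] {I : Type u} (T : I → Type u)
    [∀ i, CommRing (T i)] [∀ i, Algebra k (T i)] (φ : ∀ i, A →ₐ[k] T i)
    (hφ : ∀ a a', (∀ i, φ i a = φ i a') → a = a') {g : GL (Fin n) A}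
    (hg : ∀ i, gm (φ i) g ∈ H.G (T i)) : g ∈ H.G A := by
  refine AlgHom.ext fun b => hφ _ _ fun i => ?_
  have e := H.act_nat (φ i) g (H.pt A)
  rw [H.pt_map, H.mem_G.1 (hg i), ← H.pt_map (φ i)] at e
  exact AlgHom.congr_fun e b

theorem phm_eq (D : H.Datum) (ι : D.l →ₐ[k] Om) (p : (Fin D.r → ℤ) → Om[X]) :
    phm D.χ (D.es ι) p = ((gm ι D.γ : GL (Fin n) Om) : Mat n Om).map C *
      diagonal (fun i => p (D.χ i)) * (((gm ι D.γ)⁻¹ : GL (Fin n) Om) : Mat n Om).map C := by
  have e : diagonal (fun i => p (D.χ i)) = ∑ x ∈ XX D.χ, p x • (eps Om D.χ x).map C := by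
    ext i j : 2
    rw [Matrix.sum_apply, Finset.sum_eq_single_of_mem _ (mem_XX D.χ i)]
    · by_cases hij : i = j
      · subst hij; simp [eps]
      · simp [eps, hij]
    · intro x _ hx
      by_cases hij : i = j
      · subst hij; simp [eps, hx.symm]
      · simp [eps, hij]
  rw [e, Finset.mul_sum, Finset.sum_mul, phm]
  refine Finset.sum_congr rfl fun x _ => ?_
  rw [Matrix.mul_smul, Matrix.smul_mul, Datum.es, Matrix.map_mul, Matrix.map_mul]

theorem det_phm (D : H.Datum) (ι : D.l →ₐ[k] Om) (p : (Fin D.r → ℤ) → Om[X]) :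
    (phm D.χ (D.es ι) p).det = ∏ i, p (D.χ i) := by
  rw [phm_eq, det_mul_right_comm, ← Matrix.map_mul, Units.mul_inv,
    Matrix.map_one _ C_0 C_1, Matrix.one_mul, det_diagonal]

theorem phm_mul (D : H.Datum) (ι : D.l →ₐ[k] Om) (p p' : (Fin D.r → ℤ) → Om[X]) :
    phm D.χ (D.es ι) p * phm D.χ (D.es ι) p' = phm D.χ (D.es ι) fun x => p x * p' x := by
  simp only [phm_eq, Matrix.mul_assoc]
  rw [← Matrix.mul_assoc (Matrix.map _ C) (Matrix.map _ C), ← Matrix.map_mul, Units.inv_mul,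
    Matrix.map_one _ C_0 C_1, Matrix.one_mul, ← Matrix.mul_assoc (diagonal _),
    diagonal_mul_diagonal]

/-- GLUE. `k2_loc` at every root `z` with `N = 2 M m_z`; `p x = ∏ (X - C z) ^ e_z x`, `a = ∑ a_z`.
The maps `Ab h (2 M) → Ab (X - C z) (2 M m_z)` are jointly injective and jointly onto; glue `g`
and, separately, `kk` (corrected by the invertible `∑ (p x / (X - C z) ^ e_z x) • e x`).
The determinant: `det P₁` and `∏ p (χ i)` have the same multiplicity at every root of `h`. -/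
theorem k2_typ [IsAlgClosed Om] (D : H.Datum) (ι : D.l →ₐ[k] Om) (hc : H.ConjP D ι) {h : Om[X]}
    (hm : h.Monic) {M : ℕ} {P₁ P₂ : Mat n Om[X]} {f : Om[X]} {y : H.B →ₐ[k] OO h}
    (hM : H.Mod h M P₁ P₂ f y) :
    ∃ (a : (Fin D.r → ℤ) →+ ℤ) (p : (Fin D.r → ℤ) → Om[X]), H.Typ D ι h M P₁ a p := by
  classical
  let S := h.roots.toFinset
  let t : S → Om[X] := fun z => X - C (z : Om)
  let m : S → ℕ := fun z => h.rootMultiplicity (z : Om)
  have hroot : ∀ z : S, h.IsRoot z := fun z =>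
    (mem_roots hm.ne_zero).1 (Multiset.mem_toFinset.1 z.2)
  have hh : h = ∏ z, t z ^ m z := by
    have e := prod_multiset_X_sub_C_of_monic_of_roots_card_eq hm
      (IsAlgClosed.card_roots_eq_natDegree (p := h))
    rw [prod_multiset_root_eq_finset_root] at e
    rw [← e, Finset.prod_coe_sort S fun z => (X - C z) ^ h.rootMultiplicity z]
  have ht : ∀ z, (t z).Monic := fun z => monic_X_sub_C _
  have htc : Pairwise fun z z' => IsCoprime (t z) (t z') := fun z z' hz =>
    pairwise_coprime_X_sub_C (s := fun x : Om => x) Function.injective_id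
      fun e => hz (Subtype.ext e)
  have hN : ∀ z, 0 < 2 * M * m z := fun z =>
    Nat.mul_pos (Nat.mul_pos two_pos hM.pos) ((rootMultiplicity_pos hm.ne_zero).2 (hroot z))
  choose a e g kk he hg hP using fun z : S =>
    H.k2_loc D ι hc hm hM z (hroot z) (t z) rfl _ (hN z)
  have hpow : h ^ (2 * M) = ∏ z, t z ^ (2 * M * m z) := by
    rw [hh, ← Finset.prod_pow]
    exact Finset.prod_congr rfl fun z _ => by rw [← pow_mul, mul_comm]
  have hq : ∀ z, t z ^ (2 * M * m z) ∣ h ^ (2 * M) := fun z =>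
    hpow ▸ Finset.dvd_prod_of_mem _ (Finset.mem_univ z)
  have hqc : Pairwise fun z z' => IsCoprime (t z ^ (2 * M * m z)) (t z' ^ (2 * M * m z')) :=
    fun z z' hz => (htc hz).pow
  let p : (Fin D.r → ℤ) → Om[X] := fun x => ∏ z, t z ^ e z x
  let w : S → (Fin D.r → ℤ) → Om[X] := fun z x => ∏ z' ∈ Finset.univ.erase z, t z' ^ e z' x
  have hw : ∀ z x, t z ^ e z x * w z x = p x := fun z x =>
    Finset.mul_prod_erase _ (fun z => t z ^ e z x) (Finset.mem_univ z)
  have hwc : ∀ z x, IsCoprime (w z x) (t z) := fun z x =>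
    IsCoprime.prod_left fun z' hz' => (htc (Finset.ne_of_mem_erase hz')).pow_left
  have hwu : ∀ z, IsUnit ((phm D.χ (D.es ι) (w z)).map (algebraMap Om[X] (OO (t z)))) := by
    intro z
    rw [isUnit_iff_isUnit_det, ← RingHom.mapMatrix_apply, ← RingHom.map_det, det_phm]
    exact IsLocalization.map_units (OO (t z))
      (⟨∏ i, w z (D.χ i), IsCoprime.prod_left fun i _ => hwc z _⟩ : copr (t z))
  have hP' : ∀ z, P₁.map (algebraMap Om[X] (OO (t z))) = (g z : Mat n (OO (t z))) *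
      (phm D.χ (D.es ι) p).map (algebraMap Om[X] (OO (t z))) *
        (((hwu z).unit⁻¹ * kk z : GL (Fin n) (OO (t z))) : Mat n (OO (t z))) := by
    intro z
    have e1 : phm D.χ (D.es ι) p =
        (phm D.χ (D.es ι) fun x => t z ^ e z x) * phm D.χ (D.es ι) (w z) := by
      rw [phm_mul]; simp only [hw]
    rw [hP z, e1, Matrix.map_mul, Units.val_mul]
    simp only [Matrix.mul_assoc]
    rw [← Matrix.mul_assoc (Matrix.map _ _) (Units.val _) (Units.val _), IsUnit.mul_val_inv,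
      Matrix.one_mul]
  refine ⟨∑ z, a z, p, fun x _ => monic_prod_of_monic _ _ fun z _ => (ht z).pow _,
    fun x hx => ?_, fun x hx => ?_, ?_, ?_⟩
  · rw [hpow]
    exact Finset.prod_dvd_prod_of_dvd _ _ fun z _ => pow_dvd_pow _ (he z x hx).2
  · have d1 : ∀ c : S → ℕ, (∏ z, t z ^ c z).natDegree = ∑ z, c z := fun c => by
      rw [natDegree_prod_of_monic _ _ fun z _ => (ht z).pow _]
      exact Finset.sum_congr rfl fun z _ => by
        rw [(ht z).natDegree_pow, natDegree_X_sub_C, mul_one]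
    have d2 : h.natDegree = ∑ z, m z := by rw [← d1, ← hh]
    rw [d1, d2, AddMonoidHom.finsetSum_apply]
    push_cast
    rw [Finset.mul_sum, ← Finset.sum_add_distrib]
    exact Finset.sum_congr rfl fun z _ => (he z x hx).1
  · obtain ⟨g0, hg0⟩ := K2Typ.rd_gl (k := k) hq hqc hpow.dvd fun z => gm (red k _ _) (g z)
    obtain ⟨k0, hk0⟩ := K2Typ.rd_gl (k := k) hq hqc hpow.dvd fun z =>
      gm (red k _ _) ((hwu z).unit⁻¹ * kk z)
    refine ⟨g0, k0, H.G_of_family _ (fun z => K2Typ.rd k (hq z))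
      (K2Typ.rd_inj hq hqc hpow.dvd) fun z => (hg0 z).symm ▸ hg z,
      Matrix.ext fun i j => K2Typ.rd_inj (k := k) hq hqc hpow.dvd _ _ fun z => ?_⟩
    have e1 : ∀ P : Mat n Om[X], (P.map (AdjoinRoot.mk (h ^ (2 * M)))).map (K2Typ.rd k (hq z)) =
        (P.map (algebraMap Om[X] (OO (t z)))).map (red k (t z) (2 * M * m z)) := fun P =>
      Matrix.ext fun i j => (K2Typ.rd_mk (k := k) (hq z) _).trans (red_alg k _ _ _).symm
    have e2 : (P₁.map (AdjoinRoot.mk (h ^ (2 * M)))).map (K2Typ.rd k (hq z)) =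
        ((g0 : Mat n _) * (phm D.χ (D.es ι) p).map (AdjoinRoot.mk (h ^ (2 * M))) *
          (k0 : Mat n _)).map (K2Typ.rd k (hq z)) := by
      rw [mapM_mul, mapM_mul, e1, e1, ← gm_val, ← gm_val, hg0, hk0, hP', mapM_mul, mapM_mul,
        gm_val, gm_val]
    exact congrFun (congrFun e2 i) j
  · have hT0 : ∏ i, p (D.χ i) ≠ 0 :=
      (monic_prod_of_monic _ _ fun i _ => monic_prod_of_monic _ _ fun z _ =>
        (ht z).pow _).ne_zero
    have hloc : ∀ z, ∃ s s' : Om[X], IsCoprime s (t z) ∧ IsCoprime s' (t z) ∧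
        P₁.det * s = (∏ i, p (D.χ i)) * s' := by
      intro z
      have e1 := congrArg det (hP' z)
      rw [det_mul, det_mul, ← RingHom.mapMatrix_apply, ← RingHom.mapMatrix_apply,
        ← RingHom.map_det, ← RingHom.map_det, det_phm, mul_right_comm] at e1
      have hu : IsUnit ((g z : Mat n (OO (t z))).det *
          (((hwu z).unit⁻¹ * kk z : GL (Fin n) (OO (t z))) : Mat n (OO (t z))).det) :=
        ((isUnit_iff_isUnit_det _).1 (Units.isUnit _)).mul
          ((isUnit_iff_isUnit_det _).1 (Units.isUnit _))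
      obtain ⟨⟨s', s⟩, e2⟩ := IsLocalization.surj (copr (t z)) hu.unit.val
      have hnu : ¬ IsUnit (t z) := not_isUnit_X_sub_C _
      refine ⟨s, s', s.2, ?_, oo_inj hnu ?_⟩
      · have hu' : IsUnit (red k (t z) 1 (algebraMap Om[X] (OO (t z)) s')) :=
          (e2 ▸ hu.unit.isUnit.mul (IsLocalization.map_units (OO (t z)) s)).map _
        rw [red_alg] at hu'
        refine ((irreducible_X_sub_C (z : Om)).coprime_iff_not_dvd.2 fun hd => ?_).symm
        have : Nontrivial (AdjoinRoot (t z ^ 1)) :=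
          AdjoinRoot.nontrivial _ (by rw [pow_one, degree_X_sub_C]; exact one_ne_zero)
        exact hu'.ne_zero (AdjoinRoot.mk_eq_zero.2 (by rwa [pow_one]))
      · rw [map_mul, map_mul, e1, ← e2, IsUnit.unit_spec]
        ring
    choose s s' hs hs' hss using hloc
    have hT : ∏ i, p (D.χ i) = ∏ z, t z ^ ∑ i, e z (D.χ i) := by
      rw [Finset.prod_comm]
      exact Finset.prod_congr rfl fun z _ => Finset.prod_pow_eq_pow_sum _ _ _
    obtain ⟨f₃, hf₃⟩ : ∏ i, p (D.χ i) ∣ P₁.det := by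
      rw [hT]
      refine Fintype.prod_dvd_of_coprime (fun z z' hz => (htc hz).pow) fun z => ?_
      refine (hs z).symm.pow_left.dvd_of_dvd_mul_right ?_
      rw [hss, hT]
      exact (Finset.dvd_prod_of_mem _ (Finset.mem_univ z)).mul_right _
    refine ⟨f₃, ?_, by rw [hf₃, mul_comm]⟩
    rw [hh]
    refine IsCoprime.prod_right fun z _ => IsCoprime.pow_right ?_
    have e1 := hss z
    rw [hf₃, mul_assoc] at e1
    exact (hs' z).of_isCoprime_of_dvd_left ⟨_, (mul_left_cancel₀ hT0 e1).symm⟩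

end HS

end Pool.Agent.GR
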