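import Pool.Agent.P.MP_c1f06d_ag.r.Inf
import Pool.Agent.P.MP_c1f06d_ag.r.Lang
import Pool.Agent.P.MP_c1f06d_ag.r.NS

/-! Section 5, JETS: points over finite algebras are products of two values of a parametrisation. -/

open Matrix

universe u

namespace Pool.Agent.GR

section sz

variable {k : Type u} [CommRing k] {σ : Type} [Fintype σ] {A A' : Type u} [CommRing A]
  [Algebra k A] [CommRing A'] [Algebra k A']

/-- The map out of the square zero extension by a free module. -/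
def szLift (f : A →ₐ[k] A') (w : σ → A') (h : ∀ i j, w i * w j = 0) :
    TrivSqZeroExt A (σ → A) →ₐ[k] A' :=
  TrivSqZeroExt.lift f
    { toFun := fun m => ∑ i, f (m i) * w i
      map_add' := fun a b => by
        simp only [Pi.add_apply, map_add, add_mul, Finset.sum_add_distrib]
      map_smul' := fun c a => by
        simp only [Pi.smul_apply, map_smul, RingHom.id_apply, Finset.smul_sum, smul_mul_assoc] }
    (fun x y => by
      show (∑ i, f (x i) * w i) * (∑ i, f (y i) * w i) = 0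
      simp only [Finset.sum_mul, Finset.mul_sum]
      refine Finset.sum_eq_zero fun _ _ => Finset.sum_eq_zero fun _ _ => ?_
      rw [mul_mul_mul_comm, h, mul_zero])
    (fun r x => by
      show (∑ i, f ((r • x) i) * w i) = f r * ∑ i, f (x i) * w i
      simp only [Pi.smul_apply, smul_eq_mul, map_mul, Finset.mul_sum, mul_assoc])
    (fun r x => by
      show (∑ i, f ((MulOpposite.op r • x) i) * w i) = (∑ i, f (x i) * w i) * f r
      simp only [Pi.smul_apply, op_smul_eq_mul, map_mul, Finset.sum_mul, mul_right_comm])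

theorem szLift_apply (f : A →ₐ[k] A') (w : σ → A') (h : ∀ i j, w i * w j = 0)
    (x : TrivSqZeroExt A (σ → A)) : szLift f w h x = f x.fst + ∑ i, f (x.snd i) * w i := rfl

end sz

namespace HS

namespace Param

variable {k : Type u} [Field k] {n : ℕ} {H : HS k n} {σ : Type} (p : H.Param σ)
  {A A' : Type u} [CommRing A] [Algebra k A] [CommRing A'] [Algebra k A']

/-- The ring of the parametrisation. -/
abbrev F : Type u := Localization.Away p.f

/-- Evaluation at a point. -/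
noncomputable def hom (v : σ → A) (hv : IsUnit (MvPolynomial.aeval v p.f)) : p.F →ₐ[k] A :=
  IsLocalization.Away.liftAlgHom (S := Localization.Away p.f) p.f (f := MvPolynomial.aeval v) hv

theorem at_eq (v : σ → A) (hv : IsUnit (MvPolynomial.aeval v p.f)) :
    p.at v hv = gm (p.hom v hv) p.τ := rfl

/-- The coordinates. -/
noncomputable def xv (i : σ) : p.F := algebraMap (MvPolynomial σ k) p.F (MvPolynomial.X i)

theorem hom_alg (v : σ → A) (hv : IsUnit (MvPolynomial.aeval v p.f)) (q : MvPolynomial σ k) :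
    p.hom v hv (algebraMap _ p.F q) = MvPolynomial.aeval v q := by
  simp [hom]

theorem hom_xv (v : σ → A) (hv : IsUnit (MvPolynomial.aeval v p.f)) (i : σ) :
    p.hom v hv (p.xv i) = v i := by
  rw [xv, hom_alg, MvPolynomial.aeval_X]

theorem hom_ext {φ ψ : p.F →ₐ[k] A} (h : ∀ i, φ (p.xv i) = ψ (p.xv i)) : φ = ψ := by
  apply IsLocalization.algHom_ext (Submonoid.powers p.f)
  apply MvPolynomial.algHom_ext
  exact h

theorem aeval_xv (φ : p.F →ₐ[k] A) (q : MvPolynomial σ k) :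
    MvPolynomial.aeval (fun i => φ (p.xv i)) q = φ (algebraMap _ p.F q) := by
  have : MvPolynomial.aeval (fun i => φ (p.xv i)) =
      φ.comp (IsScalarTower.toAlgHom k (MvPolynomial σ k) p.F) :=
    MvPolynomial.algHom_ext fun i => by rw [MvPolynomial.aeval_X]; rfl
  rw [this]; rfl

theorem unit_xv (φ : p.F →ₐ[k] A) : IsUnit (MvPolynomial.aeval (fun i => φ (p.xv i)) p.f) := by
  rw [aeval_xv]
  exact (IsLocalization.Away.algebraMap_isUnit p.f).map φ

theorem at_xv (φ : p.F →ₐ[k] A) : p.at (fun i => φ (p.xv i)) (p.unit_xv φ) = gm φ p.τ := by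
  rw [at_eq, p.hom_ext (φ := p.hom _ _) (ψ := φ) fun i => p.hom_xv _ _ i]

theorem val_mem (φ : p.F →ₐ[k] A) : gm φ p.τ ∈ H.G A := H.G_map φ p.mem

theorem jat_mem (v : σ → A) (hv : IsUnit (MvPolynomial.aeval v p.f)) : p.at v hv ∈ H.G A :=
  p.val_mem _

theorem jat_map (f : A →ₐ[k] A') (v : σ → A) (hv : IsUnit (MvPolynomial.aeval v p.f))
    (hv' : IsUnit (MvPolynomial.aeval (fun i => f (v i)) p.f)) :
    gm f (p.at v hv) = p.at (fun i => f (v i)) hv' := by
  rw [at_eq, at_eq, gm_comp, p.hom_ext (φ := f.comp (p.hom v hv)) (ψ := p.hom _ hv') fun i => by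
    rw [AlgHom.comp_apply, hom_xv, hom_xv]]

instance : Algebra.FormallySmooth k p.F :=
  Algebra.FormallySmooth.comp k (MvPolynomial σ k) p.F

variable [Fintype σ] [DecidableEq σ]

omit [Fintype σ] in
theorem dT_unit : IsUnit (MvPolynomial.aeval (fun i => (TrivSqZeroExt.inl (p.xv i) +
    TrivSqZeroExt.inr (Pi.single i 1) : TrivSqZeroExt p.F (σ → p.F))) p.f) := by
  rw [TrivSqZeroExt.isUnit_iff_isUnit_fst]
  have e := MvPolynomial.comp_aeval_apply (fun i => (TrivSqZeroExt.inl (p.xv i) +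
    TrivSqZeroExt.inr (Pi.single i 1) : TrivSqZeroExt p.F (σ → p.F)))
    (TrivSqZeroExt.fstHom k p.F (σ → p.F)) p.f
  have e2 : (fun i => TrivSqZeroExt.fstHom k p.F (σ → p.F) (TrivSqZeroExt.inl (p.xv i) +
      TrivSqZeroExt.inr (Pi.single i 1))) = fun i => AlgHom.id k p.F (p.xv i) := by
    funext i; simp
  rw [e2] at e
  rw [TrivSqZeroExt.fstHom_apply] at e
  rw [e]
  exact p.unit_xv _

/-- The universal first order deformation. -/
noncomputable def dT : p.F →ₐ[k] TrivSqZeroExt p.F (σ → p.F) := p.hom _ p.dT_unit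

omit [Fintype σ] in
theorem dT_fst (x : p.F) : (p.dT x).fst = x := by
  have : (TrivSqZeroExt.fstHom k p.F (σ → p.F)).comp p.dT = AlgHom.id k p.F :=
    p.hom_ext fun i => by rw [AlgHom.comp_apply, dT, hom_xv]; simp
  exact AlgHom.congr_fun this x

/-- The point `φ` moved by `w`. -/
noncomputable def shift (φ : p.F →ₐ[k] A) (w : σ → A) (h : ∀ i j, w i * w j = 0) :
    p.F →ₐ[k] A := (szLift φ w h).comp p.dT

theorem shift_apply (φ : p.F →ₐ[k] A) (w : σ → A) (h : ∀ i j, w i * w j = 0) (x : p.F) :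
    p.shift φ w h x = φ x + ∑ i, φ ((p.dT x).snd i) * w i := by
  rw [shift, AlgHom.comp_apply, szLift_apply, dT_fst]

theorem shift_xv (φ : p.F →ₐ[k] A) (w : σ → A) (h : ∀ i j, w i * w j = 0) (i : σ) :
    p.shift φ w h (p.xv i) = φ (p.xv i) + w i := by
  rw [shift_apply, dT, hom_xv, Finset.sum_eq_single i]
  · simp
  · intro j _ hj
    simp [Pi.single_eq_of_ne hj]
  · simp

/-- The logarithmic derivative of the parametrisation. -/
noncomputable def ze (i : σ) : Mat n p.F :=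
  ((p.τ : Mat n p.F).map fun x => (p.dT x).snd i) * ((p.τ⁻¹ : GL (Fin n) p.F) : Mat n p.F)

theorem shift_val (φ : p.F →ₐ[k] A) (w : σ → A) (h : ∀ i j, w i * w j = 0) :
    ((gm (p.shift φ w h) p.τ : GL (Fin n) A) : Mat n A) =
      (1 + ∑ i, w i • (p.ze i).map φ) * ((gm φ p.τ : GL (Fin n) A) : Mat n A) := by
  have e : ∀ i, (p.ze i).map φ * ((gm φ p.τ : GL (Fin n) A) : Mat n A) =
      ((p.τ : Mat n p.F).map fun x => (p.dT x).snd i).map φ := by
    intro i
    have : (p.ze i).map φ = ((p.τ : Mat n p.F).map fun x => (p.dT x).snd i).map φ *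
        (((gm φ p.τ)⁻¹ : GL (Fin n) A) : Mat n A) := by
      rw [gm_inv_val, ze]
      exact Matrix.map_mul (f := (φ : p.F →+* A))
    rw [this, mul_assoc, Units.inv_mul, mul_one]
  rw [add_mul, one_mul, Finset.sum_mul]
  simp only [smul_mul_assoc, e]
  ext a b
  rw [gm_apply, shift_apply, Matrix.add_apply, gm_apply, Matrix.sum_apply]
  simp only [Matrix.smul_apply, map_apply, smul_eq_mul, mul_comm]

theorem ze_inLie (i : σ) : H.InLie (p.ze i) := by
  have h : ∀ a b : σ, (Pi.single i DualNumber.eps : σ → DualNumber p.F) a *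
      (Pi.single i DualNumber.eps : σ → DualNumber p.F) b = 0 := by
    intro a b
    by_cases ha : a = i
    · by_cases hb : b = i
      · subst ha; subst hb; simp
      · simp [hb]
    · simp [ha]
  have e := p.shift_val (TrivSqZeroExt.inlAlgHom k p.F p.F) _ h
  rw [Finset.sum_eq_single i, Pi.single_eq_same] at e
  · refine ⟨gm (p.shift (TrivSqZeroExt.inlAlgHom k p.F p.F) _ h) p.τ *
      (gm (TrivSqZeroExt.inlAlgHom k p.F p.F) p.τ)⁻¹,
      (H.G _).mul_mem (p.val_mem _) ((H.G _).inv_mem (p.val_mem _)), ?_⟩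
    rw [Units.val_mul, e, mul_assoc, Units.mul_inv, mul_one, dual_one_eq]
    congr 1
    ext a b <;> simp
  · intro j _ hj
    rw [Pi.single_eq_of_ne hj, zero_smul]
  · simp

/-- The matrix of coordinates of the logarithmic derivative. -/
noncomputable def Z : Matrix (Fin H.N) σ p.F := of fun l i => H.crd (p.ze i) l

omit [Fintype σ] in
theorem Z_map (φ : p.F →ₐ[k] A) (l : Fin H.N) (i : σ) :
    p.Z.map φ l i = H.crd ((p.ze i).map φ) l := (H.crd_map φ _ l).symm

theorem sum_ze (φ : p.F →ₐ[k] A) (w : σ → A) :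
    ∑ i, w i • (p.ze i).map φ = H.vec (p.Z.map φ *ᵥ w) := by
  refine InLie.eq_of_crd (InLie.sum fun i _ => ((p.ze_inLie i).map φ).smul _) (H.inLie_vec _) ?_
  rw [crd_vec, crd_sum]
  funext l
  simp only [Finset.sum_apply, crd_smul, Pi.smul_apply, smul_eq_mul, mulVec, dotProduct, Z_map,
    mul_comm]

/-- The parametrisation is submersive at `φ`. -/
def Sub (φ : p.F →ₐ[k] A) : Prop := ∃ S : Matrix σ (Fin H.N) A, IsUnit (p.Z.map φ * S).det

theorem det_map (f : A →ₐ[k] A') (φ : p.F →ₐ[k] A) (S : Matrix σ (Fin H.N) A) :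
    f (p.Z.map φ * S).det = (p.Z.map (f.comp φ) * S.map f).det := by
  rw [AlgHom.map_det]
  congr 1
  exact Matrix.map_mul (f := (f : A →+* A'))

theorem Sub.map {p : H.Param σ} {φ : p.F →ₐ[k] A} (h : p.Sub φ) (f : A →ₐ[k] A') :
    p.Sub (f.comp φ) := by
  obtain ⟨S, hS⟩ := h
  exact ⟨S.map f, p.det_map f φ S ▸ hS.map f⟩

theorem Sub.congr {p : H.Param σ} {φ φ' : p.F →ₐ[k] A} (h : p.Sub φ) {J : Ideal A}
    (hJ : IsNilpotent J) (e : ∀ x, φ' x - φ x ∈ J) : p.Sub φ' := by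
  obtain ⟨S, hS⟩ := h
  refine ⟨S, isUnit_of_nil_ker (Ideal.Quotient.mkₐ k J) Ideal.Quotient.mk_surjective ?_ _ ?_⟩
  · intro a ha
    obtain ⟨m, hm⟩ := hJ
    refine ⟨m, ?_⟩
    have := Ideal.pow_mem_pow (Ideal.Quotient.eq_zero_iff_mem.1 ha) m
    rwa [hm] at this
  · have e' : (Ideal.Quotient.mkₐ k J).comp φ' = (Ideal.Quotient.mkₐ k J).comp φ :=
      AlgHom.ext fun x => Ideal.Quotient.eq.2 (e x)
    rw [det_map, e', ← det_map]
    exact hS.map _

theorem lift_sq (J : Ideal A) (hJ : J * J = ⊥) (φ : p.F →ₐ[k] A) (hφ : p.Sub φ)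
    (g : GL (Fin n) A) (hg : g ∈ H.G A)
    (e : ∀ i j, (g : Mat n A) i j - φ ((p.τ : Mat n p.F) i j) ∈ J) :
    ∃ φ' : p.F →ₐ[k] A, gm φ' p.τ = g ∧ ∀ x, φ' x - φ x ∈ J := by
  obtain ⟨S, hS⟩ := hφ
  let g1 := g * (gm φ p.τ)⁻¹
  have hg1 : g1 ∈ H.G A := (H.G A).mul_mem hg ((H.G A).inv_mem (p.val_mem φ))
  have e1 : (g1 : Mat n A) - 1 = ((g : Mat n A) - ((gm φ p.τ : GL (Fin n) A) : Mat n A)) *
      (((gm φ p.τ)⁻¹ : GL (Fin n) A) : Mat n A) := by
    rw [sub_mul, Units.mul_inv]; rfl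
  have hJ1 : ∀ i j, ((g1 : Mat n A) - 1) i j ∈ J := by
    intro i j
    rw [e1, mul_apply]
    exact J.sum_mem fun l _ => J.mul_mem_right _ (e i l)
  have hξ := (H.mem_G_iff_inLie hJ g1 hJ1).1 hg1
  let w : σ → A := (S * (p.Z.map φ * S)⁻¹) *ᵥ H.crd ((g1 : Mat n A) - 1)
  have hw : ∀ i, w i ∈ J := fun i => by
    show ∑ l, (S * (p.Z.map φ * S)⁻¹) i l * H.crd ((g1 : Mat n A) - 1) l ∈ J
    exact J.sum_mem fun l _ => J.mul_mem_left _ (H.crd_mem J hJ1 l)
  have hZ : p.Z.map φ *ᵥ w = H.crd ((g1 : Mat n A) - 1) := by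
    rw [mulVec_mulVec, ← Matrix.mul_assoc, mul_nonsing_inv _ hS, one_mulVec]
  have h0 : ∀ i j, w i * w j = 0 := fun i j => mul_eq_zero_of_sq hJ (hw i) (hw j)
  refine ⟨p.shift φ w h0, Units.ext ?_, fun x => ?_⟩
  · rw [shift_val, sum_ze, hZ, hξ.vec_crd, add_sub_cancel, ← Units.val_mul, inv_mul_cancel_right]
  · rw [shift_apply, add_sub_cancel_left]
    exact J.sum_mem fun i _ => J.mul_mem_left _ (hw i)

/-- LIFT. -/
theorem lift_nil (J : Ideal A) (hJ : IsNilpotent J) (φ : p.F →ₐ[k] A) (hφ : p.Sub φ)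
    (g : GL (Fin n) A) (hg : g ∈ H.G A)
    (e : ∀ i j, (g : Mat n A) i j - φ ((p.τ : Mat n p.F) i j) ∈ J) :
    ∃ φ' : p.F →ₐ[k] A, gm φ' p.τ = g ∧ ∀ x, φ' x - φ x ∈ J := by
  have key := Ideal.IsNilpotent.induction_on J hJ
    (P := fun S _ J => IsNilpotent J → ∀ [Algebra k S] (φ : p.F →ₐ[k] S), p.Sub φ →
      ∀ g ∈ H.G S, (∀ i j, (g : Mat n S) i j - φ ((p.τ : Mat n p.F) i j) ∈ J) →
        ∃ φ' : p.F →ₐ[k] S, gm φ' p.τ = g ∧ ∀ x, φ' x - φ x ∈ J) ?_ ?_
  · exact key hJ φ hφ g hg e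
  · intro S _ I hI _ _ φ hφ g hg e
    exact p.lift_sq I (by rwa [← pow_two]) φ hφ g hg e
  · intro S _ I J hIJ h1 h2 hJ _ φ hφ g hg e
    have hI : IsNilpotent I := by
      obtain ⟨m, hm⟩ := hJ
      exact ⟨m, le_bot_iff.1 ((Ideal.pow_right_mono hIJ m).trans hm.le)⟩
    have hJ' : IsNilpotent (J.map (Ideal.Quotient.mk I)) := by
      obtain ⟨m, hm⟩ := hJ
      exact ⟨m, by rw [← Ideal.map_pow, hm]; exact Ideal.map_bot⟩
    obtain ⟨ψ, hψ, eψ⟩ := h2 hJ' ((Ideal.Quotient.mkₐ k I).comp φ) (hφ.map _)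
      (gm (Ideal.Quotient.mkₐ k I) g) (H.G_map _ hg)
      fun i j => Ideal.mem_map_of_mem (Ideal.Quotient.mk I) (e i j)
    obtain ⟨φ1, rfl⟩ := Algebra.FormallySmooth.exists_lift I hI ψ
    have e1 : ∀ x, φ1 x - φ x ∈ J := fun x =>
      (Ideal.mem_quotient_iff_mem hIJ).1 (eψ x)
    obtain ⟨φ2, hφ2, e2⟩ := h1 hI φ1 (hφ.congr hJ e1) g hg fun i j =>
      Ideal.Quotient.eq.1
        (congrArg (fun x : GL (Fin n) (S ⧸ I) => (x : Mat n (S ⧸ I)) i j) hψ).symm
    refine ⟨φ2, hφ2, fun x => ?_⟩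
    rw [← sub_add_sub_cancel _ (φ1 x)]
    exact J.add_mem (hIJ (e2 x)) (e1 x)

/-- Every element of the Lie algebra is tangent to the parametrisation at `v0`. -/
def Tang {Ω : Type u} [CommRing Ω] [Algebra k Ω] (v0 : σ → Ω)
    (hv0 : IsUnit (MvPolynomial.aeval v0 p.f)) : Prop :=
  ∀ ξ : Mat n Ω, H.InLie ξ → ∃ (w : σ → Ω) (hw : IsUnit (MvPolynomial.aeval
    (fun i => (TrivSqZeroExt.inl (v0 i) + TrivSqZeroExt.inr (w i) : DualNumber Ω)) p.f)),
      ((p.at _ hw : GL (Fin n) (DualNumber Ω)) : Mat n (DualNumber Ω)) =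
        dual (p.at v0 hv0 : Mat n Ω) (ξ * (p.at v0 hv0 : Mat n Ω))

theorem Tang.sub {p : H.Param σ} {v0 : σ → A} {hv0 : IsUnit (MvPolynomial.aeval v0 p.f)}
    (h : p.Tang v0 hv0) : p.Sub (p.hom v0 hv0) := by
  choose w hw e using fun l => h _ (H.inLie_bas l)
  refine ⟨of fun i l => w l i, ?_⟩
  suffices hs : p.Z.map (p.hom v0 hv0) * (of fun i l => w l i) = 1 by
    rw [hs, det_one]; exact isUnit_one
  have key : ∀ l, H.vec (p.Z.map (p.hom v0 hv0) *ᵥ w l) = H.bas A l := by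
    intro l
    have h0 : ∀ i j, (TrivSqZeroExt.inr (w l i) : DualNumber A) * TrivSqZeroExt.inr (w l j) = 0 :=
      fun i j => TrivSqZeroExt.inr_mul_inr _ _ _
    have e1 : p.hom _ (hw l) = p.shift ((TrivSqZeroExt.inlAlgHom k A A).comp (p.hom v0 hv0))
        (fun i => TrivSqZeroExt.inr (w l i)) h0 :=
      p.hom_ext fun i => by rw [hom_xv, shift_xv, AlgHom.comp_apply, hom_xv]; rfl
    have e2 := e l
    have e3 : (1 + ∑ i, (TrivSqZeroExt.inr (w l i) : DualNumber A) •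
        (p.ze i).map ((TrivSqZeroExt.inlAlgHom k A A).comp (p.hom v0 hv0))) =
          dual 1 (∑ i, w l i • (p.ze i).map (p.hom v0 hv0)) := by
      rw [dual_one_eq]
      congr 1
      ext a b <;> simp [Matrix.sum_apply, TrivSqZeroExt.fst_sum, TrivSqZeroExt.snd_sum, mul_comm]
    have e4 : ((gm ((TrivSqZeroExt.inlAlgHom k A A).comp (p.hom v0 hv0)) p.τ :
        GL (Fin n) (DualNumber A)) : Mat n (DualNumber A)) = dual (p.at v0 hv0 : Mat n A) 0 := by
      rw [dual_zero (k := k)]; rfl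
    rw [at_eq, e1, shift_val, e3, e4, dual_mul, one_mul, mul_zero, zero_add, sum_ze] at e2
    have e5 : H.vec (p.Z.map (p.hom v0 hv0) *ᵥ w l) * (p.at v0 hv0 : Mat n A) =
        H.bas A l * (p.at v0 hv0 : Mat n A) := by
      ext a b
      have := congrArg (fun M : Mat n (DualNumber A) => (M a b).snd) e2
      simpa only [dual_snd] using this
    exact (Units.mul_left_inj _).1 e5
  ext l l'
  have := congrFun (congrArg H.crd (key l')) l
  rw [crd_vec, crd_bas] at this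
  rw [one_apply, ← Pi.single_apply l' (1 : A) l, ← this]
  rfl

section omega

variable (Ω : Type u) [Field Ω] [Algebra k Ω]

/-- The ring of the parametrisation over `Ω`. -/
abbrev FO : Type u := Localization.Away (MvPolynomial.map (algebraMap k Ω) p.f)

omit [Fintype σ] [DecidableEq σ] in
theorem up_unit : IsUnit (MvPolynomial.aeval
    (fun i => algebraMap (MvPolynomial σ Ω) (p.FO Ω) (MvPolynomial.X i)) p.f) := by
  rw [← MvPolynomial.aeval_map_algebraMap Ω]
  have e := MvPolynomial.aeval_algebraMap_apply (p.FO Ω)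
    (MvPolynomial.X : σ → MvPolynomial σ Ω)
    (MvPolynomial.map (algebraMap k Ω) p.f)
  rw [MvPolynomial.aeval_X_left_apply] at e
  have hu : IsUnit (algebraMap (MvPolynomial σ Ω) (p.FO Ω)
      (MvPolynomial.map (algebraMap k Ω) p.f)) := IsLocalization.Away.algebraMap_isUnit _
  rw [← e] at hu
  exact hu

/-- The universal point over `Ω`. -/
noncomputable def up : p.F →ₐ[k] p.FO Ω := p.hom _ (p.up_unit Ω)

omit [Fintype σ] [DecidableEq σ] in
theorem exists_up [Algebra Ω A] [IsScalarTower k Ω A] (φ : p.F →ₐ[k] A) :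
    ∃ ψ : p.FO Ω →ₐ[Ω] A, (ψ.restrictScalars k).comp (p.up Ω) = φ := by
  have hu : IsUnit (MvPolynomial.aeval (R := Ω) (fun i => φ (p.xv i))
      (MvPolynomial.map (algebraMap k Ω) p.f)) := by
    rw [MvPolynomial.aeval_map_algebraMap]
    exact p.unit_xv φ
  refine ⟨IsLocalization.Away.liftAlgHom (S := p.FO Ω) _ hu, p.hom_ext fun i => ?_⟩
  rw [AlgHom.comp_apply, up, hom_xv]
  simp

theorem evG_up_inj (hp : (H.van Ω).IsPrime) (φ0 : p.F →ₐ[k] Ω) (h0 : p.Sub φ0) :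
    Function.Injective (LG.evG H Ω (p.val_mem (p.up Ω))) := by
  rw [injective_iff_map_eq_zero]
  intro a ha
  refine LG.krull H Ω hp (p.val_mem φ0) a ?_
  intro A _ _ _ _ J N hJ g hg e
  obtain ⟨φ, hφ, -⟩ := p.lift_nil J ⟨N, hJ⟩ ((IsScalarTower.toAlgHom k Ω A).comp φ0) (h0.map _)
    g hg e
  obtain ⟨ψ, rfl⟩ := p.exists_up Ω φ
  have : LG.evG H Ω hg = ψ.comp (LG.evG H Ω (p.val_mem (p.up Ω))) := by
    apply LG.og_ext
    intro i j
    rw [AlgHom.comp_apply, LG.evG_uG, LG.evG_uG, ← hφ]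
    rfl
  rw [this, AlgHom.comp_apply, ha, map_zero]

variable {Ω}

theorem two_values [IsAlgClosed Ω] (hp : (H.van Ω).IsPrime) (φ0 : p.F →ₐ[k] Ω)
    (S : Matrix σ (Fin H.N) Ω) (hS : IsUnit (p.Z.map φ0 * S).det) (g : GL (Fin n) Ω)
    (hg : g ∈ H.G Ω) : ∃ φ φ' : p.F →ₐ[k] Ω, IsUnit (p.Z.map φ * S).det ∧
      gm φ p.τ = g * (gm φ' p.τ)⁻¹ := by
  have hα := p.evG_up_inj Ω hp φ0 ⟨S, hS⟩
  set α := LG.evG H Ω (p.val_mem (p.up Ω)) with hαd
  have hf0 : MvPolynomial.map (algebraMap k Ω) p.f ≠ 0 := by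
    intro h
    have hu := p.unit_xv φ0
    rw [← MvPolynomial.aeval_map_algebraMap Ω, h, map_zero] at hu
    exact not_isUnit_zero hu
  have : IsDomain (p.FO Ω) :=
    IsLocalization.isDomain_localization (powers_le_nonZeroDivisors_of_noZeroDivisors hf0)
  have : Algebra.FiniteType Ω (p.FO Ω) :=
    Algebra.FiniteType.trans (S := MvPolynomial σ Ω) inferInstance inferInstance
  let f1 : p.FO Ω := (p.Z.map (p.up Ω) * S.map (algebraMap Ω (p.FO Ω))).det
  have hev : ∀ ψ : p.FO Ω →ₐ[Ω] Ω,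
      ψ f1 = (p.Z.map ((ψ.restrictScalars k).comp (p.up Ω)) * S).det := by
    intro ψ
    have e := p.det_map (ψ.restrictScalars k) (p.up Ω) (S.map (algebraMap Ω (p.FO Ω)))
    have e2 : (S.map (algebraMap Ω (p.FO Ω))).map (ψ.restrictScalars k) = S :=
      Matrix.ext fun i j => ψ.commutes _
    rw [e2] at e
    exact e
  have hf1 : f1 ≠ 0 := by
    intro h
    obtain ⟨ψ, hψ⟩ := p.exists_up Ω φ0
    rw [← hψ, ← hev, h, map_zero] at hS
    exact not_isUnit_zero hS
  have : IsDomain (Localization.Away f1) :=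
    IsLocalization.isDomain_localization (powers_le_nonZeroDivisors_of_noZeroDivisors hf1)
  have : Algebra.FiniteType Ω (Localization.Away f1) :=
    Algebra.FiniteType.trans (S := p.FO Ω) inferInstance inferInstance
  have hc : gm (IsScalarTower.toAlgHom k Ω (H.OG Ω)) g ∈ H.G (H.OG Ω) := H.G_map _ hg
  set c := gm (IsScalarTower.toAlgHom k Ω (H.OG Ω)) g with hcd
  have hcm : ∀ {B : Type u} [CommRing B] [Algebra Ω B] (χ : H.OG Ω →ₐ[Ω] B),
      gm χ c = gm (Algebra.ofId Ω B) g := by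
    intro B _ _ χ
    ext i j
    exact χ.commutes _
  have hs1 : c * (LG.uG H Ω)⁻¹ ∈ H.G (H.OG Ω) :=
    (H.G _).mul_mem hc ((H.G _).inv_mem (LG.uG_mem H Ω))
  have hs2 : (LG.uG H Ω)⁻¹ * c ∈ H.G (H.OG Ω) :=
    (H.G _).mul_mem ((H.G _).inv_mem (LG.uG_mem H Ω)) hc
  have hsi : Function.Injective (LG.evG H Ω hs1) := by
    have e : (LG.evG H Ω hs2).comp (LG.evG H Ω hs1) = AlgHom.id Ω _ := by
      have e1 : gm ((LG.evG H Ω hs2).comp (LG.evG H Ω hs1)) (LG.uG H Ω) = LG.uG H Ω := by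
        rw [← gm_comp, LG.gm_evG_uG, map_mul, map_inv, LG.gm_evG_uG, hcm]
        show c * _ = _
        rw [_root_.mul_inv_rev, inv_inv, mul_inv_cancel_left]
      apply LG.og_ext
      intro i j
      exact congrArg (fun x : GL (Fin n) (H.OG Ω) => (x : Mat n (H.OG Ω)) i j) e1
    exact Function.LeftInverse.injective (g := LG.evG H Ω hs2) fun x => AlgHom.congr_fun e x
  obtain ⟨t1, t2, ht⟩ := amal_point
    ((IsScalarTower.toAlgHom Ω (p.FO Ω) (Localization.Away f1)).comp α) (α.comp (LG.evG H Ω hs1))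
    ((IsLocalization.injective (Localization.Away f1)
      (powers_le_nonZeroDivisors_of_noZeroDivisors hf1)).comp hα) (hα.comp hsi)
  let ψ1 := t1.comp (IsScalarTower.toAlgHom Ω (p.FO Ω) (Localization.Away f1))
  refine ⟨(ψ1.restrictScalars k).comp (p.up Ω), (t2.restrictScalars k).comp (p.up Ω), ?_, ?_⟩
  · rw [← hev]
    exact (IsLocalization.Away.algebraMap_isUnit f1).map t1
  · have hαu : gm α (LG.uG H Ω) = gm (p.up Ω) p.τ := LG.gm_evG_uG H Ω _
    have e1 : gm (ψ1.comp α) (LG.uG H Ω) = gm ((ψ1.restrictScalars k).comp (p.up Ω)) p.τ := by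
      rw [← gm_comp, hαu]; rfl
    have e2 : gm (t2.comp α) (LG.uG H Ω) = gm ((t2.restrictScalars k).comp (p.up Ω)) p.τ := by
      rw [← gm_comp, hαu]; rfl
    have e3 : ψ1.comp α = (t2.comp α).comp (LG.evG H Ω hs1) := ht
    rw [← e1, ← e2, e3, ← gm_comp, LG.gm_evG_uG, map_mul, map_inv, hcm]
    rfl

/-- JETS, from submersivity at one point. -/
theorem jets_of_sub [IsAlgClosed Ω] (hp : (H.van Ω).IsPrime) (φ0 : p.F →ₐ[k] Ω) (h0 : p.Sub φ0)
    (A : Type u) [CommRing A] [Algebra k A] [Algebra Ω A] [IsScalarTower k Ω A]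
    [Module.Finite Ω A] (g : GL (Fin n) A) (hg : g ∈ H.G A) :
    ∃ (v v' : σ → A) (hv : IsUnit (MvPolynomial.aeval v p.f))
      (hv' : IsUnit (MvPolynomial.aeval v' p.f)), g = p.at v hv * p.at v' hv' := by
  obtain ⟨S, hS⟩ := h0
  have : IsArtinianRing A := IsArtinianRing.of_finite Ω A
  choose χ hχ using fun m : MaximalSpectrum A => point_of_max (Ω := Ω) m.asIdeal m.isMaximal
  choose φ φ' hφ e using fun m : MaximalSpectrum A => p.two_values hp φ0 S hS
    (gm ((χ m).restrictScalars k) g) (H.G_map _ hg)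
  have hunit : ∀ a : A, (∀ m, IsUnit (χ m a)) → IsUnit a := by
    intro a ha
    by_contra hn
    obtain ⟨m, hm, ham⟩ := exists_max_ideal_of_mem_nonunits (mem_nonunits_iff.2 hn)
    exact (ha ⟨m, hm⟩).ne_zero ((hχ ⟨m, hm⟩ a).2 ham)
  have hlift : ∀ θ : MaximalSpectrum A → (p.F →ₐ[k] Ω), ∃ Θ : p.F →ₐ[k] A,
      ∀ m, ((χ m).restrictScalars k).comp Θ = θ m := by
    intro θ
    choose v hv using fun i => Ideal.exists_forall_sub_mem_ideal
      (I := fun m : MaximalSpectrum A => m.asIdeal)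
      (fun a b hab => MaximalSpectrum.isCoprime_of_ne hab)
      fun m => algebraMap Ω A (θ m (p.xv i))
    have hv1 : ∀ m i, χ m (v i) = θ m (p.xv i) := by
      intro m i
      have := (hχ m _).2 (hv i m)
      rwa [map_sub, AlgHom.commutes, sub_eq_zero] at this
    have hu : IsUnit (MvPolynomial.aeval v p.f) := hunit _ fun m => by
      have e1 := MvPolynomial.comp_aeval_apply v ((χ m).restrictScalars k) p.f
      have e2 : (fun i => (χ m).restrictScalars k (v i)) = fun i => θ m (p.xv i) :=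
        funext (hv1 m)
      rw [e2] at e1
      exact e1 ▸ p.unit_xv (θ m)
    exact ⟨p.hom v hu, fun m => p.hom_ext fun i => by
      rw [AlgHom.comp_apply, hom_xv]; exact hv1 m i⟩
  obtain ⟨Φ, hΦ⟩ := hlift φ
  obtain ⟨Φ', hΦ'⟩ := hlift φ'
  have hsub : p.Sub Φ := ⟨S.map (algebraMap Ω A), hunit _ fun m => by
    have e1 := p.det_map ((χ m).restrictScalars k) Φ (S.map (algebraMap Ω A))
    have e2 : (S.map (algebraMap Ω A)).map ((χ m).restrictScalars k) = S :=
      Matrix.ext fun i j => (χ m).commutes _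
    rw [e2, hΦ] at e1
    exact e1 ▸ hφ m⟩
  obtain ⟨Ψ, hΨ, -⟩ := p.lift_nil (Ideal.jacobson ⊥) IsArtinianRing.isNilpotent_jacobson_bot Φ hsub
    (g * (gm Φ' p.τ)⁻¹) ((H.G A).mul_mem hg ((H.G A).inv_mem (p.val_mem _))) fun i j => by
      refine Ideal.mem_sInf.2 fun {m} hm => (hχ ⟨m, hm.2⟩ _).1 ?_
      have e1 := e ⟨m, hm.2⟩
      rw [← hΦ, ← hΦ', ← gm_comp, ← gm_comp, ← map_inv, ← map_mul] at e1
      rw [map_sub, sub_eq_zero]
      exact (congrArg (fun x : GL (Fin n) Ω => (x : Mat n Ω) i j) e1).symm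
  exact ⟨_, _, p.unit_xv Ψ, p.unit_xv Φ', by rw [at_xv, at_xv, hΨ, inv_mul_cancel_right]⟩

/-- JETS. -/
theorem jets_of_tang [IsAlgClosed Ω] (hp : (H.van Ω).IsPrime) (v0 : σ → Ω)
    (hv0 : IsUnit (MvPolynomial.aeval v0 p.f)) (h0 : p.Tang v0 hv0)
    (A : Type u) [CommRing A] [Algebra k A] [Algebra Ω A] [IsScalarTower k Ω A]
    [Module.Finite Ω A] (g : GL (Fin n) A) (hg : g ∈ H.G A) :
    ∃ (v v' : σ → A) (hv : IsUnit (MvPolynomial.aeval v p.f))
      (hv' : IsUnit (MvPolynomial.aeval v' p.f)), g = p.at v hv * p.at v' hv' :=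
  p.jets_of_sub hp _ h0.sub A g hg

end omega

end Param

end HS

end Pool.Agent.GR
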