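import Pool.Agent.P.MP_c1f06d_ag.r.UPar
import Pool.Agent.P.MP_c1f06d_ag.r.Jets

open Matrix

universe u

namespace Pool.Agent.GR

variable {k : Type u} [Field k] {n r : ℕ} {H : HS k n} {A : Type u} [CommRing A] [Algebra k A]
  {A' : Type u} [CommRing A'] [Algebra k A'] {χ : Fin n → Fin r → ℤ}
  {e : (Fin r → ℤ) → Mat n A} {X : Mat n A}

/-! JETS. -/

namespace HS

theorem Param.jets {σ : Type} [Fintype σ] (p : H.Param σ) {Ω : Type u} [Field Ω] [Algebra k Ω]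
    [IsAlgClosed Ω] (hp : (H.van Ω).IsPrime) (v₀ : σ → Ω)
    (h₀ : IsUnit (MvPolynomial.aeval v₀ p.f)) (ho : p.Onto v₀ h₀)
    [Algebra Ω A] [IsScalarTower k Ω A] [Module.Finite Ω A] {g : GL (Fin n) A} (hg : g ∈ H.G A) :
    ∃ (v v' : σ → A) (hv : IsUnit (MvPolynomial.aeval v p.f))
      (hv' : IsUnit (MvPolynomial.aeval v' p.f)), g = p.at v hv * p.at v' hv' := by
  classical
  exact p.jets_of_tang hp v₀ h₀ ho A g hg

/-- JETS -/
theorem Datum.jets (D : H.Datum) :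
    ∃ (σ : Type) (_ : Fintype σ) (p : H.Param σ),
      ∀ (Ω : Type u) [Field Ω] [Algebra k Ω] [IsAlgClosed Ω], (D.l →ₐ[k] Ω) →
        ∀ (A : Type u) [CommRing A] [Algebra k A] [Algebra Ω A] [IsScalarTower k Ω A]
          [Module.Finite Ω A], ∀ g ∈ H.G A,
          ∃ (v v' : σ → A) (hv : IsUnit (MvPolynomial.aeval v p.f))
            (hv' : IsUnit (MvPolynomial.aeval v' p.f)), g = p.at v hv * p.at v' hv' := by
  obtain ⟨σ, _, p, hp⟩ := D.par
  refine ⟨σ, inferInstance, p, fun Ω _ _ _ ι A _ _ _ _ _ g hg => ?_⟩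
  obtain ⟨v, hv, ho⟩ := hp Ω ι
  exact p.jets (D.prime Ω ι) v hv ho hg

end HS

end Pool.Agent.GR
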