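import Pool.Agent.P.MP_c1f06d_ag.r.K2Rigid
import Pool.Agent.P.MP_c1f06d_ag.r.K2Gen
import Pool.Agent.P.MP_c1f06d_ag.r.K2Cent
import Pool.Agent.P.MP_c1f06d_ag.r.K2Typ
import Pool.Agent.P.MP_c1f06d_ag.r.K2Deg
import Pool.Agent.P.MP_c1f06d_ag.r.K2Onto
import Pool.Agent.P.MP_c1f06d_ag.r.Weyl
import Pool.Agent.P.MP_c1f06d_ag.r.UJets
import Pool.Agent.P.MP_c1f06d_ag.r.CTDefs

/-! The statement over the affine line. -/

open Matrix Polynomial

universe u

namespace Pool.Agent.GR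

namespace HS

variable {k : Type u} [Field k] {n : ℕ} (H : HS k n)

theorem k2_core [Infinite k] (D : H.Datum) {R : Type u} [CommRing R] [IsDomain R] [IsLocalRing R]
    [Algebra k R] {h : R[X]} (hm : h.Monic) {M : ℕ} {P₁ P₂ : Mat n R[X]} {f : R[X]}
    {y : H.B →ₐ[k] OO h} (hM : H.Mod h M P₁ P₂ f y) : H.Triv y := by
  by_cases hu : IsUnit h
  · have h0 : (0 : R[X]) ∈ copr h := isCoprime_zero_left.2 hu
    have : Subsingleton (OO h) := IsLocalization.subsingleton (M := copr h) h0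
    exact ⟨1, AlgHom.ext fun b => Subsingleton.elim _ _⟩
  obtain ⟨Om, _, _, _, φ, ι, hφ⟩ := exists_omega (k := k) R D.l
  obtain ⟨y', hM'⟩ := hM.map φ
  have hmb := hm.map (φ : R →+* Om)
  obtain ⟨a, p, hT⟩ := H.k2_typ D ι (fun a ka hf => H.conj_cochar D ι a ka hf) hmb hM'
  obtain ⟨d, pe, nw, ν, h1, h2, h3, h4, h5, h6⟩ := H.weyl_avg D ι a
  have hW : H.Wey D ι a d pe nw ν := ⟨h1, h2, h3, h4, h5, h6⟩
  obtain ⟨β, νi, hfix, hβ⟩ := k2_cent φ hφ hm hM hT hW
  obtain ⟨dg, hdg, hsum⟩ := hT.degs hW (gm φ β) νi hβ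
  obtain ⟨c, c₀, hc, hc₀⟩ := pick_c (k := k) hmb.ne_zero d
  obtain ⟨g0, hg0, hon0⟩ :=
    hT.onto hW (fun w => algebraMap k Om (c w)) hc (gm φ β) νi hβ dg hdg
  obtain ⟨σ, _, pr, hJ⟩ := D.jets
  have hN : 0 < 2 * M := Nat.mul_pos two_pos hM.pos
  choose lf hlf using AdjoinRoot.mk_surjective (g := h.map (φ : R →+* Om) ^ (2 * M))
  have hT0 : ∀ w, ((g0 w : Mat n _).map lf).map
      (AdjoinRoot.mk (h.map (φ : R →+* Om) ^ (2 * M))) = (g0 w : Mat n _) :=
    fun w => Matrix.ext fun i j => hlf _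
  obtain ⟨T, g, s, hg, hTs, hon⟩ := k2_gen φ hφ hm hN pr (hJ Om ι) _ _ dg _ g0 hg0 _ hT0
    (hon0 _ hT0)
  obtain ⟨f₃, hf₃, hdet⟩ := hT.det
  have hχ : ∀ i, D.χ i ∈ XX D.χ := fun i => Finset.mem_image_of_mem _ (Finset.mem_univ i)
  have hφc : ∀ x : k, (φ : R →+* Om) (algebraMap k R x) = algebraMap k Om x := φ.commutes
  have hnd : (h.map (φ : R →+* Om)).natDegree = h.natDegree := hm.natDegree_map _
  refine H.k2_rigid (φ : R →+* Om) hφ hm hu hM h1 (fun w => algebraMap k R (c w)) ?_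
    (algebraMap k R c₀) ?_ β νi hfix dg ?_
    (monic_prod_of_monic _ _ fun i _ => hT.monic _ (hχ i)) (N := 2 * M * n) ?_ hf₃ hdet hsum
    T g hg s hTs ?_
  · simpa only [hφc] using hc
  · simpa only [hφc] using hc₀
  · simpa only [hnd] using hdg
  · have := Finset.prod_dvd_prod_of_dvd (s := Finset.univ) (fun i : Fin n => p (D.χ i))
      (fun _ => h.map (φ : R →+* Om) ^ (2 * M)) fun i _ => hT.dvd _ (hχ i)
    rwa [Finset.prod_const, Finset.card_univ, Fintype.card_fin, ← pow_mul] at this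
  · have e : (fun w => (T w * P₁).map (Polynomial.map (φ : R →+* Om))) = fun w =>
        (T w).map (Polynomial.map (φ : R →+* Om)) * P₁.map (Polynomial.map (φ : R →+* Om)) :=
      funext fun w => Matrix.map_mul (f := mapRingHom (φ : R →+* Om))
    simp only [hφc]
    rw [e]
    exact hon

theorem triv_away {O : Type u} [CommRing O] [Algebra k O] (x : O) (L L' : Type u) [CommRing L]
    [Algebra O L] [IsLocalization.Away x L] [Algebra k L] [IsScalarTower k O L] [CommRing L']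
    [Algebra O L'] [IsLocalization.Away x L'] [Algebra k L'] [IsScalarTower k O L']
    (y : H.B →ₐ[k] O) (hy : H.Triv ((IsScalarTower.toAlgHom k O L).comp y)) :
    H.Triv ((IsScalarTower.toAlgHom k O L').comp y) := by
  obtain ⟨ψ, hψ⟩ := hy
  have hu : IsUnit (IsScalarTower.toAlgHom k O L' x) := IsLocalization.Away.algebraMap_isUnit x
  let Θ : L →ₐ[k] L' := IsLocalization.Away.liftAlgHom x (f := IsScalarTower.toAlgHom k O L') hu
  have hΘ : Θ.comp ((IsScalarTower.toAlgHom k O L).comp y) =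
      (IsScalarTower.toAlgHom k O L').comp y :=
    AlgHom.ext fun b => IsLocalization.Away.lift_eq x hu (y b)
  have hψ' := H.act_map Θ hψ
  rw [hΘ, pt_map] at hψ'
  exact ⟨_, hψ'⟩

theorem trivOff_away {O : Type u} [CommRing O] [Algebra k O] (x : O) (L' : Type u) [CommRing L']
    [Algebra O L'] [IsLocalization.Away x L'] [Algebra k L'] [IsScalarTower k O L']
    (y : H.B →ₐ[k] O) (hy : H.TrivOff y x) : H.Triv ((IsScalarTower.toAlgHom k O L').comp y) :=
  H.triv_away x (Localization.Away x) L' y hy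

/-- K2. -/
theorem k2 [Infinite k] (D : H.Datum) : H.K2P := by
  intro R _ _ _ _ h hm y hy
  obtain ⟨ψ, hψ⟩ := H.trivOff_away (algebraMap R[X] (OO h) h) (OOh h) y hy
  rcases H.exists_mod hm y ψ hψ with h0 | ⟨M, P₁, P₂, f, y', hM, hy'⟩
  · exact h0
  · exact hy' (H.k2_core D hm hM)

end HS

end Pool.Agent.GR
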