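import Pool.Agent.P.MP_c1f06d_ag.r.R1B
import Pool.Agent.P.MP_c1f06d_ag.r.Cartan
import Pool.Agent.P.MP_c1f06d_ag.r.Weyl

/-! The statement over valuation rings. -/

open Matrix

universe u

namespace Pool.Agent.GR

namespace HS

variable {k : Type u} [Field k] {n : ℕ} {H : HS k n}

theorem r1 [Infinite k] (D : H.Datum) : H.R1St :=
  r1_of D (fun _ _ _ _ ι a κ h => H.conj_cochar D ι a κ h) fun _ _ _ _ _ _ _ _ _ _ _ arch y σ h =>
    let ⟨r, π, c, h1, _, h3⟩ := H.cartan arch y σ h
    ⟨r, π, c, h1, h3⟩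

/-- A generically trivial point over a valuation ring is trivial. -/
theorem k1 [Infinite k] (D : H.Datum) (W F : Type u) [CommRing W] [IsDomain W] [ValuationRing W]
    [Algebra k W] [Field F] [Algebra k F] [Algebra W F] [IsScalarTower k W F] [IsFractionRing W F]
    (y : H.B →ₐ[k] W) (h : H.Triv ((IsScalarTower.toAlgHom k W F).comp y)) : H.Triv y :=
  h.elim fun σ hσ => H.k1_of_r1 (r1 D) W F y σ hσ

end HS

end Pool.Agent.GR
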