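import Pool.Agent.P.MP_c1f06d_ag.r.Versal
import Pool.Agent.P.MP_c1f06d_ag.r.TwD
import Pool.Agent.P.MP_c1f06d_ag.r.R1
import Pool.Agent.P.MP_c1f06d_ag.r.K2Main
import Pool.Agent.P.MP_c1f06d_ag.f.DBr
import Pool.Agent.P.MP_c1f06d_ag.r.CT
import Pool.Agent.P.MP_c1f06d_ag.r.Frame
import Pool.Agent.P.MP_c1f06d_ag.f.Isotriv

open Matrix Polynomial IsLocalRing Pool.Agent.P.MP_c1f06d_ag

universe u

namespace Pool.Agent.GR

/-- A polynomial with nonzero reduction takes a unit value if the residue field is infinite. -/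
theorem exists_unit_eval {R : Type u} [CommRing R] [IsLocalRing R] [Infinite (ResidueField R)]
    {f : R[X]} (hf : f.map (residue R) ≠ 0) : ∃ x : R, IsUnit (aeval x f) := by
  classical
  obtain ⟨a, ha⟩ := Infinite.exists_notMem_finset (f.map (residue R)).roots.toFinset
  obtain ⟨x, rfl⟩ := residue_surjective a
  refine ⟨x, (residue_ne_zero_iff_isUnit _).1 fun e => ha ?_⟩
  rw [Multiset.mem_toFinset, mem_roots hf, IsRoot, eval_map, eval₂_at_apply]
  exact e

namespace AffQuot

variable {k : Type u} [Field k] {n r r' : ℕ} {G H : AffQuot k n} {χ : Fin n → Fin r → ℤ}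
  {χ' : Fin n → Fin r' → ℤ}

/-- Descent from an open part of the affine line that meets the closed fibre. -/
theorem descend (hN : H.Normalizes G) (hI : G.GeomIntegral) (hT : G.SplitTorus χ) {R : Type u}
    [CommRing R] [IsDomain R] [IsLocalRing R] [Algebra k R] {z : H.B →ₐ[k] R} {E : Type u}
    [CommRing E] [Algebra R E] (hE : G.IsTorsor H z E) {f : R[X]} (hf : f.map (residue R) ≠ 0)
    (h : Nonempty (E →ₐ[R] Localization.Away f)) : Nonempty (E →ₐ[R] R) := by
  rcases finite_or_infinite (ResidueField R) with hfin | hinf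
  · obtain ⟨S, _, _, _, _, _, x1, x2, hS⟩ := frame hN hE
    obtain ⟨τ, hτ⟩ := (hS _).1.1 h
    obtain ⟨O, _, _, _, _, _, _, _, _, hred, ⟨x0, hx0⟩, γ, hγ⟩ := Iso.isotriv H z f hf
    let zb : H.B →ₐ[k] ResidueField R := (IsScalarTower.toAlgHom k R (ResidueField R)).comp z
    refine (hS R).1.2 (G.toHS.dcoreP χ (toHS_tor hT) hT.span (toHS_prime hI) R S x1 x2 f hf τ hτ O
      hred x0 hx0 γ (fun T _ _ _ _ i g => ?_) (twHS zb hN) fun T _ _ _ _ g => ?_)
    · rw [mem_toHS_G, ← twPt_iff_pt (z := z) hN (gm i γ) fun b => ?_]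
      · exact ((hS T).2 g).symm
      · have := Co.map_ev (i.restrictScalars k) γ b
        rw [hγ b] at this
        exact this.symm.trans (i.commutes _)
    · rw [mem_twHS_G]
      refine Iff.trans ?_ ((hS T).2 g)
      have e : ∀ b, algebraMap (ResidueField R) T (zb b) = algebraMap R T (z b) := fun b =>
        (IsScalarTower.algebraMap_apply R (ResidueField R) T (z b)).symm
      unfold TwPt
      simp only [e]
  · obtain ⟨x, hx⟩ := exists_unit_eval hf
    obtain ⟨e⟩ := h
    exact ⟨(IsLocalization.Away.liftAlgHom (f := aeval x) f hx).comp e⟩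

/-- Grothendieck-Serre over smooth algebras over valuation rings that contain a field. -/
theorem gs_main (hN : H.Normalizes G) (hI : G.GeomIntegral) (hT : G.SplitTorus χ)
    (hW : G.WideTorus H χ χ') (V : Type u) [CommRing V] [IsDomain V] [ValuationRing V]
    [Algebra k V] (A : Type u) [CommRing A] [Algebra V A] [Algebra.Smooth V A] (p : Ideal A)
    [p.IsPrime] (R : Type u) [CommRing R] [Algebra A R] [IsLocalization.AtPrime R p] [Algebra k R]
    (hk : ∀ c, algebraMap k R c = algebraMap A R (algebraMap V A (algebraMap k V c)))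
    (K : Type u) [Field K] [Algebra R K] [IsFractionRing R K] (z : H.B →ₐ[k] R) (E : Type u)
    [CommRing E] [Algebra R E] (hE : G.IsTorsor H z E) (hK : Nonempty (E →ₐ[R] K)) :
    Nonempty (E →ₐ[R] R) := by
  have : IsLocalRing R := IsLocalization.AtPrime.isLocalRing R p
  have : IsDomain R := (IsFractionRing.injective R K).isDomain (algebraMap R K)
  have : IsDomain (OGL k n) := IsLocalization.isDomain_localization
    (powers_le_nonZeroDivisors_of_noZeroDivisors (det_mvPolynomialX_ne_zero (Fin n) k))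
  let k1 := FractionRing (↥H.B)[X]
  have : Infinite k1 := Infinite.of_injective _ (IsFractionRing.injective (↥H.B)[X] k1)
  let z1 : H.B →ₐ[k] k1 := IsScalarTower.toAlgHom k H.B k1
  obtain ⟨D⟩ := twHS_datum z1 hN hI hT hW
  have hCT : (twHS z1 hN).CTP := HS.ct _
    (fun W F _ _ _ _ _ _ _ _ _ y hy => HS.k1 D W F y hy) (HS.k2 _ D)
  obtain ⟨e⟩ := hK
  obtain ⟨f, hf, h⟩ := versal_core G H H.toHS AlgEquiv.refl
    (fun A _ _ g b => by rw [toHS_pt, toHS_act_res, mul_one]; rfl) k1 z1 (fun _ => rfl)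
    (twHS z1 hN) (mem_twHS_G z1 hN) hCT V A p R hk z E hE
    ⟨(FractionRing.algEquiv R K).symm.toAlgHom.comp e⟩
  exact descend hN hI hT hE hf h

end AffQuot

end Pool.Agent.GR
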