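import Mathlib

open Matrix

universe u

namespace Pool.Agent.GR

/-- The coordinate ring `k[x_ij][1/det]` of `GL_n` over `k`. -/
abbrev OGL (k : Type u) [CommRing k] (n : ℕ) : Type u :=
  Localization.Away (mvPolynomialX (Fin n) (Fin n) k).det

theorem isUnit_aeval_det (k : Type u) [CommRing k] {n : ℕ} {A : Type u} [CommRing A] [Algebra k A]
    (g : GL (Fin n) A) :
    IsUnit (MvPolynomial.aeval (R := k) (fun p : Fin n × Fin n => g p.1 p.2)
      (mvPolynomialX (Fin n) (Fin n) k).det) := by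
  rw [AlgHom.map_det, mvPolynomialX_mapMatrix_aeval k (g : Matrix (Fin n) (Fin n) A)]
  exact (isUnit_iff_isUnit_det _).1 g.isUnit

/-- Evaluation of regular functions on `GL_n` at the point `g` of `GL_n(A)`. -/
noncomputable def ev (k : Type u) [CommRing k] {n : ℕ} {A : Type u} [CommRing A] [Algebra k A]
    (g : GL (Fin n) A) : OGL k n →ₐ[k] A :=
  IsLocalization.Away.liftAlgHom (mvPolynomialX (Fin n) (Fin n) k).det (isUnit_aeval_det k g)

/-- A smooth closed subgroup `G` of `GL_n` with affine quotient `GL_n / G = Spec B`: the map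
`GL_n → Spec B` is smooth and faithfully flat and its fibres are the cosets `g G`, where
`G` is the fibre through `1`. -/
structure AffQuot (k : Type u) [Field k] (n : ℕ) where
  B : Subalgebra k (OGL k n)
  ft : Algebra.FiniteType k B
  smooth : Algebra.Smooth B (OGL k n)
  ff : Module.FaithfullyFlat B (OGL k n)
  coset : ∀ (A : Type u) [CommRing A] [Algebra k A] (g g' : GL (Fin n) A),
    (∀ b ∈ B, ev k g b = ev k g' b) ↔ ∀ b ∈ B, ev k (g⁻¹ * g') b = ev k (1 : GL (Fin n) A) b

namespace AffQuot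

variable {k : Type u} [Field k] {n : ℕ}

/-- `g` is a point of the subgroup `G`. -/
def Pt (G : AffQuot k n) {A : Type u} [CommRing A] [Algebra k A] (g : GL (Fin n) A) : Prop :=
  ∀ b ∈ G.B, ev k g b = ev k (1 : GL (Fin n) A) b

/-- `H` normalises `G`. -/
def Normalizes (H G : AffQuot k n) : Prop :=
  ∀ (A : Type u) [CommRing A] [Algebra k A] (h g : GL (Fin n) A),
    H.Pt h → G.Pt g → G.Pt (h * g * h⁻¹)

/-- The function `f` on `GL_n` over the field `W` vanishes on the subgroup scheme `G_W`. -/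
def Vanishes (G : AffQuot k n) (W : Type u) [Field W] [Algebra k W] (f : OGL W n) : Prop :=
  ∀ (A : Type u) [CommRing A] [Algebra k A] [Algebra W A] [IsScalarTower k W A]
    (g : GL (Fin n) A), G.Pt g → ev W g f = 0

/-- The coordinate ring of `G_W` is a domain for every field `W` over `k`. -/
def GeomIntegral (G : AffQuot k n) : Prop :=
  ∀ (W : Type u) [Field W] [Algebra k W] (f f' : OGL W n),
    G.Vanishes W (f * f') → G.Vanishes W f ∨ G.Vanishes W f'

/-- `ξ` is in the Lie algebra of `G`: `1 + ε ξ` is a point of `G` over the dual numbers. -/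
def InLie (G : AffQuot k n) {A : Type u} [CommRing A] [Algebra k A]
    (ξ : Matrix (Fin n) (Fin n) A) : Prop :=
  ∃ g : GL (Fin n) (DualNumber A), G.Pt g ∧
    ∀ i j, g i j = TrivSqZeroExt.inl ((1 : Matrix (Fin n) (Fin n) A) i j) + TrivSqZeroExt.inr (ξ i j)

/-- The point `t` of the diagonal torus with weights `χ`. -/
def dT {r : ℕ} (χ : Fin n → Fin r → ℤ) {A : Type u} [CommRing A] (t : Fin r → Aˣ) :
    Matrix (Fin n) (Fin n) A :=
  diagonal fun i => ((∏ j, t j ^ χ i j : Aˣ) : A)

/-- The element `h` of the Lie algebra of the diagonal torus with weights `χ`. -/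
def dL {r : ℕ} (χ : Fin n → Fin r → ℤ) {A : Type u} [CommRing A] (h : Fin r → A) :
    Matrix (Fin n) (Fin n) A :=
  diagonal fun i => ∑ j, (χ i j : A) * h j

/-- The diagonal split torus `T` with weights `χ_1, …, χ_n`, which span `ℤ^r`, lies in `G`, and the
part of `Lie G` fixed by `T` is `Lie T`. -/
structure SplitTorus (G : AffQuot k n) {r : ℕ} (χ : Fin n → Fin r → ℤ) : Prop where
  span : Submodule.span ℤ (Set.range χ) = ⊤
  torus : ∀ (A : Type u) [CommRing A] [Algebra k A] (t : Fin r → Aˣ) (g : GL (Fin n) A),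
    (g : Matrix (Fin n) (Fin n) A) = dT χ t → G.Pt g
  cartan : ∀ ξ : Matrix (Fin n) (Fin n) k, G.InLie ξ → (∀ i j, χ i ≠ χ j → ξ i j = 0) →
    ∃ h : Fin r → k, ξ = dL χ h

/-- The diagonal torus `T'` with weights `χ'` normalises `G`, the group `H` preserves
`Lie G + Lie T'`, and no root of `T'` on `Lie G` is zero in `k^{r'}`. -/
structure WideTorus (G H : AffQuot k n) {r r' : ℕ} (χ : Fin n → Fin r → ℤ)
    (χ' : Fin n → Fin r' → ℤ) : Prop where
  norm : ∀ (A : Type u) [CommRing A] [Algebra k A] (t : Fin r' → Aˣ) (d g : GL (Fin n) A),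
    (d : Matrix (Fin n) (Fin n) A) = dT χ' t → G.Pt g → G.Pt (d * g * d⁻¹)
  stab : ∀ (A : Type u) [CommRing A] [Algebra k A] (η : GL (Fin n) A) (h : Fin r' → A), H.Pt η →
    ∃ h' : Fin r' → A, G.InLie ((η : Matrix (Fin n) (Fin n) A) * dL χ' h *
      ((η⁻¹ : GL (Fin n) A) : Matrix (Fin n) (Fin n) A) - dL χ' h')
  roots : ∀ ξ : Matrix (Fin n) (Fin n) k, G.InLie ξ → ∀ i j, ξ i j ≠ 0 → χ i ≠ χ j →
    ∃ l, ((χ' i l - χ' j l : ℤ) : k) ≠ 0

variable {R : Type u} [CommRing R] [Algebra k R]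

/-- Points of the twist `G_z` of `G` by the `H`-torsor that is the fibre of `GL_n → GL_n / H` over
the `R`-point `z`: `γ⁻¹ g γ` is in `G` for every local section `γ` of that fibre. -/
def TwPt (G H : AffQuot k n) (z : H.B →ₐ[k] R) {T : Type u} [CommRing T] [Algebra R T]
    (g : GL (Fin n) T) : Prop :=
  ∀ (T' : Type u) [CommRing T'] [Algebra k T'] (φ : T →+* T') (γ : GL (Fin n) T'),
    (∀ b : H.B, ev k γ b = φ (algebraMap R T (z b))) →
      G.Pt (γ⁻¹ * GeneralLinearGroup.map φ g * γ)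

/-- `Spec E` is a torsor under `G_z`: `E` is faithfully flat over `R`, and `G_z(T)` acts simply
transitively on `E(T)`, naturally in the `R`-algebra `T`. -/
def IsTorsor (G H : AffQuot k n) (z : H.B →ₐ[k] R) (E : Type u) [CommRing E] [Algebra R E] :
    Prop :=
  Module.FaithfullyFlat R E ∧
  ∃ act : ∀ (T : Type u) [CommRing T] [Algebra R T],
      {g : GL (Fin n) T // G.TwPt H z g} → (E →ₐ[R] T) → (E →ₐ[R] T),
    (∀ (T : Type u) [CommRing T] [Algebra R T] (e : E →ₐ[R] T),
      (∀ g, g.1 = 1 → act T g e = e) ∧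
      (∀ g g' g'', g''.1 = g.1 * g'.1 → act T g'' e = act T g (act T g' e)) ∧
      ∀ e', ∃! g, act T g e = e') ∧
    ∀ (T T' : Type u) [CommRing T] [Algebra R T] [CommRing T'] [Algebra R T'] (f : T →ₐ[R] T')
      (g : {g : GL (Fin n) T // G.TwPt H z g}) (g' : {g : GL (Fin n) T' // G.TwPt H z g})
      (e : E →ₐ[R] T), g'.1 = GeneralLinearGroup.map (f : T →+* T') g.1 →
        f.comp (act T g e) = act T' g' (f.comp e)

end AffQuot

end Pool.Agent.GR
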