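import Pool.Agent.P.MP_c1f06d_ag.r.CL

/-! Attractors, limits and lifting of fixed points. -/

open Matrix hiding single
open AddMonoidAlgebra

universe u

namespace Pool.Agent.GR

section aux

variable {k Λ : Type u} [Field k] [CommRing Λ] [Algebra k Λ] {Γ : Type} [AddCommGroup Γ] {n : ℕ}

/-- Everything in the degrees where `P` holds, zero in the other degrees. -/
def pfam (k Λ : Type u) [Field k] [CommRing Λ] [Algebra k Λ] {Γ : Type} (P : Γ → Prop) (δ : Γ) :
    Submodule k Λ where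
  carrier := {x | ¬ P δ → x = 0}
  add_mem' := fun ha hb h => by rw [ha h, hb h, add_zero]
  zero_mem' := fun _ => rfl
  smul_mem' := fun r _ hx h => by rw [hx h, smul_zero]

theorem pfam_mul {P P' P'' : Γ → Prop} (h : ∀ a b, P a → P' b → P'' (a + b)) :
    GMul (pfam k Λ P) (pfam k Λ P') (pfam k Λ P'') := by
  intro a b x y hx hy e
  by_cases ha : P a
  · rw [hy fun hb => e (h a b ha hb), mul_zero]
  · rw [hx ha, zero_mul]

theorem mul_sub_one_mem {I : Γ → Submodule k Λ} (h : GMul I I I) (c : Fin n → Γ) {p q : Mat n Λ}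
    (hp : ∀ i j, (p - 1) i j ∈ I (c i - c j)) (hq : ∀ i j, (q - 1) i j ∈ I (c i - c j))
    (i j : Fin n) : (p * q - 1) i j ∈ I (c i - c j) := by
  have e : p * q - 1 = (p - 1) * (q - 1) + (p - 1) + (q - 1) := by noncomm_ring
  rw [e, Matrix.add_apply, Matrix.add_apply, Matrix.mul_apply]
  refine add_mem (add_mem (Submodule.sum_mem _ fun m _ => ?_) (hp i j)) (hq i j)
  have := h _ _ _ _ (hp i m) (hq m j)
  rwa [sub_add_sub_cancel] at this

theorem rho_conj_of_inL (c : Fin n → Γ) {g : GL (Fin n) Λ} (hg : InL c (g : Mat n Λ)) :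
    rho Λ c * gm (IsScalarTower.toAlgHom k Λ (GA Λ Γ)) g * (rho Λ c)⁻¹ =
      gm (IsScalarTower.toAlgHom k Λ (GA Λ Γ)) g := by
  refine Units.ext (Matrix.ext fun i j => ?_)
  rw [conj_const, gm_apply, ga_inc]
  by_cases e : c i = c j
  · rw [e, sub_self]
  · rw [hg i j e, AddMonoidAlgebra.single_zero, AddMonoidAlgebra.single_zero]

end aux

namespace HS

variable {k : Type u} [Field k] {n : ℕ} (H : HS k n) {Λ : Type u} [CommRing Λ] [Algebra k Λ]
  {Γ : Type} [AddCommGroup Γ]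

theorem Fixed.comp {H : HS k n} {c : Fin n → Γ} {y : H.B →ₐ[k] Λ} (hy : H.Fixed c y)
    {S : Type u} [CommRing S] [Algebra k S] (f : Λ →ₐ[k] S) : H.Fixed c (f.comp y) :=
  (H.fixed_iff c _).2 fun δ hδ b => by rw [cf_nat, (H.fixed_iff c y).1 hy δ hδ b, map_zero]

theorem Fixed.act {H : HS k n} {c : Fin n → Γ} {y : H.B →ₐ[k] Λ} (hy : H.Fixed c y)
    {g : GL (Fin n) Λ} (hg : InL c (g : Mat n Λ)) : H.Fixed c (H.act g y) := by
  rw [Fixed, orb_act, rho_conj_of_inL c hg, hy, H.act_nat]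

/-- A finite set of degrees outside of which the components of a generating set vanish. -/
theorem exists_supp (c : Fin n → Γ) : ∃ (s : Finset H.B) (T : Finset Γ),
    Algebra.adjoin k (s : Set H.B) = ⊤ ∧
      ∀ b ∈ s, ∀ δ, δ ∉ T → H.cf c (AlgHom.id k H.B) δ b = 0 := by
  classical
  obtain ⟨s, hs⟩ := (inferInstance : Algebra.FiniteType k H.B).out
  refine ⟨s, s.biUnion fun b => (H.orb c (AlgHom.id k H.B) b).coeff.support, hs,
    fun b hb δ hδ => ?_⟩
  exact Finsupp.notMem_support_iff.1 fun h => hδ (Finset.mem_biUnion.2 ⟨b, hb, h⟩)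

theorem fixed_of_gen (c : Fin n → Γ) (y : H.B →ₐ[k] Λ) {s : Set H.B}
    (hs : Algebra.adjoin k s = ⊤) (h : ∀ b ∈ s, ∀ δ, δ ≠ 0 → H.cf c y δ b = 0) : H.Fixed c y :=
  (H.fixed_iff c y).2 (H.gen (A := jfam k ⊥) (I := fun _ => ⊥) (jfam_top _ _) (jfam_mul _)
    (fun _ _ _ _ _ hy => by rw [Submodule.mem_bot] at hy ⊢; rw [hy, mul_zero]) c y hs
    (fun b hb δ hδ => h b hb δ hδ) h).2

/-- ATTR, over any ring, with `p` and `p⁻¹` unipotent. -/
theorem attr (c : Fin n → Γ) (M : AddSubmonoid Γ) (w : Γ →+ ℤ)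
    (hw : ∀ δ ∈ M, δ ≠ 0 → 1 ≤ w δ) (y : H.B →ₐ[k] Λ)
    (hy : ∀ δ, δ ∉ M → ∀ b, H.cf c y δ b = 0) :
    ∃ p : GL (Fin n) Λ, H.Fixed c (H.act p y) ∧
      (∀ i j, c i - c j ∉ M ∨ c i = c j → ((p : Mat n Λ) - 1) i j = 0) ∧
      ∀ i j, c i - c j ∉ M ∨ c i = c j → (((p⁻¹ : GL (Fin n) Λ) : Mat n Λ) - 1) i j = 0 := by
  have hw0 : ∀ δ ∈ M, 0 ≤ w δ := fun δ h => by
    by_cases e : δ = 0
    · rw [e, map_zero]
    · exact zero_le_one.trans (hw δ h e)
  let I : ℕ → Γ → Submodule k Λ := fun m => pfam k Λ fun δ => δ ∈ M ∧ (m : ℤ) ≤ w δ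
  have mulI : ∀ a b d : ℕ, d ≤ a + b → GMul (I a) (I b) (I d) := fun a b d h =>
    pfam_mul fun x y hx hy => ⟨add_mem hx.1 hy.1, by
      have h1 := hx.2
      have h2 := hy.2
      rw [map_add]
      omega⟩
  have leI : ∀ a b : ℕ, a ≤ b → ∀ δ, I b δ ≤ I a δ := fun a b h δ x hx e =>
    hx fun e' => e ⟨e'.1, (Int.ofNat_le.2 h).trans e'.2⟩
  have key : ∀ m : ℕ, ∃ p : GL (Fin n) Λ, (∀ i j, ((p : Mat n Λ) - 1) i j ∈ I 1 (c i - c j)) ∧
      (∀ i j, (((p⁻¹ : GL (Fin n) Λ) : Mat n Λ) - 1) i j ∈ I 1 (c i - c j)) ∧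
      (∀ δ b, H.cf c (H.act p y) δ b ∈ I 0 δ) ∧
      ∀ δ, δ ≠ 0 → ∀ b, H.cf c (H.act p y) δ b ∈ I (m + 1) δ := by
    intro m
    induction m with
    | zero =>
      refine ⟨1, fun i j => by simp, fun i j => by simp, fun δ b e => ?_, fun δ hδ b e => ?_⟩
      · rw [H.act_one]
        exact hy δ (fun h => e ⟨h, hw0 δ h⟩) b
      · rw [H.act_one]
        exact hy δ (fun h => e ⟨h, hw δ h hδ⟩) b
    | succ m ih =>
      obtain ⟨p, p1, p2, p3, p4⟩ := ih
      have g3 : Gr3 (I 0) (I (m + 1)) (I (m + 2)) :=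
        ⟨leI _ _ (by omega), leI _ _ (by omega), fun e => (e ⟨zero_mem _, by simp⟩).elim,
          mulI _ _ _ (by omega), mulI _ _ _ (by omega), mulI _ _ _ (by omega),
          mulI _ _ _ (by omega), fun x hx => ⟨1, fun e => (e ⟨zero_mem _, by simp⟩).elim, by
            rw [hx fun e => by
              have := e.2
              rw [map_zero] at this
              omega, add_zero, mul_one]⟩⟩
      obtain ⟨q, q1, q2, q3, q4⟩ := H.cl g3 c _ p3 p4
      rw [← H.act_mul] at q3 q4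
      refine ⟨q * p, ?_, ?_, q3, q4⟩
      · exact mul_sub_one_mem (mulI 1 1 1 (by omega)) c
          (fun i j => leI _ _ (by omega) _ (q1 i j)) p1
      · rw [_root_.mul_inv_rev]
        exact mul_sub_one_mem (mulI 1 1 1 (by omega)) c p2
          fun i j => leI _ _ (by omega) _ (q2 i j)
  obtain ⟨s, T, hs, hT⟩ := H.exists_supp c
  obtain ⟨p, p1, p2, -, p4⟩ := key (T.sup fun δ => (w δ).toNat)
  have hn : ∀ i j, c i - c j ∉ M ∨ c i = c j → ¬ (c i - c j ∈ M ∧ ((1 : ℕ) : ℤ) ≤ w (c i - c j)) :=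
    fun i j h e => h.elim (fun h => h e.1) fun h => by
      have := e.2
      rw [h, sub_self, map_zero] at this
      omega
  refine ⟨p, H.fixed_of_gen c _ hs fun b hb δ hδ => ?_, fun i j h => p1 i j (hn i j h),
    fun i j h => p2 i j (hn i j h)⟩
  by_cases e : δ ∈ T
  · refine p4 δ hδ b fun e' => ?_
    have h1 : (w δ).toNat ≤ T.sup fun δ => (w δ).toNat := Finset.le_sup (f := fun δ => (w δ).toNat) e
    have h2 := e'.2
    omega
  · rw [cf_eq, hT b hb δ e, map_zero]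

/-- Passing to the block diagonal part, for fixed points. -/
theorem act_lv [DecidableEq Γ] {A : Γ → Submodule k Λ} (top : ∀ x, x ∈ A 0) (aa : GMul A A A)
    (hz : ∀ δ, δ ≠ 0 → ∀ x ∈ A δ, ∀ y ∈ A (-δ), x * y = 0) (c : Fin n → Γ)
    {y y' : H.B →ₐ[k] Λ} (hy : H.Fixed c y) (hy' : H.Fixed c y') (q : GL (Fin n) Λ)
    (hq : ∀ i j, (q : Mat n Λ) i j ∈ A (c i - c j))
    (hq' : ∀ i j, ((q⁻¹ : GL (Fin n) Λ) : Mat n Λ) i j ∈ A (c i - c j)) (e : H.act q y = y') :
    ∃ l : GL (Fin n) Λ, (l : Mat n Λ) = lv c (q : Mat n Λ) ∧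
      ((l⁻¹ : GL (Fin n) Λ) : Mat n Λ) = lv c ((q⁻¹ : GL (Fin n) Λ) : Mat n Λ) ∧
      H.act l y = y' := by
  have e0 : (rho Λ c * gm (IsScalarTower.toAlgHom k Λ (GA Λ Γ)) q * (rho Λ c)⁻¹)⁻¹ =
      rho Λ c * gm (IsScalarTower.toAlgHom k Λ (GA Λ Γ)) q⁻¹ * (rho Λ c)⁻¹ := by
    rw [map_inv]
    group
  obtain ⟨l, l1, l2, l3⟩ := H.act_ev0 top aa hz
    (rho Λ c * gm (IsScalarTower.toAlgHom k Λ (GA Λ Γ)) q * (rho Λ c)⁻¹)
    (fun i j δ => by rw [conj_const]; exact coeff_single_mem (hq i j) δ)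
    (fun i j δ => by rw [e0, conj_const]; exact coeff_single_mem (hq' i j) δ) y
  refine ⟨l, Matrix.ext fun i j => ?_, Matrix.ext fun i j => ?_, AlgHom.ext fun b => ?_⟩
  · rw [l1, conj_const, coeff_single, Finsupp.single_apply]
    simp only [lv, of_apply, sub_eq_zero]
  · rw [l2, e0, conj_const, coeff_single, Finsupp.single_apply]
    simp only [lv, of_apply, sub_eq_zero]
  · rw [l3, ← hy, ← orb_act, e, hy']
    exact Finsupp.single_eq_same

/-- LIM, over any ring. -/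
theorem lim (a : Fin n → ℤ) {y y' : H.B →ₐ[k] Λ} (hy : H.Fixed a y) (hy' : H.Fixed a y')
    (q : GL (Fin n) Λ) (hq : InP a (q : Mat n Λ))
    (hq' : InP a ((q⁻¹ : GL (Fin n) Λ) : Mat n Λ)) (e : H.act q y = y') :
    ∃ l : GL (Fin n) Λ, (l : Mat n Λ) = lv a (q : Mat n Λ) ∧
      ((l⁻¹ : GL (Fin n) Λ) : Mat n Λ) = lv a ((q⁻¹ : GL (Fin n) Λ) : Mat n Λ) ∧
      H.act l y = y' :=
  H.act_lv (A := pfam k Λ fun δ : ℤ => 0 ≤ δ) (fun _ h => (h le_rfl).elim)
    (pfam_mul fun _ _ => add_nonneg)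
    (fun δ hδ x hx z hz => by
      by_cases h : 0 ≤ δ
      · rw [hz (by omega), mul_zero]
      · rw [hx h, zero_mul]) a hy hy' q
    (fun i j h => hq i j (by omega)) (fun i j h => hq' i j (by omega)) e

theorem lfix0 (c : Fin n → Γ) (J : Ideal Λ) (hJ : J * J = ⊥) {y y' : H.B →ₐ[k] Λ}
    (hy : H.Fixed c y) (hy' : H.Fixed c y') (e : ∀ b, y b - y' b ∈ J) :
    ∃ l : GL (Fin n) Λ, InL c (l : Mat n Λ) ∧ (∀ i j, ((l : Mat n Λ) - 1) i j ∈ J) ∧
      H.act l y = y' := by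
  classical
  obtain ⟨g, hg, e1⟩ := H.t2 J hJ y y' e
  have key : ∀ g : GL (Fin n) Λ, (∀ i j, ((g : Mat n Λ) - 1) i j ∈ J) →
      ∀ i j, (g : Mat n Λ) i j ∈ jfam k J (c i - c j) := fun g hg i j h => by
    have := hg i j
    rwa [Matrix.sub_apply, one_apply_ne (fun e => h (by rw [e, sub_self])), sub_zero] at this
  obtain ⟨l, l1, -, l3⟩ := H.act_lv (jfam_top J) (jfam_mul J) (jfam_zero hJ) c hy hy' g
    (key g hg) (key _ (inv_sub_one_mem hg)) e1
  refine ⟨l, fun i j h => ?_, fun i j => ?_, l3⟩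
  · rw [l1, lv, of_apply, if_neg h]
  · rw [Matrix.sub_apply, l1, lv, of_apply]
    split_ifs with h
    · exact hg i j
    · rw [one_apply_ne (fun e => h (by rw [e])), sub_zero]
      exact zero_mem _

/-- LFIX. -/
theorem lfix (c : Fin n → Γ) (J : Ideal Λ) (hJ : IsNilpotent J) {y y' : H.B →ₐ[k] Λ}
    (hy : H.Fixed c y) (hy' : H.Fixed c y') (e : ∀ b, y b - y' b ∈ J) :
    ∃ l : GL (Fin n) Λ, InL c (l : Mat n Λ) ∧ (∀ i j, ((l : Mat n Λ) - 1) i j ∈ J) ∧
      H.act l y = y' := by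
  classical
  have hmul : ∀ p q : Mat n Λ, InL c p → InL c q → InL c (p * q) := fun p q hp hq i j h => by
    rw [Matrix.mul_apply]
    refine Finset.sum_eq_zero fun m _ => ?_
    by_cases e : c i = c m
    · rw [hq m j (e ▸ h), mul_zero]
    · rw [hp i m e, zero_mul]
  have key : ∀ m : ℕ, ∃ l : GL (Fin n) Λ, InL c (l : Mat n Λ) ∧
      (∀ i j, ((l : Mat n Λ) - 1) i j ∈ J) ∧ ∀ b, H.act l y b - y' b ∈ J ^ (m + 1) := by
    intro m
    induction m with
    | zero =>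
      refine ⟨1, fun i j h => one_apply_ne fun e => h (by rw [e]), fun i j => by simp, fun b => ?_⟩
      rw [H.act_one, zero_add, pow_one]
      exact e b
    | succ m ih =>
      obtain ⟨l, l1, l2, l3⟩ := ih
      let mk := Ideal.Quotient.mkₐ k (J ^ (m + 2))
      have mks : Function.Surjective mk := Ideal.Quotient.mkₐ_surjective k _
      obtain ⟨g, g1, g2, g3⟩ := H.lfix0 c ((J ^ (m + 1)).map mk) (by
          rw [← Ideal.map_mul, ← pow_add, Ideal.map_eq_bot_iff_le_ker]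
          exact fun x hx => Ideal.Quotient.eq_zero_iff_mem.2
            (Ideal.pow_le_pow_right (by omega) hx))
        ((hy.act l1).comp mk) (hy'.comp mk) fun b => by
          rw [AlgHom.comp_apply, AlgHom.comp_apply, ← map_sub]
          exact Ideal.mem_map_of_mem _ (l3 b)
      choose x hx ex using fun i j => (Ideal.mem_map_iff_of_surjective mk mks).1 (g2 i j)
      have hX : ∀ i j, (1 + lv c (of x) - 1) i j ∈ J := fun i j => by
        rw [add_sub_cancel_left, lv, of_apply]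
        split_ifs
        · exact Ideal.pow_le_self (by omega) (hx i j)
        · exact zero_mem _
      have u : IsUnit (1 + lv c (of x)) := by
        obtain ⟨N, hN⟩ := hJ
        have h1 : IsNilpotent ((1 + lv c (of x)).det - 1) :=
          ⟨N, Ideal.mem_bot.1 (hN ▸ Ideal.pow_mem_pow (det_sub_one_mem hX) N :)⟩
        have h2 := h1.isUnit_add_one
        rw [sub_add_cancel] at h2
        exact (isUnit_iff_isUnit_det _).2 h2
      obtain ⟨p, hp⟩ := u
      have e1 : gm mk p = g := by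
        refine Units.ext (Matrix.ext fun i j => ?_)
        have e2 := ex i j
        rw [Matrix.sub_apply] at e2
        rw [gm_apply, hp, Matrix.add_apply, map_add, lv, of_apply]
        by_cases h : i = j
        · subst h
          simp [e2]
        · rw [one_apply_ne h] at e2 ⊢
          split_ifs with h'
          · rw [of_apply, e2, map_zero, zero_add, sub_zero]
          · rw [g1 i j h', map_zero, add_zero]
      refine ⟨p * l, hmul _ _ (fun i j h => ?_) l1, fun i j => ?_, fun b => ?_⟩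
      · rw [hp, Matrix.add_apply, one_apply_ne (fun e => h (by rw [e])), lv, of_apply, if_neg h,
          add_zero]
      · have e2 : ((p * l : GL (Fin n) Λ) : Mat n Λ) - 1 =
            (p : Mat n Λ) * ((l : Mat n Λ) - 1) + ((p : Mat n Λ) - 1) := by
          rw [Units.val_mul]
          noncomm_ring
        rw [e2, Matrix.add_apply, Matrix.mul_apply]
        exact add_mem (Ideal.sum_mem _ fun m _ => J.mul_mem_left _ (l2 m j)) (hp ▸ hX i j)
      · rw [← e1, ← H.act_nat, ← H.act_mul] at g3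
        exact Ideal.Quotient.eq.1 (AlgHom.congr_fun g3 b)
  obtain ⟨N, hN⟩ := hJ
  obtain ⟨l, l1, l2, l3⟩ := key N
  refine ⟨l, l1, l2, AlgHom.ext fun b => sub_eq_zero.1 ?_⟩
  have := Ideal.pow_le_pow_right (Nat.le_succ N) (l3 b)
  rwa [hN] at this

end HS

end Pool.Agent.GR
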