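import Pool.Agent.P.MP_c1f06d_ag.r.Intw
import Pool.Agent.P.MP_c1f06d_ag.r.Attr

open Matrix

universe u

namespace Pool.Agent.GR

theorem exists_add_sep {r : ℕ} (S : Finset (Fin r → ℤ)) :
    ∃ μ : (Fin r → ℤ) →+ ℤ, ∀ x ∈ S, ∀ y ∈ S, μ x = μ y → x = y := by
  classical
  let P : (Fin r → ℤ) → Polynomial ℤ := fun z => ∑ j : Fin r, Polynomial.monomial (j : ℕ) (z j)
  have hP : ∀ z, P z = 0 → z = 0 := fun z h => funext fun j => by
    have := congrArg (fun p => Polynomial.coeff p j) h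
    simpa [P, Polynomial.finsetSum_coeff, Polynomial.coeff_monomial, Fin.val_inj] using this
  have hQ : ∏ p ∈ S.offDiag, P (p.1 - p.2) ≠ 0 := Finset.prod_ne_zero_iff.2 fun p hp h =>
    (Finset.mem_offDiag.1 hp).2.2 (sub_eq_zero.1 (hP _ h))
  obtain ⟨t, ht⟩ : ∃ t : ℤ, ¬ (∏ p ∈ S.offDiag, P (p.1 - p.2)).IsRoot t := by
    by_contra h
    push Not at h
    exact hQ (Polynomial.eq_zero_of_infinite_isRoot _ (by
      rw [Set.eq_univ_of_forall (s := {x | Polynomial.IsRoot _ x}) h]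
      exact Set.infinite_univ))
  refine ⟨⟨⟨fun z => ∑ j, z j * t ^ (j : ℕ), by simp⟩, fun a b => by
    simp [add_mul, Finset.sum_add_distrib]⟩, fun x hx y hy e => by_contra fun hne => ht ?_⟩
  rw [Polynomial.IsRoot, Polynomial.eval_prod]
  refine Finset.prod_eq_zero (i := (x, y)) (Finset.mem_offDiag.2 ⟨hx, hy, hne⟩) ?_
  have e' : ∑ j, x j * t ^ (j : ℕ) = ∑ j, y j * t ^ (j : ℕ) := e
  simp [P, Polynomial.eval_finsetSum, e']

theorem chi_XX {n r : ℕ} (χ : Fin n → Fin r → ℤ) (i : Fin n) : χ i ∈ XX χ :=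
  Finset.mem_image_of_mem _ (Finset.mem_univ i)

theorem exists_of_XX {n r : ℕ} {χ : Fin n → Fin r → ℤ} {x : Fin r → ℤ} (h : x ∈ XX χ) :
    ∃ i, χ i = x := by simpa [XX] using h

namespace HS

variable {k : Type u} [Field k] {n r : ℕ} (H : HS k n) {Ω : Type u} [Field Ω] [Algebra k Ω]

/-- The diagonal torus with weights `χ` is a maximal torus of the stabiliser of `y`. -/
structure Frame (χ : Fin n → Fin r → ℤ) (y : H.B →ₐ[k] Ω) : Prop where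
  fix : H.Fixed χ y
  zt : ∀ (q : GL (Fin n) Ω) (a : Fin n → ℤ), InL χ (q : Mat n Ω) → H.Fixed a (H.act q y) →
    ∃ a₀ : (Fin r → ℤ) →+ ℤ, ∀ i, a i = a₀ (χ i)

variable {H} {χ : Fin n → Fin r → ℤ} {y : H.B →ₐ[k] Ω}

/-- BR. -/
theorem Frame.br (F : H.Frame χ y) {Γ : Type} [AddCommGroup Γ] {c : Fin n → Γ} (hc : H.Fixed c y)
    (μ : (Fin r → ℤ) →+ ℤ) (hμ : ∀ i j, μ (χ i) = μ (χ j) → χ i = χ j) {a : Fin n → ℤ}
    {β u b : GL (Fin n) Ω} {w : Equiv.Perm (Fin n)} (hβ : H.Fixed a (H.act β⁻¹ y))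
    (hg : u * pmat Ω w * b * β⁻¹ ∈ H.St y) (hβc : InL c (β : Mat n Ω))
    (hu : u ∈ PL (fun i => μ (χ i)) c Ω) (hb : b ∈ PL a c Ω) (hw : ∀ j, c (w j) = c j) :
    ∃ a₀ : (Fin r → ℤ) →+ ℤ, (∀ i, a (w.symm i) = a₀ (χ i)) ∧ ∃ g ∈ H.St y,
      InL c (g : Mat n Ω) ∧
        Intw (fun i => a₀ (χ i)) a ((g * β : GL (Fin n) Ω) : Mat n Ω) := by
  classical
  set a' : Fin n → ℤ := fun i => a (w.symm i) with ha'
  set μ' : Fin n → ℤ := fun i => μ (χ i) with hμ'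
  set yw := H.act (pmat Ω w) (H.act β⁻¹ y) with hyw
  set b' := pmat Ω w * b * (pmat Ω w)⁻¹ with hb'
  have fμ : H.Fixed μ' y := F.fix.push μ
  have fw : H.Fixed a' yw := hβ.intw (intw_pmat a w)
  have hwc : InL c (pmat Ω w : Mat n Ω) := inL_pmat hw
  have pb : InP a' (b' : Mat n Ω) := inP_pmat_conj hb.1 w
  have lb : InL c (b' : Mat n Ω) := (hwc.mul hb.2).mul hwc.inv
  have e0 : H.act u⁻¹ y = H.act b' yw := by
    have h : H.act (u * pmat Ω w * b * β⁻¹) y = y := hg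
    conv_lhs => rw [← h]
    rw [hyw, ← H.act_mul, ← H.act_mul, ← H.act_mul, hb']
    congr 1
    group
  let C : Fin n → ℤ × ℤ × Γ := fun i => (μ' i, a' i, c i)
  let M1 : AddSubmonoid (ℤ × ℤ × Γ) :=
    { carrier := {δ | 0 ≤ δ.1 ∧ δ.2.2 = 0}
      add_mem' := fun h h' => ⟨add_nonneg h.1 h'.1, by simp [h.2, h'.2]⟩
      zero_mem' := ⟨le_rfl, rfl⟩ }
  let M2 : AddSubmonoid (ℤ × ℤ × Γ) :=
    { carrier := {δ | 0 ≤ δ.2.1}
      add_mem' := fun {x y} (h : 0 ≤ x.2.1) (h' : 0 ≤ y.2.1) => add_nonneg h h'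
      zero_mem' := le_refl (0 : ℤ) }
  have m1 : ∀ δ, δ ∈ M1 ↔ 0 ≤ δ.1 ∧ δ.2.2 = 0 := fun _ => Iff.rfl
  have m2 : ∀ δ, δ ∈ M2 ↔ 0 ≤ δ.2.1 := fun _ => Iff.rfl
  have k1 : ∀ p : GL (Fin n) Ω, p ∈ PL μ' c Ω → ∀ i j, C i - C j ∉ M1 → (p : Mat n Ω) i j = 0 :=
    fun p hp i j h => by
      by_cases e : c i = c j
      · exact hp.1 i j (by simpa [m1, C, e] using h)
      · exact hp.2 i j e
  have k2 : ∀ p : Mat n Ω, InP a' p → ∀ i j, C i - C j ∉ M2 → p i j = 0 :=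
    fun p hp i j h => hp i j (by simpa [m2, C] using h)
  have f1 : H.Fixed (fun i => ((μ' i, 0, c i) : ℤ × ℤ × Γ)) y := by
    have := (fμ.push (AddMonoidHom.inl ℤ (ℤ × Γ))).plus
      (hc.push ((AddMonoidHom.inr ℤ (ℤ × Γ)).comp (AddMonoidHom.inr ℤ Γ)))
    simpa using this
  have f2 : H.Fixed (fun i => ((0, a' i, 0) : ℤ × ℤ × Γ)) yw :=
    fw.push ((AddMonoidHom.inr ℤ (ℤ × Γ)).comp (AddMonoidHom.inl ℤ Γ))
  obtain ⟨p, hp, hp1, hp2⟩ := H.attr C (M1 ⊓ M2)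
    (AddMonoidHom.fst ℤ (ℤ × Γ) + (AddMonoidHom.fst ℤ Γ).comp (AddMonoidHom.snd ℤ (ℤ × Γ)))
    (fun δ hδ h0 => by
      obtain ⟨⟨h1, h2⟩, h3⟩ := hδ
      have h4 : 0 ≤ δ.2.1 := h3
      show 1 ≤ δ.1 + δ.2.1
      by_contra h
      exact h0 (Prod.ext (show δ.1 = 0 by omega) (Prod.ext (show δ.2.1 = 0 by omega) h2)))
    (H.act u⁻¹ y) (fun δ hδ x => by
      by_cases h : δ ∈ M1
      · rw [e0]
        exact f2.supp M2 (fun i => by simp [m2, C]) (fun i => by simp [m2, C]) b' (k2 _ pb)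
          (k2 _ pb.inv) δ (fun h' => hδ ⟨h, h'⟩) x
      · exact f1.supp M1 (fun i => by simp [m1, C]) (fun i => by simp [m1, C]) u⁻¹
          (k1 _ (inv_mem hu)) (k1 _ (inv_mem (inv_mem hu))) δ h x)
  have hp0 : ∀ i j, C i - C j ∉ M1 ⊓ M2 → (p : Mat n Ω) i j = 0 := fun i j h => by
    have h1 := hp1 i j (Or.inl h)
    have h2 : i ≠ j := fun e => h (by rw [e, sub_self]; exact zero_mem _)
    rwa [Matrix.sub_apply, one_apply_ne h2, sub_zero] at h1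
  have pμ : InP μ' (p : Mat n Ω) := fun i j h => hp0 i j fun h' =>
    absurd h'.1.1 (by simpa [C] using h)
  have pa : InP a' (p : Mat n Ω) := fun i j h => hp0 i j fun h' =>
    absurd ((m2 _).1 h'.2) (by simpa [C] using h)
  have pc : InL c (p : Mat n Ω) := fun i j h => hp0 i j fun h' =>
    h (sub_eq_zero.1 h'.1.2)
  have g1 : H.Fixed μ' (H.act p (H.act u⁻¹ y)) := hp.push (AddMonoidHom.fst ℤ (ℤ × Γ))
  have g2 : H.Fixed a' (H.act p (H.act u⁻¹ y)) :=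
    hp.push ((AddMonoidHom.fst ℤ Γ).comp (AddMonoidHom.snd ℤ (ℤ × Γ)))
  have pq1 : InP μ' ((p * u⁻¹ : GL (Fin n) Ω) : Mat n Ω) := pμ.mul hu.1.inv
  have pq2 : InP a' ((p * b' : GL (Fin n) Ω) : Mat n Ω) := pa.mul pb
  obtain ⟨q1, hq1, -, e1⟩ := H.lim μ' fμ g1 (p * u⁻¹) pq1 pq1.inv (H.act_mul _ _ _)
  obtain ⟨q2, hq2, -, e2⟩ := H.lim a' fw g2 (p * b') pq2 pq2.inv (by rw [H.act_mul, ← e0])
  have l1 : InL χ (q1 : Mat n Ω) := fun i j h =>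
    hq1 ▸ lv_inL_self μ' _ i j fun e => h (hμ i j e)
  have c1 : InL c (q1 : Mat n Ω) := hq1 ▸ lv_inL μ' (pc.mul hu.2.inv)
  have c2 : InL c (q2 : Mat n Ω) := hq2 ▸ lv_inL a' (pc.mul lb)
  obtain ⟨a₀, ha₀⟩ := F.zt q1 a' l1 (e1 ▸ g2)
  refine ⟨a₀, ha₀, q1⁻¹ * q2 * pmat Ω w * β⁻¹, ?_, ((c1.inv.mul c2).mul hwc).mul hβc.inv, ?_⟩
  · show H.act _ y = y
    rw [H.act_mul, H.act_mul, H.act_mul, ← hyw, e2, ← e1, H.act_inv_act]
  · have i1 : Intw (fun i => a₀ (χ i)) (fun i => a₀ (χ i)) ((q1⁻¹ : GL (Fin n) Ω) : Mat n Ω) :=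
      Intw.comp (a := χ) (b := χ) l1.inv a₀
    have i2 : Intw a' a' (q2 : Mat n Ω) := hq2 ▸ lv_inL_self a' _
    have e3 : (fun i => a₀ (χ i)) = a' := (funext ha₀).symm
    rw [inv_mul_cancel_right, Units.val_mul, Units.val_mul]
    rw [e3] at i1 ⊢
    exact (i1.mul i2).mul (intw_pmat a w)

/-- CONJ inside a Levi subgroup. -/
theorem Frame.conj (F : H.Frame χ y) {Γ : Type} [AddCommGroup Γ] {c : Fin n → Γ}
    (hc : H.Fixed c y) {a : Fin n → ℤ} {β : GL (Fin n) Ω} (hβ : H.Fixed a (H.act β⁻¹ y))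
    (hβc : InL c (β : Mat n Ω)) : ∃ a₀ : (Fin r → ℤ) →+ ℤ, ∃ g ∈ H.St y, InL c (g : Mat n Ω) ∧
      Intw (fun i => a₀ (χ i)) a ((g * β : GL (Fin n) Ω) : Mat n Ω) := by
  obtain ⟨μ, hμ⟩ := exists_add_sep (XX χ)
  obtain ⟨u, b, w, e, hu, hb, hw⟩ := bruhat (fun i => μ (χ i)) a c β hβc
  obtain ⟨a₀, -, h⟩ := F.br hc μ (fun i j => hμ _ (chi_XX χ i) _ (chi_XX χ j)) hβ
    (by rw [← e, mul_inv_cancel]; exact one_mem _) hβc hu hb hw
  exact ⟨a₀, h⟩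

/-- A function on the weights that is invariant under the normaliser of the torus. -/
def WInv (H : HS k n) (χ : Fin n → Fin r → ℤ) (y : H.B →ₐ[k] Ω) (ν : (Fin r → ℤ) →+ ℤ) : Prop :=
  ∀ g ∈ H.St y, ∀ σ : Equiv.Perm (XX χ),
    Intw χ (fun j => (σ ⟨χ j, chi_XX χ j⟩ : Fin r → ℤ)) (g : Mat n Ω) → ∀ x, ν (σ x) = ν x

theorem Frame.inP (F : H.Frame χ y) {ν : (Fin r → ℤ) →+ ℤ} (hν : H.WInv χ y ν)
    {g : GL (Fin n) Ω} (hg : g ∈ H.St y) : InP (fun i => ν (χ i)) (g : Mat n Ω) := by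
  classical
  obtain ⟨μ, hμ⟩ := exists_add_sep (XX χ)
  have hμ' : ∀ i j, μ (χ i) = μ (χ j) → χ i = χ j := fun i j => hμ _ (chi_XX χ i) _ (chi_XX χ j)
  obtain ⟨K, hK⟩ : ∃ K : ℤ, ∀ i j, μ (χ i) - μ (χ j) < K := by
    obtain ⟨K, hK⟩ := (Set.finite_range fun p : Fin n × Fin n => μ (χ p.1) - μ (χ p.2)).bddAbove
    exact ⟨K + 1, fun i j => Int.lt_add_one_of_le (hK ⟨(i, j), rfl⟩)⟩
  have hlt : ∀ i j, ν (χ i) < ν (χ j) → (K • ν + μ) (χ i) < (K • ν + μ) (χ j) := fun i j h => by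
    have h1 := hK i j
    have h2 := hK i i
    simp only [AddMonoidHom.add_apply, AddMonoidHom.smul_apply, smul_eq_mul]
    nlinarith
  have hinj : ∀ i j, (K • ν + μ) (χ i) = (K • ν + μ) (χ j) → χ i = χ j := fun i j h => by
    rcases lt_trichotomy (ν (χ i)) (ν (χ j)) with e | e | e
    · exact absurd h (hlt i j e).ne
    · exact hμ' i j (by simpa [e] using h)
    · exact absurd h (hlt j i e).ne'
  have fν : H.Fixed (fun i => ν (χ i)) y := F.fix.push ν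
  obtain ⟨u, b, w, e, hu, hb, hw⟩ := bruhat (fun i => (K • ν + μ) (χ i)) (fun i => ν (χ i))
    (fun _ => (0 : ℤ)) g fun _ _ h => absurd rfl h
  obtain ⟨a₀, ha₀, g', hg', -, i0⟩ := F.br (β := 1) (fixed_zero y) _ hinj
    (by rw [inv_one, H.act_one]; exact fν) (by rw [inv_one, mul_one, ← e]; exact hg)
    (InL.one _) hu hb hw
  rw [mul_one] at i0
  have hI := (idem_eps (A := Ω) fun i => μ (χ i)).conj' g'⁻¹
  rw [inv_inv] at hI
  obtain ⟨β, a, hβ, -, haS, hd⟩ := diag_idem hI (c := fun i => ν (χ i)) fun m _ =>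
    (i0.inv.mul (intw_diagonal _ _)).mul i0
  have i1 : Intw (fun i => μ (χ i)) a ((g' * β : GL (Fin n) Ω) : Mat n Ω) :=
    intw_of_eps fun j => by
      rw [← hd _ (haS j), Units.val_mul]
      simp only [Matrix.mul_assoc, Units.mul_inv_cancel_left]
  have fa : H.Fixed a (H.act β⁻¹ y) := by
    have := (F.fix.push μ).intw i1.inv
    rwa [_root_.mul_inv_rev, H.act_mul, show H.act g'⁻¹ y = y from inv_mem hg'] at this
  obtain ⟨a₁, g₂, hg₂, l₂, i2⟩ := F.conj fν fa hβ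
  have e2 : g₂ * g'⁻¹ = g₂ * β * (g' * β)⁻¹ := by group
  have i3 : Intw (fun i => a₁ (χ i)) (fun i => μ (χ i))
      ((g₂ * g'⁻¹ : GL (Fin n) Ω) : Mat n Ω) := e2 ▸ i2.mul i1.inv
  have i4 : Intw (fun i => ν (χ i)) (fun i => a₀ (χ i))
      ((g₂ * g'⁻¹ : GL (Fin n) Ω) : Mat n Ω) := Intw.mul (b := fun i => ν (χ i)) l₂ i0.inv
  have hσ : ∀ x : XX χ, ∃ x' : XX χ, a₁ x' = μ x := fun x => by
    obtain ⟨j, hj⟩ := exists_of_XX x.2
    obtain ⟨i, hi⟩ := exists_col_ne (g₂ * g'⁻¹) j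
    exact ⟨⟨χ i, chi_XX χ i⟩, hj ▸ by_contra fun h => hi (i3 i j h)⟩
  choose σ hσ using hσ
  have hσi : Function.Injective σ := fun x x' h =>
    Subtype.ext (hμ _ x.2 _ x'.2 (by rw [← hσ, ← hσ, h]))
  let σ' := Equiv.ofBijective σ (Finite.injective_iff_bijective.1 hσi)
  have i5 : Intw χ (fun j => (σ' ⟨χ j, chi_XX χ j⟩ : Fin r → ℤ))
      ((g₂ * g'⁻¹ : GL (Fin n) Ω) : Mat n Ω) := fun i j h => i3 i j fun e' => h <| by
    obtain ⟨x, hx⟩ := σ'.surjective ⟨χ i, chi_XX χ i⟩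
    have hx' : σ x = ⟨χ i, chi_XX χ i⟩ := hx
    have : x = ⟨χ j, chi_XX χ j⟩ := Subtype.ext (hμ _ x.2 _ (chi_XX χ j) (by
      rw [← hσ, hx']; exact e'))
    show χ i = σ' ⟨χ j, chi_XX χ j⟩
    rw [← this, hx]
  have e3 : ∀ j, a₀ (χ j) = ν (χ j) := fun j => by
    obtain ⟨i, hi⟩ := exists_col_ne (g₂ * g'⁻¹) j
    have h1 : ν (χ i) = a₀ (χ j) := by_contra fun h => hi (i4 i j h)
    have h2 : χ i = σ' ⟨χ j, chi_XX χ j⟩ := by_contra fun h => hi (i5 i j h)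
    rw [← h1, h2]
    exact hν _ (mul_mem hg₂ (inv_mem hg')) σ' i5 _
  have lw : InL (fun i => ν (χ i)) (pmat Ω w : Mat n Ω) := inL_pmat fun j => by
    have := ha₀ (w j)
    rw [e3, Equiv.symm_apply_apply] at this
    exact this.symm
  rw [e]
  exact InP.mul (InP.mul (fun i j h => hu.1 i j (hlt i j h)) fun i j h => lw i j h.ne) hb.1

/-- WEYL. -/
theorem Frame.central (F : H.Frame χ y) {ν : (Fin r → ℤ) →+ ℤ} (hν : H.WInv χ y ν)
    {g : GL (Fin n) Ω} (hg : g ∈ H.St y) : InL (fun i => ν (χ i)) (g : Mat n Ω) := fun i j h => by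
  rcases lt_or_gt_of_ne h with e | e
  · exact F.inP hν hg i j e
  · exact F.inP (ν := -ν) (fun g hg σ hσ x => by simp [hν g hg σ hσ x]) hg i j
      (by simpa using e)

end HS

end Pool.Agent.GR
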