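import Pool.Agent.P.MP_c1f06d_ag.r.CTDefs
import Pool.Agent.P.MP_c1f06d_ag.r.Inf

open Matrix Polynomial IsLocalRing Pool.Agent.P.MP_c1f06d_ag

universe u

namespace Pool.Agent.GR

variable {k : Type u} [Field k] {n : ℕ}

/-- An invertible matrix from a matrix that divides a unit. -/
theorem exists_gl_of_mul {T : Type u} [CommRing T] {S S' : Mat n T} {a b : T} (ha : IsUnit a)
    (hb : IsUnit b) (h : S * S' = (a * b) • (1 : Mat n T)) :
    ∃ g : GL (Fin n) T, a • (g : Mat n T) = S ∧ b • ((g⁻¹ : GL (Fin n) T) : Mat n T) = S' := by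
  obtain ⟨a, rfl⟩ := ha
  obtain ⟨b, rfl⟩ := hb
  have e : (((a⁻¹ : Tˣ) : T) • S) * (((b⁻¹ : Tˣ) : T) • S') = 1 := by
    rw [smul_mul_smul_comm, h, smul_smul, mul_mul_mul_comm, Units.inv_mul, Units.inv_mul, one_mul,
      one_smul]
  refine ⟨⟨_, _, e, mul_eq_one_comm.1 e⟩, ?_, ?_⟩
  · show (a : T) • (((a⁻¹ : Tˣ) : T) • S) = S
    rw [smul_smul, Units.mul_inv, one_smul]
  · show (b : T) • (((b⁻¹ : Tˣ) : T) • S') = S'
    rw [smul_smul, Units.mul_inv, one_smul]

/-- The elements of `L` that come from `A` after multiplication by a power of `f`. -/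
def offS {A L : Type u} [CommRing A] [Algebra k A] [CommRing L] [Algebra k L] (ι : A →ₐ[k] L)
    (f : A) : Subalgebra k L where
  carrier := {x | ∃ (j : ℕ) (a : A), x * ι f ^ j = ι a}
  mul_mem' := by
    rintro x y ⟨i, a, ha⟩ ⟨j, b, hb⟩
    exact ⟨i + j, a * b, by rw [map_mul, ← ha, ← hb]; ring⟩
  add_mem' := by
    rintro x y ⟨i, a, ha⟩ ⟨j, b, hb⟩
    exact ⟨i + j, a * f ^ j + b * f ^ i, by
      rw [map_add, map_mul, map_mul, map_pow, map_pow, ← ha, ← hb]; ring⟩
  algebraMap_mem' := fun c => ⟨0, algebraMap k A c, by rw [pow_zero, mul_one, AlgHom.commutes]⟩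

theorem mem_offS_of_smul {A L : Type u} [CommRing A] [Algebra k A] [CommRing L] [Algebra k L]
    (ι : A →ₐ[k] L) (f : A) (j : ℕ) {g : Mat n L} {S : Mat n A} (h : ι f ^ j • g = S.map ι)
    (p q : Fin n) : g p q ∈ offS ι f :=
  ⟨j, S p q, by
    have := congrFun (congrFun h p) q
    rw [Matrix.smul_apply, smul_eq_mul, mul_comm] at this
    exact this⟩

theorem exists_common_pow {A L : Type u} [CommRing A] [Algebra k A] [CommRing L] [Algebra k L]
    (ι : A →ₐ[k] L) (f : A) {σ : Type} [Fintype σ] (x : σ → L) (hx : ∀ s, x s ∈ offS ι f) :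
    ∃ (M : ℕ) (a : σ → A), ∀ s, ι f ^ M * x s = ι (a s) := by
  choose j a ha using hx
  refine ⟨∑ s, j s, fun s => a s * f ^ (∑ s, j s - j s), fun s => ?_⟩
  have hle : j s ≤ ∑ s, j s :=
    Finset.single_le_sum (f := j) (fun _ _ => Nat.zero_le _) (Finset.mem_univ s)
  obtain ⟨c, hc⟩ := Nat.exists_eq_add_of_le hle
  show _ = ι (a s * f ^ (∑ s, j s - j s))
  rw [hc, Nat.add_sub_cancel_left, map_mul, map_pow, ← ha s]
  ring

theorem offS_le_of_dvd {A L : Type u} [CommRing A] [Algebra k A] [CommRing L] [Algebra k L]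
    (ι : A →ₐ[k] L) {f f' : A} (h : f ∣ f') : offS ι f ≤ offS ι f' := by
  obtain ⟨c, rfl⟩ := h
  rintro x ⟨j, a, e⟩
  exact ⟨j, a * c ^ j, by rw [map_mul, map_mul, map_pow, ← e]; ring⟩

theorem nzd_pow {O : Type u} [CommRing O] [IsDomain O] {f h : O} (h0 : h ≠ 0)
    (hf : ∀ g, h ∣ f * g → h ∣ g) (i j : ℕ) (a : O) (ha : h ^ i ∣ f ^ j * a) : h ^ i ∣ a := by
  have key : ∀ (j : ℕ) (g : O), h ∣ f ^ j * g → h ∣ g := by
    intro j
    induction j with
    | zero => intro g hg; rwa [pow_zero, one_mul] at hg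
    | succ j ih => intro g hg; exact hf g (ih _ (by rwa [pow_succ, mul_assoc] at hg))
  induction i generalizing a with
  | zero => rw [pow_zero]; exact one_dvd _
  | succ i ih =>
    obtain ⟨b, rfl⟩ := key j a ((dvd_pow_self h (Nat.succ_ne_zero i)).trans ha)
    rw [pow_succ', mul_left_comm] at ha
    rw [pow_succ']
    exact mul_dvd_mul_left h (ih b ((mul_dvd_mul_iff_left h0).1 ha))

theorem mem_range_of_offS {O L : Type u} [CommRing O] [IsDomain O] [Algebra k O] [CommRing L]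
    [Algebra k L] (ι : O →ₐ[k] L) (hι : Function.Injective ι) {f h : O} (h0 : h ≠ 0)
    (hu : IsUnit (ι h)) (hf : ∀ g, h ∣ f * g → h ∣ g) {x : L} (h1 : x ∈ offS ι h)
    (h2 : x ∈ offS ι f) : ∃ a, ι a = x := by
  obtain ⟨i, a, ea⟩ := h1
  obtain ⟨j, b, eb⟩ := h2
  have e : f ^ j * a = h ^ i * b := hι (by
    rw [map_mul, map_mul, map_pow, map_pow, ← ea, ← eb]; ring)
  obtain ⟨c, rfl⟩ := nzd_pow h0 hf i j a ⟨b, e⟩
  refine ⟨c, (hu.pow i).mul_right_cancel ?_⟩
  rw [ea, map_mul, map_pow, mul_comm]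

theorem exists_comp_of_range {B A A' : Type u} [CommRing B] [Algebra k B] [CommRing A]
    [Algebra k A] [CommRing A'] [Algebra k A'] (f : A →ₐ[k] A') (hf : Function.Injective f)
    (y : B →ₐ[k] A') (h : ∀ b, ∃ a, f a = y b) : ∃ y0 : B →ₐ[k] A, f.comp y0 = y := by
  refine ⟨(AlgEquiv.ofInjective f hf).symm.toAlgHom.comp (y.codRestrict f.range h), ?_⟩
  ext b
  exact congrArg Subtype.val
    ((AlgEquiv.ofInjective f hf).apply_symm_apply (y.codRestrict f.range h b))

namespace HS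

variable (H : HS k n) {A L : Type u} [CommRing A] [Algebra k A] [CommRing L] [Algebra k L]

theorem triv_map {y : H.B →ₐ[k] A} (h : H.Triv y) (f : A →ₐ[k] L) : H.Triv (f.comp y) := by
  obtain ⟨g, hg⟩ := h
  exact ⟨gm f g, by rw [← H.act_nat, hg, H.pt_map]⟩

theorem triv_act {y : H.B →ₐ[k] A} (g : GL (Fin n) A) (h : H.Triv (H.act g y)) : H.Triv y := by
  obtain ⟨g', hg⟩ := h
  exact ⟨g' * g, by rw [H.act_mul, hg]⟩

/-- Triviality off `f`, read in an overring in which `f` is invertible. -/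
theorem trivOff_iff (ι : A →ₐ[k] L) (hι : Function.Injective ι) {f : A}
    (hf : IsUnit (ι f)) (y : H.B →ₐ[k] A) :
    H.TrivOff y f ↔ ∃ g : GL (Fin n) L, (∀ i j, (g : Mat n L) i j ∈ offS ι f) ∧
      (∀ i j, ((g⁻¹ : GL (Fin n) L) : Mat n L) i j ∈ offS ι f) ∧ H.act g (ι.comp y) = H.pt L := by
  let φ : Localization.Away f →ₐ[k] L := IsLocalization.Away.liftAlgHom f hf
  have hφ : ∀ a, φ (algebraMap A _ a) = ι a := fun a => IsLocalization.lift_eq _ a
  have hc : φ.comp ((IsScalarTower.toAlgHom k A (Localization.Away f)).comp y) = ι.comp y :=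
    AlgHom.ext fun b => hφ (y b)
  have hr : ∀ x, x ∈ φ.range ↔ x ∈ offS ι f := by
    intro x
    constructor
    · rintro ⟨z, rfl⟩
      obtain ⟨j, a, e⟩ := IsLocalization.Away.surj f z
      refine ⟨j, a, ?_⟩
      have := congrArg φ e
      rwa [map_mul, map_pow, hφ, hφ] at this
    · rintro ⟨j, a, e⟩
      obtain ⟨w, hw⟩ := (IsLocalization.Away.algebraMap_isUnit (S := Localization.Away f) f).pow j
      refine ⟨algebraMap A _ a * ((w⁻¹ : (Localization.Away f)ˣ) : _), ?_⟩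
      refine (hf.pow j).mul_right_cancel ?_
      show φ _ * _ = _
      rw [e, ← hφ f, ← map_pow, ← hw, ← map_mul, mul_assoc, Units.inv_mul, mul_one, hφ]
  have hinj : Function.Injective φ := by
    rw [injective_iff_map_eq_zero]
    intro z hz
    obtain ⟨j, a, e⟩ := IsLocalization.Away.surj f z
    have h1 := congrArg φ e
    rw [map_mul, hz, zero_mul, hφ] at h1
    have h2 : a = 0 := hι (by rw [← h1, map_zero])
    rw [h2, map_zero] at e
    exact ((IsLocalization.Away.algebraMap_isUnit f).pow j).mul_left_eq_zero.1 e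
  constructor
  · rintro ⟨g, hg⟩
    refine ⟨gm φ g, fun i j => (hr _).1 ⟨_, rfl⟩, fun i j => (hr _).1 ⟨_, rfl⟩, ?_⟩
    rw [← hc, ← H.act_nat, hg, H.pt_map]
  · rintro ⟨g, h1, h2, hg⟩
    obtain ⟨g0, rfl⟩ := exists_gm_of_range φ hinj g (fun i j => (hr _).2 (h1 i j))
      fun i j => (hr _).2 (h2 i j)
    refine ⟨g0, H.act_inj φ hinj ?_⟩
    rw [hc, hg, H.pt_map]

/-- The matrix form of triviality off `f`. -/
theorem trivOff_mat (ι : A →ₐ[k] L) (hι : Function.Injective ι) {f : A}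
    (hf : IsUnit (ι f)) {y : H.B →ₐ[k] A} (h : H.TrivOff y f) :
    ∃ (M : ℕ) (S S' : Mat n A) (g : GL (Fin n) L), S * S' = f ^ (M + M) • (1 : Mat n A) ∧
      ι f ^ M • (g : Mat n L) = S.map ι ∧
      ι f ^ M • ((g⁻¹ : GL (Fin n) L) : Mat n L) = S'.map ι ∧ H.act g (ι.comp y) = H.pt L := by
  obtain ⟨g, h1, h2, hg⟩ := (H.trivOff_iff ι hι hf y).1 h
  obtain ⟨M, a, ha⟩ := exists_common_pow ι f (σ := (Fin n × Fin n) ⊕ (Fin n × Fin n))
    (Sum.elim (fun p => (g : Mat n L) p.1 p.2) fun p => ((g⁻¹ : GL (Fin n) L) : Mat n L) p.1 p.2)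
    (by rintro (p | p); exacts [h1 _ _, h2 _ _])
  have e1 : ι f ^ M • (g : Mat n L) = (of fun i j => a (Sum.inl (i, j)) : Mat n A).map ι :=
    Matrix.ext fun i j => ha (Sum.inl (i, j))
  have e2 : ι f ^ M • ((g⁻¹ : GL (Fin n) L) : Mat n L) =
      (of fun i j => a (Sum.inr (i, j)) : Mat n A).map ι :=
    Matrix.ext fun i j => ha (Sum.inr (i, j))
  refine ⟨M, _, _, g, Matrix.map_injective hι ?_, e1, e2, hg⟩
  show Matrix.map _ _ = Matrix.map _ _
  rw [Matrix.map_mul, ← e1, ← e2, smul_mul_smul_comm, Units.mul_inv, ← pow_add]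
  ext i j
  rw [map_apply, Matrix.smul_apply, Matrix.smul_apply, smul_eq_mul, smul_eq_mul, map_mul, map_pow,
    one_apply, one_apply]
  split_ifs <;> simp

theorem trivOff_of_dvd {f f' : A} (hd : f ∣ f') {y : H.B →ₐ[k] A}
    (h : H.TrivOff y f) : H.TrivOff y f' := by
  have hu : IsUnit (IsScalarTower.toAlgHom k A (Localization.Away f') f') :=
    IsLocalization.Away.algebraMap_isUnit f'
  have hu' : IsUnit (IsScalarTower.toAlgHom k A (Localization.Away f') f) :=
    isUnit_of_dvd_unit (_root_.map_dvd _ hd) hu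
  exact H.triv_map h (IsLocalization.Away.liftAlgHom f hu') |>.imp fun g hg => by
    rw [← hg]
    congr 1
    have hφ : ∀ a, (IsLocalization.Away.liftAlgHom (S := Localization.Away f) f hu')
        (algebraMap A _ a) = IsScalarTower.toAlgHom k A (Localization.Away f') a :=
      fun a => IsLocalization.lift_eq _ a
    exact AlgHom.ext fun b => (hφ (y b)).symm

theorem triv_of_trivOff_unit {f : A} (hf : IsUnit f) {y : H.B →ₐ[k] A} (h : H.TrivOff y f) :
    H.Triv y := by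
  have hu : IsUnit (AlgHom.id k A f) := hf
  exact H.triv_map h (IsLocalization.Away.liftAlgHom f hu) |>.imp fun g hg => by
    rw [← hg]
    congr 1
    exact AlgHom.ext fun b => (IsLocalization.lift_eq (g := (AlgHom.id k A : A →+* A)) _ (y b)).symm

/-- Triviality over a localisation spreads. -/
theorem trivOff_of_loc (M : Submonoid A) (hM : M ≤ nonZeroDivisors A) [Algebra A L]
    [IsScalarTower k A L] [IsLocalization M L] {y : H.B →ₐ[k] A}
    (h : H.Triv ((IsScalarTower.toAlgHom k A L).comp y)) : ∃ f ∈ M, H.TrivOff y f := by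
  obtain ⟨g, hg⟩ := h
  obtain ⟨f, hf⟩ := IsLocalization.exist_integer_multiples_of_finite M
    (Sum.elim (fun p : Fin n × Fin n => (g : Mat n L) p.1 p.2)
      fun p : Fin n × Fin n => ((g⁻¹ : GL (Fin n) L) : Mat n L) p.1 p.2)
  have key : ∀ x : L, IsLocalization.IsInteger A ((f : A) • x) →
      x ∈ offS (IsScalarTower.toAlgHom k A L) (f : A) := by
    rintro x ⟨a, ha⟩
    refine ⟨1, a, ?_⟩
    rw [pow_one, mul_comm]
    exact (Algebra.smul_def (f : A) x).symm.trans ha.symm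
  refine ⟨f, f.2, (H.trivOff_iff (IsScalarTower.toAlgHom k A L) (IsLocalization.injective L hM)
    (IsLocalization.map_units L f) y).2
    ⟨g, fun i j => key _ (hf (Sum.inl (i, j))), fun i j => key _ (hf (Sum.inr (i, j))), hg⟩⟩

end HS

end Pool.Agent.GR
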