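import Pool.Agent.P.MP_c1f06d_ag.r.K2Defs

open Matrix Polynomial

universe u

namespace Pool.Agent.GR.KC

section chG

variable {A : Type*} [CommRing A] {N : Type*} [Fintype N] [DecidableEq N]

/-- The characteristic polynomial of `Z` on the image of the idempotent `e`. -/
noncomputable def chG (Z e : Matrix N N A) : A[X] :=
  (charmatrix Z * e.map C + 1 - e.map C).det

theorem chG_one (Z : Matrix N N A) : chG Z 1 = Z.charpoly := by
  simp [chG, Matrix.charpoly]

theorem chG_zero (Z : Matrix N N A) : chG Z 0 = 1 := by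
  simp [chG]

theorem charmatrix_comm {Z e : Matrix N N A} (h : Z * e = e * Z) :
    charmatrix Z * e.map C = e.map C * charmatrix Z := by
  have h1 : Z.map (C : A →+* A[X]) * e.map C = e.map C * Z.map C := by
    rw [← Matrix.map_mul, ← Matrix.map_mul, h]
  have h2 : (Matrix.scalar N (X : A[X])) * e.map C = e.map C * Matrix.scalar N X :=
    (Matrix.scalar_commute (X : A[X]) (fun _ => Commute.all _ _) _).eq
  rw [charmatrix, RingHom.mapMatrix_apply, sub_mul, mul_sub, h1, h2]

theorem chG_add {Z e e' : Matrix N N A} (h0 : e * e' = 0) (h : Z * e' = e' * Z) :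
    chG Z (e + e') = chG Z e * chG Z e' := by
  have h1 := charmatrix_comm h
  have h2 : e.map (C : A →+* A[X]) * e'.map C = 0 := by
    rw [← Matrix.map_mul, h0, Matrix.map_zero _ (map_zero _)]
  rw [chG, chG, chG, ← det_mul, Matrix.map_add _ (map_add _)]
  congr 1
  generalize charmatrix Z = M at h1
  generalize e.map (C : A →+* A[X]) = a at h2
  generalize e'.map (C : A →+* A[X]) = b at h1 h2
  have h3 : a * (M * b) = 0 := by rw [h1, ← mul_assoc, h2, zero_mul]
  have h4 : M * a * (M * b) = 0 := by rw [mul_assoc, h3, mul_zero]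
  have h5 : M * a * b = 0 := by rw [mul_assoc, h2, mul_zero]
  simp only [mul_add, add_mul, mul_sub, sub_mul, mul_one, one_mul, h2, h3, h4, h5]
  abel

theorem chG_sum {ι : Type*} (S : Finset ι) (Z : Matrix N N A) (E : ι → Matrix N N A)
    (h0 : ∀ a ∈ S, ∀ b ∈ S, a ≠ b → E a * E b = 0) (h : ∀ a ∈ S, Z * E a = E a * Z) :
    chG Z (∑ a ∈ S, E a) = ∏ a ∈ S, chG Z (E a) := by
  classical
  induction S using Finset.induction with
  | empty => simp [chG_zero]
  | insert a S ha ih =>
    rw [Finset.sum_insert ha, Finset.prod_insert ha, chG_add, ih]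
    · exact fun x hx y hy => h0 x (Finset.mem_insert_of_mem hx) y (Finset.mem_insert_of_mem hy)
    · exact fun x hx => h x (Finset.mem_insert_of_mem hx)
    · rw [Finset.mul_sum]
      exact Finset.sum_eq_zero fun x hx => h0 a (Finset.mem_insert_self _ _) x
        (Finset.mem_insert_of_mem hx) fun e => ha (e ▸ hx)
    · rw [Finset.mul_sum, Finset.sum_mul]
      exact Finset.sum_congr rfl fun x hx => h x (Finset.mem_insert_of_mem hx)

theorem chG_conj {g g' : Matrix N N A} (hg : g' * g = 1) (Z e : Matrix N N A) :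
    chG (g * Z * g') (g * e * g') = chG Z e := by
  have hg' : g * g' = 1 := mul_eq_one_comm.1 hg
  have h1 : g'.map (C : A →+* A[X]) * g.map C = 1 := by
    rw [← Matrix.map_mul, hg, Matrix.map_one _ (map_zero _) (map_one _)]
  have h2 : g.map (C : A →+* A[X]) * g'.map C = 1 := mul_eq_one_comm.1 h1
  have h3 : (Matrix.scalar N (X : A[X])) * g.map C = g.map C * Matrix.scalar N X :=
    (Matrix.scalar_commute (X : A[X]) (fun _ => Commute.all _ _) _).eq
  have h4 : charmatrix (g * Z * g') * (g * e * g').map C + 1 - (g * e * g').map C =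
      g.map C * (charmatrix Z * e.map C + 1 - e.map C) * g'.map C := by
    rw [charmatrix, charmatrix, RingHom.mapMatrix_apply, RingHom.mapMatrix_apply]
    simp only [Matrix.map_mul]
    generalize g.map (C : A →+* A[X]) = a at h1 h2 h3
    generalize g'.map (C : A →+* A[X]) = b at h1 h2
    generalize Matrix.scalar N (X : A[X]) = x at h3
    generalize Z.map (C : A →+* A[X]) = z
    generalize e.map (C : A →+* A[X]) = f
    have h5 : a * z * b * (a * f * b) = a * (z * f) * b := by
      calc a * z * b * (a * f * b) = a * z * (b * a) * f * b := by simp only [mul_assoc]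
        _ = _ := by rw [h1]; simp only [mul_one, mul_assoc]
    have h6 : x * (a * f * b) = a * (x * f) * b := by
      calc x * (a * f * b) = (x * a) * f * b := by simp only [mul_assoc]
        _ = _ := by rw [h3]; simp only [mul_assoc]
    simp only [mul_add, add_mul, mul_sub, sub_mul, mul_one, h2, h5, h6]
  rw [chG, chG, h4, det_mul, det_mul, mul_right_comm, ← det_mul, h2, det_one, one_mul]

theorem chG_aeval {Z e : Matrix N N A} (he : e * e = e) (h : Z * e = e * Z) :
    aeval Z (chG Z e) * e = 0 := by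
  have h1 := charmatrix_comm h
  have h2 : e.map (C : A →+* A[X]) * e.map C = e.map C := by rw [← Matrix.map_mul, he]
  have h3 : (chG Z e • (1 : Matrix N N A[X])) * e.map C =
      (adjugate (charmatrix Z * e.map C + 1 - e.map C) * e.map C) * charmatrix Z := by
    rw [chG, ← adjugate_mul, mul_assoc, mul_assoc, ← h1]
    congr 1
    rw [sub_mul, add_mul, mul_assoc, h2, one_mul, add_sub_cancel_right]
  apply_fun matPolyEquiv at h3
  simp only [map_mul, matPolyEquiv_charmatrix] at h3
  apply_fun fun p => p.eval Z at h3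
  rw [eval_mul_X_sub_C, matPolyEquiv_smul_one, matPolyEquiv_map_C] at h3
  rw [← h3, aeval_def, eval₂_eq_eval_map]
  generalize (chG Z e).map (algebraMap A (Matrix N N A)) = p
  induction p using Polynomial.induction_on' with
  | add p q hp hq => rw [add_mul, eval_add, eval_add, add_mul, hp, hq]
  | monomial i a =>
    rw [monomial_mul_C, eval_monomial, eval_monomial, mul_assoc, mul_assoc,
      (Commute.pow_left h i).eq]

theorem chG_map {A' : Type*} [CommRing A'] (f : A →+* A') (Z e : Matrix N N A) :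
    (chG Z e).map f = chG (Z.map f) (e.map f) := by
  rw [chG, chG, ← coe_mapRingHom, RingHom.map_det]
  congr 1
  have h1 : ∀ M : Matrix N N A, (mapRingHom f).mapMatrix (M.map C) = (M.map f).map C := by
    intro M; ext i j : 2; simp
  rw [map_sub, map_add, map_mul, map_one, h1, charmatrix_map]
  rfl

/-- On a diagonal idempotent `chG` is the characteristic polynomial of the block. -/
theorem chG_diagonal (Z : Matrix N N A) (p : N → Prop) [DecidablePred p]
    (h : ∀ i, ¬ p i → ∀ j, p j → Z i j = 0) :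
    chG Z (diagonal fun i => if p i then 1 else 0) = (Z.toSquareBlockProp p).charpoly := by
  have e : ∀ i j, (charmatrix Z * (diagonal fun i => if p i then (1 : A) else 0).map C + 1 -
      (diagonal fun i => if p i then (1 : A) else 0).map C) i j =
      if p j then charmatrix Z i j else (1 : Matrix N N A[X]) i j := by
    intro i j
    rw [diagonal_map (map_zero _), Matrix.sub_apply, Matrix.add_apply, mul_diagonal]
    by_cases hj : p j <;> by_cases hij : i = j
    · subst hij; simp [hj]
    · simp [hj, hij]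
    · subst hij; simp [hj]
    · simp [hj, hij]
  rw [chG, twoBlockTriangular_det _ p]
  · have e2 : toSquareBlockProp (charmatrix Z * (diagonal fun i => if p i then (1 : A) else 0).map C
        + 1 - (diagonal fun i => if p i then (1 : A) else 0).map C) (fun i => ¬ p i) = 1 := by
      ext i j : 2
      rw [toSquareBlockProp_def, of_apply, e, if_neg j.2, one_apply, one_apply]
      simp only [Subtype.ext_iff]
    rw [e2, det_one, mul_one, Matrix.charpoly]
    congr 1
    ext i j : 2
    rw [toSquareBlockProp_def, of_apply, e, if_pos j.2]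
    by_cases hij : i = j
    · subst hij; simp [toSquareBlockProp_def]
    · rw [charmatrix_apply_ne _ _ _ hij, charmatrix_apply_ne _ _ _ fun e => hij (Subtype.ext e)]
      rfl
  · intro i hi j hj
    rw [e, if_pos hj, charmatrix_apply_ne _ _ _ fun e : i = j => hi (e ▸ hj), h i hi j hj, map_zero,
      neg_zero]

end chG

section lifts

variable {K Om : Type*} [Field K] [Field Om] (φ : K →+* Om)

theorem lifts_of_mul {p q : Om[X]} (hp : p.Monic) (h1 : p ∈ lifts φ) (h2 : p * q ∈ lifts φ) :
    q ∈ lifts φ := by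
  obtain ⟨p0, rfl, -, hp0⟩ := lifts_and_natDegree_eq_and_monic h1 hp
  obtain ⟨r0, hr⟩ := (mem_lifts _).1 h2
  refine (mem_lifts _).2 ⟨r0 /ₘ p0, ?_⟩
  rw [map_divByMonic φ hp0, hr, mul_divByMonic_cancel_left _ hp]

theorem lifts_of_gcd {a b D : Om[X]} (hD : D.Monic) (ha : a ∈ lifts φ) (hb : b ∈ lifts φ)
    (h1 : D ∣ a) (h2 : D ∣ b) (h3 : ∀ c, c ∣ a → c ∣ b → c ∣ D) : D ∈ lifts φ := by
  classical
  obtain ⟨a0, rfl⟩ := (mem_lifts _).1 ha
  obtain ⟨b0, rfl⟩ := (mem_lifts _).1 hb
  have e := gcd_map (p := a0) (q := b0) φ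
  have h4 : (EuclideanDomain.gcd a0 b0).map φ ∣ D :=
    e ▸ h3 _ (EuclideanDomain.gcd_dvd_left _ _) (EuclideanDomain.gcd_dvd_right _ _)
  have h5 : D ∣ (EuclideanDomain.gcd a0 b0).map φ := e ▸ EuclideanDomain.dvd_gcd h1 h2
  generalize EuclideanDomain.gcd a0 b0 = g at h4 h5
  have hg : g ≠ 0 := by
    rintro rfl
    rw [Polynomial.map_zero, zero_dvd_iff] at h4
    exact hD.ne_zero h4
  have hm := monic_mul_leadingCoeff_inv hg
  refine (mem_lifts _).2 ⟨g * C g.leadingCoeff⁻¹, ?_⟩
  refine eq_of_monic_of_associated (hm.map φ) hD (associated_of_dvd_dvd ?_ ?_)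
  · rw [Polynomial.map_mul, map_C]
    refine (IsUnit.mul_right_dvd ?_).2 h4
    exact isUnit_C.2 (IsUnit.mk0 _ (by simpa using hg))
  · rw [Polynomial.map_mul]
    exact h5.mul_right _

/-- Pairwise coprime monic factors are rational when their product and a product of their powers
with distinct exponents are. -/
theorem lifts_of_prod {ι : Type*} (P : ι → Om[X]) (S : Finset ι) (hm : ∀ m ∈ S, (P m).Monic)
    (hc : ∀ m ∈ S, ∀ m' ∈ S, m ≠ m' → IsCoprime (P m) (P m')) (e : ι → ℕ)
    (he : Set.InjOn e S) (hA : ∏ m ∈ S, P m ∈ lifts φ) (hB : ∏ m ∈ S, P m ^ e m ∈ lifts φ) :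
    ∀ m ∈ S, P m ∈ lifts φ := by
  classical
  induction' hn : S.card using Nat.strong_induction_on with c ih generalizing S e
  intro m hmS
  obtain ⟨m0, h0, hmin⟩ := Finset.exists_min_image S e ⟨m, hmS⟩
  have hS : ∀ x ∈ S.erase m0, x ∈ S := fun x hx => Finset.mem_of_mem_erase hx
  have hlt : ∀ x ∈ S.erase m0, e m0 < e x := fun x hx =>
    lt_of_le_of_ne (hmin x (hS x hx)) fun h => (Finset.ne_of_mem_erase hx) (he (hS x hx) h0 h.symm)
  have hB' : ∏ x ∈ S.erase m0, P x ^ (e x - e m0) ∈ lifts φ := by
    refine lifts_of_mul φ ((monic_prod_of_monic _ _ hm).pow (e m0)) (pow_mem hA _) ?_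
    have : (∏ x ∈ S, P x) ^ e m0 * ∏ x ∈ S.erase m0, P x ^ (e x - e m0) = ∏ x ∈ S, P x ^ e x := by
      rw [Finset.prod_erase S (by simp), ← Finset.prod_pow, ← Finset.prod_mul_distrib]
      exact Finset.prod_congr rfl fun x hx => by rw [← pow_add, Nat.add_sub_cancel' (hmin x hx)]
    rwa [this]
  have hD := monic_prod_of_monic (S.erase m0) P fun x hx => hm x (hS x hx)
  have hA' : ∏ x ∈ S.erase m0, P x ∈ lifts φ := by
    refine lifts_of_gcd φ hD hA hB' (Finset.prod_dvd_prod_of_subset _ _ _ (Finset.erase_subset _ _))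
      (Finset.prod_dvd_prod_of_dvd _ _ fun x hx => dvd_pow_self _ (by have := hlt x hx; omega)) ?_
    intro d h1 h2
    rw [← Finset.mul_prod_erase S P h0] at h1
    refine IsCoprime.dvd_of_dvd_mul_left (IsCoprime.of_isCoprime_of_dvd_left ?_ h2) h1
    exact IsCoprime.prod_left fun x hx =>
      (hc x (hS x hx) m0 h0 (Finset.ne_of_mem_erase hx)).pow_left
  by_cases hmm : m = m0
  · subst hmm
    refine lifts_of_mul φ hD hA' ?_
    rwa [Finset.prod_erase_mul S P h0]
  · refine ih (S.erase m0).card (hn ▸ Finset.card_erase_lt_of_mem h0) (S.erase m0)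
      (fun x hx => hm x (hS x hx)) (fun x hx y hy => hc x (hS x hx) y (hS y hy))
      (fun x => e x - e m0) (fun x hx y hy hxy => he (hS x hx) (hS y hy) ?_) hA' hB' rfl m
      (Finset.mem_erase.2 ⟨hmm, hmS⟩)
    have h1 := hlt x hx
    have h2 := hlt y hy
    simp only at hxy
    omega

/-- Idempotents cut out by rational coprime factors of the characteristic polynomial are
rational. -/
theorem idem_lifts {N : Type*} [Fintype N] [DecidableEq N] {ι : Type*} (S : Finset ι)
    (Z : Matrix N N K) (E : ι → Matrix N N Om) (h1 : ∀ m ∈ S, E m * E m = E m)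
    (h3 : ∑ m ∈ S, E m = 1) (hZ : ∀ m ∈ S, Z.map φ * E m = E m * Z.map φ)
    (hc : ∀ m ∈ S, ∀ m' ∈ S, m ≠ m' → IsCoprime (chG (Z.map φ) (E m)) (chG (Z.map φ) (E m')))
    (hl : ∀ m ∈ S, chG (Z.map φ) (E m) ∈ lifts φ) :
    ∀ m ∈ S, ∃ E0 : Matrix N N K, E0.map φ = E m := by
  classical
  intro m hm
  obtain ⟨p, hp⟩ := (mem_lifts _).1 (hl m hm)
  obtain ⟨d, hd⟩ := (mem_lifts _).1
    (prod_mem (t := S.erase m) fun x hx => hl x (Finset.mem_of_mem_erase hx))
  have hpd : IsCoprime p d := by
    rw [← isCoprime_map φ, hp, hd]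
    exact IsCoprime.prod_right fun x hx =>
      hc m hm x (Finset.mem_of_mem_erase hx) (Finset.ne_of_mem_erase hx).symm
  obtain ⟨a, b, hab⟩ := hpd
  have hmap : ∀ q : K[X], (aeval Z q).map φ = aeval (Z.map φ) (q.map φ) := by
    intro q
    induction q using Polynomial.induction_on' with
    | add p q hp hq => rw [map_add, Matrix.map_add _ (map_add φ), hp, hq, Polynomial.map_add, map_add]
    | monomial i c =>
      rw [Polynomial.map_monomial, aeval_monomial, aeval_monomial, ← RingHom.mapMatrix_apply,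
        ← RingHom.mapMatrix_apply, map_mul, map_pow]
      congr 1
      ext i j
      by_cases hij : i = j <;> simp [Matrix.algebraMap_matrix_apply, hij]
  refine ⟨aeval Z (b * d), ?_⟩
  rw [hmap, ← mul_one (aeval (Z.map φ) _), ← h3, Finset.mul_sum,
    Finset.sum_eq_single_of_mem m hm]
  · have : b * d = 1 - a * p := by rw [← hab]; ring
    rw [this, Polynomial.map_sub, Polynomial.map_mul, Polynomial.map_one, map_sub, map_mul, map_one,
      hp, sub_mul, mul_assoc, chG_aeval (h1 m hm) (hZ m hm), mul_zero, sub_zero, one_mul]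
  · intro x hx hxm
    rw [Polynomial.map_mul, hd, ← Finset.prod_erase_mul _ _ (Finset.mem_erase.2 ⟨hxm, hx⟩),
      ← mul_assoc, map_mul, mul_assoc, chG_aeval (h1 x hx) (hZ x hx), mul_zero]

end lifts

end Pool.Agent.GR.KC
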