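import Pool.Agent.P.MP_c1f06d_ag.r.CenA
import Pool.Agent.P.MP_c1f06d_ag.r.Inf
import Pool.Agent.P.MP_c1f06d_ag.r.Lang
import Pool.Agent.P.MP_c1f06d_ag.r.Hom

open Matrix Polynomial TensorProduct

universe u

namespace Pool.Agent.GR.KC

theorem eq_zero_of_pts {Om R : Type*} [Field Om] [IsAlgClosed Om] [CommRing R] [IsDomain R]
    [Algebra Om R] [Algebra.FiniteType Om R] (f : R) (hf : ∀ φ : R →ₐ[Om] Om, φ f = 0) :
    f = 0 := by
  have : IsJacobsonRing R := isJacobsonRing_of_finiteType (A := Om)
  have h1 : (⊥ : Ideal R).jacobson = ⊥ := IsJacobsonRing.out ‹_› Ideal.isPrime_bot.isRadical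
  rw [← Ideal.mem_bot, ← h1, Ideal.jacobson, Ideal.mem_sInf]
  rintro m ⟨-, hm⟩
  let := Ideal.Quotient.field m
  have : Module.Finite Om (R ⧸ m) := finite_of_finite_type_of_isJacobsonRing Om (R ⧸ m)
  have hb : Function.Bijective (algebraMap Om (R ⧸ m)) :=
    IsAlgClosed.algebraMap_bijective_of_isIntegral
  let e := AlgEquiv.ofBijective (Algebra.ofId Om (R ⧸ m)) hb
  have h2 := hf (e.symm.toAlgHom.comp (Ideal.Quotient.mkₐ Om m))
  rw [← Ideal.Quotient.eq_zero_iff_mem]
  exact e.symm.injective (h2.trans (map_zero _).symm)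

variable {k : Type u} [Field k] {n : ℕ} (H : HS k n)

theorem og_ft (W : Type u) [Field W] [Algebra k W] : Algebra.FiniteType W (H.OG W) := by
  have : Algebra.FinitePresentation (MvPolynomial (Fin n × Fin n) W) (OGL W n) :=
    IsLocalization.Away.finitePresentation (mvPolynomialX (Fin n) (Fin n) W).det
  have : Algebra.FiniteType W (OGL W n) :=
    Algebra.FiniteType.trans (S := MvPolynomial (Fin n × Fin n) W) inferInstance inferInstance
  infer_instance

theorem cen_all {Om : Type u} [Field Om] [Algebra k Om] [IsAlgClosed Om]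
    (hp : (H.van Om).IsPrime) (E : Mat n Om)
    (hE : ∀ g ∈ H.G Om, Commute (g : Mat n Om) E) (A : Type u) [CommRing A] [Algebra k A]
    [Algebra Om A] [IsScalarTower k Om A] {g : GL (Fin n) A} (hg : g ∈ H.G A) :
    Commute (g : Mat n A) (E.map (algebraMap Om A)) := by
  have := og_ft H Om
  have : IsDomain (H.OG Om) := Ideal.Quotient.isDomain _
  have key : ∀ {B : Type u} [CommRing B] [Algebra Om B] (φ : H.OG Om →ₐ[Om] B),
      ((LG.uG H Om : Mat n _) * E.map (algebraMap Om (H.OG Om)) -
        E.map (algebraMap Om (H.OG Om)) * (LG.uG H Om : Mat n _)).map φ =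
      (gm φ (LG.uG H Om) : Mat n B) * E.map (algebraMap Om B) -
        E.map (algebraMap Om B) * (gm φ (LG.uG H Om) : Mat n B) := by
    intro B _ _ φ
    have e1 : (E.map (algebraMap Om (H.OG Om))).map φ = E.map (algebraMap Om B) :=
      Matrix.ext fun i j => φ.commutes _
    rw [Matrix.map_sub _ (map_sub φ), Matrix.map_mul, Matrix.map_mul, e1, gm_val]
  have h0 : (LG.uG H Om : Mat n _) * E.map (algebraMap Om (H.OG Om)) -
      E.map (algebraMap Om (H.OG Om)) * (LG.uG H Om : Mat n _) = 0 := by
    ext i j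
    refine eq_zero_of_pts (Om := Om) _ fun φ => ?_
    have h1 := congrFun (congrFun (key φ) i) j
    have h2 : E.map (algebraMap Om Om) = E := rfl
    rw [h2, (hE _ (LG.gm_uG_mem H Om φ)).eq, sub_self] at h1
    exact h1
  have h1 := key (LG.evG H Om hg)
  rw [h0, LG.gm_evG_uG, Matrix.map_zero _ (map_zero _)] at h1
  exact sub_eq_zero.1 h1.symm

theorem cent_comp {Om : Type u} [Field Om] [Algebra k Om] [IsAlgClosed Om]
    (hp : (H.van Om).IsPrime) (E : Mat n Om)
    (hE : ∀ g ∈ H.G Om, Commute (g : Mat n Om) E) (φ : Om →ₗ[k] k) : H.Cent (E.map φ) := by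
  intro A _ _ g hg
  have h1 := (cen_all H hp E hE (Om ⊗[k] A)
    (H.G_map Algebra.TensorProduct.includeRight hg)).eq
  let Φ : Om ⊗[k] A →ₗ[k] A := (TensorProduct.lid k A).toLinearMap ∘ₗ φ.rTensor A
  have hΦ : ∀ a b, Φ (a ⊗ₜ b) = φ a • b := fun a b => by simp [Φ]
  show _ * _ = _ * _
  ext i j
  have h2 := congrArg Φ (congrFun (congrFun h1 i) j)
  simp only [mul_apply, map_sum, gm_apply, map_apply, Algebra.TensorProduct.includeRight_apply,
    Algebra.TensorProduct.algebraMap_apply, Algebra.algebraMap_self, RingHom.id_apply,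
    Algebra.TensorProduct.tmul_mul_tmul, one_mul, mul_one, hΦ] at h2
  simp only [mul_apply, map_apply]
  refine Eq.trans (Finset.sum_congr rfl fun l _ => ?_)
    (h2.trans (Finset.sum_congr rfl fun l _ => ?_))
  · rw [Algebra.smul_def, mul_comm]
  · rw [Algebra.smul_def]

section monic

variable {A : Type*} [CommRing A] {N : Type*} [Fintype N] [DecidableEq N]

theorem chG_frame {g g' : Matrix N N A} (hg : g' * g = 1) (Z : Matrix N N A) (p : N → Prop)
    [DecidablePred p]
    (h : Z * (g * diagonal (fun i => if p i then 1 else 0) * g') =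
      g * diagonal (fun i => if p i then 1 else 0) * g' * Z) :
    chG Z (g * diagonal (fun i => if p i then 1 else 0) * g') =
      ((g' * Z * g).toSquareBlockProp p).charpoly := by
  have hg' : g * g' = 1 := mul_eq_one_comm.1 hg
  have e1 : Z = g * (g' * Z * g) * g' := by
    simp only [← mul_assoc]
    rw [hg', one_mul, mul_assoc, hg', mul_one]
  have e2 : (g' * Z * g) * diagonal (fun i => if p i then (1 : A) else 0) =
      diagonal (fun i => if p i then 1 else 0) * (g' * Z * g) := by
    have := congrArg (fun M => g' * M * g) h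
    simp only [← mul_assoc] at this ⊢
    rw [hg, one_mul, mul_assoc _ g' g, hg, mul_one] at this
    exact this
  conv_lhs => rw [e1]
  rw [← e1]
  conv_lhs => arg 1; rw [e1]
  rw [chG_conj hg, chG_diagonal]
  intro i hi j hj
  have := congrFun (congrFun e2 i) j
  rw [mul_diagonal, diagonal_mul, if_pos hj, if_neg hi, mul_one, zero_mul] at this
  exact this

theorem chG_monic {g g' : Matrix N N A} (hg : g' * g = 1) (Z : Matrix N N A) (p : N → Prop)
    [DecidablePred p]
    (h : Z * (g * diagonal (fun i => if p i then 1 else 0) * g') =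
      g * diagonal (fun i => if p i then 1 else 0) * g' * Z) :
    (chG Z (g * diagonal (fun i => if p i then 1 else 0) * g')).Monic := by
  rw [chG_frame hg Z p h]
  exact charpoly_monic _

theorem chG_natDegree [Nontrivial A] {g g' : Matrix N N A} (hg : g' * g = 1) (Z : Matrix N N A)
    (p : N → Prop) [DecidablePred p]
    (h : Z * (g * diagonal (fun i => if p i then 1 else 0) * g') =
      g * diagonal (fun i => if p i then 1 else 0) * g' * Z) :
    (chG Z (g * diagonal (fun i => if p i then 1 else 0) * g')).natDegree =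
      (Finset.univ.filter p).card := by
  rw [chG_frame hg Z p h, charpoly_natDegree_eq_dim, Fintype.card_subtype]

/-- If `Z` acts on `e` as the scalar `t` then the polynomial is a power of `X - t`. -/
theorem chG_scalar {g g' : Matrix N N A} (hg : g' * g = 1) (Z : Matrix N N A) (p : N → Prop)
    [DecidablePred p] (t : A)
    (h : Z * (g * diagonal (fun i => if p i then 1 else 0) * g') =
      t • (g * diagonal (fun i => if p i then 1 else 0) * g'))
    (h' : g * diagonal (fun i => if p i then 1 else 0) * g' * Z =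
      t • (g * diagonal (fun i => if p i then 1 else 0) * g')) :
    chG Z (g * diagonal (fun i => if p i then 1 else 0) * g') =
      (X - C t) ^ Fintype.card {i // p i} := by
  rw [chG_frame hg Z p (h.trans h'.symm)]
  have e2 : (g' * Z * g) * diagonal (fun i => if p i then (1 : A) else 0) =
      t • diagonal (fun i => if p i then 1 else 0) := by
    have := congrArg (fun M => g' * M * g) h
    simp only [Matrix.mul_smul, Matrix.smul_mul, ← mul_assoc] at this ⊢
    rw [hg, one_mul, mul_assoc _ g' g, mul_assoc _ g' g, hg, mul_one, mul_one] at this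
    exact this
  have e3 : (g' * Z * g).toSquareBlockProp p = diagonal fun _ => t := by
    ext i j
    have := congrFun (congrFun e2 i) j
    rw [mul_diagonal, if_pos j.2, mul_one, Matrix.smul_apply, diagonal_apply, if_pos i.2] at this
    rw [toSquareBlockProp_def, of_apply, this, diagonal_apply]
    by_cases hij : i = j
    · rw [if_pos hij, if_pos (congrArg Subtype.val hij), smul_eq_mul, mul_one]
    · rw [if_neg hij, if_neg fun e => hij (Subtype.ext e), smul_zero]
  rw [e3, charpoly_diagonal, Finset.prod_const, Finset.card_univ]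

end monic

theorem eps_mul {A : Type u} [CommRing A] {ι : Type} [DecidableEq ι] (a : Fin n → ι) (m m' : ι) :
    eps A a m * eps A a m' = if m = m' then eps A a m else 0 := by
  rw [eps, eps, diagonal_mul_diagonal]
  split_ifs with h
  · subst h
    congr 1
    funext i
    split_ifs <;> simp
  · rw [← diagonal_zero]
    congr 1
    funext i
    split_ifs with h1 h2
    · exact absurd (h1.symm.trans h2) h
    all_goals simp

theorem cj_eps_mul {A : Type u} [CommRing A] {ι : Type} [DecidableEq ι] {g g' : Mat n A}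
    (hg : g' * g = 1) (a : Fin n → ι) (m m' : ι) :
    g * eps A a m * g' * (g * eps A a m' * g') = if m = m' then g * eps A a m * g' else 0 := by
  have : g * eps A a m * g' * (g * eps A a m' * g') = g * (eps A a m * eps A a m') * g' := by
    simp only [← mul_assoc]
    rw [mul_assoc _ g' g, hg, mul_one]
  rw [this, eps_mul]
  split_ifs
  · rfl
  · rw [mul_zero, zero_mul]

theorem cent_sum {ι : Type*} (s : Finset ι) (q : ι → k) (ζ : ι → Mat n k)
    (h : ∀ b ∈ s, H.Cent (ζ b)) : H.Cent (∑ b ∈ s, q b • ζ b) := by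
  intro A _ _ g hg
  have e : (∑ b ∈ s, q b • ζ b).map (algebraMap k A) =
      ∑ b ∈ s, algebraMap k A (q b) • (ζ b).map (algebraMap k A) := by
    ext i j
    simp only [map_apply, Matrix.sum_apply, Matrix.smul_apply, smul_eq_mul, map_sum, map_mul]
  rw [e]
  exact Commute.sum_right _ _ _ fun b hb => (h b hb A g hg).smul_right _

theorem exists_gen [Infinite k] {Om : Type u} [Field Om] [Algebra k Om] [IsAlgClosed Om]
    (hp : (H.van Om).IsPrime) {g g' : Mat n Om} (hg : g' * g = 1) (a : Fin n → ℤ)
    (hE : ∀ m, ∀ x ∈ H.G Om, Commute (x : Mat n Om) (g * eps Om a m * g'))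
    (hC : ∀ ζ, H.Cent ζ → ∀ m, ζ.map (algebraMap k Om) * (g * eps Om a m * g') =
      g * eps Om a m * g' * ζ.map (algebraMap k Om)) (S : Finset ℤ) :
    ∃ ζ, H.Cent ζ ∧ ∀ m ∈ S, ∀ m' ∈ S, m ≠ m' →
      IsCoprime (chG (ζ.map (algebraMap k Om)) (g * eps Om a m * g'))
        (chG (ζ.map (algebraMap k Om)) (g * eps Om a m' * g')) := by
  classical
  have : Infinite Om := Infinite.of_injective _ (algebraMap k Om).injective
  let t : ℤ → Om := fun m => Infinite.natEmbedding Om (Encodable.encode m)
  have ht : Function.Injective t := (Infinite.natEmbedding Om).injective.comp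
    Encodable.encode_injective
  let Z0 : Mat n Om := ∑ m ∈ S, t m • (g * eps Om a m * g')
  have hZ0 : ∀ x ∈ H.G Om, Commute (x : Mat n Om) Z0 := fun x hx =>
    Commute.sum_right _ _ _ fun m _ => (hE m x hx).smul_right _
  have hZ1 : ∀ m ∈ S, chG Z0 (g * eps Om a m * g') = (X - C (t m)) ^ Fintype.card {i // a i = m} := by
    intro m hm
    refine chG_scalar hg Z0 _ (t m) ?_ ?_
    · show Z0 * (g * eps Om a m * g') = t m • (g * eps Om a m * g')
      rw [Finset.sum_mul, Finset.sum_eq_single m]
      · rw [Matrix.smul_mul, cj_eps_mul hg, if_pos rfl]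
      · intro b _ hb
        rw [Matrix.smul_mul, cj_eps_mul hg, if_neg hb, smul_zero]
      · exact fun h => absurd hm h
    · show (g * eps Om a m * g') * Z0 = t m • (g * eps Om a m * g')
      rw [Finset.mul_sum, Finset.sum_eq_single m]
      · rw [Matrix.mul_smul, cj_eps_mul hg, if_pos rfl]
      · intro b _ hb
        rw [Matrix.mul_smul, cj_eps_mul hg, if_neg hb.symm, smul_zero]
      · exact fun h => absurd hm h
  let bs := Module.Basis.ofVectorSpace k Om
  let ζ : Module.Basis.ofVectorSpaceIndex k Om → Mat n k := fun b => Z0.map (bs.coord b)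
  have hζ : ∀ b, H.Cent (ζ b) := fun b => cent_comp H hp Z0 hZ0 _
  let s : Finset (Module.Basis.ofVectorSpaceIndex k Om) :=
    Finset.univ.biUnion fun p : Fin n × Fin n => (bs.repr (Z0 p.1 p.2)).support
  let PP := MvPolynomial (Module.Basis.ofVectorSpaceIndex k Om) Om
  let Z : Mat n PP := ∑ b ∈ s, (MvPolynomial.X b : PP) •
    ((ζ b).map (algebraMap k Om)).map (MvPolynomial.C : Om →+* PP)
  have hev : ∀ v, Z.map (MvPolynomial.eval v) = ∑ b ∈ s, v b • (ζ b).map (algebraMap k Om) := by
    intro v
    ext i j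
    simp [Z, PP, Matrix.sum_apply]
  have hev0 : Z.map (MvPolynomial.eval fun b => bs b) = Z0 := by
    rw [hev]
    ext i j
    have h1 : (bs.repr (Z0 i j)).support ⊆ s := fun b hb =>
      Finset.mem_biUnion.2 ⟨(i, j), Finset.mem_univ _, hb⟩
    conv_rhs => rw [← bs.linearCombination_repr (Z0 i j), Finsupp.linearCombination_apply,
      Finsupp.sum_of_support_subset _ h1 (fun i a => a • bs i) fun _ _ => zero_smul _ _]
    rw [Matrix.sum_apply]
    refine Finset.sum_congr rfl fun b _ => ?_
    rw [Matrix.smul_apply, map_apply, smul_eq_mul, mul_comm, ← Algebra.smul_def]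
    rfl
  let Em : ℤ → Mat n PP := fun m => (g * eps Om a m * g').map (MvPolynomial.C : Om →+* PP)
  have hEm : ∀ v m, (Em m).map (MvPolynomial.eval v) = g * eps Om a m * g' := by
    intro v m
    ext i j
    exact MvPolynomial.eval_C _
  have hmon : ∀ m, (chG Z (Em m)).Monic := by
    intro m
    have e1 : Em m = g.map MvPolynomial.C * diagonal (fun i => if a i = m then 1 else 0) *
        g'.map MvPolynomial.C := by
      simp only [Em]
      rw [Matrix.map_mul, Matrix.map_mul, eps, diagonal_map (map_zero _)]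
      congr 3
      funext i
      split_ifs
      · exact map_one _
      · exact map_zero _
    have e2 : Z * Em m = Em m * Z := by
      simp only [Z, Em]
      rw [Finset.sum_mul, Finset.mul_sum]
      refine Finset.sum_congr rfl fun b _ => ?_
      rw [Matrix.smul_mul, Matrix.mul_smul, ← Matrix.map_mul, ← Matrix.map_mul, hC _ (hζ b)]
    rw [e1] at e2 ⊢
    refine chG_monic ?_ Z _ e2
    rw [← Matrix.map_mul, hg, Matrix.map_one _ (map_zero _) (map_one _)]
  have hres : ∀ v m m', MvPolynomial.eval v (resultant (chG Z (Em m)) (chG Z (Em m'))) =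
      resultant (chG (Z.map (MvPolynomial.eval v)) (g * eps Om a m * g'))
        (chG (Z.map (MvPolynomial.eval v)) (g * eps Om a m' * g')) := by
    intro v m m'
    rw [← hEm v m, ← hEm v m', ← chG_map, ← chG_map, (hmon m).natDegree_map,
      (hmon m').natDegree_map, resultant_map_map]
  let F : PP := ∏ p ∈ S.offDiag, resultant (chG Z (Em p.1)) (chG Z (Em p.2))
  have hF : F ≠ 0 := by
    refine Finset.prod_ne_zero_iff.2 fun p hp h0 => ?_
    obtain ⟨h1, h2, h3⟩ := Finset.mem_offDiag.1 hp
    have := hres (fun b => bs b) p.1 p.2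
    rw [h0, map_zero, hev0, hZ1 _ h1, hZ1 _ h2] at this
    refine resultant_ne_zero _ _ ?_ this.symm
    exact (isCoprime_X_sub_C_of_isUnit_sub (sub_ne_zero.2 fun e => h3 (ht e)).isUnit).pow
  obtain ⟨q, hq⟩ := exists_point_ne_zero k F hF
  refine ⟨∑ b ∈ s, q b • ζ b, cent_sum H s q ζ fun b _ => hζ b, fun m hm m' hm' hne => ?_⟩
  have e : (∑ b ∈ s, q b • ζ b).map (algebraMap k Om) =
      Z.map (MvPolynomial.eval fun b => algebraMap k Om (q b)) := by
    rw [hev]
    ext i j
    simp only [map_apply, Matrix.sum_apply, Matrix.smul_apply, smul_eq_mul, map_sum, map_mul]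
  rw [map_prod, Finset.prod_ne_zero_iff] at hq
  have h1 := hq (m, m') (Finset.mem_offDiag.2 ⟨hm, hm', hne⟩)
  rw [hres] at h1
  rw [e]
  refine (isUnit_resultant_iff_isCoprime ?_).1 h1.isUnit
  rw [← hEm (fun b => algebraMap k Om (q b)) m, ← chG_map]
  exact (hmon m).map _

end Pool.Agent.GR.KC
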