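import Pool.Agent.P.MP_c1f06d_ag.r.CenB

open Matrix Polynomial

universe u

namespace Pool.Agent.GR.KC

section bas

variable {A B : Type*} [CommRing A] [CommRing B] [Algebra A B] {n : ℕ}

/-- The vectors `q j` are an `A`-basis of the cokernel of `P`. -/
def Bas (A : Type*) [CommRing A] [Algebra A B] (P : Matrix (Fin n) (Fin n) B) {ι : Type}
    [Fintype ι] (q : ι → Fin n → B) : Prop :=
  (∀ v : Fin n → B, ∃ (t : ι → A) (η : Fin n → B), v = ∑ j, t j • q j + P *ᵥ η) ∧
  ∀ (t : ι → A) (η : Fin n → B), ∑ j, t j • q j + P *ᵥ η = 0 → t = 0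

/-- `Z` is the matrix of `ζ` on the cokernel. -/
def RepB (P : Matrix (Fin n) (Fin n) B) {ι : Type} [Fintype ι] (q : ι → Fin n → B)
    (ζ : Matrix (Fin n) (Fin n) B) (Z : Matrix ι ι A) : Prop :=
  ∀ j, ∃ η : Fin n → B, ζ *ᵥ q j = ∑ i, Z i j • q i + P *ᵥ η

theorem charpoly_eq [Nontrivial A] {P ζ ζ' : Matrix (Fin n) (Fin n) B} (hk : ζ * P = P * ζ')
    {ι ι' : Type} [Fintype ι] [DecidableEq ι] [Fintype ι'] [DecidableEq ι'] {q : ι → Fin n → B}
    {q' : ι' → Fin n → B} (hq : Bas A P q) (hq' : Bas A P q') {Z : Matrix ι ι A}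
    {Z' : Matrix ι' ι' A} (hZ : RepB P q ζ Z) (hZ' : RepB P q' ζ Z') :
    Z.charpoly = Z'.charpoly := by
  let N : Submodule A (Fin n → B) := (LinearMap.range P.mulVecLin).restrictScalars A
  have hN : ∀ η, N.mkQ (P *ᵥ η) = 0 := fun η => (Submodule.Quotient.mk_eq_zero N).2 ⟨η, rfl⟩
  let L : ((Fin n → B) ⧸ N) →ₗ[A] ((Fin n → B) ⧸ N) :=
    N.mapQ N (ζ.mulVecLin.restrictScalars A) (by
      rintro _ ⟨η, rfl⟩
      refine ⟨ζ' *ᵥ η, ?_⟩
      show P *ᵥ (ζ' *ᵥ η) = ζ *ᵥ (P *ᵥ η)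
      rw [mulVec_mulVec, mulVec_mulVec, hk])
  have key : ∀ {κ : Type} [Fintype κ] [DecidableEq κ] (r : κ → Fin n → B)
      (W : Matrix κ κ A), Bas A P r → RepB P r ζ W →
        ∃ b : Module.Basis κ A ((Fin n → B) ⧸ N), LinearMap.toMatrix b b L = W := by
    intro κ _ _ r W hr hW
    have h1 : LinearIndependent A fun j => N.mkQ (r j) := by
      rw [Fintype.linearIndependent_iff]
      intro t ht
      simp only [← map_smul, ← map_sum] at ht
      obtain ⟨η, hη⟩ := (Submodule.Quotient.mk_eq_zero N).1 ht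
      have := hr.2 t (-η) (by
        rw [mulVec_neg, ← hη]
        exact add_neg_cancel _)
      exact fun j => congrFun this j
    have h2 : ⊤ ≤ Submodule.span A (Set.range fun j => N.mkQ (r j)) := by
      intro x _
      obtain ⟨v, rfl⟩ := N.mkQ_surjective x
      obtain ⟨t, η, rfl⟩ := hr.1 v
      rw [map_add, hN, add_zero, map_sum]
      exact Submodule.sum_mem _ fun j _ => by
        rw [map_smul]
        exact Submodule.smul_mem _ _ (Submodule.subset_span ⟨j, rfl⟩)
    refine ⟨Module.Basis.mk h1 h2, ?_⟩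
    ext i j
    obtain ⟨η, hη⟩ := hW j
    have h3 : L (Module.Basis.mk h1 h2 j) = ∑ i, W i j • Module.Basis.mk h1 h2 i := by
      simp only [Module.Basis.mk_apply]
      show N.mkQ (ζ *ᵥ r j) = _
      rw [hη, map_add, hN, add_zero, map_sum]
      simp only [map_smul]
    rw [LinearMap.toMatrix_apply, h3, Module.Basis.repr_sum_self]
  obtain ⟨b, hb⟩ := key q Z hq hZ
  obtain ⟨b', hb'⟩ := key q' Z' hq' hZ'
  have := Module.Free.of_basis b
  have := Module.Finite.of_basis b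
  rw [← hb, ← hb', LinearMap.charpoly_toMatrix, LinearMap.charpoly_toMatrix]

theorem mulVec_comb (G : Matrix (Fin n) (Fin n) B) {ι : Type} [Fintype ι] (t : ι → A)
    (q : ι → Fin n → B) : G *ᵥ ∑ j, t j • q j = ∑ j, t j • G *ᵥ q j := by
  have := map_sum (G.mulVecLin.restrictScalars A) (fun j => t j • q j) Finset.univ
  simp only [map_smul] at this
  exact this

theorem Bas.transport {P Dg G G' K K' : Matrix (Fin n) (Fin n) B} (hP : P = G * Dg * K)
    (hG : G' * G = 1) (hK : K * K' = 1) {ι : Type} [Fintype ι] {q : ι → Fin n → B}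
    (h : Bas A Dg q) : Bas A P fun j => G *ᵥ q j := by
  have hG' : G * G' = 1 := mul_eq_one_comm.1 hG
  refine ⟨fun v => ?_, fun t η h0 => ?_⟩
  · obtain ⟨t, η, e⟩ := h.1 (G' *ᵥ v)
    refine ⟨t, K' *ᵥ η, ?_⟩
    rw [← mulVec_comb, mulVec_mulVec, hP, mul_assoc, hK, mul_one, ← mulVec_mulVec, ← mulVec_add,
      ← e, mulVec_mulVec, hG', one_mulVec]
  · refine h.2 t (K *ᵥ η) ?_
    rw [← mulVec_comb, hP, ← mulVec_mulVec, ← mulVec_mulVec, ← mulVec_add] at h0
    have := congrArg (fun v => G' *ᵥ v) h0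
    simp only [mulVec_mulVec, mulVec_zero] at this
    rw [hG, one_mulVec] at this
    rw [mulVec_mulVec]
    exact this

theorem RepB.transport {P Dg G K K' ζ ζ' : Matrix (Fin n) (Fin n) B} (hP : P = G * Dg * K)
    (hK : K * K' = 1) (hζ : ζ * G = G * ζ') {ι : Type} [Fintype ι] {q : ι → Fin n → B}
    {Z : Matrix ι ι A} (h : RepB Dg q ζ' Z) : RepB P (fun j => G *ᵥ q j) ζ Z := by
  intro j
  obtain ⟨η, e⟩ := h j
  refine ⟨K' *ᵥ η, ?_⟩
  rw [← mulVec_comb, mulVec_mulVec, mulVec_mulVec, hζ, hP, mul_assoc, hK, mul_one,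
    ← mulVec_mulVec, ← mulVec_mulVec, ← mulVec_add, e]

end bas

section std

variable {A : Type*} [CommRing A] {n : ℕ}

/-- The monomial basis of the cokernel of a diagonal matrix. -/
noncomputable def sq (Hh : A[X]) (d : Fin n → ℕ) (D : ℕ)
    (j : {ia : Fin n × Fin D // (ia.2 : ℕ) < d ia.1}) : Fin n → AdjoinRoot Hh :=
  Pi.single j.1.1 (AdjoinRoot.mk Hh (X ^ (j.1.2 : ℕ)))

theorem sq_sum (Hh : A[X]) (d : Fin n → ℕ) (D : ℕ)
    (t : {ia : Fin n × Fin D // (ia.2 : ℕ) < d ia.1} → A) (i : Fin n) :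
    (∑ j, t j • sq Hh d D j) i = AdjoinRoot.mk Hh
      (∑ a : Fin D, if h : (a : ℕ) < d i then monomial a (t ⟨(i, a), h⟩) else 0) := by
  let F : Fin n × Fin D → AdjoinRoot Hh := fun ia =>
    if h : (ia.2 : ℕ) < d ia.1 then (t ⟨ia, h⟩ • sq Hh d D ⟨ia, h⟩) i else 0
  have e1 : (∑ j, t j • sq Hh d D j) i = ∑ ia, F ia := by
    rw [Finset.sum_apply, ← Finset.sum_filter_add_sum_filter_not Finset.univ
      (fun ia : Fin n × Fin D => (ia.2 : ℕ) < d ia.1) F,
      Finset.sum_eq_zero (s := Finset.univ.filter fun ia : Fin n × Fin D => ¬ _)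
        (fun ia h => dif_neg (Finset.mem_filter.1 h).2), add_zero,
      Finset.sum_subtype (p := fun ia : Fin n × Fin D => (ia.2 : ℕ) < d ia.1) _ (by simp) F]
    exact Finset.sum_congr rfl fun j _ => by simp only [F, dif_pos j.2]
  rw [e1, Fintype.sum_prod_type, Finset.sum_eq_single i, map_sum]
  · refine Finset.sum_congr rfl fun a _ => ?_
    simp only [F]
    split_ifs with h
    · rw [Pi.smul_apply, sq, Pi.single_eq_same, ← smul_X_eq_monomial, AdjoinRoot.smul_mk]
    · rw [map_zero]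
  · intro i' _ hi
    refine Finset.sum_eq_zero fun a _ => ?_
    simp only [F]
    split_ifs with h
    · rw [Pi.smul_apply, sq, Pi.single_eq_of_ne hi.symm, smul_zero]
    · rfl
  · exact fun h => absurd (Finset.mem_univ i) h

theorem coeff_tsum {D d : ℕ} (t : ∀ a : Fin D, (a : ℕ) < d → A) (m : ℕ) :
    (∑ a : Fin D, if h : (a : ℕ) < d then monomial a (t a h) else 0 : A[X]).coeff m =
      if h : m < D ∧ m < d then t ⟨m, h.1⟩ h.2 else 0 := by
  rw [finsetSum_coeff]
  split_ifs with h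
  · rw [Finset.sum_eq_single ⟨m, h.1⟩]
    · rw [dif_pos h.2, coeff_monomial, if_pos rfl]
    · intro b _ hb
      split_ifs
      · rw [coeff_monomial, if_neg fun e => hb (Fin.ext e)]
      · rfl
    · exact fun h => absurd (Finset.mem_univ _) h
  · refine Finset.sum_eq_zero fun a _ => ?_
    split_ifs with h1
    · rw [coeff_monomial, if_neg]
      rintro rfl
      exact h ⟨a.2, h1⟩
    · rfl

theorem bas_std [Nontrivial A] (Hh : A[X]) (p : Fin n → A[X]) (hm : ∀ i, (p i).Monic)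
    (hd : ∀ i, p i ∣ Hh) (D : ℕ) (hD : ∀ i, (p i).natDegree ≤ D) :
    Bas A (diagonal fun i => AdjoinRoot.mk Hh (p i)) (sq Hh (fun i => (p i).natDegree) D) := by
  refine ⟨fun v => ?_, fun t η h0 => ?_⟩
  · choose w hw using fun i => AdjoinRoot.mk_surjective (v i)
    refine ⟨fun j => (w j.1.1 %ₘ p j.1.1).coeff j.1.2, fun i => AdjoinRoot.mk Hh (w i /ₘ p i), ?_⟩
    funext i
    rw [Pi.add_apply, sq_sum Hh (fun i => (p i).natDegree) D, mulVec_diagonal, ← map_mul,
      ← map_add, ← hw]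
    congr 1
    conv_lhs => rw [← modByMonic_add_div (w i) (p i)]
    congr 1
    ext m
    rw [coeff_tsum fun a _ => (w i %ₘ p i).coeff a]
    split_ifs with h
    · rfl
    · refine coeff_eq_zero_of_degree_lt ((degree_modByMonic_lt _ (hm i)).trans_le ?_)
      rw [degree_eq_natDegree (hm i).ne_zero, Nat.cast_le]
      by_contra h1
      exact h ⟨(not_le.1 h1).trans_le (hD i), not_le.1 h1⟩
  · funext j
    obtain ⟨⟨i, a⟩, ha⟩ := j
    obtain ⟨w, hw⟩ := AdjoinRoot.mk_surjective (η i)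
    have h1 := congrFun h0 i
    rw [Pi.add_apply, sq_sum Hh (fun i => (p i).natDegree) D, mulVec_diagonal, ← hw, ← map_mul,
      ← map_add, Pi.zero_apply,
      AdjoinRoot.mk_eq_zero] at h1
    have h2 := (dvd_add_left (dvd_mul_right (p i) w)).1 ((hd i).trans h1)
    have h3 : (∑ a : Fin D, if h : (a : ℕ) < (p i).natDegree then monomial a (t ⟨(i, a), h⟩)
        else 0 : A[X]) = 0 := by
      by_contra hne
      refine (hm i).not_dvd_of_degree_lt hne ?_ h2
      rw [degree_eq_natDegree (hm i).ne_zero, degree_lt_iff_coeff_zero]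
      intro m hm'
      rw [coeff_tsum fun a h => t ⟨(i, a), h⟩, dif_neg fun h => absurd h.2 (not_lt.2 hm')]
    have h4 := congrArg (fun f => f.coeff a) h3
    simp only [coeff_zero] at h4
    rw [coeff_tsum fun a h => t ⟨(i, a), h⟩, dif_pos ⟨a.2, ha⟩] at h4
    exact h4

theorem rep_std (Hh : A[X]) (P : Matrix (Fin n) (Fin n) (AdjoinRoot Hh)) (d : Fin n → ℕ) (D : ℕ)
    (ζ : Matrix (Fin n) (Fin n) A) (hζ : ∀ i j, d i ≠ d j → ζ i j = 0) :
    RepB P (sq Hh d D) (ζ.map (algebraMap A (AdjoinRoot Hh)))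
      ((blockDiagonal fun _ : Fin D => ζ).toSquareBlockProp fun ia => (ia.2 : ℕ) < d ia.1) := by
  rintro ⟨⟨j, b⟩, hb⟩
  refine ⟨0, ?_⟩
  rw [mulVec_zero, add_zero]
  funext i
  rw [sq_sum, sq, mulVec_single, Finset.sum_eq_single b]
  · simp only [toSquareBlockProp_def, of_apply, blockDiagonal_apply, if_true]
    show algebraMap A (AdjoinRoot Hh) (ζ i j) * AdjoinRoot.mk Hh (X ^ (b : ℕ)) = _
    split_ifs with h
    · rw [← smul_X_eq_monomial, ← AdjoinRoot.smul_mk, Algebra.smul_def]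
    · rw [hζ i j fun e => h (e ▸ hb), map_zero, map_zero, zero_mul]
  · intro a _ ha
    split_ifs
    · simp only [toSquareBlockProp_def, of_apply, blockDiagonal_apply, if_neg ha, map_zero]
    · rfl
  · exact fun h => absurd (Finset.mem_univ _) h

theorem charpoly_std (d : Fin n → ℕ) (D : ℕ) (ζ : Matrix (Fin n) (Fin n) A)
    (hζ : ∀ i j, d i ≠ d j → ζ i j = 0) :
    ((blockDiagonal fun _ : Fin D => ζ).toSquareBlockProp
        fun ia => (ia.2 : ℕ) < d ia.1).charpoly =
      ∏ a : Fin D, chG ζ (diagonal fun i => if (a : ℕ) < d i then 1 else 0) := by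
  rw [← chG_diagonal]
  · simp only [chG]
    rw [← det_blockDiagonal]
    congr 1
    ext ⟨i, a⟩ ⟨j, b⟩ : 2
    simp only [Matrix.sub_apply, Matrix.add_apply, diagonal_map (map_zero (C : A →+* A[X])),
      mul_diagonal, blockDiagonal_apply, charmatrix_apply, diagonal_apply, one_apply, Prod.mk.injEq]
    by_cases hab : a = b
    · subst hab
      simp
    · simp [hab]
  · rintro ⟨i, a⟩ h1 ⟨j, b⟩ h2
    rw [blockDiagonal_apply]
    split_ifs with h
    · refine hζ i j fun e => h1 ?_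
      have h' : a = b := h
      subst h'
      exact e ▸ h2
    · rfl

end std

section typ

variable {A : Type u} [CommRing A] {n : ℕ} {ι : Type} [DecidableEq ι]

theorem eps_comm {c : Fin n → ι} {ζ : Mat n A} (hζ : InL c ζ) (x : ι) :
    ζ * eps A c x = eps A c x * ζ := by
  ext i j
  rw [eps, mul_diagonal, diagonal_mul]
  by_cases h : c i = c j
  · rw [h, mul_comm]
  · rw [hζ i j h, zero_mul, mul_zero]

theorem inL_of_comm {c : Fin n → ι} {ζ : Mat n A}
    (h : ∀ i, ζ * eps A c (c i) = eps A c (c i) * ζ) : InL c ζ := fun i j hij => by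
  have := congrFun (congrFun (h i) i) j
  rw [eps, mul_diagonal, diagonal_mul, if_pos rfl, if_neg fun e => hij e.symm, mul_zero,
    one_mul] at this
  exact this.symm

theorem sum_eps (c : Fin n → ι) (S : Finset ι) (hS : ∀ i, c i ∈ S) (p : ι → Prop)
    [DecidablePred p] : ∑ x ∈ S.filter p, eps A c x =
      diagonal fun i => if p (c i) then 1 else 0 := by
  ext i j
  rw [Matrix.sum_apply]
  by_cases hij : i = j
  · subst hij
    simp only [eps, diagonal_apply_eq]
    rw [Finset.sum_ite_eq]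
    simp only [Finset.mem_filter, hS i, true_and]
  · simp only [eps, diagonal_apply_ne _ hij, Finset.sum_const_zero]

theorem prod_chG (c : Fin n → ι) (S : Finset ι) (hS : ∀ i, c i ∈ S) (dd : ι → ℕ) (D : ℕ)
    (hD : ∀ x ∈ S, dd x ≤ D) {ζ : Mat n A} (hζ : InL c ζ) :
    ∏ a : Fin D, chG ζ (diagonal fun i => if (a : ℕ) < dd (c i) then 1 else 0) =
      ∏ x ∈ S, chG ζ (eps A c x) ^ dd x := by
  have h1 : ∀ a : Fin D, chG ζ (diagonal fun i => if (a : ℕ) < dd (c i) then 1 else 0) =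
      ∏ x ∈ S, if (a : ℕ) < dd x then chG ζ (eps A c x) else 1 := by
    intro a
    rw [← sum_eps c S hS fun x => (a : ℕ) < dd x, chG_sum, Finset.prod_filter]
    · intro x _ y _ hxy
      rw [eps_mul, if_neg hxy]
    · exact fun x _ => eps_comm hζ x
  rw [Finset.prod_congr rfl fun a _ => h1 a, Finset.prod_comm]
  refine Finset.prod_congr rfl fun x hx => ?_
  rw [← Finset.prod_filter, Finset.prod_const, Fin.card_filter_val_lt, min_eq_right (hD x hx)]

/-- The characteristic polynomial on the cokernel of `G * diag (p (c i)) * K`. -/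
theorem charpoly_typ [Nontrivial A] (Hh : A[X]) (c : Fin n → ι) (S : Finset ι)
    (hS : ∀ i, c i ∈ S) (p : ι → A[X]) (hm : ∀ x ∈ S, (p x).Monic) (hd : ∀ x ∈ S, p x ∣ Hh)
    {P G G' K K' : Mat n (AdjoinRoot Hh)}
    (hP : P = G * diagonal (fun i => AdjoinRoot.mk Hh (p (c i))) * K) (hG : G' * G = 1)
    (hK : K * K' = 1) {ζ : Mat n (AdjoinRoot Hh)} {ζ' : Mat n A} (hζ' : InL c ζ')
    (hζ : ζ * G = G * ζ'.map (algebraMap A (AdjoinRoot Hh))) {κ : Type} [Fintype κ]
    [DecidableEq κ] {q : κ → Fin n → AdjoinRoot Hh} (hq : Bas A P q) {Z : Matrix κ κ A}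
    (hZ : RepB P q ζ Z) : Z.charpoly = ∏ x ∈ S, chG ζ' (eps A c x) ^ (p x).natDegree := by
  let D := S.sup fun x => (p x).natDegree
  have hD : ∀ x ∈ S, (p x).natDegree ≤ D := fun x hx =>
    Finset.le_sup (f := fun x => (p x).natDegree) hx
  have h0 : ∀ i j, (p (c i)).natDegree ≠ (p (c j)).natDegree → ζ' i j = 0 := fun i j h =>
    hζ' i j fun e => h (by rw [e])
  have h1 := (bas_std Hh (fun i => p (c i)) (fun i => hm _ (hS i)) (fun i => hd _ (hS i)) D
    fun i => hD _ (hS i)).transport hP hG hK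
  have h2 := (rep_std Hh _ (fun i => (p (c i)).natDegree) D ζ' h0).transport hP hK hζ
  have hK' : K' * K = 1 := mul_eq_one_comm.1 hK
  have h3 : ζ'.map (algebraMap A (AdjoinRoot Hh)) *
      diagonal (fun i => AdjoinRoot.mk Hh (p (c i))) =
      diagonal (fun i => AdjoinRoot.mk Hh (p (c i))) * ζ'.map (algebraMap A (AdjoinRoot Hh)) := by
    ext i j
    rw [mul_diagonal, diagonal_mul, map_apply]
    by_cases h : c i = c j
    · rw [h, mul_comm]
    · rw [hζ' i j h, map_zero, zero_mul, mul_zero]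
  have h4 : ζ * P = P * (K' * ζ'.map (algebraMap A (AdjoinRoot Hh)) * K) := by
    rw [hP]
    simp only [← mul_assoc]
    rw [hζ, mul_assoc _ K K', hK, mul_one, mul_assoc G, h3, ← mul_assoc]
  rw [charpoly_eq h4 hq h1 hZ h2, charpoly_std _ D ζ' h0,
    prod_chG c S hS (fun x => (p x).natDegree) D hD hζ']

end typ

end Pool.Agent.GR.KC
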