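import Pool.Agent.P.MP_c1f06d_ag.r.Lin
import Pool.Agent.P.MP_c1f06d_ag.r.Inf

open Matrix

universe u

namespace Pool.Agent.GR

section ring

variable {n : ℕ} {A : Type u} [CommRing A] {ι : Type}

/-- `M i j = 0` unless `a i = b j`. -/
def Intw (a b : Fin n → ι) (M : Mat n A) : Prop := ∀ i j, a i ≠ b j → M i j = 0

theorem Intw.mul {a b c : Fin n → ι} {M N : Mat n A} (hM : Intw a b M) (hN : Intw b c N) :
    Intw a c (M * N) := fun i j h => by
  rw [mul_apply]
  refine Finset.sum_eq_zero fun l _ => ?_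
  by_cases e : a i = b l
  · rw [hN l j (e ▸ h), mul_zero]
  · rw [hM i l e, zero_mul]

theorem Intw.diag_mul {a b : Fin n → ι} {M : Mat n A} (h : Intw a b M) (f : ι → A) :
    (diagonal fun i => f (a i)) * M = M * diagonal fun j => f (b j) := by
  ext i j
  rw [diagonal_mul, mul_diagonal]
  by_cases e : a i = b j
  · rw [e, mul_comm]
  · rw [h i j e, mul_zero, zero_mul]

theorem Intw.eps_mul [DecidableEq ι] {a b : Fin n → ι} {M : Mat n A} (h : Intw a b M) (m : ι) :
    eps A a m * M = M * eps A b m :=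
  h.diag_mul fun x => if x = m then 1 else 0

theorem intw_of_eps [DecidableEq ι] {a b : Fin n → ι} {M : Mat n A}
    (h : ∀ j, eps A a (b j) * M = M * eps A b (b j)) : Intw a b M := fun i j e => by
  have := congrFun (congrFun (h j) i) j
  rw [eps, eps, diagonal_mul, mul_diagonal, if_neg e, if_pos rfl, zero_mul, mul_one] at this
  exact this.symm

theorem Intw.inv {a b : Fin n → ι} {g : GL (Fin n) A} (h : Intw a b (g : Mat n A)) :
    Intw b a ((g⁻¹ : GL (Fin n) A) : Mat n A) := by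
  classical
  refine intw_of_eps fun j => ?_
  calc eps A b (a j) * ((g⁻¹ : GL (Fin n) A) : Mat n A)
      = ((g⁻¹ : GL (Fin n) A) : Mat n A) * ((g : Mat n A) * eps A b (a j)) *
          ((g⁻¹ : GL (Fin n) A) : Mat n A) := by
        rw [← Matrix.mul_assoc, Units.inv_mul, Matrix.one_mul]
    _ = _ := by
        rw [← h.eps_mul, Matrix.mul_assoc, Matrix.mul_assoc, Units.mul_inv, Matrix.mul_one]

theorem Intw.conj [DecidableEq ι] {a b : Fin n → ι} {g : GL (Fin n) A}
    (h : Intw a b (g : Mat n A)) (m : ι) :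
    (g : Mat n A) * eps A b m * ((g⁻¹ : GL (Fin n) A) : Mat n A) = eps A a m := by
  rw [← h.eps_mul, Matrix.mul_assoc, Units.mul_inv, Matrix.mul_one]

theorem Intw.comp {ι' : Type} {a b : Fin n → ι} {M : Mat n A} (h : Intw a b M) (f : ι → ι') :
    Intw (fun i => f (a i)) (fun j => f (b j)) M :=
  fun i j e => h i j fun e' => e (congrArg f e')

theorem intw_diagonal (a : Fin n → ι) (d : Fin n → A) : Intw a a (diagonal d) :=
  fun _ _ e => diagonal_apply_ne _ fun e' => e (congrArg a e')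

theorem intw_pmat (a : Fin n → ι) (w : Equiv.Perm (Fin n)) :
    Intw (fun i => a (w.symm i)) a (pmat A w : Mat n A) := fun i j e => by
  have : i ≠ w j := fun e' => e (by simp [e'])
  simp [pmat, this]

theorem inL_pmat {c : Fin n → ι} {w : Equiv.Perm (Fin n)} (h : ∀ j, c (w j) = c j) :
    InL c (pmat A w : Mat n A) := fun i j e => by
  have : i ≠ w j := fun e' => e (by rw [e', h])
  simp [pmat, this]

theorem lv_inL {ι' : Type} [DecidableEq ι] (a : Fin n → ι) {c : Fin n → ι'} {M : Mat n A}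
    (h : InL c M) : InL c (lv a M) := fun i j e => by simp [lv, h i j e]

theorem lv_inL_self [DecidableEq ι] (a : Fin n → ι) (M : Mat n A) : InL a (lv a M) :=
  fun i j e => by simp [lv, e]

theorem inP_pmat_conj {a : Fin n → ℤ} {b : GL (Fin n) A} (hb : InP a (b : Mat n A))
    (w : Equiv.Perm (Fin n)) : InP (fun i => a (w.symm i))
      ((pmat A w * b * (pmat A w)⁻¹ : GL (Fin n) A) : Mat n A) := fun i j e => by
  have h1 : ((pmat A w * b * (pmat A w)⁻¹ : GL (Fin n) A) : Mat n A) i j =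
      (b : Mat n A) (w.symm i) (w.symm j) := by
    rw [Units.val_mul, Units.val_mul, mul_apply, Finset.sum_eq_single (w.symm j), mul_apply,
      Finset.sum_eq_single (w.symm i)] <;>
      simp +contextual [pmat, eq_comm, Equiv.eq_symm_apply]
  rw [h1]
  exact hb _ _ e

theorem idem_eps [DecidableEq ι] (a : Fin n → ι) : Idem (Finset.univ.image a) (eps A a) := by
  refine ⟨fun m _ => ?_, fun m _ m' _ h => ?_, ?_⟩
  · rw [eps, diagonal_mul_diagonal]
    congr 1
    funext i
    by_cases e : a i = m <;> simp [e]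
  · rw [eps, eps, diagonal_mul_diagonal, ← diagonal_zero]
    congr 1
    funext i
    by_cases e : a i = m <;> simp [e, h]
  · ext i j
    by_cases e : i = j <;> simp [Matrix.sum_apply, eps, e, one_apply]

theorem Idem.conj' {S : Finset ι} {E : ι → Mat n A} (h : Idem S E) (g : GL (Fin n) A) :
    Idem S fun m => (g : Mat n A) * E m * ((g⁻¹ : GL (Fin n) A) : Mat n A) := by
  have hm : ∀ X Y : Mat n A, (g : Mat n A) * X * ((g⁻¹ : GL (Fin n) A) : Mat n A) *
      ((g : Mat n A) * Y * ((g⁻¹ : GL (Fin n) A) : Mat n A)) =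
      (g : Mat n A) * (X * Y) * ((g⁻¹ : GL (Fin n) A) : Mat n A) := fun X Y => by
    simp only [Matrix.mul_assoc, Units.inv_mul_cancel_left]
  refine ⟨fun m hm' => ?_, fun m hm' m' hm'' e => ?_, ?_⟩
  · rw [hm, h.1 m hm']
  · rw [hm, h.2.1 m hm' m' hm'' e, Matrix.mul_zero, Matrix.zero_mul]
  · rw [← Finset.sum_mul, ← Finset.mul_sum, h.2.2, Matrix.mul_one, Units.mul_inv]

variable {Γ Γ' : Type} [AddCommGroup Γ] [AddCommGroup Γ']

theorem uu_plus (δ δ' : Γ) : uu A (δ + δ') = uu A δ * uu A δ' :=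
  Units.ext (by simp [uu, AddMonoidAlgebra.single_mul_single])

theorem rho_add (c c' : Fin n → Γ) : rho A (fun i => c i + c' i) = rho A c * rho A c' :=
  Units.ext (by simp [rho, dgU, uu_plus, diagonal_mul_diagonal])

theorem rho_mul_of_intw {k : Type u} [CommRing k] [Algebra k A] {c c' : Fin n → Γ}
    {q : GL (Fin n) A} (h : Intw c' c (q : Mat n A)) :
    rho A c' * gm (IsScalarTower.toAlgHom k A (GA A Γ)) q =
      gm (IsScalarTower.toAlgHom k A (GA A Γ)) q * rho A c :=
  Units.ext <| Intw.diag_mul (a := c') (b := c)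
    (M := (gm (IsScalarTower.toAlgHom k A (GA A Γ)) q : Mat n (GA A Γ)))
    (fun i j e => by
      show IsScalarTower.toAlgHom k A (GA A Γ) ((q : Mat n A) i j) = 0
      rw [h i j e, map_zero]) fun δ => ((uu A δ : (GA A Γ)ˣ) : GA A Γ)

/-- The elements of the group algebra supported in a submonoid. -/
def suppIn (k : Type u) [CommRing k] (A : Type u) [CommRing A] [Algebra k A]
    (M : AddSubmonoid Γ) : Subalgebra k (GA A Γ) where
  carrier := {f | ∀ δ, δ ∉ M → f.coeff δ = 0}
  mul_mem' := fun {f g} hf hg δ hδ => by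
    classical
    by_contra h
    obtain ⟨x, hx, y, hy, e⟩ := Finset.mem_add.1
      (AddMonoidAlgebra.support_coeff_mul_subset f g (Finsupp.mem_support_iff.2 h))
    refine hδ (e ▸ M.add_mem ?_ ?_)
    · exact by_contra fun h' => Finsupp.mem_support_iff.1 hx (hf x h')
    · exact by_contra fun h' => Finsupp.mem_support_iff.1 hy (hg y h')
  add_mem' := fun {f g} hf hg δ hδ => by simp [hf δ hδ, hg δ hδ]
  algebraMap_mem' := fun r δ hδ => by
    have : δ ≠ 0 := fun e => hδ (e ▸ M.zero_mem)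
    simp [AddMonoidAlgebra.coe_algebraMap, this]

theorem single_mem_suppIn {k : Type u} [CommRing k] [Algebra k A] {M : AddSubmonoid Γ} {δ : Γ}
    {x : A} (h : δ ∉ M → x = 0) : AddMonoidAlgebra.single δ x ∈ suppIn k A M := fun δ' hδ => by
  by_cases e : δ' = δ
  · simp [h (e ▸ hδ)]
  · simp [e]

end ring

namespace HS

variable {k : Type u} [Field k] {n : ℕ} {H : HS k n} {A : Type u} [CommRing A] [Algebra k A]
  {Γ Γ' : Type} [AddCommGroup Γ] [AddCommGroup Γ']

theorem Fixed.intw {c c' : Fin n → Γ} {y : H.B →ₐ[k] A} (h : H.Fixed c y) {q : GL (Fin n) A}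
    (hq : Intw c' c (q : Mat n A)) : H.Fixed c' (H.act q y) := by
  unfold Fixed orb at h ⊢
  rw [H.act_nat, ← H.act_mul, rho_mul_of_intw hq, H.act_mul, h]

theorem Fixed.push {c : Fin n → Γ} {y : H.B →ₐ[k] A} (h : H.Fixed c y) (f : Γ →+ Γ') :
    H.Fixed (fun i => f (c i)) y := by
  let φ : GA A Γ →ₐ[k] GA A Γ' := AddMonoidAlgebra.mapDomainAlgHom k A f
  have e1 : φ.comp ((IsScalarTower.toAlgHom k A (GA A Γ)).comp y) =
      (IsScalarTower.toAlgHom k A (GA A Γ')).comp y := by
    ext b : 1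
    simp [φ, AddMonoidAlgebra.coe_algebraMap]
  have e2 : gm φ (rho A c) = rho A fun i => f (c i) := by
    ext i j : 2
    show φ (diagonal (fun i => ((uu A (c i) : (GA A Γ)ˣ) : GA A Γ)) i j) =
      diagonal (fun i => ((uu A (f (c i)) : (GA A Γ')ˣ) : GA A Γ')) i j
    by_cases e : i = j
    · simp [e, φ, uu]
    · simp [e]
  unfold Fixed orb at h ⊢
  rw [← e2, ← e1, ← H.act_nat, h]

theorem Fixed.plus {c c' : Fin n → Γ} {y : H.B →ₐ[k] A} (h : H.Fixed c y) (h' : H.Fixed c' y) :
    H.Fixed (fun i => c i + c' i) y := by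
  unfold Fixed orb at h h' ⊢
  rw [rho_add, H.act_mul, h', h]

theorem fixed_zero (y : H.B →ₐ[k] A) : H.Fixed (fun _ => (0 : Γ)) y := by
  have e : rho A (fun _ : Fin n => (0 : Γ)) = 1 :=
    Units.ext diagonal_one
  unfold Fixed orb
  rw [e, H.act_one]

/-- The components of `q y` vanish outside `M`. -/
theorem Fixed.supp {c c₁ : Fin n → Γ} {y : H.B →ₐ[k] A} (h : H.Fixed c₁ y) (M : AddSubmonoid Γ)
    (h1 : ∀ i, c i - c₁ i ∈ M) (h2 : ∀ i, -(c i - c₁ i) ∈ M) (q : GL (Fin n) A)
    (hq : ∀ i j, c i - c j ∉ M → (q : Mat n A) i j = 0)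
    (hq' : ∀ i j, c i - c j ∉ M → ((q⁻¹ : GL (Fin n) A) : Mat n A) i j = 0) (δ : Γ) (hδ : δ ∉ M)
    (b : H.B) : H.cf c (H.act q y) δ b = 0 := by
  set ι := IsScalarTower.toAlgHom k A (GA A Γ) with hι
  have hc : ∀ p : GL (Fin n) A, (∀ i j, c i - c j ∉ M → (p : Mat n A) i j = 0) → ∀ i j,
      ((rho A c * gm ι p * (rho A c)⁻¹ : GL (Fin n) (GA A Γ)) : Mat n (GA A Γ)) i j ∈
        suppIn k A M := fun p hp i j => by
    have e : ((rho A c * gm ι p * (rho A c)⁻¹ : GL (Fin n) (GA A Γ)) : Mat n (GA A Γ)) i j =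
        AddMonoidAlgebra.single (c i - c j) ((p : Mat n A) i j) := by
      show (diagonal (fun i => ((uu A (c i) : (GA A Γ)ˣ) : GA A Γ)) *
        (p : Mat n A).map ι * diagonal (fun i => (((uu A (c i))⁻¹ : (GA A Γ)ˣ) : GA A Γ))) i j = _
      rw [mul_diagonal, diagonal_mul]
      simp [uu, hι, AddMonoidAlgebra.coe_algebraMap, AddMonoidAlgebra.single_mul_single,
        sub_eq_add_neg]
    rw [e]
    exact single_mem_suppIn (hp i j)
  have hd : ∀ (t : Fin n → Γ), (∀ i, t i ∈ M) → ∀ i j,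
      diagonal (fun i => (AddMonoidAlgebra.single (t i) 1 : GA A Γ)) i j ∈ suppIn k A M :=
    fun t ht i j => by
      by_cases e : i = j
      · rw [e, diagonal_apply_eq]
        exact single_mem_suppIn fun h' => absurd (ht j) h'
      · rw [diagonal_apply_ne _ e]
        exact zero_mem _
  have e1 : rho A c = rho A (fun i => c i - c₁ i) * rho A c₁ := by
    rw [← rho_add]
    simp
  have e2 : H.orb c (H.act q y) = H.act (rho A c * gm ι q * (rho A c)⁻¹)
      (H.act (rho A fun i => c i - c₁ i) (ι.comp y)) := by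
    have h' : H.act (rho A c₁) (ι.comp y) = ι.comp y := h
    conv_rhs => rw [← h', ← H.act_mul (rho A fun i => c i - c₁ i), ← e1, ← H.act_mul,
      inv_mul_cancel_right, H.act_mul, ← H.act_nat]
    rfl
  have e3 : (rho A c * gm ι q * (rho A c)⁻¹)⁻¹ = rho A c * gm ι q⁻¹ * (rho A c)⁻¹ := by
    rw [map_inv]
    group
  unfold cf
  rw [e2]
  refine H.act_sub (suppIn k A M) _ (hc q hq) (e3 ▸ hc q⁻¹ hq') _
    (H.act_sub (suppIn k A M) _ (hd _ h1) (hd _ h2) _ fun b => ?_) b δ hδ
  exact single_mem_suppIn (δ := 0) (x := y b) fun h' => absurd M.zero_mem h'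

end HS

end Pool.Agent.GR
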