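import Pool.Agent.P.MP_c1f06d_ag.r.CenC
import Pool.Agent.P.MP_c1f06d_ag.r.Intw
import Pool.Agent.P.MP_c1f06d_ag.r.Grad

open Matrix Polynomial

universe u

namespace Pool.Agent.GR.KC

variable {k : Type u} [Field k] {n : ℕ} {H : HS k n} {A A' : Type u} [CommRing A] [Algebra k A]
  [CommRing A'] [Algebra k A'] {Γ : Type} [AddCommGroup Γ]

theorem fixed_comp {c : Fin n → Γ} {y : H.B →ₐ[k] A} (hy : H.Fixed c y) (f : A →ₐ[k] A') :
    H.Fixed c (f.comp y) :=
  (H.fixed_iff c _).2 fun δ hδ b => by rw [H.cf_nat, (H.fixed_iff c y).1 hy δ hδ b, map_zero]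

theorem fixed_of_inj {c : Fin n → Γ} {y : H.B →ₐ[k] A} (f : A →ₐ[k] A')
    (hf : Function.Injective f) (hy : H.Fixed c (f.comp y)) : H.Fixed c y :=
  (H.fixed_iff c _).2 fun δ hδ b => hf (by
    rw [← H.cf_nat, (H.fixed_iff c _).1 hy δ hδ b, map_zero])

theorem comp_frame (f : A →ₐ[k] A') (γ : GL (Fin n) A) :
    f.comp (H.act γ⁻¹ (H.pt A)) = H.act (gm f γ)⁻¹ (H.pt A') := by
  rw [H.act_nat, H.pt_map, map_inv]

theorem fixed_frame (γ : GL (Fin n) A) (c : Fin n → Γ) :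
    H.Fixed c (H.act γ⁻¹ (H.pt A)) ↔ gm (IsScalarTower.toAlgHom k A (GA A Γ)) γ * rho A c *
      (gm (IsScalarTower.toAlgHom k A (GA A Γ)) γ)⁻¹ ∈ H.G (GA A Γ) := by
  unfold HS.Fixed HS.orb
  rw [comp_frame, H.mem_G, H.act_mul, H.act_mul]
  exact ⟨fun h => by rw [h, H.act_act_inv], fun h => by conv_rhs => rw [← h, H.act_inv_act]⟩

theorem rho_val [DecidableEq Γ] {c : Fin n → Γ} {S : Finset Γ} (hS : ∀ i, c i ∈ S) :
    ((rho A c : GL (Fin n) (GA A Γ)) : Mat n (GA A Γ)) = ∑ δ ∈ S,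
      ((uu A δ : (GA A Γ)ˣ) : GA A Γ) • (eps A c δ).map (algebraMap A (GA A Γ)) := by
  ext i j : 1
  by_cases e : i = j
  · rw [Matrix.sum_apply, Finset.sum_eq_single (c j) (fun δ _ h => by simp [eps, e, h.symm])
      fun h => absurd (hS j) h]
    simp [eps, e, rho, dgU, ← AddMonoidAlgebra.one_def]
  · simp [Matrix.sum_apply, eps, e, rho, dgU]

theorem mem_XX {r : ℕ} (χ : Fin n → Fin r → ℤ) (i : Fin n) : χ i ∈ XX χ :=
  Finset.mem_image_of_mem _ (Finset.mem_univ i)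

theorem datum_fixed (D : H.Datum) (ι : D.l →ₐ[k] A) :
    H.Fixed D.χ (H.act (gm ι D.γ)⁻¹ (H.pt A)) := by
  rw [← comp_frame]
  refine fixed_comp ((fixed_frame D.γ D.χ).2 (H.memM_val.1 ?_)) ι
  have := D.tor.tm.2
  refine (congrArg H.MemM ?_).mpr this
  rw [← map_inv, Units.val_mul, Units.val_mul, rho_val (mem_XX D.χ), Finset.mul_sum,
    Finset.sum_mul, tmat]
  refine Finset.sum_congr rfl fun δ _ => ?_
  rw [Matrix.mul_smul, Matrix.smul_mul, Matrix.map_mul, Matrix.map_mul]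
  rfl

theorem conj_comm {M : Type*} [Monoid M] (g r : Mˣ) (z : M)
    (h : ((g * r * g⁻¹ : Mˣ) : M) * z = z * ((g * r * g⁻¹ : Mˣ) : M)) :
    (r : M) * (((g⁻¹ : Mˣ) : M) * z * g) = ((g⁻¹ : Mˣ) : M) * z * g * r := by
  have := congrArg (fun x => ((g⁻¹ : Mˣ) : M) * x * (g : M)) h
  simp only [Units.val_mul, mul_assoc, Units.inv_mul_cancel_left, Units.inv_mul, mul_one]
    at this ⊢
  exact this

theorem cent_inL {ζ : Mat n k} (hζ : H.Cent ζ) {γ : GL (Fin n) A} {c : Fin n → Γ}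
    (h : H.Fixed c (H.act γ⁻¹ (H.pt A))) :
    InL c (((γ⁻¹ : GL (Fin n) A) : Mat n A) * ζ.map (algebraMap k A) * (γ : Mat n A)) := by
  set f := IsScalarTower.toAlgHom k A (GA A Γ) with hf
  have h1 := (hζ _ _ ((fixed_frame γ c).1 h)).eq
  have e0 : ζ.map (algebraMap k (GA A Γ)) = (ζ.map (algebraMap k A)).map f :=
    Matrix.ext fun i j => (f.commutes _).symm
  have h2 : ((rho A c : GL (Fin n) (GA A Γ)) : Mat n (GA A Γ)) *
      (((γ⁻¹ : GL (Fin n) A) : Mat n A) * ζ.map (algebraMap k A) * (γ : Mat n A)).map f =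
      (((γ⁻¹ : GL (Fin n) A) : Mat n A) * ζ.map (algebraMap k A) * (γ : Mat n A)).map f *
      ((rho A c : GL (Fin n) (GA A Γ)) : Mat n (GA A Γ)) := by
    rw [Matrix.map_mul, Matrix.map_mul, ← e0, ← gm_val, ← gm_val, map_inv]
    exact conj_comm _ _ _ h1
  intro i j hij
  have h3 := congrFun (congrFun h2 i) j
  have e1 : ((rho A c : GL (Fin n) (GA A Γ)) : Mat n (GA A Γ)) =
      diagonal fun i => AddMonoidAlgebra.single (c i) (1 : A) := rfl
  rw [e1, diagonal_mul, mul_diagonal, map_apply] at h3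
  generalize (((γ⁻¹ : GL (Fin n) A) : Mat n A) * ζ.map (algebraMap k A) * (γ : Mat n A)) i j = x
    at h3 ⊢
  have h4 := congrArg (fun z : GA A Γ => z.coeff (c i)) h3
  simpa [hf, AddMonoidAlgebra.coe_algebraMap, AddMonoidAlgebra.single_mul_single, hij] using h4

theorem cj_comm {ι : Type} [DecidableEq ι] {c : Fin n → ι} {γ : GL (Fin n) A} {Z : Mat n A}
    (h : InL c (((γ⁻¹ : GL (Fin n) A) : Mat n A) * Z * (γ : Mat n A))) (x : ι) :
    Z * ((γ : Mat n A) * eps A c x * ((γ⁻¹ : GL (Fin n) A) : Mat n A)) =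
      (γ : Mat n A) * eps A c x * ((γ⁻¹ : GL (Fin n) A) : Mat n A) * Z := by
  have := congrArg (fun M => (γ : Mat n A) * M * ((γ⁻¹ : GL (Fin n) A) : Mat n A)) (eps_comm h x)
  simp only [mul_assoc, Units.mul_inv_cancel_left, Units.mul_inv, mul_one] at this ⊢
  exact this

theorem lamE_es (D : H.Datum) (ι : D.l →ₐ[k] A) (a : (Fin D.r → ℤ) → ℤ) (m : ℤ) :
    lamE D.χ (D.es ι) a m = ((gm ι D.γ : GL (Fin n) A) : Mat n A) *
      eps A (fun i => a (D.χ i)) m * (((gm ι D.γ)⁻¹ : GL (Fin n) A) : Mat n A) := by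
  unfold lamE HS.Datum.es
  rw [← Finset.sum_mul, ← Finset.mul_sum, sum_eps D.χ _ (mem_XX D.χ)]
  rfl

theorem chG_cj (γ : GL (Fin n) A) (Z e : Mat n A) :
    chG (((γ⁻¹ : GL (Fin n) A) : Mat n A) * Z * (γ : Mat n A)) e =
      chG Z ((γ : Mat n A) * e * ((γ⁻¹ : GL (Fin n) A) : Mat n A)) := by
  rw [← chG_conj (g := (γ : Mat n A)) (g' := ((γ⁻¹ : GL (Fin n) A) : Mat n A)) γ.inv_mul]
  simp only [mul_assoc, Units.mul_inv_cancel_left, Units.mul_inv, mul_one]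

theorem bas_of_isBas {Hh : A[X]} {P : Mat n A[X]} {ι : Type} [Fintype ι] {q : ι → Fin n → A[X]}
    (h : IsBas Hh P q) :
    Bas A (P.map (AdjoinRoot.mk Hh)) fun j i => AdjoinRoot.mk Hh (q j i) := by
  have key : ∀ (t : ι → A) (η : Fin n → A[X]) (i : Fin n),
      AdjoinRoot.mk Hh ((∑ j, t j • q j + P *ᵥ η) i) =
      (∑ j, t j • (fun i => AdjoinRoot.mk Hh (q j i)) +
        P.map (AdjoinRoot.mk Hh) *ᵥ fun i => AdjoinRoot.mk Hh (η i)) i := by
    intro t η i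
    simp only [Pi.add_apply, Finset.sum_apply, Pi.smul_apply, map_add, map_sum, AdjoinRoot.smul_mk,
      mulVec, dotProduct, map_apply, map_mul]
  refine ⟨fun v => ?_, fun t η h0 => ?_⟩
  · choose w hw using fun i => AdjoinRoot.mk_surjective (v i)
    obtain ⟨t, η, θ, e⟩ := h.1 w
    refine ⟨t, fun i => AdjoinRoot.mk Hh (η i), funext fun i => ?_⟩
    rw [← key, ← hw, e, Pi.add_apply, map_add, Pi.smul_apply, smul_eq_mul, map_mul,
      AdjoinRoot.mk_self, zero_mul, add_zero]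
  · choose w hw using fun i => AdjoinRoot.mk_surjective (η i)
    obtain rfl : η = fun i => AdjoinRoot.mk Hh (w i) := funext fun i => (hw i).symm
    have h1 : ∀ i, Hh ∣ (∑ j, t j • q j + P *ᵥ w) i := fun i => by
      rw [← AdjoinRoot.mk_eq_zero, key, h0, Pi.zero_apply]
    choose θ hθ using h1
    refine h.2 t w (-θ) (funext fun i => ?_)
    rw [Pi.add_apply, hθ, Pi.smul_apply, Pi.neg_apply, smul_eq_mul, mul_neg, add_neg_cancel,
      Pi.zero_apply]

theorem repB_of_rep {Hh : A[X]} {P : Mat n A[X]} {ι : Type} [Fintype ι] {q : ι → Fin n → A[X]}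
    {ζ : Mat n A} {Z : Matrix ι ι A} (h : Rep Hh P q ζ Z) :
    RepB (P.map (AdjoinRoot.mk Hh)) (fun j i => AdjoinRoot.mk Hh (q j i))
      (ζ.map (algebraMap A (AdjoinRoot Hh))) Z := by
  intro j
  obtain ⟨η, θ, e⟩ := h j
  refine ⟨fun i => AdjoinRoot.mk Hh (η i), funext fun i => ?_⟩
  have := congrArg (AdjoinRoot.mk Hh) (congrFun e i)
  simp only [Pi.add_apply, Finset.sum_apply, Pi.smul_apply, map_add, map_sum, AdjoinRoot.smul_mk,
    mulVec, dotProduct, map_apply, map_mul, smul_eq_mul, AdjoinRoot.mk_self, zero_mul,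
    add_zero, AdjoinRoot.mk_C] at this ⊢
  exact this

theorem phm_es (D : H.Datum) (ι : D.l →ₐ[k] A) (p : (Fin D.r → ℤ) → A[X]) {B : Type u}
    [CommRing B] (f : A[X] →+* B) : (phm D.χ (D.es ι) p).map f =
      ((gm ι D.γ : GL (Fin n) A) : Mat n A).map (f.comp C) * diagonal (fun i => f (p (D.χ i))) *
        (((gm ι D.γ)⁻¹ : GL (Fin n) A) : Mat n A).map (f.comp C) := by
  have e : diagonal (fun i => f (p (D.χ i))) =
      ∑ x ∈ XX D.χ, f (p x) • (eps A D.χ x).map (f.comp C) := by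
    ext i j
    rw [Matrix.sum_apply]
    by_cases hij : i = j
    · subst hij
      rw [diagonal_apply_eq, Finset.sum_eq_single (D.χ i)]
      · simp [eps]
      · intro x _ hx
        simp [eps, hx.symm]
      · exact fun h => absurd (mem_XX D.χ i) h
    · simp [eps, hij]
  rw [e, Finset.mul_sum, Finset.sum_mul, phm]
  have e2 : ∀ x, f (p x) • (D.es ι x).map (f.comp C) = (p x • (D.es ι x).map C).map f :=
    fun x => Matrix.ext fun i j => (map_mul f _ _).symm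
  rw [← RingHom.mapMatrix_apply, map_sum]
  refine Finset.sum_congr rfl fun x _ => ?_
  rw [RingHom.mapMatrix_apply, ← e2, Matrix.mul_smul, Matrix.smul_mul, HS.Datum.es,
    Matrix.map_mul, Matrix.map_mul]

theorem typ_charpoly [Nontrivial A] (D : H.Datum) (ι : D.l →ₐ[k] A) {h : A[X]} {M : ℕ}
    {P₁ : Mat n A[X]} {a : (Fin D.r → ℤ) →+ ℤ} {p : (Fin D.r → ℤ) → A[X]}
    (hT : H.Typ D ι h M P₁ a p) {ζ : Mat n k} (hζ : H.Cent ζ) {κ : Type} [Fintype κ]
    [DecidableEq κ] {q : κ → Fin n → A[X]} (hq : IsBas (h ^ (2 * M)) P₁ q) {Z : Matrix κ κ A}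
    (hZ : Rep (h ^ (2 * M)) P₁ q (ζ.map (algebraMap k A)) Z) :
    Z.charpoly = ∏ x ∈ XX D.χ, chG (ζ.map (algebraMap k A)) (D.es ι x) ^ (p x).natDegree := by
  obtain ⟨g, kk, hg, hP⟩ := hT.fac
  set f := algebraMap A (AdjoinRoot (h ^ (2 * M))) with hf
  have ef : (AdjoinRoot.mk (h ^ (2 * M))).comp C = f := rfl
  rw [phm_es, ef] at hP
  set γ := gm ι D.γ
  have e1 : ((γ⁻¹ : GL (Fin n) A) : Mat n A).map f * (γ : Mat n A).map f = 1 := by
    rw [← Matrix.map_mul, Units.inv_mul, Matrix.map_one _ (map_zero _) (map_one _)]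
  have e2 : (γ : Mat n A).map f * ((γ⁻¹ : GL (Fin n) A) : Mat n A).map f = 1 :=
    mul_eq_one_comm.1 e1
  have e3 : ζ.map (algebraMap k (AdjoinRoot (h ^ (2 * M)))) = (ζ.map (algebraMap k A)).map f :=
    Matrix.ext fun i j => IsScalarTower.algebraMap_apply k A _ _
  have hc := (hζ _ g hg).eq
  rw [e3] at hc
  rw [charpoly_typ (h ^ (2 * M)) D.χ (XX D.χ) (mem_XX D.χ) p hT.monic hT.dvd
    (G := (g : Mat n _) * (γ : Mat n A).map f)
    (G' := ((γ⁻¹ : GL (Fin n) A) : Mat n A).map f * ((g⁻¹ : GL (Fin n) _) : Mat n _))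
    (K := ((γ⁻¹ : GL (Fin n) A) : Mat n A).map f * (kk : Mat n _))
    (K' := ((kk⁻¹ : GL (Fin n) _) : Mat n _) * (γ : Mat n A).map f)
    (by rw [hP]; simp only [mul_assoc])
    (by rw [mul_assoc, Units.inv_mul_cancel_left, e1])
    (by rw [mul_assoc, Units.mul_inv_cancel_left, e1])
    (cent_inL hζ (datum_fixed D ι))
    (by
      rw [← mul_assoc, ← hc, Matrix.map_mul, Matrix.map_mul, mul_assoc, mul_assoc, ← mul_assoc,
        ← mul_assoc ((γ : Mat n A).map f), ← mul_assoc ((γ : Mat n A).map f), e2, one_mul,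
        mul_assoc])
    (bas_of_isBas hq) (repB_of_rep hZ)]
  refine Finset.prod_congr rfl fun x _ => ?_
  rw [chG_cj]
  rfl

end Pool.Agent.GR.KC
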