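import Mathlib

/-! Valuation rings of finitely generated fields have finite rank; the steps are archimedean. -/

open IsLocalRing

universe u

namespace Pool.Agent.GR

variable {k K : Type u} [Field k] [Field K] [Algebra k K]

theorem val_eq_one {S : ValuationSubring K} {x : K} (h0 : x ≠ 0) (h1 : x ∈ S) (h2 : x⁻¹ ∈ S) :
    S.valuation x = 1 := by
  refine le_antisymm ((S.valuation_le_one_iff x).2 h1) ?_
  have := (S.valuation_le_one_iff _).2 h2
  rw [map_inv₀] at this
  exact (inv_le_one₀ (zero_lt_iff.2 ((Valuation.ne_zero_iff _).2 h0))).1 this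

theorem algInd_of_chain {ι : Type} [LinearOrder ι] (V : ValuationSubring K)
    (hk : ∀ c, algebraMap k K c ∈ V) (lo hi : ι → ValuationSubring K) (a : ι → K)
    (hV : ∀ i, V ≤ lo i) (hl : ∀ i, lo i ≤ hi i) (h1 : ∀ i, a i ∈ hi i) (h2 : ∀ i, a i ∉ lo i)
    (h3 : ∀ i j, i < j → hi i ≤ lo j) : AlgebraicIndependent k a := by
  classical
  have a0 : ∀ i, a i ≠ 0 := fun i h => h2 i (h ▸ (lo i).zero_mem)
  have ai : ∀ i, (a i)⁻¹ ∈ lo i := fun i => ((lo i).mem_or_inv_mem _).resolve_left (h2 i)
  have key : ∀ m m' : ι →₀ ℕ, V.valuation (m.prod fun i e => a i ^ e) =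
      V.valuation (m'.prod fun i e => a i ^ e) → m = m' := by
    intro m m' h
    by_contra hne
    set s := m.support ∪ m'.support with hs
    have hd : (s.filter fun i => m i ≠ m' i).Nonempty := by
      obtain ⟨i, hi⟩ := DFunLike.ne_iff.1 hne
      refine ⟨i, Finset.mem_filter.2 ⟨?_, hi⟩⟩
      by_contra hc
      simp only [hs, Finset.mem_union, Finsupp.mem_support_iff, not_or, not_not] at hc
      exact hi (hc.1.trans hc.2.symm)
    obtain ⟨j, hj, hmax⟩ := Finset.exists_max_image _ id hd
    obtain ⟨hjs, hj⟩ := Finset.mem_filter.1 hj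
    have h' := congrArg (V.mapOfLE (lo j) (hV j)) h
    rw [ValuationSubring.mapOfLE_valuation_apply, ValuationSubring.mapOfLE_valuation_apply,
      Finsupp.prod_of_support_subset m (s := s) Finset.subset_union_left _ (fun _ _ => pow_zero _),
      Finsupp.prod_of_support_subset m' (s := s) Finset.subset_union_right _
        (fun _ _ => pow_zero _), map_prod, map_prod, ← Finset.mul_prod_erase _ _ hjs,
      ← Finset.mul_prod_erase _ _ hjs] at h'
    have e : ∏ i ∈ s.erase j, (lo j).valuation (a i ^ m i) =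
        ∏ i ∈ s.erase j, (lo j).valuation (a i ^ m' i) := by
      refine Finset.prod_congr rfl fun i hi => ?_
      obtain ⟨hij, his⟩ := Finset.mem_erase.1 hi
      by_cases c : m i = m' i
      · rw [c]
      · have lt : i < j := lt_of_le_of_ne (hmax i (Finset.mem_filter.2 ⟨his, c⟩)) hij
        have := val_eq_one (a0 i) (h3 i j lt (h1 i)) (h3 i j lt (hl i (ai i)))
        rw [map_pow, map_pow, this, one_pow, one_pow]
    rw [e] at h'
    have nz : ∏ i ∈ s.erase j, (lo j).valuation (a i ^ m' i) ≠ 0 :=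
      Finset.prod_ne_zero_iff.2 fun i _ => (Valuation.ne_zero_iff _).2 (pow_ne_zero _ (a0 i))
    have h'' := mul_right_cancel₀ nz h'
    rw [map_pow, map_pow] at h''
    have gt : 1 < (lo j).valuation (a j) :=
      not_le.1 fun c => h2 j (((lo j).valuation_le_one_iff _).1 c)
    exact hj (pow_right_injective₀ (zero_lt_one.trans gt) gt.ne' h'')
  rw [algebraicIndependent_iff]
  intro p hp
  by_contra h0
  have vc : ∀ m ∈ p.support, V.valuation (algebraMap k K (p.coeff m) * m.prod fun i e => a i ^ e)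
      = V.valuation (m.prod fun i e => a i ^ e) := fun m hm => by
    have c0 : p.coeff m ≠ 0 := MvPolynomial.mem_support_iff.1 hm
    rw [map_mul, val_eq_one ((_root_.map_ne_zero _).2 c0) (hk _) (by rw [← map_inv₀]; exact hk _),
      one_mul]
  obtain ⟨m, hm, hmax⟩ := Finset.exists_max_image p.support
    (fun m => V.valuation (m.prod fun i e => a i ^ e)) (MvPolynomial.support_nonempty.2 h0)
  rw [MvPolynomial.aeval_def, MvPolynomial.eval₂_eq] at hp
  have := V.valuation.map_sum_eq_of_lt (s := p.support)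
    (f := fun m => algebraMap k K (p.coeff m) * m.prod fun i e => a i ^ e) hm fun m' hm' => by
      obtain ⟨h4, h5⟩ := Finset.mem_sdiff.1 hm'
      rw [vc m hm, vc m' h4]
      exact lt_of_le_of_ne (hmax m' h4) fun c => h5 (Finset.mem_singleton.2 (key _ _ c))
  rw [vc m hm] at this
  have e : (∑ m ∈ p.support, algebraMap k K (p.coeff m) * m.prod fun i e => a i ^ e) = 0 := hp
  rw [e, map_zero] at this
  exact (Valuation.ne_zero_iff _).2
    (Finset.prod_ne_zero_iff.2 fun i _ => pow_ne_zero _ (a0 i)) this.symm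

/-- Descending induction along the overrings of a valuation ring of a finitely generated field. -/
theorem rank_induction [FinTrdeg k K] (V : ValuationSubring K) (hk : ∀ c, algebraMap k K c ∈ V)
    (P : ValuationSubring K → Prop) (top : P ⊤)
    (step : ∀ S S', V ≤ S → S ⋖ S' → P S' → P S) : P V := by
  have up : WellFoundedGT {S // V ≤ S} := by
    refine ⟨RelEmbedding.wellFounded_iff_isEmpty.2 ⟨fun f => ?_⟩⟩
    have hf : StrictMono f := fun i j h => f.map_rel_iff.2 h
    choose a h1 h2 using fun i : ℕ =>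
      SetLike.exists_of_lt (show (f i).1 < (f (i + 1)).1 from hf (Nat.lt_succ_self i))
    have := finite_of_algebraicIndependent (algInd_of_chain V hk (fun i => (f i).1)
      (fun i => (f (i + 1)).1) a (fun i => (f i).2) (fun i => (hf (Nat.lt_succ_self i)).le) h1 h2
      fun i j h => hf.monotone h)
    exact not_finite ℕ
  have down : WellFoundedLT {S // V ≤ S} := by
    refine ⟨RelEmbedding.wellFounded_iff_isEmpty.2 ⟨fun f => ?_⟩⟩
    have hf : StrictAnti f := fun i j h => f.map_rel_iff.2 h
    choose a h1 h2 using fun i : ℕ =>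
      SetLike.exists_of_lt (show (f (i + 1)).1 < (f i).1 from hf (Nat.lt_succ_self i))
    have := finite_of_algebraicIndependent (algInd_of_chain (ι := ℕᵒᵈ) V hk
      (fun i => (f (OrderDual.ofDual i + 1)).1) (fun i => (f (OrderDual.ofDual i)).1) a
      (fun i => (f _).2) (fun i => (hf (Nat.lt_succ_self _)).le) h1 h2
      fun i j h => hf.antitone h)
    exact not_finite ℕᵒᵈ
  have : ∀ S : {S // V ≤ S}, P S.1 := fun S => by
    induction S using WellFoundedGT.induction with
    | ind S ih =>
      by_cases c : S.1 = ⊤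
      · rwa [c]
      · obtain ⟨S', h1, h2⟩ := WellFounded.has_min down.wf {T | S < T}
          ⟨⟨⊤, le_top⟩, lt_top_iff_ne_top.2 c⟩
        refine step S.1 S'.1 S.2 ⟨h1, fun T a b => ?_⟩ (ih S' h1)
        exact h2 ⟨T, S.2.trans a.le⟩ a b
  exact this ⟨V, le_rfl⟩

/-- The image of `S` in the residue field of an overring. -/
noncomputable def resid (S S' : ValuationSubring K) : ValuationSubring (ResidueField S') where
  toSubring := (S.toSubring.comap S'.subtype).map (residue S')
  mem_or_inv_mem' x := by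
    obtain ⟨s, rfl⟩ := residue_surjective x
    by_cases h0 : residue S' s = 0
    · exact Or.inl (h0 ▸ Subring.zero_mem _)
    rcases S.mem_or_inv_mem s with h | h
    · exact Or.inl ⟨s, h, rfl⟩
    · obtain ⟨t, ht⟩ := ((residue_ne_zero_iff_isUnit s).1 h0).exists_right_inv
      have e : (t : K) = (s : K)⁻¹ := eq_inv_of_mul_eq_one_right (congrArg Subtype.val ht)
      refine Or.inr ⟨t, show (t : K) ∈ S from e ▸ h, ?_⟩
      exact eq_inv_of_mul_eq_one_right (by rw [← map_mul, ht, map_one])

theorem mem_resid {S S' : ValuationSubring K} (h : S ≤ S') (s : S') :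
    residue S' s ∈ resid S S' ↔ (s : K) ∈ S := by
  refine ⟨?_, fun hs => ⟨s, hs, rfl⟩⟩
  rintro ⟨t, ht, e⟩
  have h1 : s - t ∈ maximalIdeal S' := by
    rw [← residue_eq_zero_iff, map_sub, e, sub_self]
  have h2 : ((s - t : S') : K) ∈ S := S.nonunits_subset
    (ValuationSubring.nonunits_le_nonunits.2 h (ValuationSubring.coe_mem_nonunits_iff.2 h1))
  have := S.add_mem _ _ h2 ht
  simpa using this

/-- The map from `S` to its image. -/
noncomputable def toResid {S S' : ValuationSubring K} (h : S ≤ S') : S →+* resid S S' :=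
  ((residue S').comp (S.inclusion S' h)).codRestrict (resid S S').toSubring
    fun s => (mem_resid h _).2 s.2

theorem toResid_coe {S S' : ValuationSubring K} (h : S ≤ S') (s : S) :
    (toResid h s : ResidueField S') = residue S' (S.inclusion S' h s) := rfl

theorem resid_arch {S S' : ValuationSubring K} (h : S ⋖ S') (a b : resid S S')
    (ha : a ∈ maximalIdeal (resid S S')) (hb : b ≠ 0) : ∃ N : ℕ, b ∣ a ^ N := by
  by_cases a0 : a = 0
  · exact ⟨1, by simp [a0]⟩
  obtain ⟨_, s, hs, rfl⟩ := a
  obtain ⟨_, t, ht, rfl⟩ := b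
  obtain ⟨s', hs'⟩ := ((residue_ne_zero_iff_isUnit s).1
    fun c => a0 (Subtype.ext c)).exists_right_inv
  obtain ⟨t', ht'⟩ := ((residue_ne_zero_iff_isUnit t).1
    fun c => hb (Subtype.ext c)).exists_right_inv
  have hsK : (s : K) * s' = 1 := congrArg Subtype.val hs'
  have hsS : (s : K) ∈ S := hs
  have ns : (s' : K) ∉ S := fun c => ha (IsUnit.of_mul_eq_one ⟨_, (mem_resid h.le s').2 c⟩
    (Subtype.ext (by
      show residue S' s * residue S' s' = 1
      rw [← map_mul, hs', map_one])))
  let T0 : Subring K :=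
    { carrier := {x | ∃ N : ℕ, (s : K) ^ N * x ∈ S}
      zero_mem' := ⟨0, by simp [S.zero_mem]⟩
      one_mem' := ⟨0, by simp [S.one_mem]⟩
      neg_mem' := fun ⟨N, c⟩ => ⟨N, by rw [mul_neg]; exact neg_mem c⟩
      add_mem' := fun {x y} ⟨N, c⟩ ⟨M, d⟩ => ⟨N + M, by
        have : (s : K) ^ (N + M) * (x + y) = s ^ M * (s ^ N * x) + s ^ N * (s ^ M * y) := by ring
        rw [this]
        exact add_mem (mul_mem (pow_mem hsS _) c) (mul_mem (pow_mem hsS _) d)⟩
      mul_mem' := fun {x y} ⟨N, c⟩ ⟨M, d⟩ => ⟨N + M, by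
        have : (s : K) ^ (N + M) * (x * y) = s ^ N * x * (s ^ M * y) := by ring
        rw [this]
        exact mul_mem c d⟩ }
  let T : ValuationSubring K := S.ofLE T0 fun x hx => ⟨0, by simpa using hx⟩
  have h0 : (s' : K) ∈ T := ⟨1, by rw [pow_one, hsK]; exact S.one_mem⟩
  have h1 : S < T := SetLike.lt_iff_le_and_exists.2
    ⟨fun x hx => ⟨0, by simpa using hx⟩, (s' : K), h0, ns⟩
  have h2 : T ≤ S' := by
    rintro x ⟨N, c⟩
    have : x = (s' : K) ^ N * (s ^ N * x) := by
      rw [← mul_assoc, ← mul_pow, mul_comm (s' : K), hsK, one_pow, one_mul]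
    rw [this]
    exact mul_mem (pow_mem s'.2 _) (h.le c)
  have h3 : T = S' := eq_of_le_of_not_lt h2 (h.2 h1)
  obtain ⟨N, c⟩ : (t' : K) ∈ T := h3.ge t'.2
  refine ⟨N, ⟨_, (mem_resid h.le (s ^ N * t')).2 (by simpa using c)⟩, Subtype.ext ?_⟩
  show residue S' s ^ N = residue S' t * residue S' (s ^ N * t')
  rw [← map_mul, mul_left_comm, ht', mul_one, map_pow]

end Pool.Agent.GR
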