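import Pool.Agent.P.MP_c1f06d_ag.r.Defs
import Pool.Agent.P.MP_c1f06d_ag.r.Rank

/-! From archimedean valuation rings to all valuation rings. -/

open Matrix IsLocalRing

universe u

namespace Pool.Agent.GR

variable {k : Type u} [Field k] {n : ℕ}

theorem exists_gm_eq {A A' : Type u} [CommRing A] [Algebra k A] [CommRing A'] [Algebra k A']
    (f : A →ₐ[k] A') (hf : Function.Injective f) (g : GL (Fin n) A')
    (h1 : ∀ i j, ∃ a, f a = (g : Mat n A') i j)
    (h2 : ∀ i j, ∃ a, f a = ((g⁻¹ : GL (Fin n) A') : Mat n A') i j) : ∃ g0, gm f g0 = g := by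
  choose a ha using h1
  choose b hb using h2
  have inj : Function.Injective (f.mapMatrix : Mat n A → Mat n A') := fun x y h => by
    ext i j
    exact hf (congrFun (congrFun h i) j)
  have ea : f.mapMatrix (of a) = (g : Mat n A') := by ext i j; exact ha i j
  have eb : f.mapMatrix (of b) = ((g⁻¹ : GL (Fin n) A') : Mat n A') := by ext i j; exact hb i j
  refine ⟨⟨of a, of b, inj ?_, inj ?_⟩, Units.ext ea⟩
  · rw [map_mul, ea, eb, map_one, Units.mul_inv]
  · rw [map_mul, ea, eb, map_one, Units.inv_mul]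

theorem exists_comp_eq {B A A' : Type u} [CommRing B] [Algebra k B] [CommRing A] [Algebra k A]
    [CommRing A'] [Algebra k A'] (f : A →ₐ[k] A') (hf : Function.Injective f) (y : B →ₐ[k] A')
    (h : ∀ b, ∃ a, f a = y b) : ∃ y0 : B →ₐ[k] A, f.comp y0 = y := by
  refine ⟨(AlgEquiv.ofInjective f hf).symm.toAlgHom.comp (y.codRestrict f.range h), ?_⟩
  ext b
  exact congrArg Subtype.val
    ((AlgEquiv.ofInjective f hf).apply_symm_apply (y.codRestrict f.range h b))

namespace HS

variable (H : HS k n)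

theorem comp_pt' {A A' : Type u} [CommRing A] [Algebra k A] [CommRing A'] [Algebra k A']
    (f : A →ₐ[k] A') : f.comp (H.pt A) = H.pt A' := by
  ext b
  exact f.commutes _

theorem act_eq_pt_of_inj {A A' : Type u} [CommRing A] [Algebra k A] [CommRing A'] [Algebra k A']
    (f : A →ₐ[k] A') (hf : Function.Injective f) {g : GL (Fin n) A} {y : H.B →ₐ[k] A}
    (h : H.act (gm f g) (f.comp y) = H.pt A') : H.act g y = H.pt A := by
  rw [← H.act_nat, ← H.comp_pt' f] at h
  ext b
  exact hf (DFunLike.congr_fun h b)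

/-- The statement for archimedean valuation rings, with lifts to a local ring. -/
def R1St : Prop :=
  ∀ (W F O : Type u) [CommRing W] [IsDomain W] [ValuationRing W] [Algebra k W] [Field F]
    [Algebra W F] [IsFractionRing W F] [Algebra k F] [IsScalarTower k W F] [CommRing O]
    [IsLocalRing O] [Algebra k O] (ρ : O →ₐ[k] F), Function.Surjective ρ →
    (∀ x, ρ x ≠ 0 → IsUnit x) →
    (∀ a ∈ maximalIdeal W, ∀ b : W, b ≠ 0 → ∃ N : ℕ, b ∣ a ^ N) →
    ∀ (y1 : H.B →ₐ[k] W) (σ : GL (Fin n) F),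
      H.act σ ((IsScalarTower.toAlgHom k W F).comp y1) = H.pt F →
      ∃ τ ∈ H.G O, ∃ g : GL (Fin n) W, gm (IsScalarTower.toAlgHom k W F) g = (gm ρ τ)⁻¹ * σ

theorem k1_step (hR : H.R1St) {K : Type u} [Field K] [Algebra k K] {S S' : ValuationSubring K}
    (hS : S ⋖ S') (hk : ∀ c, algebraMap k K c ∈ S) (y : H.B →ₐ[k] K) (hy : ∀ b, y b ∈ S)
    (g : GL (Fin n) K) (h1 : ∀ i j, (g : Mat n K) i j ∈ S')
    (h2 : ∀ i j, ((g⁻¹ : GL (Fin n) K) : Mat n K) i j ∈ S') (hg : H.act g y = H.pt K) :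
    ∃ g : GL (Fin n) K, (∀ i j, (g : Mat n K) i j ∈ S) ∧
      (∀ i j, ((g⁻¹ : GL (Fin n) K) : Mat n K) i j ∈ S) ∧ H.act g y = H.pt K := by
  let : Algebra k S' :=
    ((algebraMap k K).codRestrict S'.toSubring fun c => hS.le (hk c)).toAlgebra
  let ι : S' →ₐ[k] K := { S'.subtype with commutes' := fun _ => rfl }
  have hι : Function.Injective ι := Subtype.val_injective
  let ρ : S' →ₐ[k] ResidueField S' := { residue S' with commutes' := fun _ => rfl }
  let : Algebra k (resid S S') :=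
    ((algebraMap k (ResidueField S')).codRestrict (resid S S').toSubring
      fun c => (mem_resid hS.le (algebraMap k S' c)).2 (hk c)).toAlgebra
  have : IsScalarTower k (resid S S') (ResidueField S') := .of_algebraMap_eq fun _ => rfl
  obtain ⟨g0, rfl⟩ := exists_gm_eq ι hι g (fun i j => ⟨⟨_, h1 i j⟩, rfl⟩)
    fun i j => ⟨⟨_, h2 i j⟩, rfl⟩
  obtain ⟨y0, rfl⟩ := exists_comp_eq ι hι y fun b => ⟨⟨_, hS.le (hy b)⟩, rfl⟩
  have hg0 := H.act_eq_pt_of_inj ι hι hg
  obtain ⟨y1, hy1⟩ := exists_comp_eq (IsScalarTower.toAlgHom k (resid S S') (ResidueField S'))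
    Subtype.val_injective (ρ.comp y0) fun b => ⟨⟨_, (mem_resid hS.le (y0 b)).2 (hy b)⟩, rfl⟩
  obtain ⟨τ, hτ, g1, e⟩ := hR (resid S S') (ResidueField S') S' ρ residue_surjective
    (fun x hx => (residue_ne_zero_iff_isUnit x).1 hx) (fun a ha b => resid_arch hS a b ha) y1 (gm ρ g0)
    (by rw [hy1, ← H.act_nat, hg0, H.comp_pt'])
  rw [← map_inv, ← map_mul] at e
  have mem : ∀ (a : GL (Fin n) (resid S S')) (b : GL (Fin n) S'),
      gm (IsScalarTower.toAlgHom k (resid S S') (ResidueField S')) a = gm ρ b →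
      ∀ i j, ((gm ι b : GL (Fin n) K) : Mat n K) i j ∈ S := fun a b h i j => by
    have := congrArg (fun g : GL (Fin n) (ResidueField S') => (g : Mat n (ResidueField S')) i j) h
    refine (mem_resid hS.le ((b : Mat n S') i j)).1 ?_
    have e1 : residue S' ((b : Mat n S') i j) = ((a : Mat n (resid S S')) i j : _) := this.symm
    rw [e1]
    exact Subtype.prop _
  refine ⟨gm ι (τ⁻¹ * g0), mem _ _ e, ?_, ?_⟩
  · rw [← map_inv]
    exact mem g1⁻¹ _ (by rw [map_inv, e, ← map_inv])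
  · have : H.act τ⁻¹ (H.pt S') = H.pt S' := (H.G S').inv_mem hτ
    rw [← H.act_nat, H.act_mul, hg0, this, H.comp_pt']

/-- A generically trivial point over a valuation ring is trivial. -/
theorem k1_of_r1 (hR : H.R1St) (V F : Type u) [CommRing V] [IsDomain V] [ValuationRing V]
    [Algebra k V] [Field F] [Algebra V F] [IsFractionRing V F] [Algebra k F]
    [IsScalarTower k V F] (y1 : H.B →ₐ[k] V) (σ : GL (Fin n) F)
    (hσ : H.act σ ((IsScalarTower.toAlgHom k V F).comp y1) = H.pt F) : H.Triv y1 := by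
  classical
  obtain ⟨s, hs⟩ := (H.ft).out
  set y := (IsScalarTower.toAlgHom k V F).comp y1 with hy
  let T : Set F := (Set.range fun p : Fin n × Fin n => (σ : Mat n F) p.1 p.2) ∪
    (Set.range fun p : Fin n × Fin n => ((σ⁻¹ : GL (Fin n) F) : Mat n F) p.1 p.2) ∪ y '' s
  have hT : T.Finite := ((Set.finite_range _).union (Set.finite_range _)).union
    (s.finite_toSet.image _)
  let K := IntermediateField.adjoin k T
  have : Algebra.EssFiniteType k K :=
    IntermediateField.essFiniteType_iff.2 (IntermediateField.fg_adjoin_of_finite hT)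
  have hι : Function.Injective K.val := Subtype.val_injective
  have inK : ∀ x ∈ T, ∃ a, K.val a = x := fun x hx =>
    ⟨⟨x, IntermediateField.subset_adjoin k T hx⟩, rfl⟩
  obtain ⟨σ0, hσ0⟩ := exists_gm_eq K.val hι σ (fun i j => inK _ (.inl (.inl ⟨(i, j), rfl⟩)))
    fun i j => inK _ (.inl (.inr ⟨(i, j), rfl⟩))
  obtain ⟨y0, hy0⟩ := exists_comp_eq K.val hι y fun b => by
    have : Algebra.adjoin k (s : Set H.B) ≤ K.val.range.comap y :=
      Algebra.adjoin_le fun b hb => inK _ (.inr ⟨b, hb, rfl⟩)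
    exact this (hs ▸ Algebra.mem_top)
  let V1 : ValuationSubring F := .ofSubring (algebraMap V F).range
    fun x => ValuationRing.isInteger_or_isInteger V x
  let V0 : ValuationSubring K := V1.comap (K.val : K →+* F)
  have hk : ∀ c, algebraMap k K c ∈ V0 := fun c =>
    ⟨algebraMap k V c, (IsScalarTower.algebraMap_apply k V F c).symm⟩
  have hyV : ∀ b, y0 b ∈ V0 := fun b => ⟨y1 b, (DFunLike.congr_fun hy0 b).symm⟩
  obtain ⟨g, h1, h2, hg⟩ := rank_induction V0 hk
    (fun S => ∃ g : GL (Fin n) K, (∀ i j, (g : Mat n K) i j ∈ S) ∧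
      (∀ i j, ((g⁻¹ : GL (Fin n) K) : Mat n K) i j ∈ S) ∧ H.act g y0 = H.pt K)
    ⟨σ0, fun _ _ => trivial, fun _ _ => trivial,
      H.act_eq_pt_of_inj K.val hι (by rw [hσ0, hy0, hσ])⟩
    fun S S' hV hS ⟨g, h1, h2, hg⟩ =>
      H.k1_step hR hS (fun c => hV (hk c)) y0 (fun b => hV (hyV b)) g h1 h2 hg
  have hj : Function.Injective (IsScalarTower.toAlgHom k V F) := IsFractionRing.injective V F
  obtain ⟨g0, hg0⟩ := exists_gm_eq (IsScalarTower.toAlgHom k V F) hj (gm K.val g) h1
    (by rw [← map_inv]; exact h2)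
  refine ⟨g0, H.act_eq_pt_of_inj _ hj ?_⟩
  rw [hg0, ← hy, ← hy0, ← H.act_nat, hg, H.comp_pt']

end HS

end Pool.Agent.GR
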