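import Pool.Agent.P.MP_c1f06d_ag.r.K2Defs

open Matrix Polynomial

universe u

namespace Pool.Agent.GR

section res

variable {R Om : Type u} [CommRing R] [IsLocalRing R] [Field Om]

/-- The embedding of the residue field. -/
noncomputable def k2res (φ : R →+* Om) (hφ : ∀ r, φ r ≠ 0 → IsUnit r) :
    IsLocalRing.ResidueField R →+* Om :=
  Ideal.Quotient.lift _ φ fun r hr => by
    by_contra h
    exact hr (hφ r h)

theorem k2_retr (φ : R →+* Om) (hφ : ∀ r, φ r ≠ 0 → IsUnit r) : ∃ τ : Om → R,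
    ∀ (ι : Type) [Fintype ι] (r : ι → R) (x : ι → Om) (c : R), ∑ a, φ (r a) * x a = φ c →
      φ (∑ a, r a * τ (x a)) = φ c := by
  let : Algebra (IsLocalRing.ResidueField R) Om := (k2res φ hφ).toAlgebra
  obtain ⟨ρ, hρ⟩ :=
    (Algebra.linearMap (IsLocalRing.ResidueField R) Om).exists_leftInverse_of_injective
      (LinearMap.ker_eq_bot.2 (k2res φ hφ).injective)
  choose s hs using IsLocalRing.residue_surjective (R := R)
  have h1 : ∀ r, φ r = algebraMap (IsLocalRing.ResidueField R) Om (IsLocalRing.residue R r) :=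
    fun r => rfl
  have h2 : ∀ c, ρ (algebraMap (IsLocalRing.ResidueField R) Om c) = c := fun c =>
    LinearMap.congr_fun hρ c
  refine ⟨fun x => s (ρ x), fun ι _ r x c h => ?_⟩
  have h3 := congrArg ρ h
  simp only [h1, ← Algebra.smul_def, map_sum, map_smul, h2, smul_eq_mul] at h3
  rw [h1, h1 c, ← h3]
  simp only [map_sum, map_mul, hs]

omit [IsLocalRing R] in
theorem k2_unit (φ : R →+* Om) (hφ : ∀ r, φ r ≠ 0 → IsUnit r) {ι : Type} [Fintype ι]
    [DecidableEq ι] {N : Matrix ι ι R} (h : N.map φ = 1) : IsUnit N := by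
  refine (Matrix.isUnit_iff_isUnit_det N).2 (hφ _ ?_)
  rw [RingHom.map_det, RingHom.mapMatrix_apply, h, det_one]
  exact one_ne_zero

/-- UNIT2. A proper ideal of `R[X]` that contains a monic polynomial has a common root in `Om`.
Take a maximal ideal above it; the quotient is finite over `R`, so lies over the maximal ideal,
which is the kernel of `φ`; embed the finite extension of the residue field in `Om`. -/
theorem exists_root_of_ne_top [IsAlgClosed Om] (φ : R →+* Om) (hφ : ∀ r, φ r ≠ 0 → IsUnit r)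
    (I : Ideal R[X]) (hI : I ≠ ⊤) {δ : R[X]} (hδ : δ.Monic) (hδI : δ ∈ I) :
    ∃ z : Om, ∀ f ∈ I, (f.map φ).eval z = 0 := by
  obtain ⟨M, hM, hIM⟩ := Ideal.exists_le_maximal I hI
  let := Ideal.Quotient.field M
  let ψ : R →+* R[X] ⧸ M := (Ideal.Quotient.mk M).comp C
  have hint : ψ.IsIntegral := hδ.quotient_isIntegral (hIM hδI)
  have hmax : ((⊥ : Ideal (R[X] ⧸ M)).comap ψ).IsMaximal :=
    have : (⊥ : Ideal (R[X] ⧸ M)).IsMaximal := Ideal.bot_isMaximal
    Ideal.isMaximal_comap_of_isIntegral_of_isMaximal' ψ hint ⊥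
  have hker : ∀ r ∈ IsLocalRing.maximalIdeal R, ψ r = 0 := fun r hr => by
    rw [← IsLocalRing.eq_maximalIdeal hmax] at hr
    exact hr
  let ψ' : IsLocalRing.ResidueField R →+* R[X] ⧸ M := Ideal.Quotient.lift _ ψ hker
  let : Algebra (IsLocalRing.ResidueField R) (R[X] ⧸ M) := ψ'.toAlgebra
  let : Algebra (IsLocalRing.ResidueField R) Om := (k2res φ hφ).toAlgebra
  have : Algebra.IsAlgebraic (IsLocalRing.ResidueField R) (R[X] ⧸ M) := ⟨fun x => by
    obtain ⟨p, hp, hx⟩ := hint x
    refine IsIntegral.isAlgebraic ⟨p.map (IsLocalRing.residue R), hp.map _, ?_⟩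
    rw [eval₂_map]
    exact hx⟩
  let j : (R[X] ⧸ M) →ₐ[IsLocalRing.ResidueField R] Om := IsAlgClosed.lift
  refine ⟨j (Ideal.Quotient.mk M X), fun f hf => ?_⟩
  have e : eval₂RingHom φ (j (Ideal.Quotient.mk M X)) =
      (j : (R[X] ⧸ M) →+* Om).comp (Ideal.Quotient.mk M) := by
    refine Polynomial.ringHom_ext (fun r => ?_) ?_
    · rw [coe_eval₂RingHom, eval₂_C]
      exact (j.commutes (IsLocalRing.residue R r)).symm
    · rw [coe_eval₂RingHom, eval₂_X]
      rfl
  rw [eval_map, ← coe_eval₂RingHom, e, RingHom.comp_apply,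
    Ideal.Quotient.eq_zero_iff_mem.2 (hIM hf), map_zero]

/-- COP. -/
theorem cop_of_res [IsAlgClosed Om] (φ : R →+* Om) (hφ : ∀ r, φ r ≠ 0 → IsUnit r) {f h : R[X]}
    (hm : h.Monic) (hc : IsCoprime (f.map φ) (h.map φ)) : IsCoprime f h := by
  by_contra hn
  have hI : Ideal.span {f, h} ≠ ⊤ := fun e => hn (by
    rw [← Ideal.isCoprime_span_singleton_iff, Ideal.isCoprime_iff_sup_eq, ← Ideal.span_insert]
    exact e)
  obtain ⟨z, hz⟩ := exists_root_of_ne_top φ hφ _ hI hm (Ideal.subset_span (by simp))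
  obtain ⟨a, b, hab⟩ := hc
  have h1 := congrArg (eval z) hab
  rw [eval_add, eval_mul, eval_mul, hz f (Ideal.subset_span (by simp)),
    hz h (Ideal.subset_span (by simp)), mul_zero, mul_zero, add_zero, eval_one] at h1
  exact zero_ne_one h1

/-- NAK. Vectors whose images span over `Om` span over `R` (a maximal minor is a unit). -/
theorem onto_of_res (φ : R →+* Om) (hφ : ∀ r, φ r ≠ 0 → IsUnit r) {ι ι' : Type} [Fintype ι]
    [Fintype ι'] (M : Matrix ι ι' R) (h : ∀ y : ι → Om, ∃ t, M.map φ *ᵥ t = y) (y : ι → R) :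
    ∃ t, M *ᵥ t = y := by
  classical
  obtain ⟨τ, hτ⟩ := k2_retr φ hφ
  choose t ht using h
  let N : Matrix ι' ι R := of fun a j => τ (t (Pi.single j 1) a)
  have h1 : (M * N).map φ = 1 := by
    ext i j
    have e : φ ((1 : Matrix ι ι R) i j) = (1 : Matrix ι ι Om) i j := by
      by_cases hij : i = j <;> simp [one_apply, hij]
    rw [← e]
    refine hτ ι' (fun a => M i a) (fun a => t (Pi.single j 1) a) _ ?_
    rw [e]
    have h2 := congrFun (ht (Pi.single j 1)) i
    rw [one_apply, ← Pi.single_apply j (1 : Om) i]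
    exact h2
  obtain ⟨u, hu⟩ := k2_unit φ hφ h1
  refine ⟨N *ᵥ (((u⁻¹ : (Matrix ι ι R)ˣ) : Matrix ι ι R) *ᵥ y), ?_⟩
  rw [mulVec_mulVec, ← hu, mulVec_mulVec, Units.mul_inv, one_mulVec]

/-- Vectors whose images are independent over `Om` are independent over `R`. -/
theorem inj_of_res (φ : R →+* Om) (hφ : ∀ r, φ r ≠ 0 → IsUnit r) {ι ι' : Type} [Fintype ι]
    [Fintype ι'] (M : Matrix ι ι' R) (h : ∀ t : ι' → Om, M.map φ *ᵥ t = 0 → t = 0) (t : ι' → R)
    (ht : M *ᵥ t = 0) : t = 0 := by
  classical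
  obtain ⟨τ, hτ⟩ := k2_retr φ hφ
  obtain ⟨g, hg⟩ := (Matrix.toLin' (M.map φ)).exists_leftInverse_of_injective
    (LinearMap.ker_eq_bot'.2 fun t ht => h t ht)
  have h0 : LinearMap.toMatrix' g * M.map φ = 1 := by
    rw [← LinearMap.toMatrix'_toLin' (M.map φ), ← LinearMap.toMatrix'_comp, hg,
      LinearMap.toMatrix'_id]
  let N : Matrix ι' ι R := of fun a j => τ (LinearMap.toMatrix' g a j)
  have h1 : (N * M).map φ = 1 := by
    ext i j
    have e : φ ((1 : Matrix ι' ι' R) i j) = (1 : Matrix ι' ι' Om) i j := by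
      by_cases hij : i = j <;> simp [one_apply, hij]
    have e2 : (N * M) i j = ∑ a, M a j * τ (LinearMap.toMatrix' g i a) :=
      Finset.sum_congr rfl fun a _ => mul_comm _ _
    rw [← e, map_apply, e2]
    refine hτ ι (fun a => M a j) (fun a => LinearMap.toMatrix' g i a) _ ?_
    rw [e, ← h0]
    exact Finset.sum_congr rfl fun a _ => mul_comm _ _
  obtain ⟨u, hu⟩ := k2_unit φ hφ h1
  have h2 : (u : Matrix ι' ι' R) *ᵥ t = 0 := by rw [hu, ← mulVec_mulVec, ht, mulVec_zero]
  rw [← one_mulVec t, ← u.inv_mul, ← mulVec_mulVec, h2, mulVec_zero]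

/-- Coordinates modulo a monic polynomial. -/
noncomputable def cdm {A : Type u} [CommRing A] (H : A[X]) (d : ℕ) : A[X] →ₗ[A] (Fin d → A) :=
  LinearMap.pi fun a => (lcoeff A a).comp (modByMonicHom H)

theorem cdm_apply {A : Type u} [CommRing A] (H : A[X]) (d : ℕ) (p : A[X]) (a : Fin d) :
    cdm H d p a = (p %ₘ H).coeff a := rfl

theorem cdm_eq_zero {A : Type u} [CommRing A] [Nontrivial A] {H : A[X]} (hm : H.Monic) {d : ℕ}
    (hd : H.natDegree = d) (p : A[X]) : cdm H d p = 0 ↔ H ∣ p := by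
  rw [← modByMonic_eq_zero_iff_dvd hm]
  refine ⟨fun h => Polynomial.ext fun a => ?_, fun h => funext fun a => ?_⟩
  · by_cases ha : a < d
    · exact congrFun h ⟨a, ha⟩
    · refine coeff_eq_zero_of_degree_lt ((degree_modByMonic_lt p hm).trans_le ?_)
      rw [degree_eq_natDegree hm.ne_zero, hd]
      exact_mod_cast not_lt.1 ha
  · rw [cdm_apply, h, coeff_zero, Pi.zero_apply]

theorem cdm_surj {A : Type u} [CommRing A] [Nontrivial A] {H : A[X]} (hm : H.Monic) {d : ℕ}
    (hd : H.natDegree = d) (y : Fin d → A) : ∃ p, cdm H d p = y := by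
  obtain ⟨p, hp⟩ := (degreeLTEquiv A d).surjective y
  refine ⟨p.1, funext fun a => ?_⟩
  have h1 : p.1.degree < H.degree := by
    rw [degree_eq_natDegree hm.ne_zero, hd]
    exact mem_degreeLT.1 p.2
  rw [cdm_apply, (modByMonic_eq_self_iff hm).2 h1, ← hp]
  rfl

theorem cdm_map {A A' : Type u} [CommRing A] [CommRing A'] (φ : A →+* A') {H : A[X]}
    (hm : H.Monic) (d : ℕ) (p : A[X]) (a : Fin d) :
    cdm (H.map φ) d (p.map φ) a = φ (cdm H d p a) := by
  rw [cdm_apply, cdm_apply, ← map_modByMonic φ hm, coeff_map]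

/-- NAKP. The same modulo a monic polynomial (coordinates: coefficients of `%ₘ Hh`). -/
theorem span_of_res (φ : R →+* Om) (hφ : ∀ r, φ r ≠ 0 → IsUnit r) {ι ι' : Type} [Fintype ι]
    [Fintype ι'] {Hh : R[X]} (hm : Hh.Monic) (w : ι' → ι → R[X])
    (h : ∀ y : ι → Om[X], ∃ t : ι' → Om, ∀ i, Hh.map φ ∣ y i - ∑ j, t j • (w j i).map φ)
    (y : ι → R[X]) : ∃ t : ι' → R, ∀ i, Hh ∣ y i - ∑ j, t j • w j i := by
  let M : Matrix (ι × Fin Hh.natDegree) ι' R := of fun a j => cdm Hh _ (w j a.1) a.2
  have hm' := hm.map φ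
  have hd' := hm.natDegree_map φ
  obtain ⟨t, ht⟩ := onto_of_res φ hφ M (fun y' => by
    choose s hs using cdm_surj hm' hd'
    obtain ⟨t, ht⟩ := h fun i => s fun a => y' (i, a)
    refine ⟨t, funext fun a => ?_⟩
    have h1 := congrFun ((cdm_eq_zero hm' hd' _).2 (ht a.1)) a.2
    rw [map_sub, hs, map_sum] at h1
    simp only [map_smul, Pi.sub_apply, Finset.sum_apply, Pi.smul_apply, smul_eq_mul,
      Pi.zero_apply, cdm_map φ hm, sub_eq_zero] at h1
    exact (Finset.sum_congr rfl fun j _ => mul_comm _ _).trans h1.symm)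
    fun a => cdm Hh _ (y a.1) a.2
  refine ⟨t, fun i => (cdm_eq_zero hm rfl _).1 (funext fun a => ?_)⟩
  have h1 := congrFun ht (i, a)
  rw [map_sub, map_sum]
  simp only [map_smul, Pi.sub_apply, Finset.sum_apply, Pi.smul_apply, smul_eq_mul,
    Pi.zero_apply, sub_eq_zero]
  exact h1.symm.trans (Finset.sum_congr rfl fun j _ => mul_comm _ _)

theorem indep_of_res (φ : R →+* Om) (hφ : ∀ r, φ r ≠ 0 → IsUnit r) {ι ι' : Type} [Fintype ι]
    [Fintype ι'] {Hh : R[X]} (hm : Hh.Monic) (w : ι' → ι → R[X])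
    (h : ∀ t : ι' → Om, (∀ i, Hh.map φ ∣ ∑ j, t j • (w j i).map φ) → t = 0)
    (t : ι' → R) (ht : ∀ i, Hh ∣ ∑ j, t j • w j i) : t = 0 := by
  let M : Matrix (ι × Fin Hh.natDegree) ι' R := of fun a j => cdm Hh _ (w j a.1) a.2
  have hm' := hm.map φ
  have hd' := hm.natDegree_map φ
  refine inj_of_res φ hφ M (fun t' ht' => h t' fun i => ?_) t (funext fun a => ?_)
  · refine (cdm_eq_zero hm' hd' _).1 (funext fun a => ?_)
    have h1 := congrFun ht' (i, a)
    rw [map_sum]
    simp only [map_smul, Finset.sum_apply, Pi.smul_apply, smul_eq_mul, Pi.zero_apply,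
      cdm_map φ hm]
    exact (Finset.sum_congr rfl fun j _ => mul_comm _ _).trans h1
  · have h1 := congrFun ((cdm_eq_zero hm rfl _).2 (ht a.1)) a.2
    rw [map_sum] at h1
    simp only [map_smul, Finset.sum_apply, Pi.smul_apply, smul_eq_mul] at h1
    exact (Finset.sum_congr rfl fun j _ => mul_comm _ _).trans h1

end res

section fields

variable {k : Type u} [Field k]

/-- An algebraically closed field above the residue field of `R` and above `l`
(a residue field of `l ⊗ κ`, then its algebraic closure). -/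
theorem exists_omega (R l : Type u) [CommRing R] [IsLocalRing R] [Algebra k R] [Field l]
    [Algebra k l] : ∃ (Om : Type u) (_ : Field Om) (_ : IsAlgClosed Om) (_ : Algebra k Om)
      (φ : R →ₐ[k] Om) (_ : l →ₐ[k] Om), ∀ r, φ r ≠ 0 → IsUnit r := by
  let T := TensorProduct k l (IsLocalRing.ResidueField R)
  obtain ⟨M, hM⟩ := Ideal.exists_maximal T
  let := Ideal.Quotient.field M
  let θ : T →ₐ[k] AlgebraicClosure (T ⧸ M) :=
    (IsScalarTower.toAlgHom k (T ⧸ M) (AlgebraicClosure (T ⧸ M))).comp (Ideal.Quotient.mkₐ k M)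
  let φ0 : IsLocalRing.ResidueField R →ₐ[k] AlgebraicClosure (T ⧸ M) :=
    θ.comp Algebra.TensorProduct.includeRight
  refine ⟨AlgebraicClosure (T ⧸ M), inferInstance, inferInstance, inferInstance,
    φ0.comp (IsScalarTower.toAlgHom k R (IsLocalRing.ResidueField R)),
    θ.comp Algebra.TensorProduct.includeLeft, fun r hr => ?_⟩
  by_contra hu
  refine hr ?_
  have h0 : algebraMap R (IsLocalRing.ResidueField R) r = 0 :=
    (IsLocalRing.residue_eq_zero_iff r).2 hu
  change φ0 (algebraMap R (IsLocalRing.ResidueField R) r) = 0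
  rw [h0, map_zero]

/-- The algebraic closure of `k` in a domain is a field. -/
theorem exists_kR (R : Type u) [CommRing R] [IsDomain R] [Algebra k R] :
    ∃ (K : Type u) (_ : Field K) (_ : Algebra k K) (j : K →ₐ[k] R),
      ∀ x : R, IsIntegral k x → x ∈ j.range := by
  have hF : IsField (integralClosure k R) := isField_of_isIntegral_of_isField' (Field.toIsField k)
  exact ⟨integralClosure k R, hF.toField, (integralClosure k R).algebra, (integralClosure k R).val,
    fun x hx => ⟨⟨x, hx⟩, rfl⟩⟩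

/-- Translation constants in the infinite field `k`. -/
theorem pick_c [Infinite k] {Om : Type u} [Field Om] [IsAlgClosed Om] [Algebra k Om] {h : Om[X]}
    (h0 : h ≠ 0) (d : ℕ) : ∃ (c : Fin d → k) (c₀ : k),
      (Pairwise fun w w' => IsCoprime (taylor (-algebraMap k Om (c w)) h)
        (taylor (-algebraMap k Om (c w')) h)) ∧
      ∀ w, h.eval (algebraMap k Om c₀ - algebraMap k Om (c w)) ≠ 0 := by
  classical
  have av : ∀ (d : ℕ) (c : Fin d → k), ∃ a : k, ∀ w, ∀ z ∈ insert 0 h.roots.toFinset,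
      ∀ z' ∈ h.roots.toFinset, algebraMap k Om a + z ≠ algebraMap k Om (c w) + z' := by
    intro d c
    let S : Finset Om := (Finset.univ ×ˢ insert 0 h.roots.toFinset ×ˢ h.roots.toFinset).image
      fun x => algebraMap k Om (c x.1) + x.2.2 - x.2.1
    obtain ⟨a, ha⟩ :=
      (S.finite_toSet.preimage (algebraMap k Om).injective.injOn).infinite_compl.nonempty
    refine ⟨a, fun w z hz z' hz' e =>
      ha (Finset.mem_coe.2 (Finset.mem_image.2 ⟨(w, z, z'), ?_, ?_⟩))⟩
    · exact Finset.mem_product.2 ⟨Finset.mem_univ _, Finset.mem_product.2 ⟨hz, hz'⟩⟩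
    · exact (eq_sub_of_add_eq e).symm
  have ex : ∀ d : ℕ, ∃ c : Fin d → k, ∀ w w', w ≠ w' → ∀ z ∈ h.roots.toFinset,
      ∀ z' ∈ h.roots.toFinset, algebraMap k Om (c w) + z ≠ algebraMap k Om (c w') + z' := by
    intro d
    induction d with
    | zero => exact ⟨Fin.elim0, fun w => w.elim0⟩
    | succ d ih =>
      obtain ⟨c, hc⟩ := ih
      obtain ⟨a, ha⟩ := av d c
      refine ⟨Fin.cons a c, fun w w' => ?_⟩
      refine Fin.cases ?_ (fun v => ?_) w <;> refine Fin.cases ?_ (fun v' => ?_) w'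
      · exact fun e => absurd rfl e
      · exact fun _ z hz z' hz' => ha v' z (Finset.mem_insert_of_mem hz) z' hz'
      · exact fun _ z hz z' hz' => (ha v z' (Finset.mem_insert_of_mem hz') z hz).symm
      · exact fun e => hc v v' fun e' => e (by rw [e'])
  obtain ⟨c, hc⟩ := ex d
  obtain ⟨a, ha⟩ := av d c
  have rt : ∀ z, h.eval z = 0 → z ∈ h.roots.toFinset := fun z hz =>
    Multiset.mem_toFinset.2 ((mem_roots h0).2 hz)
  refine ⟨c, a, fun w w' e => ?_, fun w hz => ?_⟩
  · refine (isCoprime_iff_aeval_ne_zero_of_isAlgClosed Om Om _ _).2 fun z => ?_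
    by_contra hn
    rw [not_or, not_not, not_not, coe_aeval_eq_eval, taylor_eval, taylor_eval] at hn
    exact hc w w' e _ (rt _ hn.1) _ (rt _ hn.2) (by ring)
  · exact ha w 0 (Finset.mem_insert_self _ _) _ (rt _ hz) (by ring)

/-- A nonzero polynomial over `Om` does not vanish on all points over the infinite subfield. -/
theorem exists_point [Infinite k] {Om : Type u} [Field Om] [Algebra k Om] {σ : Type}
    {Δ : MvPolynomial σ Om} (h : Δ ≠ 0) :
    ∃ t : σ → k, MvPolynomial.eval (fun j => algebraMap k Om (t j)) Δ ≠ 0 := by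
  by_contra hn
  refine h (MvPolynomial.funext_set (fun _ => Set.range (algebraMap k Om))
    (fun _ => Set.infinite_range_of_injective (algebraMap k Om).injective) fun x hx => ?_)
  choose t ht using fun j => hx j (Set.mem_univ j)
  rw [map_zero]
  by_contra h1
  exact hn ⟨t, by rwa [show (fun j => algebraMap k Om (t j)) = x from funext ht]⟩

/-- SEP. Induct on `S`: divide the second product by the first to the smallest exponent; the gcd
of the quotient with the first product is the product without the index of smallest exponent;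
gcd and exact division commute with `j`. -/
theorem sep_poly {K Om : Type u} [Field K] [Field Om] (j : K →+* Om) {ι : Type} (S : Finset ι)
    (P : ι → Om[X]) (e : ι → ℕ) (hm : ∀ m ∈ S, (P m).Monic)
    (hc : ∀ m ∈ S, ∀ m' ∈ S, m ≠ m' → IsCoprime (P m) (P m'))
    (he : ∀ m ∈ S, ∀ m' ∈ S, e m = e m' → m = m') (A B : K[X]) (hA : A.map j = ∏ m ∈ S, P m)
    (hB : B.map j = ∏ m ∈ S, P m ^ e m) : ∀ m ∈ S, ∃ Q : K[X], Q.map j = P m := by
  classical
  have dv : ∀ (a b : K[X]) (q : Om[X]), a.map j ≠ 0 → b.map j = a.map j * q →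
      ∃ c : K[X], c.map j = q := fun a b q ha hb => by
    obtain ⟨c, rfl⟩ := (map_dvd_map' j).1 ⟨q, hb⟩
    rw [Polynomial.map_mul] at hb
    exact ⟨c, mul_left_cancel₀ ha hb⟩
  induction S using Finset.induction_on_min_value e generalizing A B with
  | empty => exact fun m hm => absurd hm (Finset.notMem_empty m)
  | insert a S ha hmin ih =>
    have hA0 : A.map j ≠ 0 := by
      rw [hA]
      exact (monic_prod_of_monic _ _ hm).ne_zero
    have hm' : ∀ m ∈ S, (P m).Monic := fun m h => hm m (Finset.mem_insert_of_mem h)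
    have hne : ∀ m ∈ S, a ≠ m := fun m h e => ha (e ▸ h)
    have hQ : (∏ m ∈ S, P m).Monic := monic_prod_of_monic _ _ hm'
    obtain ⟨B', hB'⟩ := dv (A ^ e a) B (∏ m ∈ S, P m ^ (e m - e a))
      (by rw [Polynomial.map_pow]; exact pow_ne_zero _ hA0) (by
        rw [hB, Polynomial.map_pow, hA, Finset.prod_insert ha, Finset.prod_insert ha, mul_pow,
          mul_assoc, ← Finset.prod_pow, ← Finset.prod_mul_distrib]
        refine congrArg _ (Finset.prod_congr rfl fun m h => ?_)
        rw [← pow_add, Nat.add_sub_cancel' (hmin m h)])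
    have hcop : IsCoprime (P a) (B'.map j) := by
      rw [hB']
      exact IsCoprime.prod_right fun m h => (hc a (Finset.mem_insert_self _ _) m
        (Finset.mem_insert_of_mem h) (hne m h)).pow_right
    have hQB : ∏ m ∈ S, P m ∣ B'.map j := by
      rw [hB']
      refine Finset.prod_dvd_prod_of_dvd _ _ fun m h => dvd_pow_self _ fun e0 => hne m h ?_
      exact he a (Finset.mem_insert_self _ _) m (Finset.mem_insert_of_mem h)
        (le_antisymm (hmin m h) (Nat.sub_eq_zero_iff_le.1 e0))
    rw [Finset.prod_insert ha] at hA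
    have hg : Associated ((EuclideanDomain.gcd A B').map j) (∏ m ∈ S, P m) := by
      rw [← gcd_map, hA]
      refine associated_of_dvd_dvd ?_ (EuclideanDomain.dvd_gcd (Dvd.intro_left _ rfl) hQB)
      exact (hcop.symm.of_isCoprime_of_dvd_left
        (EuclideanDomain.gcd_dvd_right _ _)).dvd_of_dvd_mul_left (EuclideanDomain.gcd_dvd_left _ _)
    have hg0 : EuclideanDomain.gcd A B' ≠ 0 := fun e0 => hQ.ne_zero (by
      rw [e0, Polynomial.map_zero] at hg
      exact (associated_zero_iff_eq_zero _).1 hg.symm)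
    have hA' : (normalize (EuclideanDomain.gcd A B')).map j = ∏ m ∈ S, P m :=
      eq_of_monic_of_associated ((monic_normalize hg0).map j) hQ
        (((normalize_associated _).map (mapRingHom j)).trans hg)
    obtain ⟨Qa, hQa⟩ := dv _ A (P a) (by rw [hA']; exact hQ.ne_zero) (by rw [hA', hA, mul_comm])
    obtain ⟨B'', hB''⟩ := dv (Qa ^ e a) B (∏ m ∈ S, P m ^ e m)
      (by rw [Polynomial.map_pow, hQa]
          exact pow_ne_zero _ (hm a (Finset.mem_insert_self _ _)).ne_zero)
      (by rw [hB, Polynomial.map_pow, hQa, Finset.prod_insert ha])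
    intro m h
    rcases Finset.mem_insert.1 h with rfl | h
    · exact ⟨Qa, hQa⟩
    · exact ih hm' (fun m h m' h' => hc m (Finset.mem_insert_of_mem h) m'
        (Finset.mem_insert_of_mem h')) (fun m h m' h' => he m (Finset.mem_insert_of_mem h) m'
        (Finset.mem_insert_of_mem h')) _ _ hA' hB'' m h

theorem charpoly_dvd_pow {R : Type u} [CommRing R] {ι : Type} [Fintype ι] [DecidableEq ι]
    (Z : Matrix ι ι R) (p : R[X]) (h : aeval Z p = 0) : Z.charpoly ∣ p ^ Fintype.card ι := by
  have key : ∀ p : R[X], charmatrix Z ∣ scalar ι p - (aeval Z p).map C := fun p => by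
    induction p using Polynomial.induction_on' with
    | add p q hp hq =>
      rw [map_add, map_add, Matrix.map_add _ (map_add C), add_sub_add_comm]
      exact dvd_add hp hq
    | monomial m a =>
      have hc : Commute (scalar ι (X : R[X])) ((C : R →+* R[X]).mapMatrix Z) :=
        scalar_commute _ (fun _ => Commute.all _ _) _
      obtain ⟨c, hc⟩ := hc.sub_dvd_pow_sub_pow m
      refine ⟨(C a : R[X]) • c, ?_⟩
      rw [Matrix.mul_smul, charmatrix, ← hc, ← map_pow, ← map_pow, smul_sub, aeval_monomial,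
        ← C_mul_X_pow_eq_monomial, ← Algebra.smul_def]
      ext i j : 1
      by_cases hij : i = j <;> simp [hij]
  obtain ⟨c, hc⟩ := key p
  have h1 := congrArg det hc
  rw [h, Matrix.map_zero _ (map_zero C), sub_zero, det_mul, scalar_apply, det_diagonal,
    Finset.prod_const, Finset.card_univ] at h1
  exact ⟨_, h1⟩

/-- ALG. The roots of the characteristic polynomial in an algebraic closure of `Frac R` are
roots of `P₀`. -/
theorem isIntegral_charpoly {R : Type u} [CommRing R] [IsDomain R] [Algebra k R] {ι : Type}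
    [Fintype ι] [DecidableEq ι] (Z : Matrix ι ι R) {P₀ : k[X]} (hm : P₀.Monic)
    (h : aeval Z (P₀.map (algebraMap k R)) = 0) (i : ℕ) : IsIntegral k (Z.charpoly.coeff i) := by
  refine isIntegral_coeff_of_dvd (P₀ ^ Fintype.card ι) _ (hm.pow _) (charpoly_monic Z) ?_ i
  rw [Polynomial.map_pow]
  exact charpoly_dvd_pow Z _ h

/-- CNT. Conjugate diagonal idempotents have the same rank. -/
theorem sum_eq_of_conj {n : ℕ} {ι : Type} [DecidableEq ι] (a a' : Fin n → ι) (g : GL (Fin n) k)
    (h : ∀ m, (g : Mat n k) * eps k a m * ((g⁻¹ : GL (Fin n) k) : Mat n k) = eps k a' m)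
    (F : ι → ℤ) : ∑ i, F (a i) = ∑ i, F (a' i) := by
  classical
  have e : Finset.univ.val.map a = Finset.univ.val.map a' := by
    ext m
    have h1 := congrArg Matrix.rank (h m)
    rw [rank_mul_eq_left_of_isUnit_det _ _ (Matrix.isUnits_det_units _),
      rank_mul_eq_right_of_isUnit_det _ _ (Matrix.isUnits_det_units _), eps, eps, rank_diagonal,
      rank_diagonal, Fintype.card_subtype, Fintype.card_subtype] at h1
    rw [Multiset.count_map, Multiset.count_map]
    simpa [Finset.card_def, Finset.filter_val, eq_comm] using h1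
  have h2 := congrArg (fun s => (Multiset.map F s).sum) e
  simpa only [Multiset.map_map, Finset.sum_map_val, Function.comp_def] using h2

end fields

section lead

variable {n : ℕ} {A : Type u} [CommRing A]

theorem prod_top {ι : Type} (s : Finset ι) (p : ι → A[X]) (d : ι → ℕ)
    (h : ∀ i, (p i).natDegree ≤ d i) : (∏ i ∈ s, p i).natDegree ≤ ∑ i ∈ s, d i ∧
      (∏ i ∈ s, p i).coeff (∑ i ∈ s, d i) = ∏ i ∈ s, (p i).coeff (d i) := by
  classical
  induction s using Finset.induction_on with
  | empty => simp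
  | insert a s ha ih =>
    rw [Finset.prod_insert ha, Finset.sum_insert ha, Finset.prod_insert ha,
      coeff_mul_add_eq_of_natDegree_le (h a) ih.1, ih.2]
    exact ⟨natDegree_mul_le.trans (add_le_add (h a) ih.1), rfl⟩

theorem det_rows (U : Mat n A[X]) (d : Fin n → ℕ) (h : ∀ i j, (U i j).natDegree ≤ d i) :
    U.det.natDegree ≤ ∑ i, d i ∧
      U.det.coeff (∑ i, d i) = (of fun i j => (U i j).coeff (d i) : Mat n A).det := by
  rw [← det_transpose, ← det_transpose (of _), det_apply, det_apply, finsetSum_coeff]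
  refine ⟨natDegree_sum_le_of_forall_le _ _ fun σ _ => (natDegree_smul_le _ _).trans
    (prod_top _ _ d fun i => h i (σ i)).1, Finset.sum_congr rfl fun σ _ => ?_⟩
  rw [coeff_smul, (prod_top _ (fun i => Uᵀ (σ i) i) d fun i => h i (σ i)).2]
  rfl

theorem Lead.nat {dg : Fin n → ℕ} {U : Mat n A[X]} (h : Lead dg U) (i j : Fin n) :
    (U i j).natDegree ≤ dg i ∧ (U i j).coeff (dg i) = (1 : Mat n A) i j := by
  have h1 := h i j
  have h2 := coeff_eq_zero_of_degree_lt h1
  rw [coeff_sub, sub_eq_zero] at h2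
  have h3 : (if i = j then X ^ dg i else 0 : A[X]).natDegree ≤ dg i := by
    split_ifs
    · exact natDegree_X_pow_le _
    · simp
  refine ⟨?_, ?_⟩
  · rw [← sub_add_cancel (U i j) (if i = j then X ^ dg i else 0)]
    exact natDegree_add_le_of_degree_le (natDegree_le_of_degree_le h1.le) h3
  · rw [h2, one_apply]
    split_ifs <;> simp

/-- DETU. -/
theorem Lead.det [Nontrivial A] {dg : Fin n → ℕ} {U : Mat n A[X]} (h : Lead dg U) :
    U.det.Monic ∧ U.det.natDegree = ∑ i, dg i := by
  obtain ⟨h1, h2⟩ := det_rows U dg fun i j => (h.nat i j).1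
  have h3 : (of fun i j => (U i j).coeff (dg i) : Mat n A) = 1 := by
    ext i j
    exact (h.nat i j).2
  rw [h3, det_one] at h2
  exact ⟨monic_of_natDegree_le_of_coeff_eq_one _ h1 h2,
    natDegree_eq_of_le_of_coeff_ne_zero h1 (by rw [h2]; exact one_ne_zero)⟩

/-- The adjugate has column `j` of degree at most `∑ dg - dg j`. -/
theorem Lead.adj {dg : Fin n → ℕ} {U : Mat n A[X]} (h : Lead dg U) (i j : Fin n) :
    (U.adjugate i j).natDegree + dg j ≤ ∑ l, dg l := by
  have h1 := (det_rows (U.updateRow j (Pi.single i 1)) (Function.update dg j 0) fun a b => by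
    by_cases ha : a = j
    · subst ha
      rw [updateRow_self, Function.update_self, Pi.single_apply]
      split_ifs <;> simp
    · rw [updateRow_ne ha, Function.update_of_ne ha]
      exact (h.nat a b).1).1
  rw [Finset.sum_update_of_mem (Finset.mem_univ j), zero_add] at h1
  rw [adjugate_apply, ← Finset.sum_erase_add _ dg (Finset.mem_univ j), Finset.erase_eq]
  exact Nat.add_le_add_right h1 _

end lead

end Pool.Agent.GR
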