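import Pool.Agent.P.MP_c1f06d_ag.r.Defs

open Matrix Polynomial

universe u

namespace Pool.Agent.GR

section general

variable {n : ℕ} {A : Type u} [CommRing A]

/-- The affine line modulo `h ^ N`. -/
abbrev Ab (h : A[X]) (N : ℕ) : Type u := AdjoinRoot (h ^ N)

/-- The punctured semilocal ring. -/
def OOh (h : A[X]) : Type u := Localization.Away (algebraMap A[X] (OO h) h)

noncomputable instance (h : A[X]) : CommRing (OOh h) :=
  inferInstanceAs (CommRing (Localization.Away (algebraMap A[X] (OO h) h)))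

noncomputable instance (h : A[X]) : Algebra (OO h) (OOh h) :=
  inferInstanceAs (Algebra (OO h) (Localization.Away (algebraMap A[X] (OO h) h)))

instance (h : A[X]) : IsLocalization.Away (algebraMap A[X] (OO h) h) (OOh h) :=
  inferInstanceAs (IsLocalization.Away (algebraMap A[X] (OO h) h)
    (Localization.Away (algebraMap A[X] (OO h) h)))

noncomputable instance (h : A[X]) : Algebra A[X] (OOh h) :=
  ((algebraMap (OO h) (OOh h)).comp (algebraMap A[X] (OO h))).toAlgebra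

instance (h : A[X]) : IsScalarTower A[X] (OO h) (OOh h) :=
  IsScalarTower.of_algebraMap_eq (R := A[X]) (S := OO h) (A := OOh h) fun _ => rfl

noncomputable instance (k : Type u) [Field k] [Algebra k A] (h : A[X]) : Algebra k (OOh h) :=
  ((algebraMap (OO h) (OOh h)).comp (algebraMap k (OO h))).toAlgebra

instance (k : Type u) [Field k] [Algebra k A] (h : A[X]) : IsScalarTower k (OO h) (OOh h) :=
  IsScalarTower.of_algebraMap_eq (R := k) (S := OO h) (A := OOh h) fun _ => rfl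

/-- The polynomial matrix `∑ p x • e x`. -/
noncomputable def phm {r : ℕ} (χ : Fin n → Fin r → ℤ) (e : (Fin r → ℤ) → Mat n A)
    (p : (Fin r → ℤ) → A[X]) : Mat n A[X] :=
  ∑ x ∈ XX χ, p x • (e x).map C

/-- The characteristic polynomial of `ζ` on the range of the idempotent `e`. -/
noncomputable def chE (ζ e : Mat n A) : A[X] :=
  (charmatrix ζ * e.map C + 1 - e.map C).det

/-- The vectors `q j` are an `A`-basis of `A[X] ^ n` modulo the columns of `P` and modulo `Hh`. -/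
def IsBas (Hh : A[X]) (P : Mat n A[X]) {ι : Type} [Fintype ι] (q : ι → Fin n → A[X]) : Prop :=
  (∀ v : Fin n → A[X], ∃ (t : ι → A) (η θ : Fin n → A[X]),
    v = ∑ j, t j • q j + P *ᵥ η + Hh • θ) ∧
  ∀ (t : ι → A) (η θ : Fin n → A[X]), ∑ j, t j • q j + P *ᵥ η + Hh • θ = 0 → t = 0

/-- `Z` is the matrix of `ζ` on that quotient. -/
def Rep (Hh : A[X]) (P : Mat n A[X]) {ι : Type} [Fintype ι] (q : ι → Fin n → A[X])
    (ζ : Mat n A) (Z : Matrix ι ι A) : Prop :=
  ∀ j, ∃ η θ : Fin n → A[X], ζ.map C *ᵥ q j = ∑ i, Z i j • q i + P *ᵥ η + Hh • θ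

/-- `ζ` preserves the lattice spanned by `P` and `Hh`. -/
def Keeps (Hh : A[X]) (P : Mat n A[X]) (ζ : Mat n A) : Prop :=
  ∃ ζ' θ : Mat n A[X], ζ.map C * P = P * ζ' + Hh • θ

/-- Polynomial vectors of bounded degree fill all quotients at the translated points. -/
def Onto (Hh : A[X]) (dg : Fin n → ℕ) {d : ℕ} (c : Fin d → A) (β : Mat n A)
    (T : Fin d → Mat n A[X]) : Prop :=
  ∀ t : Fin d → Fin n → A[X], ∃ v : Fin n → A[X], (∀ i, (v i).degree < (dg i : WithBot ℕ)) ∧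
    ∀ w, ∃ η θ : Fin n → A[X],
      t w = (fun i => taylor (c w) ((β.map C *ᵥ v) i)) + T w *ᵥ η + Hh • θ

/-- The matrix `U` is `diag (X ^ dg i)` up to lower terms. -/
def Lead (dg : Fin n → ℕ) (U : Mat n A[X]) : Prop :=
  ∀ i j, (U i j - if i = j then X ^ dg i else 0).degree < (dg i : WithBot ℕ)

variable (k : Type u) [Field k] [Algebra k A]

theorem isUnit_mk_of_copr (h : A[X]) (N : ℕ) (f : copr h) :
    IsUnit (((AdjoinRoot.mkₐ (h ^ N)).restrictScalars k) (f : A[X])) := by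
  obtain ⟨a, b, hab⟩ : IsCoprime (f : A[X]) (h ^ N) := IsCoprime.pow_right f.2
  refine IsUnit.of_mul_eq_one (AdjoinRoot.mk (h ^ N) a) ?_
  have := congrArg (AdjoinRoot.mk (h ^ N)) hab
  rw [map_add, map_mul, map_mul, AdjoinRoot.mk_self, mul_zero, add_zero, map_one] at this
  rw [mul_comm]
  exact this

/-- Reduction modulo `h ^ N`. -/
noncomputable def red (h : A[X]) (N : ℕ) : OO h →ₐ[k] Ab h N :=
  IsLocalization.liftAlgHom (M := copr h) (isUnit_mk_of_copr k h N)

theorem red_alg (h : A[X]) (N : ℕ) (p : A[X]) :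
    red k h N (algebraMap A[X] (OO h) p) = AdjoinRoot.mk (h ^ N) p :=
  IsLocalization.lift_eq _ p

/-- The inclusion in the punctured ring. -/
noncomputable def toH (h : A[X]) : OO h →ₐ[k] OOh h := IsScalarTower.toAlgHom k (OO h) (OOh h)

variable {k}

end general

namespace HS

variable {k : Type u} [Field k] {n : ℕ} (H : HS k n) {A : Type u} [CommRing A] [Algebra k A]

/-- A modification along `h` in polynomial form: `ψ = P₁ / h ^ M` moves `y` to the base point. -/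
structure Mod (h : A[X]) (M : ℕ) (P₁ P₂ : Mat n A[X]) (f : A[X]) (y : H.B →ₐ[k] OO h) : Prop where
  pos : 0 < M
  cop : IsCoprime f h
  mul : P₁ * P₂ = (f * h ^ (2 * M)) • (1 : Mat n A[X])
  mul' : P₂ * P₁ = (f * h ^ (2 * M)) • (1 : Mat n A[X])
  mov : ∃ ψ : GL (Fin n) (OOh h),
    P₁.map (algebraMap A[X] (OOh h)) = algebraMap A[X] (OOh h) h ^ M • (ψ : Mat n (OOh h)) ∧
      H.act ψ ((toH k h).comp y) = H.pt (OOh h)

/-- `ζ` commutes with all points of `G`. -/
def Cent (ζ : Mat n k) : Prop :=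
  ∀ (A : Type u) [CommRing A] [Algebra k A], ∀ g ∈ H.G A,
    Commute (g : Mat n A) (ζ.map (algebraMap k A))

/-- The type of a modification over a field. -/
structure Typ (D : H.Datum) (ι : D.l →ₐ[k] A) (h : A[X]) (M : ℕ) (P₁ : Mat n A[X])
    (a : (Fin D.r → ℤ) →+ ℤ) (p : (Fin D.r → ℤ) → A[X]) : Prop where
  monic : ∀ x ∈ XX D.χ, (p x).Monic
  dvd : ∀ x ∈ XX D.χ, p x ∣ h ^ (2 * M)
  deg : ∀ x ∈ XX D.χ, ((p x).natDegree : ℤ) = M * h.natDegree + a x
  fac : ∃ g kk : GL (Fin n) (Ab h (2 * M)), g ∈ H.G (Ab h (2 * M)) ∧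
    P₁.map (AdjoinRoot.mk (h ^ (2 * M))) =
      (g : Mat n _) * (phm D.χ (D.es ι) p).map (AdjoinRoot.mk (h ^ (2 * M))) * (kk : Mat n _)
  det : ∃ f₃ : A[X], IsCoprime f₃ h ∧ P₁.det = f₃ * ∏ i, p (D.χ i)

/-- Weyl group data for the cocharacter `a`. -/
structure Wey (D : H.Datum) (ι : D.l →ₐ[k] A) (a : (Fin D.r → ℤ) →+ ℤ) (d : ℕ)
    (pe : Fin d → Equiv.Perm (Fin D.r → ℤ)) (nw : Fin d → GL (Fin n) A)
    (ν : (Fin D.r → ℤ) →+ ℤ) : Prop where
  pos : 0 < d
  mem : ∀ w, nw w ∈ H.G A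
  perm : ∀ w x, pe w x ∈ XX D.χ ↔ x ∈ XX D.χ
  conj : ∀ w, ∀ x ∈ XX D.χ, (nw w : Mat n A) * D.es ι (pe w x) *
    (((nw w)⁻¹ : GL (Fin n) A) : Mat n A) = D.es ι x
  sum : ∀ x ∈ XX D.χ, ν x = ∑ w, a (pe w x)
  comm : ∀ g ∈ H.G A, ∀ m : ℤ, Commute (g : Mat n A) (lamE D.χ (D.es ι) ν m)

/-- Every point of `G` over a finite algebra is a product of two values of `p`. -/
def Jets {σ : Type} (p : H.Param σ) (Om : Type u) [Field Om] [Algebra k Om] : Prop :=
  ∀ (A : Type u) [CommRing A] [Algebra k A] [Algebra Om A] [IsScalarTower k Om A]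
    [Module.Finite Om A], ∀ g ∈ H.G A, ∃ (v v' : σ → A)
      (hv : IsUnit (MvPolynomial.aeval v p.f)) (hv' : IsUnit (MvPolynomial.aeval v' p.f)),
        g = p.at v hv * p.at v' hv'

end HS

end Pool.Agent.GR
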