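import Pool.Agent.P.MP_c1f06d_ag.r.K2Alg
import Pool.Agent.P.MP_c1f06d_ag.r.K2Mod

open Matrix Polynomial

universe u

namespace Pool.Agent.GR

variable {R Om : Type u} [CommRing R] [IsDomain R] [IsLocalRing R] [Field Om] [IsAlgClosed Om]

namespace K2Det

theorem taylor_dvd {A : Type u} [CommRing A] (c : A) {p q : A[X]} (h : p ∣ q) :
    taylor c p ∣ taylor c q := by
  obtain ⟨t, rfl⟩ := h
  exact ⟨taylor c t, taylor_mul c p t⟩

theorem taylor_cop {A : Type u} [CommRing A] (c : A) {p q : A[X]} (h : IsCoprime p q) :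
    IsCoprime (taylor c p) (taylor c q) := h.map (taylorAlgHom c : A[X] →+* A[X])

theorem taylor_neg_taylor {A : Type u} [CommRing A] (c : A) (p : A[X]) :
    taylor (-c) (taylor c p) = p := by
  rw [taylor_taylor, neg_add_cancel, taylor_zero]

theorem taylor_taylor_neg {A : Type u} [CommRing A] (c : A) (p : A[X]) :
    taylor c (taylor (-c) p) = p := by
  rw [taylor_taylor, add_neg_cancel, taylor_zero]

theorem taylor_prod' {A : Type u} [CommRing A] (c : A) {ι : Type} (S : Finset ι) (p : ι → A[X]) :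
    taylor c (∏ i ∈ S, p i) = ∏ i ∈ S, taylor c (p i) := map_prod (taylorAlgHom c) p S

theorem taylor_dvd_pow {A : Type u} [CommRing A] (c : A) {p q : A[X]} {N : ℕ} (h : p ∣ q ^ N) :
    taylor c p ∣ taylor c q ^ N := by
  rw [← taylor_pow]
  exact taylor_dvd c h

theorem monic_taylor' {A : Type u} [CommRing A] (c : A) {p : A[X]} (h : p.Monic) :
    (taylor c p).Monic := by
  rw [Monic, leadingCoeff_taylor]
  exact h

end K2Det

open K2Det

/-- DETK over the field. `πs` divides each translate of `δ` (clear the denominator of `κ w`, it is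
coprime to `πs`); the translates of `πs` are pairwise coprime, so their product divides `δ`; both
are monic of the same degree. -/
theorem det_field {h δ πs : Om[X]} (hδ : δ.Monic) (hπ : πs.Monic) {N : ℕ} (hπd : πs ∣ h ^ N)
    {d : ℕ} (c : Fin d → Om)
    (hc : Pairwise fun w w' => IsCoprime (taylor (-c w) h) (taylor (-c w') h))
    (hdeg : δ.natDegree = d * πs.natDegree)
    (hdiv : ∀ w, ∃ s : Om[X], IsCoprime s h ∧ πs ∣ s * taylor (c w) δ) :
    δ = ∏ w, taylor (-c w) πs := by
  have h1 : ∀ w, taylor (-c w) πs ∣ δ := by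
    intro w
    obtain ⟨s, hs, hd⟩ := hdiv w
    have hsπ : IsCoprime πs s := (IsCoprime.of_isCoprime_of_dvd_right hs.pow_right hπd).symm
    have := taylor_dvd (-c w) (hsπ.dvd_of_dvd_mul_left hd)
    rwa [taylor_neg_taylor] at this
  have h2 : (∏ w, taylor (-c w) πs) ∣ δ := by
    refine Finset.prod_dvd_of_coprime ?_ fun w _ => h1 w
    intro w _ w' _ hne
    exact IsCoprime.of_isCoprime_of_dvd_right
      (IsCoprime.of_isCoprime_of_dvd_left (IsCoprime.pow (hc hne)) (taylor_dvd_pow _ hπd))
      (taylor_dvd_pow _ hπd)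
  refine eq_of_monic_of_dvd_of_natDegree_le
    (monic_prod_of_monic _ _ fun w _ => monic_taylor' _ hπ) hδ h2 ?_
  rw [natDegree_prod_of_monic _ _ fun w _ => monic_taylor' _ hπ, hdeg]
  simp [natDegree_taylor]

/-- DETK. Write `κ w = a / s`; over `Om`, `det_field` gives `taylor (c w) δ = πs * (coprime to h)`,
so `a` is coprime to `h` (`cop_of_res`). For the divisibility, the ideal `(δ : h₁ ^ N')` contains
`δ` and, for each `w`, the translate of a polynomial coprime to `h`; these have no common root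
(`exists_root_of_ne_top`). -/
theorem detk (φ : R →+* Om) (hφ : ∀ r, φ r ≠ 0 → IsUnit r) {h δ p f : R[X]} (hm : h.Monic)
    (hu : ¬ IsUnit h) (hδ : δ.Monic) {πs f₃ : Om[X]} (hπ : πs.Monic) {N N' : ℕ}
    (hπd : πs ∣ h.map φ ^ N) (hf₃ : IsCoprime f₃ (h.map φ)) (hp : p.map φ = f₃ * πs)
    (hf : IsCoprime f h) (hpd : p ∣ f * h ^ N') {d : ℕ} (c : Fin d → R)
    (hc : Pairwise fun w w' =>
      IsCoprime (taylor (-φ (c w)) (h.map φ)) (taylor (-φ (c w')) (h.map φ)))
    (hdeg : δ.natDegree = d * πs.natDegree) (κ : Fin d → OO h)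
    (hκ : ∀ w, algebraMap R[X] (OO h) (taylor (c w) δ) = algebraMap R[X] (OO h) p * κ w) :
    (∀ w, IsUnit (κ w)) ∧ δ ∣ (∏ w, taylor (-c w) h) ^ N' := by
  classical
  have hfr : ∀ w, ∃ a s : R[X], IsCoprime s h ∧ s * taylor (c w) δ = p * a ∧
      κ w * algebraMap R[X] (OO h) s = algebraMap R[X] (OO h) a := by
    intro w
    obtain ⟨⟨a, s⟩, hs⟩ := IsLocalization.surj (copr h) (κ w)
    have e1 : algebraMap R[X] (OO h) ((s : R[X]) * taylor (c w) δ) =
        algebraMap R[X] (OO h) (p * a) := by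
      rw [map_mul, map_mul, hκ w, ← hs]
      ring
    obtain ⟨t, ht⟩ := (IsLocalization.eq_iff_exists (copr h) (OO h)).1 e1
    refine ⟨t * a, t * s, IsCoprime.mul_left t.2 s.2, by linear_combination ht, ?_⟩
    rw [map_mul, map_mul, ← hs]
    ring
  choose a s hs hsa hκa using hfr
  have hbar : ∀ w, (s w).map φ * taylor (φ (c w)) (δ.map φ) = f₃ * πs * (a w).map φ := by
    intro w
    rw [← map_taylor, ← Polynomial.map_mul, hsa w, Polynomial.map_mul, hp]
  have hsb : ∀ w, IsCoprime ((s w).map φ) (h.map φ) := fun w => (hs w).map (mapRingHom φ)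
  have hδb : δ.map φ = ∏ w, taylor (-φ (c w)) πs := by
    refine det_field (hδ.map φ) hπ hπd (fun w => φ (c w)) hc ?_ fun w => ⟨_, hsb w, ?_⟩
    · rw [hδ.natDegree_map, hdeg]
    · rw [hbar w]
      exact Dvd.dvd.mul_right (dvd_mul_left _ _) _
  have ha : ∀ w, IsCoprime (a w) h := by
    intro w
    refine cop_of_res φ hφ hm ?_
    have hQ : IsCoprime (∏ w' ∈ Finset.univ.erase w, taylor (-φ (c w')) πs)
        (taylor (-φ (c w)) (h.map φ)) := by
      refine IsCoprime.prod_left fun w' hw' => ?_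
      exact IsCoprime.of_isCoprime_of_dvd_left
        (IsCoprime.pow_left (hc (Finset.ne_of_mem_erase hw'))) (taylor_dvd_pow _ hπd)
    have hQ' := taylor_cop (φ (c w)) hQ
    rw [taylor_taylor_neg] at hQ'
    have e := hbar w
    rw [hδb, ← Finset.mul_prod_erase _ _ (Finset.mem_univ w), taylor_mul, taylor_taylor_neg] at e
    have e' : (s w).map φ *
        taylor (φ (c w)) (∏ w' ∈ Finset.univ.erase w, taylor (-φ (c w')) πs) =
        f₃ * (a w).map φ := by
      refine mul_left_cancel₀ hπ.ne_zero ?_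
      linear_combination e
    have := IsCoprime.mul_left (hsb w) hQ'
    rw [e'] at this
    exact this.of_mul_left_right
  refine ⟨fun w => ?_, ?_⟩
  · have : IsUnit (algebraMap R[X] (OO h) (a w)) :=
      IsLocalization.map_units (M := copr h) (OO h) ⟨a w, ha w⟩
    rw [← hκa w] at this
    exact isUnit_of_mul_isUnit_left this
  · let I : Ideal R[X] :=
      { carrier := {g | δ ∣ g * (∏ w, taylor (-c w) h) ^ N'}
        add_mem' := fun {x y} hx hy => by
          show δ ∣ (x + y) * _
          rw [add_mul]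
          exact dvd_add hx hy
        zero_mem' := by
          show δ ∣ 0 * _
          rw [zero_mul]
          exact dvd_zero _
        smul_mem' := fun x y hy => by
          show δ ∣ (x * y) * _
          rw [mul_assoc]
          exact Dvd.dvd.mul_left hy _ }
    have hδI : δ ∈ I := dvd_mul_right _ _
    have hg : ∀ w, taylor (-c w) (a w * f) ∈ I := by
      intro w
      obtain ⟨q, hq⟩ := hpd
      have e1 : taylor (c w) δ ∣ a w * f * h ^ N' :=
        ⟨s w * q, by linear_combination a w * hq - q * hsa w⟩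
      have e2 := taylor_dvd (-c w) e1
      rw [taylor_neg_taylor, taylor_mul, taylor_pow] at e2
      exact e2.trans (mul_dvd_mul_left _
        (pow_dvd_pow_of_dvd (Finset.dvd_prod_of_mem _ (Finset.mem_univ w)) _))
    by_contra hn
    have hI : I ≠ ⊤ := by
      intro hI
      have : (1 : R[X]) ∈ I := hI ▸ Submodule.mem_top
      exact hn (by simpa [I] using this)
    obtain ⟨z, hz⟩ := exists_root_of_ne_top φ hφ I hI hδ hδI
    have h0 := hz δ hδI
    rw [hδb, eval_prod, Finset.prod_eq_zero_iff] at h0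
    obtain ⟨w, -, hw⟩ := h0
    have h1 : (taylor (-φ (c w)) (h.map φ)).eval z = 0 := by
      have := eval_eq_zero_of_dvd_of_eval_eq_zero (taylor_dvd_pow (-φ (c w)) hπd) hw
      rw [eval_pow] at this
      exact (pow_eq_zero_iff'.1 this).1
    have h2 := hz _ (hg w)
    have h3 : IsCoprime ((taylor (-c w) (a w * f)).map φ) ((taylor (-c w) h).map φ) :=
      (taylor_cop (-c w) (IsCoprime.mul_left (ha w) hf)).map (mapRingHom φ)
    have h4 := h3.map (evalRingHom z)
    rw [coe_evalRingHom, h2, map_taylor, map_neg, h1] at h4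
    exact not_isCoprime_zero_zero h4

end Pool.Agent.GR
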