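import Pool.Agent.P.MP_c1f06d_ag.r.Defs

/-! Cokernels of matrices along a monic polynomial over a local ring. -/

open Matrix Polynomial IsLocalRing

universe u

namespace Pool.Agent.GR

/-- The cokernel of a square matrix. -/
abbrev Cok {O : Type u} [CommRing O] {n : ℕ} (P : Mat n O) : Type u :=
  (Fin n → O) ⧸ LinearMap.range P.mulVecLin

/-- `O` looks like `R[X]` along the zero set of the monic polynomial `h`. -/
structure Exc {R : Type u} [CommRing R] (h : R[X]) (O : Type u) [CommRing O] [Algebra R[X] O] :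
    Prop where
  monic : h.Monic
  reg : ∀ (I : Ideal R) (x : O),
    algebraMap R[X] O h * x ∈ I.map ((algebraMap R[X] O).comp C) →
      x ∈ I.map ((algebraMap R[X] O).comp C)
  apx : ∀ x : O, ∃ (a : R[X]) (y : O), x = algebraMap R[X] O a + algebraMap R[X] O h * y
  dvd : ∀ a : R[X], algebraMap R[X] O h ∣ algebraMap R[X] O a → h ∣ a
  unit : ∀ f : R[X], IsCoprime f h → IsUnit (algebraMap R[X] O f)

variable {R : Type u} [CommRing R] {n : ℕ}

theorem monic_mul_mem_map {h a : R[X]} (hh : h.Monic) (I : Ideal R)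
    (ha : h * a ∈ I.map (C : R →+* R[X])) : a ∈ I.map (C : R →+* R[X]) := by
  have key : I.map (C : R →+* R[X]) = RingHom.ker (mapRingHom (Ideal.Quotient.mk I)) := by
    rw [Polynomial.ker_mapRingHom, Ideal.mk_ker]
  rw [key, RingHom.mem_ker] at ha ⊢
  rw [map_mul] at ha
  exact ((hh.map (Ideal.Quotient.mk I)).mul_right_eq_zero_iff).1 ha

theorem exc_OO {h : R[X]} (hh : h.Monic) : Exc h (OO h) := by
  have hu : ∀ f : R[X], IsCoprime f h → IsUnit (algebraMap R[X] (OO h) f) := fun f hf =>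
    IsLocalization.map_units (OO h) (⟨f, hf⟩ : copr h)
  refine ⟨hh, fun I x hx => ?_, fun x => ?_, fun a ha => ?_, hu⟩
  · rw [← Ideal.map_map] at hx ⊢
    obtain ⟨⟨a, s⟩, hs⟩ := IsLocalization.surj (copr h) x
    have hs' : x * algebraMap R[X] (OO h) s = algebraMap R[X] (OO h) a := hs
    have h1 : algebraMap R[X] (OO h) (h * a) ∈
        (I.map (C : R →+* R[X])).map (algebraMap R[X] (OO h)) := by
      rw [map_mul, ← hs', ← mul_assoc]
      exact Ideal.mul_mem_right _ _ hx
    obtain ⟨t, ht, hta⟩ :=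
      (IsLocalization.algebraMap_mem_map_algebraMap_iff (copr h) (OO h) _ _).1 h1
    have h2 : t * a ∈ I.map (C : R →+* R[X]) := by
      refine monic_mul_mem_map hh I ?_
      rwa [mul_left_comm]
    have h3 := Ideal.mem_map_of_mem (algebraMap R[X] (OO h)) h2
    rw [map_mul, ← hs', ← mul_assoc, mul_right_comm] at h3
    exact (Ideal.unit_mul_mem_iff_mem _ ((hu t ht).mul (hu s s.2))).1 h3
  · obtain ⟨⟨a, s⟩, hs⟩ := IsLocalization.surj (copr h) x
    have hs' : x * algebraMap R[X] (OO h) s = algebraMap R[X] (OO h) a := hs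
    obtain ⟨p, q, hpq⟩ : IsCoprime (s : R[X]) h := s.2
    refine ⟨p * a, algebraMap R[X] (OO h) q * x, ?_⟩
    have h1 := congrArg (algebraMap R[X] (OO h)) hpq
    rw [map_add, map_mul, map_mul, map_one] at h1
    rw [map_mul, ← hs']
    linear_combination (-x) * h1
  · obtain ⟨x, hx⟩ := ha
    obtain ⟨⟨b, s⟩, hs⟩ := IsLocalization.surj (copr h) x
    have hs' : x * algebraMap R[X] (OO h) s = algebraMap R[X] (OO h) b := hs
    have h1 : algebraMap R[X] (OO h) (a * s) = algebraMap R[X] (OO h) (h * b) := by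
      rw [map_mul, map_mul, hx, ← hs', mul_assoc]
    obtain ⟨t, ht⟩ := (IsLocalization.eq_iff_exists (copr h) (OO h)).1 h1
    have h2 : IsCoprime ((t : R[X]) * s) h := IsCoprime.mul_left t.2 s.2
    refine h2.symm.dvd_of_dvd_mul_left ⟨t * b, ?_⟩
    linear_combination ht

theorem mem_smul_top_pi {O : Type u} [CommRing O] [Algebra R O] (I : Ideal R) (x : Fin n → O)
    (hx : ∀ i, x i ∈ I.map (algebraMap R O)) : x ∈ I • (⊤ : Submodule R (Fin n → O)) := by
  rw [← Finset.univ_sum_single x]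
  refine Submodule.sum_mem _ fun i _ => ?_
  have h1 : x i ∈ I • (⊤ : Submodule R O) := by
    rw [Ideal.smul_top_eq_map]; exact hx i
  have h2 := Submodule.mem_map_of_mem (f := LinearMap.single R (fun _ : Fin n => O) i) h1
  rw [Submodule.map_smul''] at h2
  exact Submodule.smul_mono le_rfl le_top h2

theorem mem_map_of_mem_smul_top {O : Type u} [CommRing O] [Algebra R O] (I : Ideal R)
    (x : Fin n → O) (hx : x ∈ I • (⊤ : Submodule R (Fin n → O))) (i : Fin n) :
    x i ∈ I.map (algebraMap R O) := by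
  have h2 := Submodule.mem_map_of_mem (f := LinearMap.proj (R := R) (φ := fun _ : Fin n => O) i) hx
  rw [Submodule.map_smul''] at h2
  have h3 : x i ∈ I • (⊤ : Submodule R O) := Submodule.smul_mono le_rfl le_top h2
  rw [Ideal.smul_top_eq_map] at h3
  exact h3

theorem map_mem_smul_top {M N : Type u} [AddCommGroup M] [Module R M] [AddCommGroup N]
    [Module R N] (f : M →ₗ[R] N) (I : Ideal R) {x : M} (hx : x ∈ I • (⊤ : Submodule R M)) :
    f x ∈ I • (⊤ : Submodule R N) := by
  have h2 := Submodule.mem_map_of_mem (f := f) hx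
  rw [Submodule.map_smul''] at h2
  exact Submodule.smul_mono le_rfl le_top h2

theorem lTensor_quot_injective {M N : Type u} [AddCommGroup M] [Module R M] [AddCommGroup N]
    [Module R N] (f : M →ₗ[R] N) (I : Ideal R)
    (hf : ∀ x, f x ∈ I • (⊤ : Submodule R N) → x ∈ I • (⊤ : Submodule R M)) :
    Function.Injective (f.lTensor (R ⧸ I)) := by
  rw [injective_iff_map_eq_zero]
  intro z hz
  obtain ⟨x, rfl⟩ := TensorProduct.mk_surjective R M (R ⧸ I) Ideal.Quotient.mk_surjective z
  have h1 : f x ∈ LinearMap.ker (TensorProduct.mk R (R ⧸ I) N 1) := hz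
  rw [LinearMap.ker_tensorProductMk] at h1
  have h2 := hf x h1
  rw [← LinearMap.ker_tensorProductMk] at h2
  exact h2

/-- The class of a vector in the cokernel, as an `R`-linear map. -/
def cokMk (R : Type u) [CommRing R] {O : Type u} [CommRing O] [Algebra R O] (P : Mat n O) :
    (Fin n → O) →ₗ[R] Cok P :=
  (LinearMap.range P.mulVecLin).mkQ.restrictScalars R

theorem cokMk_surjective {O : Type u} [CommRing O] [Algebra R O] (P : Mat n O) :
    Function.Surjective (cokMk R P) :=
  Submodule.mkQ_surjective (LinearMap.range P.mulVecLin)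

theorem cokMk_eq_zero {O : Type u} [CommRing O] [Algebra R O] (P : Mat n O) (x : Fin n → O) :
    cokMk R P x = 0 ↔ ∃ η, P *ᵥ η = x :=
  Submodule.Quotient.mk_eq_zero _

theorem cokMk_mem_smul {O : Type u} [CommRing O] [Algebra R O] (P : Mat n O) (I : Ideal R)
    (x : Fin n → O) : cokMk R P x ∈ I • (⊤ : Submodule R (Cok P)) ↔
      ∃ η, ∀ i, (x - P *ᵥ η) i ∈ I.map (algebraMap R O) := by
  constructor
  · intro hx
    have h1 : I • (⊤ : Submodule R (Cok P)) = (I • ⊤ : Submodule R (Fin n → O)).map (cokMk R P) := by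
      rw [Submodule.map_smul'', Submodule.map_top,
        LinearMap.range_eq_top.2 (cokMk_surjective P)]
    rw [h1] at hx
    obtain ⟨z, hz, hzx⟩ := hx
    obtain ⟨η, hη⟩ := (cokMk_eq_zero (R := R) P (x - z)).1 (by rw [map_sub, hzx, sub_self])
    refine ⟨η, fun i => ?_⟩
    rw [hη, sub_sub_cancel]
    exact mem_map_of_mem_smul_top I z hz i
  · rintro ⟨η, hη⟩
    have h1 := map_mem_smul_top (cokMk R P) I (mem_smul_top_pi I _ hη)
    rwa [map_sub, (cokMk_eq_zero P _).2 ⟨η, rfl⟩, sub_zero] at h1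

namespace Exc

variable {h : R[X]} {O : Type u} [CommRing O] [Algebra R[X] O]

theorem reg_pow (E : Exc h O) (I : Ideal R) (N : ℕ) {x : O}
    (hx : algebraMap R[X] O (h ^ N) * x ∈ I.map ((algebraMap R[X] O).comp C)) :
    x ∈ I.map ((algebraMap R[X] O).comp C) := by
  induction N with
  | zero => simpa using hx
  | succ N ih =>
    refine ih (E.reg I _ ?_)
    rwa [← mul_assoc, ← map_mul, ← pow_succ']

theorem cancel (E : Exc h O) (N : ℕ) {x : O} (hx : algebraMap R[X] O (h ^ N) * x = 0) : x = 0 := by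
  have h1 := E.reg_pow ⊥ N (x := x) (by rw [hx]; exact Ideal.zero_mem _)
  rwa [Ideal.map_bot, Ideal.mem_bot] at h1

theorem apx_pow (E : Exc h O) (N : ℕ) (x : O) :
    ∃ (a : R[X]) (y : O), x = algebraMap R[X] O a + algebraMap R[X] O (h ^ N) * y := by
  induction N with
  | zero => exact ⟨0, x, by simp⟩
  | succ N ih =>
    obtain ⟨a, y, hy⟩ := ih
    obtain ⟨b, z, hz⟩ := E.apx y
    refine ⟨a + h ^ N * b, z, ?_⟩
    rw [hy, hz, map_add, map_mul, pow_succ, map_mul]
    ring

theorem dvd_pow (E : Exc h O) (N : ℕ) (a : R[X])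
    (ha : algebraMap R[X] O (h ^ N) ∣ algebraMap R[X] O a) : h ^ N ∣ a := by
  induction N generalizing a with
  | zero => simp
  | succ N ih =>
    obtain ⟨x, hx⟩ := ha
    obtain ⟨b, rfl⟩ := E.dvd a ⟨algebraMap R[X] O (h ^ N) * x, by
      rw [hx, pow_succ', map_mul, mul_assoc]⟩
    have h1 : algebraMap R[X] O b = algebraMap R[X] O (h ^ N) * x := by
      refine sub_eq_zero.1 (E.cancel 1 ?_)
      rw [pow_one, mul_sub, ← map_mul, hx, pow_succ', map_mul, mul_assoc, sub_self]
    rw [pow_succ']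
    exact mul_dvd_mul_left h (ih b ⟨x, h1⟩)

variable [Algebra R O] [IsScalarTower R R[X] O]

theorem algebraMap_eq : algebraMap R O = (algebraMap R[X] O).comp C :=
  IsScalarTower.algebraMap_eq R R[X] O

/-- Vectors of polynomials of bounded degrees, mapped to `O ^ n`. -/
noncomputable def polyVec (O : Type u) [CommRing O] [Algebra R[X] O] [Algebra R O]
    [IsScalarTower R R[X] O] (c : R) (m : Fin n → ℕ) :
    (∀ i, degreeLT R (m i)) →ₗ[R] (Fin n → O) :=
  LinearMap.pi fun i => (IsScalarTower.toAlgHom R R[X] O).toLinearMap ∘ₗ taylor c ∘ₗ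
    (degreeLT R (m i)).subtype ∘ₗ LinearMap.proj i

theorem polyVec_apply (c : R) (m : Fin n → ℕ) (v : ∀ i, degreeLT R (m i)) (i : Fin n) :
    polyVec O c m v i = algebraMap R[X] O (taylor c (v i : R[X])) := rfl

theorem exists_polyVec (E : Exc h O) (N : ℕ) (x : Fin n → O) :
    ∃ (v : ∀ _ : Fin n, degreeLT R (h ^ N).natDegree) (y : Fin n → O),
      x = polyVec O 0 _ v + algebraMap R[X] O (h ^ N) • y := by
  rcases subsingleton_or_nontrivial R with hR | hR
  · have := Module.subsingleton R O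
    exact ⟨0, 0, Subsingleton.elim _ _⟩
  have hm : (h ^ N).Monic := E.monic.pow N
  choose a y hy using fun i => E.apx_pow N (x i)
  refine ⟨fun i => ⟨a i %ₘ h ^ N, mem_degreeLT.2 ?_⟩,
    fun i => y i + algebraMap R[X] O (a i /ₘ h ^ N), funext fun i => ?_⟩
  · rw [← degree_eq_natDegree hm.ne_zero]
    exact degree_modByMonic_lt _ hm
  · have h1 := congrArg (algebraMap R[X] O) (modByMonic_add_div (a i) (h ^ N))
    rw [map_add, map_mul] at h1
    rw [Pi.add_apply, polyVec_apply, taylor_zero, Pi.smul_apply, smul_eq_mul, hy i, ← h1]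
    ring

/-- K2 (a), finiteness. -/
theorem cok_finite (E : Exc h O) {N : ℕ} {P P' : Mat n O}
    (hP : P * P' = algebraMap R[X] O (h ^ N) • (1 : Mat n O)) : Module.Finite R (Cok P) := by
  refine Module.Finite.of_surjective
    (cokMk R P ∘ₗ polyVec O 0 fun _ : Fin n => (h ^ N).natDegree) fun z => ?_
  obtain ⟨x, rfl⟩ := cokMk_surjective (R := R) P z
  obtain ⟨v, y, rfl⟩ := E.exists_polyVec N x
  refine ⟨v, ?_⟩
  rw [map_add, (cokMk_eq_zero P (_ • y)).2 ⟨P' *ᵥ y, by
    rw [mulVec_mulVec, hP, smul_mulVec, one_mulVec]⟩, add_zero]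
  rfl

theorem cok_scalar_free (E : Exc h O) (N : ℕ) :
    Module.Free R (Cok (algebraMap R[X] O (h ^ N) • (1 : Mat n O))) := by
  rcases subsingleton_or_nontrivial R with hR | hR
  · exact Module.Free.of_subsingleton' R _
  have hm : (h ^ N).Monic := E.monic.pow N
  refine Module.Free.of_equiv (LinearEquiv.ofBijective
    (cokMk R _ ∘ₗ polyVec O 0 fun _ : Fin n => (h ^ N).natDegree) ⟨?_, fun z => ?_⟩)
  · rw [injective_iff_map_eq_zero]
    intro v hv
    obtain ⟨η, hη⟩ := (cokMk_eq_zero (R := R) _ _).1 hv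
    funext i
    have h1 := congrFun hη i
    rw [smul_mulVec, one_mulVec, polyVec_apply, taylor_zero, Pi.smul_apply, smul_eq_mul] at h1
    have h2 := E.dvd_pow N _ ⟨_, h1.symm⟩
    have h3 := mem_degreeLT.1 (v i).2
    rw [← degree_eq_natDegree hm.ne_zero] at h3
    exact Subtype.ext (by_contra fun h0 => hm.not_dvd_of_degree_lt h0 h3 h2)
  · obtain ⟨x, rfl⟩ := cokMk_surjective (R := R) _ z
    obtain ⟨v, y, rfl⟩ := E.exists_polyVec N x
    refine ⟨v, ?_⟩
    rw [map_add, (cokMk_eq_zero _ (_ • y)).2 ⟨y, by rw [smul_mulVec, one_mulVec]⟩, add_zero]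
    rfl

/-- K2 (a), freeness. -/
theorem cok_free [IsLocalRing R] (E : Exc h O) {N : ℕ} {P P' : Mat n O}
    (hP : P * P' = algebraMap R[X] O (h ^ N) • (1 : Mat n O))
    (hP' : P' * P = algebraMap R[X] O (h ^ N) • (1 : Mat n O)) : Module.Free R (Cok P) := by
  set S : Mat n O := algebraMap R[X] O (h ^ N) • (1 : Mat n O) with hS
  have hSv : ∀ y, S *ᵥ y = algebraMap R[X] O (h ^ N) • y := fun y => by
    rw [hS, smul_mulVec, one_mulVec]
  let f : Cok P' →ₗ[O] Cok S := Submodule.mapQ _ _ P.mulVecLin (by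
    rintro _ ⟨y, rfl⟩
    exact ⟨y, by simp only [mulVecLin_apply, mulVec_mulVec, hP]⟩)
  let g : Cok S →ₗ[O] Cok P := Submodule.mapQ _ _ LinearMap.id (by
    rintro _ ⟨y, rfl⟩
    exact ⟨P' *ᵥ y, by simp only [mulVecLin_apply, mulVec_mulVec, hP, LinearMap.id_apply]⟩)
  have hf : ∀ x, f (cokMk R P' x) = cokMk R S (P *ᵥ x) := fun _ => rfl
  have hg : ∀ x, g (cokMk R S x) = cokMk R P x := fun _ => rfl
  have := E.cok_finite hP'
  have : Module.Finite R (Cok S) := E.cok_finite (P' := 1) (N := N) (by rw [mul_one])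
  have : Module.Free R (Cok S) := E.cok_scalar_free N
  refine Module.free_of_lTensor_residueField_injective (f := f.restrictScalars R)
    (g := g.restrictScalars R) (fun z => ?_) (fun z => ?_) ?_
  · obtain ⟨x, rfl⟩ := cokMk_surjective (R := R) P z
    exact ⟨_, hg x⟩
  · obtain ⟨x, rfl⟩ := cokMk_surjective (R := R) S z
    constructor
    · intro hz
      obtain ⟨η, rfl⟩ := (cokMk_eq_zero (R := R) P x).1 hz
      exact ⟨cokMk R P' η, hf η⟩
    · rintro ⟨z', hz'⟩
      obtain ⟨η, rfl⟩ := cokMk_surjective (R := R) P' z'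
      rw [← hz']
      exact (cokMk_eq_zero (R := R) P (P *ᵥ η)).2 ⟨η, rfl⟩
  · refine lTensor_quot_injective _ (maximalIdeal R) fun z hz => ?_
    obtain ⟨x, rfl⟩ := cokMk_surjective (R := R) P' z
    obtain ⟨η, hη⟩ := (cokMk_mem_smul S _ (P *ᵥ x)).1 hz
    refine (cokMk_mem_smul P' _ x).2 ⟨η, fun i => ?_⟩
    rw [algebraMap_eq] at hη ⊢
    refine E.reg_pow _ N ?_
    have h1 : algebraMap R[X] O (h ^ N) • (x - P' *ᵥ η) = P' *ᵥ (P *ᵥ x - S *ᵥ η) := by
      rw [mulVec_sub, mulVec_mulVec, hP', hSv, hSv, mulVec_smul, smul_sub]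
    have h2 := congrFun h1 i
    rw [Pi.smul_apply, smul_eq_mul] at h2
    rw [h2, mulVec, dotProduct]
    exact Ideal.sum_mem _ fun j _ => Ideal.mul_mem_left _ _ (hη j)

end Exc

/-- Changing the matrix by an invertible one on the left. -/
noncomputable def cokEquiv {O : Type u} [CommRing O] (g : GL (Fin n) O) (P : Mat n O) :
    Cok P ≃ₗ[O] Cok ((g : Mat n O) * P) :=
  Submodule.Quotient.equiv _ _ (GeneralLinearGroup.toLin g).toLinearEquiv (by
    rw [mulVecLin_mul, LinearMap.range_comp]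
    rfl)

end Pool.Agent.GR
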