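import Pool.Agent.P.MP_c1f06d_ag.r.K2Defs

/-! The value at infinity of a polynomial point. -/

open Matrix Polynomial

universe u

namespace Pool.Agent.GR

variable {R : Type u} [CommRing R] {n : ℕ}

/-- Laurent series in `1 / s`. -/
abbrev Lau (R : Type u) [CommRing R] : Type u :=
  Localization.Away (PowerSeries.X : PowerSeries R)

/-- The variable `s` as a unit of the ring of Laurent series in `1 / s`. -/
noncomputable def sU (R : Type u) [CommRing R] : (Lau R)ˣ :=
  (IsLocalization.Away.algebraMap_isUnit (S := Lau R) (PowerSeries.X : PowerSeries R)).unit⁻¹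

theorem sU_inv : (((sU R)⁻¹ : (Lau R)ˣ) : Lau R) =
    algebraMap (PowerSeries R) (Lau R) PowerSeries.X := by
  rw [sU, inv_inv, IsUnit.unit_spec]

theorem lau_inj : Function.Injective (algebraMap (PowerSeries R) (Lau R)) := by
  refine IsLocalization.injective (M := Submonoid.powers (PowerSeries.X : PowerSeries R)) _ ?_
  rintro _ ⟨j, rfl⟩
  refine mem_nonZeroDivisors_iff_left.2 fun z hz => ?_
  exact PowerSeries.X_pow_mul_cancel (k := j) (by rw [mul_zero]; exact hz)

theorem aeval_sU (N : ℕ) (f : R[X]) (hf : f.natDegree ≤ N) :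
    aeval (sU R : Lau R) f =
      algebraMap (PowerSeries R) (Lau R) (reflect N f : R[X]) * (sU R : Lau R) ^ N := by
  let : Invertible (sU R : Lau R) := (sU R).invertible
  rw [aeval_def, ← eval₂_reflect_mul_pow _ _ N f hf, ← Polynomial.eval₂_C_X_eq_coe,
    hom_eval₂, ← sU_inv]
  rfl

theorem const_of_aeval_sU {a : R[X]} {z : PowerSeries R}
    (h : aeval (sU R : Lau R) a = algebraMap (PowerSeries R) (Lau R) z) :
    a = C (PowerSeries.constantCoeff z) := by
  have h1 : ((reflect a.natDegree a : R[X]) : PowerSeries R) = PowerSeries.X ^ a.natDegree * z := by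
    apply lau_inj
    rw [map_mul, map_pow, ← h, aeval_sU _ a le_rfl, ← sU_inv, mul_left_comm, ← mul_pow,
      Units.inv_mul, one_pow, mul_one]
  have h2 := congrArg (PowerSeries.coeff 0) h1
  rw [Polynomial.coeff_coe, coeff_reflect, revAt_zero, PowerSeries.coeff_X_pow_mul'] at h2
  by_cases h0 : a.natDegree = 0
  · rw [if_pos h0.le] at h2
    rw [h0] at h2
    rw [eq_C_of_natDegree_eq_zero h0, h2]
    simp
  · rw [if_neg (by omega)] at h2
    have h3 : a = 0 := leadingCoeff_eq_zero.1 h2
    exact absurd (by rw [h3, natDegree_zero]) h0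

theorem Lead.rig_natDegree_le {m : Fin n → ℕ} {U : Mat n R[X]} (hU : Lead m U) (i j : Fin n) :
    (U i j).natDegree ≤ m i := by
  refine natDegree_le_iff_degree_le.2 ?_
  have h1 : U i j = (U i j - if i = j then X ^ m i else 0) + if i = j then X ^ m i else 0 := by
    ring
  rw [h1]
  refine (degree_add_le _ _).trans (max_le (hU i j).le ?_)
  split_ifs
  · exact degree_X_pow_le _
  · simp

theorem Lead.rig_coeff_eq {m : Fin n → ℕ} {U : Mat n R[X]} (hU : Lead m U) (i j : Fin n) :
    (U i j).coeff (m i) = (1 : Mat n R) i j := by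
  have h1 := coeff_eq_zero_of_degree_lt (hU i j)
  rw [coeff_sub, sub_eq_zero] at h1
  rw [h1, one_apply]
  split_ifs <;> simp

namespace HS

variable {k : Type u} [Field k] (H : HS k n) [Algebra k R]

theorem rig_act_inv {A : Type u} [CommRing A] [Algebra k A] {g : GL (Fin n) A}
    {y y' : H.B →ₐ[k] A} (h : H.act g y = y') : H.act g⁻¹ y' = y := by
  rw [← h, ← H.act_mul, inv_mul_cancel, H.act_one]

/-- A point that is polynomial in `s` and regular at infinity is constant. -/
theorem const_of_poly {L : Type u} [CommRing L] [Algebra R[X] L] [Algebra k L]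
    [IsScalarTower k R[X] L] {q : R[X]} (hq : q.Monic) [IsLocalization.Away q L]
    (yR : H.B →ₐ[k] R) (ν : Fin n → ℤ) (hfix : H.Fixed ν yR) (m : Fin n → ℕ) (M : ℕ)
    (hm : ∀ i, (m i : ℤ) = M * q.natDegree + ν i) (U : Mat n R[X]) (hU : Lead m U)
    (g : GL (Fin n) L)
    (hg : algebraMap R[X] L (q ^ M) • (g : Mat n L) = U.map (algebraMap R[X] L))
    (hval : ∀ b, H.act g⁻¹ ((IsScalarTower.toAlgHom k R[X] L).comp
      ((IsScalarTower.toAlgHom k R R[X]).comp yR)) b ∈ Set.range (algebraMap R[X] L)) :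
    H.act g⁻¹ ((IsScalarTower.toAlgHom k R[X] L).comp
        ((IsScalarTower.toAlgHom k R R[X]).comp yR)) =
      (IsScalarTower.toAlgHom k R[X] L).comp ((IsScalarTower.toAlgHom k R R[X]).comp yR) := by
  -- the unit `e` and the matrix `u` over the power series
  have he : IsUnit ((reflect q.natDegree q : R[X]) : PowerSeries R) := by
    rw [PowerSeries.isUnit_iff_constantCoeff, ← PowerSeries.coeff_zero_eq_constantCoeff_apply,
      Polynomial.coeff_coe, coeff_reflect, revAt_zero, coeff_natDegree, hq.leadingCoeff]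
    exact isUnit_one
  obtain ⟨e, hee⟩ := he
  have he0 : PowerSeries.constantCoeff (e : PowerSeries R) = 1 := by
    rw [hee, ← PowerSeries.coeff_zero_eq_constantCoeff_apply,
      Polynomial.coeff_coe, coeff_reflect, revAt_zero, coeff_natDegree, hq.leadingCoeff]
  have he1 : PowerSeries.constantCoeff ((e⁻¹ : (PowerSeries R)ˣ) : PowerSeries R) = 1 := by
    have := congrArg PowerSeries.constantCoeff e.mul_inv
    rwa [map_mul, he0, one_mul, map_one] at this
  let u0 : Mat n (PowerSeries R) := of fun i j =>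
    ((e⁻¹ : (PowerSeries R)ˣ) : PowerSeries R) ^ M * ((reflect (m i) (U i j) : R[X]) : PowerSeries R)
  have hu0 : u0.map PowerSeries.constantCoeff = 1 := by
    ext i j
    rw [map_apply, show u0 i j = _ * _ from rfl, map_mul, map_pow, he1, one_pow, one_mul,
      ← PowerSeries.coeff_zero_eq_constantCoeff_apply, Polynomial.coeff_coe, coeff_reflect,
      revAt_zero, hU.rig_coeff_eq]
  have hu1 : IsUnit u0 := by
    rw [isUnit_iff_isUnit_det, PowerSeries.isUnit_iff_constantCoeff, RingHom.map_det,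
      RingHom.mapMatrix_apply, hu0, det_one]
    exact isUnit_one
  obtain ⟨u, hu⟩ := hu1
  -- the algebra maps
  let jD : R[X] →ₐ[k] Lau R := (aeval (sU R : Lau R)).restrictScalars k
  have hjq : jD q = algebraMap (PowerSeries R) (Lau R) e * (sU R : Lau R) ^ q.natDegree := by
    rw [hee]; exact aeval_sU _ q le_rfl
  have hjqu : IsUnit (jD q) := by
    rw [hjq]
    exact (e.isUnit.map _).mul ((sU R).isUnit.pow _)
  let jL : L →ₐ[k] Lau R := IsLocalization.Away.liftAlgHom q hjqu
  have hjL : ∀ a, jL (algebraMap R[X] L a) = jD a := fun a => IsLocalization.Away.lift_eq q hjqu a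
  let jP : PowerSeries R →ₐ[k] Lau R := IsScalarTower.toAlgHom k (PowerSeries R) (Lau R)
  let jG : GA R ℤ →ₐ[k] Lau R := (AddMonoidAlgebra.lift R (Lau R) ℤ
    ((Units.coeHom (Lau R)).comp (zpowersHom (Lau R)ˣ (sU R)))).restrictScalars k
  have hjG : ∀ δ : ℤ, jG (uu R δ : (GA R ℤ)ˣ) = ((sU R ^ δ : (Lau R)ˣ) : Lau R) := fun δ => by
    change AddMonoidAlgebra.lift R (Lau R) ℤ _ (AddMonoidAlgebra.single δ 1) = _
    rw [AddMonoidAlgebra.lift_single, one_smul]
    rfl
  let c0 : PowerSeries R →ₐ[k] R :=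
    { PowerSeries.constantCoeff with commutes' := fun a => by simp [PowerSeries.algebraMap_apply] }
  let yP : H.B →ₐ[k] PowerSeries R := (IsScalarTower.toAlgHom k R (PowerSeries R)).comp yR
  let yL : H.B →ₐ[k] L :=
    (IsScalarTower.toAlgHom k R[X] L).comp ((IsScalarTower.toAlgHom k R R[X]).comp yR)
  have hy1 : jL.comp yL = jP.comp yP := by
    ext b
    change jL (algebraMap R[X] L (algebraMap R R[X] (yR b))) = _
    rw [hjL]
    exact (aeval (sU R : Lau R)).commutes (yR b)
  have hy2 : jG.comp ((IsScalarTower.toAlgHom k R (GA R ℤ)).comp yR) = jP.comp yP := by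
    ext b
    exact (AddMonoidAlgebra.lift R (Lau R) ℤ _).commutes (yR b)
  have hrho : H.act (gm jG (rho R ν)) (jP.comp yP) = jP.comp yP := by
    have h1 := congrArg jG.comp hfix
    rw [orb, H.act_nat, hy2] at h1
    exact h1
  have hfac : gm jL g = gm jG (rho R ν) * gm jP u := by
    ext i j
    refine (hjqu.pow M).mul_right_injective ?_
    have h1 := congrArg jL (congrFun (congrFun hg i) j)
    rw [Matrix.smul_apply, smul_eq_mul, map_mul, map_apply, hjL, hjL, map_pow] at h1
    have h2 : (gm jG (rho R ν) * gm jP u) i j =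
        ((sU R ^ ν i : (Lau R)ˣ) : Lau R) * jP (u0 i j) := by
      rw [← hjG, ← hu]
      change (((diagonal fun i => ((uu R (ν i) : (GA R ℤ)ˣ) : GA R ℤ)).map jG) *
        ((u : Mat n (PowerSeries R)).map jP)) i j = _
      rw [diagonal_map (map_zero _), diagonal_mul, map_apply]
    have h3 : jD (U i j) = jP (reflect (m i) (U i j) : R[X]) * (sU R : Lau R) ^ m i :=
      aeval_sU _ _ (hU.rig_natDegree_le i j)
    have h4 : (sU R : Lau R) ^ m i =
        ((sU R : Lau R) ^ q.natDegree) ^ M * ((sU R ^ ν i : (Lau R)ˣ) : Lau R) := by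
      rw [← pow_mul, ← Units.val_pow_eq_pow_val, ← Units.val_pow_eq_pow_val, ← Units.val_mul,
        ← _root_.zpow_natCast, ← _root_.zpow_natCast, ← _root_.zpow_add, hm i]
      push_cast
      rw [mul_comm (q.natDegree : ℤ)]
    have h5 : jP (e : PowerSeries R) ^ M * jP ((e⁻¹ : (PowerSeries R)ˣ) : PowerSeries R) ^ M = 1 := by
      rw [← mul_pow, ← map_mul, e.mul_inv, map_one, one_pow]
    change jD q ^ M * jL (g i j) = jD q ^ M * _
    rw [h1, h2, h3, h4, hjq, show u0 i j = _ * _ from rfl, map_mul, map_pow, mul_pow]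
    change _ = jP e ^ M * _ * _
    linear_combination (-(jP (reflect (m i) (U i j) : R[X]) *
      (((sU R : Lau R) ^ q.natDegree) ^ M * ((sU R ^ ν i : (Lau R)ˣ) : Lau R)))) * h5
  have hmain : jL.comp (H.act g⁻¹ yL) = jP.comp (H.act u⁻¹ yP) := by
    rw [H.act_nat, H.act_nat, map_inv, map_inv, hy1, hfac, _root_.mul_inv_rev, H.act_mul,
      H.rig_act_inv hrho]
  have hc0 : c0.comp (H.act u⁻¹ yP) = yR := by
    have h1 : gm c0 u = 1 := by
      ext i j
      change ((u : Mat n (PowerSeries R)).map PowerSeries.constantCoeff) i j = _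
      rw [hu, hu0]
      rfl
    rw [H.act_nat, map_inv, h1, inv_one, H.act_one]
    ext b
    simp [c0, yP]
  ext b
  obtain ⟨a, ha⟩ := hval b
  have h1 : jL (H.act g⁻¹ yL b) = jP (H.act u⁻¹ yP b) := DFunLike.congr_fun hmain b
  have h2 : c0 (H.act u⁻¹ yP b) = yR b := DFunLike.congr_fun hc0 b
  rw [← show algebraMap R[X] L a = H.act g⁻¹ yL b from ha, hjL] at h1
  rw [← ha, const_of_aeval_sU h1]
  exact congrArg (fun x => algebraMap R[X] L (C x)) h2

end HS

end Pool.Agent.GR
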