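import Pool.Agent.P.MP_c1f06d_ag.r.K2Alg
import Pool.Agent.P.MP_c1f06d_ag.r.K2Mod
import Pool.Agent.P.MP_c1f06d_ag.r.Inf
import Pool.Agent.P.MP_c1f06d_ag.r.RigA
import Pool.Agent.P.MP_c1f06d_ag.r.RigC

open Matrix Polynomial

universe u

namespace Pool.Agent.GR

section alg

variable {R : Type u} [CommRing R]

theorem rig_ooh_inj {h : R[X]} (hm : h.Monic) : Function.Injective (algebraMap (OO h) (OOh h)) := by
  refine IsLocalization.injective (M := Submonoid.powers (algebraMap R[X] (OO h) h)) _ ?_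
  rintro _ ⟨j, rfl⟩
  refine mem_nonZeroDivisors_iff_left.2 fun z hz => (exc_OO hm).cancel j ?_
  rw [map_pow]
  exact hz

theorem rig_taylor_cancel (c : R) (p : R[X]) : taylor c (taylor (-c) p) = p := by
  rw [taylor_taylor, add_neg_cancel, taylor_zero]

theorem rig_taylor_prod {h : R[X]} {d : ℕ} (c : Fin d → R)
    (hc : Pairwise fun w w' => IsCoprime (taylor (-c w) h) (taylor (-c w') h)) (w : Fin d) :
    ∃ r : R[X], IsCoprime r h ∧ taylor (c w) (∏ w', taylor (-c w') h) = h * r := by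
  refine ⟨∏ w' ∈ Finset.univ.erase w, taylor (c w) (taylor (-c w') h), ?_, ?_⟩
  · refine IsCoprime.prod_left fun w' hw' => ?_
    have h1 := (hc (Finset.ne_of_mem_erase hw')).map (taylorAlgHom (c w) : R[X] →+* R[X])
    have h2 : (taylorAlgHom (c w) : R[X] →+* R[X]) (taylor (-c w) h) = h := rig_taylor_cancel _ _
    rw [h2] at h1
    exact h1
  · rw [← Finset.mul_prod_erase _ _ (Finset.mem_univ w), taylor_mul, rig_taylor_cancel]
    exact congrArg (h * ·) (map_prod (taylorAlgHom (c w)) _ _)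

theorem rig_prod_pow_dvd {h a : R[X]} {d : ℕ} (c : Fin d → R)
    (hc : Pairwise fun w w' => IsCoprime (taylor (-c w) h) (taylor (-c w') h)) (j : ℕ)
    (ha : ∀ w, h ^ j ∣ taylor (c w) a) : (∏ w, taylor (-c w) h) ^ j ∣ a := by
  rw [← Finset.prod_pow]
  refine Fintype.prod_dvd_of_coprime (fun w w' hw => (hc hw).pow) fun w => ?_
  have h1 := map_dvd (taylorAlgHom (-c w)) (ha w)
  have h2 : taylorAlgHom (-c w) (taylor (c w) a) = a := by
    simpa using rig_taylor_cancel (-c w) a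
  rw [map_pow, h2] at h1
  exact h1

/-- LOCD. -/
theorem mem_range_of_transl [IsDomain R] {h : R[X]} (hm : h.Monic) (_hu : ¬ IsUnit h) {d : ℕ}
    (c : Fin d → R)
    (hc : Pairwise fun w w' => IsCoprime (taylor (-c w) h) (taylor (-c w') h))
    {L : Type u} [CommRing L] [Algebra R[X] L] [IsLocalization.Away (∏ w, taylor (-c w) h) L]
    (θ : Fin d → L →+* OOh h)
    (hθ : ∀ w p, θ w (algebraMap R[X] L p) = algebraMap R[X] (OOh h) (taylor (c w) p))
    (x : L) (hx : ∀ w, ∃ z : OO h, θ w x = algebraMap (OO h) (OOh h) z) :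
    ∃ a : R[X], algebraMap R[X] L a = x := by
  obtain ⟨j, a, ha⟩ := IsLocalization.Away.surj (∏ w, taylor (-c w) h) x
  obtain ⟨b, rfl⟩ : (∏ w, taylor (-c w) h) ^ j ∣ a := by
    refine rig_prod_pow_dvd c hc j fun w => (exc_OO hm).dvd_pow j _ ?_
    obtain ⟨z, hz⟩ := hx w
    obtain ⟨r, -, hr⟩ := rig_taylor_prod c hc w
    have h1 := congrArg (θ w) ha
    rw [map_mul, map_pow, hθ, hθ, hz, hr] at h1
    refine ⟨algebraMap R[X] (OO h) r ^ j * z, rig_ooh_inj hm ?_⟩
    rw [map_mul, map_mul, map_pow, map_pow, map_pow]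
    refine h1.symm.trans ?_
    rw [map_mul, mul_pow, mul_comm, mul_assoc]
    rfl
  refine ⟨b, ((IsLocalization.Away.algebraMap_isUnit
    (S := L) (∏ w, taylor (-c w) h)).pow j).mul_right_injective ?_⟩
  rw [map_mul, map_pow, mul_comm x] at ha
  exact ha.symm

end alg

namespace HS

variable {k : Type u} [Field k] {n : ℕ} (H : HS k n)

/-- A fixed point is fixed by every value of the cocharacter. -/
theorem Fixed.act_dgU {H : HS k n} {A A' : Type u} [CommRing A] [Algebra k A] [CommRing A']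
    [Algebra k A'] {ν : Fin n → ℤ} {y : H.B →ₐ[k] A} (hy : H.Fixed ν y) (f : A →ₐ[k] A') (t : A'ˣ) :
    H.act (dgU fun i => t ^ ν i) (f.comp y) = f.comp y := by
  let j : GA A ℤ →ₐ[k] A' := AddMonoidAlgebra.liftNCAlgHom f
    ((Units.coeHom A').comp (zpowersHom A'ˣ t)) fun _ _ => Commute.all _ _
  have hj : ∀ (δ : ℤ) (a : A), j (AddMonoidAlgebra.single δ a) = f a * ((t ^ δ : A'ˣ) : A') :=
    fun δ a => AddMonoidAlgebra.liftNC_single _ _ _ _
  have h1 : j.comp ((IsScalarTower.toAlgHom k A (GA A ℤ)).comp y) = f.comp y := by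
    ext b
    change j (AddMonoidAlgebra.single 0 (y b)) = _
    rw [hj, zpow_zero, Units.val_one, mul_one]
    rfl
  have h2 : gm j (rho A ν) = dgU fun i => t ^ ν i := by
    refine Units.ext ?_
    change (diagonal fun i => ((uu A (ν i) : (GA A ℤ)ˣ) : GA A ℤ)).map j = diagonal _
    rw [diagonal_map (map_zero _)]
    refine congrArg diagonal (funext fun i => ?_)
    change j (AddMonoidAlgebra.single (ν i) 1) = _
    rw [hj, map_one, one_mul]
  have h3 := congrArg j.comp hy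
  rw [orb, H.act_nat, h1, h2] at h3
  exact h3

variable {R : Type u} [CommRing R] [IsDomain R] [Algebra k R]

/-- FIN. -/
theorem k2_fin {h : R[X]} (hm : h.Monic) (hu : ¬ IsUnit h) {M : ℕ} {P₁ P₂ : Mat n R[X]} {f : R[X]}
    {y : H.B →ₐ[k] OO h} (hM : H.Mod h M P₁ P₂ f y) {d : ℕ} (hd : 0 < d) (c : Fin d → R)
    (hc : Pairwise fun w w' => IsCoprime (taylor (-c w) h) (taylor (-c w') h))
    (c₀ : R) (hc₀ : ∀ w, IsUnit (h.eval (c₀ - c w))) (β : GL (Fin n) R) (ν : Fin n → ℤ)
    (hfix : H.Fixed ν (H.act β⁻¹ (H.pt R))) (dg : Fin n → ℕ)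
    (hdg : ∀ i, (dg i : ℤ) = d * (M * h.natDegree) + ν i) (U : Mat n R[X]) (hU : Lead dg U)
    {N : ℕ} (hdiv : U.det ∣ (∏ w, taylor (-c w) h) ^ N) (g kk : Fin d → GL (Fin n) (OO h))
    (hg : ∀ w, g w ∈ H.G (OO h))
    (hk : ∀ w, ((β : Mat n R).map C * U).map (fun p => algebraMap R[X] (OO h) (taylor (c w) p)) =
      (g w : Mat n (OO h)) * P₁.map (algebraMap R[X] (OO h)) * (kk w : Mat n (OO h))) :
    H.Triv y := by
  have hpt : ∀ {A A' : Type u} [CommRing A] [Algebra k A] [CommRing A'] [Algebra k A']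
      (φ : A →ₐ[k] A'), φ.comp (H.pt A) = H.pt A' :=
    fun φ => AlgHom.ext fun b => φ.commutes (H.y0 b)
  have hmon : ∀ w, (taylor (-c w) h).Monic := fun w => by
    rw [Monic, leadingCoeff_taylor]; exact hm
  set q : R[X] := ∏ w, taylor (-c w) h with hqdef
  have hq : q.Monic := monic_prod_of_monic _ _ fun w _ => hmon w
  have hqd : q.natDegree = d * h.natDegree := by
    rw [hqdef, natDegree_prod_of_monic _ _ fun w _ => hmon w]
    simp
  let L := Localization.Away q
  obtain ⟨uq, huq⟩ := IsLocalization.Away.algebraMap_isUnit (S := L) q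
  have hdet : IsUnit (U.map (algebraMap R[X] L)).det := by
    refine isUnit_of_dvd_unit (y := (uq : L) ^ N) ?_ (uq.isUnit.pow N)
    rw [huq, ← map_pow, ← RingHom.mapMatrix_apply, ← RingHom.map_det]
    exact map_dvd _ hdiv
  obtain ⟨g0, hg0⟩ : IsUnit ((((uq⁻¹ : Lˣ) : L) ^ M) • U.map (algebraMap R[X] L)) := by
    rw [isUnit_iff_isUnit_det, det_smul]
    exact (((uq⁻¹).isUnit.pow M).pow _).mul hdet
  have hg1 : algebraMap R[X] L (q ^ M) • (g0 : Mat n L) = U.map (algebraMap R[X] L) := by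
    rw [hg0, smul_smul, map_pow, ← huq, ← mul_pow, Units.mul_inv, one_pow, one_smul]
  let iL : R →ₐ[k] L := (IsScalarTower.toAlgHom k R[X] L).comp (IsScalarTower.toAlgHom k R R[X])
  let iO : R →ₐ[k] OO h :=
    (IsScalarTower.toAlgHom k R[X] (OO h)).comp (IsScalarTower.toAlgHom k R R[X])
  let yL : H.B →ₐ[k] L := (IsScalarTower.toAlgHom k R[X] L).comp
    ((IsScalarTower.toAlgHom k R R[X]).comp (H.act β⁻¹ (H.pt R)))
  have hyL : yL = H.act (gm iL β)⁻¹ (H.pt L) := by
    rw [← map_inv, ← hpt iL, ← H.act_nat]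
    rfl
  let ph : GL (Fin n) L := gm iL β * g0
  have hph : algebraMap R[X] L (q ^ M) • (ph : Mat n L) =
      ((β : Mat n R).map C * U).map (algebraMap R[X] L) := by
    rw [Matrix.map_mul, ← hg1, Matrix.mul_smul, Matrix.map_map]
    rfl
  have hyy : H.act g0⁻¹ yL = H.act ph⁻¹ (H.pt L) := by
    rw [hyL, ← H.act_mul, ← _root_.mul_inv_rev]
  obtain ⟨ψ, hψ1, hψ2⟩ := hM.mov
  have hhu : IsUnit (algebraMap R[X] (OOh h) h) :=
    IsLocalization.Away.algebraMap_isUnit (S := OOh h) (algebraMap R[X] (OO h) h)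
  have key : ∀ w, ∃ (θ : L →ₐ[k] OOh h) (κ : GL (Fin n) (OO h)),
      (∀ p, θ (algebraMap R[X] L p) = algebraMap R[X] (OOh h) (taylor (c w) p)) ∧
        θ.comp (H.act g0⁻¹ yL) = (toH k h).comp (H.act κ⁻¹ y) := fun w => by
    obtain ⟨r, hr, hqr⟩ := rig_taylor_prod c hc w
    obtain ⟨ur, hur⟩ := (exc_OO hm).unit r hr
    let θ0 : R[X] →ₐ[k] OOh h := (toH k h).comp ((IsScalarTower.toAlgHom k R[X] (OO h)).comp
      ((taylorAlgHom (c w)).restrictScalars k))
    have hθ0 : ∀ p, θ0 p = algebraMap R[X] (OOh h) (taylor (c w) p) := fun _ => rfl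
    have hθq : θ0 q = algebraMap R[X] (OOh h) h * toH k h ur := by
      rw [hθ0, hqr, map_mul, hur]
      rfl
    have hθu : IsUnit (θ0 q) := by
      rw [hθq]
      exact hhu.mul (ur.isUnit.map _)
    let θ : L →ₐ[k] OOh h := IsLocalization.Away.liftAlgHom q hθu
    have hθ : ∀ p, θ (algebraMap R[X] L p) = θ0 p := fun p => IsLocalization.Away.lift_eq q hθu p
    let κ : GL (Fin n) (OO h) := dgU (fun _ => ur⁻¹ ^ M) * kk w
    have hκ : (ur : OO h) ^ M • (κ : Mat n (OO h)) = kk w := by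
      change _ • (diagonal (fun _ => ((ur⁻¹ ^ M : (OO h)ˣ) : OO h)) * (kk w : Mat n (OO h))) = _
      rw [← smul_one_eq_diagonal, Matrix.smul_mul, one_mul, smul_smul, Units.val_pow_eq_pow_val,
        ← mul_pow, Units.mul_inv, one_pow, one_smul]
    have hfac : gm θ ph = gm (toH k h) (g w) * ψ * gm (toH k h) κ := by
      refine Units.ext ((hθu.pow M).smul_left_cancel.1 ?_)
      have h1 : θ0 q ^ M • ((ph : Mat n L).map θ) =
          (((β : Mat n R).map C * U).map
            fun p => algebraMap R[X] (OO h) (taylor (c w) p)).map (toH k h) := by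
        ext i j
        have h2 := congrArg θ (congrFun (congrFun hph i) j)
        rw [Matrix.smul_apply, smul_eq_mul, map_mul, map_apply, hθ, hθ, map_pow] at h2
        exact h2
      have h3 : (P₁.map (algebraMap R[X] (OO h))).map (toH k h) =
          algebraMap R[X] (OOh h) h ^ M • (ψ : Mat n (OOh h)) := hψ1
      have h4 : (kk w : Mat n (OO h)).map (toH k h) =
          toH k h ur ^ M • (κ : Mat n (OO h)).map (toH k h) := by
        rw [← hκ]
        ext i j
        simp only [map_apply, Matrix.smul_apply, smul_eq_mul, map_mul, map_pow]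
      change θ0 q ^ M • ((ph : Mat n L).map θ) = θ0 q ^ M •
        ((g w : Mat n (OO h)).map (toH k h) * (ψ : Mat n (OOh h)) *
          (κ : Mat n (OO h)).map (toH k h))
      rw [h1, hk w, Matrix.map_mul, Matrix.map_mul, h3, h4, hθq, mul_pow, Matrix.mul_smul,
        Matrix.mul_smul, Matrix.smul_mul, smul_smul, mul_comm]
    refine ⟨θ, κ, fun p => hθ p, ?_⟩
    have h5 : H.act (gm (toH k h) (g w)) (H.pt (OOh h)) = H.pt (OOh h) := by
      rw [← hpt (toH k h), ← H.act_nat, show H.act (g w) (H.pt (OO h)) = _ from hg w]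
    rw [hyy, H.act_nat, H.act_nat, map_inv, map_inv, hpt, hfac, _root_.mul_inv_rev,
      _root_.mul_inv_rev, H.act_mul, H.act_mul, H.rig_act_inv h5, H.rig_act_inv hψ2]
  choose θ κ hθ hact using key
  have hconst : H.act g0⁻¹ yL = yL := by
    refine H.const_of_poly hq _ ν hfix dg M (fun i => ?_) U hU g0 hg1 fun b => ?_
    · rw [hdg i, hqd]
      push_cast
      ring
    · exact mem_range_of_transl hm hu c hc (fun w => (θ w : L →+* OOh h)) hθ _ fun w =>
        ⟨H.act (κ w)⁻¹ y b, DFunLike.congr_fun (hact w) b⟩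
  let w : Fin d := ⟨0, hd⟩
  have h6 : (θ w).comp iL = (toH k h).comp iO := by
    ext a
    change θ w (algebraMap R[X] L (C a)) = _
    rw [hθ, taylor_C]
    rfl
  have h7 : H.act (κ w)⁻¹ y = H.act (gm iO β)⁻¹ (H.pt (OO h)) := by
    have h8 : (toH k h).comp (H.act (κ w)⁻¹ y) =
        (toH k h).comp (iO.comp (H.act β⁻¹ (H.pt R))) := by
      rw [← hact w, hconst]
      exact congrArg (fun φ : R →ₐ[k] OOh h => φ.comp (H.act β⁻¹ (H.pt R))) h6
    rw [← map_inv, ← hpt iO, ← H.act_nat]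
    exact AlgHom.ext fun b => rig_ooh_inj hm (DFunLike.congr_fun h8 b)
  refine ⟨gm iO β * (κ w)⁻¹, ?_⟩
  rw [H.act_mul, h7, ← H.act_mul, mul_inv_cancel, H.act_one]

end HS

end Pool.Agent.GR
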