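import Pool.Agent.P.MP_c1f06d_ag.r.K2Alg
import Pool.Agent.P.MP_c1f06d_ag.r.K2Mod
import Pool.Agent.P.MP_c1f06d_ag.r.TorB
import Pool.Agent.P.MP_c1f06d_ag.r.Cartan
import Pool.Agent.P.MP_c1f06d_ag.r.Attr
import Pool.Agent.P.MP_c1f06d_ag.r.Intw

open Matrix Polynomial

universe u

namespace Pool.Agent.GR

namespace HS

variable {k : Type u} [Field k] {n : ℕ} (H : HS k n) {Om : Type u} [Field Om] [Algebra k Om]

/-- The statement CONJ over `Om`. -/
def ConjP (D : H.Datum) (ι : D.l →ₐ[k] Om) : Prop :=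
  ∀ (a : Fin n → ℤ) (ka : GL (Fin n) Om), H.Fixed a (H.act ka⁻¹ (H.pt Om)) →
    ∃ (a₀ : (Fin D.r → ℤ) →+ ℤ) (g : GL (Fin n) Om), g ∈ H.G Om ∧ ∀ m : ℤ,
      ((g * ka : GL (Fin n) Om) : Mat n Om) * eps Om a m *
        (((g * ka)⁻¹ : GL (Fin n) Om) : Mat n Om) = lamE D.χ (D.es ι) a₀ m

end HS

namespace K2L

theorem prod_zpow_right {G ι : Type*} [CommGroup G] (s : Finset ι) (t : G) (f : ι → ℤ) :
    ∏ j ∈ s, t ^ f j = t ^ ∑ j ∈ s, f j := by
  classical
  induction s using Finset.induction_on with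
  | empty => simp
  | insert a s ha ih => rw [Finset.prod_insert ha, Finset.sum_insert ha, _root_.zpow_add, ih]

section dvr

variable {W : Type u} [CommRing W] [IsDomain W] {ϖ : W}

theorem valRing (hd : ∀ w : W, w ≠ 0 → ∃ (u : Wˣ) (v : ℕ), w = u * ϖ ^ v) : ValuationRing W := by
  refine ValuationRing.iff_dvd_total.2 ⟨fun a b => ?_⟩
  by_cases ha : a = 0
  · exact Or.inr (ha ▸ dvd_zero b)
  by_cases hb : b = 0
  · exact Or.inl (hb ▸ dvd_zero a)
  obtain ⟨u, v, rfl⟩ := hd a ha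
  obtain ⟨u', v', rfl⟩ := hd b hb
  simp only [Units.mul_left_dvd, Units.dvd_mul_left]
  exact (le_total v v').imp (pow_dvd_pow ϖ) (pow_dvd_pow ϖ)

theorem le_of_pow_dvd (h0 : ϖ ≠ 0) (hn : ¬ IsUnit ϖ) {a b : ℕ} (h : ϖ ^ a ∣ ϖ ^ b) : a ≤ b :=
  (pow_dvd_pow_iff h0 hn).1 h

variable {k : Type u} [Field k] {n : ℕ} [Algebra k W] {F : Type u} [Field F] [Algebra W F]
  [IsFractionRing W F] [Algebra k F] [IsScalarTower k W F]

/-- CARTAN over a discrete valuation ring. -/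
theorem cartan_dvr (H : HS k n) (hd : ∀ w : W, w ≠ 0 → ∃ (u : Wˣ) (v : ℕ), w = u * ϖ ^ v) (t : Fˣ)
    (ht : algebraMap W F ϖ = t) (y1 : H.B →ₐ[k] W) (σ : GL (Fin n) F)
    (hσ : H.act σ ((IsScalarTower.toAlgHom k W F).comp y1) = H.pt F) (vp : W) (hvp : vp ≠ 0) :
    ∃ (κ k' : GL (Fin n) W) (a : Fin n → ℤ),
      σ = gm (IsScalarTower.toAlgHom k W F) κ * dgU (fun i => t ^ a i) *
        gm (IsScalarTower.toAlgHom k W F) k' ∧
      H.Fixed a ((Ideal.Quotient.mkₐ k (Ideal.span {vp})).comp (H.act κ⁻¹ (H.pt W))) := by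
  have := valRing hd
  obtain ⟨r, π, c, h1, -, h3⟩ := H.cartan (F := F) (fun a ha b hb => by
    by_cases a0 : a = 0
    · exact ⟨1, by rw [a0, pow_one]; exact dvd_zero b⟩
    obtain ⟨u, v, rfl⟩ := hd a a0
    obtain ⟨u', v', rfl⟩ := hd b hb
    have hv : v ≠ 0 := fun e => ha (by rw [e, pow_zero, mul_one]; exact u.isUnit)
    refine ⟨v', ?_⟩
    rw [mul_pow, Units.mul_left_dvd, ← pow_mul]
    exact (pow_dvd_pow ϖ (Nat.le_mul_of_pos_left v' (Nat.pos_of_ne_zero hv))).mul_left _) y1 σ hσ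
  obtain ⟨κ, k', e, hf⟩ := h3 vp hvp
  have h2 : ∀ j, ∃ (u : Wˣ) (v : ℕ),
      π j = Units.map (algebraMap W F : W →* F) u * t ^ (v : ℤ) := fun j => by
    obtain ⟨p, -, hp⟩ := h1 j
    obtain ⟨u, v, rfl⟩ := hd p fun e => (π j).ne_zero (by rw [← hp, e, map_zero])
    refine ⟨u, v, Units.ext ?_⟩
    rw [← hp, map_mul, map_pow, ht, zpow_natCast]
    rfl
  choose u v huv using h2
  let φ : (Fin r → ℤ) →+ ℤ :=
    { toFun := fun x => ∑ j, (v j : ℤ) * x j
      map_zero' := by simp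
      map_add' := fun x x' => by simp [mul_add, Finset.sum_add_distrib] }
  refine ⟨κ, (dgU fun i => ∏ j, u j ^ c i j) * k'⁻¹, fun i => φ (c i), ?_, hf.push φ⟩
  have e2 : (dgU fun i => ∏ j, π j ^ c i j) = dgU (fun i => t ^ φ (c i)) *
      gm (IsScalarTower.toAlgHom k W F) (dgU fun i => ∏ j, u j ^ c i j) := by
    refine Units.ext ?_
    show diagonal _ = diagonal _ * (diagonal _).map _
    rw [diagonal_map (map_zero _), diagonal_mul_diagonal]
    refine congrArg diagonal (funext fun i => ?_)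
    have : (∏ j, π j ^ c i j) =
        t ^ φ (c i) * Units.map (algebraMap W F : W →* F) (∏ j, u j ^ c i j) := by
      simp only [huv, mul_zpow, Finset.prod_mul_distrib, map_prod, map_zpow, ← _root_.zpow_mul]
      rw [mul_comm]
      refine congrArg (· * _) ?_
      exact prod_zpow_right _ _ _
    exact congrArg Units.val this
  rw [map_mul, map_inv, ← e, e2]
  group

end dvr

section grp

variable {k : Type u} [Field k] {n : ℕ} {H : HS k n} {Om : Type u} [Field Om] [Algebra k Om]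
  {W : Type u} [CommRing W] [Algebra k W] {A : Type u} [CommRing A] [Algebra k A]

theorem sum_eps {r : ℕ} (χ : Fin n → Fin r → ℤ) (p : (Fin r → ℤ) → W) :
    ∑ x ∈ XX χ, p x • eps W χ x = diagonal fun i => p (χ i) := by
  ext i j
  by_cases e : i = j
  · subst e
    simp [Matrix.sum_apply, eps, XX]
  · simp [Matrix.sum_apply, eps, e]

theorem lamE_es (D : H.Datum) (ι : D.l →ₐ[k] Om) (a : (Fin D.r → ℤ) → ℤ) (m : ℤ) :
    lamE D.χ (D.es ι) a m = ((gm ι D.γ : GL (Fin n) Om) : Mat n Om) *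
      eps Om (fun i => a (D.χ i)) m * (((gm ι D.γ)⁻¹ : GL (Fin n) Om) : Mat n Om) := by
  unfold lamE HS.Datum.es
  rw [← Finset.sum_mul, ← Finset.mul_sum]
  refine congrArg (fun Z => _ * Z * _) ?_
  ext i j
  by_cases e : i = j <;> simp [Matrix.sum_apply, eps, e, XX]

theorem phm_es (D : H.Datum) (ι : D.l →ₐ[k] Om) (p : (Fin D.r → ℤ) → Om[X]) (φ : Om[X] →+* W)
    (j : Om →ₐ[k] W) (hj : ∀ x, φ (C x) = j x) :
    (phm D.χ (D.es ι) p).map φ = ((gm j (gm ι D.γ) : GL (Fin n) W) : Mat n W) *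
      (diagonal fun i => φ (p (D.χ i))) * (((gm j (gm ι D.γ))⁻¹ : GL (Fin n) W) : Mat n W) := by
  rw [← sum_eps D.χ fun x => φ (p x), Finset.mul_sum, Finset.sum_mul]
  unfold phm
  refine (map_sum φ.mapMatrix _ _).trans (Finset.sum_congr rfl fun x _ => ?_)
  have e : ((D.es ι x).map C).map φ = (D.es ι x).map j := Matrix.ext fun _ _ => hj _
  have e2 : (eps Om D.χ x).map j = eps W D.χ x := by
    rw [eps, diagonal_map (map_zero _)]
    refine congrArg diagonal (funext fun i => ?_)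
    split_ifs
    exacts [map_one j, map_zero j]
  rw [Matrix.mul_smul, Matrix.smul_mul, ← e2, gm_val, gm_inv_val, ← K2M.map_mul', ← K2M.map_mul']
  exact Matrix.ext fun a b => (map_mul φ _ _).trans (congrArg (φ (p x) * ·) (hj _))

theorem lift_inL (ρ : W →ₐ[k] A) (hs : Function.Surjective ρ)
    (hu : ∀ x, IsUnit (ρ x) → IsUnit x) {a : Fin n → ℤ} {l : GL (Fin n) A}
    (hl : InL a (l : Mat n A)) : ∃ l' : GL (Fin n) W, InL a (l' : Mat n W) ∧ gm ρ l' = l := by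
  choose s hs using hs
  have e : (lv a ((l : Mat n A).map s)).map ρ = (l : Mat n A) := Matrix.ext fun i j => by
    show ρ (if a i = a j then s _ else 0) = _
    split_ifs with h
    exacts [hs _, (map_zero ρ).trans (hl i j h).symm]
  have hd : IsUnit (lv a ((l : Mat n A).map s)).det := by
    apply hu
    rw [AlgHom.map_det]
    show IsUnit ((lv a ((l : Mat n A).map s)).map ρ).det
    rw [e]
    exact (isUnit_iff_isUnit_det _).1 l.isUnit
  exact ⟨GeneralLinearGroup.mk'' _ hd, fun i j h => if_neg h, Units.ext e⟩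

theorem frame (D : H.Datum) (ι : D.l →ₐ[k] Om) (hc : H.ConjP D ι) (ρ : W →ₐ[k] A)
    (hs : Function.Surjective ρ) (hu : ∀ x, IsUnit (ρ x) → IsUnit x) (j : Om →ₐ[k] W)
    (ev : A →ₐ[k] Om) (J : Ideal A) (hJ : IsNilpotent J) (hev : ∀ x, x - ρ (j (ev x)) ∈ J)
    (κ : GL (Fin n) W) (a : Fin n → ℤ) (hf : H.Fixed a (ρ.comp (H.act κ⁻¹ (H.pt W)))) :
    ∃ (a₀ : (Fin D.r → ℤ) →+ ℤ) (g w : GL (Fin n) W), gm ρ g ∈ H.G A ∧
      Intw (fun i => a₀ (D.χ i)) a (w : Mat n W) ∧ κ = g * gm j (gm ι D.γ) * w ∧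
      ∀ i, ∃ i', a i' = a₀ (D.χ i) := by
  have e1 : ρ.comp (H.act κ⁻¹ (H.pt W)) = H.act (gm ρ κ)⁻¹ (H.pt A) := by
    rw [H.act_nat, H.pt_map, map_inv]
  have e2 : ev.comp (ρ.comp (H.act κ⁻¹ (H.pt W))) = H.act (gm ev (gm ρ κ))⁻¹ (H.pt Om) := by
    rw [e1, H.act_nat, H.pt_map, map_inv]
  have e3 : (ρ.comp j).comp (ev.comp (ρ.comp (H.act κ⁻¹ (H.pt W)))) =
      H.act (gm ρ (gm j (gm ev (gm ρ κ))))⁻¹ (H.pt A) := by
    rw [e2, H.act_nat, H.pt_map, map_inv, ← gm_comp]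
  obtain ⟨l, hl, -, hly⟩ := H.lfix a J hJ hf ((hf.comp ev).comp (ρ.comp j)) fun b => hev _
  obtain ⟨l', hl', rfl⟩ := lift_inL ρ hs hu hl
  obtain ⟨a₀, g, hg, hm⟩ := hc a (gm ev (gm ρ κ)) (e2 ▸ hf.comp ev)
  generalize gm ev (gm ρ κ) = κ₀ at e3 hm
  have hw : Intw (fun i => a₀ (D.χ i)) a (((gm ι D.γ)⁻¹ * (g * κ₀) : GL (Fin n) Om) : Mat n Om) :=
    intw_of_eps fun i => by
      have := hm (a i)
      rw [lamE_es, Units.mul_inv_eq_iff_eq_mul] at this
      rw [Units.val_mul (gm ι D.γ)⁻¹, Matrix.mul_assoc _ _ (eps Om a (a i)), this,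
        Matrix.mul_assoc, Matrix.mul_assoc, Units.inv_mul_cancel_left]
  refine ⟨a₀, κ * l'⁻¹ * (gm j κ₀)⁻¹ * (gm j g)⁻¹, gm j ((gm ι D.γ)⁻¹ * (g * κ₀)) * l', ?_, ?_, ?_,
    fun i => ?_⟩
  · rw [map_mul, map_inv]
    refine mul_mem ?_ (inv_mem (H.G_map ρ (H.G_map j hg)))
    rw [e3, e1] at hly
    rw [H.mem_G, map_mul, map_mul, map_inv, map_inv, H.act_mul, H.act_mul, ← hly, H.act_inv_act,
      H.act_act_inv]
  · exact Intw.mul (fun i i' h => (congrArg j (hw i i' h)).trans (map_zero j)) hl'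
  · rw [map_mul, map_mul, map_inv]
    group
  · obtain ⟨i', hi⟩ := exists_col_ne ((gm ι D.γ)⁻¹ * (g * κ₀))⁻¹ i
    exact ⟨i', by_contra fun h => hi (hw.inv i' i h)⟩

end grp

section poly

variable {Om : Type u} [Field Om] (z : Om)

theorem unit_of_not_dvd {q : Om[X]} (hq : ¬ X - C z ∣ q) :
    IsUnit (algebraMap Om[X] (OO (X - C z)) q) :=
  IsLocalization.map_units (M := copr (X - C z)) _
    ⟨q, ((irreducible_X_sub_C z).coprime_iff_not_dvd.2 hq).symm⟩

theorem oo_dom : IsDomain (OO (X - C z)) :=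
  IsLocalization.isDomain_of_le_nonZeroDivisors (M := copr (X - C z)) _ fun s hs =>
    mem_nonZeroDivisors_of_ne_zero fun e => not_isUnit_X_sub_C z
      (isCoprime_zero_left.1 (e ▸ (show IsCoprime s (X - C z) from hs)))

theorem not_unit : ¬ IsUnit (algebraMap Om[X] (OO (X - C z)) (X - C z)) := fun h => by
  obtain ⟨w, hw⟩ := h.exists_right_inv
  obtain ⟨⟨p, s⟩, e⟩ := IsLocalization.surj (copr (X - C z)) w
  have e1 : (X - C z) * p = (s : Om[X]) := oo_inj (not_isUnit_X_sub_C z) (by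
    have e2 : w * algebraMap Om[X] (OO (X - C z)) s = algebraMap Om[X] (OO (X - C z)) p := e
    have e3 : algebraMap Om[X] (OO (X - C z)) s =
        algebraMap Om[X] (OO (X - C z)) (X - C z) * w * algebraMap Om[X] (OO (X - C z)) s := by
      rw [hw, one_mul]
    rw [map_mul, e3, mul_assoc, e2])
  exact not_isUnit_X_sub_C z
    ((show IsCoprime (s : Om[X]) (X - C z) from s.2).isUnit_of_dvd' ⟨p, e1.symm⟩ dvd_rfl)

theorem oo_dec (w : OO (X - C z)) (hw : w ≠ 0) : ∃ (u : (OO (X - C z))ˣ) (v : ℕ),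
    w = (u : OO (X - C z)) * algebraMap Om[X] (OO (X - C z)) (X - C z) ^ v := by
  obtain ⟨⟨p, s⟩, e⟩ := IsLocalization.surj (copr (X - C z)) w
  obtain ⟨s', hs⟩ := IsLocalization.map_units (OO (X - C z)) s
  have hp : p ≠ 0 := fun h => hw (by
    rw [← hs, h, map_zero, Units.mul_left_eq_zero] at e
    exact e)
  obtain ⟨q, hq, hn⟩ := exists_eq_pow_rootMultiplicity_mul_and_not_dvd p hp z
  obtain ⟨q', hq'⟩ := unit_of_not_dvd z hn
  refine ⟨q' * s'⁻¹, p.rootMultiplicity z, ?_⟩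
  rw [Units.val_mul, mul_right_comm, Units.eq_mul_inv_iff_mul_eq, hs, hq', ← map_pow, ← map_mul,
    mul_comm q, ← hq]
  exact e

end poly

section bound

variable {k : Type u} [Field k] {n : ℕ} {W : Type u} [CommRing W] [IsDomain W] [Algebra k W]
  {F : Type u} [Field F] [Algebra W F] [IsFractionRing W F] [Algebra k F] [IsScalarTower k W F]

theorem bound {ϖ : W} (h0 : ϖ ≠ 0) (hn : ¬ IsUnit ϖ) (t : Fˣ) (ht : algebraMap W F ϖ = t)
    (κ k' : GL (Fin n) W) (a : Fin n → ℤ) (Q₁ Q₂ : Mat n W) (u u' : Wˣ) (m m' : ℕ)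
    (h1 : Q₁.map (algebraMap W F) = algebraMap W F (u * ϖ ^ m) •
      ((gm (IsScalarTower.toAlgHom k W F) κ * dgU (fun i => t ^ a i) *
        gm (IsScalarTower.toAlgHom k W F) k' : GL (Fin n) F) : Mat n F))
    (h2 : Q₂ * Q₁ = (u' * ϖ ^ m' : W) • (1 : Mat n W)) :
    ∃ (e : Fin n → ℕ) (k₃ : GL (Fin n) W), (∀ i, (e i : ℤ) = m + a i ∧ e i ≤ m') ∧
      Q₁ = (κ : Mat n W) * (diagonal fun i => ϖ ^ e i) * (k₃ : Mat n W) := by
  have inj : Function.Injective (algebraMap W F) := IsFractionRing.injective W F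
  set ι := IsScalarTower.toAlgHom k W F with hι
  have e1 : (((κ⁻¹ : GL (Fin n) W) : Mat n W) * Q₁ * ((k'⁻¹ : GL (Fin n) W) : Mat n W)).map ι =
      diagonal fun i => algebraMap W F u * ((t ^ ((m : ℤ) + a i) : Fˣ) : F) := by
    rw [K2M.map_mul', K2M.map_mul', ← gm_inv_val, ← gm_inv_val,
      show Q₁.map ι = _ from h1, Matrix.mul_smul, Matrix.smul_mul, Units.val_mul, Units.val_mul,
      Matrix.mul_assoc, Units.mul_inv_cancel_right, Units.inv_mul_cancel_left]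
    refine (diagonal_smul _ _).symm.trans (congrArg diagonal (funext fun i => ?_))
    rw [Pi.smul_apply, smul_eq_mul, map_mul, map_pow, ht, _root_.zpow_add, zpow_natCast,
      Units.val_mul, Units.val_pow_eq_pow_val, mul_assoc]
  generalize hT : ((κ⁻¹ : GL (Fin n) W) : Mat n W) * Q₁ * ((k'⁻¹ : GL (Fin n) W) : Mat n W) = T
    at e1
  have pos : ∀ i, 0 ≤ (m : ℤ) + a i := fun i => by
    by_contra hlt
    obtain ⟨s, hs⟩ := Int.eq_ofNat_of_zero_le (show 0 ≤ -((m : ℤ) + a i) - 1 by omega)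
    have e2 : algebraMap W F (T i i) = _ :=
      (congrFun (congrFun e1 i) i).trans (diagonal_apply_eq _ i)
    refine hn (IsUnit.of_mul_eq_one (ϖ ^ s * T i i * (u⁻¹ : Wˣ)) (inj ?_))
    have e3 : algebraMap W F u * algebraMap W F (u⁻¹ : Wˣ) = 1 := by
      rw [← map_mul, Units.mul_inv, map_one]
    have e4 : t * t ^ s * t ^ ((m : ℤ) + a i) = 1 := by
      rw [← _root_.pow_succ', ← zpow_natCast, ← _root_.zpow_add, Nat.cast_succ, ← hs]
      simp
    have e5 := congrArg Units.val e4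
    rw [Units.val_mul, Units.val_mul, Units.val_pow_eq_pow_val, Units.val_one] at e5
    rw [map_mul, map_mul, map_mul, map_pow, ht, e2, map_one]
    linear_combination e5 * (algebraMap W F u * algebraMap W F (u⁻¹ : Wˣ)) + e3
  choose e he using fun i => Int.eq_ofNat_of_zero_le (pos i)
  have e6 : T = (diagonal fun i => ϖ ^ e i) * ((dgU fun _ => u : GL (Fin n) W) : Mat n W) := by
    refine Matrix.map_injective (f := ι) inj (e1.trans ?_)
    show _ = Matrix.map (diagonal (fun i => ϖ ^ e i) * diagonal fun _ => (u : W)) ι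
    rw [diagonal_mul_diagonal, diagonal_map (map_zero _)]
    refine congrArg diagonal (funext fun i => ?_)
    rw [he, zpow_natCast, Units.val_pow_eq_pow_val, ← ht, map_mul, map_pow, mul_comm]
    rfl
  have e7 : Q₁ = (κ : Mat n W) * T * (k' : Mat n W) := by
    rw [← hT, Matrix.mul_assoc, Units.inv_mul_cancel_right, Units.mul_inv_cancel_left]
  refine ⟨e, (dgU fun _ => u) * k', fun i => ⟨(he i).symm, le_of_pow_dvd h0 hn ?_⟩, ?_⟩
  · have e8 : (k' : Mat n W) * Q₂ * (κ : Mat n W) * T = (u' * ϖ ^ m' : W) • (1 : Mat n W) := by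
      rw [← hT, Matrix.mul_assoc, Matrix.mul_assoc (κ⁻¹ : GL (Fin n) W).val,
        Units.mul_inv_cancel_left, Matrix.mul_assoc, ← Matrix.mul_assoc Q₂, h2, Matrix.smul_mul,
        Matrix.mul_smul, Matrix.one_mul, Units.mul_inv]
    have e9 := congrFun (congrFun e8 i) i
    rw [e6, ← Matrix.mul_assoc] at e9
    rw [← Units.dvd_mul_left (u := u')]
    refine ⟨((k' : Mat n W) * Q₂ * (κ : Mat n W)) i i * u, ?_⟩
    have e10 := (mul_diagonal _ _ i i).symm.trans e9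
    rw [mul_diagonal, Matrix.smul_apply, one_apply_eq, smul_eq_mul, mul_one] at e10
    rw [← e10]
    ring
  · rw [e7, e6, Units.val_mul, Matrix.mul_assoc, Matrix.mul_assoc, Matrix.mul_assoc]

end bound

end K2L

namespace HS

variable {k : Type u} [Field k] {n : ℕ} (H : HS k n) {Om : Type u} [Field Om] [Algebra k Om]

open K2L in
/-- LOC: the type of a modification at one root. -/
theorem k2_loc (D : H.Datum) (ι : D.l →ₐ[k] Om) (hc : H.ConjP D ι) {h : Om[X]} (hm : h.Monic)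
    {M : ℕ} {P₁ P₂ : Mat n Om[X]} {f : Om[X]} {y : H.B →ₐ[k] OO h} (hM : H.Mod h M P₁ P₂ f y)
    (z : Om) (hz : h.IsRoot z) (π : Om[X]) (hπ : π = X - C z) (N : ℕ) (hN : 0 < N) :
    ∃ (a : (Fin D.r → ℤ) →+ ℤ) (e : (Fin D.r → ℤ) → ℕ) (g kk : GL (Fin n) (OO π)),
      (∀ x ∈ XX D.χ, (e x : ℤ) = M * h.rootMultiplicity z + a x ∧
        e x ≤ 2 * M * h.rootMultiplicity z) ∧
      gm (red k π N) g ∈ H.G (Ab π N) ∧
      P₁.map (algebraMap Om[X] (OO π)) = (g : Mat n (OO π)) *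
        (phm D.χ (D.es ι) fun x => π ^ e x).map (algebraMap Om[X] (OO π)) *
          (kk : Mat n (OO π)) := by
  have hd : π ∣ h := hπ ▸ dvd_iff_isRoot.2 hz
  have dom : IsDomain (OO π) := hπ ▸ oo_dom z
  have hn : ¬ IsUnit (algebraMap Om[X] (OO π) π) := hπ ▸ not_unit z
  have hdec : ∀ w : OO π, w ≠ 0 → ∃ (u : (OO π)ˣ) (v : ℕ),
      w = u * algebraMap Om[X] (OO π) π ^ v := hπ ▸ oo_dec z
  have hun : ∀ q, ¬ π ∣ q → IsUnit (algebraMap Om[X] (OO π) q) :=
    hπ ▸ fun _ => unit_of_not_dvd z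
  have hnu : ¬ IsUnit π := hπ ▸ not_isUnit_X_sub_C z
  have inj := oo_inj hnu
  have inj2 := IsFractionRing.injective (OO π) (FractionRing (OO π))
  have nz : ∀ q : Om[X], q ≠ 0 → algebraMap Om[X] (OO π) q ≠ 0 := fun q hq e =>
    hq (inj (e.trans (map_zero _).symm))
  have h0 := nz π (hπ ▸ X_sub_C_ne_zero z)
  obtain ⟨q, hq, hqn⟩ := exists_eq_pow_rootMultiplicity_mul_and_not_dvd h hm.ne_zero z
  rw [← hπ] at hq hqn
  generalize h.rootMultiplicity z = m at hq ⊢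
  obtain ⟨uq, huq⟩ := hun q hqn
  obtain ⟨uf, huf⟩ := hun f fun e => hnu (hM.cop.isUnit_of_dvd' e hd)
  have hh : ∀ L : ℕ, algebraMap Om[X] (OO π) h ^ L =
      (uq ^ L : (OO π)ˣ) * algebraMap Om[X] (OO π) π ^ (L * m) := fun L => by
    rw [hq, map_mul, map_pow, ← huq, mul_pow, ← pow_mul, Units.val_pow_eq_pow_val, mul_comm,
      mul_comm m]
  obtain ⟨Θ, hΘ⟩ := exists_ooMap (AlgHom.id k Om[X]) h π hd
  set φ := IsScalarTower.toAlgHom k (OO π) (FractionRing (OO π)) with hφ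
  obtain ⟨Θ', hΘ'⟩ := exists_ohMap (φ.comp Θ) (IsUnit.mk0 _ fun e =>
    nz h hm.ne_zero (inj2 ((congrArg φ (hΘ h)).symm.trans e |>.trans (map_zero _).symm)))
  have hal : ∀ p, Θ' (algebraMap Om[X] (OOh h) p) = φ (algebraMap Om[X] (OO π) p) := fun p =>
    (DFunLike.congr_fun hΘ' (algebraMap Om[X] (OO h) p)).trans (congrArg φ (hΘ p))
  obtain ⟨ψ, hψ, hy⟩ := hM.mov
  have hσ := H.act_map Θ' hy
  rw [H.pt_map, ← AlgHom.comp_assoc, hΘ', AlgHom.comp_assoc] at hσ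
  obtain ⟨t, ht⟩ := (IsUnit.mk0 _ fun e => h0 (inj2 (e.trans (map_zero _).symm)) :
    IsUnit (algebraMap (OO π) (FractionRing (OO π)) (algebraMap Om[X] (OO π) π)))
  obtain ⟨κ, k', a, hs, hf⟩ := cartan_dvr H hdec t ht.symm _ _ hσ _ (pow_ne_zero N h0)
  obtain ⟨e, k₃, he, hP⟩ := bound (k := k) h0 hn t ht.symm κ k' a
    (P₁.map (algebraMap Om[X] (OO π))) (P₂.map (algebraMap Om[X] (OO π))) (uq ^ M)
    (uf * uq ^ (2 * M)) (M * m) (2 * M * m) (by
      rw [← hs, ← hh]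
      ext i j
      have := congrArg Θ' (congrFun (congrFun hψ i) j)
      rw [Matrix.smul_apply, smul_eq_mul, map_mul, map_pow, hal, map_apply, hal, ← map_pow] at this
      exact this) (by
      rw [← Matrix.map_mul, hM.mul', Units.val_mul, mul_assoc, ← hh, huf, ← map_pow, ← map_mul]
      ext i j
      by_cases e : i = j <;> simp [e])
  have hr : ∀ x ∈ Ideal.span {algebraMap Om[X] (OO π) π ^ N}, red k π N x = 0 := fun x hx => by
    obtain ⟨c, rfl⟩ := Ideal.mem_span_singleton'.1 hx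
    rw [map_mul, ← map_pow, red_alg, AdjoinRoot.mk_self, mul_zero]
  have hf2 : H.Fixed a ((red k π N).comp (H.act κ⁻¹ (H.pt (OO π)))) :=
    hf.comp (Ideal.Quotient.liftₐ _ (red k π N) hr)
  let j : Om →ₐ[k] OO π := (IsScalarTower.toAlgHom k Om[X] (OO π)).comp
    (IsScalarTower.toAlgHom k Om Om[X])
  let ev : Ab π N →ₐ[k] Om := AdjoinRoot.liftAlgHom (π ^ N) (AlgHom.id k Om) z (by
    rw [hπ, eval₂_pow]
    simp [hN.ne'])
  obtain ⟨a₀, g, w, hg, hw, hκ, hi⟩ := frame D ι hc (red k π N) (red_surj π N)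
    (isUnit_of_red π N hN) j ev (Ideal.span {AdjoinRoot.mk (π ^ N) π})
    ⟨N, by rw [Ideal.span_singleton_pow, ← map_pow, AdjoinRoot.mk_self]; simp⟩ (fun x => by
      obtain ⟨p, rfl⟩ := AdjoinRoot.mk_surjective x
      have e1 : ev (AdjoinRoot.mk (π ^ N) p) = p.eval z := AdjoinRoot.liftAlgHom_mk _ _ _ _ _
      rw [e1, show j (p.eval z) = algebraMap Om[X] (OO π) (C (p.eval z)) from rfl, red_alg,
        ← map_sub, Ideal.mem_span_singleton]
      exact map_dvd _ (hπ ▸ X_sub_C_dvd_sub_C_eval)) κ a hf2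
  refine ⟨a₀, fun x => (((M * m : ℕ) : ℤ) + a₀ x).toNat, g, gm j (gm ι D.γ) * w * k₃,
    fun x hx => ?_, hg, ?_⟩
  · obtain ⟨i, -, rfl⟩ := Finset.mem_image.1 hx
    obtain ⟨i', hi'⟩ := hi i
    obtain ⟨h1, h2⟩ := he i'
    beta_reduce
    rw [← hi', ← h1, Int.toNat_natCast]
    exact ⟨by rw [h1]; push_cast; rfl, h2⟩
  · have e2 := hw.diag_mul fun b => algebraMap Om[X] (OO π) (π ^ (((M * m : ℕ) : ℤ) + b).toNat)
    have e3 : (fun i => algebraMap Om[X] (OO π) (π ^ (((M * m : ℕ) : ℤ) + a i).toNat)) =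
        fun i => algebraMap Om[X] (OO π) π ^ e i := funext fun i => by
      rw [← (he i).1, Int.toNat_natCast, map_pow]
    rw [e3] at e2
    rw [hP, phm_es D ι _ _ j fun _ => rfl, hκ]
    simp only [Units.val_mul, Matrix.mul_assoc, Units.inv_mul_cancel_left]
    rw [← Matrix.mul_assoc (w : Mat n (OO π)), ← e2, Matrix.mul_assoc]

end HS

end Pool.Agent.GR
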