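import Pool.Agent.P.MP_c1f06d_ag.r.K2Det
import Pool.Agent.P.MP_c1f06d_ag.r.K2Fin

open Matrix Polynomial

universe u

namespace Pool.Agent.GR

section gens

variable {n d : ℕ} {A : Type u} [CommRing A]

/-- The index set of the generators. -/
abbrev RigIdx (dg : Fin n → ℕ) (d r : ℕ) : Type :=
  (Σ i : Fin n, Fin (dg i)) ⊕ (Fin d × Fin n × Fin r)

/-- The generators. -/
noncomputable def rigGen (dg : Fin n → ℕ) (r : ℕ) (c : Fin d → A) (β : Mat n A)
    (T : Fin d → Mat n A[X]) : RigIdx dg d r → Fin d × Fin n → A[X]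
  | .inl a, b => taylor (c b.1) (C (β b.2 a.1) * X ^ (a.2 : ℕ))
  | .inr a, b => if a.1 = b.1 then T b.1 b.2 a.2.1 * X ^ (a.2.2 : ℕ) else 0

/-- The polynomial with given coefficients. -/
noncomputable def rigPol {r : ℕ} (t : Fin r → A) : A[X] := ∑ j : Fin r, C (t j) * X ^ (j : ℕ)

theorem rigPol_degree {r : ℕ} (t : Fin r → A) : (rigPol t).degree < (r : WithBot ℕ) :=
  degree_sum_fin_lt t

theorem rigPol_coeff {r : ℕ} {p : A[X]} (hp : p.degree < (r : WithBot ℕ)) :
    rigPol (fun j : Fin r => p.coeff j) = p := by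
  have h1 := sum_fin (fun j a => C a * X ^ j) (by simp) hp
  rw [sum_C_mul_X_pow_eq] at h1
  exact h1

theorem rigGen_sum (dg : Fin n → ℕ) (r : ℕ) (c : Fin d → A) (β : Mat n A)
    (T : Fin d → Mat n A[X]) (t : RigIdx dg d r → A) (w : Fin d) (l : Fin n) :
    ∑ j, t j • rigGen dg r c β T j (w, l) =
      taylor (c w) ((β.map C *ᵥ fun i => rigPol fun j => t (.inl ⟨i, j⟩)) l) +
        (T w *ᵥ fun i => rigPol fun j => t (.inr (w, i, j))) l := by
  rw [Fintype.sum_sum_type]
  congr 1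
  · rw [Fintype.sum_sigma, mulVec, dotProduct, map_sum]
    refine Finset.sum_congr rfl fun i _ => ?_
    rw [rigPol, Finset.mul_sum, map_sum]
    refine Finset.sum_congr rfl fun j _ => ?_
    rw [rigGen, ← map_smul, smul_eq_C_mul, map_apply, mul_left_comm]
  · rw [Fintype.sum_prod_type, Finset.sum_eq_single w, Fintype.sum_prod_type, mulVec, dotProduct]
    · refine Finset.sum_congr rfl fun i _ => ?_
      rw [rigPol, Finset.mul_sum]
      refine Finset.sum_congr rfl fun j _ => ?_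
      rw [rigGen, if_pos rfl, smul_eq_C_mul, mul_left_comm]
    · intro w' _ hw
      refine Finset.sum_eq_zero fun a _ => ?_
      rw [rigGen, if_neg hw, smul_zero]
    · intro hw
      exact absurd (Finset.mem_univ w) hw

theorem rigGen_map {A' : Type u} [CommRing A'] (φ : A →+* A') (dg : Fin n → ℕ) (r : ℕ)
    (c : Fin d → A) (β : Mat n A) (T : Fin d → Mat n A[X]) (j : RigIdx dg d r)
    (b : Fin d × Fin n) : (rigGen dg r c β T j b).map φ =
      rigGen dg r (fun w => φ (c w)) (β.map φ) (fun w => (T w).map (Polynomial.map φ)) j b := by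
  rcases j with a | a
  · simp [rigGen]
  · simp only [rigGen]
    split_ifs <;> simp

end gens

/-- Nakayama for `Onto`. -/
theorem Onto.of_res {n : ℕ} {R Om : Type u} [CommRing R] [IsLocalRing R] [Field Om]
    (φ : R →+* Om) (hφ : ∀ r, φ r ≠ 0 → IsUnit r) {Hh : R[X]} (hm : Hh.Monic) {dg : Fin n → ℕ}
    {d : ℕ} {c : Fin d → R} {β : Mat n R} {T : Fin d → Mat n R[X]}
    (h : Onto (Hh.map φ) dg (fun w => φ (c w)) (β.map φ)
      fun w => (T w).map (Polynomial.map φ)) : Onto Hh dg c β T := by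
  intro t
  obtain ⟨a, ha⟩ := span_of_res φ hφ hm (rigGen dg Hh.natDegree c β T) (fun y => by
    obtain ⟨v, hv, hw⟩ := h fun w i => y (w, i)
    choose η θ hw using hw
    refine ⟨Sum.elim (fun a => (v a.1).coeff a.2)
      fun a => (η a.1 a.2.1 %ₘ Hh.map φ).coeff a.2.2, ?_⟩
    rintro ⟨w, l⟩
    have hm' : (Hh.map φ).Monic := hm.map φ
    have h1 : ∀ i, (η w i %ₘ Hh.map φ).degree < (Hh.natDegree : WithBot ℕ) := fun i => by
      rw [← hm.natDegree_map φ, ← degree_eq_natDegree hm'.ne_zero]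
      exact degree_modByMonic_lt _ hm'
    simp only [rigGen_map]
    rw [rigGen_sum]
    simp only [Sum.elim_inl, Sum.elim_inr, rigPol_coeff (hv _), rigPol_coeff (h1 _)]
    have h2 : η w = (fun i => η w i %ₘ Hh.map φ) + Hh.map φ • fun i => η w i /ₘ Hh.map φ :=
      funext fun i => (modByMonic_add_div _ _).symm
    have h3 := congrFun (hw w) l
    rw [h2, mulVec_add, mulVec_smul] at h3
    simp only [Pi.add_apply, Pi.smul_apply, smul_eq_mul] at h3
    refine ⟨(((T w).map (Polynomial.map φ)) *ᵥ fun i => η w i /ₘ Hh.map φ) l + θ w l, ?_⟩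
    rw [h3]
    ring) fun b => t b.1 b.2
  refine ⟨fun i => rigPol fun j => a (.inl ⟨i, j⟩), fun i => rigPol_degree _, fun w => ?_⟩
  choose θ hθ using fun l => ha (w, l)
  refine ⟨fun i => rigPol fun j => a (.inr (w, i, j)), θ, funext fun l => ?_⟩
  have h1 := hθ l
  rw [rigGen_sum] at h1
  simp only [Pi.add_apply, Pi.smul_apply, smul_eq_mul]
  rw [← h1]
  ring

/-- One column at a time. -/
theorem Onto.exists_lead {n : ℕ} {R : Type u} [CommRing R] {Hh : R[X]} {dg : Fin n → ℕ}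
    {d : ℕ} {c : Fin d → R} {β : Mat n R} {T : Fin d → Mat n R[X]} (h : Onto Hh dg c β T) :
    ∃ U : Mat n R[X], Lead dg U ∧ ∀ w, ∃ η θ : Mat n R[X],
      (β.map C * U).map (taylor (c w)) = T w * η + Hh • θ := by
  choose v hv hw using fun j : Fin n => h fun w l => taylor (c w) (C (β l j) * X ^ dg j)
  choose η θ hw using hw
  refine ⟨of fun i j => (if i = j then X ^ dg i else 0) - v j i, fun i j => ?_, fun w =>
    ⟨of fun i j => η j w i, of fun i j => θ j w i, ?_⟩⟩
  · rw [of_apply, sub_sub_cancel_left, degree_neg]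
    exact hv j i
  · ext l j : 1
    have h1 := congrFun (hw j w) l
    simp only [Pi.add_apply, Pi.smul_apply, smul_eq_mul, mulVec, dotProduct, map_apply] at h1
    simp only [map_apply, mul_apply, of_apply, Matrix.add_apply, Matrix.smul_apply, smul_eq_mul,
      mul_sub, Finset.sum_sub_distrib, mul_ite, mul_zero, Finset.sum_ite_eq', Finset.mem_univ,
      if_true, map_sub]
    rw [h1]
    ring

namespace HS

variable {k : Type u} [Field k] {n : ℕ} (H : HS k n)

/-- RIGID. -/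
theorem k2_rigid {R Om : Type u} [CommRing R] [IsDomain R] [IsLocalRing R] [Algebra k R]
    [Field Om] [IsAlgClosed Om] (φ : R →+* Om) (hφ : ∀ r, φ r ≠ 0 → IsUnit r)
    {h : R[X]} (hm : h.Monic) (hu : ¬ IsUnit h) {M : ℕ} {P₁ P₂ : Mat n R[X]} {f : R[X]}
    {y : H.B →ₐ[k] OO h} (hM : H.Mod h M P₁ P₂ f y) {d : ℕ} (hd : 0 < d) (c : Fin d → R)
    (hc : Pairwise fun w w' =>
      IsCoprime (taylor (-φ (c w)) (h.map φ)) (taylor (-φ (c w')) (h.map φ)))
    (c₀ : R) (hc₀ : ∀ w, (h.map φ).eval (φ c₀ - φ (c w)) ≠ 0) (β : GL (Fin n) R) (ν : Fin n → ℤ)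
    (hfix : H.Fixed ν (H.act β⁻¹ (H.pt R))) (dg : Fin n → ℕ)
    (hdg : ∀ i, (dg i : ℤ) = d * (M * h.natDegree) + ν i) {πs f₃ : Om[X]} (hπ : πs.Monic)
    {N : ℕ} (hπd : πs ∣ h.map φ ^ N) (hf₃ : IsCoprime f₃ (h.map φ))
    (hdet : (P₁.map (Polynomial.map φ)).det = f₃ * πs) (hsum : ∑ i, dg i = d * πs.natDegree)
    (T : Fin d → Mat n R[X]) (g : Fin d → GL (Fin n) (OO h)) (hg : ∀ w, g w ∈ H.G (OO h))
    (s : Fin d → (OO h)ˣ)
    (hT : ∀ w, (T w).map (algebraMap R[X] (OO h)) = (s w : OO h) • (g w : Mat n (OO h)))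
    (hon : Onto (h.map φ ^ (2 * M)) dg (fun w => φ (c w)) ((β : Mat n R).map φ)
      fun w => (T w * P₁).map (Polynomial.map φ)) : H.Triv y := by
  rw [← Polynomial.map_pow] at hon
  obtain ⟨U, hU, hw⟩ := (Onto.of_res φ hφ (hm.pow _) hon).exists_lead
  choose η θ hw using hw
  obtain ⟨uf, huf⟩ := (exc_OO hm).unit f hM.cop
  let ι : R[X] →+* OO h := algebraMap R[X] (OO h)
  let K : Fin d → Mat n (OO h) := fun w => (s w : OO h) • (η w).map ι +
    ((uf⁻¹ : (OO h)ˣ) : OO h) •
      (P₂.map ι * (((g w)⁻¹ : GL (Fin n) (OO h)) : Mat n (OO h)) * (θ w).map ι)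
  have hsm : ∀ (a : R[X]) (A : Mat n R[X]), (a • A).map ι = ι a • A.map ι := fun a A => by
    ext i j
    simp only [map_apply, Matrix.smul_apply, smul_eq_mul, map_mul]
  have h12 : P₁.map ι * P₂.map ι = ((uf : OO h) * ι (h ^ (2 * M))) • (1 : Mat n (OO h)) := by
    rw [← Matrix.map_mul, hM.mul, hsm, map_mul, Matrix.map_one _ (map_zero _) (map_one _), huf]
  have hK : ∀ w, ((β : Mat n R).map C * U).map (fun p => ι (taylor (c w) p)) =
      (g w : Mat n (OO h)) * P₁.map ι * K w := fun w => by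
    have h1 : ((β : Mat n R).map C * U).map (fun p => ι (taylor (c w) p)) =
        (((β : Mat n R).map C * U).map (taylor (c w))).map ι := rfl
    have h2 : (g w : Mat n (OO h)) * P₁.map ι *
        (P₂.map ι * (((g w)⁻¹ : GL (Fin n) (OO h)) : Mat n (OO h)) * (θ w).map ι) =
        ((uf : OO h) * ι (h ^ (2 * M))) • (θ w).map ι := by
      rw [← Matrix.mul_assoc, ← Matrix.mul_assoc, Matrix.mul_assoc (g w : Mat n (OO h)), h12,
        Matrix.mul_smul, Matrix.mul_one, Matrix.smul_mul, Units.mul_inv, Matrix.smul_mul,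
        Matrix.one_mul]
    rw [h1, hw w, Matrix.map_add _ (map_add ι), Matrix.map_mul, Matrix.map_mul, hsm, hT w,
      Matrix.mul_add, Matrix.mul_smul, Matrix.mul_smul, h2, smul_smul, Units.inv_mul_cancel_left,
      Matrix.smul_mul, Matrix.smul_mul]
  have hb : ι (C ((β⁻¹ : GL (Fin n) R) : Mat n R).det) * ι (C (β : Mat n R).det) = 1 := by
    rw [← map_mul, ← C_mul, ← det_mul, Units.inv_mul, det_one, C_1, map_one]
  obtain ⟨hUm, hUd⟩ := hU.det
  have hpd : P₁.det ∣ f ^ n * h ^ (2 * M * n) := ⟨P₂.det, by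
    rw [← det_mul, hM.mul, det_smul, det_one, Fintype.card_fin, mul_one, mul_pow, ← pow_mul]⟩
  have hp : P₁.det.map φ = f₃ * πs := by
    rw [← hdet]
    exact (mapRingHom φ).map_det P₁
  obtain ⟨hκ, hdiv⟩ := detk φ hφ hm hu hUm hπ hπd hf₃ hp hM.cop.pow_left hpd c hc
    (hUd.trans hsum) (fun w => ι (C ((β⁻¹ : GL (Fin n) R) : Mat n R).det) *
      (g w : Mat n (OO h)).det * (K w).det) fun w => by
    have h1 := congrArg det (hK w)
    have h2 := (ι.comp (taylorAlgHom (c w) : R[X] →+* R[X])).map_det ((β : Mat n R).map C * U)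
    have h3 : ((β : Mat n R).map C).det = C (β : Mat n R).det := ((C : R →+* R[X]).map_det _).symm
    have h4 : (P₁.map ι).det = ι P₁.det := (ι.map_det _).symm
    have h5 : ι (taylor (c w) (C (β : Mat n R).det * U.det)) =
        (g w : Mat n (OO h)).det * ι P₁.det * (K w).det := by
      rw [← h3, ← det_mul, ← h4, ← det_mul, ← det_mul, ← h1]
      exact h2
    rw [taylor_mul, taylor_C, map_mul] at h5
    change ι _ = ι _ * _
    linear_combination ι (C ((β⁻¹ : GL (Fin n) R) : Mat n R).det) * h5 -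
      ι (taylor (c w) U.det) * hb
  have hKu : ∀ w, IsUnit (K w) := fun w =>
    (isUnit_iff_isUnit_det _).2 (isUnit_of_mul_isUnit_right (hκ w))
  choose kk hkk using hKu
  refine H.k2_fin hm hu hM hd c (fun w w' hne => cop_of_res φ hφ ?_ ?_) c₀
    (fun w => hφ _ ?_) β ν hfix dg hdg U hU hdiv g kk hg fun w => by rw [hkk]; exact hK w
  · rw [Monic, leadingCoeff_taylor]
    exact hm
  · rw [map_taylor, map_taylor, map_neg, map_neg]
    exact hc hne
  · rw [← eval₂_hom, eval₂_eq_eval_map, map_sub]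
    exact hc₀ w

end HS

end Pool.Agent.GR
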