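import Pool.Agent.P.MP_c1f06d_ag.r.S8Defs
import Pool.Agent.P.MP_c1f06d_ag.r.Defs

open Matrix Polynomial IsLocalRing Pool.Agent.P.MP_c1f06d_ag

universe u

namespace Pool.Agent.GR

theorem oo_le {B : Type u} [CommRing B] [IsDomain B] {h : B[X]} (hu : ¬ IsUnit h) :
    copr h ≤ nonZeroDivisors B[X] := by
  intro f hf
  refine mem_nonZeroDivisors_of_ne_zero fun e => hu ?_
  have hf' : IsCoprime f h := hf
  rw [e] at hf'
  exact isCoprime_zero_left.1 hf'

theorem oof_mem {B : Type u} [CommRing B] (h : B[X]) (p : Ideal (OO h)) [hp : p.IsMaximal] :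
    algebraMap B[X] (OO h) h ∈ p := by
  by_contra hn
  obtain ⟨y, x, hx, e⟩ := hp.exists_inv hn
  obtain ⟨⟨a, s⟩, ea⟩ := IsLocalization.surj (copr h) y
  have hs : IsCoprime (s : B[X]) h := s.2
  have hc : (s : B[X]) + (-a) * h ∈ copr h := hs.add_mul_right_left (-a)
  have hu : IsUnit (algebraMap B[X] (OO h) ((s : B[X]) + (-a) * h)) :=
    IsLocalization.map_units (OO h) (⟨_, hc⟩ : copr h)
  refine hp.ne_top (Ideal.eq_top_of_isUnit_mem p (x := _) ?_ hu)
  have : algebraMap B[X] (OO h) ((s : B[X]) + (-a) * h) = x * algebraMap B[X] (OO h) s := by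
    simp only at ea
    rw [map_add, map_mul, map_neg, ← ea]
    linear_combination (-(algebraMap B[X] (OO h) s)) * e
  rw [this]
  exact p.mul_mem_right _ hx

theorem oof_surj {B : Type u} [CommRing B] (h : B[X]) (p : Ideal (OO h))
    (hp : algebraMap B[X] (OO h) h ∈ p) :
    Function.Surjective ((Ideal.Quotient.mk p).comp (algebraMap B[X] (OO h))) := by
  intro z
  obtain ⟨y, rfl⟩ := Ideal.Quotient.mk_surjective z
  obtain ⟨⟨a, s⟩, ea⟩ := IsLocalization.surj (copr h) y
  obtain ⟨c, v, e⟩ : IsCoprime (s : B[X]) h := s.2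
  refine ⟨c * a, ?_⟩
  rw [RingHom.comp_apply, Ideal.Quotient.eq]
  have e' := congrArg (algebraMap B[X] (OO h)) e
  simp only [map_add, map_mul, map_one] at e' ea
  have : algebraMap B[X] (OO h) (c * a) - y =
      (-(y * algebraMap B[X] (OO h) v)) * algebraMap B[X] (OO h) h := by
    rw [map_mul, ← ea]
    linear_combination y * e'
  rw [this]
  exact p.mul_mem_left _ hp

theorem oof_comap_max {B : Type u} [CommRing B] (h : B[X]) (p : Ideal (OO h)) [hp : p.IsMaximal] :
    (p.comap (algebraMap B[X] (OO h))).IsMaximal := by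
  let := Ideal.Quotient.field p
  have := RingHom.ker_isMaximal_of_surjective _ (oof_surj h p (oof_mem h p))
  rwa [← RingHom.comap_ker, Ideal.mk_ker] at this

theorem oof_C_mem {B : Type u} [CommRing B] [IsLocalRing B] {h : B[X]} (hm : h.Monic)
    (q : Ideal B[X]) [q.IsMaximal] (hq : h ∈ q) {b : B} (hb : b ∈ maximalIdeal B) : C b ∈ q := by
  have hI : ((Ideal.Quotient.mk q).comp (C : B →+* B[X])).IsIntegral := by
    intro z
    obtain ⟨g, rfl⟩ := Ideal.Quotient.mk_surjective z
    have hX : ((Ideal.Quotient.mk q).comp (C : B →+* B[X])).IsIntegralElem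
        (Ideal.Quotient.mk q X) := by
      refine ⟨h, hm, ?_⟩
      rw [← Polynomial.hom_eval₂, eval₂_C_X]
      exact Ideal.Quotient.eq_zero_iff_mem.2 hq
    induction g using Polynomial.induction_on with
    | C a => exact RingHom.isIntegralElem_map _
    | add p p' h1 h2 => rw [map_add]; exact h1.add _ h2
    | monomial n a h1 => rw [pow_succ, ← mul_assoc, map_mul]; exact h1.mul _ hX
  let := Ideal.Quotient.field q
  have hb0 : (⊥ : Ideal (B[X] ⧸ q)).IsMaximal := Ideal.bot_isMaximal
  have hmx := Ideal.isMaximal_comap_of_isIntegral_of_isMaximal' _ hI ⊥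
  have := IsLocalRing.eq_maximalIdeal hmx
  rw [← this, Ideal.mem_comap, Ideal.mem_bot, RingHom.comp_apply,
    Ideal.Quotient.eq_zero_iff_mem] at hb
  exact hb

theorem oo_max {B : Type u} [CommRing B] [IsLocalRing B] {h : B[X]} (hm : h.Monic)
    (p : Ideal (OO h)) [p.IsMaximal] :
    algebraMap B[X] (OO h) h ∈ p ∧ ∀ b ∈ maximalIdeal B, algebraMap B[X] (OO h) (C b) ∈ p := by
  refine ⟨oof_mem h p, fun b hb => ?_⟩
  have := oof_comap_max h p
  exact oof_C_mem hm (p.comap (algebraMap B[X] (OO h))) (oof_mem h p) hb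

theorem oo_finite {B : Type u} [CommRing B] [IsLocalRing B] {h : B[X]} (hm : h.Monic) :
    Finite (MaximalSpectrum (OO h)) := by
  let hb : (ResidueField B)[X] := h.map (residue B)
  have hbm : hb.Monic := hm.map _
  have : Module.Finite (ResidueField B) (AdjoinRoot hb) := hbm.finite_adjoinRoot
  have : IsArtinianRing (AdjoinRoot hb) := IsArtinianRing.of_finite (ResidueField B) _
  let θ : B[X] →+* AdjoinRoot hb := (AdjoinRoot.mk hb).comp (mapRingHom (residue B))
  have hθ : Function.Surjective θ :=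
    AdjoinRoot.mk_surjective.comp (Polynomial.map_surjective _ residue_surjective)
  have hk : ∀ p : MaximalSpectrum (OO h),
      RingHom.ker θ ≤ p.asIdeal.comap (algebraMap B[X] (OO h)) := by
    intro p g hg
    have := p.isMaximal
    have hg' : hb ∣ g.map (residue B) := AdjoinRoot.mk_eq_zero.1 hg
    obtain ⟨w', hw⟩ := hg'
    obtain ⟨w, rfl⟩ := Polynomial.map_surjective _ residue_surjective w'
    have h1 : g - h * w ∈ RingHom.ker (mapRingHom (residue B)) := by
      rw [RingHom.mem_ker, coe_mapRingHom, Polynomial.map_sub, Polynomial.map_mul, hw, sub_self]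
    rw [Polynomial.ker_mapRingHom, ker_residue] at h1
    have h2 : (maximalIdeal B).map (C : B →+* B[X]) ≤ p.asIdeal.comap (algebraMap B[X] (OO h)) :=
      Ideal.map_le_iff_le_comap.2 fun b hb => (oo_max hm p.asIdeal).2 b hb
    have h3 : h * w ∈ p.asIdeal.comap (algebraMap B[X] (OO h)) :=
      Ideal.mul_mem_right _ _ (oo_max hm p.asIdeal).1
    simpa using Ideal.add_mem _ (h2 h1) h3
  have hc : ∀ p : MaximalSpectrum (OO h),
      ((p.asIdeal.comap (algebraMap B[X] (OO h))).map θ).comap θ =
        p.asIdeal.comap (algebraMap B[X] (OO h)) := fun p => by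
    rw [Ideal.comap_map_of_surjective θ hθ]
    exact sup_eq_left.2 (hk p)
  have hM : ∀ p : MaximalSpectrum (OO h),
      ((p.asIdeal.comap (algebraMap B[X] (OO h))).map θ).IsMaximal := fun p => by
    have := p.isMaximal
    have h0 := oof_comap_max h p.asIdeal
    rcases Ideal.map_eq_top_or_isMaximal_of_surjective θ hθ h0 with e | e
    · have := hc p
      rw [e, Ideal.comap_top] at this
      exact absurd this.symm h0.ne_top
    · exact e
  refine Finite.of_injective
    (fun p : MaximalSpectrum (OO h) => (⟨_, hM p⟩ : MaximalSpectrum (AdjoinRoot hb))) ?_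
  intro p p' e
  have e1 := congrArg (fun z : MaximalSpectrum (AdjoinRoot hb) => z.asIdeal.comap θ) e
  simp only [hc] at e1
  refine MaximalSpectrum.ext ?_
  rw [← IsLocalization.map_under (copr h) (OO h) p.asIdeal,
    ← IsLocalization.map_under (copr h) (OO h) p'.asIdeal]
  exact congrArg _ e1

end Pool.Agent.GR
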