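import Pool.Agent.P.MP_c1f06d_ag.r.TRig

/-! Tools for archimedean valuation rings: fixed points, generic points, the regular element. -/

open Matrix IsLocalRing

universe u

namespace Pool.Agent.GR

variable {k : Type u} [Field k] {n : ℕ} {A : Type u} [CommRing A] [Algebra k A]
  {A' : Type u} [CommRing A'] [Algebra k A']

theorem r1_point [Infinite k] {Ω : Type u} [Field Ω] [Algebra k Ω] {σ : Type}
    (Q : MvPolynomial σ Ω) (hQ : Q ≠ 0) :
    ∃ t : σ → k, MvPolynomial.eval (fun s => algebraMap k Ω (t s)) Q ≠ 0 := by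
  by_contra h
  push Not at h
  refine hQ (MvPolynomial.funext_set (fun _ => Set.range (algebraMap k Ω))
    (fun _ => Set.infinite_range_of_injective (algebraMap k Ω).injective) fun x hx => ?_)
  choose t ht using fun s => hx s (Set.mem_univ s)
  have : x = fun s => algebraMap k Ω (t s) := funext fun s => (ht s).symm
  rw [this, h, map_zero]

theorem r1_generic [Infinite k] {Ω : Type u} [Field Ω] [Algebra k Ω] {ι σ : Type} [Fintype σ]
    (T : Finset ι) (v : ι → σ → Ω) (hv : ∀ i ∈ T, v i ≠ 0) :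
    ∃ t : σ → k, ∀ i ∈ T, ∑ s, algebraMap k Ω (t s) * v i s ≠ 0 := by
  classical
  obtain ⟨t, ht⟩ := r1_point (k := k)
    (∏ i ∈ T, ∑ s, MvPolynomial.X s * MvPolynomial.C (v i s) : MvPolynomial σ Ω)
    (Finset.prod_ne_zero_iff.2 fun i hi h => hv i hi (funext fun s => by
      have := congrArg (MvPolynomial.eval (Pi.single s 1)) h
      simpa [Pi.single_apply] using this))
  refine ⟨t, fun i hi h => ht ?_⟩
  rw [map_prod]
  exact Finset.prod_eq_zero hi (by simpa using h)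

open TensorProduct in
theorem r1_common (l κ : Type u) [Field l] [Algebra k l] [Field κ] [Algebra k κ] :
    ∃ (Ω : Type u) (_ : Field Ω) (_ : Algebra k Ω) (_ : IsAlgClosed Ω),
      Nonempty (l →ₐ[k] Ω) ∧ Nonempty (κ →ₐ[k] Ω) := by
  obtain ⟨m, hm⟩ := Ideal.exists_maximal (l ⊗[k] κ)
  let _ := Ideal.Quotient.field m
  let f := (IsScalarTower.toAlgHom k ((l ⊗[k] κ) ⧸ m) (AlgebraicClosure ((l ⊗[k] κ) ⧸ m))).comp
    (Ideal.Quotient.mkₐ k m)
  exact ⟨AlgebraicClosure ((l ⊗[k] κ) ⧸ m), inferInstance, inferInstance, inferInstance,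
    ⟨f.comp Algebra.TensorProduct.includeLeft⟩, ⟨f.comp Algebra.TensorProduct.includeRight⟩⟩

theorem r1_cj_map (f : A →ₐ[k] A') (g : GL (Fin n) A) (X : Mat n A) :
    (cj g X).map f = cj (gm f g) (X.map f) := by
  unfold cj
  rw [Matrix.map_mul, Matrix.map_mul]
  rfl

theorem r1_cj_mul (g : GL (Fin n) A) (X Y : Mat n A) : cj g X * cj g Y = cj g (X * Y) := by
  simp only [cj, Matrix.mul_assoc, Units.inv_mul_cancel_left]

theorem r1_cj_cj (g g' : GL (Fin n) A) (X : Mat n A) : cj g (cj g' X) = cj (g * g') X := by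
  simp only [cj, Matrix.mul_assoc, _root_.mul_inv_rev, Units.val_mul]

theorem r1_cj_one (X : Mat n A) : cj 1 X = X := by simp [cj]

theorem r1_eps_map {ι : Type} [DecidableEq ι] (f : A →ₐ[k] A') (c : Fin n → ι) (m : ι) :
    (eps A c m).map f = eps A' c m := by
  unfold eps
  rw [diagonal_map (map_zero f)]
  congr 1
  funext i
  split_ifs <;> simp

theorem r1_idem_cj {ι : Type} [DecidableEq ι] (g : GL (Fin n) A) (c : Fin n → ι) (S : Finset ι)
    (hS : ∀ i, c i ∈ S) : Idem S fun m => cj g (eps A c m) := by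
  refine ⟨fun a _ => ?_, fun a _ b _ h => ?_, ?_⟩
  · rw [r1_cj_mul, eps, diagonal_mul_diagonal]
    congr 2
    funext i
    split_ifs <;> simp
  · rw [r1_cj_mul, eps, eps, diagonal_mul_diagonal]
    have : (fun i => (if c i = a then (1 : A) else 0) * if c i = b then 1 else 0) = fun _ => 0 := by
      funext i
      split_ifs with h1 h2
      · exact absurd (h1.symm.trans h2) h
      all_goals simp
    rw [this, diagonal_zero, cj, Matrix.mul_zero, Matrix.zero_mul]
  · have : ∑ m ∈ S, eps A c m = 1 := by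
      ext i j
      by_cases h : i = j
      · subst h
        simp [Matrix.sum_apply, eps, hS]
      · simp [Matrix.sum_apply, eps, h]
    simp only [cj]
    rw [← Matrix.sum_mul, ← Matrix.mul_sum, this, Matrix.mul_one, Units.mul_inv]

theorem r1_inL {ι : Type} [DecidableEq ι] (c : Fin n → ι) {Y : Mat n A}
    (h : ∀ i, Y * eps A c (c i) = eps A c (c i) * Y) : InL c Y := fun i j hij => by
  have := congrFun (congrFun (h j) i) j
  simpa [eps, hij] using this

theorem InL.r1_comm {ι ι' : Type} [DecidableEq ι'] {c : Fin n → ι} {Y : Mat n A} (h : InL c Y)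
    (φ : ι → ι') (m : ι') :
    Y * eps A (fun i => φ (c i)) m = eps A (fun i => φ (c i)) m * Y := by
  ext i j
  rw [eps, mul_diagonal, diagonal_mul]
  by_cases e : c i = c j
  · rw [e, mul_comm]
  · rw [h i j e, zero_mul, mul_zero]

namespace HS

variable (H : HS k n) {Γ Γ' : Type} [AddCommGroup Γ] [AddCommGroup Γ']

theorem r1_fixed (f : A →ₐ[k] A') (ℓ : Γ →+ Γ') {c : Fin n → Γ} {y : H.B →ₐ[k] A}
    (h : H.Fixed c y) : H.Fixed (fun i => ℓ (c i)) (f.comp y) := by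
  let μ : GA A Γ →ₐ[k] GA A' Γ' :=
    (AddMonoidAlgebra.mapDomainAlgHom k A' ℓ).comp (AddMonoidAlgebra.mapAlgHom Γ f)
  have hμ : ∀ δ a, μ (AddMonoidAlgebra.single δ a) = AddMonoidAlgebra.single (ℓ δ) (f a) :=
    fun δ a => by simp [μ]
  have e1 : gm μ (rho A c) = rho A' fun i => ℓ (c i) := by
    ext i j
    by_cases e : i = j
    · subst e
      have := hμ (c i) 1
      rw [map_one] at this
      simp [rho, dgU, uu, this]
    · simp [rho, dgU, e]
  have e2 : μ.comp ((IsScalarTower.toAlgHom k A (GA A Γ)).comp y) =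
      (IsScalarTower.toAlgHom k A' (GA A' Γ')).comp (f.comp y) := by
    refine AlgHom.ext fun b => ?_
    have := hμ 0 (y b)
    rw [map_zero] at this
    exact this
  have := congrArg μ.comp h
  rw [orb, H.act_nat, e1, e2] at this
  exact this

theorem r1_pt (f : A →ₐ[k] A') : f.comp (H.pt A) = H.pt A' :=
  AlgHom.ext fun b => f.commutes (H.y0 b)

theorem r1_act_inv (f : A →ₐ[k] A') (κ : GL (Fin n) A) :
    f.comp (H.act κ⁻¹ (H.pt A)) = H.act (gm f κ)⁻¹ (H.pt A') := by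
  rw [H.act_nat, H.r1_pt, map_inv]

theorem r1_tm [DecidableEq Γ] {c : Fin n → Γ} {κ : GL (Fin n) A}
    (h : H.Fixed c (H.act κ⁻¹ (H.pt A))) (S : Finset Γ) (hS : ∀ i, c i ∈ S) :
    H.Tm S fun m => cj κ (eps A c m) := by
  refine ⟨r1_idem_cj κ c S hS, ?_⟩
  let ι := IsScalarTower.toAlgHom k A (GA A Γ)
  refine ⟨gm ι κ * rho A c * (gm ι κ)⁻¹, ?_, ?_⟩
  · show H.act _ _ = _
    have h' : H.act (rho A c) (ι.comp (H.act κ⁻¹ (H.pt A))) = ι.comp (H.act κ⁻¹ (H.pt A)) := h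
    rw [H.r1_act_inv] at h'
    rw [H.act_mul, H.act_mul, h', ← H.act_mul, mul_inv_cancel, H.act_one]
  · have e1 : ((rho A c : GL (Fin n) (GA A Γ)) : Mat n (GA A Γ)) =
        ∑ δ ∈ S, ((uu A δ : (GA A Γ)ˣ) : GA A Γ) • eps (GA A Γ) c δ := by
      ext i j : 2
      by_cases e : i = j
      · subst e
        simp [rho, dgU, Matrix.sum_apply, eps, hS]
      · simp [rho, dgU, Matrix.sum_apply, eps, e]
    rw [Units.val_mul, Units.val_mul, e1, Matrix.mul_sum, Matrix.sum_mul, tmat]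
    refine Finset.sum_congr rfl fun δ _ => ?_
    rw [Matrix.mul_smul, Matrix.smul_mul]
    congr 1
    have := r1_cj_map ι κ (eps A c δ)
    rw [r1_eps_map] at this
    exact this.symm

/-- Cocharacters are conjugate into the standard torus. -/
def ConjSt (D : H.Datum) : Prop :=
  ∀ (Ω : Type u) [Field Ω] [Algebra k Ω] [IsAlgClosed Ω] (ι : D.l →ₐ[k] Ω) (a : Fin n → ℤ)
    (κ : GL (Fin n) Ω), H.Fixed a (H.act κ⁻¹ (H.pt Ω)) →
    ∃ (a0 : (Fin D.r → ℤ) →+ ℤ) (g : GL (Fin n) Ω), g ∈ H.G Ω ∧ ∀ m : ℤ,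
      ((g * κ : GL (Fin n) Ω) : Mat n Ω) * eps Ω a m * (((g * κ)⁻¹ : GL (Fin n) Ω) : Mat n Ω) =
        lamE D.χ (D.es ι) a0 m

variable {H}

/-- A regular element that commutes with a given torus modulo an ideal. -/
theorem r1_regular [Infinite k] (D : H.Datum) (hc : H.ConjSt D) {W : Type u} [CommRing W]
    [IsLocalRing W] [Algebra k W] (J : Ideal W) (hJ : J ≤ maximalIdeal W) {r : ℕ}
    (c : Fin n → Fin r → ℤ) (κ : GL (Fin n) W)
    (h : H.Fixed c ((Ideal.Quotient.mkₐ k J).comp (H.act κ⁻¹ (H.pt W)))) :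
    ∃ x : Fin (sN D.big.m) → W, IsUnit (H.Dlt D.r (svec D.big.m x)) ∧
      InL c ((cj κ⁻¹ (svec D.big.m x)).map (Ideal.Quotient.mkₐ k J)) := by
  classical
  obtain ⟨Ω, _, _, _, ⟨ι⟩, ⟨ρ0⟩⟩ := r1_common (k := k) D.l (ResidueField W)
  let ω : W →ₐ[k] Ω := ρ0.comp (IsScalarTower.toAlgHom k W (ResidueField W))
  have hω : ∀ a ∈ maximalIdeal W, ω a = 0 := fun a ha => by
    show ρ0 (residue W a) = 0
    rw [(residue_eq_zero_iff a).2 ha, map_zero]
  let q := Ideal.Quotient.mkₐ k J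
  let ω' : (W ⧸ J) →ₐ[k] Ω := Ideal.Quotient.liftₐ J ω fun a ha => hω a (hJ ha)
  let S : Finset (Fin r → ℤ) := Finset.univ.image c
  have hS : ∀ i, c i ∈ S := fun i => Finset.mem_image_of_mem c (Finset.mem_univ i)
  rw [H.r1_act_inv] at h
  have tm := H.r1_tm h S hS
  obtain ⟨ℓ, hℓ⟩ := exists_add_injOn S
  have h1 := H.r1_fixed ω' ℓ h
  rw [H.r1_act_inv] at h1
  set κ' := gm ω' (gm q κ) with hκ'
  obtain ⟨a0, g, hg, hconj⟩ := hc Ω ι _ κ' h1
  obtain ⟨Y, ⟨Y1, Y2⟩, Y3⟩ := D.reg_es ι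
  have hg' := (H.G Ω).inv_mem hg
  have idΩ := r1_idem_cj (A := Ω) κ' c S hS
  have comm : ∀ m ∈ S, cj g⁻¹ Y * cj κ' (eps Ω c m) = cj κ' (eps Ω c m) * cj g⁻¹ Y := by
    intro m hm
    have e1 : eps Ω c m = eps Ω (fun i => ℓ (c i)) (ℓ m) := by
      unfold eps
      congr 1
      funext i
      exact if_congr ⟨fun e => congrArg ℓ e, fun e => hℓ (hS i) hm e⟩ rfl rfl
    have e2 : cj κ' (eps Ω c m) = cj g⁻¹ (lamE D.χ (D.es ι) a0 (ℓ m)) := by
      rw [← hconj, e1]
      show _ = cj g⁻¹ (cj (g * κ') _)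
      rw [r1_cj_cj, inv_mul_cancel_left]
    rw [e2, r1_cj_mul, r1_cj_mul, lamE, Matrix.mul_sum, Matrix.sum_mul]
    congr 1
    exact Finset.sum_congr rfl fun x hx => Y2 x (Finset.mem_filter.1 hx).1
  let P := MvPolynomial (Fin (sN D.big.m)) Ω
  let Cst := IsScalarTower.toAlgHom k Ω P
  let Q : P := H.Dlt D.r (pi0 S (fun m => (cj κ' (eps Ω c m)).map Cst)
    (svec D.big.m MvPolynomial.X))
  have hQ : ∀ ξ : Fin (sN D.big.m) → Ω, MvPolynomial.eval ξ Q =
      H.Dlt D.r (pi0 S (fun m => cj κ' (eps Ω c m)) (svec D.big.m ξ)) := fun ξ => by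
    let f : P →ₐ[k] Ω := (MvPolynomial.aeval ξ).restrictScalars k
    have e1 : ∀ M : Mat n Ω, (M.map Cst).map f = M := fun M => by
      ext i j
      exact MvPolynomial.aeval_C ξ (M i j)
    have e2 : (fun l => f (MvPolynomial.X l)) = ξ := funext fun l => MvPolynomial.aeval_X ξ l
    have := Dlt_mapM (H := H) f D.r (pi0 S (fun m => (cj κ' (eps Ω c m)).map Cst)
      (svec D.big.m MvPolynomial.X))
    rw [pi0_map, svec_map, e2] at this
    simp only [e1] at this
    rw [this]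
    exact (DFunLike.congr_fun (MvPolynomial.coe_aeval_eq_eval ξ) Q).symm
  obtain ⟨t, ht⟩ := r1_point (k := k) Q fun h0 => by
    have := hQ (scrd D.big.m (cj g⁻¹ Y))
    rw [h0, map_zero, (D.big.inS_cj hg' Y1).svec_scrd, idΩ.pi0_eq comm,
      Dlt_cj (D.big.nrm Y1) hg'] at this
    exact Y3.ne_zero this.symm
  obtain ⟨xb, hxb⟩ := (tm.pi0_big D.big
    (Y := svec D.big.m fun l => algebraMap k (W ⧸ J) (t l)) ⟨_, rfl⟩).2
  choose x hx using fun l => Ideal.Quotient.mk_surjective (xb l)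
  have e3 : (svec D.big.m x).map q = svec D.big.m xb := by
    rw [svec_map]
    exact congrArg _ (funext hx)
  refine ⟨x, ?_, ?_⟩
  · by_contra hu
    apply ht
    have e4 : ω (H.Dlt D.r (svec D.big.m x)) = ω' (q (H.Dlt D.r (svec D.big.m x))) := rfl
    rw [hω _ hu, ← Dlt_mapM, ← Dlt_mapM, e3, hxb, pi0_map, svec_map] at e4
    simp only [r1_cj_map, r1_eps_map, AlgHom.commutes] at e4
    rw [hQ]
    exact e4.symm
  · rw [r1_cj_map, e3, hxb, map_inv]
    refine r1_inL c fun i => ?_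
    have := congrArg (cj (gm q κ)⁻¹) (tm.1.pi0_comm
      (svec D.big.m fun l => algebraMap k (W ⧸ J) (t l)) (c i) (hS i))
    rwa [← r1_cj_mul, ← r1_cj_mul, r1_cj_cj, inv_mul_cancel, r1_cj_one] at this

end HS

end Pool.Agent.GR
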