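import Pool.Agent.P.MP_c1f06d_ag.r.UNorm

open Matrix

universe u

namespace Pool.Agent.GR

variable {k : Type u} [Field k] {n r : ℕ} {H : HS k n} {A : Type u} [CommRing A] [Algebra k A]
  {A' : Type u} [CommRing A'] [Algebra k A'] {χ : Fin n → Fin r → ℤ}
  {e : (Fin r → ℤ) → Mat n A} {X : Mat n A}

/-! PAR. -/

namespace Par

/-- A coordinate of the point, or `1`. -/
def zz {V R : Type*} [One R] (P : V → R) : Option V → R
  | none => 1
  | some v => P v

theorem interp {ι V : Type} [Fintype ι] [DecidableEq ι] [Fintype V] {Ω : Type u} [Field Ω]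
    (P : ι → V → Ω) (hP : Function.Injective P) (t : ι → Ω) :
    ∃ c : (ι → Option V) → Ω, ∀ a, ∑ s, c s * ∏ b, zz (P a) (s b) = t a := by
  classical
  have h1 : ∀ a0 b : ι, ∃ co : Option V → Ω, ∑ o, co o * zz (P a0) o = 1 ∧
      (b ≠ a0 → ∑ o, co o * zz (P b) o = 0) := by
    intro a0 b
    by_cases hb : b = a0
    · refine ⟨fun o => if o = none then 1 else 0, ?_, fun h => absurd hb h⟩
      simp [zz]
    · obtain ⟨v, hv⟩ := Function.ne_iff.1 (hP.ne hb)
      have hv' : P a0 v - P b v ≠ 0 := sub_ne_zero.2 hv.symm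
      have key : ∀ a, ∑ o, ((if o = some v then (P a0 v - P b v)⁻¹ else 0) +
          (if o = none then -P b v * (P a0 v - P b v)⁻¹ else 0)) * zz (P a) o =
          (P a v - P b v) * (P a0 v - P b v)⁻¹ := fun a => by
        simp only [add_mul, Finset.sum_add_distrib, ite_mul, zero_mul, Finset.sum_ite_eq',
          Finset.mem_univ, if_true, zz]
        ring
      exact ⟨_, (key a0).trans (mul_inv_cancel₀ hv'), fun _ => (key b).trans (by simp)⟩
  choose co h2 h3 using h1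
  refine ⟨fun s => ∑ a0, t a0 * ∏ b, co a0 b (s b), fun a => ?_⟩
  have h4 : ∀ a0, ∑ s : ι → Option V, (∏ b, co a0 b (s b)) * ∏ b, zz (P a) (s b) =
      if a = a0 then 1 else 0 := fun a0 => by
    have := Finset.prod_univ_sum (fun _ : ι => (Finset.univ : Finset (Option V)))
      fun b o => co a0 b o * zz (P a) o
    rw [Fintype.piFinset_univ] at this
    simp only [Finset.prod_mul_distrib] at this
    rw [← this]
    by_cases h : a = a0
    · rw [if_pos h, h]
      exact Finset.prod_eq_one fun b _ => h2 a0 b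
    · rw [if_neg h]
      exact Finset.prod_eq_zero (Finset.mem_univ a) (h3 a0 a h)
  simp only [Finset.sum_mul, mul_assoc]
  rw [Finset.sum_comm]
  simp only [← Finset.mul_sum, h4]
  simp

/-- The monomials. -/
noncomputable def mono (k : Type u) [Field k] (n : ℕ) (ι : Type) [Fintype ι] (S : Finset ℤ)
    (s : ι → Option (S × Fin n × Fin n)) : MvPolynomial (ℤ × Fin n × Fin n) k :=
  ∏ b, zz (fun v : S × Fin n × Fin n => MvPolynomial.X ((v.1 : ℤ), v.2)) (s b)

theorem nc_surj {Ω : Type u} [Field Ω] [Algebra k Ω] {e : (Fin r → ℤ) → Mat n Ω} (h : H.Tor χ e)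
    (hs : Submodule.span ℤ (Set.range χ) = ⊤) (S : Finset ℤ) [DecidableEq (OR χ S)]
    (t : ((Fin r → ℤ) →+ ℤ) → Ω) :
    ∃ c, ∀ a ∈ OR χ S, nc χ e (mono k n (OR χ S) S) c a = t a := by
  obtain ⟨c, hc⟩ := interp (ι := OR χ S) (V := S × Fin n × Fin n)
    (fun a v => lamE χ e a.1 v.1 v.2.1 v.2.2) (fun a a' haa => by
      refine Subtype.ext (add_ext_XX hs fun x hx => ?_)
      by_contra hne
      have h1 : lamE χ e a.1 (a.1 x) = lamE χ e a'.1 (a.1 x) := Matrix.ext fun i j =>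
        congrFun haa (⟨a.1 x, (mem_OR hs S a.1).1 a.2 x hx⟩, i, j)
      have h2 := (h.tm.1.lamE_mul a.1 (a.1 x) hx).1
      have h3 := (h.tm.1.lamE_mul a'.1 (a.1 x) hx).1
      rw [if_pos rfl, h1, h3, if_neg (Ne.symm hne)] at h2
      exact h.ne_zero hx h2.symm) fun a => t a
  refine ⟨c, fun a ha => ?_⟩
  rw [← hc ⟨a, ha⟩, nc]
  refine Finset.sum_congr rfl fun s _ => ?_
  rw [mono, map_prod]
  refine congrArg _ (Finset.prod_congr rfl fun b _ => ?_)
  cases s b with
  | none => exact map_one _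
  | some v => exact MvPolynomial.aeval_X _ _

/-- Units attached to the coordinate cocharacters. -/
noncomputable def ww (u : Fin r → Aˣ) (a : (Fin r → ℤ) →+ ℤ) : Aˣ :=
  open Classical in ∏ j, if a = Pi.evalAddMonoidHom (fun _ => ℤ) j then u j else 1

theorem prod_ww {O : Finset ((Fin r → ℤ) →+ ℤ)}
    (hO : ∀ j, Pi.evalAddMonoidHom (fun _ => ℤ) j ∈ O) (u : Fin r → Aˣ) (x : Fin r → ℤ) :
    ∏ a ∈ O, ww u a ^ a x = ∏ j, u j ^ x j := by
  classical
  simp only [ww, ← Finset.prod_zpow]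
  rw [Finset.prod_comm]
  refine Finset.prod_congr rfl fun j _ => ?_
  rw [Finset.prod_eq_single_of_mem _ (hO j) fun a _ ha => by rw [if_neg ha, _root_.one_zpow],
    if_pos rfl]
  rfl

theorem map_ww (f : A →ₐ[k] A') (u : Fin r → Aˣ) (a : (Fin r → ℤ) →+ ℤ) :
    f (ww u a) = (ww (fun j => Units.map (f : A →* A') (u j)) a : A') := by
  classical
  simp only [ww, Units.coe_prod, map_prod]
  refine Finset.prod_congr rfl fun j _ => ?_
  split_ifs
  · rfl
  · simp

theorem exists_inj {Ω : Type u} [Field Ω] [Infinite Ω] (T : Finset (Fin r → ℤ)) :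
    ∃ t : Fin r → Ωˣ, ∀ x ∈ T, ∀ y ∈ T, ∏ j, t j ^ x j = ∏ j, t j ^ y j → x = y := by
  classical
  obtain ⟨μ, hμ⟩ := exists_add_injOn T
  set N := ((T ×ˢ T).sup fun p => (μ p.1 - μ p.2).natAbs).factorial with hN
  have hp : (Polynomial.X * (Polynomial.X ^ N - Polynomial.C 1) : Polynomial Ω) ≠ 0 :=
    mul_ne_zero Polynomial.X_ne_zero
      (Polynomial.monic_X_pow_sub_C 1 (Nat.factorial_ne_zero _)).ne_zero
  obtain ⟨t0, ht0⟩ := Infinite.exists_notMem_finset
    (Polynomial.X * (Polynomial.X ^ N - Polynomial.C 1) : Polynomial Ω).roots.toFinset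
  rw [Multiset.mem_toFinset, Polynomial.mem_roots hp] at ht0
  simp only [Polynomial.IsRoot.def, Polynomial.eval_mul, Polynomial.eval_X, Polynomial.eval_sub,
    Polynomial.eval_pow, Polynomial.eval_C, mul_eq_zero, not_or] at ht0
  set t1 : Ωˣ := Units.mk0 t0 ht0.1 with ht1
  have hz : ∀ x : Fin r → ℤ, ∏ j, (t1 ^ μ (Pi.single j 1)) ^ x j = t1 ^ μ x := fun x => by
    have e0 : x = ∑ j, x j • (Pi.single j 1 : Fin r → ℤ) := by
      ext l
      simp [Finset.sum_apply, Pi.single_apply]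
    have e1 : μ x = ∑ j, μ (Pi.single j 1) * x j := by
      conv_lhs => rw [e0, map_sum]
      exact Finset.sum_congr rfl fun j _ => by rw [map_zsmul, smul_eq_mul, mul_comm]
    rw [e1]
    simp only [← _root_.zpow_mul]
    exact (map_prod (zpowersHom Ωˣ t1) (fun j => Multiplicative.ofAdd (μ (Pi.single j 1) * x j))
      Finset.univ).symm
  refine ⟨fun j => t1 ^ μ (Pi.single j 1), fun x hx y hy hxy => ?_⟩
  rw [hz, hz] at hxy
  by_contra hne
  have hd : (μ x - μ y).natAbs ≠ 0 := Int.natAbs_ne_zero.2 (sub_ne_zero.2 fun e0 =>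
    hne (hμ hx hy e0))
  have h1 : t1 ^ (μ x - μ y) = 1 := by rw [_root_.zpow_sub, hxy, mul_inv_cancel]
  have h2 : t1 ^ (μ x - μ y).natAbs = 1 := pow_natAbs_eq_one.2 h1
  obtain ⟨q, hq⟩ : (μ x - μ y).natAbs ∣ N := Nat.dvd_factorial (Nat.pos_of_ne_zero hd)
    (Finset.le_sup (f := fun p : (Fin r → ℤ) × (Fin r → ℤ) => (μ p.1 - μ p.2).natAbs)
      (b := (x, y)) (Finset.mem_product.2 ⟨hx, hy⟩))
  have h3 : t1 ^ N = 1 := by rw [hq, pow_mul, h2, one_pow]
  exact ht0.2 (sub_eq_zero.2 (congrArg Units.val h3))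

theorem sum_mul_e (h : Idem (XX χ) e) (t : (Fin r → ℤ) → A) {y : Fin r → ℤ} (hy : y ∈ XX χ) :
    (∑ x ∈ XX χ, t x • e x) * e y = t y • e y ∧ e y * ∑ x ∈ XX χ, t x • e x = t y • e y := by
  constructor
  · rw [Finset.sum_mul, Finset.sum_eq_single_of_mem y hy fun x hx hne => by
      rw [smul_mul_assoc, h.2.1 x hx y hy hne, smul_zero], smul_mul_assoc, h.1 y hy]
  · rw [Finset.mul_sum, Finset.sum_eq_single_of_mem y hy fun x hx hne => by
      rw [mul_smul_comm, h.2.1 y hy x hx hne.symm, smul_zero], mul_smul_comm, h.1 y hy]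

theorem exists_eta {Ω : Type u} [Field Ω] [Algebra k Ω] {e : (Fin r → ℤ) → Mat n Ω}
    (h : H.Tor χ e) (θ : (Fin r → ℤ) → Ω) (hθ : ∀ x ∈ XX χ, ∀ y ∈ XX χ, θ x = θ y → x = y)
    {g : GL (Fin n) Ω} (hg : g ∈ H.G Ω) (hv : (g : Mat n Ω) = ∑ x ∈ XX χ, θ x • e x)
    {ξ : Mat n Ω} (hξ : H.InLie ξ) :
    ∃ η, H.InLie η ∧ η - cj g η + pi0 (XX χ) e η = ξ := by
  have hI := h.tm.1
  have hc : ∀ x ∈ XX χ, (g : Mat n Ω) * e x = θ x • e x ∧ e x * (g : Mat n Ω) = θ x • e x :=
    fun x hx => hv ▸ sum_mul_e hI θ hx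
  let L : Mat n Ω →ₗ[Ω] Mat n Ω :=
    { toFun := fun η => η - cj g η + pi0 (XX χ) e η
      map_add' := fun a b => by
        simp only [cj_add, pi0, mul_add, add_mul, Finset.sum_add_distrib]
        abel
      map_smul' := fun a b => by
        simp only [cj_smul, pi0, mul_smul_comm, smul_mul_assoc, ← Finset.smul_sum, smul_add,
          smul_sub, RingHom.id_apply] }
  have hL : ∀ η ∈ sp H.lie Ω, L η ∈ sp H.lie Ω := fun η hη => by
    have h1 := HS.inLie_iff_sp.2 hη
    obtain ⟨c, hc⟩ := h.pi0_lie h1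
    refine add_mem (sub_mem hη (HS.inLie_iff_sp.1 (HS.inLie_cj hg h1))) ?_
    rw [hc]
    exact HS.inLie_iff_sp.1 (h.tt_inLie c)
  have hinj : Function.Injective (L.restrict hL) := by
    rw [injective_iff_map_eq_zero]
    rintro ⟨η, hη⟩ h0
    have h1 : η - cj g η + pi0 (XX χ) e η = 0 := congrArg Subtype.val h0
    have h2 : η * g - g * η + pi0 (XX χ) e η * g = 0 := by
      have := congrArg (· * (g : Mat n Ω)) h1
      simpa only [add_mul, sub_mul, cj, Units.inv_mul_cancel_right, zero_mul] using this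
    have h3 : ∀ x ∈ XX χ, ∀ y ∈ XX χ, θ y • (e x * η * e y) - θ x • (e x * η * e y) +
        θ y • (e x * pi0 (XX χ) e η * e y) = 0 := fun x hx y hy => by
      have := congrArg (fun M => e x * M * e y) h2
      simp only [mul_add, add_mul, mul_sub, sub_mul, mul_zero, zero_mul] at this
      rw [← this]
      congr 1
      · congr 1
        · rw [← mul_assoc, mul_assoc _ (g : Mat n Ω), (hc y hy).1, mul_smul_comm]
        · rw [← mul_assoc, (hc x hx).2, smul_mul_assoc, smul_mul_assoc]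
      · rw [← mul_assoc, mul_assoc _ (g : Mat n Ω), (hc y hy).1, mul_smul_comm]
    have h4 : ∀ x ∈ XX χ, ∀ y ∈ XX χ, e x * η * e y = 0 := fun x hx y hy => by
      have h5 := h3 x hx y hy
      by_cases hxy : x = y
      · subst hxy
        have h6 : e x * pi0 (XX χ) e η * e x = e x * η * e x := by
          rw [pi0, Finset.mul_sum, Finset.sum_eq_single_of_mem x hx fun z hz hne => by
            rw [← mul_assoc, ← mul_assoc, hI.2.1 x hx z hz hne.symm, zero_mul, zero_mul],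
            ← mul_assoc, ← mul_assoc, hI.1 x hx, mul_assoc, hI.1 x hx]
        rw [sub_self, zero_add, h6] at h5
        refine (smul_eq_zero.1 h5).resolve_left fun h7 => h.ne_zero hx ?_
        have h8 := (hc x hx).1
        rw [h7, zero_smul] at h8
        exact (Units.mul_right_eq_zero g).1 h8
      · rw [mul_assoc _ (pi0 _ _ _), hI.pi0_comm η y hy, ← mul_assoc, hI.2.1 x hx y hy hxy,
          zero_mul, smul_zero, add_zero, ← sub_smul] at h5
        exact (smul_eq_zero.1 h5).resolve_left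
          (sub_ne_zero.2 fun h7 => hxy (hθ x hx y hy h7.symm))
    refine Subtype.ext ?_
    change η = 0
    rw [← one_mul η, ← mul_one (1 * η), ← hI.2.2, Finset.sum_mul, Finset.sum_mul_sum]
    exact Finset.sum_eq_zero fun x hx => Finset.sum_eq_zero fun y hy => h4 x hx y hy
  obtain ⟨⟨η, hη⟩, h1⟩ := LinearMap.surjective_of_injective hinj ⟨ξ, HS.inLie_iff_sp.1 hξ⟩
  exact ⟨η, HS.inLie_iff_sp.2 hη, congrArg Subtype.val h1⟩

/-- The unit `1 + ε a`. -/
def du (A : Type u) [CommRing A] : Multiplicative A →* (DualNumber A)ˣ where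
  toFun := fun a => ⟨TrivSqZeroExt.inl 1 + TrivSqZeroExt.inr a.toAdd,
    TrivSqZeroExt.inl 1 + TrivSqZeroExt.inr (-a.toAdd),
    TrivSqZeroExt.ext (by simp) (by simp), TrivSqZeroExt.ext (by simp) (by simp)⟩
  map_one' := Units.ext (TrivSqZeroExt.ext (by simp) (by simp))
  map_mul' := fun a b => Units.ext (TrivSqZeroExt.ext (by simp) (by simp [add_comm]))

theorem prod_du (c : Fin r → A) (x : Fin r → ℤ) :
    ∏ j, du A (Multiplicative.ofAdd (c j)) ^ x j = du A (Multiplicative.ofAdd (pair x c)) := by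
  simp only [← map_zpow, ← map_prod, pair, ofAdd_sum, ← ofAdd_zsmul, zsmul_eq_mul]

theorem prod_map_du (i : A →ₐ[k] DualNumber A) (t : Fin r → Aˣ) (c : Fin r → A) (x : Fin r → ℤ) :
    ∏ j, (Units.map (i : A →* DualNumber A) (t j) * du A (Multiplicative.ofAdd (c j))) ^ x j =
      Units.map (i : A →* DualNumber A) (∏ j, t j ^ x j) *
        du A (Multiplicative.ofAdd (pair x c)) := by
  rw [← prod_du, map_prod, ← Finset.prod_mul_distrib]
  exact Finset.prod_congr rfl fun j _ => by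
    rw [map_zpow]
    exact Commute.mul_zpow (Units.ext (mul_comm _ _)) _

end Par

namespace HS

theorem Param.at_mem {σ : Type} (p : H.Param σ) (v : σ → A)
    (hv : IsUnit (MvPolynomial.aeval v p.f)) : p.at v hv ∈ H.G A := by
  exact G_gm _ p.mem

theorem Param.at_map {σ : Type} (p : H.Param σ) (v : σ → A)
    (hv : IsUnit (MvPolynomial.aeval v p.f)) (f : A →ₐ[k] A')
    (hv' : IsUnit (MvPolynomial.aeval (fun s => f (v s)) p.f)) :
    gm f (p.at v hv) = p.at (fun s => f (v s)) hv' := by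
  unfold Param.at
  rw [gm_comp]
  congr 2
  refine IsLocalization.algHom_ext (Submonoid.powers p.f) (MvPolynomial.algHom_ext fun s => ?_)
  simp [Algebra.algHom, IsLocalization.Away.lift_eq]

/-- the differential of `p` at `v` is onto -/
def Param.Onto {σ : Type} (p : H.Param σ) (v : σ → A) (hv : IsUnit (MvPolynomial.aeval v p.f)) :
    Prop :=
  ∀ ξ : Mat n A, H.InLie ξ → ∃ (w : σ → A)
    (hw : IsUnit (MvPolynomial.aeval
      (fun s => (TrivSqZeroExt.inl (v s) + TrivSqZeroExt.inr (w s) : DualNumber A)) p.f)),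
    ((p.at _ hw : GL (Fin n) (DualNumber A)) : Mat n (DualNumber A)) =
      dual (p.at v hv : Mat n A) (ξ * (p.at v hv : Mat n A))

theorem Datum.par (D : H.Datum) :
    ∃ (σ : Type) (_ : Fintype σ) (p : H.Param σ),
      ∀ (Ω : Type u) [Field Ω] [Algebra k Ω] [Infinite Ω], (D.l →ₐ[k] Ω) →
        ∃ (v : σ → Ω) (hv : IsUnit (MvPolynomial.aeval v p.f)), p.Onto v hv := by
  classical
  set S : Finset ℤ := (XX D.χ ×ˢ (Finset.univ : Finset (Fin D.r))).image fun q => q.1 q.2 with hS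
  have hO : ∀ j, Pi.evalAddMonoidHom (fun _ => ℤ) j ∈ OR D.χ S := fun j =>
    (mem_OR D.span S _).2 fun x hx => Finset.mem_image.2
      ⟨(x, j), Finset.mem_product.2 ⟨hx, Finset.mem_univ _⟩, rfl⟩
  obtain ⟨p, hp⟩ := D.norm S (Par.mono k n (OR D.χ S) S)
  refine ⟨_, inferInstance, p, fun Ω _ _ _ ι => ?_⟩
  have hT := D.tor_es ι
  obtain ⟨Y, hY, hΔ⟩ := D.reg_es ι
  have hR := hY.reg hΔ
  obtain ⟨t, ht⟩ := Par.exists_inj (Ω := Ω) (XX D.χ)
  obtain ⟨c0, hc0⟩ := Par.nc_surj hT D.span S fun a => (Par.ww t a : Ω)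
  obtain ⟨hv, hg⟩ := hp Ω (scrd D.big.m Y) c0 (D.es ι) (Par.ww t) hT
    (by rwa [hY.1.svec_scrd]) fun a ha => (hc0 a ha).symm
  refine ⟨_, hv, fun ξ hξ => ?_⟩
  set g := p.at _ hv with hgd
  simp only [nt, Par.prod_ww hO] at hg
  obtain ⟨η, hη, hηξ⟩ := Par.exists_eta hT (fun x => ((∏ j, t j ^ x j : Ωˣ) : Ω))
    (fun x hx y hy hxy => ht x hx y hy (Units.ext hxy)) (p.at_mem _ hv) hg hξ
  rw [← hgd] at hηξ
  obtain ⟨c, hc⟩ := hT.pi0_lie hη
  set i : Ω →ₐ[k] DualNumber Ω := TrivSqZeroExt.inlAlgHom k Ω Ω with hi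
  set π : DualNumber Ω →ₐ[k] Ω := TrivSqZeroExt.fstHom k Ω Ω with hπ
  have hγ : dualU η ∈ H.G (DualNumber Ω) := (H.dualU_mem_G η).2 hη
  have hπγ : gm π (dualU η) = 1 := Units.ext (Matrix.ext fun a b => by
    rw [gm_apply, dualU_val]
    exact dual_fst 1 η a b)
  have hπc : ∀ M : Mat n Ω, (GR.cj (dualU η) (M.map i)).map π = M := fun M => by
    rw [cj_map, hπγ, one_cj]
    rfl
  have hT' := (hT.map i).cj hγ
  have hR' := (hR.map i).cj hγ
  have hY' := D.big.inS_cj hγ (hY.1.map i)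
  set u : Fin D.r → (DualNumber Ω)ˣ := fun j =>
    Units.map (i : Ω →* DualNumber Ω) (t j) * Par.du Ω (Multiplicative.ofAdd (c j)) with hu
  set e' : (Fin D.r → ℤ) → Mat n (DualNumber Ω) :=
    fun x => GR.cj (dualU η) ((D.es ι x).map i) with he'
  have hee : (fun x => (e' x).map π) = D.es ι := funext fun x => hπc _
  obtain ⟨c1, hc1⟩ := Par.nc_surj hT D.span S fun a =>
    ((Par.ww u a : DualNumber Ω) - nc D.χ e' (Par.mono k n (OR D.χ S) S) (fun s => i (c0 s)) a).snd
  obtain ⟨hv', hg'⟩ := hp (DualNumber Ω) (scrd D.big.m (GR.cj (dualU η) (Y.map i)))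
    (fun s => i (c0 s) + TrivSqZeroExt.inr (c1 s)) e' (Par.ww u) hT'
    (by rwa [hY'.svec_scrd]) fun a ha => by
      have e1 : nc D.χ e' (Par.mono k n (OR D.χ S) S)
          (fun s => i (c0 s) + TrivSqZeroExt.inr (c1 s)) a =
          nc D.χ e' (Par.mono k n (OR D.χ S) S) (fun s => i (c0 s)) a +
          nc D.χ e' (Par.mono k n (OR D.χ S) S) (fun s => TrivSqZeroExt.inr (c1 s)) a := by
        simp only [nc, add_mul, Finset.sum_add_distrib]
      have e2 : nc D.χ e' (Par.mono k n (OR D.χ S) S) (fun s => TrivSqZeroExt.inr (c1 s)) a =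
          TrivSqZeroExt.inr (nc D.χ (D.es ι) (Par.mono k n (OR D.χ S) S) c1 a) := by
        rw [nc, nc, TrivSqZeroExt.inr_sum]
        refine Finset.sum_congr rfl fun s _ => ?_
        have e3 := nc_map (χ := D.χ) (e := e') (σ := Unit)
          (fun _ => Par.mono k n (OR D.χ S) S s) (fun _ => 1) a π
        rw [hee] at e3
        simp only [nc, Finset.univ_unique, Finset.sum_singleton, map_one, one_mul] at e3
        rw [← e3]
        refine TrivSqZeroExt.ext (by simp) ?_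
        simp [hπ, mul_comm]
      rw [e1, e2, hc1 a ha]
      refine TrivSqZeroExt.ext ?_ (by simp)
      have e4 := nc_map (χ := D.χ) (e := e') (Par.mono k n (OR D.χ S) S) (fun s => i (c0 s)) a π
      rw [hee] at e4
      have e5 := Par.map_ww π u a
      have e6 : (fun j => Units.map (π : DualNumber Ω →* Ω) (u j)) = t := funext fun j =>
        Units.ext (by simp [hu, hπ, hi, Par.du])
      rw [e6] at e5
      rw [TrivSqZeroExt.fst_add, TrivSqZeroExt.fst_inr, add_zero]
      exact e5.trans ((hc0 a ha).symm.trans e4.symm)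
  set v' : Fin (sN D.big.m) ⊕ _ → DualNumber Ω := Sum.elim
    (scrd D.big.m (GR.cj (dualU η) (Y.map i))) fun s => i (c0 s) + TrivSqZeroExt.inr (c1 s)
    with hv'd
  have hvv : (fun s => (TrivSqZeroExt.inl (Sum.elim (scrd D.big.m Y) c0 s) +
      TrivSqZeroExt.inr (v' s).snd : DualNumber Ω)) = v' := funext fun s => by
    refine TrivSqZeroExt.ext ?_ (by simp)
    cases s with
    | inl l =>
      have := scrd_map D.big.m π (GR.cj (dualU η) (Y.map i)) l
      rw [hπc] at this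
      simpa [hv'd, hπ] using this
    | inr s => simp [hv'd, hi]
  refine ⟨fun s => (v' s).snd, ?_⟩
  rw [hvv]
  refine ⟨hv', ?_⟩
  rw [hg']
  simp only [nt, Par.prod_ww hO, he', ← cj_smul, ← cj_sum]
  have e7 : ∑ x ∈ XX D.χ, ((∏ j, u j ^ x j : (DualNumber Ω)ˣ) : DualNumber Ω) •
      (D.es ι x).map i = dual (g : Mat n Ω) (tt D.χ (D.es ι) c * (g : Mat n Ω)) := by
    have e8 : tt D.χ (D.es ι) c * (g : Mat n Ω) =
        ∑ x ∈ XX D.χ, (pair x c * ((∏ j, t j ^ x j : Ωˣ) : Ω)) • D.es ι x := by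
      rw [tt, Finset.sum_mul]
      refine Finset.sum_congr rfl fun x hx => ?_
      rw [smul_mul_assoc, hg, (Par.sum_mul_e hT.tm.1 _ hx).2, smul_smul]
    have e9 : ∀ x : Fin D.r → ℤ, ((∏ j, u j ^ x j : (DualNumber Ω)ˣ) : DualNumber Ω) =
        TrivSqZeroExt.inl ((∏ j, t j ^ x j : Ωˣ) : Ω) *
          (TrivSqZeroExt.inl 1 + TrivSqZeroExt.inr (pair x c)) := fun x => by
      exact congrArg Units.val (Par.prod_map_du i t c x)
    rw [e8, hg]
    simp only [e9]
    refine dual_ext (fun a b => ?_) fun a b => ?_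
    · rw [dual_fst]
      simp [Matrix.sum_apply, TrivSqZeroExt.fst_sum, hi, -Units.coe_prod]
    · rw [dual_snd]
      simp [Matrix.sum_apply, TrivSqZeroExt.snd_sum, hi, -Units.coe_prod, mul_comm, mul_left_comm]
  rw [e7, GR.cj, dualU_val, dualU_inv_val, dual_mul, dual_mul, ← hηξ, hc]
  congr 1
  · simp
  · simp only [one_mul, mul_one, add_mul, sub_mul, GR.cj, Units.inv_mul_cancel_right, mul_neg]
    abel

end HS

end Pool.Agent.GR
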