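import Pool.Agent.P.MP_c1f06d_ag.r.R1A
import Pool.Agent.P.MP_c1f06d_ag.r.K1
import Pool.Agent.P.MP_c1f06d_ag.r.UPar

/-! Archimedean valuation rings: approximation of a point of a torus by a rational map. -/

open Matrix IsLocalRing

universe u

namespace Pool.Agent.GR

variable {k : Type u} [Field k] {n r : ℕ} {A : Type u} [CommRing A] [Algebra k A]
  {χ : Fin n → Fin r → ℤ} {e : (Fin r → ℤ) → Mat n A}

theorem r1_inter {W F D F' : Type u} [CommRing W] [IsDomain W] [ValuationRing W] [Field F]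
    [Algebra W F] [IsFractionRing W F] [CommRing D] [Field F'] (j : W →+* D) [IsLocalHom j]
    (ι : D →+* F') (hι : Function.Injective ι) (φ : F →+* F')
    (h : ∀ w, φ (algebraMap W F w) = ι (j w)) {f : F} {d : D} (hf : ι d = φ f) :
    ∃ w, algebraMap W F w = f := by
  rcases ValuationRing.isInteger_or_isInteger W f with h1 | ⟨w, hw⟩
  · exact h1
  · by_cases h0 : f = 0
    · exact ⟨0, by rw [map_zero, h0]⟩
    have : j w * d = 1 := hι (by
      rw [map_mul, ← h, hw, hf, ← map_mul, inv_mul_cancel₀ h0, map_one, map_one])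
    obtain ⟨v, rfl⟩ := (isUnit_map_iff j w).1 (IsUnit.of_mul_eq_one _ this)
    exact ⟨↑v⁻¹, by rw [map_units_inv, hw, inv_inv]⟩

theorem r1_entries {F : Type u} [Field F] [Algebra k F] (ι : A →ₐ[k] F) {Γ : Type} {S : Finset Γ}
    {E : Γ → Mat n A} (h : Idem S E) (κ : GL (Fin n) A) (t : Fin n → Fˣ) (U : Γ → Fˣ)
    (g : GL (Fin n) F) (hg : (g : Mat n F) = ∑ x ∈ S, (U x : F) • (E x).map ι)
    (h1 : ∀ x ∈ S, ∀ i i', (((U x)⁻¹ * t i' : Fˣ) : F) * ι ((E x * (κ : Mat n A)) i i') ∈ ι.range)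
    (h2 : ∀ x ∈ S, ∀ i i', ((U x * (t i')⁻¹ : Fˣ) : F) *
      ι ((((κ⁻¹ : GL (Fin n) A) : Mat n A) * E x) i' i) ∈ ι.range) :
    (∀ i i', ((g⁻¹ * gm ι κ * dgU t : GL (Fin n) F) : Mat n F) i i' ∈ ι.range) ∧
      ∀ i i', (((g⁻¹ * gm ι κ * dgU t)⁻¹ : GL (Fin n) F) : Mat n F) i i' ∈ ι.range := by
  have hi : ((g⁻¹ : GL (Fin n) F) : Mat n F) = ∑ x ∈ S, (((U x)⁻¹ : Fˣ) : F) • (E x).map ι := by
    refine Units.inv_eq_of_mul_eq_one_right ?_
    rw [hg, (h.mapM ι).sum_mul_sum]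
    simp only [Units.mul_inv, one_smul]
    exact (h.mapM ι).2.2
  refine ⟨fun i i' => ?_, fun i' i => ?_⟩
  · rw [Units.val_mul, Units.val_mul, hi]
    rw [gm_val, dgU, mul_diagonal, Finset.sum_mul, Matrix.sum_apply, Finset.sum_mul]
    refine sum_mem fun x hx => ?_
    rw [Matrix.smul_mul, ← mapM_mul, Matrix.smul_apply, smul_eq_mul, mul_right_comm]
    exact h1 x hx i i'
  · rw [_root_.mul_inv_rev, _root_.mul_inv_rev, inv_inv, Units.val_mul, Units.val_mul, hg]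
    rw [gm_inv_val, show (((dgU t)⁻¹ : GL (Fin n) F) : Mat n F) =
      diagonal fun i => (((t i)⁻¹ : Fˣ) : F) from rfl, diagonal_mul, Finset.mul_sum, Matrix.sum_apply, Finset.mul_sum]
    refine sum_mem fun x hx => ?_
    rw [Matrix.mul_smul, ← mapM_mul, Matrix.smul_apply, smul_eq_mul, ← mul_assoc,
      mul_comm _ (U x : F)]
    exact h2 x hx i i'

namespace HS

variable {H : HS k n}

theorem r1_rig [IsLocalRing A] (h : H.Tor χ e) (hs : Submodule.span ℤ (Set.range χ) = ⊤)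
    {X : Mat n A} (hX : H.Reg χ e X) {q : ℕ} {c : Fin n → Fin q → ℤ} {κ : GL (Fin n) A}
    (hf : H.Fixed c (H.act κ⁻¹ (H.pt A))) (hl : InL c (cj κ⁻¹ X)) (S : Finset ℤ)
    (hS : ∀ i l, c i l ∈ S) (l : Fin q) :
    ∃ a : (Fin r → ℤ) →+ ℤ, (∀ x ∈ XX χ, a x ∈ S) ∧
      (∀ m ∈ S, cj κ (eps A (fun i => c i l) m) = lamE χ e a m) ∧
      ∀ x ∈ XX χ, ∀ i i', a x ≠ c i' l → (e x * (κ : Mat n A)) i i' = 0 ∧
        (((κ⁻¹ : GL (Fin n) A) : Mat n A) * e x) i' i = 0 := by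
  have h1 : H.Fixed (fun i => c i l) (H.act κ⁻¹ (H.pt A)) :=
    H.r1_fixed (AlgHom.id k A) (Pi.evalAddMonoidHom (fun _ => ℤ) l) hf
  obtain ⟨a, ha, hE⟩ := h.rig hs hX (H.r1_tm h1 S fun i => hS i l) fun m _ => by
    have := congrArg (cj κ) (hl.r1_comm (fun y => y l) m)
    rwa [cj_mul, cj_mul, cj_cj_inv] at this
  refine ⟨a, ha, hE, fun x hx i i' hne => ?_⟩
  obtain ⟨e1, e2⟩ := h.tm.1.lamE_mul a (c i' l) hx
  rw [if_neg hne, ← hE _ (hS i' l), cj] at e1 e2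
  constructor
  · have := congrArg (fun M => (M * (κ : Mat n A)) i i') e2
    simpa [← Matrix.mul_assoc, eps] using this
  · have := congrArg (fun M => (((κ⁻¹ : GL (Fin n) A) : Mat n A) * M) i' i) e1
    simp only [Matrix.mul_assoc, Units.inv_mul_cancel_left] at this
    simpa [eps] using this

theorem r1_choice [Infinite k] [IsLocalRing A] (h : H.Tor χ e)
    (hs : Submodule.span ℤ (Set.range χ) = ⊤) (S : Finset ℤ) (a0 : (Fin r → ℤ) →+ ℤ) :
    ∃ t : S × Fin n × Fin n → k, ∀ a ∈ OR χ S, a ≠ a0 → IsUnit (∑ s, algebraMap k A (t s) *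
      (lamE χ e a s.1 s.2.1 s.2.2 - lamE χ e a0 s.1 s.2.1 s.2.2)) := by
  classical
  let ω := IsScalarTower.toAlgHom k A (ResidueField A)
  obtain ⟨t, ht⟩ := r1_generic (k := k) ((OR χ S).erase a0)
    (fun a (s : S × Fin n × Fin n) =>
      ω (lamE χ e a s.1 s.2.1 s.2.2 - lamE χ e a0 s.1 s.2.1 s.2.2)) fun a ha h0 => by
      obtain ⟨hne, ha⟩ := Finset.mem_erase.1 ha
      refine hne (add_ext_XX hs fun x hx => ?_)
      have e1 : (lamE χ e a (a x)).map ω = (lamE χ e a0 (a x)).map ω := by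
        ext i j
        have := congrFun h0 (⟨a x, (mem_OR hs S a).1 ha x hx⟩, i, j)
        rw [map_sub, Pi.zero_apply, sub_eq_zero] at this
        exact this
      rw [lamE_map, lamE_map] at e1
      have e2 := ((h.map ω).tm.1.lamE_mul a (a x) hx).1
      rw [e1, ((h.map ω).tm.1.lamE_mul a0 (a x) hx).1, if_pos rfl] at e2
      by_contra hne
      rw [if_neg (Ne.symm hne)] at e2
      exact (h.map ω).ne_zero hx e2.symm
  refine ⟨t, fun a ha hne => (residue_ne_zero_iff_isUnit _).1 ?_⟩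
  have := ht a (Finset.mem_erase.2 ⟨hne, ha⟩)
  show ω _ ≠ 0
  rw [map_sum]
  simpa only [map_mul, AlgHom.commutes] using this

variable {O W F : Type u} [CommRing O] [Algebra k O] [CommRing W] [Algebra k W] [Field F]
  [Algebra k F]

theorem r1_one [Infinite k] [IsLocalRing A] (D : H.Datum) (ψ : O →ₐ[k] F)
    (hψ : ∀ x, ψ x ≠ 0 → IsUnit x) (j : W →ₐ[k] A) (ι : A →ₐ[k] F)
    (hl : ∀ w, ∃ o, ψ o = ι (j w)) (x : Fin (sN D.big.m) → W) {e : (Fin D.r → ℤ) → Mat n A}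
    (h : H.Tor D.χ e) (hX : H.Reg D.χ e ((svec D.big.m x).map j)) (S : Finset ℤ)
    (a0 : (Fin D.r → ℤ) →+ ℤ) (ha0 : ∀ y ∈ XX D.χ, a0 y ∈ S) (p : W) (π : Fˣ)
    (hπ : ι (j p) = π) (hp : j p ∈ maximalIdeal A) (E : ℤ → Mat n W)
    (hE : ∀ m ∈ S, ∀ i i', ∃ z ∈ maximalIdeal A,
      lamE D.χ e a0 m i i' - j (E m i i') = j p * z) :
    ∃ τ ∈ H.G O, ∃ u : (Fin D.r → ℤ) → Aˣ, ((gm ψ τ : GL (Fin n) F) : Mat n F) =
      ∑ y ∈ XX D.χ, ((π ^ a0 y * Units.map (ι : A →* F) (u y) : Fˣ) : F) • (e y).map ι := by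
  classical
  obtain ⟨t, ht⟩ := r1_choice h D.span S a0
  let φ : Option (S × Fin n × Fin n) → MvPolynomial (ℤ × Fin n × Fin n) k :=
    fun s => s.elim 1 fun s => MvPolynomial.X (s.1, s.2)
  let cc : Option (S × Fin n × Fin n) → W := fun s =>
    s.elim (p - ∑ s, algebraMap k W (t s) * E s.1 s.2.1 s.2.2) fun s => algebraMap k W (t s)
  choose z hz1 hz2 using fun s : S × Fin n × Fin n => hE s.1 s.1.2 s.2.1 s.2.2
  have hz : ∑ s, algebraMap k A (t s) * z s ∈ maximalIdeal A :=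
    sum_mem fun s _ => Ideal.mul_mem_left _ _ (hz1 s)
  have hN : ∀ a, nc D.χ e φ (fun s => j (cc s)) a = ∑ s, algebraMap k A (t s) *
      (lamE D.χ e a s.1 s.2.1 s.2.2 - lamE D.χ e a0 s.1 s.2.1 s.2.2) +
        j p * (1 + ∑ s, algebraMap k A (t s) * z s) := fun a => by
    rw [nc, Fintype.sum_option]
    simp only [φ, cc, Option.elim, map_one, mul_one, map_sub, map_sum, map_mul, AlgHom.commutes,
      MvPolynomial.aeval_X]
    rw [mul_add, mul_one, Finset.mul_sum, add_left_comm, sub_add, sub_eq_add_neg,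
      ← Finset.sum_sub_distrib, ← Finset.sum_neg_distrib, ← Finset.sum_add_distrib]
    congr 1
    refine Finset.sum_congr rfl fun s _ => ?_
    rw [mul_left_comm, ← hz2]
    ring
  have hU : ∀ a, ∃ u : Aˣ, a ∈ OR D.χ S →
      nc D.χ e φ (fun s => j (cc s)) a = (if a = a0 then j p else 1) * u := fun a => by
    by_cases ha : a ∈ OR D.χ S
    swap
    · exact ⟨1, fun h => absurd h ha⟩
    rw [hN]
    split_ifs with e1
    · have : IsUnit (1 + ∑ s, algebraMap k A (t s) * z s) := by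
        by_contra hu
        exact (maximalIdeal.isMaximal A).ne_top ((Ideal.eq_top_iff_one _).2
          ((Ideal.add_mem_iff_left _ hz).1 hu))
      exact ⟨this.unit, fun _ => by simp [e1]⟩
    · have : IsUnit (∑ s, algebraMap k A (t s) *
          (lamE D.χ e a s.1 s.2.1 s.2.2 - lamE D.χ e a0 s.1 s.2.1 s.2.2) +
            j p * (1 + ∑ s, algebraMap k A (t s) * z s)) := by
        by_contra hu
        exact (Ideal.add_mem_iff_left _ (Ideal.mul_mem_right _ _ hp)).1 hu (ht a ha e1)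
      exact ⟨this.unit, fun _ => by rw [one_mul, IsUnit.unit_spec]⟩
  choose u hu using hU
  obtain ⟨P, hP⟩ := D.norm S φ
  obtain ⟨hv, e1⟩ := hP F (fun l => ι (j (x l))) (fun s => ι (j (cc s))) (fun y => (e y).map ι)
    (fun a => (if a = a0 then π else 1) * Units.map (ι : A →* F) (u a)) (h.map ι)
    (by
      have := hX.map ι
      rwa [svec_map, svec_map] at this)
    fun a ha => by
      rw [← nc_map, hu a ha, map_mul]
      split_ifs
      · rw [hπ]
        rfl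
      · rw [map_one]
        rfl
  choose o ho using fun s => hl (Sum.elim x cc s)
  have e2 : (Sum.elim (fun l => ι (j (x l))) fun s => ι (j (cc s))) = fun s => ψ (o s) :=
    funext fun s => by
      rw [ho]
      cases s <;> rfl
  have hv' : IsUnit (MvPolynomial.aeval (fun s => ψ (o s)) P.f) := e2 ▸ hv
  have hv0 : IsUnit (MvPolynomial.aeval o P.f) := hψ _ (by
    rw [← AlgHom.comp_apply, MvPolynomial.comp_aeval]
    exact hv'.ne_zero)
  refine ⟨P.at o hv0, P.at_mem o hv0, fun y => ∏ a ∈ OR D.χ S, u a ^ a y, ?_⟩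
  have e3 : P.at (fun s => ψ (o s)) hv' = P.at _ hv := by congr 1; exact e2.symm
  rw [P.at_map o hv0 ψ hv', e3, e1, nt]
  refine Finset.sum_congr rfl fun y _ => ?_
  congr 2
  simp only [mul_zpow, Finset.prod_mul_distrib, map_prod, map_zpow]
  congr 1
  rw [Finset.prod_eq_single_of_mem a0 ((mem_OR D.span S a0).2 ha0), if_pos rfl]
  intro a _ hne
  rw [if_neg hne, _root_.one_zpow]

theorem r1_core [Infinite k] [IsLocalRing A] (D : H.Datum) (ψ : O →ₐ[k] F)
    (hψ : ∀ x, ψ x ≠ 0 → IsUnit x) (j : W →ₐ[k] A) (ι : A →ₐ[k] F)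
    (hl : ∀ w, ∃ o, ψ o = ι (j w)) (x : Fin (sN D.big.m) → W) {e : (Fin D.r → ℤ) → Mat n A}
    (h : H.Tor D.χ e) (hX : H.Reg D.χ e ((svec D.big.m x).map j)) {q : ℕ}
    (c : Fin n → Fin q → ℤ) (κ : GL (Fin n) W) (S : Finset ℤ) (hS : ∀ i l, c i l ∈ S)
    (p : Fin q → W) (π : Fin q → Fˣ) (hπ : ∀ l, ι (j (p l)) = π l)
    (hp : ∀ l, j (p l) ∈ maximalIdeal A) (v : W) (hv0 : j v ∈ maximalIdeal A)
    (hv1 : ∀ l, ∃ z ∈ maximalIdeal A, j v = j (p l) * z)
    (hv2 : ∀ m m' : Fin q → ℤ, (∀ l, m l ∈ S) → (∀ l, m' l ∈ S) →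
      ((∏ l, π l ^ m l : Fˣ)⁻¹ * (∏ l, π l ^ m' l : Fˣ) : Fˣ) * ι (j v) ∈ ι.range)
    (hfix : H.Fixed c ((Ideal.Quotient.mkₐ k (Ideal.span {v})).comp (H.act κ⁻¹ (H.pt W))))
    (hL : InL c ((cj κ⁻¹ (svec D.big.m x)).map (Ideal.Quotient.mkₐ k (Ideal.span {v})))) :
    ∃ τ ∈ H.G O, (∀ i i', (((gm ψ τ)⁻¹ * gm ι (gm j κ) * dgU fun i => ∏ l, π l ^ c i l :
        GL (Fin n) F) : Mat n F) i i' ∈ ι.range) ∧
      ∀ i i', ((((gm ψ τ)⁻¹ * gm ι (gm j κ) * dgU fun i => ∏ l, π l ^ c i l)⁻¹ :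
        GL (Fin n) F) : Mat n F) i i' ∈ ι.range := by
  classical
  let J : Ideal A := Ideal.span {j v}
  have hJ : J ≠ ⊤ := fun h => (maximalIdeal.isMaximal A).ne_top
    (top_le_iff.1 (h ▸ (Ideal.span_singleton_le_iff_mem _).2 hv0))
  have : Nontrivial (A ⧸ J) := Ideal.Quotient.nontrivial_iff.2 hJ
  have : IsLocalRing (A ⧸ J) := .of_surjective' (Ideal.Quotient.mk J) Ideal.Quotient.mk_surjective
  let Q := Ideal.Quotient.mkₐ k J
  let μ : (W ⧸ Ideal.span {v}) →ₐ[k] A ⧸ J := Ideal.Quotient.liftₐ _ (Q.comp j) fun a ha => by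
    obtain ⟨b, rfl⟩ := Ideal.mem_span_singleton'.1 ha
    show Ideal.Quotient.mk J (j _) = 0
    rw [Ideal.Quotient.eq_zero_iff_mem, map_mul]
    exact J.mul_mem_left _ (Ideal.mem_span_singleton_self _)
  have f1 : H.Fixed c (H.act (gm Q (gm j κ))⁻¹ (H.pt (A ⧸ J))) := by
    have := H.r1_fixed μ (AddMonoidHom.id _) hfix
    rw [H.r1_act_inv, H.r1_act_inv] at this
    exact this
  have f2 : InL c (cj (gm Q (gm j κ))⁻¹ (((svec D.big.m x).map j).map Q)) := fun i i' hne => by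
    have := congrArg μ (hL i i' hne)
    rw [map_zero] at this
    rw [← map_inv, ← cj_map, ← map_inv, ← cj_map]
    exact this
  choose a ha1 ha2 ha3 using r1_rig (h.map Q) D.span (hX.map Q) f1 f2 S hS
  have one : ∀ l, ∃ τ ∈ H.G O, ∃ u : (Fin D.r → ℤ) → Aˣ, ((gm ψ τ : GL (Fin n) F) : Mat n F) =
      ∑ y ∈ XX D.χ, ((π l ^ a l y * Units.map (ι : A →* F) (u y) : Fˣ) : F) • (e y).map ι :=
    fun l => r1_one D ψ hψ j ι hl x h hX S (a l) (ha1 l) (p l) (π l) (hπ l) (hp l)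
      (fun m => cj κ (eps W (fun i => c i l) m)) fun m hm i i' => by
        have e1 := ha2 l m hm
        rw [← lamE_map, ← eps_map Q, ← cj_map, ← eps_map j, ← cj_map] at e1
        obtain ⟨b, hb⟩ := Ideal.mem_span_singleton'.1
          (Ideal.Quotient.eq.1 (congrFun (congrFun e1 i) i').symm)
        obtain ⟨z, hz, e2⟩ := hv1 l
        refine ⟨b * z, Ideal.mul_mem_left _ _ hz, ?_⟩
        rw [mul_left_comm, ← e2, hb]
        rfl
  have all : ∀ T : Finset (Fin q), ∃ τ ∈ H.G O, ∃ u : (Fin D.r → ℤ) → Aˣ,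
      ((gm ψ τ : GL (Fin n) F) : Mat n F) = ∑ y ∈ XX D.χ,
        (((∏ l ∈ T, π l ^ a l y) * Units.map (ι : A →* F) (u y) : Fˣ) : F) • (e y).map ι := by
    intro T
    induction T using Finset.induction_on with
    | empty =>
      refine ⟨1, one_mem _, 1, ?_⟩
      simp only [map_one, Finset.prod_empty, Pi.one_apply, mul_one, Units.val_one, one_smul]
      exact (h.tm.1.mapM ι).2.2.symm
    | insert l T hl ih =>
      obtain ⟨τ, h1, u, h2⟩ := one l
      obtain ⟨τ', h1', u', h2'⟩ := ih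
      refine ⟨τ * τ', mul_mem h1 h1', u * u', ?_⟩
      rw [map_mul, Units.val_mul, h2, h2', (h.tm.1.mapM ι).sum_mul_sum]
      refine Finset.sum_congr rfl fun y _ => ?_
      rw [← Units.val_mul, Finset.prod_insert hl, Pi.mul_apply, map_mul, mul_mul_mul_comm]
  obtain ⟨τ, hτ, u, hu⟩ := all Finset.univ
  have key : ∀ (m m' : Fin q → ℤ) (w : Aˣ) (d : A), (∀ l, m l ∈ S) → (∀ l, m' l ∈ S) →
      (m ≠ m' → Q d = 0) → ((∏ l, π l ^ m l : Fˣ)⁻¹ * (∏ l, π l ^ m' l : Fˣ) *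
        Units.map (ι : A →* F) w : Fˣ) * ι d ∈ ι.range := fun m m' w d hm hm' hd => by
    by_cases e1 : m = m'
    · rw [e1, inv_mul_cancel, one_mul]
      exact mul_mem ⟨w, rfl⟩ ⟨d, rfl⟩
    · obtain ⟨b, rfl⟩ := Ideal.mem_span_singleton'.1 (Ideal.Quotient.eq_zero_iff_mem.1 (hd e1))
      rw [Units.val_mul, map_mul, mul_comm (ι b), mul_mul_mul_comm]
      exact mul_mem (hv2 m m' hm hm') (mul_mem ⟨w, rfl⟩ ⟨b, rfl⟩)
  refine ⟨τ, hτ, r1_entries ι h.tm.1 (gm j κ) _ _ _ hu (fun y hy i i' => ?_) fun y hy i i' => ?_⟩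
  · have := key (fun l => a l y) (c i') (u y)⁻¹ ((e y * (gm j κ : Mat n A)) i i')
      (fun l => ha1 l y hy) (hS i') fun hne => by
        obtain ⟨l, hl⟩ := Function.ne_iff.1 hne
        have := (ha3 l y hy i i' hl).1
        rwa [gm_val, ← mapM_mul] at this
    rwa [map_inv, mul_right_comm, ← mul_inv] at this
  · have := key (c i') (fun l => a l y) (u y)
      (((((gm j κ)⁻¹ : GL (Fin n) A) : Mat n A) * e y) i' i) (hS i') (fun l => ha1 l y hy)
      fun hne => by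
        obtain ⟨l, hl⟩ := Function.ne_iff.1 hne
        have := (ha3 l y hy i i' hl.symm).2
        rwa [gm_inv_val, ← mapM_mul] at this
    rwa [mul_assoc (_⁻¹ : Fˣ), mul_comm (_⁻¹ : Fˣ)] at this

/-- The Cartan decomposition with a fixed point modulo a given element. -/
def CartanSt (H : HS k n) : Prop :=
  ∀ (W F : Type u) [CommRing W] [IsDomain W] [ValuationRing W] [Field F] [Algebra W F]
    [IsFractionRing W F] [Algebra k W] [Algebra k F] [IsScalarTower k W F],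
    (∀ a ∈ maximalIdeal W, ∀ b : W, b ≠ 0 → ∃ N : ℕ, b ∣ a ^ N) →
    ∀ (y1 : H.B →ₐ[k] W) (σ : GL (Fin n) F),
      H.act σ ((IsScalarTower.toAlgHom k W F).comp y1) = H.pt F →
      ∃ (r : ℕ) (π : Fin r → Fˣ) (c : Fin n → Fin r → ℤ),
        (∀ j, ∃ p ∈ maximalIdeal W, algebraMap W F p = π j) ∧
        ∀ vp : W, vp ≠ 0 → ∃ κ k' : GL (Fin n) W,
          σ⁻¹ * gm (IsScalarTower.toAlgHom k W F) κ * dgU (fun i => ∏ j, π j ^ c i j) =
            gm (IsScalarTower.toAlgHom k W F) k' ∧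
          H.Fixed c ((Ideal.Quotient.mkₐ k (Ideal.span {vp})).comp (H.act κ⁻¹ (H.pt W)))

theorem r1_of [Infinite k] (D : H.Datum) (hc : H.ConjSt D) (hcar : H.CartanSt) : H.R1St := by
  classical
  intro W F O _ _ _ _ _ _ _ _ _ _ _ _ ρ hρ hu arch y1 σ hσ
  obtain ⟨q, π, c, h1, h3⟩ := hcar W F arch y1 σ hσ
  choose p hp hpπ using h1
  set i0 := IsScalarTower.toAlgHom k W F with hi0
  have hi : Function.Injective i0 := IsFractionRing.injective W F
  rcases Nat.eq_zero_or_pos q with rfl | hq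
  · obtain ⟨κ, k', e1, -⟩ := h3 1 one_ne_zero
    refine ⟨1, one_mem _, κ * k'⁻¹, ?_⟩
    have : (dgU fun i => ∏ j, π j ^ c i j) = 1 := Units.ext (by simp [dgU])
    rw [this, mul_one] at e1
    rw [map_one, inv_one, one_mul, map_mul, map_inv, ← e1]
    group
  let S : Finset ℤ := Finset.univ.image fun s : Fin n × Fin q => c s.1 s.2
  have hS : ∀ i l, c i l ∈ S := fun i l => Finset.mem_image_of_mem _ (Finset.mem_univ (i, l))
  obtain ⟨b, hb⟩ := IsLocalization.exist_integer_multiples (nonZeroDivisors W)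
    ((Fintype.piFinset fun _ : Fin q => S) ×ˢ Fintype.piFinset fun _ : Fin q => S)
    fun m => (((∏ l, π l ^ m.1 l : Fˣ)⁻¹ * (∏ l, π l ^ m.2 l : Fˣ) : Fˣ) : F)
  have hp0 : ∀ l, p l ≠ 0 := fun l h => (π l).ne_zero (by rw [← hpπ, h, map_zero])
  set v := p ⟨0, hq⟩ * (∏ l, p l) * b with hv
  have hv0 : v ∈ maximalIdeal W := Ideal.mul_mem_right _ _ (Ideal.mul_mem_right _ _ (hp _))
  obtain ⟨κ, k', e1, hfix⟩ := h3 v (mul_ne_zero
    (mul_ne_zero (hp0 _) (Finset.prod_ne_zero_iff.2 fun l _ => hp0 l)) (nonZeroDivisors.coe_ne_zero b))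
  obtain ⟨x, hx1, hx2⟩ := r1_regular D hc (Ideal.span {v})
    ((Ideal.span_singleton_le_iff_mem _).2 hv0) c κ hfix
  obtain ⟨T, _, _, _, _, _, e0, he0, hX0⟩ := D.ext (X := svec D.big.m x) ⟨x, rfl⟩ hx1
  obtain ⟨A, _, _, _, θ, hinj, hloc⟩ := exists_dom (W := W) (T := T)
  let : Algebra k A := (θ.comp (algebraMap k T)).toAlgebra
  let θ' : T →ₐ[k] A := { θ with commutes' := fun _ => rfl }
  let j : W →ₐ[k] A := θ'.comp (IsScalarTower.toAlgHom k W T)
  let ι := IsScalarTower.toAlgHom k A (FractionRing A)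
  have hι : Function.Injective ι := IsFractionRing.injective A _
  let φ : F →ₐ[k] FractionRing A := IsFractionRing.liftAlgHom (g := ι.comp j) (hι.comp hinj)
  have hφ : ∀ w, φ (algebraMap W F w) = ι (j w) := fun w =>
    IsFractionRing.lift_algebraMap (g := (ι.comp j : W →+* FractionRing A)) (hι.comp hinj) w
  have hm : ∀ w ∈ maximalIdeal W, j w ∈ maximalIdeal A := fun w hw =>
    map_nonunit (θ.comp (algebraMap W T)) w hw
  obtain ⟨τ, hτ, m1, m2⟩ := r1_core D (φ.comp ρ) (fun o ho => hu o fun h => ho (by simp [h])) j ι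
    (fun w => (hρ (algebraMap W F w)).imp fun o ho => by rw [← hφ, ← ho]; rfl) x (he0.map θ')
    (hX0.map θ') c κ S hS p (fun l => Units.map (φ : F →* FractionRing A) (π l))
    (fun l => by rw [← hφ, hpπ]; rfl) (fun l => hm _ (hp l)) v (hm v hv0)
    (fun l => by
      obtain ⟨z, hz⟩ := Finset.dvd_prod_of_mem p (Finset.mem_univ l)
      refine ⟨j (p ⟨0, hq⟩ * z * b), hm _ (Ideal.mul_mem_right _ _ (Ideal.mul_mem_right _ _ (hp _))),
        ?_⟩
      rw [← map_mul, hv, hz]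
      congr 1
      ring)
    (fun m m' h h' => by
      obtain ⟨w, hw⟩ := hb (m, m')
        (Finset.mem_product.2 ⟨Fintype.mem_piFinset.2 h, Fintype.mem_piFinset.2 h'⟩)
      refine ⟨j (p ⟨0, hq⟩ * (∏ l, p l) * w), ?_⟩
      simp only [← map_zpow, ← map_prod, ← map_inv, ← map_mul]
      show ι _ = φ _ * _
      rw [← hφ, ← hφ, ← map_mul, hv, map_mul, map_mul _ _ (b : W), hw, Algebra.smul_def]
      congr 1
      ring) hfix hx2
  have e2 : (gm (φ.comp ρ) τ)⁻¹ * gm ι (gm j κ) *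
      (dgU fun i => ∏ l, Units.map (φ : F →* FractionRing A) (π l) ^ c i l) =
      gm φ ((gm ρ τ)⁻¹ * gm i0 κ * dgU fun i => ∏ l, π l ^ c i l) := by
    rw [map_mul, map_mul, map_inv]
    congr 1
    · congr 1
      exact Units.ext (Matrix.ext fun i i' => (hφ _).symm)
    · refine Units.ext ?_
      rw [gm_val, dgU, dgU, diagonal_map (map_zero φ)]
      simp only [← map_zpow, ← map_prod]
      rfl
  rw [e2] at m1 m2
  have inter : ∀ (f : F) (d : A), ι d = φ f → ∃ w, i0 w = f := fun f d hd =>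
    r1_inter (θ.comp (algebraMap W T)) (ι : A →+* FractionRing A) hι (φ : F →+* FractionRing A)
      hφ hd
  obtain ⟨g, hg⟩ := exists_gm_eq i0 hi ((gm ρ τ)⁻¹ * gm i0 κ * dgU fun i => ∏ l, π l ^ c i l)
    (fun i i' => (m1 i i').elim fun d hd => inter _ d hd)
    fun i i' => (m2 i i').elim fun d hd => inter _ d hd
  refine ⟨τ, hτ, g * k'⁻¹, ?_⟩
  rw [map_mul, map_inv, hg, ← e1]
  group

end HS

end Pool.Agent.GR
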