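import Pool.Agent.P.MP_c1f06d_ag.ValO
import Pool.Agent.P.MP_c1f06d_ag.Dom

open Matrix Polynomial IsLocalRing

universe u

namespace Pool.Agent.GR

/-- A polynomial over a local ring is primitive if its reduction is not zero. -/
def Prim {V : Type u} [CommRing V] [IsLocalRing V] {σ : Type} (a : MvPolynomial σ V) : Prop :=
  MvPolynomial.map (residue V) a ≠ 0

/-- The vectors `w` with `Θ w` divisible by `H`. -/
def NN {T : Type u} [CommRing T] {n : ℕ} (H : T) (Θ : Matrix (Fin n) (Fin n) T) :
    Submodule T (Fin n → T) where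
  carrier := {w | ∀ i, H ∣ (Θ *ᵥ w) i}
  zero_mem' := fun i => by simp
  add_mem' := fun {a b} ha hb i => by
    rw [mulVec_add]
    exact dvd_add (ha i) (hb i)
  smul_mem' := fun c w hw i => by
    rw [mulVec_smul]
    exact Dvd.dvd.mul_left (hw i) c

/-- `B` is a localisation of the polynomial ring over `V`, over the closed point of `V`. -/
structure PolyP {V B : Type u} [CommRing V] [CommRing B] {d : ℕ}
    (π : MvPolynomial (Fin d) V →+* B) : Prop where
  inj : Function.Injective π
  surj : ∀ r, ∃ a s, IsUnit (π s) ∧ r * π s = π a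
  loc : ∀ v, IsUnit (π (MvPolynomial.C v)) → IsUnit v

/-- The hypersurface `h` is in good position. -/
structure Good {V B : Type u} [CommRing V] [CommRing B] {m : ℕ}
    (π : MvPolynomial (Fin (m + 1)) V →+* B) (h : MvPolynomial (Fin (m + 1)) V) (N : ℕ) :
    Prop where
  pp : PolyP π
  deg : h.totalDegree ≤ N
  monic : (MvPolynomial.finSuccEquiv V m h).Monic
  nat : (MvPolynomial.finSuccEquiv V m h).natDegree = N
  nu : ¬ IsUnit (π h)
  nzd : ∀ f g, IsUnit (π f) → h ∣ f * g → h ∣ g

/-- The line through the tautological point with direction `q`. -/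
noncomputable def lam {V B : Type u} [CommRing V] [CommRing B] {d : ℕ}
    (π : MvPolynomial (Fin d) V →+* B) (q : Fin d → V) : MvPolynomial (Fin d) V →+* B[X] :=
  MvPolynomial.eval₂Hom (C.comp (π.comp MvPolynomial.C)) fun i =>
    C (π (MvPolynomial.X i)) + C (π (MvPolynomial.C (q i))) * X

/-- The new coordinates of Lindel's lemma. -/
noncomputable def newT {V : Type u} [CommRing V] {d : ℕ} (w : ℕ) (c : Fin d → Option (Fin d) → V)
    (i : Fin d) : (MvPolynomial (Fin d) V)[X] :=
  C (MvPolynomial.X i ^ w) + ∑ j, C (MvPolynomial.C (c i (some j)) * MvPolynomial.X j) +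
    C (MvPolynomial.C (c i none)) * X

/-- The projection given by the new coordinates. -/
noncomputable def tauT {V : Type u} [CommRing V] {d : ℕ} (w : ℕ)
    (c : Fin d → Option (Fin d) → V) : MvPolynomial (Fin d) V →+* (MvPolynomial (Fin d) V)[X] :=
  MvPolynomial.eval₂Hom (C.comp MvPolynomial.C) (newT w c)

/-- Derivatives in the `d + 1` variables. -/
noncomputable def pd {V : Type u} [CommRing V] {d : ℕ} (o : Option (Fin d))
    (f : (MvPolynomial (Fin d) V)[X]) : (MvPolynomial (Fin d) V)[X] :=
  MvPolynomial.optionEquivLeft V (Fin d)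
    (MvPolynomial.pderiv o ((MvPolynomial.optionEquivLeft V (Fin d)).symm f))

/-- The Jacobian matrix of the equation and the new coordinates. -/
noncomputable def jacT {V : Type u} [CommRing V] {d : ℕ} (G : (MvPolynomial (Fin d) V)[X]) (w : ℕ)
    (c : Fin d → Option (Fin d) → V) :
    Matrix (Option (Fin d)) (Option (Fin d)) (MvPolynomial (Fin d) V)[X] :=
  of fun o o' => pd o' (o.elim G (newT w c))

/-- The given point is the only geometric point of `a = G = 0` in its fibre. -/
def OnePt {V R : Type u} [CommRing V] [CommRing R] [IsLocalRing R] {d : ℕ}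
    (π : (MvPolynomial (Fin d) V)[X] →+* R) (G : (MvPolynomial (Fin d) V)[X])
    (a : MvPolynomial (Fin d) V) (τ : MvPolynomial (Fin d) V →+* (MvPolynomial (Fin d) V)[X]) :
    Prop :=
  ∀ (Ω : Type u) [Field Ω] (j : ResidueField R →+* Ω) (φ : (MvPolynomial (Fin d) V)[X] →+* Ω),
    φ (C a) = 0 → φ G = 0 → (∀ b, φ (τ b) = j (residue R (π (τ b)))) →
      ∀ F, φ F = j (residue R (π F))

end Pool.Agent.GR
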