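import Pool.Agent.P.MP_c1f06d_ag.r.TInv

open Matrix

universe u

namespace Pool.Agent.GR

variable {k : Type u} [Field k] {n r : ℕ} {H : HS k n} {A : Type u} [CommRing A] [Algebra k A]
  {A' : Type u} [CommRing A'] [Algebra k A'] {χ : Fin n → Fin r → ℤ}
  {e : (Fin r → ℤ) → Mat n A} {X : Mat n A}

/-! CENT. -/

namespace Cent

theorem pair_add (x y : Fin r → ℤ) (c : Fin r → A) : pair (x + y) c = pair x c + pair y c := by
  simp only [pair, Pi.add_apply, Int.cast_add, add_mul, Finset.sum_add_distrib]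

theorem pair_zero (c : Fin r → A) : pair (0 : Fin r → ℤ) c = 0 := by
  simp [pair]

theorem pair_mem (I : Ideal A) (x : Fin r → ℤ) {c : Fin r → A} (hc : ∀ j, c j ∈ I) :
    pair x c ∈ I :=
  I.sum_mem fun j _ => I.mul_mem_left _ (hc j)

theorem tt_zero (e : (Fin r → ℤ) → Mat n A) : tt χ e 0 = 0 :=
  Finset.sum_eq_zero fun x _ => by
    have h8 : pair x (0 : Fin r → A) = 0 := Finset.sum_eq_zero fun j _ => mul_zero _
    rw [h8, zero_smul]

theorem sq_zero {I : Ideal A} (hI : I * I = ⊥) {a b : A} (ha : a ∈ I) (hb : b ∈ I) : a * b = 0 := by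
  have := Ideal.mul_mem_mul ha hb
  rwa [hI, Ideal.mem_bot] at this

/-- the character `x ↦ 1 + ⟨x, c⟩` -/
def chr (I : Ideal A) (hI : I * I = ⊥) (c : Fin r → A) (hc : ∀ j, c j ∈ I) :
    (Fin r → ℤ) →+ Additive Aˣ where
  toFun x := Additive.ofMul ⟨1 + pair x c, 1 - pair x c,
    by
      have := sq_zero hI (pair_mem I x hc) (pair_mem I x hc)
      linear_combination (-1 : A) * this,
    by
      have := sq_zero hI (pair_mem I x hc) (pair_mem I x hc)
      linear_combination (-1 : A) * this⟩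
  map_zero' := by
    apply Additive.toMul.injective
    apply Units.ext
    show 1 + pair (0 : Fin r → ℤ) c = 1
    rw [pair_zero, add_zero]
  map_add' x y := by
    apply Additive.toMul.injective
    apply Units.ext
    show 1 + pair (x + y) c = (1 + pair x c) * (1 + pair y c)
    have := sq_zero hI (pair_mem I x hc) (pair_mem I y hc)
    rw [pair_add]
    linear_combination (-1 : A) * this

theorem units_surj (f : A →+* A') (hf : Function.Surjective f)
    (hn : IsNilpotent (RingHom.ker f)) : Function.Surjective (Units.map (f : A →* A')) := by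
  intro v
  obtain ⟨a, ha⟩ := hf (v : A')
  obtain ⟨b, hb⟩ := hf ((v⁻¹ : A'ˣ) : A')
  have h1 : a * b - 1 ∈ RingHom.ker f := by
    rw [RingHom.mem_ker, map_sub, map_mul, ha, hb, map_one, Units.mul_inv, sub_self]
  obtain ⟨N, hN⟩ := hn
  have h2 : IsNilpotent (a * b - 1) := ⟨N, by
    have := Ideal.pow_mem_pow h1 N
    rwa [hN, Ideal.zero_eq_bot, Ideal.mem_bot] at this⟩
  have h3 : IsUnit (a * b) := by
    have := h2.isUnit_add_one
    rwa [sub_add_cancel] at this
  obtain ⟨w, hw⟩ := isUnit_of_mul_isUnit_left h3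
  exact ⟨w, Units.ext (by simp [hw, ha])⟩

theorem lift_chr (f : A →+* A') (hf : Function.Surjective f) (hn : IsNilpotent (RingHom.ker f))
    (θ' : (Fin r → ℤ) →+ Additive A'ˣ) :
    ∃ θ : Multiplicative (Fin r → ℤ) →* Aˣ,
      ∀ x, f (θ (Multiplicative.ofAdd x) : A) = ((Additive.toMul (θ' x) : A'ˣ) : A') := by
  obtain ⟨φ, hφ⟩ := Module.projective_lifting_property
    (MonoidHom.toAdditive (Units.map (f : A →* A'))).toIntLinearMap θ'.toIntLinearMap
    (fun v => by
      obtain ⟨w, hw⟩ := units_surj f hf hn (Additive.toMul v)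
      exact ⟨Additive.ofMul w, congrArg Additive.ofMul hw⟩)
  refine ⟨AddMonoidHom.toMultiplicativeLeft φ.toAddMonoidHom, fun x => ?_⟩
  have h1 := congrArg (fun v : Additive A'ˣ => ((Additive.toMul v : A'ˣ) : A'))
    (LinearMap.congr_fun hφ x)
  exact h1

theorem comm_inv {g : GL (Fin n) A} {Y : Mat n A} (h : (g : Mat n A) * Y = Y * (g : Mat n A)) :
    ((g⁻¹ : GL (Fin n) A) : Mat n A) * Y = Y * ((g⁻¹ : GL (Fin n) A) : Mat n A) :=
  (Commute.units_inv_left (u := g) (a := Y) h).eq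

end Cent

namespace HS

theorem Tor.cent_step (h : H.Tor χ e) (hs : Submodule.span ℤ (Set.range χ) = ⊤)
    (hX : H.Reg χ e X) (I : Ideal A) (hI : IsNilpotent I) {g : GL (Fin n) A} (hg : g ∈ H.G A)
    (h1 : ∀ i j, ((g : Mat n A) - 1) i j ∈ I) (hc : (g : Mat n A) * X = X * (g : Mat n A)) :
    ∃ t ∈ H.G A, (∀ x ∈ XX χ, (t : Mat n A) * e x = e x * (t : Mat n A)) ∧
      (t : Mat n A) * X = X * (t : Mat n A) ∧
      ∀ i j, (((g * t⁻¹ : GL (Fin n) A) : Mat n A) - 1) i j ∈ I * I := by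
  classical
  let f : A →ₐ[k] A ⧸ (I * I) := Ideal.Quotient.mkₐ k (I * I)
  have hf : Function.Surjective f := Ideal.Quotient.mk_surjective
  have hker : RingHom.ker (f : A →+* A ⧸ (I * I)) = I * I := Ideal.mk_ker
  have hII : IsNilpotent (I * I) := (Commute.all I I).isNilpotent_mul_right hI
  let J : Ideal (A ⧸ (I * I)) := I.map (f : A →+* A ⧸ (I * I))
  have hJ : J * J = ⊥ := by
    rw [← Ideal.map_mul, Ideal.map_eq_bot_iff_le_ker, hker]
  let ξ : Mat n (A ⧸ (I * I)) := ((g : Mat n A) - 1).map f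
  have hξJ : ∀ i j, ξ i j ∈ J := fun i j => Ideal.mem_map_of_mem _ (h1 i j)
  have hg1 : ((gm f g : GL (Fin n) _) : Mat n _) = 1 + ξ := by
    show f.mapMatrix (g : Mat n A) = 1 + f.mapMatrix ((g : Mat n A) - 1)
    rw [map_sub, map_one, add_sub_cancel]
  have hξ : H.InLie ξ := (memM_one_add J hJ hξJ).1 ⟨gm f g, G_gm f hg, hg1⟩
  have hb : brk (X.map f) ξ = 0 := by
    show f.mapMatrix X * f.mapMatrix ((g : Mat n A) - 1) -
      f.mapMatrix ((g : Mat n A) - 1) * f.mapMatrix X = 0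
    rw [← map_mul, ← map_mul, ← map_sub, mul_sub, sub_mul, hc, mul_one, one_mul, sub_self, map_zero]
  have hT := h.map f
  obtain ⟨c, hcξ⟩ := hT.pi0_lie hξ
  rw [hT.cent_lie hs (hX.map f) hξ hb] at hcξ
  have hcJ : ∀ j, c j ∈ J := by
    let f' : (A ⧸ (I * I)) →ₐ[k] (A ⧸ (I * I)) ⧸ J := Ideal.Quotient.mkₐ k J
    have h2 : tt χ (fun x => ((e x).map f).map f') (fun j => f' (c j)) =
        tt χ (fun x => ((e x).map f).map f') 0 := by
      rw [← tt_map, ← hcξ]
      have h3 : tt χ (fun x => ((e x).map f).map f') 0 = 0 := Cent.tt_zero _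
      rw [h3]
      ext i j
      exact Ideal.Quotient.eq_zero_iff_mem.2 (hξJ i j)
    intro j
    exact Ideal.Quotient.eq_zero_iff_mem.1 (congrFun ((hT.map f').tt_inj hs h2) j)
  obtain ⟨θ, hθ⟩ := Cent.lift_chr (f : A →+* A ⧸ (I * I)) hf (by rw [hker]; exact hII)
    (Cent.chr J hJ c hcJ)
  obtain ⟨t, ht, htv, -⟩ := h.tm.value θ
  have hid := h.tm.1
  refine ⟨t, ht, fun x hx => ?_, ?_, ?_⟩
  · rw [htv, Finset.sum_mul, Finset.mul_sum]
    refine Finset.sum_congr rfl fun y hy => ?_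
    rw [smul_mul_assoc, mul_smul_comm]
    by_cases hxy : y = x
    · rw [hxy]
    · rw [hid.2.1 y hy x hx hxy, hid.2.1 x hx y hy (Ne.symm hxy)]
  · rw [htv, Finset.sum_mul, Finset.mul_sum]
    refine Finset.sum_congr rfl fun y hy => ?_
    rw [smul_mul_assoc, mul_smul_comm, hX.comm y hy]
  · have h4 : gm f t = gm f g := by
      apply Units.ext
      rw [hg1, hcξ, ← hT.tm.1.2.2]
      show f.mapMatrix (t : Mat n A) = _
      rw [htv, map_sum, tt, ← Finset.sum_add_distrib]
      refine Finset.sum_congr rfl fun y _ => ?_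
      ext i j
      have h5 : f (θ (Multiplicative.ofAdd y) : A) = 1 + pair y c := hθ y
      show f ((θ (Multiplicative.ofAdd y) : A) * e y i j) = f (e y i j) + pair y c * f (e y i j)
      rw [map_mul, h5, add_mul, one_mul]
    have h6 : gm f (g * t⁻¹) = 1 := by rw [map_mul, map_inv, h4, mul_inv_cancel]
    intro i j
    rw [← Ideal.Quotient.eq_zero_iff_mem]
    have h7 : f.mapMatrix (((g * t⁻¹ : GL (Fin n) A) : Mat n A) - 1) = 0 := by
      rw [map_sub, map_one, sub_eq_zero]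
      exact congrArg Units.val h6
    exact congrFun (congrFun h7 i) j

theorem Tor.cent (h : H.Tor χ e) (hs : Submodule.span ℤ (Set.range χ) = ⊤) (hX : H.Reg χ e X)
    (J : Ideal A) (hJ : IsNilpotent J) {g : GL (Fin n) A} (hg : g ∈ H.G A)
    (h1 : ∀ i j, ((g : Mat n A) - 1) i j ∈ J) (hc : (g : Mat n A) * X = X * (g : Mat n A)) :
    ∀ x ∈ XX χ, (g : Mat n A) * e x = e x * (g : Mat n A) := by
  have key : ∀ m : ℕ, ∃ t ∈ H.G A, (∀ x ∈ XX χ, (t : Mat n A) * e x = e x * (t : Mat n A)) ∧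
      (t : Mat n A) * X = X * (t : Mat n A) ∧
      ∀ i j, (((g * t⁻¹ : GL (Fin n) A) : Mat n A) - 1) i j ∈ J ^ (m + 1) := by
    intro m
    induction m with
    | zero =>
      refine ⟨1, (H.G A).one_mem, fun x _ => by simp, by simp, fun i j => ?_⟩
      rw [inv_one, mul_one, zero_add, pow_one]
      exact h1 i j
    | succ m ih =>
      obtain ⟨t, ht, hte, htX, hgt⟩ := ih
      have hc' : ((g * t⁻¹ : GL (Fin n) A) : Mat n A) * X =
          X * ((g * t⁻¹ : GL (Fin n) A) : Mat n A) := by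
        rw [Units.val_mul, mul_assoc, Cent.comm_inv htX, ← mul_assoc, hc, mul_assoc]
      obtain ⟨s, hsG, hse, hsX, hgs⟩ := h.cent_step hs hX (J ^ (m + 1)) (IsNilpotent.pow_succ m hJ)
        ((H.G A).mul_mem hg ((H.G A).inv_mem ht)) hgt hc'
      refine ⟨s * t, (H.G A).mul_mem hsG ht, fun x hx => ?_, ?_, fun i j => ?_⟩
      · rw [Units.val_mul, mul_assoc, hte x hx, ← mul_assoc, hse x hx, mul_assoc]
      · rw [Units.val_mul, mul_assoc, htX, ← mul_assoc, hsX, mul_assoc]
      · rw [_root_.mul_inv_rev, ← mul_assoc]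
        have h2 : J ^ (m + 1) * J ^ (m + 1) ≤ J ^ (m + 1 + 1) := by
          rw [← pow_add]
          exact Ideal.pow_le_pow_right (by omega)
        exact h2 (hgs i j)
  obtain ⟨N, hN⟩ := hJ
  obtain ⟨t, -, hte, -, hgt⟩ := key N
  have h0 : J ^ (N + 1) = ⊥ := by rw [pow_succ, hN, zero_mul, Ideal.zero_eq_bot]
  have h3 : g * t⁻¹ = 1 := by
    apply Units.ext
    rw [Units.val_one, ← sub_eq_zero]
    ext i j
    have := hgt i j
    rwa [h0, Ideal.mem_bot] at this
  rw [mul_inv_eq_one.1 h3]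
  exact hte

end HS

end Pool.Agent.GR
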