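import Pool.Agent.P.MP_c1f06d_ag.r.Defs

open Matrix

universe u

namespace Pool.Agent.GR

section general

variable {n r : ℕ} {A : Type u} [CommRing A]

/-- The commutator. -/
def brk (X ξ : Mat n A) : Mat n A := X * ξ - ξ * X

/-- Conjugation. -/
def cj (g : GL (Fin n) A) (X : Mat n A) : Mat n A :=
  (g : Mat n A) * X * ((g⁻¹ : GL (Fin n) A) : Mat n A)

open Classical in
/-- The additive maps that send the weights into `S`. -/
noncomputable def OR (χ : Fin n → Fin r → ℤ) (S : Finset ℤ) : Finset ((Fin r → ℤ) →+ ℤ) :=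
  if h : {a : (Fin r → ℤ) →+ ℤ | ∀ x ∈ XX χ, a x ∈ S}.Finite then h.toFinset else ∅

/-- The combination, with coefficients `c`, of the polynomials `φ` evaluated at the entries of the
eigen-idempotents of the cocharacter `a`. -/
noncomputable def nc {k : Type u} [CommRing k] [Algebra k A] (χ : Fin n → Fin r → ℤ)
    (e : (Fin r → ℤ) → Mat n A) {σ : Type} [Fintype σ]
    (φ : σ → MvPolynomial (ℤ × Fin n × Fin n) k) (c : σ → A) (a : (Fin r → ℤ) →+ ℤ) : A :=
  ∑ s, c s * MvPolynomial.aeval (fun p : ℤ × Fin n × Fin n => lamE χ e a p.1 p.2.1 p.2.2) (φ s)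

/-- The product of the values of the cocharacters in `OR χ S` at the units `w`. -/
noncomputable def nt (χ : Fin n → Fin r → ℤ) (e : (Fin r → ℤ) → Mat n A) (S : Finset ℤ)
    (w : ((Fin r → ℤ) →+ ℤ) → Aˣ) : Mat n A :=
  ∑ x ∈ XX χ, ((∏ a ∈ OR χ S, w a ^ a x : Aˣ) : A) • e x

/-- `π` permutes the weights. -/
def PermX (χ : Fin n → Fin r → ℤ) (π : Equiv.Perm (Fin r → ℤ)) : Prop :=
  ∀ x, π x ∈ XX χ ↔ x ∈ XX χ

end general

namespace HS

variable {k : Type u} [Field k] {n : ℕ} (H : HS k n) {A : Type u} [CommRing A] [Algebra k A]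
  {r : ℕ}

/-- `ad X` preserves the Lie algebra. -/
def Nrm (X : Mat n A) : Prop := ∀ l, H.InLie (brk X (H.bas A l))

/-- `X` is a regular element that commutes with the torus `e`. -/
structure Reg (χ : Fin n → Fin r → ℤ) (e : (Fin r → ℤ) → Mat n A) (X : Mat n A) : Prop where
  nrm : H.Nrm X
  comm : ∀ x ∈ XX χ, X * e x = e x * X
  unit : IsUnit (H.Dlt r X)

/-- The universal point of `G` over `W`. -/
noncomputable def gU (W : Type u) [Field W] [Algebra k W] : GL (Fin n) (H.OG W) :=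
  GeneralLinearGroup.mk'' ((mvPolynomialX (Fin n) (Fin n) W).map
      ((Ideal.Quotient.mk (H.van W)).comp (algebraMap _ (OGL W n))))
    (by
      have h := IsLocalization.Away.algebraMap_isUnit (S := OGL W n)
        (mvPolynomialX (Fin n) (Fin n) W).det
      have h2 := h.map (Ideal.Quotient.mk (H.van W))
      rw [← RingHom.comp_apply, RingHom.map_det] at h2
      exact h2)

/-- `m(A) = A C_1 + ... + A C_q + [g(A), Y]`. -/
def Big.Span {H : HS k n} (M : H.Big) {q : ℕ} (C : Fin q → Mat n A) (Y : Mat n A) : Prop :=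
  ∀ Z, InS M.m Z → ∃ (y : Fin q → A) (η : Mat n A), H.InLie η ∧ Z = ∑ i, y i • C i + brk η Y

/-- The space of pairs `(g, Y)`, `g` in `G`, `Y` in the span of the `C i`, `s(Y)` invertible, with
its flat map `(g, Y) ↦ g Y g⁻¹` to `m`. -/
structure CJ {H : HS k n} (M : H.Big) (W : Type u) [Field W] [Algebra k W] {q : ℕ}
    (C : Fin q → Mat n W) (s : MvPolynomial (Fin q) W) where
  T : Type u
  [cr : CommRing T]
  [a1 : Algebra k T]
  [a2 : Algebra W T]
  [tw : IsScalarTower k W T]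
  ft : Algebra.FiniteType W T
  g : GL (Fin n) T
  mem : g ∈ H.G T
  y : Fin q → T
  unit : IsUnit (MvPolynomial.aeval y s)
  univ : ∀ (A : Type u) [CommRing A] [Algebra k A] [Algebra W A] [IsScalarTower k W A],
    ∀ g' ∈ H.G A, ∀ y' : Fin q → A, IsUnit (MvPolynomial.aeval y' s) →
      ∃ θ : T →ₐ[W] A, gm θ g = g' ∧ ∀ i, θ (y i) = y' i
  flat : (MvPolynomial.aeval (R := W)
    (scrd M.m (cj g (∑ i, y i • (C i).map (algebraMap W T))))).toRingHom.Flat
  dom : (H.van W).IsPrime → s ≠ 0 → IsDomain T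

attribute [instance] CJ.cr CJ.a1 CJ.a2 CJ.tw

end HS

end Pool.Agent.GR
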