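import Pool.Agent.P.MP_c1f06d_ag.r.TDefs
import Pool.Agent.P.MP_c1f06d_ag.r.Inf

open Matrix

universe u

namespace Pool.Agent.GR

variable {k : Type u} [Field k] {n r : ℕ} {H : HS k n} {A : Type u} [CommRing A] [Algebra k A]
  {A' : Type u} [CommRing A'] [Algebra k A'] {χ : Fin n → Fin r → ℤ}
  {e : (Fin r → ℤ) → Mat n A} {X : Mat n A}

/-! Coordinates on a space of matrices, and the infinitesimal tools used in sections 3 and 5. -/

theorem mapM_mul (f : A →ₐ[k] A') (Y Z : Mat n A) : (Y * Z).map f = Y.map f * Z.map f :=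
  Matrix.map_mul (f := (f : A →+* A'))

theorem brk_map (f : A →ₐ[k] A') (Y Z : Mat n A) : (brk Y Z).map f = brk (Y.map f) (Z.map f) := by
  rw [brk, brk, Matrix.map_sub _ (map_sub f), mapM_mul, mapM_mul]

theorem cj_mul (g : GL (Fin n) A) (Y Z : Mat n A) : cj g (Y * Z) = cj g Y * cj g Z := by
  simp only [cj, mul_assoc, Units.inv_mul_cancel_left]

theorem cj_add (g : GL (Fin n) A) (Y Z : Mat n A) : cj g (Y + Z) = cj g Y + cj g Z := by
  simp only [cj, mul_add, add_mul]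

theorem cj_sub' (g : GL (Fin n) A) (Y Z : Mat n A) : cj g (Y - Z) = cj g Y - cj g Z := by
  simp only [cj, mul_sub, sub_mul]

theorem cj_smul (g : GL (Fin n) A) (c : A) (Y : Mat n A) : cj g (c • Y) = c • cj g Y := by
  simp only [cj, Matrix.mul_smul, Matrix.smul_mul]

theorem cj_sum {ι : Type*} (g : GL (Fin n) A) (s : Finset ι) (Y : ι → Mat n A) :
    cj g (∑ i ∈ s, Y i) = ∑ i ∈ s, cj g (Y i) := by
  simp only [cj, Finset.mul_sum, Finset.sum_mul]

theorem cj_one (g : GL (Fin n) A) : cj g 1 = 1 := by rw [cj, mul_one, Units.mul_inv]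

theorem cj_zero (g : GL (Fin n) A) : cj g 0 = 0 := by rw [cj, mul_zero, zero_mul]

theorem cj_brk (g : GL (Fin n) A) (Y Z : Mat n A) : cj g (brk Y Z) = brk (cj g Y) (cj g Z) := by
  rw [brk, brk, cj_sub', cj_mul, cj_mul]

theorem cj_cj (g g' : GL (Fin n) A) (Y : Mat n A) : cj g (cj g' Y) = cj (g * g') Y := by
  simp only [cj, Units.val_mul, _root_.mul_inv_rev, mul_assoc]

theorem one_cj (Y : Mat n A) : cj 1 Y = Y := by simp [cj]

theorem cj_cj_inv (g : GL (Fin n) A) (Y : Mat n A) : cj g (cj g⁻¹ Y) = Y := by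
  rw [cj_cj, mul_inv_cancel, one_cj]

theorem cj_inv_cj (g : GL (Fin n) A) (Y : Mat n A) : cj g⁻¹ (cj g Y) = Y := by
  rw [cj_cj, inv_mul_cancel, one_cj]

theorem cj_map (f : A →ₐ[k] A') (g : GL (Fin n) A) (Y : Mat n A) :
    (cj g Y).map f = cj (gm f g) (Y.map f) := by
  rw [cj, mapM_mul, mapM_mul]
  rfl

section sub

variable (V : Submodule k (Mat n k))

theorem range_svec0 : LinearMap.range (svec0 V) = V := by
  rw [svec0, LinearMap.range_comp, LinearEquiv.range, Submodule.map_top, Submodule.range_subtype]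

theorem inS_iff_dual (Y : Mat n A) : InS V Y ↔ ∀ φ : A →ₗ[k] k, Y.map φ ∈ V := by
  refine ⟨fun ⟨x, hx⟩ φ => ?_, fun h => ⟨scrd V Y, gvec_gcrd _ _ (scrd0_svec0 V) Y fun φ => ?_⟩⟩
  · have e : (svec V x).map φ = svec0 V fun l => φ (x l) :=
      (gvec_map _ φ x).trans (gvec_base _ _)
    rw [← hx, e]
    exact (range_svec0 V).le (LinearMap.mem_range_self _ _)
  · rw [range_svec0]
    exact h φ

theorem scrd_svec (x : Fin (sN V) → A) : scrd V (svec V x) = x :=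
  gcrd_gvec _ _ (scrd0_svec0 V) x

theorem scrd_add (Y Z : Mat n A) : scrd V (Y + Z) = scrd V Y + scrd V Z :=
  map_add (gcrd (scrd0 V) A) Y Z

theorem scrd_smul (a : A) (Y : Mat n A) : scrd V (a • Y) = a • scrd V Y :=
  map_smul (gcrd (scrd0 V) A) a Y

theorem scrd_map (f : A →ₐ[k] A') (Y : Mat n A) (l : Fin (sN V)) :
    scrd V (Y.map f) l = f (scrd V Y l) :=
  gcrd_map _ f.toLinearMap Y l

theorem scrd_mem (J : Ideal A) {Y : Mat n A} (hY : ∀ i j, Y i j ∈ J) (l : Fin (sN V)) :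
    scrd V Y l ∈ J :=
  gcrd_mem _ (J.restrictScalars k) Y hY l

theorem sbas_map (f : A →ₐ[k] A') (l : Fin (sN V)) : (sbas V A l).map f = sbas V A' l :=
  Matrix.ext fun _ _ => f.commutes _

theorem svec_map (f : A →ₐ[k] A') (x : Fin (sN V) → A) :
    (svec V x).map f = svec V fun l => f (x l) :=
  gvec_map _ f.toLinearMap x

theorem sbas_mem (l : Fin (sN V)) : ∃ Y ∈ V, sbas V A l = Y.map (algebraMap k A) :=
  ⟨_, (range_svec0 V).le (LinearMap.mem_range_self _ _), rfl⟩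

theorem inS_of_mem {Y : Mat n k} (hY : Y ∈ V) : InS V (Y.map (algebraMap k A)) := by
  refine (inS_iff_dual V _).2 fun φ => ?_
  have e : (Y.map (algebraMap k A)).map φ = φ 1 • Y := by
    ext i j
    rw [map_apply, map_apply, Algebra.algebraMap_eq_smul_one, map_smul, Matrix.smul_apply,
      smul_eq_mul, smul_eq_mul, mul_comm]
  rw [e]
  exact V.smul_mem _ hY

variable {V}

theorem InS.svec_scrd {Y : Mat n A} (hY : InS V Y) : svec V (scrd V Y) = Y := by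
  obtain ⟨x, rfl⟩ := hY
  rw [scrd_svec]

theorem InS.map {Y : Mat n A} (hY : InS V Y) (f : A →ₐ[k] A') : InS V (Y.map f) := by
  obtain ⟨x, rfl⟩ := hY
  exact ⟨_, (svec_map V f x).symm⟩

theorem InS.of_inj {Y : Mat n A} (f : A →ₐ[k] A') (hf : Function.Injective f)
    (hY : InS V (Y.map f)) : InS V Y := by
  refine ⟨scrd V Y, Matrix.map_injective hf ?_⟩
  show (svec V (scrd V Y)).map f = Y.map f
  rw [svec_map, ← hY.svec_scrd]
  exact congrArg _ (funext fun l => (scrd_map V f Y l).symm)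

theorem InS.mono {V' : Submodule k (Mat n k)} (h : V ≤ V') {Y : Mat n A} (hY : InS V Y) :
    InS V' Y :=
  (inS_iff_dual V' _).2 fun φ => h ((inS_iff_dual V _).1 hY φ)

variable (V) in
/-- The span over `A`. -/
noncomputable def sp (A : Type u) [CommRing A] [Algebra k A] : Submodule A (Mat n A) :=
  Submodule.span A (Set.range (sbas V A))

theorem mem_sp {Y : Mat n A} : Y ∈ sp V A ↔ InS V Y := by
  rw [sp, Submodule.mem_span_range_iff_exists_fun]
  rfl

end sub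

namespace HS

theorem vec_eq (x : Fin H.N → A) : H.vec x = svec H.lie x := rfl

theorem crd_eq (ξ : Mat n A) : H.crd ξ = scrd H.lie ξ := rfl

theorem bas_eq (l : Fin H.N) : H.bas A l = sbas H.lie A l := rfl

theorem G_gm (f : A →ₐ[k] A') {g : GL (Fin n) A} (hg : g ∈ H.G A) : gm f g ∈ H.G A' :=
  H.G_map f hg

theorem G_of_gm (f : A →ₐ[k] A') (hf : Function.Injective f) {g : GL (Fin n) A}
    (hg : gm f g ∈ H.G A') : g ∈ H.G A :=
  H.G_of_inj f hf hg

theorem MemM.mapM {M : Mat n A} (h : H.MemM M) (f : A →ₐ[k] A') : H.MemM (M.map f) :=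
  h.map f

/-- BASE -/
theorem inLie_iff_inS {ξ : Mat n A} : H.InLie ξ ↔ InS H.lie ξ :=
  H.inLie_iff ξ

theorem inLie_iff_sp {ξ : Mat n A} : H.InLie ξ ↔ ξ ∈ sp H.lie A := inLie_iff_inS.trans mem_sp.symm

theorem memM_one_add (J : Ideal A) (hJ : J * J = ⊥) {ξ : Mat n A} (hξ : ∀ i j, ξ i j ∈ J) :
    H.MemM (1 + ξ) ↔ H.InLie ξ :=
  H.memM_one_add_sq ξ fun i j p q => mul_eq_zero_of_sq hJ (hξ i j) (hξ p q)

/-- AD -/
theorem inLie_cj {g : GL (Fin n) A} (hg : g ∈ H.G A) {ξ : Mat n A} (hξ : H.InLie ξ) :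
    H.InLie (cj g ξ) :=
  hξ.conj hg

/-- GSM -/
theorem G_lift (f : A →ₐ[k] A') (hf : Function.Surjective f)
    (hJ : IsNilpotent (RingHom.ker f)) {g' : GL (Fin n) A'} (hg : g' ∈ H.G A') :
    ∃ g ∈ H.G A, gm f g = g' :=
  H.gsm f hf hJ hg

theorem opM_vec (φ : Mat n A →ₗ[A] Mat n A) (hφ : ∀ l, H.InLie (φ (H.bas A l)))
    (x : Fin H.N → A) : H.vec (H.opM φ *ᵥ x) = φ (H.vec x) := by
  rw [← H.crd_lin φ.isLinear]
  exact (H.inLie_of_bas φ.isLinear hφ (H.inLie_vec x)).vec_crd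

theorem Dlt_mapM (f : A →ₐ[k] A') (j : ℕ) (X : Mat n A) :
    H.Dlt j (X.map f) = f (H.Dlt j X) := by
  rw [Dlt, Dlt, ← H.charpoly_opM_map f (φ := fun ξ => X * ξ - ξ * X)
    (φ' := fun ξ => X.map f * ξ - ξ * X.map f) fun ξ _ => brk_map f X ξ, Polynomial.coeff_map]
  rfl

theorem Nrm.map (h : H.Nrm X) (f : A →ₐ[k] A') : H.Nrm (X.map f) := by
  intro l
  rw [← H.bas_map f, ← brk_map]
  exact (h l).map f

theorem Nrm.inLie (h : H.Nrm X) {ξ : Mat n A} (hξ : H.InLie ξ) : H.InLie (brk X ξ) :=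
  H.inLie_of_bas (isLin_ad X) h hξ

theorem Nrm.cj (h : H.Nrm X) {g : GL (Fin n) A} (hg : g ∈ H.G A) : H.Nrm (cj g X) := by
  intro l
  have := (h.inLie ((H.inLie_bas l).conj' hg)).conj hg
  have e := cj_brk g X (GR.cj g⁻¹ (H.bas A l))
  rw [cj_cj_inv] at e
  rw [← e]
  exact this

theorem Dlt_cj (h : H.Nrm X) {g : GL (Fin n) A} (hg : g ∈ H.G A) (j : ℕ) :
    H.Dlt j (cj g X) = H.Dlt j X := by
  rw [Dlt, Dlt, H.charpoly_opM_conj hg (isLin_ad _) (φ := fun ξ => X * ξ - ξ * X)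
    (fun ξ hξ => h.inLie hξ) fun ξ _ => (cj_brk g X ξ).symm]

theorem Reg.map (h : H.Reg χ e X) (f : A →ₐ[k] A') :
    H.Reg χ (fun x => (e x).map f) (X.map f) := by
  refine ⟨h.nrm.map f, fun x hx => ?_, ?_⟩
  · rw [← mapM_mul, ← mapM_mul, h.comm x hx]
  · rw [Dlt_mapM]
    exact h.unit.map f

theorem Reg.cj (h : H.Reg χ e X) {g : GL (Fin n) A} (hg : g ∈ H.G A) :
    H.Reg χ (fun x => cj g (e x)) (cj g X) := by
  refine ⟨h.nrm.cj hg, fun x hx => ?_, ?_⟩
  · rw [← cj_mul, ← cj_mul, h.comm x hx]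
  · rw [Dlt_cj h.nrm hg]
    exact h.unit

namespace Big

variable (M : H.Big)

theorem inS_of_inLie {ξ : Mat n A} (h : H.InLie ξ) : InS M.m ξ :=
  (inLie_iff_inS.1 h).mono M.le

theorem cj_sub {g : GL (Fin n) A} (hg : g ∈ H.G A) (hX : InS M.m X) : H.InLie (cj g X - X) := by
  obtain ⟨x, rfl⟩ := hX
  have e : GR.cj g (svec M.m x) - svec M.m x =
      ∑ l, x l • (GR.cj g (sbas M.m A l) - sbas M.m A l) := by
    simp only [svec, cj_sum, cj_smul, smul_sub, Finset.sum_sub_distrib]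
  rw [e]
  refine InLie.sum fun l _ => InLie.smul _ ?_
  obtain ⟨Y, hY, eY⟩ := sbas_mem (A := A) M.m l
  rw [eY]
  exact M.ad A g hg Y hY

theorem inS_cj {g : GL (Fin n) A} (hg : g ∈ H.G A) (hX : InS M.m X) : InS M.m (cj g X) := by
  have := (sp M.m A).add_mem (mem_sp.2 (M.inS_of_inLie (M.cj_sub hg hX))) (mem_sp.2 hX)
  rw [sub_add_cancel] at this
  exact mem_sp.1 this

theorem brk_inLie {Y : Mat n A} (hX : InS M.m X) (hY : InS M.m Y) : H.InLie (brk X Y) := by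
  obtain ⟨x, rfl⟩ := hX
  obtain ⟨y, rfl⟩ := hY
  have e : brk (svec M.m x) (svec M.m y) =
      ∑ l, ∑ m, (x l * y m) • brk (sbas M.m A l) (sbas M.m A m) := by
    simp only [svec, brk, Finset.sum_mul, Finset.mul_sum, Matrix.smul_mul, Matrix.mul_smul,
      smul_sub, Finset.sum_sub_distrib, smul_smul]
    rw [Finset.sum_comm]
    simp only [mul_comm]
  rw [e]
  refine InLie.sum fun l _ => InLie.sum fun m _ => InLie.smul _ ?_
  obtain ⟨Y, hY, eY⟩ := sbas_mem (A := A) M.m l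
  obtain ⟨Z, hZ, eZ⟩ := sbas_mem (A := A) M.m m
  have := (H.mem_lie.1 (M.br Y hY Z hZ)).map (Algebra.ofId k A)
  rw [eY, eZ]
  exact brk_map (Algebra.ofId k A) Y Z ▸ this

theorem nrm (hX : InS M.m X) : H.Nrm X :=
  fun l => M.brk_inLie hX (M.inS_of_inLie (H.inLie_bas l))

theorem Cc.reg {M : H.Big} (h : M.Cc χ e X) (hu : IsUnit (H.Dlt r X)) : H.Reg χ e X :=
  ⟨M.nrm h.1, h.2, hu⟩

theorem aeval_DP (j : ℕ) (x : Fin (sN M.m) → A) :
    MvPolynomial.aeval x (M.DP j) = H.Dlt j (svec M.m x) := by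
  rw [DP, ← Dlt_mapM, svec_map]
  simp only [MvPolynomial.aeval_X]

end Big

end HS

end Pool.Agent.GR
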