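import Pool.Agent.P.MP_c1f06d_ag.r.TorB

open Matrix

universe u

namespace Pool.Agent.GR

variable {k : Type u} [Field k] {n r : ℕ} {H : HS k n} {A : Type u} [CommRing A] [Algebra k A]
  {A' : Type u} [CommRing A'] [Algebra k A'] {χ : Fin n → Fin r → ℤ}
  {e : (Fin r → ℤ) → Mat n A} {X : Mat n A}

/-! INV and SPAN. -/

namespace TInv

/-- The commutator with `X` as a linear map. -/
def brkL (X : Mat n A) : Mat n A →ₗ[A] Mat n A where
  toFun := brk X
  map_add' ξ η := by simp only [brk, mul_add, add_mul]; abel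
  map_smul' a ξ := by simp only [brk, Matrix.mul_smul, Matrix.smul_mul, smul_sub, RingHom.id_apply]

/-- The projector `pi0` as a linear map. -/
def pi0L {ι : Type} (S : Finset ι) (E : ι → Mat n A) : Mat n A →ₗ[A] Mat n A where
  toFun := pi0 S E
  map_add' ξ η := by simp only [pi0, mul_add, add_mul, Finset.sum_add_distrib]
  map_smul' a ξ := by
    simp only [pi0, Matrix.mul_smul, Matrix.smul_mul, Finset.smul_sum, RingHom.id_apply]

/-- The map `c ↦ tt χ e c` as a linear map. -/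
def ttL (χ : Fin n → Fin r → ℤ) (e : (Fin r → ℤ) → Mat n A) : (Fin r → A) →ₗ[A] Mat n A where
  toFun := tt χ e
  map_add' c c' := by
    simp only [tt, pair, Pi.add_apply, mul_add, Finset.sum_add_distrib, add_smul]
  map_smul' a c := by
    simp only [tt, pair, Pi.smul_apply, smul_eq_mul, RingHom.id_apply, Finset.smul_sum, smul_smul,
      Finset.mul_sum]
    refine Finset.sum_congr rfl fun x _ => ?_
    congr 1
    exact Finset.sum_congr rfl fun j _ => by ring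

/-- Coordinates as a linear map. -/
noncomputable def crdL (H : HS k n) (A : Type u) [CommRing A] [Algebra k A] :
    Mat n A →ₗ[A] (Fin H.N → A) where
  toFun := H.crd
  map_add' := scrd_add H.lie
  map_smul' := scrd_smul H.lie

theorem crd_vec' (x : Fin H.N → A) : H.crd (H.vec x) = x := scrd_svec H.lie x

theorem crd_zero' : H.crd (0 : Mat n A) = 0 := (crdL H A).map_zero

theorem vec_crd' {ξ : Mat n A} (hξ : H.InLie ξ) : H.vec (H.crd ξ) = ξ :=
  (HS.inLie_iff_inS.1 hξ).svec_scrd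

theorem inLie_vec' (x : Fin H.N → A) : H.InLie (H.vec x) := HS.inLie_iff_inS.2 ⟨x, rfl⟩

theorem eq_zero_of_vec {x : Fin H.N → A} (hx : H.vec x = 0) : x = 0 := by
  rw [← crd_vec' (H := H) x, hx, crd_zero']

theorem lie_add {ξ η : Mat n A} (hξ : H.InLie ξ) (hη : H.InLie η) : H.InLie (ξ + η) :=
  HS.inLie_iff_sp.2 (Submodule.add_mem _ (HS.inLie_iff_sp.1 hξ) (HS.inLie_iff_sp.1 hη))

theorem lie_sub {ξ η : Mat n A} (hξ : H.InLie ξ) (hη : H.InLie η) : H.InLie (ξ - η) :=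
  HS.inLie_iff_sp.2 (Submodule.sub_mem _ (HS.inLie_iff_sp.1 hξ) (HS.inLie_iff_sp.1 hη))

theorem lie_neg {ξ : Mat n A} (hξ : H.InLie ξ) : H.InLie (-ξ) :=
  HS.inLie_iff_sp.2 (Submodule.neg_mem _ (HS.inLie_iff_sp.1 hξ))

theorem lie_bas (l : Fin H.N) : H.InLie (H.bas A l) :=
  HS.inLie_iff_sp.2 (Submodule.subset_span ⟨l, rfl⟩)

theorem pi0_inLie (h : H.Tor χ e) {ξ : Mat n A} (hξ : H.InLie ξ) :
    H.InLie (pi0 (XX χ) e ξ) := by
  obtain ⟨c, hc⟩ := h.pi0_lie hξ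
  rw [hc]
  exact h.tt_inLie c

theorem pi0_pi0 {ι : Type} {S : Finset ι} {E : ι → Mat n A} (h : Idem S E) (ξ : Mat n A) :
    pi0 S E (pi0 S E ξ) = pi0 S E ξ := h.pi0_eq (h.pi0_comm ξ)

theorem brk_pi0 (h : H.Tor χ e) (hX : ∀ x ∈ XX χ, X * e x = e x * X) {ξ : Mat n A}
    (hξ : H.InLie ξ) : brk X (pi0 (XX χ) e ξ) = 0 := by
  obtain ⟨c, hc⟩ := h.pi0_lie hξ
  rw [hc]
  exact brk_tt hX c

theorem pi0_of_L (h : H.Tor χ e) (hX : ∀ x ∈ XX χ, X * e x = e x * X) {ξ : Mat n A}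
    (hξ : H.InLie ξ) :
    pi0 (XX χ) e (brk X ξ + pi0 (XX χ) e ξ) = pi0 (XX χ) e ξ := by
  have h1 := (pi0L (XX χ) e).map_add (brk X ξ) (pi0 (XX χ) e ξ)
  change pi0 (XX χ) e (brk X ξ + pi0 (XX χ) e ξ) =
    pi0 (XX χ) e (brk X ξ) + pi0 (XX χ) e (pi0 (XX χ) e ξ) at h1
  rw [h1, pi0_brk hX, brk_pi0 h hX hξ, pi0_pi0 h.tm.1, zero_add]

theorem pi0_zero' {ι : Type} (S : Finset ι) (E : ι → Mat n A) : pi0 S E (0 : Mat n A) = 0 :=
  (pi0L S E).map_zero

theorem pi0_sub' {ι : Type} (S : Finset ι) (E : ι → Mat n A) (ξ η : Mat n A) :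
    pi0 S E (ξ - η) = pi0 S E ξ - pi0 S E η := (pi0L S E).map_sub ξ η

theorem brk_sub' (X ξ η : Mat n A) : brk X (ξ - η) = brk X ξ - brk X η := (brkL X).map_sub ξ η

theorem brk_map' (f : A →ₐ[k] A') (X ξ : Mat n A) :
    (brk X ξ).map f = brk (X.map f) (ξ.map f) := by
  have h1 : ∀ M : Mat n A, M.map f = (f : A →+* A').mapMatrix M := fun _ => rfl
  simp only [brk, h1, map_sub, map_mul]

/-- The operator `ad X + pi0`. -/
def LL (χ : Fin n → Fin r → ℤ) (e : (Fin r → ℤ) → Mat n A) (X : Mat n A) :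
    Mat n A →ₗ[A] Mat n A := brkL X + pi0L (XX χ) e

theorem LL_apply (ξ : Mat n A) : LL χ e X ξ = brk X ξ + pi0 (XX χ) e ξ := rfl

theorem LL_bas (h : H.Tor χ e) (hX : H.Nrm X) (l : Fin H.N) :
    H.InLie (LL χ e X (H.bas A l)) :=
  lie_add (hX l) (pi0_inLie h (lie_bas l))

theorem opM_LL_map (f : A →ₐ[k] A') :
    (H.opM (LL χ e X)).map f = H.opM (LL χ (fun x => (e x).map f) (X.map f)) := by
  ext l j
  have hb : (H.bas A j).map f = H.bas A' j := sbas_map H.lie f j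
  have h1 : (LL χ e X (H.bas A j)).map f =
      LL χ (fun x => (e x).map f) (X.map f) (H.bas A' j) := by
    rw [LL_apply, LL_apply, ← hb, ← brk_map', ← pi0_map]
    ext i i'
    simp
  simp only [HS.opM, map_apply, of_apply]
  rw [← h1]
  exact (scrd_map H.lie f _ l).symm

theorem iter_vec (hX : H.Nrm X) (i : ℕ) (x : Fin H.N → A) :
    H.vec (((H.opM (brkL X)).mulVecLin ^ i) x) = (brk X)^[i] (H.vec x) := by
  induction i with
  | zero => rfl
  | succ i ih =>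
    rw [pow_succ', Module.End.mul_apply, Function.iterate_succ_apply', ← ih]
    exact HS.opM_vec (brkL X) hX _

end TInv

open TInv

namespace HS

/-- the generalised kernel of `ad X` on the Lie algebra has dimension at most `j` -/
theorem finrank_genker_le {F : Type u} [Field F] [Algebra k F] {X : Mat n F} (hX : H.Nrm X) {j : ℕ}
    (hj : H.Dlt j X ≠ 0) (c : Submodule F (Mat n F))
    (hc : ∀ ξ ∈ c, H.InLie ξ ∧ ∃ i, (brk X)^[i] ξ = 0) : Module.finrank F c ≤ j := by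
  set f : Module.End F (Fin H.N → F) := (H.opM (brkL X)).mulVecLin with hf
  have hmem : ∀ ξ : c, (crdL H F ∘ₗ c.subtype) ξ ∈ f.maxGenEigenspace 0 := by
    intro ξ
    obtain ⟨h1, i, hi⟩ := hc ξ ξ.2
    rw [Module.End.mem_maxGenEigenspace]
    refine ⟨i, ?_⟩
    rw [zero_smul, sub_zero]
    apply eq_zero_of_vec (H := H)
    rw [hf, iter_vec hX]
    change (brk X)^[i] (H.vec (H.crd (ξ : Mat n F))) = 0
    rw [vec_crd' h1, hi]
  have hinj : Function.Injective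
      (LinearMap.codRestrict (f.maxGenEigenspace 0) (crdL H F ∘ₗ c.subtype) hmem) := by
    intro ξ η hξη
    have h1 : H.crd (ξ : Mat n F) = H.crd (η : Mat n F) := congrArg Subtype.val hξη
    apply Subtype.ext
    rw [← vec_crd' (hc ξ ξ.2).1, h1, vec_crd' (hc η η.2).1]
  refine (LinearMap.finrank_le_finrank_of_injective hinj).trans ?_
  rw [LinearMap.finrank_maxGenEigenspace_zero_eq, hf, Matrix.charpoly_mulVecLin]
  exact Polynomial.natTrailingDegree_le_of_ne_zero hj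

/-- the Lie algebra of the torus -/
theorem Tor.exists_t {F : Type u} [Field F] [Algebra k F] {e : (Fin r → ℤ) → Mat n F}
    (h : H.Tor χ e) (hs : Submodule.span ℤ (Set.range χ) = ⊤) :
    ∃ t : Submodule F (Mat n F), Module.finrank F t = r ∧ ∀ ξ, ξ ∈ t ↔ ∃ c, ξ = tt χ e c := by
  refine ⟨LinearMap.range (ttL χ e), ?_, fun ξ => ?_⟩
  · rw [LinearMap.finrank_range_of_inj (f := ttL χ e) fun c c' hc => h.tt_inj hs hc]
    simp
  · exact ⟨fun ⟨c, hc⟩ => ⟨c, hc.symm⟩, fun ⟨c, hc⟩ => ⟨c, hc.symm⟩⟩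

theorem Tor.genker {F : Type u} [Field F] [Algebra k F] {e : (Fin r → ℤ) → Mat n F} {X : Mat n F}
    (h : H.Tor χ e) (hs : Submodule.span ℤ (Set.range χ) = ⊤) (hX : H.Reg χ e X) {ξ : Mat n F}
    (hξ : H.InLie ξ) {i : ℕ} (hi : (brk X)^[i] ξ = 0) : ∃ c, ξ = tt χ e c := by
  obtain ⟨t, ht, hmem⟩ := h.exists_t hs
  have hK : ∀ η, η ∈ sp H.lie F ⊓ Module.End.maxGenEigenspace (brkL X) 0 ↔
      H.InLie η ∧ ∃ i, (brk X)^[i] η = 0 := by
    intro η
    rw [Submodule.mem_inf, ← inLie_iff_sp, Module.End.mem_maxGenEigenspace]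
    refine and_congr Iff.rfl (exists_congr fun i => ?_)
    rw [zero_smul, sub_zero, Module.End.pow_apply]
    rfl
  have hle : t ≤ sp H.lie F ⊓ Module.End.maxGenEigenspace (brkL X) 0 := by
    intro η hη
    obtain ⟨c, rfl⟩ := (hmem η).1 hη
    exact (hK _).2 ⟨h.tt_inLie c, 1, brk_tt hX.comm c⟩
  have hfin := finrank_genker_le hX.nrm hX.unit.ne_zero _ fun η hη => (hK η).1 hη
  have heq := Submodule.eq_of_le_of_finrank_le hle (hfin.trans ht.ge)
  exact (hmem ξ).1 (heq ▸ (hK ξ).2 ⟨hξ, i, hi⟩)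

theorem Tor.inv_inj_field {F : Type u} [Field F] [Algebra k F] {e : (Fin r → ℤ) → Mat n F}
    {X : Mat n F} (h : H.Tor χ e) (hs : Submodule.span ℤ (Set.range χ) = ⊤) (hX : H.Reg χ e X)
    {ξ : Mat n F} (hξ : H.InLie ξ) (h0 : brk X ξ + pi0 (XX χ) e ξ = 0) : ξ = 0 := by
  have h1 : pi0 (XX χ) e ξ = 0 := by
    rw [← pi0_of_L h hX.comm hξ, h0, pi0_zero']
  rw [h1, add_zero] at h0
  obtain ⟨c, rfl⟩ := h.genker hs hX hξ (i := 1) h0
  rw [← h1, h.tm.1.pi0_eq (h.tm.1.tt_comm c)]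

/-- INV -/
theorem Tor.isUnit_det_LL (h : H.Tor χ e) (hs : Submodule.span ℤ (Set.range χ) = ⊤)
    (hX : H.Reg χ e X) : IsUnit (H.opM (LL χ e X)).det := by
  by_contra hu
  obtain ⟨m, hm, hd⟩ := exists_max_ideal_of_mem_nonunits hu
  let _ : Field (A ⧸ m) := Ideal.Quotient.field m
  have h1 : ((H.opM (LL χ e X)).map (Ideal.Quotient.mkₐ k m)).det = 0 := by
    have h2 := (Ideal.Quotient.mk m).map_det (H.opM (LL χ e X))
    rw [Ideal.Quotient.eq_zero_iff_mem.2 hd] at h2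
    exact h2.symm
  rw [opM_LL_map] at h1
  obtain ⟨x, hx, hx0⟩ := Matrix.exists_mulVec_eq_zero_iff.2 h1
  have h' := h.map (Ideal.Quotient.mkₐ k m)
  have hX' := hX.map (Ideal.Quotient.mkₐ k m)
  have h3 := opM_vec _ (LL_bas h' hX'.nrm) x
  rw [hx0] at h3
  have h4 : H.vec (0 : Fin H.N → A ⧸ m) = 0 := by simp [vec]
  rw [h4] at h3
  exact hx (eq_zero_of_vec (h'.inv_inj_field hs hX' (inLie_vec' x) h3.symm))

theorem Tor.inv_inj (h : H.Tor χ e) (hs : Submodule.span ℤ (Set.range χ) = ⊤) (hX : H.Reg χ e X)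
    {ξ : Mat n A} (hξ : H.InLie ξ) (h0 : brk X ξ + pi0 (XX χ) e ξ = 0) : ξ = 0 := by
  have hu := h.isUnit_det_LL hs hX
  have h3 := opM_vec _ (LL_bas h hX.nrm) (H.crd ξ)
  rw [vec_crd' hξ, LL_apply, h0] at h3
  have h4 := eq_zero_of_vec h3
  have h5 : H.crd ξ = 0 := by
    have h6 := congrArg (fun v => (H.opM (LL χ e X))⁻¹ *ᵥ v) h4
    simpa only [mulVec_mulVec, nonsing_inv_mul _ hu, one_mulVec, mulVec_zero] using h6
  rw [← vec_crd' hξ, h5]
  simp [vec]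

theorem Tor.inv_surj (h : H.Tor χ e) (hs : Submodule.span ℤ (Set.range χ) = ⊤) (hX : H.Reg χ e X)
    {ζ : Mat n A} (hζ : H.InLie ζ) : ∃ η, H.InLie η ∧ brk X η + pi0 (XX χ) e η = ζ := by
  have hu := h.isUnit_det_LL hs hX
  refine ⟨H.vec ((H.opM (LL χ e X))⁻¹ *ᵥ H.crd ζ), inLie_vec' _, ?_⟩
  rw [← LL_apply, ← opM_vec _ (LL_bas h hX.nrm), mulVec_mulVec, mul_nonsing_inv _ hu, one_mulVec,
    vec_crd' hζ]

/-- an element of the Lie algebra that commutes with `X` is in the Lie algebra of the torus -/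
theorem Tor.cent_lie (h : H.Tor χ e) (hs : Submodule.span ℤ (Set.range χ) = ⊤) (hX : H.Reg χ e X)
    {ξ : Mat n A} (hξ : H.InLie ξ) (h0 : brk X ξ = 0) : pi0 (XX χ) e ξ = ξ := by
  have h1 : ξ - pi0 (XX χ) e ξ = 0 := by
    refine h.inv_inj hs hX (lie_sub hξ (pi0_inLie h hξ)) ?_
    rw [brk_sub', pi0_sub', h0, brk_pi0 h hX.comm hξ, pi0_pi0 h.tm.1, sub_self, sub_self, add_zero]
  exact (sub_eq_zero.1 h1).symm

/-- SPAN -/
theorem Tor.span_big (h : H.Tor χ e) (hs : Submodule.span ℤ (Set.range χ) = ⊤) (hX : H.Reg χ e X)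
    (M : H.Big) {Z : Mat n A} (hZ : InS M.m Z) :
    ∃ η, H.InLie η ∧ Z = pi0 (XX χ) e Z + brk η X := by
  obtain ⟨η, hη, h1⟩ := h.inv_surj hs hX (h.tm.pi0_big M hZ).1
  have h2 : pi0 (XX χ) e η = 0 := by
    rw [← pi0_of_L h hX.comm hη, h1, pi0_sub', pi0_pi0 h.tm.1, sub_self]
  rw [h2, add_zero] at h1
  refine ⟨-η, lie_neg hη, ?_⟩
  have h3 : brk (-η) X = brk X η := by
    simp only [brk, neg_mul, mul_neg]
    abel
  rw [h3, h1]
  abel

end HS

end Pool.Agent.GR
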