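import Pool.Agent.P.MP_c1f06d_ag.r.TCent
import Pool.Agent.P.MP_c1f06d_ag.r.TZT

open Matrix

universe u

namespace Pool.Agent.GR

variable {k : Type u} [Field k] {n r : ℕ} {H : HS k n} {A : Type u} [CommRing A] [Algebra k A]
  {A' : Type u} [CommRing A'] [Algebra k A'] {χ : Fin n → Fin r → ℤ}
  {e : (Fin r → ℤ) → Mat n A} {X : Mat n A}

/-! RIG and UNIQ. -/

namespace Rig

open Polynomial in
/-- a unit congruent to one modulo a nilpotent whose powers indexed by `S` are independent -/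
theorem exists_test (A : Type u) [CommRing A] (S : Finset ℤ) :
    ∃ (q : A[X]) (w : (AdjoinRoot q)ˣ), IsNilpotent ((w : AdjoinRoot q) - 1) ∧
      ∀ d : ℤ → A, ∑ m ∈ S, ((w ^ m : (AdjoinRoot q)ˣ) : AdjoinRoot q) *
        algebraMap A (AdjoinRoot q) (d m) = 0 → ∀ m ∈ S, d m = 0 := by
  classical
  let K : ℕ := S.sup Int.natAbs
  have hK : ∀ m ∈ S, m.natAbs ≤ K := fun m hm => Finset.le_sup (f := Int.natAbs) hm
  let q : A[X] := (Polynomial.X - C 1) ^ (2 * K + 1)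
  have hq : q.Monic := (monic_X_sub_C 1).pow _
  have hn : IsNilpotent (AdjoinRoot.root q - 1) := ⟨2 * K + 1, by
    have h1 : AdjoinRoot.mk q q = 0 := AdjoinRoot.mk_self
    have h2 : AdjoinRoot.mk q ((Polynomial.X - C 1) ^ (2 * K + 1)) =
        (AdjoinRoot.root q - 1) ^ (2 * K + 1) := by
      rw [map_pow, map_sub, AdjoinRoot.mk_X, C_1, map_one]
    exact h2.symm.trans h1⟩
  have hu : IsUnit (AdjoinRoot.root q) := by
    have := hn.isUnit_add_one
    rwa [sub_add_cancel] at this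
  obtain ⟨w, hw⟩ := hu
  refine ⟨q, w, hw ▸ hn, fun d hd m hm => ?_⟩
  rcases subsingleton_or_nontrivial A with hA | hA
  · exact Subsingleton.elim _ _
  let p : A[X] := ∑ m ∈ S, monomial (m + K).toNat (d m)
  have hp : AdjoinRoot.mk q p = 0 := by
    have h3 := congrArg (fun z => ((w ^ (K : ℤ) : (AdjoinRoot q)ˣ) : AdjoinRoot q) * z) hd
    simp only [mul_zero, Finset.mul_sum] at h3
    rw [← h3, map_sum]
    refine Finset.sum_congr rfl fun a ha => ?_
    have h4 : (((a + K).toNat : ℕ) : ℤ) = K + a := by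
      have := hK a ha
      omega
    rw [← mul_assoc, ← Units.val_mul, ← _root_.zpow_add, ← h4, zpow_natCast, Units.val_pow_eq_pow_val,
      hw, ← C_mul_X_pow_eq_monomial, map_mul, map_pow, AdjoinRoot.mk_X, AdjoinRoot.mk_C, mul_comm]
    rfl
  have hdeg : p.natDegree < q.natDegree := by
    have h5 : q.natDegree = 2 * K + 1 := by
      rw [(monic_X_sub_C (1 : A)).natDegree_pow, natDegree_X_sub_C, mul_one]
    have h6 : p.natDegree ≤ 2 * K := by
      refine natDegree_sum_le_of_forall_le _ _ fun a ha => (natDegree_monomial_le _).trans ?_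
      have := hK a ha
      omega
    omega
  have hp0 : p = 0 := by
    by_contra h0
    exact hq.not_dvd_of_natDegree_lt h0 hdeg (AdjoinRoot.mk_eq_zero.1 hp)
  have h7 : p.coeff (m + K).toNat = d m := by
    rw [finsetSum_coeff, Finset.sum_eq_single m]
    · rw [coeff_monomial, if_pos rfl]
    · intro a ha ham
      rw [coeff_monomial, if_neg]
      have := hK a ha
      have := hK m hm
      omega
    · exact fun h => absurd hm h
  rw [← h7, hp0, coeff_zero]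

theorem zpow_sub_one_mem (w : Aˣ) (m : ℤ) :
    ((w ^ m : Aˣ) : A) - 1 ∈ Ideal.span {(w : A) - 1} := by
  rw [← Ideal.Quotient.eq_zero_iff_mem, map_sub, map_one, sub_eq_zero]
  have h1 : Units.map (Ideal.Quotient.mk (Ideal.span {(w : A) - 1})).toMonoidHom w = 1 := by
    apply Units.ext
    show Ideal.Quotient.mk _ (w : A) = Ideal.Quotient.mk _ 1
    exact Ideal.Quotient.eq.2 (Ideal.mem_span_singleton_self _)
  have h2 : Units.map (Ideal.Quotient.mk (Ideal.span {(w : A) - 1})).toMonoidHom (w ^ m) = 1 := by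
    rw [map_zpow, h1, _root_.one_zpow]
  exact congrArg Units.val h2

theorem lamE_inj {μ : (Fin r → ℤ) → ℤ} (hμ : Set.InjOn μ (XX χ)) {x : Fin r → ℤ} (hx : x ∈ XX χ) :
    lamE χ e μ (μ x) = e x := by
  rw [lamE, Finset.sum_eq_single x]
  · intro y hy hyx
    rw [Finset.mem_filter] at hy
    exact absurd (hμ hy.1 hx hy.2) hyx
  · exact fun h => (h (Finset.mem_filter.2 ⟨hx, rfl⟩)).elim

end Rig

namespace HS

theorem Tor.rig_comm (h : H.Tor χ e) (hs : Submodule.span ℤ (Set.range χ) = ⊤) (hX : H.Reg χ e X)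
    {S : Finset ℤ} {E : ℤ → Mat n A} (hE : H.Tm S E) (hc : ∀ m ∈ S, X * E m = E m * X) :
    ∀ x ∈ XX χ, ∀ m ∈ S, e x * E m = E m * e x := by
  obtain ⟨q, w, hw, hind⟩ := Rig.exists_test A S
  let f : A →ₐ[k] AdjoinRoot q := IsScalarTower.toAlgHom k A (AdjoinRoot q)
  obtain ⟨g, hg, hgv, -⟩ := (hE.mapM f).value (zpowersHom (AdjoinRoot q)ˣ w)
  have hgv' : (g : Mat n (AdjoinRoot q)) =
      ∑ m ∈ S, ((w ^ m : (AdjoinRoot q)ˣ) : AdjoinRoot q) • f.mapMatrix (E m) := hgv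
  have hJ : IsNilpotent (Ideal.span {(w : AdjoinRoot q) - 1}) := by
    obtain ⟨N, hN⟩ := hw
    exact ⟨N, by rw [Ideal.span_singleton_pow, hN, Ideal.zero_eq_bot, Ideal.span_singleton_eq_bot]⟩
  have h1 : ∀ i j, ((g : Mat n (AdjoinRoot q)) - 1) i j ∈ Ideal.span {(w : AdjoinRoot q) - 1} := by
    intro i j
    have h2 : (1 : Mat n (AdjoinRoot q)) = ∑ m ∈ S, f.mapMatrix (E m) := by
      rw [← map_sum, hE.1.2.2, map_one]
    rw [hgv', h2, ← Finset.sum_sub_distrib, Matrix.sum_apply]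
    refine Ideal.sum_mem _ fun m _ => ?_
    have h3 : (((w ^ m : (AdjoinRoot q)ˣ) : AdjoinRoot q) • f.mapMatrix (E m) -
        f.mapMatrix (E m)) i j =
        (((w ^ m : (AdjoinRoot q)ˣ) : AdjoinRoot q) - 1) * f.mapMatrix (E m) i j := by
      rw [Matrix.sub_apply, Matrix.smul_apply, smul_eq_mul, sub_mul, one_mul]
    rw [h3]
    exact Ideal.mul_mem_right _ _ (Rig.zpow_sub_one_mem w m)
  have hgX : (g : Mat n (AdjoinRoot q)) * f.mapMatrix X = f.mapMatrix X * (g : Mat n _) := by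
    rw [hgv', Finset.sum_mul, Finset.mul_sum]
    refine Finset.sum_congr rfl fun m hm => ?_
    rw [smul_mul_assoc, mul_smul_comm, ← map_mul, ← map_mul, hc m hm]
  have hce := (h.map f).cent hs (hX.map f) _ hJ hg h1 hgX
  intro x hx m hm
  have h4 : (g : Mat n (AdjoinRoot q)) * f.mapMatrix (e x) = f.mapMatrix (e x) * (g : Mat n _) :=
    hce x hx
  have h5 : ∑ m ∈ S, ((w ^ m : (AdjoinRoot q)ˣ) : AdjoinRoot q) •
      f.mapMatrix (E m * e x - e x * E m) = 0 := by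
    rw [← sub_eq_zero, hgv', Finset.sum_mul, Finset.mul_sum, ← Finset.sum_sub_distrib] at h4
    rw [← h4]
    refine Finset.sum_congr rfl fun a _ => ?_
    rw [smul_mul_assoc, mul_smul_comm, ← map_mul, ← map_mul, map_sub, smul_sub]
  rw [eq_comm, ← sub_eq_zero]
  ext i j
  refine hind (fun a => (E a * e x - e x * E a) i j) ?_ m hm
  have h6 := congrFun (congrFun h5 i) j
  rw [Matrix.sum_apply] at h6
  exact h6

theorem Tor.rig [IsLocalRing A] (h : H.Tor χ e) (hs : Submodule.span ℤ (Set.range χ) = ⊤)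
    (hX : H.Reg χ e X) {S : Finset ℤ} {E : ℤ → Mat n A} (hE : H.Tm S E)
    (hc : ∀ m ∈ S, X * E m = E m * X) :
    ∃ a : (Fin r → ℤ) →+ ℤ, (∀ x ∈ XX χ, a x ∈ S) ∧ ∀ m ∈ S, E m = lamE χ e a m :=
  h.zt hs hE (h.rig_comm hs hX hE hc)

theorem Tor.uniq [IsLocalRing A] (h : H.Tor χ e) (hs : Submodule.span ℤ (Set.range χ) = ⊤)
    (hX : H.Reg χ e X) {e' : (Fin r → ℤ) → Mat n A} (h' : H.Tor χ e')
    (hc : ∀ x ∈ XX χ, X * e' x = e' x * X) :
    ∃ π : Equiv.Perm (Fin r → ℤ), PermX χ π ∧ ∀ x ∈ XX χ, e' x = e (π x) := by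
  classical
  obtain ⟨μ, hμ⟩ := exists_add_injOn (XX χ)
  have hS : ∀ x ∈ XX χ, μ x ∈ (XX χ).image μ := fun x hx => Finset.mem_image_of_mem _ hx
  obtain ⟨a, ha, hE⟩ := h.rig hs hX (h'.lam μ _ hS) (fun m _ => by
    rw [lamE, Finset.mul_sum, Finset.sum_mul]
    exact Finset.sum_congr rfl fun x hx => hc x (Finset.mem_filter.1 hx).1)
  have hE' : ∀ x ∈ XX χ, e' x = lamE χ e a (μ x) := fun x hx => by
    rw [← hE _ (hS x hx), Rig.lamE_inj hμ hx]
  have hex : ∀ x ∈ XX χ, ∃ y ∈ XX χ, a y = μ x := by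
    intro x hx
    by_contra hne
    refine h'.ne_zero hx ?_
    rw [hE' x hx, lamE]
    refine Finset.sum_eq_zero fun y hy => ?_
    rw [Finset.mem_filter] at hy
    exact absurd ⟨y, hy.1, hy.2⟩ hne
  choose σ hσ hσa using hex
  let τ : {x // x ∈ XX χ} → {x // x ∈ XX χ} := fun x => ⟨σ x.1 x.2, hσ x.1 x.2⟩
  have hτ : Function.Injective τ := by
    intro x y hxy
    have h1 : σ x.1 x.2 = σ y.1 y.2 := congrArg Subtype.val hxy
    exact Subtype.ext (hμ x.2 y.2 (by rw [← hσa x.1 x.2, ← hσa y.1 y.2, h1]))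
  have hτb : Function.Bijective τ := Finite.injective_iff_bijective.1 hτ
  have hai : Set.InjOn a (XX χ) := by
    intro y hy z hz hyz
    obtain ⟨y', hy'⟩ := hτb.2 ⟨y, hy⟩
    obtain ⟨z', hz'⟩ := hτb.2 ⟨z, hz⟩
    have h1 : σ y'.1 y'.2 = y := congrArg Subtype.val hy'
    have h2 : σ z'.1 z'.2 = z := congrArg Subtype.val hz'
    have h3 : y' = z' :=
      Subtype.ext (hμ y'.2 z'.2 (by rw [← hσa y'.1 y'.2, ← hσa z'.1 z'.2, h1, h2, hyz]))
    rw [← h1, ← h2, h3]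
  refine ⟨Equiv.Perm.ofSubtype (Equiv.ofBijective τ hτb), fun x =>
    Equiv.Perm.ofSubtype_apply_mem_iff_mem (p := fun x => x ∈ XX χ) _ x, fun x hx => ?_⟩
  rw [Equiv.Perm.ofSubtype_apply_of_mem (p := fun x => x ∈ XX χ) _ hx, hE' x hx, ← hσa x hx]
  exact Rig.lamE_inj hai (hσ x hx)

/-- a permutation between two tori preserves additivity -/
theorem Tor.perm_add [IsLocalRing A] (h : H.Tor χ e) (hs : Submodule.span ℤ (Set.range χ) = ⊤)
    {e' : (Fin r → ℤ) → Mat n A} (h' : H.Tor χ e') {π : Equiv.Perm (Fin r → ℤ)} (hπ : PermX χ π)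
    (he : ∀ x ∈ XX χ, e' x = e (π x)) (a' : (Fin r → ℤ) →+ ℤ) :
    ∃ a : (Fin r → ℤ) →+ ℤ, ∀ x ∈ XX χ, a (π x) = a' x := by
  classical
  have hS : ∀ x ∈ XX χ, a' x ∈ (XX χ).image a' := fun x hx => Finset.mem_image_of_mem _ hx
  obtain ⟨a, -, hE⟩ := h.zt hs (h'.lam a' _ hS) (fun y hy m _ => by
    have hy' : π.symm y ∈ XX χ := (hπ _).1 (by rwa [Equiv.apply_symm_apply])
    have h1 : e y = e' (π.symm y) := by rw [he _ hy', Equiv.apply_symm_apply]
    have h2 := h'.tm.1.lamE_mul a' m hy'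
    rw [h1, h2.1, h2.2])
  refine ⟨a, fun x hx => ?_⟩
  by_contra hne
  refine h'.ne_zero hx ?_
  have h1 := (h'.tm.1.lamE_mul a' (a' x) hx).1
  have h2 := (h.tm.1.lamE_mul a (a' x) ((hπ x).2 hx)).1
  rw [if_pos rfl, hE _ (hS x hx)] at h1
  rw [if_neg hne, ← he x hx] at h2
  exact h1.symm.trans h2

end HS

end Pool.Agent.GR
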