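import Mathlib

universe u

open scoped TensorProduct

namespace Pool.Agent.GR

/-! AMAL + NS, and two facts on flat algebras. -/

namespace UMeet

/-- a nontrivial algebra of finite type over an algebraically closed field has a point -/
theorem exists_point (Ω S : Type u) [Field Ω] [IsAlgClosed Ω] [CommRing S] [Nontrivial S]
    [Algebra Ω S] [Algebra.FiniteType Ω S] : Nonempty (S →ₐ[Ω] Ω) := by
  obtain ⟨m, hm⟩ := Ideal.exists_maximal S
  let _ : Field (S ⧸ m) := Ideal.Quotient.field m
  have : Module.Finite Ω (S ⧸ m) := finite_of_finite_type_of_isJacobsonRing Ω (S ⧸ m)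
  have : Algebra.IsAlgebraic Ω (S ⧸ m) := Algebra.IsAlgebraic.of_finite Ω (S ⧸ m)
  exact ⟨(IsAlgClosed.lift (R := Ω) (S := S ⧸ m) (M := Ω)).comp (Ideal.Quotient.mkₐ Ω m)⟩

/-- two fields over a field have a common nontrivial overring -/
theorem amal_field {K K₁ K₂ : Type u} [Field K] [Field K₁] [Field K₂] (g₁ : K →+* K₁)
    (g₂ : K →+* K₂) :
    ∃ (L : Type u) (_ : CommRing L) (_ : Nontrivial L) (a₁ : K₁ →+* L) (a₂ : K₂ →+* L),
      a₁.comp g₁ = a₂.comp g₂ := by
  let _ : Algebra K K₁ := g₁.toAlgebra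
  let _ : Algebra K K₂ := g₂.toAlgebra
  refine ⟨K₁ ⊗[K] K₂, inferInstance, inferInstance,
    (Algebra.TensorProduct.includeLeft (R := K) (S := K) (A := K₁) (B := K₂)).toRingHom,
    (Algebra.TensorProduct.includeRight (R := K) (A := K₁) (B := K₂)).toRingHom, ?_⟩
  ext x
  have h1 := (Algebra.TensorProduct.includeLeft (R := K) (S := K) (A := K₁) (B := K₂)).commutes x
  have h2 := (Algebra.TensorProduct.includeRight (R := K) (A := K₁) (B := K₂)).commutes x
  exact h1.trans h2.symm

/-- two domains over a common subring have a common nontrivial overring -/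
theorem amal {D D₁ D₂ : Type u} [CommRing D] [CommRing D₁] [CommRing D₂] [IsDomain D₁]
    [IsDomain D₂] (f₁ : D →+* D₁) (f₂ : D →+* D₂) (h₁ : Function.Injective f₁)
    (h₂ : Function.Injective f₂) :
    ∃ (L : Type u) (_ : CommRing L) (_ : Nontrivial L) (a₁ : D₁ →+* L) (a₂ : D₂ →+* L),
      a₁.comp f₁ = a₂.comp f₂ := by
  have : IsDomain D := h₁.isDomain f₁
  have i₁ : Function.Injective ((algebraMap D₁ (FractionRing D₁)).comp f₁) :=
    (IsFractionRing.injective D₁ (FractionRing D₁)).comp h₁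
  have i₂ : Function.Injective ((algebraMap D₂ (FractionRing D₂)).comp f₂) :=
    (IsFractionRing.injective D₂ (FractionRing D₂)).comp h₂
  obtain ⟨L, _, _, a₁, a₂, h⟩ := amal_field
    (IsFractionRing.lift (K := FractionRing D) i₁) (IsFractionRing.lift (K := FractionRing D) i₂)
  refine ⟨L, inferInstance, inferInstance, a₁.comp (algebraMap _ _), a₂.comp (algebraMap _ _), ?_⟩
  ext x
  have := congrArg (fun φ : FractionRing D →+* L => φ (algebraMap D _ x)) h
  simpa [IsFractionRing.lift_algebraMap] using this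

end UMeet

/-- two dominant maps from integral varieties have a common value -/
theorem meet {Ω D D₁ D₂ : Type u} [Field Ω] [IsAlgClosed Ω] [CommRing D] [CommRing D₁]
    [CommRing D₂] [IsDomain D₁] [IsDomain D₂] [Algebra Ω D] [Algebra Ω D₁] [Algebra Ω D₂]
    [Algebra.FiniteType Ω D₁] [Algebra.FiniteType Ω D₂] (f₁ : D →ₐ[Ω] D₁) (f₂ : D →ₐ[Ω] D₂)
    (h₁ : Function.Injective f₁) (h₂ : Function.Injective f₂) :
    ∃ (p₁ : D₁ →ₐ[Ω] Ω) (p₂ : D₂ →ₐ[Ω] Ω), p₁.comp f₁ = p₂.comp f₂ := by
  obtain ⟨L, _, _, a₁, a₂, h⟩ := UMeet.amal f₁.toRingHom f₂.toRingHom h₁ h₂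
  have hx : ∀ x, a₁ (f₁ x) = a₂ (f₂ x) := fun x => congrArg (fun φ : D →+* L => φ x) h
  let _ : Algebra Ω L := (a₁.comp (algebraMap Ω D₁)).toAlgebra
  let b₁ : D₁ →ₐ[Ω] L := { a₁ with commutes' := fun _ => rfl }
  let b₂ : D₂ →ₐ[Ω] L :=
    { a₂ with
      commutes' := fun c => by
        have := hx (algebraMap Ω D c)
        rw [AlgHom.commutes, AlgHom.commutes] at this
        exact this.symm }
  let S : Subalgebra Ω L := b₁.range ⊔ b₂.range
  have hS : S.FG := by
    refine Subalgebra.FG.sup ?_ ?_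
    · rw [← Algebra.map_top]
      exact Subalgebra.FG.map _ Algebra.FiniteType.out
    · rw [← Algebra.map_top]
      exact Subalgebra.FG.map _ Algebra.FiniteType.out
  have : Algebra.FiniteType Ω S := (Subalgebra.fg_iff_finiteType S).mp hS
  obtain ⟨p⟩ := UMeet.exists_point Ω S
  refine ⟨p.comp (b₁.codRestrict S fun x => (le_sup_left : b₁.range ≤ S) ⟨x, rfl⟩),
    p.comp (b₂.codRestrict S fun x => (le_sup_right : b₂.range ≤ S) ⟨x, rfl⟩), ?_⟩
  ext x
  exact congrArg p (Subtype.ext (hx x))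

theorem inj_of_flat {D T : Type u} [CommRing D] [IsDomain D] [CommRing T] [Nontrivial T]
    (f : D →+* T) (hf : f.Flat) : Function.Injective f := by
  let _ : Algebra D T := f.toAlgebra
  have : Module.Flat D T := hf
  rw [injective_iff_map_eq_zero]
  intro d hd
  by_contra h0
  have hr : IsSMulRegular T d :=
    Module.Flat.isSMulRegular_of_nonZeroDivisors (mem_nonZeroDivisors_of_ne_zero h0)
  have h1 : d • (1 : T) = d • (0 : T) := by
    rw [smul_zero, Algebra.smul_def, mul_one]
    exact hd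
  exact one_ne_zero (hr h1)

/-- flatness from the lifting property -/
theorem flat_of_lift {W D T : Type u} [Field W] [CommRing D] [CommRing T] [Algebra W D]
    [Algebra W T] [Algebra.FiniteType W D] [Algebra.FiniteType W T] (f : D →ₐ[W] T)
    (h : ∀ (B : Type u) [CommRing B] [Algebra W B] (J : Ideal B), J * J = ⊥ →
      ∀ (φ : D →ₐ[W] B) (ψ : T →ₐ[W] B ⧸ J), ψ.comp f = (Ideal.Quotient.mkₐ W J).comp φ →
        ∃ ψ' : T →ₐ[W] B, ψ'.comp f = φ ∧ (Ideal.Quotient.mkₐ W J).comp ψ' = ψ) :
    f.toRingHom.Flat ∧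
    ∀ (B : Type u) [CommRing B] [Algebra W B] (J : Ideal B), IsNilpotent J →
      ∀ (φ : D →ₐ[W] B) (ψ : T →ₐ[W] B ⧸ J), ψ.comp f = (Ideal.Quotient.mkₐ W J).comp φ →
        ∃ ψ' : T →ₐ[W] B, ψ'.comp f = φ ∧ (Ideal.Quotient.mkₐ W J).comp ψ' = ψ := by
  let _ : Algebra D T := f.toRingHom.toAlgebra
  have : IsScalarTower W D T := IsScalarTower.of_algebraMap_eq fun c => (f.commutes c).symm
  have hs : Algebra.FormallySmooth D T := by
    refine Algebra.FormallySmooth.of_comp_surjective ?_
    intro B _ _ I hI g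
    let _ : Algebra W B := ((algebraMap D B).comp (algebraMap W D)).toAlgebra
    have : IsScalarTower W D B := IsScalarTower.of_algebraMap_eq fun _ => rfl
    obtain ⟨ψ', h1, h2⟩ := h B I (by rw [← pow_two, hI]) (IsScalarTower.toAlgHom W D B)
      (g.restrictScalars W) (by
        ext x
        exact g.commutes x)
    refine ⟨{ ψ'.toRingHom with commutes' := fun x => ?_ }, ?_⟩
    · exact congrArg (fun φ : D →ₐ[W] B => φ x) h1
    · ext x
      exact congrArg (fun φ : T →ₐ[W] B ⧸ I => φ x) h2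
  constructor
  · have : IsNoetherianRing D := Algebra.FiniteType.isNoetherianRing W D
    have h1 : Algebra.FiniteType D T := Algebra.FiniteType.of_restrictScalars_finiteType W D T
    have h2 : Algebra.FinitePresentation D T := Algebra.FinitePresentation.of_finiteType.mp h1
    have h3 : Algebra.Smooth D T := ⟨hs, h2⟩
    exact Algebra.Smooth.flat D T
  · intro B _ _ J hJ φ ψ hψ
    let _ : Algebra D B := φ.toRingHom.toAlgebra
    have : IsScalarTower W D B := IsScalarTower.of_algebraMap_eq fun c => (φ.commutes c).symm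
    let g : T →ₐ[D] B ⧸ J :=
      { ψ.toRingHom with
        commutes' := fun x => congrArg (fun φ : D →ₐ[W] B ⧸ J => φ x) hψ }
    obtain ⟨g', hg⟩ := Algebra.FormallySmooth.exists_lift J hJ g
    refine ⟨g'.restrictScalars W, ?_, ?_⟩
    · ext x
      exact g'.commutes x
    · ext x
      exact congrArg (fun φ : T →ₐ[D] B ⧸ J => φ x) hg

end Pool.Agent.GR
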