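import Pool.Agent.P.MP_c1f06d_ag.r.UOG
import Pool.Agent.P.MP_c1f06d_ag.r.UMeet

open Matrix

universe u

namespace Pool.Agent.GR

variable {k : Type u} [Field k] {n r : ℕ} {H : HS k n} {A : Type u} [CommRing A] [Algebra k A]
  {A' : Type u} [CommRing A'] [Algebra k A'] {χ : Fin n → Fin r → ℤ}
  {e : (Fin r → ℤ) → Mat n A} {X : Mat n A}

/-! ADLIFT and the space of pairs `(g, Y)`. -/

section aux

variable {B B' : Type u} [CommRing B] [CommRing B']

theorem ucj_mul_left {J : Ideal B} {P : Mat n B} (hP : ∀ i j, P i j ∈ J) (Q : Mat n B) (i j) :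
    (Q * P) i j ∈ J := by
  rw [mul_apply]
  exact J.sum_mem fun l _ => J.mul_mem_left _ (hP l j)

theorem ucj_mul_right {J : Ideal B} {P : Mat n B} (hP : ∀ i j, P i j ∈ J) (Q : Mat n B) (i j) :
    (P * Q) i j ∈ J := by
  rw [mul_apply]
  exact J.sum_mem fun l _ => J.mul_mem_right _ (hP i l)

theorem ucj_mul_zero {J : Ideal B} (hJ : J * J = ⊥) {P Q : Mat n B} (hP : ∀ i j, P i j ∈ J)
    (hQ : ∀ i j, Q i j ∈ J) : P * Q = 0 := by
  ext i j
  rw [mul_apply, Matrix.zero_apply]
  refine Finset.sum_eq_zero fun l _ => ?_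
  have := Ideal.mul_mem_mul (hP i l) (hQ l j)
  rwa [hJ, Ideal.mem_bot] at this

theorem ucj_sum_mem {J : Ideal B} {ι : Type} [Fintype ι] {d : ι → B} (hd : ∀ l, d l ∈ J)
    (P : ι → Mat n B) (i j) : (∑ l, d l • P l) i j ∈ J := by
  rw [Matrix.sum_apply]
  exact J.sum_mem fun l _ => J.mul_mem_right _ (hd l)

theorem ucj_brk_sum {ι : Type} [Fintype ι] (d : ι → B) (P : ι → Mat n B) (Y : Mat n B) :
    brk (∑ l, d l • P l) Y = ∑ l, d l • brk (P l) Y := by
  simp only [brk, Finset.sum_mul, Finset.mul_sum, smul_mul_assoc, mul_smul_comm, smul_sub,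
    Finset.sum_sub_distrib]

theorem ucj_comb {ι κ : Type} [Fintype ι] [Fintype κ] (d : ι → B) (z : ι → κ → B)
    (C : κ → Mat n B) (η : ι → Mat n B) (Y : Mat n B) :
    ∑ l, d l • (∑ i, z l i • C i + brk (η l) Y) =
      ∑ i, (∑ l, d l * z l i) • C i + brk (∑ l, d l • η l) Y := by
  rw [ucj_brk_sum]
  simp only [smul_add, Finset.sum_add_distrib, Finset.smul_sum, Finset.sum_smul, smul_smul]
  rw [Finset.sum_comm]

theorem ucj_cj_mul (g g' : GL (Fin n) B) (Y : Mat n B) : cj (g * g') Y = cj g (cj g' Y) := by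
  simp only [cj, _root_.mul_inv_rev, Units.val_mul, Matrix.mul_assoc]

theorem ucj_cj_one (Y : Mat n B) : cj 1 Y = Y := by simp [cj]

theorem ucj_cj_map (f : B →+* B') (g : GL (Fin n) B) (Y : Mat n B) :
    (cj g Y).map f = cj (GeneralLinearGroup.map f g) (Y.map f) := by
  rw [cj, cj, ← map_inv, Matrix.map_mul, Matrix.map_mul]
  rfl

theorem ucj_sum_map (f : B →+* B') {κ : Type} [Fintype κ] (y : κ → B) (C : κ → Mat n B) :
    (∑ i, y i • C i).map f = ∑ i, f (y i) • (C i).map f := by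
  ext a b
  simp [Matrix.sum_apply]

theorem ucj_brk_map (f : B →+* B') (P Q : Mat n B) :
    (brk P Q).map f = brk (P.map f) (Q.map f) := by
  rw [brk, brk, Matrix.map_sub _ (map_sub f), Matrix.map_mul, Matrix.map_mul]

end aux

theorem ucj_inS_sum {V : Submodule k (Mat n k)} {ι : Type} [Fintype ι] (d : ι → A)
    {P : ι → Mat n A} (hP : ∀ l, InS V (P l)) : InS V (∑ l, d l • P l) :=
  mem_sp.1 (Submodule.sum_mem _ fun l _ => Submodule.smul_mem _ _ (mem_sp.2 (hP l)))

theorem ucj_inS_add {V : Submodule k (Mat n k)} {P Q : Mat n A} (hP : InS V P) (hQ : InS V Q) :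
    InS V (P + Q) := mem_sp.1 (Submodule.add_mem _ (mem_sp.2 hP) (mem_sp.2 hQ))

theorem ucj_inS_sub {V : Submodule k (Mat n k)} {P Q : Mat n A} (hP : InS V P) (hQ : InS V Q) :
    InS V (P - Q) := mem_sp.1 (Submodule.sub_mem _ (mem_sp.2 hP) (mem_sp.2 hQ))

theorem ucj_inS_sbas (V : Submodule k (Mat n k)) (l : Fin (sN V)) : InS V (sbas V A l) :=
  mem_sp.1 (Submodule.subset_span ⟨l, rfl⟩)

theorem ucj_scrd_sum (V : Submodule k (Mat n k)) {ι : Type} [Fintype ι] (d : ι → A)
    (P : ι → Mat n A) (l : Fin (sN V)) :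
    scrd V (∑ j, d j • P j) l = ∑ j, scrd V (P j) l * d j := by
  classical
  have h0 : scrd V (0 : Mat n A) = 0 := by
    have := scrd_smul V (0 : A) (0 : Mat n A)
    rwa [zero_smul, zero_smul] at this
  have : ∀ s : Finset ι, scrd V (∑ j ∈ s, d j • P j) l = ∑ j ∈ s, scrd V (P j) l * d j := by
    intro s
    induction s using Finset.induction_on with
    | empty => simp [h0]
    | insert a s ha ih =>
      rw [Finset.sum_insert ha, Finset.sum_insert ha, scrd_add, scrd_smul, Pi.add_apply, ih,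
        Pi.smul_apply, smul_eq_mul, mul_comm]
  exact this _

theorem ucj_scrd_sbas (V : Submodule k (Mat n k)) (l l' : Fin (sN V)) :
    scrd V (sbas V A l) l' = (1 : Matrix _ _ A) l' l := by
  have h : svec V (Pi.single l (1 : A)) = sbas V A l := by
    rw [svec, Finset.sum_eq_single l]
    · simp
    · intro b _ hb
      simp [hb]
    · simp
  rw [← h, scrd_svec, Matrix.one_apply, Pi.single_apply]

namespace HS

theorem ucj_inLie_sum {ι : Type} [Fintype ι] (d : ι → A) {P : ι → Mat n A}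
    (hP : ∀ l, H.InLie (P l)) : H.InLie (∑ l, d l • P l) :=
  inLie_iff_inS.2 (ucj_inS_sum d fun l => inLie_iff_inS.1 (hP l))

theorem Big.adlift (M : H.Big) {q : ℕ} {C : Fin q → Mat n A} (hC : ∀ i, InS M.m (C i))
    (y : Fin q → A) (hsp : M.Span C (∑ i, y i • C i)) {g : GL (Fin n) A} (hg : g ∈ H.G A)
    (J : Ideal A) (hJ : J * J = ⊥) (hX : InS M.m X)
    (h : ∀ i j, (X - cj g (∑ i, y i • C i)) i j ∈ J) :
    ∃ g' ∈ H.G A, ∃ y' : Fin q → A, X = cj g' (∑ i, y' i • C i) ∧
      (∀ i j, ((g' : Mat n A) - (g : Mat n A)) i j ∈ J) ∧ ∀ i, y' i - y i ∈ J := by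
  set Y := ∑ i, y i • C i with hY
  have hYm : InS M.m Y := ucj_inS_sum y hC
  have hD : InS M.m (cj g⁻¹ X - Y) := ucj_inS_sub (M.inS_cj ((H.G A).inv_mem hg) hX) hYm
  have hDe : cj g⁻¹ X - Y = cj g⁻¹ (X - cj g Y) := by
    have : cj g⁻¹ (cj g Y) = Y := by rw [← ucj_cj_mul, inv_mul_cancel, ucj_cj_one]
    conv_lhs => rw [← this]
    simp only [cj, Matrix.mul_sub, Matrix.sub_mul]
  have hDJ : ∀ i j, (cj g⁻¹ X - Y) i j ∈ J := by
    rw [hDe]
    exact ucj_mul_right (ucj_mul_left h _) _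
  choose z η hη hz using fun l => hsp _ (ucj_inS_sbas M.m l)
  let d := scrd M.m (cj g⁻¹ X - Y)
  have hd : ∀ l, d l ∈ J := scrd_mem M.m J hDJ
  let w : Fin q → A := fun i => ∑ l, d l * z l i
  have hw : ∀ i, w i ∈ J := fun i => J.sum_mem fun l _ => J.mul_mem_right _ (hd l)
  let ξ : Mat n A := ∑ l, d l • η l
  have hξJ : ∀ i j, ξ i j ∈ J := ucj_sum_mem hd η
  have hWJ : ∀ i j, (∑ i, w i • C i) i j ∈ J := ucj_sum_mem hw C
  have hE : cj g⁻¹ X - Y = ∑ i, w i • C i + brk ξ Y := by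
    rw [← ucj_comb, ← hD.svec_scrd, svec]
    exact Finset.sum_congr rfl fun l _ => by rw [← hz l]
  obtain ⟨v, hv, ev⟩ := (memM_one_add J hJ hξJ).2 (ucj_inLie_sum d hη)
  have hξξ : ξ * ξ = 0 := ucj_mul_zero hJ hξJ hξJ
  have evi : ((v⁻¹ : GL (Fin n) A) : Mat n A) = 1 - ξ := by
    refine Units.inv_eq_of_mul_eq_one_right ?_
    rw [ev, Matrix.add_mul, Matrix.mul_sub, Matrix.mul_sub, hξξ]
    simp
  refine ⟨g * v, (H.G A).mul_mem hg hv, fun i => y i + w i, ?_, ?_, fun i => by simpa using hw i⟩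
  · have h1 : ∑ i, (y i + w i) • C i = Y + ∑ i, w i • C i := by
      simp only [add_smul, Finset.sum_add_distrib, hY]
    have h2 : cj v (Y + ∑ i, w i • C i) = cj g⁻¹ X := by
      rw [eq_add_of_sub_eq hE, cj, ev, evi, brk]
      have a1 := ucj_mul_zero hJ hξJ hWJ
      have a2 := ucj_mul_zero hJ hWJ hξJ
      have a3 := ucj_mul_zero hJ (ucj_mul_right hξJ Y) hξJ
      generalize (∑ i, w i • C i) = W at a1 a2
      simp only [Matrix.add_mul, Matrix.mul_add, Matrix.mul_sub, Matrix.one_mul, Matrix.mul_one,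
        a1, a2, a3, Matrix.zero_mul]
      abel
    rw [ucj_cj_mul, h1, h2, ← ucj_cj_mul, mul_inv_cancel, ucj_cj_one]
  · have : ((g * v : GL (Fin n) A) : Mat n A) - (g : Mat n A) = (g : Mat n A) * ξ := by
      rw [Units.val_mul, ev, Matrix.mul_add, Matrix.mul_one, add_sub_cancel_left]
    rw [this]
    exact ucj_mul_left hξJ _

section space

variable {W : Type u} [Field W] (O : Type u) [CommRing O] [Algebra W O] {q : ℕ}
  (s : MvPolynomial (Fin q) W)

/-- The open set `s ≠ 0` of affine space over `O`. -/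
abbrev LT : Type u :=
  Localization.Away (MvPolynomial.map (algebraMap W O) s : MvPolynomial (Fin q) O)

/-- The map from the base. -/
noncomputable def lt0 : O →ₐ[W] LT O s :=
  (IsScalarTower.toAlgHom W (MvPolynomial (Fin q) O) (LT O s)).comp
    (IsScalarTower.toAlgHom W O (MvPolynomial (Fin q) O))

/-- The linear coordinates. -/
noncomputable def lty (i : Fin q) : LT O s :=
  algebraMap (MvPolynomial (Fin q) O) (LT O s) (MvPolynomial.X i)

theorem lt_ft (h1 : Algebra.FiniteType W O) : Algebra.FiniteType W (LT O s) := by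
  have h2 : Algebra.FiniteType W (MvPolynomial (Fin q) O) :=
    Algebra.FiniteType.trans h1 inferInstance
  have h3 : Algebra.FinitePresentation (MvPolynomial (Fin q) O) (LT O s) :=
    IsLocalization.Away.finitePresentation (MvPolynomial.map (algebraMap W O) s)
  exact Algebra.FiniteType.trans h2 Algebra.FiniteType.of_finitePresentation

theorem lt_aeval {B : Type u} [CommRing B] [Algebra W B] (θ : MvPolynomial (Fin q) O →ₐ[W] B) :
    θ (MvPolynomial.map (algebraMap W O) s) =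
      MvPolynomial.aeval (fun i => θ (MvPolynomial.X i)) s := by
  have : θ.comp (MvPolynomial.mapAlgHom (Algebra.ofId W O)) =
      MvPolynomial.aeval (fun i => θ (MvPolynomial.X i)) := by
    ext i
    simp
  rw [← this]
  rfl

theorem lt_unit : IsUnit (MvPolynomial.aeval (lty O s) s) := by
  have := lt_aeval O s (IsScalarTower.toAlgHom W (MvPolynomial (Fin q) O) (LT O s))
  have h : IsUnit (algebraMap (MvPolynomial (Fin q) O) (LT O s)
      (MvPolynomial.map (algebraMap W O) s)) := IsLocalization.Away.algebraMap_isUnit _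
  exact this ▸ h

theorem lt_lift {B : Type u} [CommRing B] [Algebra W B] (θ0 : O →ₐ[W] B) (y' : Fin q → B)
    (hy : IsUnit (MvPolynomial.aeval y' s)) :
    ∃ θ : LT O s →ₐ[W] B, θ.comp (lt0 O s) = θ0 ∧ ∀ i, θ (lty O s i) = y' i := by
  obtain ⟨θ1, hC, hX⟩ : ∃ θ1 : MvPolynomial (Fin q) O →ₐ[W] B,
      (∀ a, θ1 (MvPolynomial.C a) = θ0 a) ∧ ∀ i, θ1 (MvPolynomial.X i) = y' i :=
    ⟨MvPolynomial.aevalTower θ0 y', MvPolynomial.aevalTower_C _ _, MvPolynomial.aevalTower_X _ _⟩
  have hu : IsUnit (θ1 (MvPolynomial.map (algebraMap W O) s)) := by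
    rw [lt_aeval O s θ1]
    simpa only [hX] using hy
  have hu' : ∀ z : Submonoid.powers (MvPolynomial.map (algebraMap W O) s), IsUnit (θ1 z) := by
    rintro ⟨_, m, rfl⟩
    exact (map_pow θ1 _ m).symm ▸ hu.pow m
  obtain ⟨θ, hθ⟩ : ∃ θ : LT O s →ₐ[W] B,
      ∀ p, θ (algebraMap (MvPolynomial (Fin q) O) (LT O s) p) = θ1 p :=
    ⟨IsLocalization.liftAlgHom hu', fun p => IsLocalization.lift_eq hu' p⟩
  exact ⟨θ, AlgHom.ext fun a => (hθ (MvPolynomial.C a)).trans (hC a),
    fun i => (hθ _).trans (hX i)⟩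

theorem lt_ext {B : Type u} [CommRing B] [Algebra W B] {θ θ' : LT O s →ₐ[W] B}
    (h0 : θ.comp (lt0 O s) = θ'.comp (lt0 O s)) (hy : ∀ i, θ (lty O s i) = θ' (lty O s i)) :
    θ = θ' := by
  refine AlgHom.coe_ringHom_injective (IsLocalization.ringHom_ext
    (Submonoid.powers (MvPolynomial.map (algebraMap W O) s)) ?_)
  refine MvPolynomial.ringHom_ext (fun a => ?_) hy
  exact AlgHom.congr_fun h0 a

theorem lt_dom [IsDomain O] (hs : s ≠ 0) : IsDomain (LT O s) := by
  have h0 : MvPolynomial.map (algebraMap W O) s ≠ 0 := fun e =>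
    hs (MvPolynomial.map_injective _ (algebraMap W O).injective (by rw [e, map_zero]))
  exact IsLocalization.isDomain_localization (powers_le_nonZeroDivisors_of_noZeroDivisors h0)

theorem ucj_gm_comp {B B' B'' : Type u} [CommRing B] [CommRing B'] [CommRing B''] [Algebra W B]
    [Algebra W B'] [Algebra W B''] (f : B →ₐ[W] B') (f' : B' →ₐ[W] B'') (g : GL (Fin n) B) :
    gm (f'.comp f) g = gm f' (gm f g) := rfl

end space

section space2

variable (H) (W : Type u) [Field W] [Algebra k W] {q : ℕ} (s : MvPolynomial (Fin q) W)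

/-- The coordinate ring of the space of pairs. -/
abbrev CJT : Type u := LT (H.OG W) s

/-- The group coordinate. -/
noncomputable def cjtg : GL (Fin n) (H.CJT W s) := gm (lt0 (H.OG W) s) (H.gU W)

/-- The linear coordinates. -/
noncomputable def cjty (i : Fin q) : H.CJT W s := lty (H.OG W) s i

theorem cjtg_mem : H.cjtg W s ∈ H.G (H.CJT W s) :=
  G_gm ((lt0 (H.OG W) s).restrictScalars k) (gU_mem W)

theorem cjt_ft : Algebra.FiniteType W (H.CJT W s) := lt_ft _ s (OG_ft W)

theorem cjt_unit : IsUnit (MvPolynomial.aeval (H.cjty W s) s) := lt_unit _ s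

theorem cjt_univ (B : Type u) [CommRing B] [Algebra k B] [Algebra W B] [IsScalarTower k W B]
    (g' : GL (Fin n) B) (hg : g' ∈ H.G B) (y' : Fin q → B)
    (hy : IsUnit (MvPolynomial.aeval y' s)) :
    ∃ θ : H.CJT W s →ₐ[W] B, gm θ (H.cjtg W s) = g' ∧ ∀ i, θ (H.cjty W s i) = y' i := by
  obtain ⟨θ0, h0⟩ := exists_pt (W := W) hg
  obtain ⟨θ, hc, hθ⟩ := lt_lift (H.OG W) s θ0 y' hy
  refine ⟨θ, ?_, hθ⟩
  rw [cjtg, ← ucj_gm_comp, hc, h0]

theorem cjt_ext {B : Type u} [CommRing B] [Algebra W B] {θ θ' : H.CJT W s →ₐ[W] B}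
    (hg : gm θ (H.cjtg W s) = gm θ' (H.cjtg W s))
    (hy : ∀ i, θ (H.cjty W s i) = θ' (H.cjty W s i)) : θ = θ' := by
  rw [cjtg, ← ucj_gm_comp, ← ucj_gm_comp] at hg
  exact lt_ext _ s (OG_ext hg) hy

theorem cjt_dom (hp : (H.van W).IsPrime) (hs : s ≠ 0) : IsDomain (H.CJT W s) := lt_dom _ s hs

end space2

theorem ucj_cjY_map {W : Type u} [Field W] {q : ℕ} (C : Fin q → Mat n W) {B B' : Type u}
    [CommRing B] [CommRing B'] [Algebra W B] [Algebra W B'] (θ : B →ₐ[W] B') (g : GL (Fin n) B)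
    (y : Fin q → B) :
    (cj g (∑ i, y i • (C i).map (algebraMap W B))).map θ =
      cj (gm θ g) (∑ i, θ (y i) • (C i).map (algebraMap W B')) := by
  have h1 := ucj_cj_map (θ : B →+* B') g (∑ i, y i • (C i).map (algebraMap W B))
  rw [ucj_sum_map] at h1
  refine h1.trans ?_
  congr 1
  refine Finset.sum_congr rfl fun i _ => ?_
  congr 1
  ext a b
  simp

theorem Big.exists_cj (M : H.Big) (W : Type u) [Field W] [Algebra k W] {q : ℕ}
    (C : Fin q → Mat n W) (hC : ∀ i, InS M.m (C i)) (s : MvPolynomial (Fin q) W)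
    (hs : ∀ (A : Type u) [CommRing A] [Algebra k A] [Algebra W A] [IsScalarTower k W A]
      (y : Fin q → A), IsUnit (MvPolynomial.aeval y s) →
        M.Span (fun i => (C i).map (algebraMap W A)) (∑ i, y i • (C i).map (algebraMap W A))) :
    Nonempty (CJ M W C s) := by
  have hft := H.cjt_ft W s
  refine ⟨⟨H.CJT W s, hft, H.cjtg W s, H.cjtg_mem W s, H.cjty W s, H.cjt_unit W s, H.cjt_univ W s, ?_,
    H.cjt_dom W s⟩⟩
  refine (flat_of_lift _ ?_).1
  intro B _ _ J hJ φ ψ hφ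
  let _ : Algebra k B := ((algebraMap W B).comp (algebraMap k W)).toAlgebra
  have : IsScalarTower k W B := IsScalarTower.of_algebraMap_eq' rfl
  have hCB : ∀ (B : Type u) [CommRing B] [Algebra k B] [Algebra W B] [IsScalarTower k W B] (i),
      InS M.m ((C i).map (algebraMap W B)) :=
    fun B _ _ _ _ i => (hC i).map (IsScalarTower.toAlgHom k W B)
  have hnil : IsNilpotent J := ⟨2, by rw [pow_two, hJ]; rfl⟩
  have hsc : ∀ (B : Type u) [CommRing B] [Algebra k B] [Algebra W B] [IsScalarTower k W B]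
      (θ : H.CJT W s →ₐ[W] B) (l),
      θ (scrd M.m (cj (H.cjtg W s) (∑ i, H.cjty W s i • (C i).map (algebraMap W _))) l) =
        scrd M.m (cj (gm θ (H.cjtg W s)) (∑ i, θ (H.cjty W s i) • (C i).map (algebraMap W B))) l := by
    intro B _ _ _ _ θ l
    rw [← ucj_cjY_map]
    exact (scrd_map M.m (θ.restrictScalars k) _ l).symm
  have hgb : gm ψ (H.cjtg W s) ∈ H.G (B ⧸ J) := G_gm (ψ.restrictScalars k) (H.cjtg_mem W s)
  obtain ⟨g0, hg0, e0⟩ := G_lift (Ideal.Quotient.mkₐ k J) Ideal.Quotient.mk_surjective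
    (by
      have : RingHom.ker (Ideal.Quotient.mkₐ k J) = J := Ideal.Quotient.mkₐ_ker k J
      rw [this]; exact hnil) hgb
  have e0' : gm (Ideal.Quotient.mkₐ W J) g0 = gm ψ (H.cjtg W s) := e0
  have hun : ∀ y : Fin q → B, (∀ i, Ideal.Quotient.mkₐ W J (y i) = ψ (H.cjty W s i)) →
      IsUnit (MvPolynomial.aeval y s) := by
    intro y hy
    rw [← IsNilpotent.isUnit_quotient_mk_iff hnil]
    have h1 := (H.cjt_unit W s).map ψ
    rw [MvPolynomial.comp_aeval_apply] at h1
    have h2 := MvPolynomial.comp_aeval_apply y (Ideal.Quotient.mkₐ W J) s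
    simp only [hy] at h2
    rw [← h2] at h1
    exact h1
  choose y0 hy0 using fun i => Ideal.Quotient.mkₐ_surjective W J (ψ (H.cjty W s i))
  have hX : InS M.m (svec M.m fun l => φ (MvPolynomial.X l)) := ⟨_, rfl⟩
  have hcong : ∀ i j, ((svec M.m fun l => φ (MvPolynomial.X l)) -
      cj g0 (∑ i, y0 i • (C i).map (algebraMap W B))) i j ∈ J := by
    have h1 := ucj_cjY_map C (Ideal.Quotient.mkₐ W J) g0 y0
    simp only [hy0, e0'] at h1
    have h2 := svec_map M.m (Ideal.Quotient.mkₐ k J) fun l => φ (MvPolynomial.X l)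
    have h3 : (fun l => Ideal.Quotient.mkₐ k J (φ (MvPolynomial.X l))) =
        scrd M.m (cj (gm ψ (H.cjtg W s))
          (∑ i, ψ (H.cjty W s i) • (C i).map (algebraMap W (B ⧸ J)))) := by
      funext l
      have := AlgHom.congr_fun hφ (MvPolynomial.X l)
      rw [AlgHom.comp_apply, MvPolynomial.aeval_X, hsc] at this
      exact this.symm
    rw [h3, (M.inS_cj hgb (ucj_inS_sum _ (hCB _))).svec_scrd, ← h1] at h2
    intro i j
    rw [Matrix.sub_apply, ← Ideal.Quotient.eq]
    exact congrFun (congrFun h2 i) j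
  obtain ⟨g', hg', y', eX, hgg, hyy⟩ :=
    M.adlift (hCB B) y0 (hs B y0 (hun y0 hy0)) hg0 J hJ hX hcong
  have hy' : ∀ i, Ideal.Quotient.mkₐ W J (y' i) = ψ (H.cjty W s i) := fun i => by
    rw [← hy0 i]
    exact Ideal.Quotient.eq.2 (hyy i)
  obtain ⟨θ, t1, t2⟩ := H.cjt_univ W s B g' hg' y' (hun y' hy')
  refine ⟨θ, ?_, H.cjt_ext W s ?_ fun i => ?_⟩
  · refine MvPolynomial.algHom_ext fun l => ?_
    rw [AlgHom.comp_apply, MvPolynomial.aeval_X, hsc, t1]
    simp only [t2]
    rw [← eX, scrd_svec]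
  · rw [ucj_gm_comp, t1, ← e0']
    refine Units.ext (Matrix.ext fun i j => ?_)
    exact Ideal.Quotient.eq.2 (hgg i j)
  · rw [AlgHom.comp_apply, t2, hy']

/-- the span condition is open -/
theorem Big.exists_open (M : H.Big) (W : Type u) [Field W] [Algebra k W] {q : ℕ}
    (C : Fin q → Mat n W) (hC : ∀ i, InS M.m (C i)) (y₀ : Fin q → W)
    (h₀ : M.Span C (∑ i, y₀ i • C i)) :
    ∃ s : MvPolynomial (Fin q) W, MvPolynomial.aeval y₀ s = 1 ∧
      ∀ (A : Type u) [CommRing A] [Algebra k A] [Algebra W A] [IsScalarTower k W A]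
        (y : Fin q → A), IsUnit (MvPolynomial.aeval y s) →
          M.Span (fun i => (C i).map (algebraMap W A)) (∑ i, y i • (C i).map (algebraMap W A)) := by
  choose z η hη hz using fun l => h₀ _ (ucj_inS_sbas M.m l)
  let P := MvPolynomial (Fin q) W
  let T : Fin (sN M.m) → Mat n P := fun l =>
    ∑ i, algebraMap W P (z l i) • (C i).map (algebraMap W P) +
      brk ((η l).map (algebraMap W P)) (∑ i, (MvPolynomial.X i : P) • (C i).map (algebraMap W P))
  let Ψ : Matrix (Fin (sN M.m)) (Fin (sN M.m)) P := of fun l' l => scrd M.m (T l) l'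
  have key : ∀ (A : Type u) [CommRing A] [Algebra k A] [Algebra W A] [IsScalarTower k W A]
      (y : Fin q → A), MvPolynomial.aeval y Ψ.det = (of fun l' l => scrd M.m
        (∑ i, algebraMap W A (z l i) • (C i).map (algebraMap W A) +
          brk ((η l).map (algebraMap W A)) (∑ i, y i • (C i).map (algebraMap W A))) l').det := by
    intro A _ _ _ _ y
    rw [AlgHom.map_det]
    congr 1
    ext l' l
    have h1 := scrd_map M.m ((MvPolynomial.aeval y : P →ₐ[W] A).restrictScalars k) (T l) l'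
    refine h1.symm.trans ?_
    rw [of_apply]
    congr 1
    have hm : ∀ Z : Mat n W, (Z.map (algebraMap W P)).map
        ((MvPolynomial.aeval y : P →ₐ[W] A) : P →+* A) = Z.map (algebraMap W A) := fun Z => by
      ext a b
      simp [P]
    show (T l).map ((MvPolynomial.aeval y : P →ₐ[W] A) : P →+* A) = _
    simp only [T]
    rw [Matrix.map_add _ (map_add _), ucj_brk_map, ucj_sum_map, ucj_sum_map]
    simp only [hm]
    simp [P]
  refine ⟨Ψ.det, ?_, fun A _ _ _ _ y hy Z hZ => ?_⟩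
  · rw [key W y₀, ← det_one (n := Fin (sN M.m))]
    congr 1
    ext l' l
    rw [of_apply, ← ucj_scrd_sbas, hz l]
    simp
  · rw [key A y] at hy
    set TA : Fin (sN M.m) → Mat n A := fun l =>
      ∑ i, algebraMap W A (z l i) • (C i).map (algebraMap W A) +
        brk ((η l).map (algebraMap W A)) (∑ i, y i • (C i).map (algebraMap W A)) with hTA
    have hCA : ∀ i, InS M.m ((C i).map (algebraMap W A)) :=
      fun i => (hC i).map (IsScalarTower.toAlgHom k W A)
    have hηA : ∀ l, H.InLie ((η l).map (algebraMap W A)) := fun l =>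
      inLie_iff_inS.2 ((inLie_iff_inS.1 (hη l)).map (IsScalarTower.toAlgHom k W A))
    have hT : ∀ l, InS M.m (TA l) := fun l =>
      ucj_inS_add (ucj_inS_sum _ hCA)
        (M.inS_of_inLie (M.brk_inLie (M.inS_of_inLie (hηA l)) (ucj_inS_sum _ hCA)))
    let Φ : Matrix (Fin (sN M.m)) (Fin (sN M.m)) A := of fun l' l => scrd M.m (TA l) l'
    have hΦ : IsUnit Φ.det := hy
    let a := Φ⁻¹ *ᵥ scrd M.m Z
    have ha : Φ *ᵥ a = scrd M.m Z := by
      rw [mulVec_mulVec, mul_nonsing_inv _ hΦ, one_mulVec]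
    have hZ' : Z = ∑ l, a l • TA l := by
      rw [← hZ.svec_scrd, ← (ucj_inS_sum a hT).svec_scrd, ← ha]
      congr 1
      funext l'
      rw [ucj_scrd_sum]
      rfl
    exact ⟨fun i => ∑ l, a l * algebraMap W A (z l i), _, ucj_inLie_sum a hηA,
      hZ'.trans (ucj_comb _ _ _ _ _)⟩

end HS

end Pool.Agent.GR
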