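import Mathlib

universe u

open scoped TensorProduct

namespace Pool.Agent.GR

/-! Two facts on faithfully flat algebras. -/

/-- a faithfully flat algebra over a local domain maps to a local domain that dominates it -/
theorem exists_dom {W T : Type u} [CommRing W] [IsDomain W] [IsLocalRing W] [CommRing T]
    [Algebra W T] [Module.FaithfullyFlat W T] :
    ∃ (D : Type u) (_ : CommRing D) (_ : IsDomain D) (_ : IsLocalRing D) (θ : T →+* D),
      Function.Injective (θ.comp (algebraMap W T)) ∧ IsLocalHom (θ.comp (algebraMap W T)) := by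
  obtain ⟨Q, hQ, hQo⟩ :=
    Ideal.exists_isPrime_liesOver_of_faithfullyFlat (B := T) (IsLocalRing.maximalIdeal W)
  obtain ⟨P, hPQ, hP, hPo⟩ := Ideal.exists_ideal_le_liesOver_of_le (p := (⊥ : Ideal W))
    (q := IsLocalRing.maximalIdeal W) Q bot_le
  have hk : RingHom.ker (Ideal.Quotient.mk P) ≤ Q := by rwa [Ideal.mk_ker]
  have hq : (Q.map (Ideal.Quotient.mk P)).IsPrime :=
    Ideal.map_isPrime_of_surjective Ideal.Quotient.mk_surjective hk
  refine ⟨Localization.AtPrime (Q.map (Ideal.Quotient.mk P)), inferInstance, inferInstance,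
    inferInstance, (algebraMap (T ⧸ P) _).comp (Ideal.Quotient.mk P), ?_, ?_⟩
  · rw [injective_iff_map_eq_zero]
    intro w hw
    have h1 : Ideal.Quotient.mk P (algebraMap W T w) = 0 := by
      apply IsLocalization.injective (Localization.AtPrime (Q.map (Ideal.Quotient.mk P)))
        (Q.map (Ideal.Quotient.mk P)).primeCompl_le_nonZeroDivisors
      rw [map_zero]
      exact hw
    have h2 : w ∈ P.under W := (Ideal.Quotient.eq_zero_iff_mem (I := P)).mp h1
    rw [← hPo.over] at h2
    exact h2
  · constructor
    intro w hw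
    by_contra hn
    have h1 : w ∈ IsLocalRing.maximalIdeal W := hn
    rw [hQo.over] at h1
    have h2 : Ideal.Quotient.mk P (algebraMap W T w) ∈ Q.map (Ideal.Quotient.mk P) :=
      Ideal.mem_map_of_mem _ h1
    exact (IsLocalization.AtPrime.isUnit_to_map_iff
      (Localization.AtPrime (Q.map (Ideal.Quotient.mk P))) (Q.map (Ideal.Quotient.mk P)) _).mp hw h2

/-- descent of elements, tested on local rings -/
theorem descend_local {P T : Type u} [CommRing P] [CommRing T] [Algebra P T]
    [Module.FaithfullyFlat P T] (t : T)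
    (h : ∀ (B : Type u) [CommRing B] [IsLocalRing B] [Algebra P B] (f g : T →ₐ[P] B), f t = g t) :
    t ∈ Set.range (algebraMap P T) := by
  refine (Algebra.IsEffective.of_faithfullyFlat P T t).mp ?_
  rw [Algebra.TensorProduct.includeLeftSubRight_apply]
  refine eq_zero_of_localization _ fun J hJ => ?_
  have := h (Localization.AtPrime J)
    ((IsScalarTower.toAlgHom P (T ⊗[P] T) (Localization.AtPrime J)).comp
      (Algebra.TensorProduct.includeLeft (R := P) (S := P) (A := T) (B := T)))
    ((IsScalarTower.toAlgHom P (T ⊗[P] T) (Localization.AtPrime J)).comp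
      (Algebra.TensorProduct.includeRight (R := P) (A := T) (B := T)))
  rw [map_sub, sub_eq_zero]
  exact this

end Pool.Agent.GR
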