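import Pool.Agent.P.MP_c1f06d_ag.r.USurj

open Matrix

universe u

namespace Pool.Agent.GR

variable {k : Type u} [Field k] {n r : ℕ} {H : HS k n} {A : Type u} [CommRing A] [Algebra k A]
  {A' : Type u} [CommRing A'] [Algebra k A'] {χ : Fin n → Fin r → ℤ}
  {e : (Fin r → ℤ) → Mat n A} {X : Mat n A}

/-! A regular element lies in a torus after a faithfully flat extension. -/

namespace UExt

open scoped TensorProduct

theorem flat_map (σ : Type) (k l : Type u) [Field k] [Field l] [Algebra k l] :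
    (MvPolynomial.map (σ := σ) (algebraMap k l)).Flat := by
  let _ : Algebra (MvPolynomial σ k) (MvPolynomial σ l) := MvPolynomial.algebraMvPolynomial
  have h : Algebra.IsPushout k (MvPolynomial σ k) l (MvPolynomial σ l) := inferInstance
  exact Module.Flat.isBaseChange k (MvPolynomial σ k) l (MvPolynomial σ l) h.out

/-- an algebraically closed field above two fields -/
theorem exists_omega (k K l : Type u) [Field k] [Field K] [Field l] [Algebra k K] [Algebra k l] :
    ∃ (Ω : Type u) (_ : Field Ω) (_ : IsAlgClosed Ω) (_ : Algebra k Ω),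
      Nonempty (K →ₐ[k] Ω) ∧ Nonempty (l →ₐ[k] Ω) := by
  obtain ⟨m, hm⟩ := Ideal.exists_maximal (K ⊗[k] l)
  let _ : Field ((K ⊗[k] l) ⧸ m) := Ideal.Quotient.field m
  let j : (K ⊗[k] l) →ₐ[k] AlgebraicClosure ((K ⊗[k] l) ⧸ m) :=
    (IsScalarTower.toAlgHom k ((K ⊗[k] l) ⧸ m) _).comp (Ideal.Quotient.mkₐ k m)
  exact ⟨AlgebraicClosure ((K ⊗[k] l) ⧸ m), inferInstance, inferInstance, inferInstance,
    ⟨j.comp Algebra.TensorProduct.includeLeft⟩, ⟨j.comp Algebra.TensorProduct.includeRight⟩⟩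

/-- every prime is the kernel of a point with values in an algebraically closed field above `l` -/
theorem exists_geom (k P l : Type u) [Field k] [CommRing P] [Field l] [Algebra k P] [Algebra k l]
    (p : Ideal P) [p.IsPrime] :
    ∃ (Ω : Type u) (_ : Field Ω) (_ : IsAlgClosed Ω) (_ : Algebra k Ω) (φ : P →ₐ[k] Ω),
      RingHom.ker φ = p ∧ Nonempty (l →ₐ[k] Ω) := by
  obtain ⟨Ω, _, _, _, ⟨a⟩, hb⟩ := exists_omega k (FractionRing (P ⧸ p)) l
  refine ⟨Ω, inferInstance, inferInstance, inferInstance,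
    (a.comp (IsScalarTower.toAlgHom k (P ⧸ p) _)).comp (Ideal.Quotient.mkₐ k p), ?_, hb⟩
  ext x
  rw [RingHom.mem_ker, ← Ideal.Quotient.eq_zero_iff_mem]
  simp only [AlgHom.comp_apply, IsScalarTower.coe_toAlgHom', Ideal.Quotient.mkₐ_eq_mk,
    map_eq_zero, FaithfulSMul.algebraMap_eq_zero_iff]

/-- base change of a faithfully flat algebra -/
theorem exists_bc {P T : Type u} [CommRing P] [Algebra k P] [CommRing T] [Algebra k T]
    [Algebra P T] [IsScalarTower k P T] [Module.FaithfullyFlat P T] (θ : P →ₐ[k] A) :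
    ∃ (T' : Type u) (_ : CommRing T') (_ : Algebra k T') (_ : Algebra A T')
      (_ : IsScalarTower k A T') (_ : Module.FaithfullyFlat A T') (j : T →ₐ[k] T'),
      ∀ p, j (algebraMap P T p) = algebraMap A T' (θ p) := by
  let _ : Algebra P A := θ.toRingHom.toAlgebra
  have : IsScalarTower k P A := IsScalarTower.of_algebraMap_eq fun c => (θ.commutes c).symm
  refine ⟨A ⊗[P] T, inferInstance, inferInstance, inferInstance, inferInstance, inferInstance,
    (Algebra.TensorProduct.includeRight (R := P) (A := A) (B := T)).restrictScalars k, fun p => ?_⟩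
  exact ((Algebra.TensorProduct.includeRight (R := P) (A := A) (B := T)).commutes p).trans
    (IsScalarTower.algebraMap_apply P A (A ⊗[P] T) p)

theorem cj_map (f : A →ₐ[k] A') (g : GL (Fin n) A) (X : Mat n A) :
    (cj g X).map f = cj (gm f g) (X.map f) := by
  unfold cj
  rw [← map_inv]
  change (RingHom.mapMatrix (f : A →+* A')) _ = _
  rw [map_mul, map_mul]
  rfl

theorem cj_cj_inv (g : GL (Fin n) A) (X : Mat n A) : cj g (cj g⁻¹ X) = X := by
  unfold cj
  rw [inv_inv, ← mul_assoc, ← mul_assoc, Units.mul_inv, one_mul, mul_assoc, Units.mul_inv, mul_one]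

theorem cj_inv_cj (g : GL (Fin n) A) (X : Mat n A) : cj g⁻¹ (cj g X) = X := by
  have := cj_cj_inv g⁻¹ X
  rwa [inv_inv] at this

theorem cj_mul (g : GL (Fin n) A) (X Y : Mat n A) : cj g (X * Y) = cj g X * cj g Y := by
  unfold cj
  simp only [mul_assoc, Units.inv_mul_cancel_left]

end UExt

namespace HS

theorem Big.inS_Xu (M : H.Big) (j : ℕ) : InS M.m (M.Xu j) := ⟨_, rfl⟩

theorem Big.isUnit_Xu (M : H.Big) (j : ℕ) : IsUnit (H.Dlt j (M.Xu j)) := by
  unfold Big.Xu
  rw [← M.aeval_DP]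
  have h : MvPolynomial.aeval (R := k) (fun l => algebraMap (MvPolynomial (Fin (sN M.m)) k)
      (M.PP j) (MvPolynomial.X l)) = IsScalarTower.toAlgHom k (MvPolynomial (Fin (sN M.m)) k)
        (M.PP j) := by
    ext l
    simp
  rw [h]
  exact IsLocalization.Away.algebraMap_isUnit (S := M.PP j) (M.DP j)

theorem Big.exists_point (M : H.Big) (j : ℕ) (hX : InS M.m X) (hΔ : IsUnit (H.Dlt j X)) :
    ∃ θ : M.PP j →ₐ[k] A, (M.Xu j).map θ = X := by
  obtain ⟨x, rfl⟩ := hX
  rw [← M.aeval_DP] at hΔ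
  refine ⟨IsLocalization.Away.liftAlgHom (S := M.PP j) (M.DP j) (f := MvPolynomial.aeval x) hΔ, ?_⟩
  unfold Big.Xu
  rw [svec_map]
  refine congrArg _ (funext fun l => ?_)
  rw [IsLocalization.Away.liftAlgHom_apply, IsLocalization.Away.lift_eq]
  exact MvPolynomial.aeval_X x l

theorem Big.point_X (M : H.Big) (j : ℕ) (θ : M.PP j →ₐ[k] A) (l : Fin (sN M.m)) :
    θ (algebraMap (MvPolynomial (Fin (sN M.m)) k) (M.PP j) (MvPolynomial.X l)) =
      scrd M.m ((M.Xu j).map θ) l := by
  unfold Big.Xu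
  rw [svec_map, scrd_svec]

theorem Big.point_ext (M : H.Big) (j : ℕ) {θ θ' : M.PP j →ₐ[k] A}
    (h : (M.Xu j).map θ = (M.Xu j).map θ') : θ = θ' := by
  refine IsLocalization.algHom_ext (Submonoid.powers (M.DP j)) ?_
  refine MvPolynomial.algHom_ext fun l => ?_
  have h1 := M.point_X j θ l
  rw [h, ← M.point_X j θ' l] at h1
  exact h1

theorem Datum.ext_univ (D : H.Datum) :
    ∃ (T : Type u) (_ : CommRing T) (_ : Algebra k T) (_ : Algebra (D.big.PP D.r) T)
      (_ : IsScalarTower k (D.big.PP D.r) T) (_ : Module.FaithfullyFlat (D.big.PP D.r) T)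
      (e : (Fin D.r → ℤ) → Mat n T), H.Tor D.χ e ∧
        H.Reg D.χ e ((D.big.Xu D.r).map (algebraMap (D.big.PP D.r) T)) := by
  obtain ⟨q, C, s, -, hC, hA, ⟨c⟩⟩ := D.exists_std D.l (AlgHom.id k D.l)
  let ιT : D.l →ₐ[k] c.T := IsScalarTower.toAlgHom k D.l c.T
  set Y : Mat n c.T := ∑ i, c.y i • (C i).map (algebraMap D.l c.T) with hY
  have hes : ∀ x, (D.es (AlgHom.id k D.l) x).map ιT = D.es ιT x := by
    intro x
    have h1 := UExt.cj_map ιT (gm (AlgHom.id k D.l) D.γ) (eps D.l D.χ x)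
    have h2 : (eps D.l D.χ x).map ιT = eps c.T D.χ x := by
      unfold eps
      rw [diagonal_map (map_zero _)]
      refine congrArg _ (funext fun i => ?_)
      split_ifs <;> simp
    rw [h2] at h1
    exact h1
  have hYc : D.big.Cc D.χ (D.es ιT) Y := by
    constructor
    · rw [← mem_sp]
      refine Submodule.sum_mem _ fun i _ => Submodule.smul_mem _ _ ?_
      exact mem_sp.mpr ((hC i).1.map ιT)
    · intro x hx
      rw [hY, Finset.sum_mul, Finset.mul_sum]
      refine Finset.sum_congr rfl fun i _ => ?_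
      rw [smul_mul_assoc, mul_smul_comm, ← hes]
      refine congrArg _ ?_
      have := congrArg (RingHom.mapMatrix (ιT : D.l →+* c.T)) ((hC i).2 x hx)
      rw [map_mul, map_mul] at this
      exact this
  have hYu : IsUnit (H.Dlt D.r Y) := by
    rw [hY, ← (hA c.T).1 c.y]
    exact c.unit
  have hreg : H.Reg D.χ (fun x => cj c.g (D.es ιT x)) (cj c.g Y) := (hYc.reg hYu).cj c.mem
  obtain ⟨θ, hθ⟩ := D.big.exists_point D.r (D.big.inS_cj c.mem hYc.1) hreg.unit
  let _ : Algebra (D.big.PP D.r) c.T := θ.toRingHom.toAlgebra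
  have tw : IsScalarTower k (D.big.PP D.r) c.T :=
    IsScalarTower.of_algebraMap_eq fun a => (θ.commutes a).symm
  have hflat : Module.Flat (D.big.PP D.r) c.T := by
    let _ : Algebra (MvPolynomial (Fin (sN D.big.m)) k) c.T :=
      (θ.toRingHom.comp (algebraMap _ (D.big.PP D.r))).toAlgebra
    have : IsScalarTower (MvPolynomial (Fin (sN D.big.m)) k) (D.big.PP D.r) c.T :=
      IsScalarTower.of_algebraMap_eq fun _ => rfl
    rw [Module.flat_iff_of_isLocalization (D.big.PP D.r) (Submonoid.powers (D.big.DP D.r))]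
    have h1 := (UExt.flat_map (Fin (sN D.big.m)) k D.l).comp c.flat
    have h2 : (MvPolynomial.aeval (R := D.l) (scrd D.big.m (cj c.g Y))).toRingHom.comp
        (MvPolynomial.map (algebraMap k D.l)) =
        θ.toRingHom.comp (algebraMap _ (D.big.PP D.r)) := by
      refine MvPolynomial.ringHom_ext (fun a => ?_) fun l => ?_
      · have h3 : (algebraMap (MvPolynomial (Fin (sN D.big.m)) k) (D.big.PP D.r))
            (MvPolynomial.C a) = algebraMap k _ a :=
          (IsScalarTower.algebraMap_apply k (MvPolynomial (Fin (sN D.big.m)) k) _ a).symm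
        simp only [AlgHom.toRingHom_eq_coe, RingHom.comp_apply, MvPolynomial.map_C,
          RingHom.coe_coe, MvPolynomial.aeval_C, h3, AlgHom.commutes]
        exact (IsScalarTower.algebraMap_apply k D.l c.T a).symm
      · simp only [AlgHom.toRingHom_eq_coe, RingHom.comp_apply, MvPolynomial.map_X,
          RingHom.coe_coe, MvPolynomial.aeval_X]
        rw [D.big.point_X, hθ]
    rw [h2] at h1
    exact h1
  have hff : Module.FaithfullyFlat (D.big.PP D.r) c.T := by
    refine Module.FaithfullyFlat.of_comap_surjective fun p => ?_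
    obtain ⟨Ω, _, _, _, φ, hφ, ⟨ι⟩⟩ := UExt.exists_geom k (D.big.PP D.r) D.l p.asIdeal
    have hX : InS D.big.m ((D.big.Xu D.r).map φ) := (D.big.inS_Xu D.r).map φ
    have hu : IsUnit (H.Dlt D.r ((D.big.Xu D.r).map φ)) := by
      rw [Dlt_mapM]
      exact (D.big.isUnit_Xu D.r).map φ
    obtain ⟨g, hg, hc⟩ := D.surj ι hX hu.ne_zero
    let _ : Algebra D.l Ω := ι.toRingHom.toAlgebra
    have : IsScalarTower k D.l Ω := IsScalarTower.of_algebraMap_eq fun a => (ι.commutes a).symm
    have hι : (IsScalarTower.toAlgHom k D.l Ω).comp (AlgHom.id k D.l) = ι := by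
      ext a
      rfl
    have hZ : D.big.Cc D.χ (D.es ι) (cj g⁻¹ ((D.big.Xu D.r).map φ)) := by
      refine ⟨D.big.inS_cj (inv_mem hg) hX, fun x hx => ?_⟩
      have := congrArg (cj g⁻¹) (hc x hx)
      rwa [UExt.cj_mul, UExt.cj_mul, UExt.cj_inv_cj] at this
    obtain ⟨y, hy⟩ := (hA Ω).2 _ (hι ▸ hZ)
    have hyu : IsUnit (MvPolynomial.aeval y s) := by
      rw [(hA Ω).1 y, ← hy, Dlt_cj (D.big.nrm hX) (inv_mem hg)]
      exact hu
    obtain ⟨θ', hg', hy'⟩ := c.univ Ω g hg y hyu
    have hcomp : (θ'.restrictScalars k).comp θ = φ := by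
      refine D.big.point_ext D.r ?_
      have h1 : (D.big.Xu D.r).map ((θ'.restrictScalars k).comp θ) =
          ((D.big.Xu D.r).map θ).map (θ'.restrictScalars k) := rfl
      have h2 : Y.map (θ'.restrictScalars k) = ∑ i, y i • (C i).map (algebraMap D.l Ω) := by
        ext a b
        simp only [hY, map_apply, Matrix.sum_apply, Matrix.smul_apply, smul_eq_mul, map_sum,
          map_mul, AlgHom.coe_restrictScalars', hy', AlgHom.commutes]
      have h3 : gm (θ'.restrictScalars k) c.g = g := hg'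
      rw [h1, hθ, UExt.cj_map, h2, h3, ← hy, UExt.cj_cj_inv]
    refine ⟨⟨RingHom.ker θ', RingHom.ker_isPrime θ'⟩, PrimeSpectrum.ext ?_⟩
    rw [← hφ, ← hcomp]
    rfl
  refine ⟨c.T, inferInstance, inferInstance, inferInstance, tw, hff,
    fun x => cj c.g (D.es ιT x), (D.tor_es ιT).cj c.mem, ?_⟩
  have h4 : (D.big.Xu D.r).map (algebraMap (D.big.PP D.r) c.T) = cj c.g Y := hθ
  rw [h4]
  exact hreg

/-- EXT -/
theorem Datum.ext (D : H.Datum) (hX : InS D.big.m X) (hΔ : IsUnit (H.Dlt D.r X)) :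
    ∃ (T : Type u) (_ : CommRing T) (_ : Algebra k T) (_ : Algebra A T) (_ : IsScalarTower k A T)
      (_ : Module.FaithfullyFlat A T) (e : (Fin D.r → ℤ) → Mat n T), H.Tor D.χ e ∧
        H.Reg D.χ e (X.map (algebraMap A T)) := by
  obtain ⟨T, _, _, _, _, _, e, ht, hr⟩ := D.ext_univ
  obtain ⟨θ, hθ⟩ := D.big.exists_point D.r hX hΔ
  obtain ⟨T', _, _, _, tw, ff, j, hj⟩ := UExt.exists_bc (T := T) θ
  refine ⟨T', inferInstance, inferInstance, inferInstance, tw, ff, fun x => (e x).map j,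
    ht.map j, ?_⟩
  have h1 : X.map (algebraMap A T') =
      ((D.big.Xu D.r).map (algebraMap (D.big.PP D.r) T)).map j := by
    rw [← hθ]
    ext a b
    exact (hj _).symm
  rw [h1]
  exact hr.map j

end HS

end Pool.Agent.GR
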