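import Pool.Agent.P.MP_c1f06d_ag.r.UExt
import Pool.Agent.P.MP_c1f06d_ag.r.TRig
import Pool.Agent.P.MP_c1f06d_ag.r.UDesc

open Matrix TensorProduct

universe u

namespace Pool.Agent.GR

variable {k : Type u} [Field k] {n r : ℕ} {H : HS k n} {A : Type u} [CommRing A] [Algebra k A]
  {A' : Type u} [CommRing A'] [Algebra k A'] {χ : Fin n → Fin r → ℤ}
  {e : (Fin r → ℤ) → Mat n A} {X : Mat n A}

/-! NORM. -/

theorem nc_map {σ : Type} [Fintype σ] (φ : σ → MvPolynomial (ℤ × Fin n × Fin n) k) (c : σ → A)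
    (a : (Fin r → ℤ) →+ ℤ) (f : A →ₐ[k] A') :
    f (nc χ e φ c a) = nc χ (fun x => (e x).map f) φ (fun s => f (c s)) a := by
  simp only [nc, map_sum, map_mul]
  refine Finset.sum_congr rfl fun s _ => ?_
  congr 1
  rw [← AlgHom.comp_apply, MvPolynomial.comp_aeval]
  congr 2
  funext p
  rw [← lamE_map f]
  rfl

namespace HS

/-- two tori through the same regular element: the cocharacters in `OR` are permuted -/
theorem Tor.or_equiv [IsLocalRing A] (h : H.Tor χ e) (hs : Submodule.span ℤ (Set.range χ) = ⊤)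
    (hX : H.Reg χ e X) {e' : (Fin r → ℤ) → Mat n A} (h' : H.Tor χ e') (hX' : H.Reg χ e' X)
    (S : Finset ℤ) :
    ∃ (π : Equiv.Perm (Fin r → ℤ)) (ρ : Equiv.Perm ((Fin r → ℤ) →+ ℤ)), PermX χ π ∧
      (∀ x ∈ XX χ, e' x = e (π x)) ∧ (∀ a, ρ a ∈ OR χ S ↔ a ∈ OR χ S) ∧
      (∀ a, ∀ x ∈ XX χ, ρ a (π x) = a x) ∧
      ∀ (a : (Fin r → ℤ) →+ ℤ) (m : ℤ), lamE χ e' a m = lamE χ e (ρ a) m := by
  obtain ⟨π, hπ, he⟩ := h.uniq hs hX h' hX'.comm
  have hπ' : PermX χ π.symm := fun x => by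
    rw [← hπ (π.symm x), Equiv.apply_symm_apply]
  have he' : ∀ x ∈ XX χ, e x = e' (π.symm x) := fun x hx => by
    rw [he _ ((hπ' x).2 hx), Equiv.apply_symm_apply]
  choose ρ hρ using h.perm_add hs h' hπ he
  choose ρ' hρ' using h'.perm_add hs h hπ' he'
  have h1 : Function.LeftInverse ρ' ρ := fun a => add_ext_XX hs fun x hx => by
    have h3 := hρ' (ρ a) (π x) ((hπ x).2 hx)
    rw [Equiv.symm_apply_apply] at h3
    rw [h3, hρ a x hx]
  have h2 : Function.RightInverse ρ' ρ := fun a => add_ext_XX hs fun x hx => by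
    have h3 := hρ (ρ' a) (π.symm x) ((hπ' x).2 hx)
    rw [Equiv.apply_symm_apply] at h3
    rw [h3, hρ' a x hx]
  refine ⟨π, ⟨ρ, ρ', h1, h2⟩, hπ, he, fun a => ?_, hρ, fun a m => ?_⟩
  · rw [mem_OR hs, mem_OR hs]
    refine ⟨fun ha x hx => ?_, fun ha x hx => ?_⟩
    · rw [← hρ a x hx]
      exact ha _ ((hπ x).2 hx)
    · have h3 := hρ a (π.symm x) ((hπ' x).2 hx)
      rw [Equiv.apply_symm_apply] at h3
      change ρ a x ∈ S
      rw [h3]
      exact ha _ ((hπ' x).2 hx)
  · refine Finset.sum_equiv π (fun x => ?_) fun x hx => he x (Finset.mem_filter.1 hx).1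
    rw [Finset.mem_filter, Finset.mem_filter, hπ x]
    refine and_congr_right fun hx => ?_
    change a x = m ↔ ρ a (π x) = m
    rw [hρ a x hx]

end HS

namespace UNorm

theorem eq_of_loc {x y : A}
    (h : ∀ (B : Type u) [CommRing B] [IsLocalRing B] [Algebra k B] (f : A →ₐ[k] B), f x = f y) :
    x = y := by
  rw [← sub_eq_zero]
  refine eq_zero_of_localization _ fun J hJ => ?_
  rw [map_sub, sub_eq_zero]
  exact h (Localization.AtPrime J) (IsScalarTower.toAlgHom k A _)

/-- base change of a faithfully flat algebra -/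
theorem exists_push {P T : Type u} [CommRing P] [Algebra k P] [CommRing T] [Algebra k T]
    [Algebra P T] [IsScalarTower k P T] [Module.FaithfullyFlat P T] (θ : P →ₐ[k] A) :
    ∃ (B : Type u) (_ : CommRing B) (_ : Algebra k B) (i : A →ₐ[k] B) (j : T →ₐ[k] B),
      Function.Injective i ∧ ∀ p, j (algebraMap P T p) = i (θ p) := by
  let _ : Algebra P A := θ.toRingHom.toAlgebra
  have _ : IsScalarTower k P A := IsScalarTower.of_algebraMap_eq fun x => (θ.commutes x).symm
  refine ⟨A ⊗[P] T, inferInstance, inferInstance, IsScalarTower.toAlgHom k A _,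
    (Algebra.TensorProduct.includeRight : T →ₐ[P] A ⊗[P] T).restrictScalars k,
    FaithfulSMul.algebraMap_injective A (A ⊗[P] T), fun p => ?_⟩
  rw [AlgHom.restrictScalars_apply, AlgHom.commutes]
  exact IsScalarTower.algebraMap_apply P A (A ⊗[P] T) p

theorem descend {P T : Type u} [CommRing P] [Algebra k P] [CommRing T] [Algebra k T]
    [Algebra P T] [IsScalarTower k P T] [Module.FaithfullyFlat P T] (t : T)
    (h : ∀ (B : Type u) [CommRing B] [Algebra k B] (f g : T →ₐ[k] B),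
      (∀ p, f (algebraMap P T p) = g (algebraMap P T p)) → f t = g t) :
    t ∈ Set.range (algebraMap P T) := by
  refine descend_local t fun B _ _ _ f g => ?_
  let _ : Algebra k B := ((algebraMap P B).comp (algebraMap k P)).toAlgebra
  have _ : IsScalarTower k P B := IsScalarTower.of_algebraMap_eq fun _ => rfl
  exact h B (f.restrictScalars k) (g.restrictScalars k) fun p =>
    (f.commutes p).trans (g.commutes p).symm

theorem nt_map (S : Finset ℤ) (w : ((Fin r → ℤ) →+ ℤ) → Aˣ) (f : A →ₐ[k] A') :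
    (nt χ e S w).map f =
      nt χ (fun x => (e x).map f) S fun a => Units.map (f : A →* A') (w a) := by
  ext i j
  simp only [nt, map_apply, Matrix.sum_apply, Matrix.smul_apply, smul_eq_mul, map_sum, map_mul]
  refine Finset.sum_congr rfl fun x _ => ?_
  congr 1
  change ((Units.map (f : A →* A') (∏ a ∈ OR χ S, w a ^ a x) : A'ˣ) : A') = _
  simp only [map_prod, map_zpow]

variable {σ : Type} [Fintype σ] (φ : σ → MvPolynomial (ℤ × Fin n × Fin n) k) (S : Finset ℤ)

theorem nc_congr {e' : (Fin r → ℤ) → Mat n A} {a a' : (Fin r → ℤ) →+ ℤ} (c : σ → A)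
    (h : ∀ m, lamE χ e' a m = lamE χ e a' m) : nc χ e' φ c a = nc χ e φ c a' := by
  simp only [nc, h]

/-- the norm does not depend on the torus -/
theorem prod_nc_eq (h : H.Tor χ e) (hs : Submodule.span ℤ (Set.range χ) = ⊤) (hX : H.Reg χ e X)
    {e' : (Fin r → ℤ) → Mat n A} (h' : H.Tor χ e') (hX' : H.Reg χ e' X) (c : σ → A) :
    ∏ a ∈ OR χ S, nc χ e' φ c a = ∏ a ∈ OR χ S, nc χ e φ c a := by
  refine eq_of_loc (k := k) fun B _ _ _ f => ?_
  obtain ⟨π, ρ, -, -, h3, -, h5⟩ := (h.map f).or_equiv hs (hX.map f) (h'.map f) (hX'.map f) S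
  simp only [map_prod, nc_map]
  exact Finset.prod_equiv ρ (fun a => (h3 a).symm) fun a _ => nc_congr φ _ (h5 a)

/-- the point of the torus does not depend on the torus -/
theorem nt_eq (h : H.Tor χ e) (hs : Submodule.span ℤ (Set.range χ) = ⊤) (hX : H.Reg χ e X)
    {e' : (Fin r → ℤ) → Mat n A} (h' : H.Tor χ e') (hX' : H.Reg χ e' X) (c : σ → A)
    {w w' : ((Fin r → ℤ) →+ ℤ) → Aˣ} (hw : ∀ a ∈ OR χ S, (w a : A) = nc χ e φ c a)
    (hw' : ∀ a ∈ OR χ S, (w' a : A) = nc χ e' φ c a) : nt χ e' S w' = nt χ e S w := by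
  ext i j
  refine eq_of_loc (k := k) fun B _ _ _ f => ?_
  obtain ⟨π, ρ, h1, h2, h3, h4, h5⟩ := (h.map f).or_equiv hs (hX.map f) (h'.map f) (hX'.map f) S
  have key : (nt χ e' S w').map f = (nt χ e S w).map f := by
    rw [nt_map, nt_map]
    refine Finset.sum_equiv π (fun x => (h1 x).symm) fun x hx => ?_
    beta_reduce
    rw [h2 x hx]
    congr 2
    refine Finset.prod_equiv ρ (fun a => (h3 a).symm) fun a ha => ?_
    rw [h4 a x hx]
    congr 1
    refine Units.ext ?_
    change f (w' a) = f (w (ρ a))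
    rw [hw' a ha, hw _ ((h3 a).2 ha), nc_map, nc_map]
    exact nc_congr φ _ (h5 a)
  exact congrFun (congrFun key i) j

/-- the value of the product of cocharacters is a point of `G` -/
theorem exists_nt (h : H.Tor χ e) (w : ((Fin r → ℤ) →+ ℤ) → Aˣ) :
    ∃ g ∈ H.G A, (g : Mat n A) = nt χ e S w := by
  let θ : Multiplicative (Fin r → ℤ) →* Aˣ :=
    { toFun := fun x => ∏ a ∈ OR χ S, w a ^ a x.toAdd
      map_one' := by simp
      map_mul' := fun x y => by
        simp only [toAdd_mul, map_add, _root_.zpow_add, Finset.prod_mul_distrib] }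
  obtain ⟨g, hg, h1, -⟩ := h.tm.value θ
  exact ⟨g, hg, h1⟩

variable (D : H.Datum)

/-- `e` is a torus through the regular element with the coordinates `v ∘ inl`. -/
def Good (v : Fin (sN D.big.m) ⊕ σ → A) (e : (Fin D.r → ℤ) → Mat n A) : Prop :=
  H.Tor D.χ e ∧ H.Reg D.χ e (svec D.big.m fun l => v (Sum.inl l))

variable {D}

omit [Fintype σ] in
theorem Good.map {v : Fin (sN D.big.m) ⊕ σ → A} {e : (Fin D.r → ℤ) → Mat n A} (h : Good D v e)
    (f : A →ₐ[k] A') {v' : Fin (sN D.big.m) ⊕ σ → A'} (hv : ∀ s, f (v s) = v' s) :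
    Good D v' fun x => (e x).map f := by
  refine ⟨h.1.map f, ?_⟩
  have h2 := h.2.map f
  rw [svec_map] at h2
  simpa only [hv] using h2

omit [Fintype σ] in
theorem exists_good (v : Fin (sN D.big.m) ⊕ σ → A)
    (hΔ : IsUnit (H.Dlt D.r (svec D.big.m fun l => v (Sum.inl l)))) :
    ∃ (T : Type u) (_ : CommRing T) (_ : Algebra k T) (_ : Algebra A T) (_ : IsScalarTower k A T)
      (_ : Module.FaithfullyFlat A T) (e : (Fin D.r → ℤ) → Mat n T),
        Good D (fun s => algebraMap A T (v s)) e := by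
  obtain ⟨T, _, _, _, _, _, e, h1, h2⟩ := D.ext ⟨_, rfl⟩ hΔ
  refine ⟨T, inferInstance, inferInstance, inferInstance, inferInstance, inferInstance, e, h1, ?_⟩
  have h3 := svec_map D.big.m (IsScalarTower.toAlgHom k A T) fun l => v (Sum.inl l)
  rw [IsScalarTower.coe_toAlgHom'] at h3
  rw [h3] at h2
  exact h2

/-- the norm descends -/
theorem exists_norm (v : Fin (sN D.big.m) ⊕ σ → A)
    (hΔ : IsUnit (H.Dlt D.r (svec D.big.m fun l => v (Sum.inl l)))) :
    ∃ N₀ : A, ∀ (B : Type u) [CommRing B] [Algebra k B] (θ : A →ₐ[k] B)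
      (e : (Fin D.r → ℤ) → Mat n B), Good D (fun s => θ (v s)) e →
        θ N₀ = ∏ a ∈ OR D.χ S, nc D.χ e φ (fun s => θ (v (Sum.inr s))) a := by
  obtain ⟨T, _, _, _, _, _, e, he⟩ := exists_good v hΔ
  obtain ⟨N₀, hN⟩ := descend (k := k) (P := A)
    (∏ a ∈ OR D.χ S, nc D.χ e φ (fun s => algebraMap A T (v (Sum.inr s))) a)
    fun B _ _ f g hfg => by
      have h1 := he.map f fun _ => rfl
      have h2 := he.map g fun s => (hfg (v s)).symm
      simp only [map_prod, nc_map, ← hfg]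
      exact prod_nc_eq φ S h2.1 D.span h2.2 h1.1 h1.2 _
  refine ⟨N₀, fun B _ _ θ e' he' => ?_⟩
  obtain ⟨C, _, _, i, j, hi, hij⟩ := exists_push (T := T) θ
  apply hi
  have h1 := he.map j fun s => hij (v s)
  have h2 := he'.map i fun _ => rfl
  rw [← hij, hN]
  simp only [map_prod, nc_map, hij]
  exact prod_nc_eq φ S h2.1 D.span h2.2 h1.1 h1.2 _

/-- the point of the torus descends -/
theorem exists_tau (v : Fin (sN D.big.m) ⊕ σ → A)
    (hΔ : IsUnit (H.Dlt D.r (svec D.big.m fun l => v (Sum.inl l))))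
    (hN : ∀ (B : Type u) [CommRing B] [Algebra k B] (θ : A →ₐ[k] B)
      (e : (Fin D.r → ℤ) → Mat n B), Good D (fun s => θ (v s)) e →
        IsUnit (∏ a ∈ OR D.χ S, nc D.χ e φ (fun s => θ (v (Sum.inr s))) a)) :
    ∃ τ ∈ H.G A, ∀ (B : Type u) [CommRing B] [Algebra k B] (θ : A →ₐ[k] B)
      (e : (Fin D.r → ℤ) → Mat n B) (w : ((Fin D.r → ℤ) →+ ℤ) → Bˣ),
        Good D (fun s => θ (v s)) e →
        (∀ a ∈ OR D.χ S, (w a : B) = nc D.χ e φ (fun s => θ (v (Sum.inr s))) a) →
        ((gm θ τ : GL (Fin n) B) : Mat n B) = nt D.χ e S w := by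
  classical
  obtain ⟨T, _, _, _, _, _, e, he⟩ := exists_good v hΔ
  have hu := IsUnit.prod_iff.1 (hN T (IsScalarTower.toAlgHom k A T) e he)
  have hw : ∃ w : ((Fin D.r → ℤ) →+ ℤ) → Tˣ, ∀ a ∈ OR D.χ S,
      (w a : T) = nc D.χ e φ (fun s => algebraMap A T (v (Sum.inr s))) a :=
    ⟨fun a => if ha : a ∈ OR D.χ S then (hu a ha).unit else 1, fun a ha => by
      simp only [dif_pos ha, IsUnit.unit_spec]
      rfl⟩
  obtain ⟨w, hw⟩ := hw
  obtain ⟨g, hg, hgw⟩ := exists_nt S he.1 w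
  have hmap : ∀ (B : Type u) [CommRing B] [Algebra k B] (f : T →ₐ[k] B)
      (e' : (Fin D.r → ℤ) → Mat n B) (w' : ((Fin D.r → ℤ) →+ ℤ) → Bˣ),
      Good D (fun s => f (algebraMap A T (v s))) e' →
      (∀ a ∈ OR D.χ S, (w' a : B) = nc D.χ e' φ (fun s => f (algebraMap A T (v (Sum.inr s)))) a) →
      ((gm f g : GL (Fin n) B) : Mat n B) = nt D.χ e' S w' := by
    intro B _ _ f e' w' he' hw'
    have h1 := he.map f fun _ => rfl
    rw [gm_val, hgw, nt_map]
    refine nt_eq φ S he'.1 D.span he'.2 h1.1 h1.2 _ hw' fun a ha => ?_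
    rw [← nc_map, ← hw a ha]
    rfl
  have hfg : ∀ (B : Type u) [CommRing B] [Algebra k B] (f f' : T →ₐ[k] B),
      (∀ p, f (algebraMap A T p) = f' (algebraMap A T p)) → gm f g = gm f' g := by
    intro B _ _ f f' hf
    refine Units.ext ?_
    rw [hmap B f (fun x => (e x).map f') (fun a => Units.map (f' : T →* B) (w a))
      (he.map f' fun s => (hf (v s)).symm) fun a ha => ?_, gm_val, hgw, nt_map]
    simp only [hf]
    rw [← nc_map, ← hw a ha]
    rfl
  have hinj : Function.Injective (IsScalarTower.toAlgHom k A T) :=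
    FaithfulSMul.algebraMap_injective A T
  obtain ⟨τ, hτ⟩ := exists_gm_of_range (IsScalarTower.toAlgHom k A T) hinj g
    (fun i j => descend (k := k) (P := A) _ fun B _ _ f f' hf => by
      rw [← gm_apply, ← gm_apply, hfg B f f' hf])
    (fun i j => descend (k := k) (P := A) _ fun B _ _ f f' hf => by
      have h1 := congrArg (fun z : GL (Fin n) B => ((z⁻¹ : GL (Fin n) B) : Mat n B) i j)
        (hfg B f f' hf)
      exact h1)
  refine ⟨τ, HS.G_of_gm _ hinj (hτ ▸ hg), fun B _ _ θ e' w' he' hw' => ?_⟩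
  obtain ⟨C, _, _, i, j, hi, hij⟩ := exists_push (T := T) θ
  have h1 : gm i (gm θ τ) = gm j g := by
    rw [← hτ, gm_comp, gm_comp]
    congr 1
    congr 1
    exact AlgHom.ext fun p => (hij p).symm
  have h2 := hmap C j (fun x => (e' x).map i) (fun a => Units.map (i : B →* C) (w' a))
    (he'.map i fun s => (hij (v s)).symm) fun a ha => by
      simp only [hij]
      rw [← nc_map, ← hw' a ha]
      rfl
  rw [← h1, gm_val, ← nt_map] at h2
  exact Matrix.ext fun p q => hi (congrFun (congrFun h2 p) q)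

end UNorm

namespace HS

open UNorm

/-- NORM -/
theorem Datum.norm (D : H.Datum) (S : Finset ℤ) {σ : Type} [Fintype σ]
    (φ : σ → MvPolynomial (ℤ × Fin n × Fin n) k) :
    ∃ p : H.Param (Fin (sN D.big.m) ⊕ σ),
      ∀ (A : Type u) [CommRing A] [Algebra k A] (x : Fin (sN D.big.m) → A) (c : σ → A)
        (e : (Fin D.r → ℤ) → Mat n A) (w : ((Fin D.r → ℤ) →+ ℤ) → Aˣ),
        H.Tor D.χ e → H.Reg D.χ e (svec D.big.m x) →
        (∀ a ∈ OR D.χ S, (w a : A) = nc D.χ e φ c a) →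
        ∃ hv : IsUnit (MvPolynomial.aeval (Sum.elim x c) p.f),
          ((p.at (Sum.elim x c) hv : GL (Fin n) A) : Mat n A) = nt D.χ e S w := by
  set Δ : MvPolynomial (Fin (sN D.big.m) ⊕ σ) k :=
    H.Dlt D.r (svec D.big.m fun l => MvPolynomial.X (Sum.inl l)) with hΔ
  have hΔ' : ∀ (B : Type u) [CommRing B] [Algebra k B]
      (θ : MvPolynomial (Fin (sN D.big.m) ⊕ σ) k →ₐ[k] B),
      H.Dlt D.r (svec D.big.m fun l => θ (MvPolynomial.X (Sum.inl l))) = θ Δ := by
    intro B _ _ θ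
    rw [hΔ, ← Dlt_mapM, svec_map]
  obtain ⟨N₀, hN₀⟩ := exists_norm φ S (D := D) (A := Localization.Away Δ)
    (fun s => algebraMap (MvPolynomial _ k) _ (MvPolynomial.X s)) (by
      have h1 := hΔ' _ (IsScalarTower.toAlgHom k _ (Localization.Away Δ))
      rw [IsScalarTower.coe_toAlgHom'] at h1
      rw [h1]
      exact IsLocalization.Away.algebraMap_isUnit Δ)
  obtain ⟨j, N, hj⟩ := IsLocalization.Away.surj Δ N₀
  -- the value of `N` at a point
  have hval : ∀ (B : Type u) [CommRing B] [Algebra k B]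
      (θ : MvPolynomial (Fin (sN D.big.m) ⊕ σ) k →ₐ[k] B) (e : (Fin D.r → ℤ) → Mat n B),
      Good D (fun s => θ (MvPolynomial.X s)) e → IsUnit (θ Δ) ∧
        θ N = (∏ a ∈ OR D.χ S, nc D.χ e φ (fun s => θ (MvPolynomial.X (Sum.inr s))) a) *
          θ Δ ^ j := by
    intro B _ _ θ e he
    have hu : IsUnit (θ Δ) := hΔ' B θ ▸ he.2.unit
    have hl : ∀ p, IsLocalization.Away.liftAlgHom (S := Localization.Away Δ) Δ hu
        (algebraMap _ _ p) = θ p := fun p => IsLocalization.Away.lift_eq Δ hu p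
    refine ⟨hu, ?_⟩
    have h1 := hN₀ B (IsLocalization.Away.liftAlgHom (S := Localization.Away Δ) Δ hu) e
      (by simpa only [hl] using he)
    have h2 := congrArg (IsLocalization.Away.liftAlgHom (S := Localization.Away Δ) Δ hu) hj
    rw [map_mul, map_pow, hl, hl, h1] at h2
    simpa only [hl] using h2.symm
  have hf : IsUnit (algebraMap (MvPolynomial (Fin (sN D.big.m) ⊕ σ) k)
      (Localization.Away (Δ * N)) (Δ * N)) := IsLocalization.Away.algebraMap_isUnit _
  rw [map_mul] at hf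
  obtain ⟨τ, hτ, hτ'⟩ := exists_tau φ S (D := D) (A := Localization.Away (Δ * N))
    (fun s => algebraMap (MvPolynomial _ k) _ (MvPolynomial.X s)) (by
      have h1 := hΔ' _ (IsScalarTower.toAlgHom k _ (Localization.Away (Δ * N)))
      rw [IsScalarTower.coe_toAlgHom'] at h1
      rw [h1]
      exact isUnit_of_mul_isUnit_left hf)
    (fun B _ _ θ e he => by
      have h1 := (hval B (θ.comp (IsScalarTower.toAlgHom k _ _)) e he).2
      have h2 : IsUnit (θ.comp (IsScalarTower.toAlgHom k _ _) N) :=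
        (isUnit_of_mul_isUnit_right hf).map θ
      rw [h1] at h2
      exact isUnit_of_mul_isUnit_left h2)
  refine ⟨⟨Δ * N, τ, hτ⟩, fun A _ _ x c e w h1 h2 hw => ?_⟩
  have he : Good D (fun s => MvPolynomial.aeval (R := k) (Sum.elim x c) (MvPolynomial.X s)) e := by
    simp only [MvPolynomial.aeval_X]
    exact ⟨h1, h2⟩
  obtain ⟨hu, hN⟩ := hval A _ e he
  have hv : IsUnit (MvPolynomial.aeval (Sum.elim x c) (Δ * N)) := by
    rw [map_mul, hN]
    refine hu.mul (IsUnit.mul (IsUnit.prod_iff.2 fun a ha => ?_) (hu.pow j))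
    simp only [MvPolynomial.aeval_X, Sum.elim_inr]
    rw [← hw a ha]
    exact (w a).isUnit
  refine ⟨hv, ?_⟩
  have hl : ∀ p, IsLocalization.Away.liftAlgHom (S := Localization.Away (Δ * N)) (Δ * N)
      (f := MvPolynomial.aeval (Sum.elim x c)) hv (algebraMap _ _ p) =
        MvPolynomial.aeval (Sum.elim x c) p := fun p => IsLocalization.Away.lift_eq _ hv p
  refine hτ' A _ e w (by simpa only [hl] using he) fun a ha => ?_
  simp only [hl, MvPolynomial.aeval_X, Sum.elim_inr]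
  exact hw a ha

end HS

end Pool.Agent.GR
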