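import Pool.Agent.P.MP_c1f06d_ag.r.UCJ
import Pool.Agent.P.MP_c1f06d_ag.r.TInv

open Matrix

universe u

namespace Pool.Agent.GR

variable {k : Type u} [Field k] {n r : ℕ} {H : HS k n} {A : Type u} [CommRing A] [Algebra k A]
  {A' : Type u} [CommRing A'] [Algebra k A'] {χ : Fin n → Fin r → ℤ}
  {e : (Fin r → ℤ) → Mat n A} {X : Mat n A}

/-! SURJ. -/

theorem sum_smul_map (f : A →ₐ[k] A') {q : ℕ} (y : Fin q → A) (C : Fin q → Mat n A) :
    (∑ i, y i • C i).map f = ∑ i, f (y i) • (C i).map f := by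
  ext a b
  simp only [map_apply, Matrix.sum_apply, Matrix.smul_apply, smul_eq_mul, map_sum, map_mul]

theorem brk_sub_right (X Y Z : Mat n A) : brk X (Y - Z) = brk X Y - brk X Z := by
  simp only [brk, mul_sub, sub_mul]
  abel

theorem brk_iter_sub (X Y Z : Mat n A) (i : ℕ) :
    (brk X)^[i] (Y - Z) = (brk X)^[i] Y - (brk X)^[i] Z := by
  induction i with
  | zero => rfl
  | succ i ih => simp only [Function.iterate_succ_apply', ih, brk_sub_right]

theorem pi0_brk_iter {ι : Type} {S : Finset ι} {E : ι → Mat n A}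
    (hX : ∀ a ∈ S, X * E a = E a * X) (ξ : Mat n A) (i : ℕ) :
    pi0 S E ((brk X)^[i] ξ) = (brk X)^[i] (pi0 S E ξ) := by
  induction i with
  | zero => rfl
  | succ i ih => simp only [Function.iterate_succ_apply', pi0_brk hX, ih]

/-- `ad X` as a linear map. -/
def brkL (X : Mat n A) : Mat n A →ₗ[A] Mat n A := (isLin_ad X).mk' _

theorem brkL_pow (X ξ : Mat n A) (i : ℕ) : (brkL X ^ i) ξ = (brk X)^[i] ξ := by
  rw [Module.End.pow_apply]
  rfl

namespace HS

theorem Datum.es_map (D : H.Datum) (ι : D.l →ₐ[k] A) (f : A →ₐ[k] A') (x : Fin D.r → ℤ) :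
    (D.es ι x).map f = D.es (f.comp ι) x := by
  have e1 : (eps A D.χ x).map f = eps A' D.χ x := by
    ext i j
    simp only [eps, map_apply, diagonal_apply]
    split_ifs <;> simp
  have := cj_map f (gm ι D.γ) (eps A D.χ x)
  rw [e1, gm_comp] at this
  exact this

theorem Big.Cc.mapM {M : H.Big} (h : M.Cc χ e X) (f : A →ₐ[k] A') :
    M.Cc χ (fun x => (e x).map f) (X.map f) :=
  ⟨h.1.map f, fun x hx => by rw [← mapM_mul, ← mapM_mul, h.2 x hx]⟩

/-- The centraliser of the torus in `m`. -/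
def Big.ccS (M : H.Big) (χ : Fin n → Fin r → ℤ) (e : (Fin r → ℤ) → Mat n A) :
    Submodule A (Mat n A) where
  carrier := {Y | M.Cc χ e Y}
  zero_mem' := ⟨mem_sp.1 (sp M.m A).zero_mem, fun x _ => by rw [zero_mul, mul_zero]⟩
  add_mem' := fun {a b} ha hb => ⟨mem_sp.1 ((sp M.m A).add_mem (mem_sp.2 ha.1) (mem_sp.2 hb.1)),
    fun x hx => by rw [add_mul, mul_add, ha.2 x hx, hb.2 x hx]⟩
  smul_mem' := fun c a ha => ⟨mem_sp.1 ((sp M.m A).smul_mem c (mem_sp.2 ha.1)),
    fun x hx => by rw [Matrix.smul_mul, Matrix.mul_smul, ha.2 x hx]⟩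

theorem Tor.cc_pi0 (h : H.Tor χ e) (M : H.Big) {Z : Mat n A} (hZ : InS M.m Z) :
    M.Cc χ e (pi0 (XX χ) e Z) :=
  ⟨(h.tm.pi0_big M hZ).2, h.tm.1.pi0_comm Z⟩

theorem exists_basis_fun {W : Type u} [Field W] (c : Submodule W (Mat n W)) :
    ∃ (q : ℕ) (C : Fin q → Mat n W), (∀ i, C i ∈ c) ∧
      ∀ Y ∈ c, ∃ y : Fin q → W, Y = ∑ i, y i • C i := by
  refine ⟨Module.finrank W c, fun i => (Module.finBasis W c i : Mat n W), fun i => Subtype.prop _,
    fun Y hY => ⟨(Module.finBasis W c).repr ⟨Y, hY⟩, ?_⟩⟩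
  have := congrArg Subtype.val ((Module.finBasis W c).sum_repr ⟨Y, hY⟩)
  simp only [Submodule.coe_sum, Submodule.coe_smul] at this
  exact this.symm

/-- the space of pairs for the centraliser of the standard torus -/
theorem Datum.exists_std (D : H.Datum) (W : Type u) [Field W] [Algebra k W] (ι : D.l →ₐ[k] W) :
    ∃ (q : ℕ) (C : Fin q → Mat n W) (s : MvPolynomial (Fin q) W), s ≠ 0 ∧
      (∀ i, D.big.Cc D.χ (D.es ι) (C i)) ∧
      (∀ (A : Type u) [CommRing A] [Algebra k A] [Algebra W A] [IsScalarTower k W A],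
        (∀ y : Fin q → A, MvPolynomial.aeval y s =
          H.Dlt D.r (∑ i, y i • (C i).map (algebraMap W A))) ∧
        ∀ Y : Mat n A, D.big.Cc D.χ (D.es ((IsScalarTower.toAlgHom k W A).comp ι)) Y →
          ∃ y : Fin q → A, Y = ∑ i, y i • (C i).map (algebraMap W A)) ∧
      Nonempty (CJ D.big W C s) := by
  obtain ⟨q, C, hC, hCs⟩ := exists_basis_fun (D.big.ccS D.χ (D.es ι))
  set s : MvPolynomial (Fin q) W := H.Dlt D.r (∑ i, (MvPolynomial.X i : MvPolynomial (Fin q) W) •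
    (C i).map (algebraMap W (MvPolynomial (Fin q) W))) with hs
  have h1 : ∀ (A : Type u) [CommRing A] [Algebra k A] [Algebra W A] [IsScalarTower k W A]
      (y : Fin q → A), MvPolynomial.aeval y s =
        H.Dlt D.r (∑ i, y i • (C i).map (algebraMap W A)) := by
    intro A _ _ _ _ y
    have := H.Dlt_mapM ((MvPolynomial.aeval (R := W) y).restrictScalars k) D.r
      (∑ i, (MvPolynomial.X i : MvPolynomial (Fin q) W) •
        (C i).map (algebraMap W (MvPolynomial (Fin q) W)))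
    rw [sum_smul_map] at this
    refine Eq.trans this.symm (congrArg _ (Finset.sum_congr rfl fun i _ => ?_))
    congr 1
    · exact MvPolynomial.aeval_X y i
    · ext a b
      exact (MvPolynomial.aeval (R := W) y).commutes _
  have h2 : ∀ (A : Type u) [CommRing A] [Algebra k A] [Algebra W A] [IsScalarTower k W A]
      (Y : Mat n A), D.big.Cc D.χ (D.es ((IsScalarTower.toAlgHom k W A).comp ι)) Y →
        ∃ y : Fin q → A, Y = ∑ i, y i • (C i).map (algebraMap W A) := by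
    intro A _ _ _ _ Y hY
    have hT := D.tor_es ((IsScalarTower.toAlgHom k W A).comp ι)
    have hm : Y ∈ Submodule.span A (Set.range fun i => (C i).map (algebraMap W A)) := by
      rw [← hT.tm.1.pi0_eq hY.2]
      obtain ⟨x, rfl⟩ := hY.1
      have e1 := map_sum ((isLin_pi0 (XX D.χ)
        (D.es ((IsScalarTower.toAlgHom k W A).comp ι))).mk' _)
        (fun l => x l • sbas D.big.m A l) Finset.univ
      simp only [IsLinearMap.mk'_apply, map_smul] at e1
      rw [svec, e1]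
      refine Submodule.sum_mem _ fun l _ => Submodule.smul_mem _ _ ?_
      have hb : InS D.big.m (sbas D.big.m W l) := mem_sp.1 (Submodule.subset_span ⟨l, rfl⟩)
      obtain ⟨c, hc⟩ := hCs _ ((D.tor_es ι).cc_pi0 D.big hb)
      have e2 := pi0_map (XX D.χ) (D.es ι) (IsScalarTower.toAlgHom k W A) (sbas D.big.m W l)
      rw [sbas_map, hc, sum_smul_map] at e2
      simp only [D.es_map] at e2
      rw [← e2]
      exact Submodule.sum_mem _ fun i _ => Submodule.smul_mem _ _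
        (Submodule.subset_span ⟨i, rfl⟩)
    obtain ⟨y, hy⟩ := (Submodule.mem_span_range_iff_exists_fun A).1 hm
    exact ⟨y, hy.symm⟩
  refine ⟨q, C, s, ?_, hC, fun A _ _ _ _ => ⟨h1 A, h2 A⟩, ?_⟩
  · obtain ⟨Y, hY, hu⟩ := D.reg_es ι
    obtain ⟨y, rfl⟩ := hCs Y hY
    intro h0
    have := h1 W y
    rw [h0, map_zero] at this
    exact hu.ne_zero this.symm
  · refine D.big.exists_cj W C (fun i => (hC i).1) s fun A _ _ _ _ y hy Z hZ => ?_
    have hT := D.tor_es ((IsScalarTower.toAlgHom k W A).comp ι)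
    have hY : D.big.Cc D.χ (D.es ((IsScalarTower.toAlgHom k W A).comp ι))
        (∑ i, y i • (C i).map (algebraMap W A)) := by
      refine (D.big.ccS D.χ _).sum_mem fun i _ => (D.big.ccS D.χ _).smul_mem _ ?_
      have := (hC i).mapM (IsScalarTower.toAlgHom k W A)
      simp only [D.es_map] at this
      exact this
    rw [h1] at hy
    obtain ⟨η, hη, hZ'⟩ := hT.span_big D.span (hY.reg hy) D.big hZ
    obtain ⟨y', hy'⟩ := h2 A _ (hT.cc_pi0 D.big hZ)
    exact ⟨y', η, hη, by rw [← hy']; exact hZ'⟩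

/-- The generalised kernel of `ad X` on the Lie algebra. -/
def gk (H : HS k n) (X : Mat n A) : Submodule A (Mat n A) :=
  H.gA A ⊓ Module.End.maxGenEigenspace (brkL X) 0

theorem mem_gk {ξ : Mat n A} : ξ ∈ H.gk X ↔ H.InLie ξ ∧ ∃ i, (brk X)^[i] ξ = 0 := by
  rw [gk, Submodule.mem_inf, mem_gA, Module.End.mem_maxGenEigenspace]
  simp only [zero_smul, sub_zero, brkL_pow]

theorem le_finrank_gk {F : Type u} [Field F] [Algebra k F] {X : Mat n F} (hX : H.Nrm X) {j : ℕ}
    (hj : ∀ i < j, H.Dlt i X = 0) : j ≤ Module.finrank F (H.gk X) := by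
  set φ : Module.End F (Fin H.N → F) := (H.opM (brkL X)).mulVecLin with hφ
  have h1 : j ≤ Module.finrank F (φ.maxGenEigenspace 0) := by
    rw [LinearMap.finrank_maxGenEigenspace_zero_eq, hφ, Matrix.charpoly_mulVecLin]
    exact Polynomial.le_natTrailingDegree (Matrix.charpoly_monic _).ne_zero hj
  have h2 : ∀ (i : ℕ) (x : Fin H.N → F), H.vec ((φ ^ i) x) = (brk X)^[i] (H.vec x) := by
    intro i x
    induction i with
    | zero => rfl
    | succ i ih =>
      rw [pow_succ', Module.End.mul_apply, Function.iterate_succ_apply', ← ih]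
      exact opM_vec (brkL X) hX _
  have hinj : Function.Injective (gvec H.vec0 F) := fun a b hab => by
    rw [← H.crd_vec a, ← H.crd_vec b]
    exact congrArg H.crd hab
  refine h1.trans ?_
  rw [(Submodule.equivMapOfInjective _ hinj (φ.maxGenEigenspace 0)).finrank_eq]
  refine Submodule.finrank_mono ?_
  rintro _ ⟨x, hx, rfl⟩
  obtain ⟨i, hi⟩ := (Module.End.mem_maxGenEigenspace _ _ _).1 hx
  rw [zero_smul, sub_zero] at hi
  exact mem_gk.2 ⟨H.inLie_vec x, i, by rw [← vec_eqg, ← h2, hi, vec_zero]⟩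

theorem Tor.Dlt_eq_zero [IsDomain A] (h : H.Tor χ e) (hs : Submodule.span ℤ (Set.range χ) = ⊤)
    (hX : H.Nrm X) (hc : ∀ x ∈ XX χ, X * e x = e x * X) {j : ℕ} (hj : j < r) : H.Dlt j X = 0 := by
  let f := IsScalarTower.toAlgHom k A (FractionRing A)
  refine IsFractionRing.injective A (FractionRing A) ?_
  rw [map_zero]
  by_contra h0
  have h0' : H.Dlt j (X.map f) ≠ 0 := by
    rw [Dlt_mapM]
    exact h0
  obtain ⟨t, ht, ht'⟩ := (h.map f).exists_t hs
  have := finrank_genker_le (hX.map f) h0' t fun ξ hξ => by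
    obtain ⟨c, rfl⟩ := (ht' ξ).1 hξ
    refine ⟨(h.map f).tt_inLie c, 1, brk_tt (fun x hx => ?_) c⟩
    rw [← mapM_mul, ← mapM_mul, hc x hx]
  omega

theorem CJ.inj {M : H.Big} {W : Type u} [Field W] [Algebra k W] {q : ℕ} {C : Fin q → Mat n W}
    {s : MvPolynomial (Fin q) W} (T : CJ M W C s) [IsDomain T.T] : Function.Injective
      (MvPolynomial.aeval (R := W)
        (scrd M.m (cj T.g (∑ i, T.y i • (C i).map (algebraMap W T.T))))) :=
  inj_of_flat _ T.flat

theorem CJ.inS {M : H.Big} {W : Type u} [Field W] [Algebra k W] {q : ℕ} {C : Fin q → Mat n W}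
    (hC : ∀ i, InS M.m (C i)) {A : Type u} [CommRing A] [Algebra k A] [Algebra W A]
    [IsScalarTower k W A] (y : Fin q → A) :
    InS M.m (∑ i, y i • (C i).map (algebraMap W A)) :=
  mem_sp.1 ((sp M.m A).sum_mem fun i _ => (sp M.m A).smul_mem _
    (mem_sp.2 ((hC i).map (IsScalarTower.toAlgHom k W A))))

theorem CJ.value {M : H.Big} {W : Type u} [Field W] [Algebra k W] {q : ℕ} {C : Fin q → Mat n W}
    {s : MvPolynomial (Fin q) W} (T : CJ M W C s) (p : T.T →ₐ[W] W) (l : Fin (sN M.m)) :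
    p.comp (MvPolynomial.aeval (R := W)
        (scrd M.m (cj T.g (∑ i, T.y i • (C i).map (algebraMap W T.T))))) (MvPolynomial.X l) =
      scrd M.m (cj (gm (p.restrictScalars k) T.g) (∑ i, p (T.y i) • C i)) l := by
  rw [AlgHom.comp_apply, MvPolynomial.aeval_X]
  have := scrd_map M.m (p.restrictScalars k)
    (cj T.g (∑ i, T.y i • (C i).map (algebraMap W T.T))) l
  rw [cj_map, sum_smul_map] at this
  refine Eq.trans this.symm ?_
  congr 3
  funext i
  congr 1
  ext a b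
  exact p.commutes _

theorem Datum.Dlt_lt (D : H.Datum) {W : Type u} [Field W] [Algebra k W] (ι : D.l →ₐ[k] W)
    {Z : Mat n W} (hZ : InS D.big.m Z) {j : ℕ} (hj : j < D.r) : H.Dlt j Z = 0 := by
  obtain ⟨q, C, s, hs, hC, -, ⟨T⟩⟩ := D.exists_std W ι
  have := T.dom (D.prime W ι) hs
  set P : MvPolynomial (Fin (sN D.big.m)) W := H.Dlt j (svec D.big.m MvPolynomial.X) with hP
  have h1 : ∀ (A : Type u) [CommRing A] [Algebra k A] [Algebra W A] [IsScalarTower k W A]
      (Y : Mat n A), InS D.big.m Y → MvPolynomial.aeval (scrd D.big.m Y) P = H.Dlt j Y := by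
    intro A _ _ _ _ Y hY
    have := H.Dlt_mapM ((MvPolynomial.aeval (R := W) (scrd D.big.m Y)).restrictScalars k) j
      (svec D.big.m (MvPolynomial.X : _ → MvPolynomial (Fin (sN D.big.m)) W))
    rw [svec_map] at this
    refine Eq.trans this.symm (congrArg _ ?_)
    refine Eq.trans (congrArg _ (funext fun l => ?_)) hY.svec_scrd
    exact MvPolynomial.aeval_X _ l
  have hY := CJ.inS (A := T.T) (fun i => (hC i).1) T.y
  have hP0 : P = 0 := by
    refine T.inj ?_
    rw [map_zero, h1 _ _ (D.big.inS_cj T.mem hY), Dlt_cj (D.big.nrm hY) T.mem]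
    refine (D.tor_es ((IsScalarTower.toAlgHom k W T.T).comp ι)).Dlt_eq_zero D.span
      (D.big.nrm hY) ?_ hj
    have hc : D.big.Cc D.χ (D.es ((IsScalarTower.toAlgHom k W T.T).comp ι))
        (∑ i, T.y i • (C i).map (algebraMap W T.T)) := by
      refine (D.big.ccS D.χ _).sum_mem fun i _ => (D.big.ccS D.χ _).smul_mem _ ?_
      have := (hC i).mapM (IsScalarTower.toAlgHom k W T.T)
      simp only [D.es_map] at this
      exact this
    exact hc.2
  rw [← h1 W Z hZ, hP0, map_zero]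

attribute [local instance 100] LieRing.ofAssociativeRing

/-- The space `m` over a field, as a Lie algebra. -/
noncomputable def Big.lieS (M : H.Big) (F : Type u) [Field F] [Algebra k F] :
    LieSubalgebra F (Mat n F) :=
  { sp M.m F with
    lie_mem' := fun {_ _} hx hy =>
      mem_sp.2 (M.inS_of_inLie (M.brk_inLie (mem_sp.1 hx) (mem_sp.1 hy))) }

theorem Big.mem_engel (M : H.Big) {F : Type u} [Field F] [Algebra k F] (x y : M.lieS F) :
    y ∈ LieSubalgebra.engel F x ↔ ∃ i, (brk (x : Mat n F))^[i] (y : Mat n F) = 0 := by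
  rw [LieSubalgebra.mem_engel_iff]
  refine exists_congr fun i => ?_
  have : ∀ i : ℕ, (((LieAlgebra.ad F (M.lieS F) x ^ i) y : M.lieS F) : Mat n F) =
      (brk (x : Mat n F))^[i] (y : Mat n F) := by
    intro i
    induction i with
    | zero => rfl
    | succ i ih =>
      rw [pow_succ', Module.End.mul_apply, Function.iterate_succ_apply', ← ih]
      rfl
  rw [← this, ZeroMemClass.coe_eq_zero]

theorem Datum.engel_le (D : H.Datum) {F : Type u} [Field F] [Algebra k F] [Infinite F]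
    (ι : D.l →ₐ[k] F) {X X' : Mat n F} (hX : InS D.big.m X) (hΔ : H.Dlt D.r X ≠ 0)
    (hX' : InS D.big.m X') (h : ∃ i, (brk X)^[i] X' = 0) : ∃ i, (brk X')^[i] X = 0 := by
  let L := D.big.lieS F
  let x : L := ⟨X, mem_sp.2 hX⟩
  let x' : L := ⟨X', mem_sp.2 hX'⟩
  have : Module.Finite F L := Module.Finite.of_injective
    (L.toSubmodule.subtype) Subtype.val_injective
  have hb := LieAlgebra.engel_isBot_of_isMin (K := F) (L := L)
    ((Cardinal.natCast_lt_aleph0.le).trans (Cardinal.aleph0_le_mk F))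
    (LieSubalgebra.engel F x) ⟨LieSubalgebra.engel F x, x, LieSubalgebra.self_mem_engel _ _, rfl⟩
    le_rfl (by
      rintro ⟨_, y, hy, rfl⟩ hyx Y hY
      have hyx' : LieSubalgebra.engel F y ≤ LieSubalgebra.engel F x := hyx
      have hle : H.gk (y : Mat n F) ≤ H.gk X := by
        intro ξ hξ
        obtain ⟨h1, h2⟩ := mem_gk.1 hξ
        exact mem_gk.2 ⟨h1, (D.big.mem_engel x ⟨ξ, mem_sp.2 (D.big.inS_of_inLie h1)⟩).1
          (hyx' ((D.big.mem_engel y _).2 h2))⟩
      have heq : H.gk (y : Mat n F) = H.gk X := Submodule.eq_of_le_of_finrank_le hle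
        ((finrank_genker_le (D.big.nrm hX) hΔ _ fun ξ hξ => mem_gk.1 hξ).trans
          (le_finrank_gk (D.big.nrm (mem_sp.1 y.2)) fun i hi => D.Dlt_lt ι (mem_sp.1 y.2) hi))
      have h3 : brk (y : Mat n F) (Y : Mat n F) ∈ H.gk X :=
        mem_gk.2 ⟨D.big.brk_inLie (mem_sp.1 y.2) (mem_sp.1 Y.2),
          (D.big.mem_engel x ⁅y, Y⁆).1 ((LieSubalgebra.engel F x).lie_mem hy hY)⟩
      rw [← heq] at h3
      obtain ⟨i, hi⟩ := (mem_gk.1 h3).2
      exact (D.big.mem_engel y Y).2 ⟨i + 1, hi⟩)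
  have hle : LieSubalgebra.engel F x ≤ LieSubalgebra.engel F x' :=
    @hb ⟨LieSubalgebra.engel F x', x', (D.big.mem_engel x x').2 h, rfl⟩
  exact (D.big.mem_engel x' x).1 (hle (LieSubalgebra.self_mem_engel _ _))

/-- Fitting decomposition of `m`. -/
theorem Big.fitting (M : H.Big) {F : Type u} [Field F] [Algebra k F] {X Z : Mat n F}
    (hX : InS M.m X) (hZ : InS M.m Z) : ∃ Z₀ η, InS M.m Z₀ ∧ (∃ i, (brk X)^[i] Z₀ = 0) ∧
      H.InLie η ∧ Z = Z₀ + brk η X := by
  have hm : ∀ Y ∈ sp M.m F, brkL X Y ∈ sp M.m F := fun Y hY =>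
    mem_sp.2 (M.inS_of_inLie (M.brk_inLie hX (mem_sp.1 hY)))
  set φ : Module.End F (sp M.m F) := (brkL X).restrict hm with hφ
  have hp : ∀ (i : ℕ) (Y : sp M.m F), ((φ ^ i) Y : Mat n F) = (brk X)^[i] Y := by
    intro i Y
    induction i with
    | zero => rfl
    | succ i ih =>
      rw [pow_succ', Module.End.mul_apply, Function.iterate_succ_apply', ← ih]
      rfl
  obtain ⟨N, hN, hN2⟩ := ((LinearMap.eventually_codisjoint_ker_pow_range_pow φ).and
    (Filter.eventually_ge_atTop 2)).exists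
  obtain ⟨N, rfl⟩ := Nat.exists_eq_add_of_le' hN2
  have hmem : (⟨Z, mem_sp.2 hZ⟩ : sp M.m F) ∈
      LinearMap.ker (φ ^ (N + 2)) ⊔ LinearMap.range (φ ^ (N + 2)) := by
    rw [codisjoint_iff.1 hN]
    trivial
  obtain ⟨a, ha, _, ⟨b, rfl⟩, hab⟩ := Submodule.mem_sup.1 hmem
  refine ⟨a, -brk X ((φ ^ N) b : Mat n F), mem_sp.1 a.2, ⟨N + 2, ?_⟩,
    (M.brk_inLie hX (mem_sp.1 ((φ ^ N) b).2)).neg, ?_⟩
  · rw [← hp, LinearMap.mem_ker.1 ha]
    rfl
  · have := congrArg Subtype.val hab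
    rw [Submodule.coe_add, hp, Function.iterate_succ_apply', Function.iterate_succ_apply',
      ← hp] at this
    refine Eq.trans this.symm (congrArg _ ?_)
    simp only [brk, neg_mul, mul_neg]
    abel

theorem Datum.surj (D : H.Datum) {Ω : Type u} [Field Ω] [Algebra k Ω] [IsAlgClosed Ω]
    (ι : D.l →ₐ[k] Ω) {X : Mat n Ω} (hX : InS D.big.m X) (hΔ : H.Dlt D.r X ≠ 0) :
    ∃ g ∈ H.G Ω, ∀ x ∈ XX D.χ, X * cj g (D.es ι x) = cj g (D.es ι x) * X := by
  obtain ⟨q, C, s, hs, hC, hA, ⟨T⟩⟩ := D.exists_std Ω ι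
  obtain ⟨q', C', hC', hCs'⟩ := exists_basis_fun
    (sp D.big.m Ω ⊓ Module.End.maxGenEigenspace (brkL X) 0)
  have hmem : ∀ Y : Mat n Ω, Y ∈ sp D.big.m Ω ⊓ Module.End.maxGenEigenspace (brkL X) 0 ↔
      InS D.big.m Y ∧ ∃ i, (brk X)^[i] Y = 0 := fun Y => by
    rw [Submodule.mem_inf, mem_sp, Module.End.mem_maxGenEigenspace]
    simp only [zero_smul, sub_zero, brkL_pow]
  obtain ⟨y₀, hy₀⟩ := hCs' X ((hmem X).2 ⟨hX, 1, sub_self _⟩)
  have hC1 : ∀ i, InS D.big.m (C' i) := fun i => ((hmem _).1 (hC' i)).1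
  obtain ⟨s', hs1, hs2⟩ := D.big.exists_open Ω C' hC1 y₀ (by
    rw [← hy₀]
    intro Z hZ
    obtain ⟨Z₀, η, h1, h2, h3, h4⟩ := D.big.fitting hX hZ
    obtain ⟨y, hy⟩ := hCs' Z₀ ((hmem _).2 ⟨h1, h2⟩)
    exact ⟨y, η, h3, by rw [← hy]; exact h4⟩)
  obtain ⟨T'⟩ := D.big.exists_cj Ω C' hC1 s' hs2
  have := T.dom (D.prime Ω ι) hs
  have := T'.dom (D.prime Ω ι) (by
    rintro rfl
    rw [map_zero] at hs1
    exact zero_ne_one hs1)
  have := T.ft
  have := T'.ft
  obtain ⟨p, p', hp⟩ := meet _ _ T.inj T'.inj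
  set g₁ := gm (p.restrictScalars k) T.g with hg₁
  set g₂ := gm (p'.restrictScalars k) T'.g with hg₂
  have m₁ : g₁ ∈ H.G Ω := H.G_map _ T.mem
  have m₂ : g₂ ∈ H.G Ω := H.G_map _ T'.mem
  have hY : D.big.Cc D.χ (D.es ι) (∑ i, p (T.y i) • C i) :=
    (D.big.ccS D.χ _).sum_mem fun i _ => (D.big.ccS D.χ _).smul_mem _ (hC i)
  have hX' := (hmem (∑ i, p' (T'.y i) • C' i)).1
    (Submodule.sum_mem _ fun i _ => Submodule.smul_mem _ _ (hC' i))
  have he : cj g₁ (∑ i, p (T.y i) • C i) = cj g₂ (∑ i, p' (T'.y i) • C' i) := by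
    rw [← (D.big.inS_cj m₁ hY.1).svec_scrd, ← (D.big.inS_cj m₂ hX'.1).svec_scrd]
    refine congrArg _ (funext fun l => ?_)
    rw [hg₁, hg₂, ← T.value, ← T'.value, hp]
  have hu : IsUnit (H.Dlt D.r (∑ i, p (T.y i) • C i)) := by
    have h1 := (hA Ω).1 fun i => p (T.y i)
    have h2 := T.unit.map p
    rw [← AlgHom.comp_apply, MvPolynomial.comp_aeval] at h2
    exact h1 ▸ h2
  have mg : g₂⁻¹ * g₁ ∈ H.G Ω := (H.G Ω).mul_mem ((H.G Ω).inv_mem m₂) m₁
  have hR := (hY.reg hu).cj mg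
  rw [← cj_cj, he, cj_inv_cj] at hR
  have hT := (D.tor_es ι).cj mg
  refine ⟨g₂⁻¹ * g₁, mg, fun x hx => ?_⟩
  obtain ⟨i, hi⟩ := D.engel_le ι hX hΔ hX'.1 hX'.2
  obtain ⟨c, hc⟩ := hT.genker D.span hR (hT.tm.pi0_big D.big hX).1 (i := i) (by
    rw [brk_iter_sub, ← pi0_brk_iter hR.comm, hi, (isLin_pi0 _ _).map_zero, sub_zero])
  rw [sub_eq_iff_eq_add] at hc
  have h1 := hT.tm.1.tt_comm c x hx
  have h2 := hT.tm.1.pi0_comm X x hx
  conv_lhs => rw [hc]
  conv_rhs => rw [hc]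
  rw [add_mul, mul_add, h1, h2]

end HS

end Pool.Agent.GR
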