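import Pool.Agent.P.MP_c1f06d_ag.PresEx
import Pool.Agent.P.MP_c1f06d_ag.ValO
import Pool.Agent.P.MP_c1f06d_ag.Dom

open Polynomial IsLocalRing

universe u

namespace Pool.Agent.GR.Vers

open Pool.Agent.P.MP_c1f06d_ag

/-- contents with respect to a basis -/
theorem exists_content {V P ι : Type*} [CommRing V] [IsDomain V] [ValuationRing V] [CommRing P]
    [Algebra V P] (b : Module.Basis ι V P) (w : P) (hw : w ≠ 0) :
    ∃ (c : V) (w0 : P) (i : ι), c ≠ 0 ∧ w = algebraMap V P c * w0 ∧ b.repr w0 i = 1 := by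
  classical
  have h0 : b.repr w ≠ 0 := fun h => hw (b.repr.map_eq_zero_iff.1 h)
  obtain ⟨i, hi, h⟩ := valo_min (fun i => b.repr w i) (b.repr w).support
    (Finsupp.support_nonempty_iff.2 h0)
  have hc : b.repr w i ≠ 0 := Finsupp.mem_support_iff.1 hi
  have hd : ∀ j, ∃ d, b.repr w j = b.repr w i * d := fun j => by
    by_cases hj : j ∈ (b.repr w).support
    · exact h j hj
    · exact ⟨0, by rw [Finsupp.notMem_support_iff.1 hj, mul_zero]⟩
  choose d hd using hd
  have e : w = algebraMap V P (b.repr w i) * ∑ j ∈ (b.repr w).support, d j • b j := by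
    rw [← Algebra.smul_def, Finset.smul_sum]
    conv_lhs => rw [← b.linearCombination_repr w, Finsupp.linearCombination_apply, Finsupp.sum]
    exact Finset.sum_congr rfl fun j _ => by rw [smul_smul, ← hd]
  refine ⟨_, _, i, hc, e, mul_left_cancel₀ hc ?_⟩
  have := congrArg (fun x => b.repr x i) e
  simp only [← Algebra.smul_def, map_smul, Finsupp.smul_apply, smul_eq_mul] at this
  rw [← this, mul_one]

theorem gauss_dom {V P ι : Type*} [CommRing V] [IsDomain V] [ValuationRing V] [CommRing P]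
    [Algebra V P] (b : Module.Basis ι V P) (q : Ideal P) [hq : q.IsPrime]
    (h : ∀ w i, b.repr w i = 1 → w ∉ q) : IsDomain P := by
  have : Nontrivial P := Ideal.Quotient.nontrivial_iff.2 hq.ne_top |> fun _ =>
    ⟨0, 1, fun e => hq.ne_top ((Ideal.eq_top_iff_one q).2 (e ▸ q.zero_mem))⟩
  have : NoZeroDivisors P := ⟨fun {x y} hxy => by
    by_contra hn
    rw [not_or] at hn
    obtain ⟨c, x0, i, hc, rfl, hx⟩ := exists_content b x hn.1
    obtain ⟨c', y0, j, hc', rfl, hy⟩ := exists_content b y hn.2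
    have h1 : x0 * y0 ≠ 0 := fun e =>
      (hq.mem_or_mem (e ▸ q.zero_mem)).elim (h _ _ hx) (h _ _ hy)
    obtain ⟨c2, z, l, hc2, e, hz⟩ := exists_content b _ h1
    have h2 : (c * c' * c2) • z = 0 := by
      rw [Algebra.smul_def, map_mul, map_mul, mul_assoc, ← e]
      linear_combination hxy
    have h3 := congrArg (fun x => b.repr x l) h2
    simp only [map_smul, Finsupp.smul_apply, hz, smul_eq_mul, mul_one, map_zero,
      Finsupp.zero_apply] at h3
    exact mul_ne_zero (mul_ne_zero hc hc') hc2 h3⟩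
  exact NoZeroDivisors.to_isDomain P

theorem gauss_val {V P ι : Type*} [CommRing V] [IsDomain V] [ValuationRing V] [CommRing P]
    [Algebra V P] (b : Module.Basis ι V P) (q : Ideal P) [q.IsPrime]
    (h : ∀ w i, b.repr w i = 1 → w ∉ q) : PreValuationRing (Localization.AtPrime q) := by
  have key : ∀ w : Localization.AtPrime q, ∃ v : V,
      Associated w (algebraMap P _ (algebraMap V P v)) := by
    intro w
    obtain ⟨⟨a, s⟩, e⟩ := IsLocalization.surj q.primeCompl w
    have hs : IsUnit (algebraMap P (Localization.AtPrime q) s) := IsLocalization.map_units _ s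
    have h1 : Associated w (algebraMap P (Localization.AtPrime q) a) := by
      rw [← e]; exact associated_mul_unit_right _ _ hs
    by_cases ha : a = 0
    · exact ⟨0, by simpa [ha] using h1⟩
    · obtain ⟨v, a0, i, -, e1, h0⟩ := exists_content b a ha
      have hu : IsUnit (algebraMap P (Localization.AtPrime q) a0) :=
        IsLocalization.map_units _ (⟨a0, h _ _ h0⟩ : q.primeCompl)
      refine ⟨v, h1.trans ?_⟩
      rw [e1, map_mul]
      exact (associated_mul_unit_right _ _ hu).symm
  refine ⟨fun x y => ?_⟩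
  obtain ⟨v, hv⟩ := key x
  obtain ⟨w, hw⟩ := key y
  rcases ValuationRing.dvd_total v w with h | h
  · obtain ⟨c, hc⟩ := hv.dvd.trans ((_root_.map_dvd _ (_root_.map_dvd _ h)).trans hw.symm.dvd)
    exact ⟨c, Or.inl hc.symm⟩
  · obtain ⟨c, hc⟩ := hw.dvd.trans ((_root_.map_dvd _ (_root_.map_dvd _ h)).trans hv.symm.dvd)
    exact ⟨c, Or.inr hc.symm⟩

theorem locPres_compat (V A R : Type u) [CommRing V] [CommRing A] [Algebra V A]
    [Algebra.Smooth V A] (p : Ideal A) [p.IsPrime] [CommRing R] [Algebra A R]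
    [IsLocalization.AtPrime R p] :
    ∃ (d : ℕ) (π : (MvPolynomial (Fin d) V)[X] →+* R) (G : (MvPolynomial (Fin d) V)[X]),
      LocPres π G ∧ G.Monic ∧ IsUnit (π (derivative G)) ∧
        ∀ v, π (C (MvPolynomial.C v)) = algebraMap A R (algebraMap V A v) := by
  obtain ⟨f, hfp, n, _, _, hst⟩ :=
    Algebra.IsSmoothAt.exists_isStandardEtale_mvPolynomial (R := V) (p := p)
  obtain ⟨P⟩ := hst.nonempty_standardEtalePresentation
  have hfu : IsUnit (algebraMap A R f) :=
    IsLocalization.map_units R (⟨f, hfp⟩ : p.primeCompl)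
  let ρ : Localization.Away f →+* R := IsLocalization.Away.lift f hfu
  have hρ : ∀ a : A, ρ (algebraMap A _ a) = algebraMap A R a := fun a =>
    IsLocalization.Away.lift_eq f hfu a
  refine ⟨n, ρ.comp (aeval P.x : _ →ₐ[MvPolynomial (Fin n) V] _).toRingHom, P.f,
    presex_locPres P ρ (fun r => ?_) (fun z hz => ?_), P.monic_f,
    P.hasMap.isUnit_derivative_f.map ρ, fun v => ?_⟩
  · obtain ⟨⟨a, s⟩, h⟩ := IsLocalization.surj p.primeCompl r
    refine ⟨algebraMap A _ a, algebraMap A _ s.1, ?_, ?_⟩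
    · rw [hρ]; exact IsLocalization.map_units R s
    · rw [hρ, hρ]; exact h
  · obtain ⟨⟨a, s⟩, h⟩ := IsLocalization.surj (Submonoid.powers f) z
    have h1 : algebraMap A R a = 0 := by
      rw [← hρ, ← h, map_mul, hz, zero_mul]
    obtain ⟨t, ht⟩ := (IsLocalization.map_eq_zero_iff p.primeCompl R a).1 h1
    refine ⟨algebraMap A _ t.1 * algebraMap A _ s.1, ?_, ?_⟩
    · rw [map_mul]
      refine IsUnit.mul ?_ ((IsLocalization.map_units _ s).map ρ)
      rw [hρ]; exact IsLocalization.map_units R t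
    · have h' : z * algebraMap A (Localization.Away f) s.1 = algebraMap A _ a := h
      rw [mul_assoc, mul_comm _ z, h', ← map_mul, ht, map_zero]
  · change ρ (aeval P.x (C (MvPolynomial.C v))) = _
    rw [aeval_C, ← hρ, ← IsScalarTower.algebraMap_apply, ← MvPolynomial.algebraMap_eq,
      ← IsScalarTower.algebraMap_apply]

theorem pres_compat {V R : Type u} [CommRing V] [CommRing R] [IsLocalRing R] {d : ℕ}
    (π : (MvPolynomial (Fin d) V)[X] →+* R)
    (G : (MvPolynomial (Fin d) V)[X]) (h : LocPres π G) (hG : G.Monic)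
    (hG' : IsUnit (π (derivative G))) (p0 : Ideal V) [p0.IsPrime]
    (hu : ∀ v : V, v ∉ p0 ↔ IsUnit (π (C (MvPolynomial.C v)))) :
    ∃ (π' : (MvPolynomial (Fin d) (Localization.AtPrime p0))[X] →+* R)
      (G' : (MvPolynomial (Fin d) (Localization.AtPrime p0))[X]),
      Pres π' G' ∧ ∀ v, π' (C (MvPolynomial.C (algebraMap V _ v))) = π (C (MvPolynomial.C v)) := by
  let g : V →+* R := π.comp (C.comp MvPolynomial.C)
  have hg : ∀ y : p0.primeCompl, IsUnit (g y) := fun y => (hu y.1).1 y.2
  let V' := Localization.AtPrime p0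
  let l : V' →+* R := IsLocalization.lift hg
  have hl : ∀ v : V, l (algebraMap V V' v) = g v := fun v => IsLocalization.lift_eq hg v
  let φ : MvPolynomial (Fin d) V →+* MvPolynomial (Fin d) V' := MvPolynomial.map (algebraMap V V')
  let π' : (MvPolynomial (Fin d) V')[X] →+* R :=
    eval₂RingHom (MvPolynomial.eval₂Hom l fun i => π (C (MvPolynomial.X i))) (π X)
  have hc : π'.comp (mapRingHom φ) = π := by
    refine Polynomial.ringHom_ext' (MvPolynomial.ringHom_ext (fun v => ?_) fun i => ?_) ?_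
    · simp [π', φ, hl, g]
    · simp [π', φ]
    · simp [π']
  have hc' : ∀ a, π' (a.map φ) = π a := fun a => by
    rw [← hc]; rfl
  refine ⟨π', G.map φ, ⟨⟨?_, fun r => ?_, fun a' ha' => ?_⟩, hG.map φ, ?_, fun v' hv' => ?_⟩,
    fun v => ?_⟩
  · rw [hc', h.map_G]
  · obtain ⟨a, s, hs, hr⟩ := h.surj r
    exact ⟨a.map φ, s.map φ, by rwa [hc'], by rwa [hc', hc']⟩
  · obtain ⟨v, hv, a, ha⟩ := presex_clear p0.primeCompl a'
    have h0 : π a = 0 := by
      rw [← hc', ← ha, map_mul, ha', mul_zero]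
    obtain ⟨s, hs, hd⟩ := h.ker a h0
    refine ⟨s.map φ * (C (MvPolynomial.C v) : (MvPolynomial (Fin d) V)[X]).map φ, ?_, ?_⟩
    · rw [map_mul, hc', hc']
      exact hs.mul (hg ⟨v, hv⟩)
    · rw [mul_assoc, ha, ← Polynomial.map_mul]
      exact Polynomial.map_dvd φ hd
  · rw [derivative_map, hc']
    exact hG'
  · obtain ⟨⟨x, s⟩, rfl⟩ := IsLocalization.mk'_surjective p0.primeCompl v'
    have h1 : IsUnit (l (IsLocalization.mk' V' x s)) := by
      simpa [π'] using hv'
    have h2 : l (IsLocalization.mk' V' x s) * g s.1 = g x := by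
      rw [← hl, ← hl, ← map_mul, IsLocalization.mk'_spec]
    have h3 : IsUnit (g x) := h2 ▸ h1.mul (hg s)
    exact (IsLocalization.AtPrime.isUnit_mk'_iff V' p0 x s).2 ((hu x).2 h3)
  · rw [← hc', map_C, MvPolynomial.map_C]

/-- a local ring with a presentation as a localisation is the localisation at a prime -/
theorem atPrime_of_locPres {A T : Type*} [CommRing A] [CommRing T] [IsLocalRing T] [Algebra A T]
    (h : LocPres (algebraMap A T) 0) :
    IsLocalization.AtPrime T ((maximalIdeal T).comap (algebraMap A T)) := by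
  have hu : ∀ a, a ∈ ((maximalIdeal T).comap (algebraMap A T)).primeCompl ↔
      IsUnit (algebraMap A T a) := fun a => by
    rw [Ideal.mem_primeCompl_iff, Ideal.mem_comap, mem_maximalIdeal, mem_nonunits_iff, not_not]
  refine (isLocalization_iff _ _).2 ⟨fun y => (hu _).1 y.2, fun r => ?_, fun {x y} e => ?_⟩
  · obtain ⟨a, s, hs, ha⟩ := h.surj r
    exact ⟨⟨a, s, (hu s).2 hs⟩, ha⟩
  · obtain ⟨s, hs, c, hc⟩ := h.ker (x - y) (by rw [map_sub, e, sub_self])
    refine ⟨⟨s, (hu s).2 hs⟩, ?_⟩
    rw [zero_mul, mul_sub, sub_eq_zero] at hc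
    exact hc

theorem locPres_loc {A A' T : Type*} [CommRing A] [CommRing A'] [CommRing T] [Algebra A A']
    (M : Submonoid A) [IsLocalization M A'] (f : A' →+* T)
    (h : LocPres (f.comp (algebraMap A A')) 0) : LocPres f 0 := by
  refine ⟨map_zero _, fun r => ?_, fun a' ha' => ?_⟩
  · obtain ⟨a, s, hs, ha⟩ := h.surj r
    exact ⟨_, _, hs, ha⟩
  · obtain ⟨⟨a, m⟩, e⟩ := IsLocalization.surj M a'
    obtain ⟨s, hs, c, hc⟩ := h.ker a (by
      rw [RingHom.comp_apply, ← e, map_mul, ha', zero_mul])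
    refine ⟨algebraMap A A' s * algebraMap A A' m, ?_, ?_⟩
    · rw [map_mul]
      exact hs.mul ((IsLocalization.map_units A' m).map f)
    · rw [mul_assoc, mul_comm _ a', e, ← map_mul, hc, zero_mul, map_zero]

/-- a point of an algebra of finite type over a field with values in a localisation -/
theorem exists_away {k B C R : Type u} [Field k] [CommRing B] [Algebra k B]
    [Algebra.FiniteType k B] [CommRing C] [Algebra k C] [CommRing R] [Algebra C R] [Algebra k R]
    [IsScalarTower k C R] (M : Submonoid C) [IsLocalization M R] (z : B →ₐ[k] R) :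
    ∃ f ∈ M, ∃ z' : B →ₐ[k] Localization.Away f, ∀ ρ : Localization.Away f →+* R,
      (∀ c, ρ (algebraMap C _ c) = algebraMap C R c) → ∀ b, ρ (z' b) = z b := by
  classical
  obtain ⟨m, σ, hσ⟩ := Algebra.FiniteType.iff_quotient_mvPolynomial''.1
    (inferInstance : Algebra.FiniteType k B)
  obtain ⟨S, hS⟩ : (RingHom.ker σ).FG := IsNoetherian.noetherian _
  obtain ⟨s, hs⟩ := IsLocalization.exist_integer_multiples_of_finite M
    fun i => z (σ (MvPolynomial.X i))
  choose a ha using hs
  let C1 := Localization.Away (s : C)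
  have hsu : IsUnit (algebraMap C R s) := IsLocalization.map_units R s
  let ρ1 : C1 →+* R := IsLocalization.Away.lift (s : C) hsu
  have hρ1 : ∀ c, ρ1 (algebraMap C _ c) = algebraMap C R c := IsLocalization.Away.lift_eq _ hsu
  let x : Fin m → C1 := fun i => algebraMap C C1 (a i) * IsLocalization.Away.invSelf (s : C)
  have gen : ∀ (T : Type u) [CommRing T] [Algebra k T] (τ : C1 →+* T) (ρ : T →+* R),
      (∀ c, ρ (τ (algebraMap C _ c)) = algebraMap C R c) → ∀ r,
        ρ (τ (MvPolynomial.aeval x r)) = z (σ r) := by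
    intro T _ _ τ ρ h r
    have hx : ∀ i, ρ (τ (x i)) = z (σ (MvPolynomial.X i)) := fun i => by
      refine hsu.mul_left_cancel ?_
      rw [← Algebra.smul_def (s : C) (z _), ← ha, ← h, ← h, ← map_mul, ← map_mul, mul_left_comm,
        IsLocalization.Away.mul_invSelf, mul_one]
    induction r using MvPolynomial.induction_on with
    | C c =>
      rw [MvPolynomial.algHom_C, MvPolynomial.algHom_C, AlgHom.commutes,
        IsScalarTower.algebraMap_apply k C C1, h, ← IsScalarTower.algebraMap_apply]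
    | add p q hp hq => simp only [map_add, hp, hq]
    | mul_X p i hp => simp only [map_mul, hp, MvPolynomial.aeval_X, hx]
  have kill : ∀ r : S, ∃ t : M, algebraMap C C1 t * MvPolynomial.aeval x (r : MvPolynomial _ k)
      = 0 := fun r => by
    have h1 : ρ1 (MvPolynomial.aeval x (r : MvPolynomial _ k)) = 0 := by
      have h2 : σ r = 0 := (RingHom.mem_ker (f := σ)).1 (hS ▸ Ideal.subset_span r.2)
      have := gen C1 (RingHom.id _) ρ1 hρ1 r
      rwa [h2, map_zero] at this
    obtain ⟨⟨c, w⟩, e⟩ := IsLocalization.surj (Submonoid.powers (s : C))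
      (MvPolynomial.aeval x (r : MvPolynomial _ k))
    have h3 : algebraMap C R c = 0 := by rw [← hρ1, ← e, map_mul, h1, zero_mul]
    obtain ⟨t, ht⟩ := (IsLocalization.map_eq_zero_iff M R c).1 h3
    refine ⟨t, (IsLocalization.map_units C1 w).mul_right_cancel ?_⟩
    rw [mul_assoc, e, ← map_mul, ht, map_zero, zero_mul]
  choose t ht using kill
  let f : C := s * ∏ r, (t r : C)
  let C2 := Localization.Away f
  have hf : IsUnit (algebraMap C C2 f) := IsLocalization.Away.algebraMap_isUnit f
  rw [map_mul, IsUnit.mul_iff, map_prod, IsUnit.prod_iff] at hf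
  let τ : C1 →ₐ[k] C2 := IsLocalization.Away.liftAlgHom (s : C)
    (f := IsScalarTower.toAlgHom k C C2) hf.1
  have hτ : ∀ c, τ (algebraMap C C1 c) = algebraMap C C2 c := fun c =>
    IsLocalization.Away.lift_eq _ hf.1 c
  have hk : RingHom.ker σ ≤ RingHom.ker (τ.comp (MvPolynomial.aeval x)) := by
    rw [← hS, Ideal.span_le]
    intro r hr
    have := congrArg τ (ht ⟨r, hr⟩)
    rw [map_mul, hτ, map_zero] at this
    exact (hf.2 _ (Finset.mem_univ _)).mul_right_eq_zero.1 this
  refine ⟨f, M.mul_mem s.2 (M.prod_mem fun r _ => (t r).2),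
    (Ideal.Quotient.liftₐ _ _ fun r hr => hk hr).comp
      (Ideal.quotientKerAlgEquivOfSurjective hσ).symm.toAlgHom, fun ρ hρ b => ?_⟩
  obtain ⟨r, rfl⟩ := hσ b
  rw [← gen C2 τ ρ (fun c => (congrArg ρ (hτ c)).trans (hρ c)) r]
  refine congrArg ρ ?_
  have e : (Ideal.quotientKerAlgEquivOfSurjective hσ).symm (σ r) = Ideal.Quotient.mk _ r :=
    (AlgEquiv.symm_apply_eq _).2 rfl
  exact congrArg (Ideal.Quotient.liftₐ _ _ fun r hr => hk hr) e

/-- a point where a polynomial with nonzero reduction is a unit -/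
theorem exists_eval {R F τ : Type*} [CommRing R] [Field F] (ρ : R →+* F)
    (hρ : ∀ r, ρ r ≠ 0 → IsUnit r) (hi : (Set.range ρ).Infinite) (f : MvPolynomial τ R[X])
    (hf : MvPolynomial.map (mapRingHom ρ) f ≠ 0) :
    ∃ e : MvPolynomial τ R[X] →ₐ[R] R, IsUnit (e f) := by
  have h1 : (Set.range (mapRingHom ρ)).Infinite := by
    refine (hi.image (C_injective (R := F)).injOn).mono ?_
    rintro _ ⟨_, ⟨r, rfl⟩, rfl⟩
    exact ⟨C r, map_C _⟩
  have h2 : ∃ a : τ → R[X],
      MvPolynomial.eval (fun i => (a i).map ρ) (MvPolynomial.map (mapRingHom ρ) f) ≠ 0 := by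
    by_contra hn
    refine hf (MvPolynomial.funext_set (fun _ => Set.range (mapRingHom ρ)) (fun _ => h1)
      fun x hx => ?_)
    choose a ha using fun i => hx i (Set.mem_univ i)
    rw [map_zero]
    by_contra h0
    exact hn ⟨a, by rwa [show (fun i => (a i).map ρ) = x from funext ha]⟩
  obtain ⟨a, ha⟩ := h2
  have h3 : MvPolynomial.eval (fun i => (a i).map ρ) (MvPolynomial.map (mapRingHom ρ) f) =
      (MvPolynomial.eval a f).map ρ := by
    have := MvPolynomial.map_eval₂Hom (RingHom.id _) a (mapRingHom ρ) f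
    rw [MvPolynomial.eval_map]
    exact this.symm
  rw [h3] at ha
  obtain ⟨_, ⟨v, rfl⟩, hv⟩ := hi.exists_notMem_finite (finite_setOfPred_isRoot ha)
  refine ⟨(aeval v).comp ((MvPolynomial.aeval a).restrictScalars R), hρ _ fun h0 => hv ?_⟩
  change IsRoot _ _
  rw [IsRoot.def, eval_map, eval₂_at_apply]
  exact h0

end Pool.Agent.GR.Vers
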