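import Pool.Agent.P.MP_c1f06d_ag.r.Defs
import Pool.Agent.P.MP_c1f06d_ag.r.VersA

open Matrix Polynomial IsLocalRing TensorProduct

universe u

namespace Pool.Agent.GR.Vers

open Pool.Agent.P.MP_c1f06d_ag

section ogl

variable {n : ℕ} {K A T : Type u} [CommRing K] [CommRing A] [CommRing T]

/-- base change of invertible matrices -/
abbrev mp (f : A →+* T) : GL (Fin n) A →* GL (Fin n) T := GeneralLinearGroup.map f

theorem mp_mp {T' : Type u} [CommRing T'] (f : A →+* T) (f' : T →+* T') (g : GL (Fin n) A) :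
    mp f' (mp f g) = mp (f'.comp f) g := Units.ext rfl

theorem gl_ext {g g' : GL (Fin n) A} (h : ∀ i j, (g : Mat n A) i j = (g' : Mat n A) i j) :
    g = g' := Units.ext (Matrix.ext h)

theorem gl_lift (f : A →+* T) (hf : Function.Surjective f)
    (hu : ∀ a, IsUnit (f a) → IsUnit a) (g : GL (Fin n) T) : ∃ g0, mp f g0 = g := by
  choose s hs using hf
  have e : ((g : Mat n T).map s).map f = (g : Mat n T) := Matrix.ext fun i j => hs _
  have hd : IsUnit ((g : Mat n T).map s).det := by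
    refine hu _ ?_
    rw [RingHom.map_det, RingHom.mapMatrix_apply, e]
    exact (isUnit_iff_isUnit_det _).1 g.isUnit
  exact ⟨GeneralLinearGroup.mk'' _ hd, Units.ext e⟩

theorem gl_range (f : A →+* T) (hf : Function.Injective f) (g : GL (Fin n) T)
    (h1 : ∀ i j, ∃ a, f a = (g : Mat n T) i j)
    (h2 : ∀ i j, ∃ a, f a = ((g⁻¹ : GL (Fin n) T) : Mat n T) i j) : ∃ g0, mp f g0 = g := by
  choose a ha using h1
  choose b hb using h2
  have e1 : (of a).map f = (g : Mat n T) := Matrix.ext ha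
  have e2 : (of b).map f = ((g⁻¹ : GL (Fin n) T) : Mat n T) := Matrix.ext hb
  have hi : Function.Injective fun M : Mat n A => M.map f := Matrix.map_injective hf
  refine ⟨⟨of a, of b, hi ?_, hi ?_⟩, Units.ext e1⟩
  · simp only [Matrix.map_mul, e1, e2, Units.mul_inv, Matrix.map_one f (map_zero f) (map_one f)]
  · simp only [Matrix.map_mul, e1, e2, Units.inv_mul, Matrix.map_one f (map_zero f) (map_one f)]

/-- the universal point -/
noncomputable def uni (K : Type u) [CommRing K] (n : ℕ) : GL (Fin n) (OGL K n) :=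
  GeneralLinearGroup.mk'' ((mvPolynomialX (Fin n) (Fin n) K).map (algebraMap _ (OGL K n))) (by
    rw [← RingHom.mapMatrix_apply, ← RingHom.map_det]
    exact IsLocalization.Away.algebraMap_isUnit _)

theorem uni_apply (i j : Fin n) : (uni K n : Mat n (OGL K n)) i j =
    algebraMap (MvPolynomial (Fin n × Fin n) K) (OGL K n) (MvPolynomial.X (i, j)) := rfl

/-- evaluation along a ring map -/
noncomputable def evR (f : K →+* T) (g : GL (Fin n) T) : OGL K n →+* T :=
  IsLocalization.Away.lift (mvPolynomialX (Fin n) (Fin n) K).det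
    (g := MvPolynomial.eval₂Hom f fun p : Fin n × Fin n => (g : Mat n T) p.1 p.2) (by
      have e : (MvPolynomial.eval₂Hom f fun p : Fin n × Fin n => (g : Mat n T) p.1 p.2).mapMatrix
          (mvPolynomialX (Fin n) (Fin n) K) = (g : Mat n T) :=
        Matrix.ext fun i j => MvPolynomial.eval₂Hom_X' _ _ _
      rw [RingHom.map_det, e]
      exact (isUnit_iff_isUnit_det _).1 g.isUnit)

theorem evR_mv (f : K →+* T) (g : GL (Fin n) T) (a : MvPolynomial (Fin n × Fin n) K) :
    evR f g (algebraMap _ _ a) =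
      MvPolynomial.eval₂Hom f (fun p : Fin n × Fin n => (g : Mat n T) p.1 p.2) a :=
  IsLocalization.Away.lift_eq _ _ a

theorem evR_alg (f : K →+* T) (g : GL (Fin n) T) (c : K) :
    evR f g (algebraMap K (OGL K n) c) = f c := by
  rw [IsScalarTower.algebraMap_apply K (MvPolynomial (Fin n × Fin n) K), evR_mv,
    MvPolynomial.algebraMap_eq, MvPolynomial.eval₂Hom_C]

theorem evR_uni (f : K →+* T) (g : GL (Fin n) T) : mp (evR f g) (uni K n) = g :=
  gl_ext fun _ _ => (evR_mv f g _).trans (MvPolynomial.eval₂Hom_X' _ _ _)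

theorem ogl_ext {φ ψ : OGL K n →+* T}
    (h1 : ∀ c, φ (algebraMap K _ c) = ψ (algebraMap K _ c))
    (h2 : mp φ (uni K n) = mp ψ (uni K n)) : φ = ψ := by
  refine IsLocalization.ringHom_ext (Submonoid.powers (mvPolynomialX (Fin n) (Fin n) K).det)
    (MvPolynomial.ringHom_ext (fun c => ?_) fun p => ?_)
  · have := h1 c
    rwa [IsScalarTower.algebraMap_apply K (MvPolynomial (Fin n × Fin n) K)] at this
  · exact congrArg (fun g : GL (Fin n) T => (g : Mat n T) p.1 p.2) h2

theorem ev_uni [Algebra K A] (g : GL (Fin n) A) : mp (ev K g : OGL K n →+* A) (uni K n) = g :=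
  gl_ext fun _ _ => (IsLocalization.Away.lift_eq _ (isUnit_aeval_det K g) _).trans
    (MvPolynomial.aeval_X _ _)

theorem ev_of [Algebra K A] (φ : OGL K n →+* A)
    (h : ∀ c, φ (algebraMap K _ c) = algebraMap K A c) (b : OGL K n) :
    ev K (mp φ (uni K n)) b = φ b :=
  RingHom.congr_fun (ogl_ext (φ := (ev K (mp φ (uni K n)) : OGL K n →+* A))
    (fun c => ((ev K _).commutes c).trans (h c).symm) (ev_uni _)) b

theorem ev_nat [Algebra K A] [Algebra K T] (φ : A →+* T)
    (h : ∀ c, φ (algebraMap K _ c) = algebraMap K T c) (g : GL (Fin n) A) (b : OGL K n) :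
    ev K (mp φ g) b = φ (ev K g b) := by
  conv_lhs => rw [← ev_uni (K := K) g, mp_mp]
  exact ev_of _ (fun c => (congrArg φ ((ev K g).commutes c)).trans (h c)) b

theorem ogl_dom [IsDomain K] : IsDomain (OGL K n) :=
  IsLocalization.isDomain_localization
    (powers_le_nonZeroDivisors_of_noZeroDivisors (det_mvPolynomialX_ne_zero (Fin n) K))

end ogl

variable {k : Type u} [Field k] {n : ℕ} {B : Type u} [CommRing B] [Algebra k B]

/-- the point of the quotient under a point of `GL_n` -/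
noncomputable def res (ι : B →ₐ[k] OGL k n) {A : Type u} [CommRing A] [Algebra k A]
    (γ : GL (Fin n) A) : B →ₐ[k] A := (ev k γ).comp ι

/-- the action of `GL_n` on the points of the quotient -/
structure QAct (ι : B →ₐ[k] OGL k n) where
  act : ∀ {A : Type u} [CommRing A] [Algebra k A], GL (Fin n) A → (B →ₐ[k] A) → (B →ₐ[k] A)
  act_one : ∀ {A : Type u} [CommRing A] [Algebra k A] (y : B →ₐ[k] A), act 1 y = y
  act_mul : ∀ {A : Type u} [CommRing A] [Algebra k A] (g g' : GL (Fin n) A) (y : B →ₐ[k] A),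
    act (g * g') y = act g (act g' y)
  act_nat : ∀ {A A' : Type u} [CommRing A] [Algebra k A] [CommRing A'] [Algebra k A']
    (f : A →ₐ[k] A') (g : GL (Fin n) A) (y : B →ₐ[k] A),
    f.comp (act g y) = act (gm f g) (f.comp y)
  t2 : ∀ {A : Type u} [CommRing A] [Algebra k A] (J : Ideal A), J * J = ⊥ →
    ∀ y y' : B →ₐ[k] A, (∀ b, y b - y' b ∈ J) →
      ∃ g : GL (Fin n) A, (∀ i j, ((g : Mat n A) - 1) i j ∈ J) ∧ act g y = y'
  act_res : ∀ {A : Type u} [CommRing A] [Algebra k A] (g γ : GL (Fin n) A),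
    act g (res ι γ) = res ι (g * γ)

variable {ι : B →ₐ[k] OGL k n} (Q : QAct ι) (V : Type u) [CommRing V] [Algebra k V]
  {C0 : Type u} [CommRing C0] [Algebra V C0] [Algebra k C0] [IsScalarTower k V C0]
  (z : B →ₐ[k] C0)

/-- the versal structure map -/
noncomputable def phi : V ⊗[k] B[X] →ₐ[V] OGL C0[X] n :=
  Algebra.TensorProduct.lift (Algebra.ofId V _)
    (aevalTower (Q.act (uni C0[X] n)⁻¹ ((IsScalarTower.toAlgHom k C0 _).comp z))
      (algebraMap C0[X] (OGL C0[X] n) X)) fun _ _ => Commute.all _ _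

theorem phi_C (b : B) : phi Q V z (1 ⊗ₜ C b) =
    Q.act (uni C0[X] n)⁻¹ ((IsScalarTower.toAlgHom k C0 _).comp z) b := by
  simp [phi]

theorem phi_X : phi Q V z (1 ⊗ₜ X) = algebraMap C0[X] (OGL C0[X] n) X := by
  simp [phi]

/-- maps out of the base -/
theorem pp_ext {T : Type u} [CommRing T] {φ ψ : V ⊗[k] B[X] →+* T}
    (h1 : ∀ v, φ (algebraMap V _ v) = ψ (algebraMap V _ v))
    (h2 : ∀ b, φ (1 ⊗ₜ C b) = ψ (1 ⊗ₜ C b)) (h3 : φ (1 ⊗ₜ X) = ψ (1 ⊗ₜ X)) : φ = ψ := by
  exact Algebra.TensorProduct.ringHom_ext (RingHom.ext h1) (Polynomial.ringHom_ext h2 h3)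

theorem phi_nat {T : Type u} [CommRing T] [Algebra k T] (L : OGL C0[X] n →+* T)
    (y : C0 →ₐ[k] T) (hL : ∀ c, L (algebraMap C0[X] _ (C c)) = y c) (b : B) :
    L (phi Q V z (1 ⊗ₜ C b)) = Q.act (mp L (uni C0[X] n))⁻¹ (y.comp z) b := by
  have e : ∀ c, algebraMap C0 (OGL C0[X] n) c = algebraMap C0[X] _ (C c) := fun c =>
    IsScalarTower.algebraMap_apply C0 C0[X] _ c
  let L' : OGL C0[X] n →ₐ[k] T := ⟨L, fun c => by
    rw [IsScalarTower.algebraMap_apply k C0, e]
    exact (hL _).trans (y.commutes c)⟩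
  have h := AlgHom.congr_fun
    (Q.act_nat L' (uni C0[X] n)⁻¹ ((IsScalarTower.toAlgHom k C0 _).comp z)) b
  have e2 : L'.comp ((IsScalarTower.toAlgHom k C0 _).comp z) = y.comp z :=
    AlgHom.ext fun b => (congrArg L (e _)).trans (hL _)
  rw [e2, map_inv] at h
  rw [phi_C]
  exact h

theorem phi_alg (v : V) : phi Q V z (algebraMap V _ v) =
    algebraMap C0[X] (OGL C0[X] n) (C (algebraMap V C0 v)) := by
  rw [AlgHom.commutes, IsScalarTower.algebraMap_apply V C0[X]]
  rfl

theorem phi_smooth [Algebra.Smooth V C0] [Algebra.FiniteType k B] :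
    RingHom.Smooth (R := V ⊗[k] B[X]) (S := OGL C0[X] n) (phi Q V z).toRingHom := by
  let _ : Algebra (V ⊗[k] B[X]) (OGL C0[X] n) := (phi Q V z).toRingHom.toAlgebra
  have : IsScalarTower V (V ⊗[k] B[X]) (OGL C0[X] n) :=
    IsScalarTower.of_algebraMap_eq (R := V) (S := V ⊗[k] B[X]) (A := OGL C0[X] n)
      fun v => ((phi Q V z).commutes v).symm
  have : Algebra.FinitePresentation V C0[X] := .trans V C0 _
  have : Algebra.FinitePresentation V (MvPolynomial (Fin n × Fin n) C0[X]) := .trans V C0[X] _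
  have : Algebra.FinitePresentation (MvPolynomial (Fin n × Fin n) C0[X]) (OGL C0[X] n) :=
    IsLocalization.Away.finitePresentation (mvPolynomialX (Fin n) (Fin n) C0[X]).det
  have : Algebra.FinitePresentation V (OGL C0[X] n) :=
    .trans V (MvPolynomial (Fin n × Fin n) C0[X]) _
  have : Algebra.FiniteType k B[X] := .trans (S := B) inferInstance inferInstance
  refine ⟨Algebra.FormallySmooth.of_comp_surjective fun T _ _ I hI g => ?_,
    Algebra.FinitePresentation.of_restrict_scalars_finitePresentation V _ _⟩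
  let a := algebraMap (V ⊗[k] B[X]) T
  let _ : Algebra V T := (a.comp (algebraMap V _)).toAlgebra
  let _ : Algebra k T := (a.comp (algebraMap k _)).toAlgebra
  have : IsScalarTower V (V ⊗[k] B[X]) T :=
    IsScalarTower.of_algebraMap_eq' (R := V) (S := V ⊗[k] B[X]) (A := T) rfl
  have : IsScalarTower k (V ⊗[k] B[X]) T :=
    IsScalarTower.of_algebraMap_eq' (R := k) (S := V ⊗[k] B[X]) (A := T) rfl
  have : IsScalarTower k V T := IsScalarTower.of_algebraMap_eq fun c =>
    congrArg a (IsScalarTower.algebraMap_apply k V _ c)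
  obtain ⟨gC, hgC⟩ := Algebra.FormallySmooth.comp_surjective V C0 I hI
    ((g.restrictScalars V).comp (IsScalarTower.toAlgHom V C0 _))
  have hgC' : ∀ c, g (algebraMap C0[X] _ (C c)) = Ideal.Quotient.mk I (gC c) := fun c =>
    ((AlgHom.congr_fun hgC c).trans
      (congrArg g (IsScalarTower.algebraMap_apply C0 C0[X] _ c))).symm
  have hg : ∀ w, g (phi Q V z w) = Ideal.Quotient.mk I (a w) := fun w => g.commutes w
  obtain ⟨u', hu'⟩ := gl_lift (Ideal.Quotient.mk I) Ideal.Quotient.mk_surjective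
    (fun x hx => (IsNilpotent.isUnit_quotient_mk_iff ⟨2, hI⟩).1 hx)
    (mp (g : OGL C0[X] n →+* T ⧸ I) (uni C0[X] n))
  let y : B →ₐ[k] T := (IsScalarTower.toAlgHom k (V ⊗[k] B[X]) T).comp
    (Algebra.TensorProduct.includeRight.comp (IsScalarTower.toAlgHom k B B[X]))
  have hy : ∀ b, y b = a (1 ⊗ₜ C b) := fun _ => rfl
  obtain ⟨t, ht, ht'⟩ := Q.t2 I (by rw [← sq, hI])
    (Q.act u'⁻¹ ((gC.restrictScalars k).comp z)) y fun b => by
      rw [← Ideal.Quotient.eq, hy, ← hg]
      have h1 := AlgHom.congr_fun (Q.act_nat (Ideal.Quotient.mkₐ k I) u'⁻¹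
        ((gC.restrictScalars k).comp z)) b
      have h2 := phi_nat Q V z (g : OGL C0[X] n →+* T ⧸ I)
        ((Ideal.Quotient.mkₐ k I).comp (gC.restrictScalars k)) hgC' b
      rw [← hu'] at h2
      rw [map_inv] at h1
      exact h1.trans h2.symm
  have ht1 : mp (Ideal.Quotient.mk I) t = 1 := gl_ext fun i j => by
    have h1 := Ideal.Quotient.eq.2 (ht i j)
    refine h1.trans ?_
    exact congrFun (congrFun (Matrix.map_one (Ideal.Quotient.mk I) (map_zero _) (map_one _)) i) j
  let L : OGL C0[X] n →+* T := evR (eval₂RingHom (gC : C0 →+* T) (a (1 ⊗ₜ X))) (u' * t⁻¹)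
  have hL : ∀ c, L (algebraMap C0[X] _ (C c)) = gC c := fun c =>
    (evR_alg _ _ _).trans (eval₂_C _ _)
  have hLX : L (algebraMap C0[X] _ X) = a (1 ⊗ₜ X) := (evR_alg _ _ _).trans (eval₂_X _ _)
  have hLa : L.comp (phi Q V z).toRingHom = a := by
    refine pp_ext V (fun v => ?_) (fun b => ?_) ?_
    · exact (congrArg L (phi_alg Q V z v)).trans ((hL _).trans (gC.commutes v))
    · refine (phi_nat Q V z L (gC.restrictScalars k) hL b).trans ?_
      rw [evR_uni, _root_.mul_inv_rev, inv_inv, Q.act_mul, ht', hy]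
    · exact (congrArg L (phi_X Q V z)).trans hLX
  refine ⟨⟨L, fun w => RingHom.congr_fun hLa w⟩, AlgHom.coe_ringHom_injective ?_⟩
  refine ogl_ext (φ := (Ideal.Quotient.mk I).comp L) (fun c => ?_) ?_
  · refine RingHom.congr_fun (Polynomial.ringHom_ext
      (f := ((Ideal.Quotient.mk I).comp L).comp (algebraMap C0[X] _))
      (g := (g : OGL C0[X] n →+* T ⧸ I).comp (algebraMap C0[X] _)) (fun c => ?_) ?_) c
    · exact (congrArg _ (hL c)).trans (hgC' c).symm
    · exact (congrArg _ hLX).trans ((hg _).symm.trans (congrArg g (phi_X Q V z)))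
  · rw [← mp_mp, evR_uni, map_mul, map_inv, ht1, inv_one, mul_one, hu']

/-- reduction to the generic point of the closed fibre -/
noncomputable def psi {F : Type u} [CommRing F] (n : ℕ) (ρ : C0 →+* F) :
    OGL C0[X] n →+* OGL F[X] n :=
  evR ((algebraMap F[X] (OGL F[X] n)).comp (mapRingHom ρ)) (uni F[X] n)

theorem phi_key {F W : Type u} [Field F] [Algebra k F] [CommRing W] [Algebra k W]
    (ρ : C0 →ₐ[k] F) (γ : GL (Fin n) F) (hγ : res ι γ = ρ.comp z) (l : F →ₐ[k] W)
    (r : OGL k n →ₐ[k] W) (m : V ⊗[k] B[X] →+* W)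
    (m1 : ∀ v, m (algebraMap V _ v) = l (ρ (algebraMap V C0 v)))
    (m2 : ∀ b : B, m (1 ⊗ₜ C b) = r (ι b)) (w : V ⊗[k] B[X])
    (hw : psi n (ρ : C0 →+* F) (phi Q V z w) = 0) : m w = 0 := by
  let U : GL (Fin n) W := mp (r : OGL k n →+* W) (uni k n)
  let Φ : OGL F[X] n →+* W := evR (eval₂RingHom (l : F →+* W) (m (1 ⊗ₜ X))) (gm l γ * U⁻¹)
  let ψ := psi n (ρ : C0 →+* F)
  have h0 : ∀ c : C0[X], Φ (ψ (algebraMap C0[X] _ c)) =
      eval₂ (l : F →+* W) (m (1 ⊗ₜ X)) (c.map (ρ : C0 →+* F)) := fun c =>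
    (congrArg Φ (evR_alg _ _ c)).trans (evR_alg _ _ _)
  have h1 : ∀ c, (Φ.comp ψ) (algebraMap C0[X] _ (C c)) = (l.comp ρ) c := fun c => by
    rw [RingHom.comp_apply, h0, map_C, eval₂_C]
    rfl
  have key : (Φ.comp ψ).comp (phi Q V z).toRingHom = m := by
    refine pp_ext V (fun v => ?_) (fun b => ?_) ?_
    · exact (congrArg (Φ.comp ψ) (phi_alg Q V z v)).trans ((h1 _).trans (m1 v).symm)
    · refine (phi_nat Q V z (Φ.comp ψ) (l.comp ρ) h1 b).trans ?_
      have e : (l.comp ρ).comp z = res ι (gm l γ) := by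
        rw [AlgHom.comp_assoc, ← hγ]
        exact AlgHom.ext fun b => (ev_nat (l : F →+* W) l.commutes γ (ι b)).symm
      have e2 : mp ψ (uni C0[X] n) = uni F[X] n := evR_uni _ _
      rw [← mp_mp, e2, evR_uni, e, Q.act_res, _root_.mul_inv_rev, inv_inv,
        inv_mul_cancel_right, m2]
      exact ev_of (r : OGL k n →+* W) r.commutes (ι b)
    · refine (congrArg (Φ.comp ψ) (phi_X Q V z)).trans ((h0 _).trans ?_)
      rw [map_X, eval₂_X]
  exact (RingHom.congr_fun key w).symm.trans ((congrArg Φ hw).trans (map_zero Φ))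

theorem tens_ne {k V F A A' : Type u} [Field k] [CommRing V] [Algebra k V] [Field F] [Algebra k F]
    [CommRing A] [Algebra k A] [CommRing A'] [Algebra k A'] (ρ : V →ₐ[k] F) (f : A →ₐ[k] A')
    (hf : Function.Injective f) {J : Type*} (b : Module.Basis J k A) (w : V ⊗[k] A) (i : J)
    (hw : (b.baseChange V).repr w i = 1) : Algebra.TensorProduct.map ρ f w ≠ 0 := by
  obtain ⟨s, hs⟩ := f.toLinearMap.exists_leftInverse_of_injective (LinearMap.ker_eq_bot.2 hf)
  let Λ : F ⊗[k] A' →ₗ[k] F := (TensorProduct.rid k F).toLinearMap ∘ₗ (b.coord i ∘ₗ s).lTensor F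
  have hΛ : ∀ w, Λ (Algebra.TensorProduct.map ρ f w) = ρ ((b.baseChange V).repr w i) := by
    intro w
    induction w with
    | zero => simp
    | add x y hx hy => simp only [map_add, hx, hy, Finsupp.add_apply]
    | tmul v a =>
      have e : s (f a) = a := LinearMap.congr_fun hs a
      simp [Λ, e]
  intro h2
  have h3 := hΛ w
  rw [h2, map_zero, hw, map_one] at h3
  exact zero_ne_one h3

theorem tens_pack {k V F B O : Type u} [Field k] [CommRing V] [Algebra k V] [Field F]
    [Algebra k F] [CommRing B] [Algebra k B] [CommRing O] [Algebra k O] (ρ : V →ₐ[k] F)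
    (f : B →ₐ[k] O) (hf : Function.Injective f) {J : Type*} (b : Module.Basis J k B[X])
    (w : V ⊗[k] B[X]) (i : J) (hw : (b.baseChange V).repr w i = 1) :
    ∃ (W : Type u) (_ : CommRing W) (_ : Algebra k W) (l : F →ₐ[k] W) (r : O →ₐ[k] W)
      (m : V ⊗[k] B[X] →+* W), (∀ v, m (algebraMap V _ v) = l (ρ v)) ∧
      (∀ c, m (1 ⊗ₜ C c) = r (f c)) ∧ m w ≠ 0 :=
  ⟨F ⊗[k] O[X], inferInstance, inferInstance, Algebra.TensorProduct.includeLeft,
    Algebra.TensorProduct.includeRight.comp (IsScalarTower.toAlgHom k O O[X]),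
    (Algebra.TensorProduct.map ρ (mapAlgHom f)).toRingHom, fun v => by simp, fun c => by simp,
    tens_ne ρ (mapAlgHom f) (map_injective _ hf) b w i hw⟩

/-- primitive elements of the base do not vanish at the generic point of the closed fibre -/
theorem phi_ne (hι : Function.Injective ι) {F : Type u} [Field F] [Algebra k F] (ρ : C0 →ₐ[k] F) (γ : GL (Fin n) F)
    (hγ : res ι γ = ρ.comp z) {J : Type*} (b : Module.Basis J k B[X])
    (w : V ⊗[k] B[X]) (i : J) (hw : (b.baseChange V).repr w i = 1) :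
    psi n (ρ : C0 →+* F) (phi Q V z w) ≠ 0 := fun h => by
  obtain ⟨W, _, _, l, r, m, m1, m2, m3⟩ := tens_pack (ρ.comp (IsScalarTower.toAlgHom k V C0))
    ι hι b w i hw
  exact m3 (phi_key Q V z ρ γ hγ l r m m1 m2 w h)

end Pool.Agent.GR.Vers
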