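import Pool.Agent.P.MP_c1f06d_ag.r.VersB

open Matrix Polynomial IsLocalRing TensorProduct

universe u

namespace Pool.Agent.GR.Vers

open Pool.Agent.P.MP_c1f06d_ag

theorem exists_subst {R F τ : Type*} [CommRing R] [Field F] (ρ : R →+* F)
    (f : MvPolynomial τ R[X]) (hf : MvPolynomial.map (mapRingHom ρ) f ≠ 0) :
    ∃ a : τ → R[X], (MvPolynomial.aeval a f).map ρ ≠ 0 := by
  have h1 : (Set.range (mapRingHom ρ)).Infinite :=
    Set.infinite_of_injective_forall_mem (f := fun j : ℕ => (X ^ j : F[X]))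
      (fun i j h => by simpa using congrArg natDegree h) fun j => ⟨X ^ j, by simp⟩
  by_contra hn
  refine hf (MvPolynomial.funext_set (fun _ => Set.range (mapRingHom ρ)) (fun _ => h1)
    fun x hx => ?_)
  choose a ha using fun i => hx i (Set.mem_univ i)
  rw [map_zero, ← show (fun i => mapRingHom ρ (a i)) = x from funext ha, MvPolynomial.eval_map]
  by_contra h0
  exact hn ⟨a, fun h => h0
    ((MvPolynomial.map_eval₂Hom (RingHom.id _) a (mapRingHom ρ) f).symm.trans h)⟩

theorem locPres_mv {C0 R τ : Type*} [CommRing C0] [CommRing R] [Algebra C0 R] (M : Submonoid C0)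
    [IsLocalization M R] :
    LocPres (MvPolynomial.map (σ := τ) (mapRingHom (algebraMap C0 R))) 0 := by
  let _ := Polynomial.algebra C0 R
  have := Polynomial.isLocalization M R
  let _ := MvPolynomial.algebraMvPolynomial (σ := τ) (R := C0[X]) (S := R[X])
  have := MvPolynomial.isLocalization (σ := τ) (M.map (C : C0 →+* C0[X])) R[X]
  exact locPres_of_isLocalization (B := MvPolynomial τ C0[X]) (O := MvPolynomial τ R[X])
    ((M.map (C : C0 →+* C0[X])).map (MvPolynomial.C (σ := τ)))

theorem spread_gl {R D R1 : Type u} [CommRing R] [CommRing D] [IsDomain D] [CommRing R1]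
    [Algebra R D] [Algebra D R1] [Algebra R R1] [IsScalarTower R D R1] (P : Ideal D) [P.IsPrime]
    [IsLocalization.AtPrime R1 P] {n : ℕ} (g : GL (Fin n) R1) :
    ∃ s ∉ P, ∃ (j : Localization.Away s →ₐ[R] R1) (g0 : GL (Fin n) (Localization.Away s)),
      Function.Injective j ∧ gm j g0 = g := by
  let r : Bool × Fin n × Fin n → R1 := fun p =>
    ((cond p.1 g g⁻¹ : GL (Fin n) R1) : Mat n R1) p.2.1 p.2.2
  obtain ⟨s, hs⟩ := IsLocalization.exist_integer_multiples_of_finite P.primeCompl r
  have hu : IsUnit (IsScalarTower.toAlgHom R D R1 s) := IsLocalization.map_units R1 s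
  let j : Localization.Away (s : D) →ₐ[R] R1 := IsLocalization.Away.liftAlgHom (s : D) hu
  have hj : ∀ a, j (algebraMap D _ a) = algebraMap D R1 a := IsLocalization.Away.lift_eq _ hu
  have hi : Function.Injective j := (injective_iff_map_eq_zero j).2 fun x hx => by
    obtain ⟨⟨a, m⟩, e⟩ := IsLocalization.surj (Submonoid.powers (s : D)) x
    have h1 : a = 0 := IsLocalization.injective R1 P.primeCompl_le_nonZeroDivisors (by
      rw [← hj, ← e, map_mul, hx, zero_mul, map_zero])
    rw [h1, map_zero] at e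
    exact (IsLocalization.map_units _ m).mul_left_eq_zero.1 e
  have hr : ∀ p, ∃ x, j x = r p := fun p => by
    obtain ⟨a, ha⟩ := hs p
    refine ⟨algebraMap D _ a * IsLocalization.Away.invSelf (s : D), hu.mul_left_cancel ?_⟩
    change algebraMap D R1 s * _ = algebraMap D R1 s * _
    rw [← Algebra.smul_def (s : D) (r p), ← ha, ← hj, ← hj, ← map_mul, mul_left_comm,
      IsLocalization.Away.mul_invSelf, mul_one]
  obtain ⟨g0, hg0⟩ := gl_range (j : Localization.Away (s : D) →+* R1) hi g
    (fun a b => hr (true, a, b)) fun a b => hr (false, a, b)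
  exact ⟨s, s.2, j, g0, hi, hg0⟩

theorem psi_mv {C0 F : Type u} [CommRing C0] [CommRing F] (n : ℕ) (ρ : C0 →+* F)
    (a : MvPolynomial (Fin n × Fin n) C0[X]) : psi n ρ (algebraMap _ _ a) =
      algebraMap (MvPolynomial (Fin n × Fin n) F[X]) _ (MvPolynomial.map (mapRingHom ρ) a) := by
  refine RingHom.congr_fun (MvPolynomial.ringHom_ext (f := (psi n ρ).comp (algebraMap _ _))
    (g := (algebraMap (MvPolynomial (Fin n × Fin n) F[X]) _).comp
      (MvPolynomial.map (mapRingHom ρ))) (fun c => ?_) fun p => ?_) a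
  · refine (evR_mv _ _ _).trans ((MvPolynomial.eval₂Hom_C _ _ _).trans ?_)
    rw [RingHom.comp_apply, RingHom.comp_apply, MvPolynomial.map_C]
    exact IsScalarTower.algebraMap_apply F[X] (MvPolynomial (Fin n × Fin n) F[X]) _ _
  · refine (evR_mv _ _ _).trans ((MvPolynomial.eval₂Hom_X' _ _ _).trans ?_)
    rw [RingHom.comp_apply, MvPolynomial.map_X]
    rfl

/-- the local ring at the generic point of the closed fibre of `GL_n × 𝔸¹` -/
theorem exists_generic {C0 R F : Type u} [CommRing C0] [CommRing R] [IsDomain R] [Field F]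
    [Algebra C0 R] (M : Submonoid C0) [IsLocalization M R] (ρ : R →+* F) (n : ℕ) :
    ∃ (R1 : Type u) (_ : CommRing R1) (_ : IsDomain R1) (_ : IsLocalRing R1) (_ : Algebra R R1)
      (μ : OGL C0[X] n →+* R1), LocPres μ 0 ∧ Function.Injective (algebraMap R R1) ∧
      (∀ c, μ (algebraMap C0[X] _ (C c)) = algebraMap R R1 (algebraMap C0 R c)) ∧
      (∀ c, psi n (ρ.comp (algebraMap C0 R)) c ≠ 0 → IsUnit (μ c)) ∧
      ∀ g : GL (Fin n) R1, ∃ (T : Type u) (_ : CommRing T) (_ : Algebra R T) (j : T →ₐ[R] R1)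
        (f : R[X]) (_ : T →ₐ[R] Localization.Away f) (g0 : GL (Fin n) T),
        Function.Injective j ∧ gm j g0 = g ∧ f.map ρ ≠ 0 := by
  let D := MvPolynomial (Fin n × Fin n) R[X]
  let ψ : D →+* MvPolynomial (Fin n × Fin n) F[X] := MvPolynomial.map (mapRingHom ρ)
  let P := RingHom.ker ψ
  have : P.IsPrime := RingHom.ker_isPrime ψ
  let R1 := Localization.AtPrime P
  have hP : ∀ a, ψ a ≠ 0 → IsUnit (algebraMap D R1 a) := fun a ha =>
    IsLocalization.map_units R1 (⟨a, ha⟩ : P.primeCompl)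
  have hd : IsUnit ((mvPolynomialX (Fin n) (Fin n) R[X]).map (algebraMap D R1)).det := by
    rw [← RingHom.mapMatrix_apply, ← RingHom.map_det]
    refine hP _ ?_
    have e : ψ.mapMatrix (mvPolynomialX (Fin n) (Fin n) R[X]) = mvPolynomialX _ _ F[X] :=
      Matrix.ext fun i j => MvPolynomial.map_X _ _
    rw [RingHom.map_det, e]
    exact det_mvPolynomialX_ne_zero _ _
  let μ : OGL C0[X] n →+* R1 := evR ((algebraMap R[X] R1).comp (mapRingHom (algebraMap C0 R)))
    (GeneralLinearGroup.mk'' _ hd)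
  have hμ : μ.comp (algebraMap (MvPolynomial (Fin n × Fin n) C0[X]) _) =
      (algebraMap D R1).comp (MvPolynomial.map (mapRingHom (algebraMap C0 R))) := by
    refine MvPolynomial.ringHom_ext (fun c => ?_) fun p => ?_
    · refine (evR_mv _ _ _).trans ((MvPolynomial.eval₂Hom_C _ _ _).trans ?_)
      rw [RingHom.comp_apply, RingHom.comp_apply, MvPolynomial.map_C]
      exact IsScalarTower.algebraMap_apply R[X] D R1 _
    · refine (evR_mv _ _ _).trans ((MvPolynomial.eval₂Hom_X' _ _ _).trans ?_)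
      rw [RingHom.comp_apply, MvPolynomial.map_X]
      rfl
  have hD : Function.Injective (algebraMap D R1) :=
    IsLocalization.injective R1 P.primeCompl_le_nonZeroDivisors
  refine ⟨R1, inferInstance, inferInstance, inferInstance, inferInstance, μ, ?_, ?_, fun c => ?_,
    fun c hc => ?_, fun g => ?_⟩
  · refine locPres_loc (A' := OGL C0[X] n) (T := R1)
      (Submonoid.powers (mvPolynomialX (Fin n) (Fin n) C0[X]).det) μ ?_
    rw [hμ]
    exact (locPres_mv M).localization P.primeCompl R1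
  · rw [IsScalarTower.algebraMap_eq R D R1]
    exact hD.comp ((MvPolynomial.C_injective _ _).comp C_injective)
  · refine (evR_alg _ _ _).trans ?_
    rw [RingHom.comp_apply, coe_mapRingHom, map_C]
    exact (IsScalarTower.algebraMap_apply R R[X] R1 _).symm
  · obtain ⟨⟨a, m⟩, e⟩ := IsLocalization.surj
      (Submonoid.powers (mvPolynomialX (Fin n) (Fin n) C0[X]).det) c
    have h1 : psi n (ρ.comp (algebraMap C0 R)) (algebraMap _ _ a) ≠ 0 := fun h => by
      rw [← e, map_mul] at h
      exact hc (((IsLocalization.map_units _ m).map _).mul_left_eq_zero.1 h)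
    have h2 : IsUnit (μ (algebraMap _ _ a)) := by
      rw [← RingHom.comp_apply, hμ]
      refine hP _ fun h => h1 ?_
      rw [psi_mv, ← mapRingHom_comp, ← MvPolynomial.map_map]
      exact (congrArg _ h).trans (map_zero _)
    rw [← e, map_mul] at h2
    exact isUnit_of_mul_isUnit_left h2
  · obtain ⟨s, hs, j, g0, h1, h2⟩ := spread_gl (R := R) P g
    obtain ⟨a, ha⟩ := exists_subst ρ s hs
    exact ⟨_, inferInstance, inferInstance, j, _, IsLocalization.Away.liftAlgHom s
      (f := (IsScalarTower.toAlgHom R R[X] _).comp ((MvPolynomial.aeval a).restrictScalars R))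
      (IsLocalization.Away.algebraMap_isUnit (MvPolynomial.aeval a s)), g0, h1, h2, ha⟩

/-- the versal base is a valuation ring -/
theorem versal_pres {k B : Type u} [Field k] [CommRing B] [Algebra k B] [Algebra.FiniteType k B]
    {n : ℕ} {ι : B →ₐ[k] OGL k n} (Q : QAct ι) (hι : Function.Injective ι)
    (V : Type u) [CommRing V] [IsDomain V] [ValuationRing V] [Algebra k V]
    {C0 : Type u} [CommRing C0] [Algebra V C0] [Algebra k C0] [IsScalarTower k V C0]
    [Algebra.Smooth V C0] (z : B →ₐ[k] C0) {F : Type u} [Field F] [Algebra k F]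
    (ρ : C0 →ₐ[k] F) (γ : GL (Fin n) F) (hγ : res ι γ = ρ.comp z)
    {R1 : Type u} [CommRing R1] [IsLocalRing R1] (μ : OGL C0[X] n →+* R1) (hμ : LocPres μ 0)
    (hu : ∀ c, psi n (ρ : C0 →+* F) c ≠ 0 → IsUnit (μ c))
    (k1 : Type u) [Field k1] [Algebra B[X] k1] [IsFractionRing B[X] k1] :
    ∃ (V1 : Type u) (_ : CommRing V1) (_ : IsDomain V1) (_ : ValuationRing V1) (_ : Algebra k1 V1)
      (d : ℕ) (π : (MvPolynomial (Fin d) V1)[X] →+* R1) (G : (MvPolynomial (Fin d) V1)[X]),
      Pres π G ∧ ∀ a, π (C (MvPolynomial.C (algebraMap k1 V1 (algebraMap B[X] k1 a)))) =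
        μ (phi Q V z (1 ⊗ₜ a)) := by
  let _ : Algebra (OGL C0[X] n) R1 := μ.toAlgebra
  let _ : Algebra (V ⊗[k] B[X]) (OGL C0[X] n) := (phi Q V z).toRingHom.toAlgebra
  have : Algebra.Smooth (V ⊗[k] B[X]) (OGL C0[X] n) := phi_smooth Q V z
  have := atPrime_of_locPres (A := OGL C0[X] n) (T := R1) hμ
  obtain ⟨d, π, G, h1, h2, h3, h4⟩ := locPres_compat (V ⊗[k] B[X]) (OGL C0[X] n) R1
    ((maximalIdeal R1).comap (algebraMap (OGL C0[X] n) R1))
  have h4' : ∀ w, π (C (MvPolynomial.C w)) = μ (phi Q V z w) := h4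
  let q : Ideal (V ⊗[k] B[X]) := (maximalIdeal R1).comap (μ.comp (phi Q V z).toRingHom)
  have hq0 : q.IsPrime := Ideal.comap_isPrime _ _
  have hq : ∀ w, w ∉ q ↔ IsUnit (π (C (MvPolynomial.C w))) := fun w => by
    rw [h4', Ideal.mem_comap, mem_maximalIdeal, mem_nonunits_iff, not_not]
    rfl
  let b := Module.Basis.ofVectorSpace k B[X]
  have hb : ∀ w i, (b.baseChange V).repr w i = 1 → w ∉ q := fun w i h =>
    (hq w).2 (h4' w ▸ hu _ (phi_ne Q V z hι ρ γ hγ b w i h))
  have := gauss_dom (b.baseChange V) q hb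
  have := gauss_val (b.baseChange V) q hb
  obtain ⟨π', G', h5, h6⟩ := pres_compat π G h1 h2 h3 q hq
  let r : B[X] →+* Localization.AtPrime q := (algebraMap (V ⊗[k] B[X]) _).comp
    (Algebra.TensorProduct.includeRight (R := k) (A := V) (B := B[X])).toRingHom
  have : Nontrivial B[X] := (algebraMap B[X] k1).domain_nontrivial
  have hr : ∀ a : nonZeroDivisors B[X], IsUnit (r a) := fun a => by
    obtain ⟨i, hi⟩ := Finsupp.ne_iff.1 fun h =>
      nonZeroDivisors.coe_ne_zero a (b.repr.map_eq_zero_iff.1 h)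
    refine IsLocalization.map_units _ (⟨1 ⊗ₜ a.1, fun h =>
      hb ((b.repr a.1 i)⁻¹ • (1 : V) ⊗ₜ[k] a.1) i ?_ ?_⟩ : q.primeCompl)
    · rw [← tmul_smul, Module.Basis.baseChange_repr_tmul, map_smul, Finsupp.smul_apply,
        smul_eq_mul, inv_mul_cancel₀ hi, one_smul]
    · exact q.smul_of_tower_mem _ h
  refine ⟨Localization.AtPrime q, inferInstance, inferInstance, ValuationRing.mk,
    (IsLocalization.lift hr).toAlgebra, d, π', G', h5, fun a => ?_⟩
  rw [← h4', ← h6]
  exact congrArg (fun x => π' (C (MvPolynomial.C x))) (IsLocalization.lift_eq hr a)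

end Pool.Agent.GR.Vers
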