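import Pool.Agent.P.MP_c1f06d_ag.r.VersB
import Pool.Agent.P.MP_c1f06d_ag.H90

open Matrix IsLocalRing TensorProduct

universe u

namespace Pool.Agent.GR.Vers

open Pool.Agent.P.MP_c1f06d_ag

theorem desc_hom {k A A' B : Type u} [CommRing k] [CommRing A] [CommRing A'] [CommRing B]
    [Algebra k A] [Algebra k A'] [Algebra k B] [Algebra A A'] [IsScalarTower k A A']
    [Module.FaithfullyFlat A A'] (y : B →ₐ[k] A')
    (h : ∀ b, y b ⊗ₜ[A] (1 : A') = (1 : A') ⊗ₜ[A] y b) :
    ∃ y0 : B →ₐ[k] A, (IsScalarTower.toAlgHom k A A').comp y0 = y := by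
  have hi : Function.Injective (algebraMap A A') := FaithfulSMul.algebraMap_injective A A'
  choose r hr using fun x => mem_range_of_includeLeft_eq (R := A) (y x) (h x)
  exact ⟨{ toFun := r
           map_one' := hi (by rw [hr, map_one, map_one])
           map_mul' := fun x y => hi (by rw [map_mul, hr, hr, hr, map_mul])
           map_zero' := hi (by rw [hr, map_zero, map_zero])
           map_add' := fun x y => hi (by rw [map_add, hr, hr, hr, map_add])
           commutes' := fun c => hi (by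
             rw [hr, AlgHom.commutes, IsScalarTower.algebraMap_apply k A A']) }, AlgHom.ext hr⟩

theorem local_cover (R E : Type u) [CommRing R] [IsLocalRing R] [CommRing E] [Algebra R E]
    [Module.FaithfullyFlat R E] :
    ∃ (S : Type u) (_ : CommRing S) (_ : IsLocalRing S) (_ : Algebra R S),
      Module.FaithfullyFlat R S ∧ Nonempty (E →ₐ[R] S) := by
  obtain ⟨q, hq, hq'⟩ := Ideal.exists_isPrime_liesOver_of_faithfullyFlat (B := E) (maximalIdeal R)
  let S := Localization.AtPrime q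
  have hflat : Module.Flat R S := Module.Flat.trans R E S
  have hloc : IsLocalHom (algebraMap R S) := by
    refine ⟨fun a ha => ?_⟩
    by_contra hna
    have h1 : a ∈ maximalIdeal R := hna
    rw [hq'.over, Ideal.under, Ideal.mem_comap] at h1
    rw [IsScalarTower.algebraMap_apply R E S, IsLocalization.AtPrime.isUnit_to_map_iff S q] at ha
    exact ha h1
  exact ⟨S, inferInstance, inferInstance, inferInstance,
    Module.FaithfullyFlat.of_flat_of_isLocalHom, ⟨IsScalarTower.toAlgHom R E S⟩⟩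

/-- the universal cover that trivialises a point of the quotient -/
theorem univ_cover {B O T T' : Type u} [CommRing B] [CommRing O] [CommRing T] [CommRing T']
    [Algebra B O] [Module.Flat B O] (y : B →+* T) (f : T →+* T') (hf : Function.Injective f) :
    ∃ (W W' : Type u) (_ : CommRing W) (_ : CommRing W') (l : T →+* W) (r : O →+* W)
      (F : W →+* W') (l' : T' →+* W'), Function.Injective F ∧
      (∀ b, r (algebraMap B O b) = l (y b)) ∧ (∀ t, F (l t) = l' (f t)) ∧
      ∀ (T2 : Type u) [CommRing T2] (φ : T →+* T2) (e : O →+* T2),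
        (∀ b, e (algebraMap B O b) = φ (y b)) → ∃ m : W →+* T2, m.comp l = φ ∧ m.comp r = e := by
  let _ : Algebra B T := y.toAlgebra
  let _ : Algebra B T' := (f.comp y).toAlgebra
  let f' : T →ₐ[B] T' := ⟨f, fun _ => rfl⟩
  refine ⟨T ⊗[B] O, T' ⊗[B] O, inferInstance, inferInstance,
    Algebra.TensorProduct.includeLeftRingHom, Algebra.TensorProduct.includeRight.toRingHom,
    (Algebra.TensorProduct.map f' (AlgHom.id B O)).toRingHom,
    Algebra.TensorProduct.includeLeftRingHom,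
    Module.Flat.rTensor_preserves_injective_linearMap (M := O) f'.toLinearMap hf,
    fun b => (Algebra.TensorProduct.includeRight (R := B) (A := T) (B := O)).commutes b,
    fun t => rfl, fun T2 _ φ e h => ?_⟩
  let _ : Algebra B T2 := (φ.comp y).toAlgebra
  let φ' : T →ₐ[B] T2 := ⟨φ, fun _ => rfl⟩
  let e' : O →ₐ[B] T2 := ⟨e, h⟩
  refine ⟨(Algebra.TensorProduct.productMap φ' e').toRingHom, RingHom.ext fun t => ?_,
    RingHom.ext fun o => ?_⟩
  · exact Algebra.TensorProduct.productMap_left_apply φ' e' t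
  · exact Algebra.TensorProduct.productMap_right_apply φ' e' o

theorem field_cover {B O F : Type u} [CommRing B] [CommRing O] [Field F]
    [Algebra B O] [Module.FaithfullyFlat B O] (y : B →+* F) :
    ∃ (F' : Type u) (_ : Field F') (l : F →+* F') (r : O →+* F'),
      ∀ b, r (algebraMap B O b) = l (y b) := by
  let _ : Algebra B F := y.toAlgebra
  have : Nontrivial (F ⊗[B] O) := Module.FaithfullyFlat.rTensor_nontrivial B O F
  obtain ⟨m, hm⟩ := Ideal.exists_maximal (F ⊗[B] O)
  exact ⟨(F ⊗[B] O) ⧸ m, Ideal.Quotient.field m,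
    (Ideal.Quotient.mk m).comp Algebra.TensorProduct.includeLeftRingHom,
    (Ideal.Quotient.mk m).comp Algebra.TensorProduct.includeRight.toRingHom, fun b =>
      congrArg (Ideal.Quotient.mk m)
        ((Algebra.TensorProduct.includeRight (R := B) (A := F) (B := O)).commutes b)⟩

variable {k : Type u} [Field k] {n : ℕ} {G H : AffQuot k n}

section pt

variable {A A' : Type u} [CommRing A] [Algebra k A] [CommRing A'] [Algebra k A']

theorem pt_map (φ : A →+* A') (h : ∀ c, φ (algebraMap k A c) = algebraMap k A' c)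
    {g : GL (Fin n) A} (hg : G.Pt g) : G.Pt (mp φ g) := fun b hb => by
  rw [ev_nat φ h, hg b hb, ← ev_nat φ h, map_one]

theorem pt_inj (φ : A →+* A') (h : ∀ c, φ (algebraMap k A c) = algebraMap k A' c)
    (hφ : Function.Injective φ) {g : GL (Fin n) A} (hg : G.Pt (mp φ g)) : G.Pt g :=
  fun b hb => hφ (by rw [← ev_nat φ h, hg b hb, ← ev_nat φ h, map_one])

theorem pt_inv {g : GL (Fin n) A} (hg : G.Pt g) : G.Pt g⁻¹ := by
  have := (G.coset A g 1).1 hg
  rwa [mul_one] at this

theorem pt_mul {g g' : GL (Fin n) A} (hg : G.Pt g) (hg' : G.Pt g') : G.Pt (g * g') :=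
  fun b hb => ((G.coset A g (g * g')).2 (by rwa [inv_mul_cancel_left]) b hb).symm.trans (hg b hb)

end pt

variable {R : Type u} [CommRing R] [Algebra k R] {z : H.B →ₐ[k] R}
  {T T' : Type u} [CommRing T] [Algebra R T] [CommRing T'] [Algebra R T']

theorem tw_one : G.TwPt H z (1 : GL (Fin n) T) := fun _ _ _ φ γ _ => by
  rw [map_one, mul_one, inv_mul_cancel]
  exact fun _ _ => rfl

theorem tw_mul {g g' : GL (Fin n) T} (hg : G.TwPt H z g) (hg' : G.TwPt H z g') :
    G.TwPt H z (g * g') := fun T2 _ _ φ γ h => by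
  have := pt_mul (hg T2 φ γ h) (hg' T2 φ γ h)
  rwa [mul_assoc, ← mul_assoc γ, ← mul_assoc γ, mul_inv_cancel, one_mul, ← mul_assoc,
    mul_assoc γ⁻¹, ← map_mul] at this

theorem tw_inv {g : GL (Fin n) T} (hg : G.TwPt H z g) : G.TwPt H z g⁻¹ := fun T2 _ _ φ γ h => by
  have := pt_inv (hg T2 φ γ h)
  rwa [_root_.mul_inv_rev, _root_.mul_inv_rev, inv_inv, ← mul_assoc, ← map_inv] at this

theorem tw_map (f : T →ₐ[R] T') {g : GL (Fin n) T} (hg : G.TwPt H z g) :
    G.TwPt H z (gm f g) := fun T2 _ _ φ γ h =>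
  hg T2 (φ.comp (f : T →+* T')) γ fun b => (h b).trans (congrArg φ (f.commutes _).symm)

theorem tw_inj (f : T →ₐ[R] T') (hf : Function.Injective f) {g : GL (Fin n) T}
    (hg : G.TwPt H z (gm f g)) : G.TwPt H z g := fun T2 _ _ φ γ h => by
  have := H.ff
  obtain ⟨W, W', _, _, l, r, F, l', hF, h1, h2, h3⟩ := univ_cover (O := OGL k n)
    ((algebraMap R T).comp (z : H.B →+* R)) (f : T →+* T') hf
  let _ : Algebra k W := (r.comp (algebraMap k _)).toAlgebra
  let _ : Algebra k W' := (F.comp (algebraMap k W)).toAlgebra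
  obtain ⟨m, m1, m2⟩ := h3 T2 φ (ev k γ : OGL k n →+* T2) h
  have h4 := hg W' l' (mp F (mp r (uni k n))) fun b => by
    rw [ev_nat F fun _ => rfl, ev_of r fun _ => rfl]
    exact (congrArg F (h1 b)).trans ((h2 _).trans (congrArg l' (f.commutes _)))
  have h5 : GeneralLinearGroup.map l' (gm f g) = mp F (mp l g) := gl_ext fun i j => (h2 _).symm
  rw [h5, ← map_inv, ← map_mul, ← map_mul] at h4
  have h6 := pt_map m (fun c => (RingHom.congr_fun m2 _).trans ((ev k γ).commutes c))
    (pt_inj F (fun _ => rfl) hF h4)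
  rwa [map_mul, map_mul, map_inv, mp_mp, mp_mp, m1, m2, ev_uni] at h6

theorem gm_gm {T'' : Type u} [CommRing T''] [Algebra R T''] (f : T →ₐ[R] T') (f' : T' →ₐ[R] T'')
    (g : GL (Fin n) T) : gm f' (gm f g) = gm (f'.comp f) g := Units.ext rfl

theorem gl_app {A : Type u} [CommRing A] {g g' : GL (Fin n) A} (h : g = g') (i j : Fin n) :
    (g : Mat n A) i j = (g' : Mat n A) i j := by rw [h]

/-- a torsor in a frame -/
theorem torsor_frame (G H : AffQuot k n) [IsLocalRing R] (z : H.B →ₐ[k] R) (E : Type u)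
    [CommRing E] [Algebra R E] (hE : G.IsTorsor H z E) :
    ∃ (S : Type u) (_ : CommRing S) (_ : Algebra R S) (_ : Module.FaithfullyFlat R S)
      (hh : GL (Fin n) S),
      (∀ (T : Type u) [CommRing T] [Algebra R T] (a b : S →ₐ[R] T),
        G.TwPt H z (gm b hh * (gm a hh)⁻¹)) ∧
      ∀ (T : Type u) [CommRing T] [Algebra R T], Nonempty (E →ₐ[R] T) ↔ ∃ g : GL (Fin n) T,
        G.TwPt H z (gm (Algebra.TensorProduct.includeLeft : T →ₐ[R] T ⊗[R] S) g *
          (gm (Algebra.TensorProduct.includeRight : S →ₐ[R] T ⊗[R] S) hh)⁻¹) := by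
  obtain ⟨hff, act, h1, hnat⟩ := hE
  obtain ⟨S, _, _, _, hS, ⟨e0⟩⟩ := local_cover R E
  choose mv hmv huq using fun (T : Type u) (_ : CommRing T) (_ : Algebra R T)
    (e e' : E →ₐ[R] T) => (h1 T e).2.2 e'
  beta_reduce at hmv huq
  have nat : ∀ (T T' : Type u) [CommRing T] [Algebra R T] [CommRing T'] [Algebra R T']
      (f : T →ₐ[R] T') (e e' : E →ₐ[R] T),
      gm f (mv T _ _ e e').1 = (mv T' _ _ (f.comp e) (f.comp e')).1 := fun T T' _ _ _ _ f e e' =>
    congrArg Subtype.val (huq T' _ _ _ _ ⟨_, tw_map f (mv T _ _ e e').2⟩ (by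
      rw [← hnat T T' f (mv T _ _ e e') _ e rfl, hmv]))
  have one : ∀ (T : Type u) [CommRing T] [Algebra R T] (e : E →ₐ[R] T), (mv T _ _ e e).1 = 1 :=
    fun T _ _ e => congrArg Subtype.val (huq T _ _ e e ⟨1, tw_one⟩ ((h1 T e).1 _ rfl)).symm
  have mul : ∀ (T : Type u) [CommRing T] [Algebra R T] (a b c : E →ₐ[R] T),
      (mv T _ _ b c).1 * (mv T _ _ a b).1 = (mv T _ _ a c).1 := fun T _ _ a b c =>
    congrArg Subtype.val (huq T _ _ a c ⟨_, tw_mul (mv T _ _ b c).2 (mv T _ _ a b).2⟩ (by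
      rw [(h1 T a).2.1 (mv T _ _ b c) (mv T _ _ a b) _ rfl, hmv, hmv]))
  obtain ⟨h, hd, hh⟩ := h90 (R := R) (S := S) (n := n)
    (fun T _ _ a b => ((mv T _ _ (a.comp e0) (b.comp e0)).1 : Mat n T))
    (fun T T' _ _ _ _ f a b => congrArg Units.val (nat T T' f _ _))
    (fun T _ _ a => congrArg Units.val (one T _))
    (fun T _ _ a b c => congrArg Units.val (mul T _ _ _))
  let h0 : GL (Fin n) S := GeneralLinearGroup.mk'' h hd
  have co : ∀ (T : Type u) [CommRing T] [Algebra R T] (a b : S →ₐ[R] T),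
      (mv T _ _ (a.comp e0) (b.comp e0)).1 * gm a h0 = gm b h0 := fun T _ _ a b =>
    Units.ext (hh T a b)
  refine ⟨S, inferInstance, inferInstance, hS, h0, fun T _ _ a b => ?_, fun T _ _ => ?_⟩
  · rw [← co T a b, mul_inv_cancel_right]
    exact (mv T _ _ _ _).2
  let W := T ⊗[R] S
  let il : T →ₐ[R] W := Algebra.TensorProduct.includeLeft
  let ir : S →ₐ[R] W := Algebra.TensorProduct.includeRight
  let i1 : W →ₐ[R] W ⊗[T] W := Algebra.TensorProduct.includeLeft
  let i2 : W →ₐ[R] W ⊗[T] W := Algebra.TensorProduct.includeRight.restrictScalars R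
  have e12 : i1.comp il = i2.comp il := AlgHom.ext fun t =>
    ((Algebra.TensorProduct.includeRight (R := T) (A := W) (B := W)).commutes t).symm
  constructor
  · rintro ⟨e⟩
    let g1 := (mv W _ _ (ir.comp e0) (il.comp e)).1 * gm ir h0
    have hg : gm i1 g1 = gm i2 g1 := by
      rw [map_mul, map_mul, nat, nat, gm_gm, gm_gm, ← co _ (i1.comp ir) (i2.comp ir), ← mul_assoc,
        ← AlgHom.comp_assoc, ← AlgHom.comp_assoc, ← AlgHom.comp_assoc, ← AlgHom.comp_assoc, mul,
        e12]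
    have hg' : gm i1 g1⁻¹ = gm i2 g1⁻¹ := by rw [map_inv, map_inv, hg]
    obtain ⟨g, hg0⟩ := gl_range (algebraMap T W) (FaithfulSMul.algebraMap_injective T W) g1
      (fun i j => mem_range_of_includeLeft_eq _
        (gl_app hg i j))
      fun i j => mem_range_of_includeLeft_eq _
        (gl_app hg' i j)
    have hg1 : gm il g = g1 := hg0
    refine ⟨g, ?_⟩
    change G.TwPt H z (gm il g * (gm ir h0)⁻¹)
    rw [hg1, mul_inv_cancel_right]
    exact (mv W _ _ _ _).2
  · rintro ⟨g, hg⟩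
    change G.TwPt H z (gm il g * (gm ir h0)⁻¹) at hg
    have e : i1.comp (act W ⟨_, hg⟩ (ir.comp e0)) = i2.comp (act W ⟨_, hg⟩ (ir.comp e0)) := by
      rw [hnat _ _ i1 ⟨_, hg⟩ ⟨_, tw_map i1 hg⟩ _ rfl, hnat _ _ i2 ⟨_, hg⟩ ⟨_, tw_map i2 hg⟩ _ rfl,
        ← AlgHom.comp_assoc, ← AlgHom.comp_assoc,
        ← hmv _ _ _ ((i1.comp ir).comp e0) ((i2.comp ir).comp e0)]
      refine (h1 _ _).2.1 _ _ _ ?_
      change gm i1 _ = gm i2 _ * _
      rw [map_mul, map_mul, map_inv, map_inv, gm_gm, gm_gm, gm_gm, gm_gm, e12,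
        ← co _ (i1.comp ir) (i2.comp ir), _root_.mul_inv_rev, mul_assoc, inv_mul_cancel_right]
    obtain ⟨y, -⟩ := desc_hom (A := T) (act W ⟨_, hg⟩ (ir.comp e0)) fun b => AlgHom.congr_fun e b
    exact ⟨y⟩

end Pool.Agent.GR.Vers
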