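import Pool.Agent.P.MP_c1f06d_ag.r.VersC
import Pool.Agent.P.MP_c1f06d_ag.r.VersT
import Pool.Agent.P.MP_c1f06d_ag.r.CTDefs

open Matrix Polynomial IsLocalRing TensorProduct

universe u

namespace Pool.Agent.GR

open Pool.Agent.P.MP_c1f06d_ag

namespace Vers

theorem nonempty_qact {k B : Type u} [Field k] [CommRing B] [Algebra k B] {n : ℕ}
    (v : B →ₐ[k] OGL k n) (HH : HS k n) (ι : HH.B ≃ₐ[k] B)
    (hι : ∀ (A : Type u) [CommRing A] [Algebra k A] (g : GL (Fin n) A) (b : HH.B),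
      HH.act g (HH.pt A) b = ev k g (v (ι b))) : Nonempty (QAct v) := by
  have e : ∀ {A : Type u} [CommRing A] [Algebra k A] (y : HH.B →ₐ[k] A),
      (y.comp ι.symm.toAlgHom).comp ι.toAlgHom = y := fun y => AlgHom.ext fun b => by simp
  have e' : ∀ {A : Type u} [CommRing A] [Algebra k A] (y : B →ₐ[k] A),
      (y.comp ι.toAlgHom).comp ι.symm.toAlgHom = y := fun y => AlgHom.ext fun b => by simp
  have r : ∀ {A : Type u} [CommRing A] [Algebra k A] (γ : GL (Fin n) A),
      (res v γ).comp ι.toAlgHom = HH.act γ (HH.pt A) := fun γ =>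
    AlgHom.ext fun b => (hι _ γ b).symm
  refine ⟨⟨fun g y => (HH.act g (y.comp ι.toAlgHom)).comp ι.symm.toAlgHom, fun y => ?_,
    fun g g' y => ?_, fun f g y => ?_, fun J hJ y y' h => ?_, fun g γ => ?_⟩⟩
  · rw [HH.act_one, e']
  · rw [HH.act_mul, e]
  · rw [← AlgHom.comp_assoc, HH.act_nat, AlgHom.comp_assoc]
  · obtain ⟨g, h1, h2⟩ := HH.t2 J hJ (y.comp ι.toAlgHom) (y'.comp ι.toAlgHom) fun b => h _
    exact ⟨g, h1, by rw [h2, e']⟩
  · rw [r, ← HH.act_mul, ← r, e']

variable {k0 : Type u} [Field k0] {n : ℕ} {G0 H : AffQuot k0 n} (Q : QAct H.B.val)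
  {k1 : Type u} [Field k1] [Algebra k0 k1] {z1 : H.B →ₐ[k0] k1}
  {R : Type u} [CommRing R] [Algebra k0 R] {z : H.B →ₐ[k0] R}
  {R1 : Type u} [CommRing R1] [Algebra R R1] [Algebra k0 R1] [IsScalarTower k0 R R1]
  [Algebra k1 R1] {u : GL (Fin n) R1}

theorem tw_twist (hz : ∀ b, algebraMap k1 R1 (z1 b) =
      Q.act u⁻¹ ((IsScalarTower.toAlgHom k0 R R1).comp z) b)
    {T : Type u} [CommRing T] [Algebra R T] [Algebra k1 T] (φ0 : R1 →+* T)
    (h1 : ∀ r, φ0 (algebraMap R R1 r) = algebraMap R T r)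
    (h2 : ∀ c, φ0 (algebraMap k1 R1 c) = algebraMap k1 T c) (g : GL (Fin n) T) :
    G0.TwPt H z1 g ↔ G0.TwPt H z (mp φ0 u * g * (mp φ0 u)⁻¹) := by
  have key : ∀ (T' : Type u) [CommRing T'] [Algebra k0 T'] (φ : T →+* T') (γ : GL (Fin n) T'),
      (∀ c, φ (φ0 (algebraMap k0 R1 c)) = algebraMap k0 T' c) →
      ((∀ b : H.B, ev k0 γ b = φ (algebraMap k1 T (z1 b))) ↔
        ∀ b : H.B, ev k0 (mp φ (mp φ0 u) * γ) b = φ (algebraMap R T (z b))) := by
    intro T' _ _ φ γ hφ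
    let Φ : R1 →ₐ[k0] T' := ⟨φ.comp φ0, hφ⟩
    have e := Q.act_nat Φ u⁻¹ ((IsScalarTower.toAlgHom k0 R R1).comp z)
    rw [map_inv] at e
    have e1 : ∀ b, φ (algebraMap k1 T (z1 b)) =
        Q.act (gm Φ u)⁻¹ (Φ.comp ((IsScalarTower.toAlgHom k0 R R1).comp z)) b := fun b => by
      rw [← e, ← h2, hz]
      rfl
    have e2 : ∀ b, φ (algebraMap R T (z b)) =
        Φ.comp ((IsScalarTower.toAlgHom k0 R R1).comp z) b := fun b => by
      rw [← h1]
      rfl
    constructor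
    · intro h b
      have h3 : res H.B.val γ = _ := AlgHom.ext fun b => (h b).trans (e1 b)
      have h4 := Q.act_res (gm Φ u) γ
      rw [h3, ← Q.act_mul, mul_inv_cancel, Q.act_one] at h4
      exact (AlgHom.congr_fun h4 b).symm.trans (e2 b).symm
    · intro h b
      have h3 : res H.B.val (gm Φ u * γ) = _ := AlgHom.ext fun b => (h b).trans (e2 b)
      have h4 := Q.act_res (gm Φ u)⁻¹ (gm Φ u * γ)
      rw [h3, inv_mul_cancel_left] at h4
      exact (AlgHom.congr_fun h4 b).symm.trans (e1 b).symm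
  constructor
  · intro h T' _ _ φ γ hγ
    have hφ : ∀ c, φ (φ0 (algebraMap k0 R1 c)) = algebraMap k0 T' c := fun c => by
      rw [IsScalarTower.algebraMap_apply k0 R R1, h1, ← z.commutes, ← hγ]
      exact (ev k0 γ).commutes c
    have h3 := h T' φ ((mp φ (mp φ0 u))⁻¹ * γ) ((key T' φ _ hφ).2 (by rwa [mul_inv_cancel_left]))
    rw [map_mul, map_mul, map_inv]
    rw [_root_.mul_inv_rev, inv_inv] at h3
    simpa only [mul_assoc] using h3
  · intro h T' _ _ φ γ hγ
    have hφ : ∀ c, φ (φ0 (algebraMap k0 R1 c)) = algebraMap k0 T' c := fun c => by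
      rw [← (Q.act u⁻¹ ((IsScalarTower.toAlgHom k0 R R1).comp z)).commutes, ← hz, h2, ← hγ]
      exact (ev k0 γ).commutes c
    have h3 := h T' φ _ ((key T' φ γ hφ).1 hγ)
    rw [map_mul, map_mul, map_inv, _root_.mul_inv_rev] at h3
    simpa only [mul_assoc, inv_mul_cancel_left] using h3

theorem pt_comp (H1 : HS k1 n) {A A' : Type u} [CommRing A] [Algebra k1 A] [CommRing A']
    [Algebra k1 A'] (f : A →ₐ[k1] A') : f.comp (H1.pt A) = H1.pt A' :=
  AlgHom.ext fun _ => f.commutes _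

theorem orb_eq (H1 : HS k1 n) {A : Type u} [CommRing A] [Algebra k1 A] (g g' : GL (Fin n) A) :
    g'⁻¹ * g ∈ H1.G A ↔ H1.act g (H1.pt A) = H1.act g' (H1.pt A) := by
  change H1.act _ _ = _ ↔ _
  constructor
  · intro h
    conv_rhs => rw [← h, ← H1.act_mul, mul_inv_cancel_left]
  · intro h
    rw [H1.act_mul, h, ← H1.act_mul, inv_mul_cancel, H1.act_one]

theorem versal_end [IsLocalRing R] [IsDomain R1] (hi : Function.Injective (algebraMap R R1))
    (hz : ∀ b, algebraMap k1 R1 (z1 b) =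
      Q.act u⁻¹ ((IsScalarTower.toAlgHom k0 R R1).comp z) b) (H1 : HS k1 n)
    (hG : ∀ (A : Type u) [CommRing A] [Algebra k1 A] (g : GL (Fin n) A),
      g ∈ H1.G A ↔ G0.TwPt H z1 g)
    (hCT : ∀ y : H1.B →ₐ[k1] R1,
      H1.Triv ((IsScalarTower.toAlgHom k1 R1 (FractionRing R1)).comp y) → H1.Triv y)
    [IsDomain R] (E : Type u) [CommRing E] [Algebra R E] (hE : G0.IsTorsor H z E)
    (hK : Nonempty (E →ₐ[R] FractionRing R)) : Nonempty (E →ₐ[R] R1) := by
  obtain ⟨S, _, _, _, hh, co, fr⟩ := torsor_frame G0 H z E hE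
  let S1 := R1 ⊗[R] S
  let ir : S →ₐ[R] S1 := Algebra.TensorProduct.includeRight
  let g1 : GL (Fin n) S1 := (gm ir hh)⁻¹ * mp (algebraMap R1 S1) u
  obtain ⟨y, hy⟩ : ∃ y : H1.B →ₐ[k1] R1,
      (IsScalarTower.toAlgHom k1 R1 S1).comp y = H1.act g1 (H1.pt S1) := by
    let W := S1 ⊗[R1] S1
    let i1 : S1 →ₐ[k1] W := Algebra.TensorProduct.includeLeft
    let i2 : S1 →ₐ[k1] W := Algebra.TensorProduct.includeRight.restrictScalars k1
    let a1 : S →ₐ[R] W := Algebra.TensorProduct.includeLeft.comp ir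
    let a2 : S →ₐ[R] W := (Algebra.TensorProduct.includeRight.restrictScalars R).comp ir
    have e1 : gm i1 g1 = (gm a1 hh)⁻¹ * mp (algebraMap R1 W) u := by
      rw [map_mul, map_inv]
      rfl
    have e2 : gm i2 g1 = (gm a2 hh)⁻¹ * mp (algebraMap R1 W) u := by
      rw [map_mul, map_inv]
      refine congrArg ((gm a2 hh)⁻¹ * ·) (gl_ext fun i j => ?_)
      exact (Algebra.TensorProduct.includeRight (R := R1) (A := S1) (B := S1)).commutes _
    have e : i1.comp (H1.act g1 (H1.pt S1)) = i2.comp (H1.act g1 (H1.pt S1)) := by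
      rw [H1.act_nat, H1.act_nat, pt_comp, pt_comp, ← orb_eq, hG,
        tw_twist Q hz (algebraMap R1 W) (fun r => (IsScalarTower.algebraMap_apply R R1 W r).symm)
          fun c => (IsScalarTower.algebraMap_apply k1 R1 W c).symm, e1, e2, _root_.mul_inv_rev,
        inv_inv]
      simpa only [mul_assoc, mul_inv_cancel_left, mul_inv_cancel, mul_one] using co W a1 a2
    exact desc_hom _ fun b => AlgHom.congr_fun e b
  let K1 := FractionRing R1
  obtain ⟨e0⟩ := hK
  have hK1 : Function.Injective (Algebra.ofId R K1) := by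
    change Function.Injective (algebraMap R K1)
    rw [IsScalarTower.algebraMap_eq R R1 K1]
    exact (IsFractionRing.injective R1 K1).comp hi
  obtain ⟨g, hg⟩ := (fr K1).1 ⟨(IsFractionRing.liftAlgHom hK1).comp e0⟩
  obtain ⟨σ, hσ⟩ : H1.Triv y := by
    let S2 := K1 ⊗[R] S
    let l2 : K1 →ₐ[k1] S2 := ⟨algebraMap K1 S2, fun _ => rfl⟩
    let m : S1 →ₐ[k1] S2 := ⟨(Algebra.TensorProduct.map (IsScalarTower.toAlgHom R R1 K1)
      (AlgHom.id R S)).toRingHom, fun _ => rfl⟩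
    let φ0 : R1 →+* S2 := (algebraMap K1 S2).comp (algebraMap R1 K1)
    refine hCT y ⟨(mp (algebraMap R1 K1) u)⁻¹ * g, AlgHom.ext fun b =>
      FaithfulSMul.algebraMap_injective K1 S2 (AlgHom.congr_fun (?_ : l2.comp _ = l2.comp _) b)⟩
    have e : l2.comp ((IsScalarTower.toAlgHom k1 R1 K1).comp y) =
        m.comp ((IsScalarTower.toAlgHom k1 R1 S1).comp y) := AlgHom.ext fun _ => rfl
    have e1 : gm l2 ((mp (algebraMap R1 K1) u)⁻¹ * g) = (mp φ0 u)⁻¹ *
        gm (Algebra.TensorProduct.includeLeft : K1 →ₐ[R] S2) g := by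
      rw [map_mul, map_inv]
      rfl
    have e2 : gm m g1 = (gm (Algebra.TensorProduct.includeRight : S →ₐ[R] S2) hh)⁻¹ *
        mp φ0 u := by
      have e3 : gm m (gm ir hh) = gm (Algebra.TensorProduct.includeRight : S →ₐ[R] S2) hh :=
        gl_ext fun i j => AlgHom.congr_fun (Algebra.TensorProduct.map_comp_includeRight
          (IsScalarTower.toAlgHom R R1 K1) (AlgHom.id R S)) _
      rw [map_mul, map_inv, e3]
      rfl
    rw [H1.act_nat, e, hy, H1.act_nat, pt_comp, pt_comp, ← H1.act_mul, e1, e2]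
    refine (hG S2 _).2 ((tw_twist Q hz φ0 (fun r => ?_) (fun _ => rfl) _).2 ?_)
    · rw [RingHom.comp_apply, ← IsScalarTower.algebraMap_apply, ← IsScalarTower.algebraMap_apply]
    · simpa only [mul_assoc, mul_inv_cancel_left, mul_inv_cancel, mul_one] using hg
  have h1 := congrArg (IsScalarTower.toAlgHom k1 R1 S1).comp hσ
  rw [H1.act_nat, hy, pt_comp, ← H1.act_mul] at h1
  have h2 := (tw_twist Q hz (algebraMap R1 S1)
    (fun r => (IsScalarTower.algebraMap_apply R R1 S1 r).symm) (fun _ => rfl) _).1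
    ((hG S1 _).1 h1)
  refine (fr R1).2 ⟨u * σ, ?_⟩
  rw [map_mul, mul_assoc]
  simp only [g1, mul_assoc, mul_inv_cancel, mul_one] at h2
  exact h2

omit [Algebra k0 R1] [IsScalarTower k0 R R1] [Algebra k1 R1] in
theorem spread_point [IsLocalRing R] (E : Type u) [CommRing E] [Algebra R E]
    (hE : G0.IsTorsor H z E) (h : Nonempty (E →ₐ[R] R1)) (P : R[X] → Prop)
    (hs : ∀ g : GL (Fin n) R1, ∃ (T : Type u) (_ : CommRing T) (_ : Algebra R T) (j : T →ₐ[R] R1)
      (f : R[X]) (_ : T →ₐ[R] Localization.Away f) (g0 : GL (Fin n) T),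
      Function.Injective j ∧ gm j g0 = g ∧ P f) :
    ∃ f, P f ∧ Nonempty (E →ₐ[R] Localization.Away f) := by
  obtain ⟨S, _, _, _, hh, -, fr⟩ := torsor_frame G0 H z E hE
  obtain ⟨g, hg⟩ := (fr R1).1 h
  obtain ⟨T, _, _, j, f, s, g0, hj, rfl, hf⟩ := hs g
  obtain ⟨e⟩ := (fr T).2 ⟨g0, tw_inj (Algebra.TensorProduct.map j (AlgHom.id R S))
    (Module.Flat.rTensor_preserves_injective_linearMap (M := S) j.toLinearMap hj) (by
      rwa [map_mul, map_inv, gm_gm, gm_gm, Algebra.TensorProduct.map_comp_includeLeft,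
        Algebra.TensorProduct.map_comp_includeRight, AlgHom.comp_id, ← gm_gm])⟩
  exact ⟨f, hf, ⟨s.comp e⟩⟩

end Vers

open Vers in
/-- Section 9, second half: a point over the punctured affine line. -/
theorem versal_core {k0 : Type u} [Field k0] {n : ℕ} (G0 H : AffQuot k0 n)
    (HH : HS k0 n) (ι : HH.B ≃ₐ[k0] H.B)
    (hι : ∀ (A : Type u) [CommRing A] [Algebra k0 A] (g : GL (Fin n) A) (b : HH.B),
      HH.act g (HH.pt A) b = ev k0 g (ι b : OGL k0 n))
    (k1 : Type u) [Field k1] [Algebra k0 k1] [Algebra (↥H.B)[X] k1]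
    [IsFractionRing (↥H.B)[X] k1] (z1 : H.B →ₐ[k0] k1)
    (hz1 : ∀ b, z1 b = algebraMap (↥H.B)[X] k1 (C b)) (H1 : HS k1 n)
    (hG : ∀ (A : Type u) [CommRing A] [Algebra k1 A] (g : GL (Fin n) A),
      g ∈ H1.G A ↔ G0.TwPt H z1 g)
    (hCT : H1.CTP)
    (V : Type u) [CommRing V] [IsDomain V] [ValuationRing V] [Algebra k0 V]
    (C0 : Type u) [CommRing C0] [Algebra V C0] [Algebra.Smooth V C0] (p : Ideal C0) [p.IsPrime]
    (R : Type u) [CommRing R] [IsLocalRing R] [Algebra C0 R] [IsLocalization.AtPrime R p]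
    [Algebra k0 R]
    (hk : ∀ c, algebraMap k0 R c = algebraMap C0 R (algebraMap V C0 (algebraMap k0 V c)))
    (z : H.B →ₐ[k0] R)
    (E : Type u) [CommRing E] [Algebra R E] (hE : G0.IsTorsor H z E)
    (hK : Nonempty (E →ₐ[R] FractionRing R)) :
    ∃ f : R[X], f.map (residue R) ≠ 0 ∧ Nonempty (E →ₐ[R] Localization.Away f) := by
  obtain ⟨Q⟩ := nonempty_qact H.B.val HH ι hι
  have : IsDomain R := by
    obtain ⟨d, π, G, h1, h2, h3⟩ := exists_locPres_of_smooth V C0 R p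
    obtain ⟨V', _, _, _, π', G', h⟩ := exists_pres_of_locPres π G h1 h2 h3
    exact h.isDomain
  let _ : Algebra k0 C0 := ((algebraMap V C0).comp (algebraMap k0 V)).toAlgebra
  have : IsScalarTower k0 V C0 := IsScalarTower.of_algebraMap_eq' rfl
  have : IsScalarTower k0 C0 R := IsScalarTower.of_algebraMap_eq hk
  have := H.ft
  have := H.ff
  obtain ⟨f, hf, z', hz'⟩ := exists_away p.primeCompl z
  let C1 := Localization.Away f
  have hfu : IsUnit (algebraMap C0 R f) := IsLocalization.map_units R (⟨f, hf⟩ : p.primeCompl)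
  let _ : Algebra C1 R := (IsLocalization.Away.lift f hfu).toAlgebra
  have hl : ∀ c, algebraMap C1 R (algebraMap C0 C1 c) = algebraMap C0 R c :=
    IsLocalization.Away.lift_eq f hfu
  have : IsScalarTower C0 C1 R :=
    IsScalarTower.of_algebraMap_eq (R := C0) (S := C1) (A := R) fun c => (hl c).symm
  have := IsLocalization.isLocalization_of_submonoid_le C1 R (Submonoid.powers f) p.primeCompl
    (Submonoid.powers_le.2 hf)
  have : Algebra.Smooth C0 C1 := Algebra.Smooth.of_isLocalization_Away f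
  have : Algebra.Smooth V C1 := Algebra.Smooth.comp V C0 C1
  have hk1 : ∀ c, algebraMap C1 R (algebraMap k0 C1 c) = algebraMap k0 R c := fun c => by
    rw [IsScalarTower.algebraMap_apply k0 C0 C1, hl, ← IsScalarTower.algebraMap_apply]
  obtain ⟨F, _, l, r, hr⟩ := field_cover (O := OGL k0 n) ((residue R).comp (z : H.B →+* R))
  let _ : Algebra k0 F := (r.comp (algebraMap k0 _)).toAlgebra
  let ρ : C1 →ₐ[k0] F := ⟨(l.comp (residue R)).comp (algebraMap C1 R), fun c => by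
    change l (residue R (algebraMap C1 R _)) = _
    rw [hk1, ← z.commutes]
    exact (hr _).symm⟩
  have hγ : res H.B.val (mp r (uni k0 n)) = ρ.comp z' := AlgHom.ext fun b =>
    (ev_of r (fun _ => rfl) _).trans ((hr b).trans
      (congrArg (fun x => l (residue R x)) (hz' _ hl b).symm))
  obtain ⟨R1, _, _, _, _, μ, h1, h2, h3, h4, h5⟩ := exists_generic
    (p.primeCompl.map (algebraMap C0 C1)) (l.comp (residue R)) n
  obtain ⟨V1, _, _, _, _, d, π, G, h6, h7⟩ := versal_pres Q Subtype.val_injective V z' ρ _ hγ μ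
    h1 h4 k1
  let _ : Algebra k1 R1 := (π.comp (C.comp (MvPolynomial.C.comp (algebraMap k1 V1)))).toAlgebra
  let _ : Algebra k0 R1 := ((algebraMap R R1).comp (algebraMap k0 R)).toAlgebra
  have : IsScalarTower k0 R R1 := IsScalarTower.of_algebraMap_eq' rfl
  let y : C1 →ₐ[k0] R1 := ⟨(algebraMap R R1).comp (algebraMap C1 R), fun c =>
    congrArg (algebraMap R R1) (hk1 c)⟩
  have hy : y.comp z' = (IsScalarTower.toAlgHom k0 R R1).comp z :=
    AlgHom.ext fun b => congrArg (algebraMap R R1) (hz' _ hl b)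
  obtain ⟨g, hg, he⟩ := spread_point E hE (versal_end Q (u := mp μ (uni C1[X] n)) h2 (fun b => by
    rw [hz1, ← hy]
    exact (h7 _).trans (phi_nat Q V z' μ y h3 b)) H1 hG
    (hCT V1 R1 (FractionRing R1) d π G h6 fun _ => rfl) E hE hK) _ h5
  refine ⟨g, fun h => hg ?_, he⟩
  rw [← Polynomial.map_map, h, Polynomial.map_zero]

/-- Section 9, second half, for an infinite residue field. -/
theorem versal {k0 : Type u} [Field k0] {n : ℕ} (G0 H : AffQuot k0 n)
    (HH : HS k0 n) (ι : HH.B ≃ₐ[k0] H.B)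
    (hι : ∀ (A : Type u) [CommRing A] [Algebra k0 A] (g : GL (Fin n) A) (b : HH.B),
      HH.act g (HH.pt A) b = ev k0 g (ι b : OGL k0 n))
    (k1 : Type u) [Field k1] [Algebra k0 k1] [Algebra (↥H.B)[X] k1]
    [IsFractionRing (↥H.B)[X] k1] (z1 : H.B →ₐ[k0] k1)
    (hz1 : ∀ b, z1 b = algebraMap (↥H.B)[X] k1 (C b)) (H1 : HS k1 n)
    (hG : ∀ (A : Type u) [CommRing A] [Algebra k1 A] (g : GL (Fin n) A),
      g ∈ H1.G A ↔ G0.TwPt H z1 g)
    (hCT : H1.CTP)
    (V : Type u) [CommRing V] [IsDomain V] [ValuationRing V] [Algebra k0 V]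
    (C0 : Type u) [CommRing C0] [Algebra V C0] [Algebra.Smooth V C0] (p : Ideal C0) [p.IsPrime]
    (R : Type u) [CommRing R] [IsLocalRing R] [Algebra C0 R] [IsLocalization.AtPrime R p]
    [Algebra k0 R]
    (hk : ∀ c, algebraMap k0 R c = algebraMap C0 R (algebraMap V C0 (algebraMap k0 V c)))
    [Infinite (IsLocalRing.ResidueField R)] (z : H.B →ₐ[k0] R)
    (E : Type u) [CommRing E] [Algebra R E] (hE : G0.IsTorsor H z E)
    (hK : Nonempty (E →ₐ[R] FractionRing R)) : Nonempty (E →ₐ[R] R) := by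
  obtain ⟨f, hf, ⟨e⟩⟩ := versal_core G0 H HH ι hι k1 z1 hz1 H1 hG hCT V C0 p R hk z E hE hK
  obtain ⟨x, hx⟩ := Set.infinite_univ.exists_notMem_finite (finite_setOfPred_isRoot hf)
  obtain ⟨v, rfl⟩ := residue_surjective x
  have hu : IsUnit (aeval v f) := (residue_ne_zero_iff_isUnit _).1 fun h0 => hx.2 (by
    change IsRoot _ _
    rw [IsRoot.def, eval_map, eval₂_at_apply]
    exact h0)
  exact ⟨(IsLocalization.Away.liftAlgHom f hu).comp e⟩

end Pool.Agent.GR
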